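import Pool.Agent.Q213.CombTree

/-!
A special tree of height `ω₁` with levels of size `ℵ₁`, which is normal.
-/

set_option autoImplicit false

open Ordinal Set Cardinal

namespace Pool.Agent.Q213.BaseTree

open Pool.Agent.H883R3 Pool.Agent.Q213.TreeH Pool.Agent.Q213.CombTree

/-- The nodes: a countable ordinal `α` and a finite set `F` of pairs `(γ, v)` with `γ < α`, such
that every `δ < α` is in some interval `[γ, v)` with `(γ, v) ∈ F`. -/
structure Node : Type where
  pos : Om1
  fin : Finset (Om1 × Om1)
  bdd : ∀ p ∈ fin, p.1 < pos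
  cov : ∀ δ < pos, ∃ p ∈ fin, p.1 ≤ δ ∧ δ < p.2

theorem Node.ext' {x y : Node} (h1 : x.pos = y.pos) (h2 : x.fin = y.fin) : x = y := by
  cases x
  cases y
  subst h1
  subst h2
  rfl

/-- The restriction of a finite set. -/
noncomputable def cut (F : Finset (Om1 × Om1)) (α : Om1) : Finset (Om1 × Om1) :=
  F.filter fun p => p.1 < α

theorem mem_cut {F : Finset (Om1 × Om1)} {α : Om1} {p : Om1 × Om1} :
    p ∈ cut F α ↔ p ∈ F ∧ p.1 < α := by
  unfold cut
  rw [Finset.mem_filter]

theorem cut_cut {F : Finset (Om1 × Om1)} {α β : Om1} (h : α ≤ β) :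
    cut (cut F β) α = cut F α := by
  ext p
  rw [mem_cut, mem_cut, mem_cut]
  constructor
  · rintro ⟨⟨h1, -⟩, h2⟩
    exact ⟨h1, h2⟩
  · rintro ⟨h1, h2⟩
    exact ⟨⟨h1, h2.trans_le h⟩, h2⟩

theorem Node.cut_self (x : Node) : cut x.fin x.pos = x.fin := by
  ext p
  rw [mem_cut]
  exact ⟨fun h => h.1, fun h => ⟨h, x.bdd p h⟩⟩

instance : PartialOrder Node where
  le x y := x.pos ≤ y.pos ∧ x.fin = cut y.fin x.pos
  le_refl x := ⟨le_rfl, x.cut_self.symm⟩
  le_trans x y z h1 h2 := by
    refine ⟨h1.1.trans h2.1, ?_⟩
    rw [h1.2, h2.2, cut_cut h1.1]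
  le_antisymm x y h1 h2 := by
    have h3 : x.pos = y.pos := le_antisymm h1.1 h2.1
    refine Node.ext' h3 ?_
    rw [h1.2, h3]
    exact y.cut_self

theorem le_def {x y : Node} : x ≤ y ↔ x.pos ≤ y.pos ∧ x.fin = cut y.fin x.pos := Iff.rfl

theorem eq_of_le_of_pos {x y : Node} (h : x ≤ y) (h' : x.pos = y.pos) : x = y := by
  refine Node.ext' h' ?_
  rw [h.2, h']
  exact y.cut_self

theorem pos_lt {x y : Node} (h : x < y) : x.pos < y.pos := by
  refine lt_of_le_of_ne h.le.1 ?_
  intro h'
  exact h.ne (eq_of_le_of_pos h.le h')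

/-- The restriction of a node. -/
noncomputable def res (y : Node) (α : Om1) (h : α ≤ y.pos) : Node where
  pos := α
  fin := cut y.fin α
  bdd p hp := (mem_cut.1 hp).2
  cov δ hδ := by
    obtain ⟨p, hp, h1, h2⟩ := y.cov δ (hδ.trans_le h)
    exact ⟨p, mem_cut.2 ⟨hp, h1.trans_lt hδ⟩, h1, h2⟩

theorem res_le (y : Node) (α : Om1) (h : α ≤ y.pos) : res y α h ≤ y := ⟨h, rfl⟩

/-- The height of a node. -/
noncomputable def hgt (x : Node) : Ordinal.{0} := typein (fun a b : Om1 => a < b) x.pos

theorem isHeight : IsHeight hgt where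
  mono a b h := by
    unfold hgt
    rw [typein_lt_typein]
    exact pos_lt h
  down t a b ha hb h := by
    have h1 : a.pos ≤ b.pos := by
      unfold hgt at h
      rw [typein_le_typein (fun a b : Om1 => a < b)] at h
      exact not_lt.1 h
    refine ⟨h1, ?_⟩
    rw [ha.le.2, hb.le.2, cut_cut h1]
  surj t β hβ := by
    obtain ⟨α, hα⟩ := typein_surj (fun a b : Om1 => a < b)
      (hβ.trans (typein_lt_type (fun a b : Om1 => a < b) t.pos))
    have h1 : α < t.pos := by
      have h2 : typein (fun a b : Om1 => a < b) α < typein (fun a b : Om1 => a < b) t.pos := by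
        rw [hα]
        exact hβ
      rwa [typein_lt_typein] at h2
    refine ⟨res t α h1.le, ?_, hα⟩
    refine lt_of_le_of_ne (res_le _ _ _) ?_
    intro h
    have : (res t α h1.le).pos = t.pos := by rw [h]
    exact h1.ne this

instance : TreeOrder Node := isHeight.treeOrder

theorem ht_eq (x : Node) : ht x = typein (fun a b : Om1 => a < b) x.pos := isHeight.ht_eq x

theorem type_om1 : type (fun a b : Om1 => a < b) = ω₁ := by
  rw [Ordinal.type_toType, Cardinal.ord_aleph]

theorem mk_om1 : #Om1 = ℵ₁ := by rw [Cardinal.mk_toType, Cardinal.card_ord]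

theorem om1_pos : (0 : Ordinal) < type (fun a b : Om1 => a < b) := by
  rw [type_om1]
  exact Ordinal.omega_pos 1

theorem isNormal_node : CombTree.IsNormal Node where
  lt_omega_one t := by
    rw [ht_eq, ← type_om1]
    exact typein_lt_type _ _
  root := by
    obtain ⟨α, hα⟩ := typein_surj (fun a b : Om1 => a < b) om1_pos
    have hmin : ∀ δ : Om1, ¬ δ < α := by
      intro δ hδ
      have h1 : typein (fun a b : Om1 => a < b) δ < typein (fun a b : Om1 => a < b) α := by
        rw [typein_lt_typein]
        exact hδ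
      rw [show typein (fun a b : Om1 => a < b) α = 0 from hα] at h1
      exact absurd h1 (not_lt.2 zero_le)
    refine ⟨⟨α, ∅, by simp, fun δ hδ => absurd hδ (hmin δ)⟩, ?_, ?_⟩
    · show ht _ = 0
      rw [ht_eq]
      exact hα
    · intro y hy
      have hy' : ht y = 0 := hy
      rw [ht_eq, ← hα] at hy'
      have h1 : y.pos = α := typein_injective (fun a b : Om1 => a < b) hy'
      refine Node.ext' h1 ?_
      apply Finset.eq_empty_of_forall_notMem
      intro p hp
      have := y.bdd p hp
      rw [h1] at this
      exact hmin _ this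
  comparable t β hβ := by
    classical
    rw [← type_om1] at hβ
    obtain ⟨α, hα⟩ := typein_surj (fun a b : Om1 => a < b) hβ
    rcases le_or_gt α t.pos with h | h
    · refine ⟨res t α h, ?_, Or.inl (res_le _ _ _)⟩
      rw [ht_eq]
      exact hα
    · let s : Node := ⟨α, insert (t.pos, α) t.fin, by
        intro p hp
        rw [Finset.mem_insert] at hp
        rcases hp with rfl | hp
        · exact h
        · exact (t.bdd p hp).trans h, by
        intro δ hδ
        rcases lt_or_ge δ t.pos with h1 | h1
        · obtain ⟨p, hp, h2⟩ := t.cov δ h1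
          exact ⟨p, Finset.mem_insert_of_mem hp, h2⟩
        · exact ⟨(t.pos, α), Finset.mem_insert_self _ _, h1, hδ⟩⟩
      refine ⟨s, ?_, Or.inr ⟨h.le, ?_⟩⟩
      · rw [ht_eq]
        exact hα
      · ext p
        rw [mem_cut]
        constructor
        · intro hp
          exact ⟨Finset.mem_insert_of_mem hp, t.bdd p hp⟩
        · rintro ⟨h1, h2⟩
          have h3 : p ∈ insert (t.pos, α) t.fin := h1
          rw [Finset.mem_insert] at h3
          rcases h3 with rfl | h3
          · exact absurd h2 (lt_irrefl _)
          · exact h3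
  limit s t heq hlim hne := by
    classical
    by_contra hcon
    push Not at hcon
    apply hne
    have hpos : s.pos = t.pos := by
      rw [ht_eq, ht_eq] at heq
      exact typein_injective (fun a b : Om1 => a < b) heq
    -- every position below `s.pos` is not maximal
    have hnext : ∀ γ < s.pos, ∃ γ' < s.pos, γ < γ' := by
      intro γ hγ
      have h1 : typein (fun a b : Om1 => a < b) γ < ht s := by
        rw [ht_eq, typein_lt_typein]
        exact hγ
      have h2 := hlim.succ_lt h1
      obtain ⟨γ', hγ'⟩ := typein_surj (fun a b : Om1 => a < b)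
        (h2.trans (by rw [ht_eq]; exact typein_lt_type (fun a b : Om1 => a < b) s.pos))
      refine ⟨γ', ?_, ?_⟩
      · rw [ht_eq, ← hγ'] at h2
        rwa [typein_lt_typein] at h2
      · have h3 : typein (fun a b : Om1 => a < b) γ < typein (fun a b : Om1 => a < b) γ' := by
          rw [hγ']
          exact Order.lt_succ _
        rwa [typein_lt_typein] at h3
    have hne0 : ∃ γ, γ < s.pos := by
      have h1 : (0 : Ordinal) < ht s := hlim.bot_lt
      rw [ht_eq] at h1
      obtain ⟨γ, hγ⟩ := typein_surj (fun a b : Om1 => a < b)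
        (h1.trans (typein_lt_type (fun a b : Om1 => a < b) s.pos))
      refine ⟨γ, ?_⟩
      rw [← hγ] at h1
      rwa [typein_lt_typein] at h1
    -- a position above all the elements of the finite sets
    have hbig : ∀ F : Finset (Om1 × Om1), (∀ p ∈ F, p.1 < s.pos) →
        ∃ γ < s.pos, ∀ p ∈ F, p.1 < γ := by
      intro F
      induction F using Finset.induction_on with
      | empty =>
        intro _
        obtain ⟨γ, hγ⟩ := hne0
        exact ⟨γ, hγ, by simp⟩
      | insert p F _ ih =>
        intro h
        obtain ⟨γ, hγ, h1⟩ := ih fun q hq => h q (Finset.mem_insert_of_mem hq)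
        obtain ⟨γ', hγ', h2⟩ := hnext (max γ p.1) (max_lt hγ (h p (Finset.mem_insert_self _ _)))
        refine ⟨γ', hγ', ?_⟩
        intro q hq
        rw [Finset.mem_insert] at hq
        rcases hq with rfl | hq
        · exact (le_max_right _ _).trans_lt h2
        · exact (h1 q hq).trans ((le_max_left _ _).trans_lt h2)
    obtain ⟨γ, hγ, hbound⟩ := hbig (s.fin ∪ t.fin) (by
      intro p hp
      rw [Finset.mem_union] at hp
      rcases hp with hp | hp
      · exact s.bdd p hp
      · rw [hpos]
        exact t.bdd p hp)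
    have h1 : res s γ hγ.le < s := by
      refine lt_of_le_of_ne (res_le _ _ _) ?_
      intro h
      have : (res s γ hγ.le).pos = s.pos := by rw [h]
      exact hγ.ne this
    have h2 : res t γ (hpos ▸ hγ.le) < t := by
      refine lt_of_le_of_ne (res_le _ _ _) ?_
      intro h
      have : (res t γ (hpos ▸ hγ.le)).pos = t.pos := by rw [h]
      exact hγ.ne (this.trans hpos.symm)
    have h3 := hcon _ _ h1 h2 (by rw [ht_eq, ht_eq]; rfl)
    refine Node.ext' hpos ?_
    have h4 : cut s.fin γ = cut t.fin γ := congrArg Node.fin h3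
    have h5 : cut s.fin γ = s.fin := by
      ext p
      rw [mem_cut]
      exact ⟨fun h => h.1, fun h => ⟨h, hbound p (Finset.mem_union_left _ h)⟩⟩
    have h6 : cut t.fin γ = t.fin := by
      ext p
      rw [mem_cut]
      exact ⟨fun h => h.1, fun h => ⟨h, hbound p (Finset.mem_union_right _ h)⟩⟩
    rw [← h5, h4, h6]

theorem countable_Iio_om1 (α : Om1) : (Iio α).Countable := by
  have h1 : typein (fun a b : Om1 => a < b) α < ω₁ := by
    rw [← type_om1]
    exact typein_lt_type _ _
  have h2 := countable_Iio_of_lt h1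
  have h3 : InjOn (fun β : Om1 => typein (fun a b : Om1 => a < b) β) (Iio α) :=
    fun a _ b _ h => typein_injective (fun a b : Om1 => a < b) h
  apply countable_of_injective_of_countable_image h3
  refine h2.mono ?_
  rintro _ ⟨β, hβ, rfl⟩
  show typein (fun a b : Om1 => a < b) β < typein (fun a b : Om1 => a < b) α
  rw [typein_lt_typein]
  exact hβ

theorem uncountable_om1 : Uncountable Om1 := by
  rw [← Cardinal.aleph0_lt_mk_iff, mk_om1]
  exact Cardinal.aleph0_lt_aleph_one

/-- The positions of the nodes with a given finite set are countably many. -/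
theorem countable_pos (F : Finset (Om1 × Om1)) :
    {α : Om1 | ∃ x : Node, x.pos = α ∧ x.fin = F}.Countable := by
  have hU : (⋃ p ∈ F, Iio p.2).Countable :=
    F.countable_toSet.biUnion fun p _ => countable_Iio_om1 p.2
  have hex : ∃ u, u ∉ ⋃ p ∈ F, Iio p.2 := by
    by_contra hcon
    push Not at hcon
    have := uncountable_om1
    exact Set.not_countable_univ (α := Om1) (hU.mono fun x _ => hcon x)
  obtain ⟨u, hu⟩ := hex
  refine ((countable_Iio_om1 u).union (countable_singleton u)).mono ?_
  rintro _ ⟨x, rfl, rfl⟩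
  rcases lt_trichotomy x.pos u with h | h | h
  · exact Or.inl h
  · exact Or.inr h
  · exfalso
    obtain ⟨p, hp, -, h2⟩ := x.cov u h
    apply hu
    simp only [mem_iUnion]
    exact ⟨p, hp, h2⟩

theorem isSpecial_node : IsSpecial (univ : Set Node) := by
  classical
  rw [isSpecial_iff]
  have hg : ∀ F : Finset (Om1 × Om1), ∃ g : Om1 → ℕ,
      InjOn g {α : Om1 | ∃ x : Node, x.pos = α ∧ x.fin = F} := fun F =>
    Set.countable_iff_exists_injOn.1 (countable_pos F)
  choose g hg using hg
  refine ⟨fun x => Nat.pair x.fin.card (g x.fin x.pos), ?_⟩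
  intro x _ y _ hxy heq
  have h1 := Nat.pair_eq_pair.1 heq
  have h2 : x.fin = y.fin := by
    apply Finset.eq_of_subset_of_card_le
    · rw [hxy.le.2]
      exact Finset.filter_subset _ _
    · exact h1.1.ge
  have h3 := h1.2
  rw [h2] at h3
  exact (pos_lt hxy).ne (hg y.fin ⟨x, rfl, h2⟩ ⟨y, rfl, rfl⟩ h3)

/-- Chains in special trees are countable. -/
theorem chain_countable {T : Type} [PartialOrder T] (hT : IsSpecial (univ : Set T)) (C : Set T)
    (hC : IsChain (fun a b : T => a ≤ b) C) : C.Countable := by
  rw [isSpecial_iff] at hT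
  obtain ⟨c, hc⟩ := hT
  have hinj : InjOn c C := by
    intro x hx y hy hxy
    by_contra hne
    rcases hC hx hy hne with h | h
    · exact hc x (mem_univ _) y (mem_univ _) (lt_of_le_of_ne h hne) hxy
    · exact hc y (mem_univ _) x (mem_univ _) (lt_of_le_of_ne h (Ne.symm hne)) hxy.symm
  exact countable_of_injective_of_countable_image hinj (Set.to_countable _)

theorem isWideAronszajn_node : IsWideAronszajn Node where
  normal := isNormal_node
  level β := by
    refine (Cardinal.mk_subtype_le _).trans ?_
    have hf : Function.Injective (fun x : Node => (x.pos, x.fin)) := by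
      intro x y h
      exact Node.ext' (Prod.mk.inj h).1 (Prod.mk.inj h).2
    refine (Cardinal.mk_le_of_injective hf).trans ?_
    have hinf : Infinite Om1 := by
      have := uncountable_om1
      infer_instance
    rw [Cardinal.mk_prod, Cardinal.lift_id, Cardinal.lift_id, Cardinal.mk_finset_of_infinite,
      Cardinal.mk_prod, Cardinal.lift_id, mk_om1,
      Cardinal.mul_eq_self (Cardinal.aleph0_le_aleph 1),
      Cardinal.mul_eq_self (Cardinal.aleph0_le_aleph 1)]
  chain C hC := chain_countable isSpecial_node C hC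

end Pool.Agent.Q213.BaseTree
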