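import Mathlib

/-!
Bounded subsets of a well-order whose limit points avoid a given set, ordered by end-extension.
-/

set_option autoImplicit false

open Set Cardinal

namespace Pool.Agent.Q213.ChainPoset

section

variable {W : Type} [LinearOrder W] [WellFoundedLT W]

/-- `c` is an initial segment of `d`. -/
def Ini (c d : Set W) : Prop := c ⊆ d ∧ ∀ x ∈ d, ∀ y ∈ c, x ≤ y → x ∈ c

/-- `α` is a limit point of `c` (from below). -/
def IsLim (c : Set W) (α : W) : Prop := (∃ β, β < α) ∧ ∀ β < α, ∃ γ ∈ c, β < γ ∧ γ < α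

/-- `c` is bounded and its limit points are not in `A`. -/
def Node (A c : Set W) : Prop := (∃ b, ∀ x ∈ c, x < b) ∧ ∀ α ∈ A, ¬ IsLim c α

omit [WellFoundedLT W] in
theorem Ini.refl (c : Set W) : Ini c c := ⟨Subset.rfl, fun x hx _ _ _ => hx⟩

omit [WellFoundedLT W] in
theorem Ini.trans {c d e : Set W} (h1 : Ini c d) (h2 : Ini d e) : Ini c e :=
  ⟨h1.1.trans h2.1, fun x hx y hy hxy => h1.2 x (h2.2 x hx y (h1.1 hy) hxy) y hy hxy⟩

omit [WellFoundedLT W] in
theorem Ini.antisymm {c d : Set W} (h1 : Ini c d) (h2 : Ini d c) : c = d :=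
  Subset.antisymm h1.1 h2.1

/-! ### The simultaneous recursion -/

section Rec

variable {I Ξ : Type} [LinearOrder Ξ] [WellFoundedLT Ξ]
variable (x : I → Set W) (π : I → Set W → Set W) (w0 : W)

/-- The union of the previous sets. -/
def uu (ξ : Ξ) (prev : (η : Ξ) → η < ξ → I → Set W) (i : I) : Set W :=
  {w | w ∈ x i ∨ ∃ η, ∃ h : η < ξ, w ∈ prev η h i}

open Classical in
/-- The least strict upper bound of all previous sets. -/
noncomputable def dd (ξ : Ξ) (prev : (η : Ξ) → η < ξ → I → Set W) : W :=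
  if h : {b | ∀ i, ∀ w ∈ uu x ξ prev i, w < b}.Nonempty then
    WellFounded.min (wellFounded_lt (α := W)) _ h else w0

/-- The recursion. -/
noncomputable def qq : Ξ → I → Set W :=
  WellFounded.fix (wellFounded_lt (α := Ξ)) fun ξ prev i =>
    π i (uu x ξ prev i ∪ {dd x w0 ξ prev})

/-- The union of the previous sets. -/
def U (ξ : Ξ) (i : I) : Set W := {w | w ∈ x i ∨ ∃ η < ξ, w ∈ qq x π w0 η i}

/-- The point added at stage `ξ`. -/
noncomputable def D (ξ : Ξ) : W := dd x w0 ξ fun η _ => qq x π w0 η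

theorem U_eq (ξ : Ξ) (i : I) : U x π w0 ξ i = uu x ξ (fun η _ => qq x π w0 η) i := by
  ext w
  simp only [U, uu, mem_ofPred_eq, exists_prop]

theorem qq_eq (ξ : Ξ) (i : I) : qq x π w0 ξ i = π i (U x π w0 ξ i ∪ {D x π w0 ξ}) := by
  rw [U_eq]
  unfold qq
  rw [WellFounded.fix_eq]
  rfl

end Rec

section Main

variable {I Ξ : Type} [LinearOrder Ξ] [WellFoundedLT Ξ]
variable {x : I → Set W} {π : I → Set W → Set W} {w0 : W} {A : I → Set W}
variable (hb : ∀ f : I × Option Ξ → W, ∃ b, ∀ p, f p < b)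
variable (hx : ∀ i, Node (A i) (x i))
variable (hπ : ∀ i c, Node (A i) c → Node (A i) (π i c) ∧ Ini c (π i c))
variable (hπ' : ∀ i c, ¬ Node (A i) c → π i c = ∅)

include hb hx hπ hπ'

theorem bdd_all (ξ : Ξ) : ∃ b, ∀ i, ∀ w ∈ U x π w0 ξ i, w < b := by
  have hq : ∀ (η : Ξ) (i : I), ∃ b, ∀ w ∈ qq x π w0 η i, w < b := by
    intro η i
    rw [qq_eq]
    by_cases h : Node (A i) (U x π w0 η i ∪ {D x π w0 η})
    · exact (hπ i _ h).1.1
    · rw [hπ' i _ h]
      exact ⟨w0, fun w hw => absurd hw (by simp)⟩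
  choose b hb' using hq
  choose c hc using fun i => (hx i).1
  obtain ⟨B, hB⟩ := hb fun p => match p.2 with
    | none => c p.1
    | some η => b η p.1
  refine ⟨B, ?_⟩
  rintro i w (hw | ⟨η, -, hw⟩)
  · exact (hc i w hw).trans (hB (i, none))
  · exact (hb' η i w hw).trans (hB (i, some η))

theorem lt_D (ξ : Ξ) (i : I) (w : W) (hw : w ∈ U x π w0 ξ i) : w < D x π w0 ξ := by
  classical
  obtain ⟨b, hb'⟩ := bdd_all hb hx hπ hπ' (w0 := w0) ξ
  have hne : {b | ∀ i, ∀ w ∈ uu x ξ (fun η _ => qq x π w0 η) i, w < b}.Nonempty := by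
    refine ⟨b, fun i w hw => ?_⟩
    rw [← U_eq] at hw
    exact hb' i w hw
  have h1 : D x π w0 ξ = WellFounded.min (wellFounded_lt (α := W)) _ hne := by
    unfold D dd
    rw [dif_pos hne]
  have h2 := WellFounded.min_mem (wellFounded_lt (α := W)) _ hne
  rw [h1]
  rw [U_eq] at hw
  exact h2 i w hw

theorem D_le (ξ : Ξ) (b : W) (h : ∀ i, ∀ w ∈ U x π w0 ξ i, w < b) : D x π w0 ξ ≤ b := by
  classical
  have hne : {b | ∀ i, ∀ w ∈ uu x ξ (fun η _ => qq x π w0 η) i, w < b}.Nonempty := by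
    refine ⟨b, fun i w hw => ?_⟩
    rw [← U_eq] at hw
    exact h i w hw
  have h1 : D x π w0 ξ = WellFounded.min (wellFounded_lt (α := W)) _ hne := by
    unfold D dd
    rw [dif_pos hne]
  rw [h1]
  apply WellFounded.min_le
  intro i w hw
  rw [← U_eq] at hw
  exact h i w hw

/-- The index `i` is alive before `ξ`. -/
def Alive (x : I → Set W) (π : I → Set W → Set W) (w0 : W) (A : I → Set W) (i : I) (ξ : Ξ) :
    Prop := ∀ η < ξ, Node (A i) (U x π w0 η i ∪ {D x π w0 η})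

theorem ini_U_union (ξ : Ξ) (i : I) : Ini (U x π w0 ξ i) (U x π w0 ξ i ∪ {D x π w0 ξ}) := by
  refine ⟨subset_union_left, ?_⟩
  rintro w (hw | hw) y hy hwy
  · exact hw
  · rw [mem_singleton_iff] at hw
    subst hw
    exact absurd (lt_D hb hx hπ hπ' ξ i y hy) (not_lt.2 hwy)

theorem ini_U_qq {ξ : Ξ} {i : I} (h : Node (A i) (U x π w0 ξ i ∪ {D x π w0 ξ})) :
    Ini (U x π w0 ξ i) (qq x π w0 ξ i) := by
  rw [qq_eq]
  exact (ini_U_union hb hx hπ hπ' ξ i).trans (hπ i _ h).2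

theorem D_mem_qq {ξ : Ξ} {i : I} (h : Node (A i) (U x π w0 ξ i ∪ {D x π w0 ξ})) :
    D x π w0 ξ ∈ qq x π w0 ξ i := by
  rw [qq_eq]
  exact (hπ i _ h).2.1 (Or.inr rfl)

theorem ini_chain (ξ : Ξ) : ∀ i, Alive x π w0 A i ξ →
    (∀ ζ < ξ, Ini (qq x π w0 ζ i) (U x π w0 ξ i)) ∧ Ini (x i) (U x π w0 ξ i) := by
  induction ξ using WellFoundedLT.induction with
  | _ ξ ih =>
  intro i hal
  have hpair : ∀ ζ ζ', ζ < ζ' → ζ' < ξ → Ini (qq x π w0 ζ i) (qq x π w0 ζ' i) := by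
    intro ζ ζ' h1 h2
    have h3 := (ih ζ' h2 i fun η hη => hal η (hη.trans h2)).1 ζ h1
    exact h3.trans (ini_U_qq hb hx hπ hπ' (hal ζ' h2))
  have hxq : ∀ ζ < ξ, Ini (x i) (qq x π w0 ζ i) := by
    intro ζ h1
    have h3 := (ih ζ h1 i fun η hη => hal η (hη.trans h1)).2
    exact h3.trans (ini_U_qq hb hx hπ hπ' (hal ζ h1))
  constructor
  · intro ζ hζ
    refine ⟨fun w hw => Or.inr ⟨ζ, hζ, hw⟩, ?_⟩
    rintro w (hw | ⟨η, hη, hw⟩) y hy hwy
    · exact (hxq ζ hζ).1 hw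
    · rcases lt_trichotomy η ζ with h | h | h
      · exact (hpair η ζ h hζ).1 hw
      · exact h ▸ hw
      · exact (hpair ζ η h hη).2 w hw y hy hwy
  · refine ⟨fun w hw => Or.inl hw, ?_⟩
    rintro w (hw | ⟨η, hη, hw⟩) y hy hwy
    · exact hw
    · exact (hxq η hη).2 w hw y hy hwy

/-- If `i` dies at stage `ξ` then `D ξ` is in `A i`. -/
theorem dies {i : I} {ξ : Ξ} (hal : Alive x π w0 A i ξ)
    (hdead : ¬ Node (A i) (U x π w0 ξ i ∪ {D x π w0 ξ})) : D x π w0 ξ ∈ A i := by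
  classical
  obtain ⟨hch, hxch⟩ := ini_chain hb hx hπ hπ' ξ i hal
  have hbdd : ∃ b, ∀ w ∈ U x π w0 ξ i ∪ {D x π w0 ξ}, w < b := by
    obtain ⟨b, hb'⟩ := hb fun _ => D x π w0 ξ
    refine ⟨b, ?_⟩
    have hDb : D x π w0 ξ < b := hb' (i, none)
    rintro w (hw | hw)
    · exact (lt_D hb hx hπ hπ' ξ i w hw).trans hDb
    · rw [mem_singleton_iff] at hw
      rw [hw]
      exact hDb
  have hex : ∃ α ∈ A i, IsLim (U x π w0 ξ i ∪ {D x π w0 ξ}) α := by
    by_contra hcon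
    push Not at hcon
    exact hdead ⟨hbdd, hcon⟩
  obtain ⟨α, hα, hlim⟩ := hex
  have hle : α ≤ D x π w0 ξ := by
    by_contra hlt
    push Not at hlt
    obtain ⟨γ, hγ, h1, h2⟩ := hlim.2 _ hlt
    rcases hγ with hγ | hγ
    · exact absurd (lt_D hb hx hπ hπ' ξ i γ hγ) (not_lt.2 h1.le)
    · rw [mem_singleton_iff] at hγ
      exact h1.ne' hγ
  rcases eq_or_lt_of_le hle with heq | hlt
  · rwa [← heq]
  exfalso
  -- the limit point is a limit point of `U`
  have hlimU : IsLim (U x π w0 ξ i) α := by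
    refine ⟨hlim.1, fun β hβ => ?_⟩
    obtain ⟨γ, hγ, h1, h2⟩ := hlim.2 β hβ
    rcases hγ with hγ | hγ
    · exact ⟨γ, hγ, h1, h2⟩
    · rw [mem_singleton_iff] at hγ
      rw [hγ] at h2
      exact absurd h2 (not_lt.2 hlt.le)
  -- reduction to one member of the chain
  have hred : ∀ c : Set W, Node (A i) c → Ini c (U x π w0 ξ i) →
      ((∃ y ∈ c, α ≤ y) ∨ U x π w0 ξ i ⊆ c) → False := by
    intro c hc hci hor
    apply hc.2 α hα
    refine ⟨hlimU.1, fun β hβ => ?_⟩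
    obtain ⟨γ, hγ, h1, h2⟩ := hlimU.2 β hβ
    refine ⟨γ, ?_, h1, h2⟩
    rcases hor with ⟨y, hy, hαy⟩ | hsub
    · exact hci.2 γ hγ y hy (h2.le.trans hαy)
    · exact hsub hγ
  have hnode : ∀ ζ < ξ, Node (A i) (qq x π w0 ζ i) := by
    intro ζ hζ
    rw [qq_eq]
    exact (hπ i _ (hal ζ hζ)).1
  -- some element of some `U ξ i'` is at least `α`
  have hex' : ∃ i', ∃ y ∈ U x π w0 ξ i', α ≤ y := by
    by_contra hcon
    push Not at hcon
    exact absurd (D_le hb hx hπ hπ' ξ α fun i' w hw => hcon i' w hw) (not_le.2 hlt)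
  obtain ⟨i', y, hy, hαy⟩ := hex'
  rcases hy with hy | ⟨η, hη, hy⟩
  · by_cases hne : ∃ η, η < ξ
    · obtain ⟨η, hη⟩ := hne
      have h1 : y < D x π w0 η := lt_D hb hx hπ hπ' η i' y (Or.inl hy)
      exact hred _ (hnode η hη) (hch η hη)
        (Or.inl ⟨_, D_mem_qq hb hx hπ hπ' (hal η hη), hαy.trans h1.le⟩)
    · push Not at hne
      refine hred _ (hx i) hxch (Or.inr ?_)
      rintro w (hw | ⟨η, hη, -⟩)
      · exact hw
      · exact absurd hη (not_lt.2 (hne η))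
  · by_cases hne : ∃ η', η < η' ∧ η' < ξ
    · obtain ⟨η', h1, h2⟩ := hne
      have h3 : y < D x π w0 η' := lt_D hb hx hπ hπ' η' i' y (Or.inr ⟨η, h1, hy⟩)
      exact hred _ (hnode η' h2) (hch η' h2)
        (Or.inl ⟨_, D_mem_qq hb hx hπ hπ' (hal η' h2), hαy.trans h3.le⟩)
    · push Not at hne
      refine hred _ (hnode η hη) (hch η hη) (Or.inr ?_)
      have halη : Alive x π w0 A i η := fun ζ hζ => hal ζ (hζ.trans hη)
      have hUq := ini_U_qq hb hx hπ hπ' (hal η hη)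
      rintro w (hw | ⟨ζ, hζ, hw⟩)
      · exact hUq.1 (Or.inl hw)
      · rcases lt_trichotomy ζ η with h | h | h
        · exact hUq.1 (Or.inr ⟨ζ, h, hw⟩)
        · exact h ▸ hw
        · exact absurd hζ (not_lt.2 (hne ζ h))

/-- If the sets `A i` are disjoint and there are more indices than stages then some index is
always alive. -/
theorem exists_alive (hA : ∀ i i' : I, i ≠ i' → Disjoint (A i) (A i')) (hI : #Ξ < #I) :
    ∃ i, ∀ ξ : Ξ, Node (A i) (U x π w0 ξ i ∪ {D x π w0 ξ}) := by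
  classical
  by_contra hcon
  push Not at hcon
  have hfirst : ∀ i, ∃ ξ : Ξ, Alive x π w0 A i ξ ∧
      ¬ Node (A i) (U x π w0 ξ i ∪ {D x π w0 ξ}) := by
    intro i
    obtain ⟨ξ0, hξ0⟩ := hcon i
    have hne : {ξ : Ξ | ¬ Node (A i) (U x π w0 ξ i ∪ {D x π w0 ξ})}.Nonempty := ⟨ξ0, hξ0⟩
    refine ⟨WellFounded.min (wellFounded_lt (α := Ξ)) _ hne, ?_,
      WellFounded.min_mem (wellFounded_lt (α := Ξ)) _ hne⟩
    intro η hη
    by_contra hnot
    exact WellFounded.not_lt_min (wellFounded_lt (α := Ξ))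
      {ξ : Ξ | ¬ Node (A i) (U x π w0 ξ i ∪ {D x π w0 ξ})} hnot hη
  choose d hd1 hd2 using hfirst
  have hinj : Function.Injective d := by
    intro i i' hii
    by_contra hne
    have h1 := dies hb hx hπ hπ' (hd1 i) (hd2 i)
    have h2 := dies hb hx hπ hπ' (hd1 i') (hd2 i')
    rw [hii] at h1
    exact Set.disjoint_left.1 (hA i i' hne) h1 h2
  exact absurd (Cardinal.mk_le_of_injective hinj) (not_le.2 hI)

end Main

/-- **The main lemma.** -/
theorem exists_long_chain {I Ξ : Type} [LinearOrder Ξ] [WellFoundedLT Ξ] [Nonempty W]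
    (A : I → Set W) (hA : ∀ i i' : I, i ≠ i' → Disjoint (A i) (A i')) (hI : #Ξ < #I)
    (hb : ∀ f : I × Option Ξ → W, ∃ b, ∀ p, f p < b)
    (Q : I → Set (Set W)) (hQ : ∀ i c, Node (A i) c → ∃ q ∈ Q i, Node (A i) q ∧ Ini c q)
    (x : I → Set W) (hx : ∀ i, Node (A i) (x i)) :
    ∃ i, ∃ q : Ξ → Set W, (∀ ξ, q ξ ∈ Q i ∧ Node (A i) (q ξ) ∧ Ini (x i) (q ξ)) ∧
      ∀ ξ η, ξ < η → Ini (q ξ) (q η) ∧ q ξ ≠ q η := by
  classical
  let π : I → Set W → Set W := fun i c =>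
    if h : Node (A i) c then Classical.choose (hQ i c h) else ∅
  have hπ0 : ∀ i c, Node (A i) c → π i c ∈ Q i ∧ Node (A i) (π i c) ∧ Ini c (π i c) := by
    intro i c h
    have h1 : π i c = Classical.choose (hQ i c h) := dif_pos h
    rw [h1]
    exact Classical.choose_spec (hQ i c h)
  have hπ : ∀ i c, Node (A i) c → Node (A i) (π i c) ∧ Ini c (π i c) :=
    fun i c h => (hπ0 i c h).2
  have hπ' : ∀ i c, ¬ Node (A i) c → π i c = ∅ := fun i c h => dif_neg h
  let w0 : W := Classical.arbitrary W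
  obtain ⟨i, hi⟩ := exists_alive hb hx hπ hπ' (w0 := w0) hA hI
  refine ⟨i, fun ξ => qq x π w0 ξ i, ?_, ?_⟩
  · intro ξ
    have h1 := hπ0 i _ (hi ξ)
    rw [← qq_eq x π w0 ξ i] at h1
    refine ⟨h1.1, h1.2.1, ?_⟩
    have h2 := (ini_chain hb hx hπ hπ' ξ i fun η _ => hi η).2
    exact h2.trans (ini_U_qq hb hx hπ hπ' (hi ξ))
  · intro ξ η hξη
    have h2 := (ini_chain hb hx hπ hπ' η i fun ζ _ => hi ζ).1 ξ hξη
    refine ⟨h2.trans (ini_U_qq hb hx hπ hπ' (hi η)), ?_⟩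
    intro heq
    have h3 := D_mem_qq hb hx hπ hπ' (hi η)
    rw [← show qq x π w0 ξ i = qq x π w0 η i from heq] at h3
    exact lt_irrefl _ (lt_D hb hx hπ hπ' η i _ (Or.inr ⟨ξ, hξη, h3⟩))

/-! ### Chains -/

omit [WellFoundedLT W] in
/-- Members of a chain are initial segments of the union. -/
theorem ini_sUnion {C : Set (Set W)} (hC : ∀ c ∈ C, ∀ d ∈ C, Ini c d ∨ Ini d c) {c : Set W}
    (hc : c ∈ C) : Ini c (⋃₀ C) := by
  refine ⟨subset_sUnion_of_mem hc, ?_⟩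
  rintro x ⟨d, hd, hxd⟩ y hy hxy
  rcases hC c hc d hd with h | h
  · exact h.2 x hxd y hy hxy
  · exact h.1 hxd

/-- The size of a chain is at most the size of the union plus one. -/
theorem mk_chain_le {C : Set (Set W)} (hC : ∀ c ∈ C, ∀ d ∈ C, Ini c d ∨ Ini d c) :
    #C ≤ #(Option (⋃₀ C : Set W)) := by
  classical
  let m : C → Option (⋃₀ C : Set W) := fun c =>
    if h : (⋃₀ C \ c.1).Nonempty then
      some ⟨WellFounded.min (wellFounded_lt (α := W)) _ h,
        (WellFounded.min_mem (wellFounded_lt (α := W)) _ h).1⟩ else none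
  have key : ∀ c d : C, Ini c.1 d.1 → c ≠ d → m c ≠ m d := by
    intro c d hcd hne hm
    have hex : ∃ x ∈ d.1, x ∉ c.1 := by
      by_contra hcon
      push Not at hcon
      exact hne (Subtype.ext (Subset.antisymm hcd.1 hcon))
    obtain ⟨x, hxd, hxc⟩ := hex
    have hne1 : (⋃₀ C \ c.1).Nonempty := ⟨x, ⟨d.1, d.2, hxd⟩, hxc⟩
    have h1 : m c = some ⟨WellFounded.min (wellFounded_lt (α := W)) _ hne1,
        (WellFounded.min_mem (wellFounded_lt (α := W)) _ hne1).1⟩ := dif_pos hne1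
    have hmd : WellFounded.min (wellFounded_lt (α := W)) _ hne1 ∈ d.1 := by
      have hxm : x ∈ ⋃₀ C \ c.1 := ⟨⟨d.1, d.2, hxd⟩, hxc⟩
      have h2 : WellFounded.min (wellFounded_lt (α := W)) _ hne1 ≤ x :=
        WellFounded.min_le _ hxm
      exact (ini_sUnion hC d.2).2 _ (WellFounded.min_mem (wellFounded_lt (α := W)) _ hne1).1
        x hxd h2
    by_cases hne2 : (⋃₀ C \ d.1).Nonempty
    · have h3 : m d = some ⟨WellFounded.min (wellFounded_lt (α := W)) _ hne2,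
          (WellFounded.min_mem (wellFounded_lt (α := W)) _ hne2).1⟩ := dif_pos hne2
      rw [h1, h3] at hm
      have h4 := congrArg Subtype.val (Option.some_injective _ hm)
      have h5 := (WellFounded.min_mem (wellFounded_lt (α := W)) _ hne2).2
      apply h5
      rw [← show WellFounded.min (wellFounded_lt (α := W)) _ hne1 =
        WellFounded.min (wellFounded_lt (α := W)) _ hne2 from h4]
      exact hmd
    · have h3 : m d = none := dif_neg hne2
      rw [h1, h3] at hm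
      exact absurd hm (by simp)
  apply Cardinal.mk_le_of_injective (f := m)
  intro c d hm
  by_contra hne
  rcases hC c.1 c.2 d.1 d.2 with h | h
  · exact key c d h hne hm
  · exact key d c h (Ne.symm hne) hm.symm

omit [WellFoundedLT W] in
/-- The union of an unbounded chain of nodes has no limit points in `A`. -/
theorem not_isLim_sUnion {C : Set (Set W)} (hC : ∀ c ∈ C, ∀ d ∈ C, Ini c d ∨ Ini d c)
    {A : Set W} (hN : ∀ c ∈ C, Node A c) (hunb : ∀ b, ∃ x ∈ ⋃₀ C, b < x) :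
    ∀ α ∈ A, ¬ IsLim (⋃₀ C) α := by
  intro α hα hlim
  obtain ⟨x, ⟨c, hc, hxc⟩, hx⟩ := hunb α
  apply (hN c hc).2 α hα
  refine ⟨hlim.1, fun β hβ => ?_⟩
  obtain ⟨γ, hγ, h1, h2⟩ := hlim.2 β hβ
  exact ⟨γ, (ini_sUnion hC hc).2 γ hγ x hxc (h2.trans hx).le, h1, h2⟩

end

end Pool.Agent.Q213.ChainPoset
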