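import Pool.Agent.Q213.TreeH

/-!
Trees which do not embed into `ω₁`-trees: the binary tree of height `ω` with `ℵ₁` branches and a
copy of a given tree on top of each branch.
-/

set_option autoImplicit false

open Ordinal Set Cardinal

namespace Pool.Agent.Q213.CombTree

open Pool.Agent.H883R3 Pool.Agent.Q213.TreeH

universe u

/-- The set of all countable ordinals. -/
abbrev Om1 : Type := (Cardinal.aleph 1 : Cardinal.{0}).ord.ToType

/-- A normal tree of height `ω₁`. -/
structure IsNormal (T : Type u) [PartialOrder T] [TreeOrder T] : Prop where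
  /-- all heights are below `ω₁` -/
  lt_omega_one : ∀ t : T, ht t < ω₁
  /-- the level of height `0` has exactly one node -/
  root : ∃! t : T, ht t = 0
  /-- every node is comparable with some node of every level below `ω₁` -/
  comparable : ∀ t : T, ∀ β < ω₁, ∃ s : T, ht s = β ∧ (s ≤ t ∨ t ≤ s)
  /-- different nodes of the same limit level have different projections to some lower level -/
  limit : ∀ s t : T, ht s = ht t → Order.IsSuccLimit (ht s) → s ≠ t →
    ∃ u v : T, u < s ∧ v < t ∧ ht u = ht v ∧ u ≠ v

/-- An `(ω₁, ≤ ℵ₁)`-Aronszajn tree: a normal tree of height `ω₁` with levels of size at most `ℵ₁`,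
all of whose chains are countable. -/
structure IsWideAronszajn (T : Type u) [PartialOrder T] [TreeOrder T] : Prop where
  normal : IsNormal T
  level : ∀ β : Ordinal.{u}, #{t : T // ht t = β} ≤ ℵ₁
  chain : ∀ C : Set T, IsChain (fun a b : T => a ≤ b) C → C.Countable

/-- An `ω₁`-tree: a normal tree of height `ω₁` with countable levels. -/
structure IsOmegaOneTree (T : Type u) [PartialOrder T] [TreeOrder T] : Prop where
  normal : IsNormal T
  level : ∀ β : Ordinal.{u}, {t : T | ht t = β}.Countable

/-- `S` embeds into `T`. -/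
def Embeds (S : Type) (T : Type u) [PartialOrder S] [PartialOrder T] : Prop :=
  ∃ e : S → T, Function.Injective e ∧ ∀ s s' : S, s < s' ↔ e s < e s'

/-! ### Initial segments -/

/-- The initial segment of length `n` of `f`. -/
def seg (f : ℕ → Bool) (n : ℕ) : List Bool := (List.range n).map f

theorem seg_length (f : ℕ → Bool) (n : ℕ) : (seg f n).length = n := by simp [seg]

theorem seg_prefix (f : ℕ → Bool) {m n : ℕ} (h : m ≤ n) : seg f m <+: seg f n := by
  induction n, h using Nat.le_induction with
  | base => exact List.prefix_refl _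
  | succ n _ ih =>
    refine ih.trans ?_
    unfold seg
    rw [List.range_succ, List.map_append]
    exact List.prefix_append _ _

theorem eq_of_prefix_of_length {s t u : List Bool} (hs : s <+: u) (ht : t <+: u)
    (h : s.length = t.length) : s = t :=
  (List.prefix_of_prefix_length_le hs ht h.le).eq_of_length h

theorem eq_seg_of_prefix {s : List Bool} {f : ℕ → Bool} {n : ℕ} (h : s <+: seg f n) :
    s = seg f s.length := by
  refine eq_of_prefix_of_length h (seg_prefix f ?_) (seg_length f _).symm
  have := h.length_le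
  rwa [seg_length] at this

theorem seg_get {f g : ℕ → Bool} {n : ℕ} (h : seg f n = seg g n) : ∀ i < n, f i = g i := by
  intro i hi
  unfold seg at h
  have h1 := List.map_inj_left.1 h i (List.mem_range.2 hi)
  exact h1

/-- There are injectively many branches through every finite sequence. -/
theorem exists_branches : ∃ r : Om1 → ℕ → Bool, Function.Injective r ∧
    ∀ s : List Bool, ∃ ξ, s = seg (r ξ) s.length := by
  classical
  have hOm : #Om1 = ℵ₁ := by
    rw [Cardinal.mk_toType, Cardinal.card_ord]
  -- an injection of `Om1` into the branches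
  have hle : #Om1 ≤ #(ℕ → Bool) := by
    rw [hOm]
    have : #(ℕ → Bool) = Cardinal.continuum := by simp
    rw [this]
    exact Cardinal.aleph_one_le_continuum
  obtain ⟨j⟩ := Cardinal.le_def _ _ |>.1 hle
  let z : List Bool → ℕ → Bool := fun s n => s.getD n false
  have hz : ∀ s, s = seg (z s) s.length := by
    intro s
    apply List.ext_getElem
    · rw [seg_length]
    · intro n h1 h2
      simp [seg, z, List.getD_eq_getElem?_getD, List.getElem?_eq_getElem h1]
  let W : Set (ℕ → Bool) := range j ∪ range z
  have hW : #W = ℵ₁ := by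
    apply le_antisymm
    · refine (Cardinal.mk_union_le _ _).trans ?_
      have h1 : #(range j) ≤ ℵ₁ := by
        rw [← hOm]
        exact Cardinal.mk_range_le
      have h2 : #(range z) ≤ ℵ₁ := by
        refine Cardinal.mk_range_le.trans ?_
        refine (Cardinal.mk_le_aleph0 (α := List Bool)).trans ?_
        exact Cardinal.aleph0_le_aleph 1
      exact (add_le_add h1 h2).trans (Cardinal.add_eq_self (Cardinal.aleph0_le_aleph 1)).le
    · rw [← hOm, ← Cardinal.mk_range_eq j j.injective]
      exact Cardinal.mk_le_mk_of_subset subset_union_left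
  have hb : #Om1 = #W := by rw [hOm, hW]
  obtain ⟨e⟩ := Cardinal.eq.1 hb
  refine ⟨fun ξ => (e ξ).1, fun a b hab => e.injective (Subtype.ext hab), ?_⟩
  intro s
  have hzs : z s ∈ W := Or.inr (mem_range_self s)
  refine ⟨e.symm ⟨z s, hzs⟩, ?_⟩
  have h1 : (e (e.symm ⟨z s, hzs⟩) : ℕ → Bool) = z s := by rw [Equiv.apply_symm_apply]
  show s = seg (e (e.symm ⟨z s, hzs⟩) : ℕ → Bool) s.length
  rw [h1]
  exact hz s

theorem countable_Iio_of_lt {o : Ordinal.{u}} (h : o < ω₁) : (Set.Iio o).Countable := by
  rw [← Cardinal.le_aleph0_iff_set_countable, Cardinal.mk_Iio_ordinal]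
  have h1 : o.card < ℵ₁ := by
    rw [← Cardinal.lt_ord, Cardinal.ord_aleph]
    exact h
  have h2 : o.card ≤ ℵ₀ := by
    rw [← Cardinal.succ_aleph0] at h1
    exact Order.lt_succ_iff.1 h1
  exact Cardinal.lift_le_aleph0.2 h2

/-! ### The tree -/

/-- The nodes of the binary tree with a copy of `A` on top of each branch `r ξ`. -/
inductive Comb (r : Om1 → ℕ → Bool) (A : Type) : Type
  | low : List Bool → Comb r A
  | top : Om1 → A → Comb r A

open Comb

section

variable {r : Om1 → ℕ → Bool} {A : Type} [PartialOrder A]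

/-- The order of the tree. -/
def Comb.le : Comb r A → Comb r A → Prop
  | low s, low t => s <+: t
  | low s, top ξ _ => s = seg (r ξ) s.length
  | top _ _, low _ => False
  | top ξ a, top ζ b => ξ = ζ ∧ a ≤ b

instance : PartialOrder (Comb r A) where
  le := Comb.le
  le_refl := by
    rintro (s | ⟨ξ, a⟩)
    · exact List.prefix_refl _
    · exact ⟨rfl, le_rfl⟩
  le_trans := by
    rintro (s | ⟨ξ, a⟩) (t | ⟨ζ, b⟩) (u | ⟨θ, c⟩) h1 h2
    · exact List.IsPrefix.trans h1 h2
    · have h2' : t = seg (r θ) t.length := h2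
      have h1' : s <+: t := h1
      rw [h2'] at h1'
      exact eq_seg_of_prefix h1'
    · exact h2.elim
    · have h2' : ζ = θ ∧ b ≤ c := h2
      show s = seg (r θ) s.length
      rw [← h2'.1]
      exact h1
    · exact h1.elim
    · exact h1.elim
    · exact h2.elim
    · exact ⟨h1.1.trans h2.1, le_trans h1.2 h2.2⟩
  le_antisymm := by
    rintro (s | ⟨ξ, a⟩) (t | ⟨ζ, b⟩) h1 h2
    · exact congrArg _ (List.IsPrefix.eq_of_length h1
        (le_antisymm (List.IsPrefix.length_le h1) (List.IsPrefix.length_le h2)))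
    · exact h2.elim
    · exact h1.elim
    · rw [show ξ = ζ from h1.1, le_antisymm h1.2 h2.2]

theorem low_le_low {s t : List Bool} : (low s : Comb r A) ≤ low t ↔ s <+: t := Iff.rfl

theorem low_le_top {s : List Bool} {ξ : Om1} {a : A} :
    (low s : Comb r A) ≤ top ξ a ↔ s = seg (r ξ) s.length := Iff.rfl

theorem low_lt_top {s : List Bool} {ξ : Om1} {a : A} :
    (low s : Comb r A) < top ξ a ↔ s = seg (r ξ) s.length := by
  rw [lt_iff_le_and_ne, low_le_top]
  constructor
  · exact fun h => h.1
  · intro h
    refine ⟨h, ?_⟩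
    rintro ⟨⟩

theorem not_top_le_low {ξ : Om1} {a : A} {s : List Bool} :
    ¬ (top ξ a : Comb r A) ≤ low s := fun h => h

theorem top_le_top {ξ ζ : Om1} {a b : A} :
    (top ξ a : Comb r A) ≤ top ζ b ↔ ξ = ζ ∧ a ≤ b := Iff.rfl

theorem top_lt_top {ξ ζ : Om1} {a b : A} :
    (top ξ a : Comb r A) < top ζ b ↔ ξ = ζ ∧ a < b := by
  rw [lt_iff_le_and_ne, top_le_top]
  constructor
  · rintro ⟨⟨h1, h2⟩, h3⟩
    subst h1
    refine ⟨rfl, lt_of_le_of_ne h2 ?_⟩
    rintro rfl
    exact h3 rfl
  · rintro ⟨rfl, h2⟩
    refine ⟨⟨rfl, h2.le⟩, ?_⟩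
    intro h3
    injection h3 with h4 h5
    exact h2.ne h5

end

section

variable {r : Om1 → ℕ → Bool} {A : Type} [PartialOrder A] [TreeOrder A]

/-- The height in the tree. -/
noncomputable def hgt : Comb r A → Ordinal.{0}
  | low s => (s.length : Ordinal)
  | top _ a => ω + ht a

theorem hgt_low (s : List Bool) : hgt (low s : Comb r A) = (s.length : Ordinal) := rfl

theorem hgt_top (ξ : Om1) (a : A) : hgt (top ξ a : Comb r A) = ω + ht a := rfl

theorem isHeight : IsHeight (hgt : Comb r A → Ordinal.{0}) where
  mono := by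
    rintro (s | ⟨ξ, a⟩) (t | ⟨ζ, b⟩) h
    · rw [hgt_low, hgt_low]
      have h1 : s <+: t := h.le
      have h2 : s.length ≤ t.length := h1.length_le
      have h3 : s.length ≠ t.length := by
        intro h3
        exact h.ne (congrArg _ (h1.eq_of_length h3))
      exact_mod_cast lt_of_le_of_ne h2 h3
    · rw [hgt_low, hgt_top]
      exact lt_of_lt_of_le (Ordinal.natCast_lt_omega0 _) le_self_add
    · exact absurd h.le not_top_le_low
    · rw [top_lt_top] at h
      rw [hgt_top, hgt_top]
      exact add_lt_add_right (ht_lt h.2) _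
  down := by
    rintro t (s | ⟨ξ, a⟩) (s' | ⟨ζ, b⟩) h1 h2 hle
    · rw [hgt_low, hgt_low] at hle
      have hle' : s.length ≤ s'.length := by exact_mod_cast hle
      rw [low_le_low]
      rcases t with t | ⟨θ, c⟩
      · exact List.prefix_of_prefix_length_le h1.le h2.le hle'
      · rw [low_lt_top] at h1 h2
        rw [h1, h2]
        exact seg_prefix _ hle'
    · rcases t with t | ⟨θ, c⟩
      · exact absurd h2.le not_top_le_low
      · rw [low_lt_top] at h1
        rw [top_lt_top] at h2
        rw [low_le_top, h2.1]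
        exact h1
    · rw [hgt_low, hgt_top] at hle
      exact absurd (lt_of_lt_of_le (Ordinal.natCast_lt_omega0 s'.length) le_self_add)
        (not_lt.2 hle)
    · rcases t with t | ⟨θ, c⟩
      · exact absurd h2.le not_top_le_low
      · rw [top_lt_top] at h1 h2
        rw [hgt_top, hgt_top] at hle
        rw [top_le_top]
        exact ⟨h1.1.trans h2.1.symm, le_of_ht_le h1.2 h2.2 (le_of_add_le_add_left hle)⟩
  surj := by
    rintro (t | ⟨θ, c⟩) β hβ
    · rw [hgt_low] at hβ
      obtain ⟨n, rfl⟩ := Ordinal.lt_omega0.1 (hβ.trans (Ordinal.natCast_lt_omega0 _))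
      have hn : n < t.length := by exact_mod_cast hβ
      refine ⟨low (t.take n), ?_, ?_⟩
      · apply lt_of_le_of_ne
        · exact List.take_prefix _ _
        · intro h
          injection h with h'
          have := congrArg List.length h'
          rw [List.length_take] at this
          omega
      · rw [hgt_low, List.length_take]
        congr 1
        omega
    · rw [hgt_top] at hβ
      rcases lt_or_ge β ω with h | h
      · obtain ⟨n, rfl⟩ := Ordinal.lt_omega0.1 h
        refine ⟨low (seg (r θ) n), ?_, ?_⟩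
        · rw [low_lt_top, seg_length]
        · rw [hgt_low, seg_length]
      · obtain ⟨γ, rfl⟩ := exists_add_of_le h
        have hγ : γ < ht c := lt_of_add_lt_add_left hβ
        obtain ⟨s, hs, hsγ⟩ := exists_ht_eq hγ
        refine ⟨top θ s, ?_, ?_⟩
        · rw [top_lt_top]
          exact ⟨rfl, hs⟩
        · rw [hgt_top, hsγ]

instance : TreeOrder (Comb r A) := isHeight.treeOrder

theorem ht_low (s : List Bool) : ht (low s : Comb r A) = (s.length : Ordinal) :=
  isHeight.ht_eq _

theorem ht_top (ξ : Om1) (a : A) : ht (top ξ a : Comb r A) = ω + ht a :=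
  isHeight.ht_eq _

theorem add_lt_omega_one {a b : Ordinal.{u}} (ha : a < ω₁) (hb : b < ω₁) : a + b < ω₁ :=
  (Ordinal.isPrincipal_add_omega 1) ha hb

theorem not_limit_low {s : List Bool} (h : Order.IsSuccLimit (ht (low s : Comb r A))) :
    False := by
  rw [ht_low] at h
  rcases hs : s.length with _ | n
  · rw [hs] at h
    simpa using h.ne_bot
  · rw [hs] at h
    push_cast at h
    exact Order.not_isSuccLimit_succ _ h

theorem isNormal (hr : Function.Injective r) (hd : ∀ s : List Bool, ∃ ξ, s = seg (r ξ) s.length)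
    (hA : IsNormal A) : IsNormal (Comb r A) where
  lt_omega_one := by
    rintro (s | ⟨ξ, a⟩)
    · rw [ht_low]
      exact (Ordinal.natCast_lt_omega0 _).trans omega0_lt_omega_one
    · rw [ht_top]
      exact add_lt_omega_one omega0_lt_omega_one (hA.lt_omega_one a)
  root := by
    refine ⟨low [], ?_, ?_⟩
    · show ht (low [] : Comb r A) = 0
      rw [ht_low]
      simp
    · rintro (s | ⟨ξ, a⟩) h
      · rw [ht_low] at h
        have : s.length = 0 := by exact_mod_cast h
        rw [List.length_eq_zero_iff] at this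
        rw [this]
      · rw [ht_top] at h
        have : (ω : Ordinal) = 0 := le_antisymm (h ▸ le_self_add) zero_le
        exact absurd this Ordinal.omega0_ne_zero
  comparable := by
    obtain ⟨a0, ha0, -⟩ := hA.root
    have key : ∀ (ξ : Om1) (a : A) (β : Ordinal), β < ω₁ →
        ∃ s : Comb r A, ht s = β ∧ (s ≤ top ξ a ∨ top ξ a ≤ s) := by
      intro ξ a β hβ
      rcases lt_or_ge β ω with h | h
      · obtain ⟨n, rfl⟩ := Ordinal.lt_omega0.1 h
        refine ⟨low (seg (r ξ) n), ?_, Or.inl ?_⟩
        · rw [ht_low, seg_length]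
        · rw [low_le_top, seg_length]
      · obtain ⟨γ, rfl⟩ := exists_add_of_le h
        have hγ : γ < ω₁ := lt_of_le_of_lt le_add_self hβ
        obtain ⟨b, hb, hab⟩ := hA.comparable a γ hγ
        refine ⟨top ξ b, ?_, ?_⟩
        · rw [ht_top, hb]
        · rcases hab with h1 | h1
          · exact Or.inl ⟨rfl, h1⟩
          · exact Or.inr ⟨rfl, h1⟩
    rintro (s | ⟨ξ, a⟩) β hβ
    · obtain ⟨ξ, hξ⟩ := hd s
      obtain ⟨t, ht1, ht2⟩ := key ξ a0 β hβ
      refine ⟨t, ht1, ?_⟩
      have hs : (low s : Comb r A) ≤ top ξ a0 := hξ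
      rcases ht2 with h | h
      · -- both below the node `(ξ, a0)`
        rcases t with t | ⟨ζ, b⟩
        · have h1 : t = seg (r ξ) t.length := h
          rcases le_total t.length s.length with h2 | h2
          · left
            show t <+: s
            rw [h1, hξ]
            exact seg_prefix _ h2
          · right
            show s <+: t
            rw [h1, hξ]
            exact seg_prefix _ h2
        · right
          have h1 : ζ = ξ ∧ b ≤ a0 := h
          rw [low_le_top, h1.1]
          exact hξ
      · exact Or.inr (hs.trans h)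
    · exact key ξ a β hβ
  limit := by
    obtain ⟨a0, ha0, ha0'⟩ := hA.root
    rintro (s | ⟨ξ, a⟩) (t | ⟨ζ, b⟩) heq hlim hne
    · exact (not_limit_low hlim).elim
    · exact (not_limit_low hlim).elim
    · rw [heq] at hlim
      exact (not_limit_low hlim).elim
    · rw [ht_top, ht_top] at heq
      have heq' : ht a = ht b := add_left_cancel heq
      by_cases hξ : ξ = ζ
      · subst hξ
        have hab : a ≠ b := fun h => hne (by rw [h])
        have hlim' : Order.IsSuccLimit (ht a) := by
          rw [ht_top, Ordinal.isSuccLimit_add_iff] at hlim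
          rcases hlim with h | ⟨h, -⟩
          · exact h
          · exfalso
            apply hab
            rw [ha0' a h, ha0' b (heq'.symm.trans h)]
        obtain ⟨u, v, hu, hv, huv, hne'⟩ := hA.limit a b heq' hlim' hab
        refine ⟨top ξ u, top ξ v, ?_, ?_, ?_, ?_⟩
        · rw [top_lt_top]
          exact ⟨rfl, hu⟩
        · rw [top_lt_top]
          exact ⟨rfl, hv⟩
        · rw [ht_top, ht_top, huv]
        · intro h
          injection h with h4 h5
          exact hne' h5
      · have hrne : r ξ ≠ r ζ := fun h => hξ (hr h)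
        obtain ⟨n, hn⟩ := Function.ne_iff.1 hrne
        refine ⟨low (seg (r ξ) (n + 1)), low (seg (r ζ) (n + 1)), ?_, ?_, ?_, ?_⟩
        · rw [low_lt_top, seg_length]
        · rw [low_lt_top, seg_length]
        · rw [ht_low, ht_low, seg_length, seg_length]
        · intro h
          injection h with h4
          exact hn (seg_get h4 n (Nat.lt_succ_self n))

/-- A normal tree of height `ω₁` with levels of size at most `ℵ₁` has size at most `ℵ₁`. -/
theorem mk_le_of_levels {T : Type} [PartialOrder T] [TreeOrder T] (h1 : ∀ t : T, ht t < ω₁)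
    (h2 : ∀ β : Ordinal.{0}, #{t : T // ht t = β} ≤ ℵ₁) : #T ≤ ℵ₁ := by
  have hcov : (Set.univ : Set T) = ⋃ β : Om1, {t : T | ht t = typein (fun a b : Om1 => a < b) β} := by
    ext t
    simp only [mem_univ, mem_iUnion, true_iff]
    have h3 : ht t < type (fun a b : Om1 => a < b) := by
      rw [Ordinal.type_toType, Cardinal.ord_aleph]
      exact h1 t
    obtain ⟨β, hβ⟩ := typein_surj (fun a b : Om1 => a < b) h3
    exact ⟨β, hβ.symm⟩
  rw [← Cardinal.mk_univ, hcov]
  refine (Cardinal.mk_iUnion_le _).trans ?_
  have hOm : #Om1 = ℵ₁ := by rw [Cardinal.mk_toType, Cardinal.card_ord]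
  rw [hOm]
  refine (mul_le_mul' le_rfl (ciSup_le' fun β => h2 _)).trans ?_
  exact (Cardinal.mul_eq_self (Cardinal.aleph0_le_aleph 1)).le

theorem isWideAronszajn (hr : Function.Injective r)
    (hd : ∀ s : List Bool, ∃ ξ, s = seg (r ξ) s.length)
    (hA : IsWideAronszajn A) : IsWideAronszajn (Comb r A) where
  normal := isNormal hr hd hA.normal
  level := by
    intro β
    refine (Cardinal.mk_subtype_le _).trans ?_
    have hAc := mk_le_of_levels hA.normal.lt_omega_one hA.level
    have hOm : #Om1 = ℵ₁ := by rw [Cardinal.mk_toType, Cardinal.card_ord]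
    let f : Comb r A → List Bool ⊕ (Om1 × A) := fun
      | low s => Sum.inl s
      | top ξ a => Sum.inr (ξ, a)
    have hf : Function.Injective f := by
      rintro (s | ⟨ξ, a⟩) (t | ⟨ζ, b⟩) h
      · rw [show s = t from Sum.inl_injective h]
      · exact absurd h (by simp [f])
      · exact absurd h (by simp [f])
      · have h4 : ((ξ, a) : Om1 × A) = (ζ, b) := Sum.inr_injective h
        rw [(Prod.mk.inj h4).1, (Prod.mk.inj h4).2]
    refine (Cardinal.mk_le_of_injective hf).trans ?_
    rw [Cardinal.mk_sum, Cardinal.lift_id, Cardinal.lift_id, Cardinal.mk_prod, Cardinal.lift_id,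
      Cardinal.lift_id, hOm]
    have h1 : #(List Bool) ≤ ℵ₁ :=
      (Cardinal.mk_le_aleph0 (α := List Bool)).trans (Cardinal.aleph0_le_aleph 1)
    have h2 : ℵ₁ * #A ≤ ℵ₁ := (mul_le_mul' le_rfl hAc).trans
      (Cardinal.mul_eq_self (Cardinal.aleph0_le_aleph 1)).le
    exact (add_le_add h1 h2).trans (Cardinal.add_eq_self (Cardinal.aleph0_le_aleph 1)).le
  chain := by
    intro C hC
    have hcov : C ⊆ range (low : List Bool → Comb r A) ∪ {x ∈ C | ∃ ξ a, x = top ξ a} := by
      rintro (s | ⟨ξ, a⟩) hx
      · exact Or.inl ⟨s, rfl⟩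
      · exact Or.inr ⟨hx, ξ, a, rfl⟩
    refine ((countable_range _).union ?_).mono hcov
    by_cases hne : ∃ ξ a, (top ξ a : Comb r A) ∈ C
    · obtain ⟨ξ, a, hξa⟩ := hne
      have hsub : {x ∈ C | ∃ ξ a, x = top ξ a} ⊆ (fun b : A => (top ξ b : Comb r A)) ''
          {b : A | (top ξ b : Comb r A) ∈ C} := by
        rintro _ ⟨hx, ζ, b, rfl⟩
        have : ξ = ζ := by
          by_cases hxy : (top ξ a : Comb r A) = top ζ b
          · injection hxy
          · rcases hC hξa hx hxy with h | h
            · exact h.1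
            · exact h.1.symm
        subst this
        exact ⟨b, hx, rfl⟩
      refine (Set.Countable.image ?_ _).mono hsub
      apply hA.chain
      intro b hb c hc hbc
      have hne' : (top ξ b : Comb r A) ≠ top ξ c := by
        intro h
        injection h with h4 h5
        exact hbc h5
      rcases hC hb hc hne' with h | h
      · exact Or.inl h.2
      · exact Or.inr h.2
    · have : {x ∈ C | ∃ ξ a, x = top ξ a} = ∅ := by
        ext x
        simp only [mem_ofPred_eq, mem_empty_iff_false, iff_false]
        rintro ⟨hx, ξ, a, rfl⟩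
        exact hne ⟨ξ, a, hx⟩
      rw [this]
      exact countable_empty

/-- The projection to the ordinal sum of `ω` and `A`. -/
def proj : Comb r A → ℕ ⊕ₗ A
  | low s => toLex (Sum.inl s.length)
  | top _ a => toLex (Sum.inr a)

omit [TreeOrder A] in
theorem proj_strictMono : StrictMono (proj : Comb r A → ℕ ⊕ₗ A) := by
  rintro (s | ⟨ξ, a⟩) (t | ⟨ζ, b⟩) h
  · have h1 : s <+: t := h.le
    have h2 : s.length ≤ t.length := h1.length_le
    have h3 : s.length ≠ t.length := by
      intro h3
      exact h.ne (congrArg _ (h1.eq_of_length h3))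
    exact Sum.Lex.inl_lt_inl_iff.2 (lt_of_le_of_ne h2 h3)
  · exact Sum.Lex.inl_lt_inr _ _
  · exact absurd h.le not_top_le_low
  · rw [top_lt_top] at h
    exact Sum.Lex.inr_lt_inr_iff.2 h.2

/-- A tree with a strictly increasing map to `ω + A` for a special tree `A` is special. -/
theorem special_of_proj {S : Type u} [PartialOrder S] {B : Type} [PartialOrder B]
    (π : S → ℕ ⊕ₗ B) (hπ : StrictMono π) (hB : IsSpecial (univ : Set B)) :
    IsSpecial (univ : Set S) := by
  rw [isSpecial_iff] at *
  obtain ⟨c, hc⟩ := hB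
  refine ⟨fun x => match ofLex (π x) with
    | Sum.inl n => 2 * n
    | Sum.inr b => 2 * c b + 1, ?_⟩
  intro x _ y _ hxy
  have h := hπ hxy
  dsimp only
  generalize π x = p at h
  generalize π y = q at h
  rcases p with n | b
  · rcases q with m | b'
    · have h1 : n < m := Sum.Lex.inl_lt_inl_iff.1 h
      show 2 * n ≠ 2 * m
      omega
    · show 2 * n ≠ 2 * c b' + 1
      omega
  · rcases q with m | b'
    · show 2 * c b + 1 ≠ 2 * m
      omega
    · have h1 : b < b' := Sum.Lex.inr_lt_inr_iff.1 h
      have h2 := hc b (mem_univ _) b' (mem_univ _) h1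
      show 2 * c b + 1 ≠ 2 * c b' + 1
      omega

omit [TreeOrder A] in
theorem embeds_comb (ξ : Om1) : Embeds A (Comb r A) := by
  refine ⟨fun a => top ξ a, ?_, ?_⟩
  · intro a b h
    injection h
  · intro a b
    rw [top_lt_top]
    simp

omit [TreeOrder A] in
/-- The tree does not embed into an `ω₁`-tree. -/
theorem not_embeds (hr : Function.Injective r) (a0 : A) {T : Type u} [PartialOrder T]
    [TreeOrder T] (hT : IsOmegaOneTree T) : ¬ Embeds (Comb r A) T := by
  rintro ⟨e, he, hlt⟩
  have hOmun : Uncountable Om1 := by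
    rw [← Cardinal.aleph0_lt_mk_iff, Cardinal.mk_toType, Cardinal.card_ord]
    exact Cardinal.aleph0_lt_aleph_one
  -- a bound for the heights of the images of the nodes of finite height
  obtain ⟨δ, hδ, hlow⟩ : ∃ δ < (ω₁ : Ordinal.{u}), ∀ s : List Bool, ht (e (low s)) < δ := by
    refine ⟨⨆ s : List Bool, Order.succ (ht (e (low s))), ?_, ?_⟩
    · apply Ordinal.iSup_lt_omega_one
      intro s
      have h1 := hT.normal.lt_omega_one (e (low s))
      exact (isSuccLimit_omega 1).succ_lt h1
    · intro s
      exact lt_of_lt_of_le (Order.lt_succ _)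
        (Ordinal.le_iSup (fun s : List Bool => Order.succ (ht (e (low s)))) s)
  have hcount : {t : T | ht t < δ}.Countable := by
    have hcov : {t : T | ht t < δ} ⊆ ⋃ β ∈ Iio δ, {t : T | ht t = β} := by
      intro t ht'
      simp only [mem_iUnion]
      exact ⟨ht t, ht', rfl⟩
    refine (Set.Countable.biUnion (countable_Iio_of_lt hδ) fun β _ => hT.level β).mono hcov
  have hunc : ¬ {ξ : Om1 | ¬ ht (e (top ξ a0)) < δ}.Countable := by
    intro h
    have h1 : {ξ : Om1 | ht (e (top ξ a0)) < δ}.Countable := by
      have hinj : Function.Injective fun ξ : Om1 => e (top ξ a0) := by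
        intro ξ ζ h
        have h2 := he h
        injection h2
      exact hcount.preimage hinj
    have h2 := h1.union h
    apply Set.not_countable_univ (α := Om1)
    refine h2.mono ?_
    intro ξ _
    exact em _
  -- projections to the level of height `δ`
  have hproj : ∀ ξ : Om1, ∃ p : T, ¬ ht (e (top ξ a0)) < δ → ht p = δ ∧ p ≤ e (top ξ a0) := by
    intro ξ
    by_cases hξ : ht (e (top ξ a0)) < δ
    · exact ⟨e (top ξ a0), fun h => absurd hξ h⟩
    · rcases eq_or_lt_of_le (not_lt.1 hξ) with h | h
      · exact ⟨e (top ξ a0), fun _ => ⟨h.symm, le_rfl⟩⟩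
      · obtain ⟨p, hp, hpδ⟩ := exists_ht_eq h
        exact ⟨p, fun _ => ⟨hpδ, hp.le⟩⟩
  choose p hp using hproj
  have hex : ∃ ξ ζ : Om1, ξ ≠ ζ ∧ ¬ ht (e (top ξ a0)) < δ ∧ ¬ ht (e (top ζ a0)) < δ ∧
      p ξ = p ζ := by
    by_contra hcon
    push Not at hcon
    apply hunc
    have hinj : InjOn p {ξ : Om1 | ¬ ht (e (top ξ a0)) < δ} := by
      intro ξ hξ ζ hζ h
      by_contra hne
      exact hcon ξ ζ hne (not_lt.1 hξ) (not_lt.1 hζ) h
    apply countable_of_injective_of_countable_image hinj
    refine (hT.level δ).mono ?_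
    rintro _ ⟨ξ, hξ, rfl⟩
    exact (hp ξ hξ).1
  obtain ⟨ξ, ζ, hne, hξ, hζ, hpp⟩ := hex
  apply hne
  apply hr
  funext n
  have h1 : (low (seg (r ξ) (n + 1)) : Comb r A) < top ξ a0 := by
    rw [low_lt_top, seg_length]
  have h2 : e (low (seg (r ξ) (n + 1))) < e (top ξ a0) := (hlt _ _).1 h1
  have h3 : e (low (seg (r ξ) (n + 1))) < p ξ := by
    rcases eq_or_lt_of_le (hp ξ hξ).2 with h | h
    · rw [h]
      exact h2
    · have h4 : ht (e (low (seg (r ξ) (n + 1)))) < ht (p ξ) := by
        rw [(hp ξ hξ).1]
        exact hlow _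
      refine lt_of_le_of_ne (le_of_ht_le h2 h h4.le) ?_
      intro h5
      rw [h5] at h4
      exact lt_irrefl _ h4
  have h6 : e (low (seg (r ξ) (n + 1))) < e (top ζ a0) := by
    rw [hpp] at h3
    exact lt_of_lt_of_le h3 (hp ζ hζ).2
  have h7 : (low (seg (r ξ) (n + 1)) : Comb r A) < top ζ a0 := (hlt _ _).2 h6
  rw [low_lt_top, seg_length] at h7
  exact seg_get h7 n (Nat.lt_succ_self n)

end

end Pool.Agent.Q213.CombTree
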