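import Mathlib

set_option autoImplicit false

open TopologicalSpace Topology Set

namespace Pool.Agent.Q213.CpSep

/-- Every closed subspace is separable. -/
def CHS (Y : Type*) [TopologicalSpace Y] : Prop :=
  ∀ S : Set Y, IsClosed S → SeparableSpace ↥S

/-- The space L_p(X) of the frozen statement. -/
abbrev Lp (X : Type*) [TopologicalSpace X] : Type _ :=
  ↥(Set.range (fun a : X →₀ ℝ => fun f : C(X, ℝ) => a.sum (fun x r => r * f x)))

theorem CHS.surj {Y Z : Type*} [TopologicalSpace Y] [TopologicalSpace Z] (h : CHS Y)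
    (f : Y → Z) (hf : Continuous f) (hs : Function.Surjective f) : CHS Z := by
  intro S hS
  have h1 : SeparableSpace ↥(f ⁻¹' S) := h _ (hS.preimage hf)
  have h2 : Continuous (fun y : ↥(f ⁻¹' S) => (⟨f y.1, y.2⟩ : ↥S)) :=
    (hf.comp continuous_subtype_val).subtype_mk _
  have h3 : Function.Surjective (fun y : ↥(f ⁻¹' S) => (⟨f y.1, y.2⟩ : ↥S)) := by
    rintro ⟨z, hz⟩
    obtain ⟨y, rfl⟩ := hs z
    exact ⟨⟨y, hz⟩, rfl⟩
  exact h3.denseRange.separableSpace h2

theorem CHS.closed {Y : Type*} [TopologicalSpace Y] (h : CHS Y) (T : Set Y) (hT : IsClosed T) :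
    CHS ↥T := by
  intro S hS
  have h1 : SeparableSpace ↥(Subtype.val '' S : Set Y) :=
    h _ (hT.isClosedEmbedding_subtypeVal.isClosedMap _ hS)
  let g : ↥(Subtype.val '' S : Set Y) → ↥S := fun y =>
    ⟨⟨y.1, by obtain ⟨z, _, hz⟩ := y.2; rw [← hz]; exact z.2⟩, by
      obtain ⟨z, hz, hz'⟩ := y.2
      have : (⟨y.1, by rw [← hz']; exact z.2⟩ : ↥T) = z := Subtype.ext hz'.symm
      rw [this]; exact hz⟩
  have hg : Continuous g := (continuous_subtype_val.subtype_mk _).subtype_mk _
  have hs : Function.Surjective g := by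
    rintro ⟨z, hz⟩
    exact ⟨⟨z.1, ⟨z, hz, rfl⟩⟩, rfl⟩
  exact hs.denseRange.separableSpace hg

/-- A closed set whose complement is a countable union of cozero sets is a zero set. -/
theorem zero_of_coz {Y : Type*} [TopologicalSpace Y] {ι : Type*} [Countable ι] (u : ι → Y → ℝ)
    (hu : ∀ i, Continuous (u i)) (h0 : ∀ i y, 0 ≤ u i y) (s : Set Y)
    (hs : ∀ y, y ∈ s ↔ ∀ i, u i y = 0) :
    ∃ v : Y → ℝ, Continuous v ∧ (∀ y, 0 ≤ v y) ∧ ∀ y, y ∈ s ↔ v y = 0 := by
  classical
  have _ : Encodable ι := Encodable.ofCountable ι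
  have hsum : Summable (fun i : ι => (1 / 2 : ℝ) ^ Encodable.encode i) :=
    summable_geometric_two_encode
  have hb : ∀ i y, ‖(1 / 2 : ℝ) ^ Encodable.encode i * min 1 (u i y)‖
      ≤ (1 / 2 : ℝ) ^ Encodable.encode i := by
    intro i y
    have h1 : 0 ≤ min 1 (u i y) := le_min zero_le_one (h0 i y)
    have h2 : min 1 (u i y) ≤ 1 := min_le_left _ _
    rw [Real.norm_of_nonneg (by positivity)]
    calc (1 / 2 : ℝ) ^ Encodable.encode i * min 1 (u i y)
        ≤ (1 / 2 : ℝ) ^ Encodable.encode i * 1 := by gcongr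
      _ = _ := mul_one _
  have hsy : ∀ y, Summable (fun i : ι => (1 / 2 : ℝ) ^ Encodable.encode i * min 1 (u i y)) :=
    fun y => Summable.of_norm_bounded hsum (fun i => hb i y)
  refine ⟨fun y => ∑' i, (1 / 2 : ℝ) ^ Encodable.encode i * min 1 (u i y), ?_, ?_, ?_⟩
  · exact continuous_tsum (fun i => continuous_const.mul (continuous_const.min (hu i))) hsum hb
  · intro y
    exact tsum_nonneg fun i => mul_nonneg (by positivity) (le_min zero_le_one (h0 i y))
  · intro y
    rw [hs y]
    constructor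
    · intro h
      simp [h]
    · intro h i
      have h1 : ∀ j, 0 ≤ (1 / 2 : ℝ) ^ Encodable.encode j * min 1 (u j y) :=
        fun j => mul_nonneg (by positivity) (le_min zero_le_one (h0 j y))
      have h2 : (1 / 2 : ℝ) ^ Encodable.encode i * min 1 (u i y) ≤ 0 := by
        rw [← h]
        exact (hsy y).le_tsum i (fun j _ => h1 j)
      have h3 : min 1 (u i y) ≤ 0 := by
        by_contra hc
        push Not at hc
        have : 0 < (1 / 2 : ℝ) ^ Encodable.encode i * min 1 (u i y) := by positivity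
        linarith
      rcases min_le_iff.1 h3 with h4 | h4
      · linarith
      · exact le_antisymm h4 (h0 i y)

/-- If all closed sets are zero sets the space is perfectly normal. -/
theorem perfect_of_zero {Y : Type*} [TopologicalSpace Y]
    (h : ∀ s : Set Y, IsClosed s →
      ∃ v : Y → ℝ, Continuous v ∧ (∀ y, 0 ≤ v y) ∧ ∀ y, y ∈ s ↔ v y = 0) :
    NormalSpace Y ∧ ∀ s : Set Y, IsClosed s → IsGδ s := by
  constructor
  · refine ⟨fun s t hs ht hst => ?_⟩
    obtain ⟨v, hv, hv0, hvs⟩ := h s hs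
    obtain ⟨w, hw, hw0, hwt⟩ := h t ht
    refine ⟨{y | v y < w y}, {y | w y < v y}, isOpen_lt hv hw, isOpen_lt hw hv, ?_, ?_, ?_⟩
    · intro y hy
      have h1 : v y = 0 := (hvs y).1 hy
      have h2 : w y ≠ 0 := fun h0 => Set.disjoint_left.1 hst hy ((hwt y).2 h0)
      show v y < w y
      rw [h1]
      exact lt_of_le_of_ne (hw0 y) (Ne.symm h2)
    · intro y hy
      have h1 : w y = 0 := (hwt y).1 hy
      have h2 : v y ≠ 0 := fun h0 => Set.disjoint_left.1 hst ((hvs y).2 h0) hy
      show w y < v y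
      rw [h1]
      exact lt_of_le_of_ne (hv0 y) (Ne.symm h2)
    · rw [Set.disjoint_left]
      intro y h1 h2
      have h1' : v y < w y := h1
      have h2' : w y < v y := h2
      exact lt_asymm h1' h2'
  · intro s hs
    obtain ⟨v, hv, -, hvs⟩ := h s hs
    have : s = v ⁻¹' {0} := by
      ext y
      rw [hvs y]
      rfl
    rw [this]
    exact (IsGδ.singleton (0 : ℝ)).preimage hv

/-- the evaluation of a functional on a continuous function -/
theorem lp_eval_cont {X : Type*} [TopologicalSpace X] (f : C(X, ℝ)) :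
    Continuous (fun ψ : Lp X => ψ.1 f) :=
  (continuous_apply f).comp continuous_subtype_val

abbrev Cpk (X : Type*) [TopologicalSpace X] (k : ℕ) : Type _ := {f : X → (Fin k → ℝ) // Continuous f}

/-- j-th coordinate -/
def co {X : Type*} [TopologicalSpace X] {k : ℕ} (f : Cpk X k) (j : Fin k) : C(X, ℝ) :=
  ⟨fun x => f.1 x j, (continuous_apply j).comp f.2⟩

theorem co_cont {X : Type*} [TopologicalSpace X] {k : ℕ} (ψ : Lp X) (j : Fin k) :
    Continuous (fun f : Cpk X k => ψ.1 (co f j)) := by
  obtain ⟨a, ha⟩ := ψ.2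
  have h : (fun f : Cpk X k => ψ.1 (co f j)) = fun f => ∑ x ∈ a.support, a x * f.1 x j := by
    funext f
    rw [← ha]
    rfl
  rw [h]
  refine continuous_finsetSum _ fun x _ => continuous_const.mul ?_
  exact (continuous_apply j).comp ((continuous_apply x).comp continuous_subtype_val)

theorem lp_perfect (X : Type*) [TopologicalSpace X] (h : ∀ k, CHS (Cpk X k)) :
    NormalSpace (Lp X) ∧ ∀ s : Set (Lp X), IsClosed s → IsGδ s := by
  classical
  apply perfect_of_zero
  intro Z hZ
  -- index data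
  let I := Σ k : ℕ, (Fin k → ℚ) × ℕ
  let E : ∀ i : I, Set (Cpk X i.1) := fun i =>
    {f | ∀ ψ ∈ Z, ∃ j, (1 / ((i.2.2 : ℝ) + 1)) ≤ |ψ.1 (co f j) - (i.2.1 j : ℝ)|}
  have hE : ∀ i, IsClosed (E i) := by
    intro i
    have : E i = ⋂ ψ ∈ Z, ⋃ j, {f | (1 / ((i.2.2 : ℝ) + 1)) ≤ |ψ.1 (co f j) - (i.2.1 j : ℝ)|} := by
      ext f
      simp [E]
    rw [this]
    refine isClosed_biInter fun ψ _ => isClosed_iUnion_of_finite fun j => ?_
    exact isClosed_le continuous_const ((co_cont ψ j).sub continuous_const).abs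
  have hsep : ∀ i, ∃ D : Set ↥(E i), D.Countable ∧ Dense D := fun i =>
    haveI := h i.1 (E i) (hE i)
    exists_countable_dense _
  choose D hDc hDd using hsep
  have _ : ∀ i, Countable ↥(D i) := fun i => (hDc i).to_subtype
  let u : (Σ i : I, ↥(D i)) → Lp X → ℝ := fun p ψ =>
    ∏ j, max 0 (1 / ((p.1.2.2 : ℝ) + 1) - |ψ.1 (co p.2.1.1 j) - (p.1.2.1 j : ℝ)|)
  refine zero_of_coz u ?_ ?_ Z ?_
  · intro p
    refine continuous_finsetProd _ fun j _ => continuous_const.max ?_
    exact continuous_const.sub ((lp_eval_cont _).sub continuous_const).abs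
  · intro p ψ
    exact Finset.prod_nonneg fun j _ => le_max_left _ _
  · intro φ
    constructor
    · rintro hφ ⟨i, d⟩
      obtain ⟨j, hj⟩ := d.1.2 φ hφ
      refine Finset.prod_eq_zero (Finset.mem_univ j) ?_
      exact max_eq_left (by linarith)
    · intro hall
      by_contra hφ
      -- a basic neighbourhood of φ missing Z
      have hopen : IsOpen (Zᶜ) := hZ.isOpen_compl
      obtain ⟨V, hV, hVZ⟩ := isOpen_induced_iff.1 hopen
      have hφV : φ.1 ∈ V := by
        have : φ ∈ (Subtype.val ⁻¹' V : Set (Lp X)) := by rw [hVZ]; exact hφ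
        exact this
      obtain ⟨F, W, hW, hWV⟩ := isOpen_pi_iff.1 hV φ.1 hφV
      -- a uniform radius
      have hr : ∃ ε > (0 : ℝ), ∀ f ∈ F, Metric.ball (φ.1 f) ε ⊆ W f := by
        have h1 : ∀ f ∈ F, ∃ ε > (0 : ℝ), Metric.ball (φ.1 f) ε ⊆ W f := fun f hf =>
          Metric.isOpen_iff.1 (hW f hf).1 _ (hW f hf).2
        clear hWV
        induction F using Finset.induction_on with
        | empty => exact ⟨1, one_pos, by simp⟩
        | insert a s ha ih =>
          obtain ⟨ε1, he1, hb1⟩ := ih (fun f hf => hW f (Finset.mem_insert_of_mem hf))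
            (fun f hf => h1 f (Finset.mem_insert_of_mem hf))
          obtain ⟨ε2, he2, hb2⟩ := h1 a (Finset.mem_insert_self _ _)
          refine ⟨min ε1 ε2, lt_min he1 he2, fun f hf => ?_⟩
          rcases Finset.mem_insert.1 hf with rfl | hf
          · exact (Metric.ball_subset_ball (min_le_right _ _)).trans hb2
          · exact (Metric.ball_subset_ball (min_le_left _ _)).trans (hb1 f hf)
      obtain ⟨ε, hε, hball⟩ := hr
      obtain ⟨m, hm⟩ := exists_nat_one_div_lt (half_pos hε)
      let k := F.card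
      let e : Fin k ≃ ↥F := F.equivFin.symm
      have hq : ∀ j : Fin k, ∃ q : ℚ, |φ.1 (e j).1 - (q : ℝ)| < 1 / ((m : ℝ) + 1) := by
        intro j
        obtain ⟨q, hq1, hq2⟩ := exists_rat_btwn
          (show φ.1 (e j).1 - 1 / ((m : ℝ) + 1) < φ.1 (e j).1 + 1 / ((m : ℝ) + 1) by
            have : (0 : ℝ) < 1 / ((m : ℝ) + 1) := by positivity
            linarith)
        exact ⟨q, by rw [abs_lt]; constructor <;> linarith⟩
      choose q hq using hq
      let f0 : Cpk X k := ⟨fun x j => (e j).1 x, continuous_pi fun j => (e j).1.continuous⟩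
      have hco : ∀ j, co f0 j = (e j).1 := fun j => by ext x; rfl
      have hf0 : f0 ∈ E ⟨k, q, m⟩ := by
        intro ψ hψ
        by_contra hcon
        push Not at hcon
        apply hφ
        exfalso
        have hψV : ψ.1 ∈ V := by
          apply hWV
          intro f hf
          have hf' : f ∈ F := hf
          obtain ⟨j, hj⟩ := e.surjective ⟨f, hf'⟩
          apply hball f hf'
          rw [Metric.mem_ball, Real.dist_eq]
          have h1 := hcon j
          rw [hco j] at h1
          have h2 := hq j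
          rw [hj] at h1 h2
          simp only at h1 h2
          have h3 : ψ.1 f - φ.1 f = (ψ.1 f - (q j : ℝ)) - (φ.1 f - (q j : ℝ)) := by ring
          rw [h3]
          calc |(ψ.1 f - (q j : ℝ)) - (φ.1 f - (q j : ℝ))|
              ≤ |ψ.1 f - (q j : ℝ)| + |φ.1 f - (q j : ℝ)| := abs_sub _ _
            _ < ε := by linarith
        have : ψ ∈ (Subtype.val ⁻¹' V : Set (Lp X)) := hψV
        rw [hVZ] at this
        exact this hψ
      -- density
      let i0 : I := ⟨k, q, m⟩
      let O : Set ↥(E i0) := {g | ∀ j, |φ.1 (co g.1 j) - (q j : ℝ)| < 1 / ((m : ℝ) + 1)}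
      have hO : IsOpen O := by
        have : O = ⋂ j, {g : ↥(E i0) | |φ.1 (co g.1 j) - (q j : ℝ)| < 1 / ((m : ℝ) + 1)} := by
          ext g
          simp [O]
        rw [this]
        refine isOpen_iInter_of_finite fun j => ?_
        exact isOpen_lt ((((co_cont φ j).comp continuous_subtype_val).sub
          continuous_const).abs) continuous_const
      have hne : O.Nonempty := ⟨⟨f0, hf0⟩, fun j => by
        show |φ.1 (co f0 j) - (q j : ℝ)| < _
        rw [hco j]
        exact hq j⟩
      obtain ⟨g, hgO, hgD⟩ := (hDd i0).inter_open_nonempty O hO hne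
      have h0 := hall ⟨i0, ⟨g, hgD⟩⟩
      have hpos : 0 < u ⟨i0, ⟨g, hgD⟩⟩ φ := by
        refine Finset.prod_pos fun j _ => ?_
        refine lt_max_of_lt_right ?_
        have := hgO j
        show 0 < 1 / ((m : ℝ) + 1) - |φ.1 (co g.1 j) - (q j : ℝ)|
        linarith
      linarith

end Pool.Agent.Q213.CpSep
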