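import Pool.Agent.Q213.CpSepA

set_option autoImplicit false

open TopologicalSpace Topology Set Filter

namespace Pool.Agent.Q213.CpSep

/-- In a zero-dimensional space with the closed separability property every open set is a
countable union of clopen sets. -/
theorem clopen_union {X : Type*} [TopologicalSpace X]
    (hb : ∃ b : Set (Set X), IsTopologicalBasis b ∧ ∀ s ∈ b, IsClopen s)
    (h : CHS ↥{f : X → ℝ | Continuous f}) (U : Set X) (hU : IsOpen U) :
    ∃ 𝒞 : Set (Set X), 𝒞.Countable ∧ (∀ C ∈ 𝒞, IsClopen C) ∧ ∀ x, x ∈ U ↔ ∃ C ∈ 𝒞, x ∈ C := by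
  classical
  have hev : ∀ x : X, Continuous (fun F : ↥{f : X → ℝ | Continuous f} => F.1 x) := fun x =>
    (continuous_apply x).comp continuous_subtype_val
  let E : Set ↥{f : X → ℝ | Continuous f} :=
    {F | ∀ x, (F.1 x = 0 ∨ F.1 x = 1) ∧ (x ∉ U → F.1 x = 0)}
  have hE : IsClosed E := by
    have : E = ⋂ x, ({F | F.1 x = 0 ∨ F.1 x = 1} ∩ {F | x ∉ U → F.1 x = 0}) := by
      ext F
      simp only [E, Set.mem_iInter, Set.mem_inter_iff, Set.mem_ofPred_eq]
    rw [this]
    refine isClosed_iInter fun x => IsClosed.inter ?_ ?_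
    · exact (isClosed_eq (hev x) continuous_const).union (isClosed_eq (hev x) continuous_const)
    · by_cases hx : x ∈ U
      · have : {F : ↥{f : X → ℝ | Continuous f} | x ∉ U → F.1 x = 0} = Set.univ := by
          ext F; simp [hx]
        rw [this]; exact isClosed_univ
      · have : {F : ↥{f : X → ℝ | Continuous f} | x ∉ U → F.1 x = 0} = {F | F.1 x = 0} := by
          ext F; simp [hx]
        rw [this]; exact isClosed_eq (hev x) continuous_const
  have := h E hE
  obtain ⟨D, hDc, hDd⟩ := exists_countable_dense ↥E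
  refine ⟨(fun F : ↥E => {x | F.1.1 x = 1}) '' D, hDc.image _, ?_, ?_⟩
  · rintro _ ⟨F, -, rfl⟩
    refine ⟨isClosed_eq F.1.2 continuous_const, ?_⟩
    have : {x | F.1.1 x = 1} = {x | 1 / 2 < F.1.1 x} := by
      ext x
      have hx : F.1.1 x = 0 ∨ F.1.1 x = 1 := (F.2 x).1
      simp only [Set.mem_ofPred_eq]
      rcases hx with hx | hx <;> rw [hx] <;> norm_num
    show IsOpen {x | F.1.1 x = 1}
    rw [this]
    exact isOpen_lt continuous_const F.1.2
  · intro x
    constructor
    · intro hx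
      obtain ⟨b, hb1, hb2⟩ := hb
      obtain ⟨V, hVb, hxV, hVU⟩ := hb1.exists_subset_of_mem_open hx hU
      have hV := hb2 V hVb
      let F0 : ↥{f : X → ℝ | Continuous f} :=
        ⟨Set.indicator V (fun _ => (1 : ℝ)), (continuous_const).indicator (by
          intro a ha
          rw [hV.frontier_eq] at ha
          exact ha.elim)⟩
      have hF0 : F0 ∈ E := by
        intro y
        by_cases hy : y ∈ V
        · have h1 : F0.1 y = 1 := by
            show Set.indicator V (fun _ => (1 : ℝ)) y = 1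
            exact Set.indicator_of_mem hy _
          exact ⟨Or.inr h1, fun hyU => (hyU (hVU hy)).elim⟩
        · have h0 : F0.1 y = 0 := by
            show Set.indicator V (fun _ => (1 : ℝ)) y = 0
            exact Set.indicator_of_notMem hy _
          exact ⟨Or.inl h0, fun _ => h0⟩
      have hO : IsOpen {F : ↥E | 1 / 2 < F.1.1 x} :=
        isOpen_lt continuous_const ((hev x).comp continuous_subtype_val)
      have hne : {F : ↥E | 1 / 2 < F.1.1 x}.Nonempty := by
        refine ⟨⟨F0, hF0⟩, ?_⟩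
        show (1 : ℝ) / 2 < Set.indicator V (fun _ => (1 : ℝ)) x
        rw [Set.indicator_of_mem hxV]
        norm_num
      obtain ⟨F, hFO, hFD⟩ := hDd.inter_open_nonempty _ hO hne
      refine ⟨_, ⟨F, hFD, rfl⟩, ?_⟩
      have h1 : F.1.1 x = 0 ∨ F.1.1 x = 1 := (F.2 x).1
      have h2 : 1 / 2 < F.1.1 x := hFO
      rcases h1 with h1 | h1
      · rw [h1] at h2; norm_num at h2
      · exact h1
    · rintro ⟨_, ⟨F, -, rfl⟩, hx⟩
      by_contra hxU
      have h1 : F.1.1 x = 0 := (F.2 x).2 hxU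
      have h2 : F.1.1 x = 1 := hx
      rw [h1] at h2
      norm_num at h2

/-- Countable open covers have locally constant selections. -/
theorem select {X : Type*} [TopologicalSpace X]
    (hcl : ∀ U : Set X, IsOpen U →
      ∃ 𝒞 : Set (Set X), 𝒞.Countable ∧ (∀ C ∈ 𝒞, IsClopen C) ∧ ∀ x, x ∈ U ↔ ∃ C ∈ 𝒞, x ∈ C)
    {ι : Type*} [Countable ι] (U : ι → Set X) (hU : ∀ i, IsOpen (U i))
    (hcov : ∀ x, ∃ i, x ∈ U i) : ∃ c : X → ι, IsLocallyConstant c ∧ ∀ x, x ∈ U (c x) := by
  classical
  rcases isEmpty_or_nonempty X with hX | ⟨⟨x0⟩⟩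
  · exact ⟨fun x => (hX.false x).elim, fun s => by
      have : ((fun x : X => ((hX.false x).elim : ι)) ⁻¹' s) = ∅ := by
        ext x; exact (hX.false x).elim
      rw [this]; exact isOpen_empty, fun x => (hX.false x).elim⟩
  choose 𝒞 h𝒞c h𝒞cl h𝒞 using fun i => hcl (U i) (hU i)
  let J := Σ i : ι, ↥(𝒞 i)
  have _ : ∀ i, Countable ↥(𝒞 i) := fun i => (h𝒞c i).to_subtype
  have _ : Encodable J := Encodable.ofCountable J
  have hJ : ∀ x, ∃ j : J, x ∈ j.2.1 := by
    intro x
    obtain ⟨i, hi⟩ := hcov x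
    obtain ⟨C, hC, hxC⟩ := (h𝒞 i x).1 hi
    exact ⟨⟨i, C, hC⟩, hxC⟩
  obtain ⟨j0, -⟩ := hJ x0
  let g : ℕ → J := fun n => (Encodable.decode (α := J) n).getD j0
  let Dn : ℕ → Set X := fun n => (g n).2.1
  have hDn : ∀ n, IsClopen (Dn n) := fun n => h𝒞cl _ _ (g n).2.2
  have hex : ∀ x, ∃ n, x ∈ Dn n := by
    intro x
    obtain ⟨j, hj⟩ := hJ x
    refine ⟨Encodable.encode j, ?_⟩
    have : g (Encodable.encode j) = j := by simp [g]
    show x ∈ (g (Encodable.encode j)).2.1
    rw [this]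
    exact hj
  let n : X → ℕ := fun x => Nat.find (hex x)
  have hn : IsLocallyConstant n := by
    rw [IsLocallyConstant.iff_isOpen_fiber]
    intro m
    have : n ⁻¹' {m} = Dn m ∩ ⋂ k ∈ Finset.range m, (Dn k)ᶜ := by
      ext x
      simp only [Set.mem_preimage, Set.mem_singleton_iff, n, Nat.find_eq_iff, Set.mem_inter_iff,
        Set.mem_iInter, Finset.mem_range, Set.mem_compl_iff]
    rw [this]
    refine (hDn m).isOpen.inter ?_
    exact isOpen_biInter_finset fun k _ => (hDn k).compl.isOpen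
  refine ⟨fun x => (g (n x)).1, hn.comp (fun m => (g m).1), fun x => ?_⟩
  rw [h𝒞]
  exact ⟨(g (n x)).2.1, (g (n x)).2.2, Nat.find_spec (hex x)⟩

/-- the code space -/
abbrev Code (k : ℕ) : Type := ℕ × (ℕ → Fin k → Fin 5)

/-- vectors of integers -/
def vec (k : ℕ) (n : ℕ) : Fin k → ℤ := (Encodable.decode (α := Fin k → ℤ) n).getD 0

/-- decoding -/
noncomputable def dec (k : ℕ) (m : Code k) : Fin k → ℝ := fun j =>
  (vec k m.1 j : ℝ) + ∑' i : ℕ, (((m.2 i j : ℕ) : ℝ) - 2) / 2 ^ (i + 1)

theorem digit_bound (a : Fin 5) (i : ℕ) : ‖(((a : ℕ) : ℝ) - 2) / 2 ^ (i + 1)‖ ≤ (1 / 2) ^ i := by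
  have h1 : ((a : ℕ) : ℝ) ≤ 4 := by
    have : (a : ℕ) ≤ 4 := by omega
    exact_mod_cast this
  have h2 : (0 : ℝ) ≤ ((a : ℕ) : ℝ) := by positivity
  rw [Real.norm_eq_abs, abs_div, abs_of_pos (show (0 : ℝ) < 2 ^ (i + 1) by positivity),
    div_le_iff₀ (by positivity)]
  have h3 : |((a : ℕ) : ℝ) - 2| ≤ 2 := by rw [abs_le]; constructor <;> linarith
  have h4 : (1 / 2 : ℝ) ^ i * 2 ^ (i + 1) = 2 := by
    rw [pow_succ, ← mul_assoc, ← mul_pow]
    norm_num
  linarith

theorem dec_cont (k : ℕ) : Continuous (dec k) := by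
  refine continuous_pi fun j => Continuous.add ?_ ?_
  · exact (continuous_of_discreteTopology (f := fun n : ℕ => (vec k n j : ℝ))).comp continuous_fst
  · refine continuous_tsum (u := fun i => (1 / 2 : ℝ) ^ i) (fun i => ?_) summable_geometric_two
      (fun i m => digit_bound _ i)
    have h1 : Continuous (fun m : Code k => m.2 i j) :=
      (continuous_apply j).comp ((continuous_apply i).comp continuous_snd)
    exact (continuous_of_discreteTopology
      (f := fun a : Fin 5 => (((a : ℕ) : ℝ) - 2) / 2 ^ (i + 1))).comp h1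

theorem exists_emb (k : ℕ) : ∃ e : Code k → ℝ, IsClosedEmbedding e := by
  classical
  let A := Fin k → Fin 5
  let e0 : (ℕ → A) → (ℕ → Bool) := fun ξ n =>
    decide (Encodable.encode (ξ (Nat.unpair n).1) = (Nat.unpair n).2)
  have h0c : Continuous e0 := by
    refine continuous_pi fun n => ?_
    exact (continuous_of_discreteTopology
      (f := fun a : A => decide (Encodable.encode a = (Nat.unpair n).2))).comp
      (continuous_apply (Nat.unpair n).1)
  have h0i : Function.Injective e0 := by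
    intro ξ η hξη
    funext i
    have := congrFun hξη (Nat.pair i (Encodable.encode (ξ i)))
    simp only [e0, Nat.unpair_pair, decide_true] at this
    have h1 := of_decide_eq_true this.symm
    exact (Encodable.encode_injective h1).symm
  have h0 : IsClosedEmbedding e0 := h0c.isClosedEmbedding h0i
  let e1 : (ℕ → Bool) → ℝ := fun x => (cantorSetHomeomorphNatToBool.symm x).1
  have h1 : IsClosedEmbedding e1 :=
    (isClosed_cantorSet.isClosedEmbedding_subtypeVal).comp
      cantorSetHomeomorphNatToBool.symm.isClosedEmbedding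
  have hI : ∀ x, e1 x ∈ Set.Icc (0 : ℝ) 1 := fun x =>
    cantorSet_subset_unitInterval (cantorSetHomeomorphNatToBool.symm x).2
  have h2 : IsClosedEmbedding (e1 ∘ e0) := h1.comp h0
  let e : Code k → ℝ := fun m => 3 * (m.1 : ℝ) + e1 (e0 m.2)
  have hec : Continuous e := by
    refine Continuous.add ?_ (h2.continuous.comp continuous_snd)
    exact (continuous_of_discreteTopology (f := fun n : ℕ => 3 * (n : ℝ))).comp continuous_fst
  have hei : Function.Injective e := by
    rintro ⟨n, ξ⟩ ⟨m, η⟩ hnm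
    have h3 : 3 * (n : ℝ) + e1 (e0 ξ) = 3 * (m : ℝ) + e1 (e0 η) := hnm
    have hx := hI (e0 ξ)
    have hy := hI (e0 η)
    have hnm' : n = m := by
      by_contra hne
      rcases lt_or_gt_of_ne hne with hlt | hlt
      · have : (n : ℝ) + 1 ≤ m := by exact_mod_cast hlt
        linarith [hx.1, hx.2, hy.1, hy.2]
      · have : (m : ℝ) + 1 ≤ n := by exact_mod_cast hlt
        linarith [hx.1, hx.2, hy.1, hy.2]
    subst hnm'
    have h4 : e1 (e0 ξ) = e1 (e0 η) := by linarith
    have := h2.injective h4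
    rw [this]
  have hep : IsProperMap e := by
    rw [isProperMap_iff_isCompact_preimage]
    refine ⟨hec, fun {K} hK => ?_⟩
    obtain ⟨R, hR⟩ := hK.bddAbove
    obtain ⟨N, hN⟩ := exists_nat_ge R
    have hcomp : IsCompact ((Set.Iic N : Set ℕ) ×ˢ (Set.univ : Set (ℕ → Fin k → Fin 5))) :=
      ((Set.finite_Iic N).isCompact).prod isCompact_univ
    refine hcomp.of_isClosed_subset (hK.isClosed.preimage hec) ?_
    rintro ⟨n, ξ⟩ hn
    refine ⟨?_, Set.mem_univ _⟩
    have h3 : e (n, ξ) ≤ R := hR hn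
    have h4 : 3 * (n : ℝ) + e1 (e0 ξ) ≤ R := h3
    have h5 := (hI (e0 ξ)).1
    have h6 : (n : ℝ) ≤ N := by
      have : (0 : ℝ) ≤ n := by positivity
      linarith
    exact_mod_cast h6
  exact ⟨e, IsClosedEmbedding.of_continuous_injective_isClosedMap hec hei hep.isClosedMap⟩

/-- to digits -/
def toF (z : ℤ) : Fin 5 := ⟨(z + 2).toNat % 5, Nat.mod_lt _ (by norm_num)⟩

theorem toF_val {z : ℤ} (h1 : -2 ≤ z) (h2 : z ≤ 2) : (((toF z : Fin 5) : ℕ) : ℝ) - 2 = z := by
  have h3 : ((toF z : Fin 5) : ℕ) = (z + 2).toNat := by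
    show (z + 2).toNat % 5 = _
    apply Nat.mod_eq_of_lt
    omega
  rw [h3]
  have h4 : (((z + 2).toNat : ℕ) : ℤ) = z + 2 := Int.toNat_of_nonneg (by omega)
  have h5 : (((z + 2).toNat : ℕ) : ℝ) = (z : ℝ) + 2 := by exact_mod_cast h4
  rw [h5]
  ring

theorem lift_exists {X : Type*} [TopologicalSpace X]
    (hcl : ∀ U : Set X, IsOpen U →
      ∃ 𝒞 : Set (Set X), 𝒞.Countable ∧ (∀ C ∈ 𝒞, IsClopen C) ∧ ∀ x, x ∈ U ↔ ∃ C ∈ 𝒞, x ∈ C)
    {k : ℕ} (f : Cpk X k) : ∃ F : X → Code k, Continuous F ∧ ∀ x, dec k (F x) = f.1 x := by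
  classical
  have happ : ∀ i : ℕ, ∃ c : X → (Fin k → ℤ), IsLocallyConstant c ∧
      ∀ x j, |2 ^ i * f.1 x j - (c x j : ℝ)| < 1 := by
    intro i
    obtain ⟨c, hc, hc'⟩ := select hcl (ι := Fin k → ℤ)
      (fun v => {x | ∀ j, |2 ^ i * f.1 x j - (v j : ℝ)| < 1}) (fun v => by
        have : {x | ∀ j, |2 ^ i * f.1 x j - (v j : ℝ)| < 1}
            = ⋂ j, {x | |2 ^ i * f.1 x j - (v j : ℝ)| < 1} := by
          ext x; simp
        rw [this]
        refine isOpen_iInter_of_finite fun j => ?_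
        have hfj : Continuous (fun x => f.1 x j) := (continuous_apply j).comp f.2
        exact isOpen_lt ((continuous_const.mul hfj).sub continuous_const).abs
          continuous_const) (fun x => ⟨fun j => ⌊2 ^ i * f.1 x j⌋, fun j => by
            have h1 := Int.floor_le (2 ^ i * f.1 x j)
            have h2 := Int.lt_floor_add_one (2 ^ i * f.1 x j)
            rw [abs_lt]
            constructor <;> linarith⟩)
    exact ⟨c, hc, fun x j => hc' x j⟩
  choose c hc hc' using happ
  have hd : ∀ i x j, -2 ≤ c (i + 1) x j - 2 * c i x j ∧ c (i + 1) x j - 2 * c i x j ≤ 2 := by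
    intro i x j
    have h1 := abs_lt.1 (hc' i x j)
    have h2 := abs_lt.1 (hc' (i + 1) x j)
    rw [pow_succ] at h2
    have h3 : (-3 : ℝ) < ((c (i + 1) x j - 2 * c i x j : ℤ) : ℝ) := by
      push_cast
      nlinarith [h1.1, h1.2, h2.1, h2.2]
    have h4 : ((c (i + 1) x j - 2 * c i x j : ℤ) : ℝ) < 3 := by
      push_cast
      nlinarith [h1.1, h1.2, h2.1, h2.2]
    have h3' : -3 < c (i + 1) x j - 2 * c i x j := by exact_mod_cast h3
    have h4' : c (i + 1) x j - 2 * c i x j < 3 := by exact_mod_cast h4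
    constructor <;> omega
  refine ⟨fun x => (Encodable.encode (c 0 x), fun i j => toF (c (i + 1) x j - 2 * c i x j)),
    ?_, ?_⟩
  · refine Continuous.prodMk ((hc 0).comp _).continuous (continuous_pi fun i =>
      continuous_pi fun j => ?_)
    have h1 : IsLocallyConstant (fun x => (c (i + 1) x, c i x)) :=
      (hc (i + 1)).prodMk (hc i)
    exact (h1.comp (fun p => toF (p.1 j - 2 * p.2 j))).continuous
  · intro x
    funext j
    have hvec : vec k (Encodable.encode (c 0 x)) = c 0 x := by simp [vec]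
    show (vec k (Encodable.encode (c 0 x)) j : ℝ)
      + ∑' i : ℕ, (((toF (c (i + 1) x j - 2 * c i x j) : ℕ) : ℝ) - 2) / 2 ^ (i + 1) = f.1 x j
    rw [hvec]
    have hterm : ∀ i, (((toF (c (i + 1) x j - 2 * c i x j) : ℕ) : ℝ) - 2) / 2 ^ (i + 1)
        = (c (i + 1) x j : ℝ) / 2 ^ (i + 1) - (c i x j : ℝ) / 2 ^ i := by
      intro i
      rw [toF_val (hd i x j).1 (hd i x j).2]
      push_cast
      rw [pow_succ]
      field_simp
    have hsum : Summable (fun i : ℕ =>
        (((toF (c (i + 1) x j - 2 * c i x j) : ℕ) : ℝ) - 2) / 2 ^ (i + 1)) :=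
      Summable.of_norm_bounded summable_geometric_two (fun i => digit_bound _ i)
    have hpart : ∀ n, ∑ i ∈ Finset.range n,
        (((toF (c (i + 1) x j - 2 * c i x j) : ℕ) : ℝ) - 2) / 2 ^ (i + 1)
        = (c n x j : ℝ) / 2 ^ n - (c 0 x j : ℝ) := by
      intro n
      rw [Finset.sum_congr rfl (fun i _ => hterm i)]
      rw [Finset.sum_range_sub (fun i => (c i x j : ℝ) / 2 ^ i)]
      simp
    have hlim : Tendsto (fun n => (c n x j : ℝ) / 2 ^ n - (c 0 x j : ℝ)) atTop
        (𝓝 (f.1 x j - (c 0 x j : ℝ))) := by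
      refine Tendsto.sub_const ?_ _
      rw [tendsto_iff_dist_tendsto_zero]
      refine squeeze_zero (fun _ => dist_nonneg) (fun n => ?_)
        (tendsto_pow_atTop_nhds_zero_of_lt_one (show (0 : ℝ) ≤ 1 / 2 by norm_num) (by norm_num))
      rw [Real.dist_eq]
      have h1 := hc' n x j
      have h2 : (c n x j : ℝ) / 2 ^ n - f.1 x j = -((2 ^ n * f.1 x j - (c n x j : ℝ)) / 2 ^ n) := by
        field_simp
        ring
      rw [h2, abs_neg, abs_div, abs_of_pos (show (0 : ℝ) < 2 ^ n by positivity),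
        div_le_iff₀ (by positivity)]
      have h3 : (1 / 2 : ℝ) ^ n * 2 ^ n = 1 := by
        rw [← mul_pow]; norm_num
      linarith
    have h1 := hsum.hasSum.tendsto_sum_nat
    rw [funext hpart] at h1
    have h2 := tendsto_nhds_unique h1 hlim
    rw [h2]
    ring

/-- If X is zero-dimensional, closed separability passes to all finite powers. -/
theorem chs_k {X : Type*} [TopologicalSpace X]
    (hb : ∃ b : Set (Set X), IsTopologicalBasis b ∧ ∀ s ∈ b, IsClopen s)
    (h : CHS ↥{f : X → ℝ | Continuous f}) (k : ℕ) : CHS (Cpk X k) := by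
  classical
  obtain ⟨e, he⟩ := exists_emb k
  have hcl := clopen_union hb h
  let T : Set ↥{f : X → ℝ | Continuous f} := {F | ∀ x, F.1 x ∈ Set.range e}
  have hT : IsClosed T := by
    have : T = ⋂ x, (fun F : ↥{f : X → ℝ | Continuous f} => F.1 x) ⁻¹' Set.range e := by
      ext F
      simp only [T, Set.mem_iInter, Set.mem_preimage]
      rfl
    rw [this]
    exact isClosed_iInter fun x => he.isClosed_range.preimage
      ((continuous_apply x).comp continuous_subtype_val)
  let hom := he.isEmbedding.toHomeomorph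
  let G : ↥T → Cpk X k := fun F =>
    ⟨fun x => dec k (hom.symm ⟨F.1.1 x, F.2 x⟩),
      (dec_cont k).comp (hom.symm.continuous.comp (F.1.2.subtype_mk _))⟩
  refine (h.closed T hT).surj G ?_ ?_
  · refine Continuous.subtype_mk (continuous_pi fun x => ?_) _
    refine (dec_cont k).comp (hom.symm.continuous.comp ?_)
    exact (((continuous_apply x).comp continuous_subtype_val).comp
      continuous_subtype_val).subtype_mk _
  · intro f
    obtain ⟨F0, hF0, hF0'⟩ := lift_exists hcl f
    refine ⟨⟨⟨fun x => e (F0 x), he.continuous.comp hF0⟩, fun x => ⟨F0 x, rfl⟩⟩, ?_⟩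
    apply Subtype.ext
    funext x
    show dec k (hom.symm ⟨e (F0 x), _⟩) = f.1 x
    have : hom.symm ⟨e (F0 x), ⟨F0 x, rfl⟩⟩ = F0 x := by
      apply hom.injective
      rw [Homeomorph.apply_symm_apply]
      rfl
    rw [this]
    exact hF0' x

end Pool.Agent.Q213.CpSep
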