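import Pool.Agent.Q213.CpSepA

set_option autoImplicit false

open TopologicalSpace Topology Set Filter

namespace Pool.Agent.Q213.CpSep

/-- Countable spread: every discrete subspace is countable. -/
def CS (Y : Type*) [TopologicalSpace Y] : Prop :=
  ∀ D : Set Y, (∀ z ∈ D, ∃ O : Set Y, IsOpen O ∧ z ∈ O ∧ ∀ w ∈ D, w ∈ O → w = z) → D.Countable

/-- Martin's axiom for ℵ₁ dense sets. -/
def MartinAlephOne : Prop :=
  ∀ (P : Type) (_ : Preorder P), Nonempty P →
    (∀ A : Set P, (∀ p ∈ A, ∀ q ∈ A, p ≠ q → ¬ ∃ r, r ≤ p ∧ r ≤ q) → A.Countable) →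
    ∀ 𝒟 : Set (Set P), Cardinal.mk 𝒟 ≤ Cardinal.aleph 1 →
      (∀ D ∈ 𝒟, ∀ p, ∃ q ∈ D, q ≤ p) →
      ∃ G : Set P, G.Nonempty ∧ (∀ p ∈ G, ∀ q, p ≤ q → q ∈ G) ∧
        (∀ p ∈ G, ∀ q ∈ G, ∃ r ∈ G, r ≤ p ∧ r ≤ q) ∧ ∀ D ∈ 𝒟, (D ∩ G).Nonempty

section seq

variable {W : Type} [LinearOrder W] (hW : ∀ a : W, (Set.Iic a).Countable) [hWu : Uncountable W]

include hW in
theorem bdd_above_countable (S : Set W) (hS : S.Countable) : ∃ c, ∀ s ∈ S, s < c := by
  by_contra hcon
  push Not at hcon
  have h1 : (⋃ s ∈ S, Set.Iic s) = Set.univ := by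
    ext c
    simp only [Set.mem_iUnion, Set.mem_Iic, Set.mem_univ, iff_true]
    obtain ⟨s, hs, hsc⟩ := hcon c
    exact ⟨s, hs, hsc⟩
  have h2 : (⋃ s ∈ S, Set.Iic s).Countable := hS.biUnion fun s _ => hW s
  rw [h1] at h2
  exact Set.not_countable_univ h2

variable {Y : Type*} [TopologicalSpace Y] (y : W → Y) (f : W → Y → ℝ)
  (hfc : ∀ a, Continuous (f a)) (hf0 : ∀ a z, 0 ≤ f a z) (hf1 : ∀ a, f a (y a) = 1)
  (hfs : ∀ a b, a < b → f a (y b) = 0)

include hW hWu hfc hf0 hf1 hfs in
theorem antichain_countable (hCS : ∀ N : ℕ, CS (Fin N → Y)) :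
    ∀ n : ℕ, ∀ 𝒜 : Set (Finset W), (∀ p ∈ 𝒜, p.card = n) →
      (∀ p ∈ 𝒜, ∀ a ∈ p, ∀ b ∈ p, a ≠ b → f a (y b) < 1 / 2) →
      (∀ p ∈ 𝒜, ∀ q ∈ 𝒜, p ≠ q →
        ∃ a ∈ p, ∃ b ∈ q, a ≠ b ∧ (1 / 2 ≤ f a (y b) ∨ 1 / 2 ≤ f b (y a))) → 𝒜.Countable := by
  classical
  intro n
  induction n with
  | zero =>
    intro 𝒜 hcard _ _
    refine (Set.countable_singleton (∅ : Finset W)).mono fun p hp => ?_
    exact Finset.card_eq_zero.1 (hcard p hp)
  | succ n ih =>
    intro 𝒜 hcard hcomp hinc
    by_contra hunc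
    by_cases hcase : ∃ a0, ¬ ({p ∈ 𝒜 | a0 ∈ p}).Countable
    · obtain ⟨a0, ha0⟩ := hcase
      apply ha0
      have hinj : Set.InjOn (fun p : Finset W => p.erase a0) {p ∈ 𝒜 | a0 ∈ p} := by
        rintro p ⟨-, hp⟩ q ⟨-, hq⟩ hpq
        have : insert a0 (p.erase a0) = insert a0 (q.erase a0) := by
          simp only at hpq
          rw [hpq]
        rwa [Finset.insert_erase hp, Finset.insert_erase hq] at this
      refine Set.countable_of_injective_of_countable_image hinj (ih _ ?_ ?_ ?_)
      · rintro _ ⟨p, ⟨hp, hpa⟩, rfl⟩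
        have := Finset.card_erase_of_mem hpa
        rw [hcard p hp] at this
        simpa using this
      · rintro _ ⟨p, ⟨hp, hpa⟩, rfl⟩ a ha b hb hab
        exact hcomp p hp a (Finset.mem_of_mem_erase ha) b (Finset.mem_of_mem_erase hb) hab
      · rintro _ ⟨p, ⟨hp, hpa⟩, rfl⟩ _ ⟨q, ⟨hq, hqa⟩, rfl⟩ hpq
        have hne : p ≠ q := fun h => hpq (by rw [h])
        obtain ⟨a, ha, b, hb, hab, hor⟩ := hinc p hp q hq hne
        have ha' : a ≠ a0 := by
          rintro rfl
          rcases hor with h | h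
          · have := hcomp q hq a hqa b hb hab
            linarith
          · have := hcomp q hq b hb a hqa hab.symm
            linarith
        have hb' : b ≠ a0 := by
          rintro rfl
          rcases hor with h | h
          · have := hcomp p hp a ha b hpa hab
            linarith
          · have := hcomp p hp b hpa a ha hab.symm
            linarith
        exact ⟨a, Finset.mem_erase.2 ⟨ha', ha⟩, b, Finset.mem_erase.2 ⟨hb', hb⟩, hab, hor⟩
    · push Not at hcase
      have hbig : ∀ c : W, ∃ p ∈ 𝒜, ∀ a ∈ p, c < a := by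
        intro c
        by_contra hcon
        push Not at hcon
        apply hunc
        have : 𝒜 ⊆ ⋃ a ∈ Set.Iic c, {p ∈ 𝒜 | a ∈ p} := by
          intro p hp
          obtain ⟨a, ha, hac⟩ := hcon p hp
          simp only [Set.mem_iUnion]
          exact ⟨a, hac, hp, ha⟩
        exact ((hW c).biUnion fun a _ => hcase a).mono this
      have hub : ∀ p : Finset W, ∃ c, ∀ a ∈ p, a < c := fun p =>
        bdd_above_countable hW (p : Set W) p.countable_toSet
      choose P hP𝒜 hPc using hbig
      choose ub hubc using hub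
      -- q_c = P c, p_c = P (ub (P c))
      let pp : W → Finset W := fun c => P (ub (P c))
      let h : W → W := fun c => ub (pp c)
      have hppA : ∀ c, pp c ∈ 𝒜 := fun c => hP𝒜 _
      -- maximal separated set
      let Fam : Set (Set W) := {Γ | ∀ c ∈ Γ, ∀ d ∈ Γ, c < d → h c < d}
      obtain ⟨Γ, hΓ⟩ : ∃ Γ, Maximal (· ∈ Fam) Γ := by
        refine zorn_subset Fam fun C hC hchain => ⟨⋃₀ C, ?_, fun s hs => Set.subset_sUnion_of_mem hs⟩
        rintro c ⟨s, hs, hcs⟩ d ⟨t, ht, hdt⟩ hcd
        rcases hchain.total hs ht with hst | hst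
        · exact hC ht c (hst hcs) d hdt hcd
        · exact hC hs c hcs d (hst hdt) hcd
      have hΓF : ∀ c ∈ Γ, ∀ d ∈ Γ, c < d → h c < d := hΓ.prop
      have hΓunc : ¬ Γ.Countable := by
        intro hc
        obtain ⟨c0, hc0⟩ := bdd_above_countable hW (Γ ∪ h '' Γ) (hc.union (hc.image h))
        have hins : insert c0 Γ ∈ Fam := by
          intro c hcm d hd hcd
          rcases Set.mem_insert_iff.1 hcm with hc1 | hc1
          · rcases Set.mem_insert_iff.1 hd with hd1 | hd1
            · rw [hc1, hd1] at hcd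
              exact (lt_irrefl _ hcd).elim
            · rw [hc1] at hcd
              exact (lt_asymm hcd (hc0 d (Or.inl hd1))).elim
          · rcases Set.mem_insert_iff.1 hd with hd1 | hd1
            · rw [hd1]
              exact hc0 _ (Or.inr ⟨c, hc1, rfl⟩)
            · exact hΓF c hc1 d hd1 hcd
        have hsub := hΓ.le_of_ge hins (Set.subset_insert _ _)
        have hmem : c0 ∈ Γ := hsub (Set.mem_insert _ _)
        exact lt_irrefl _ (hc0 c0 (Or.inl hmem))
      -- points of Y^(n+1)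
      have hcd : ∀ c, (pp c).card = n + 1 := fun c => hcard _ (hppA c)
      let z : W → (Fin (n + 1) → Y) := fun c i => y ((pp c).orderEmbOfFin (hcd c) i)
      let g : Finset W → (Fin (n + 1) → Y) → ℝ := fun p w => ∑ a ∈ p, ∑ i, f a (w i)
      have hgc : ∀ p, Continuous (g p) := fun p =>
        continuous_finsetSum _ fun a _ => continuous_finsetSum _ fun i _ =>
          (hfc a).comp (continuous_apply i)
      have hzi : ∀ c i, ∃ b ∈ pp c, z c i = y b := fun c i =>
        ⟨_, Finset.orderEmbOfFin_mem _ (hcd c) i, rfl⟩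
      have hiz : ∀ c, ∀ b ∈ pp c, ∃ i, z c i = y b := by
        intro c b hb
        have : b ∈ Set.range ((pp c).orderEmbOfFin (hcd c)) := by
          rw [Finset.range_orderEmbOfFin]; exact hb
        obtain ⟨i, hi⟩ := this
        exact ⟨i, by show y _ = y b; rw [hi]⟩
      have hgle : ∀ p, ∀ a ∈ p, ∀ w : Fin (n + 1) → Y, ∀ i, f a (w i) ≤ g p w := by
        intro p a ha w i
        calc f a (w i) ≤ ∑ i, f a (w i) :=
              Finset.single_le_sum (f := fun i => f a (w i)) (fun j _ => hf0 a (w j))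
                (Finset.mem_univ i)
          _ ≤ g p w := Finset.single_le_sum (f := fun a => ∑ i, f a (w i))
                (fun b _ => Finset.sum_nonneg fun j _ => hf0 b (w j)) ha
      have hzero : ∀ p c, (∀ a ∈ p, ∀ b ∈ pp c, a < b) → g p (z c) = 0 := by
        intro p c hlt
        refine Finset.sum_eq_zero fun a ha => Finset.sum_eq_zero fun i _ => ?_
        obtain ⟨b, hb, hzb⟩ := hzi c i
        rw [hzb]
        exact hfs a b (hlt a ha b hb)
      have hhalf : ∀ p ∈ 𝒜, ∀ c, (∀ b ∈ pp c, ∀ a ∈ p, b < a) → 1 / 2 ≤ g p (z c) := by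
        intro p hp c hlt
        have hne : p ≠ pp c := by
          intro he
          have hpos : 0 < p.card := by rw [hcard p hp]; omega
          obtain ⟨a, ha⟩ := Finset.card_pos.1 hpos
          exact lt_irrefl a (hlt a (by rw [← he]; exact ha) a ha)
        obtain ⟨a, ha, b, hb, hab, hor⟩ := hinc p hp (pp c) (hppA c) hne
        have h0 : f b (y a) = 0 := hfs b a (hlt b hb a ha)
        have h1 : 1 / 2 ≤ f a (y b) := by
          rcases hor with h | h
          · exact h
          · rw [h0] at h; norm_num at h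
        obtain ⟨i, hi⟩ := hiz c b hb
        have := hgle p a ha (z c) i
        rw [hi] at this
        linarith
      have hself : ∀ c, 1 ≤ g (pp c) (z c) := by
        intro c
        have hpos : 0 < (pp c).card := by rw [hcd c]; omega
        obtain ⟨a, ha⟩ := Finset.card_pos.1 hpos
        obtain ⟨i, hi⟩ := hiz c a ha
        have := hgle (pp c) a ha (z c) i
        rw [hi, hf1 a] at this
        exact this
      let O : W → Set (Fin (n + 1) → Y) := fun c => {w | 1 / 4 < g (pp c) w ∧ g (P c) w < 1 / 4}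
      have hO : ∀ c, IsOpen (O c) := fun c =>
        (isOpen_lt continuous_const (hgc _)).inter (isOpen_lt (hgc _) continuous_const)
      have hin : ∀ c, z c ∈ O c := by
        intro c
        refine ⟨by have := hself c; linarith, ?_⟩
        rw [hzero (P c) c (fun a ha b hb => (hubc (P c) a ha).trans (hPc _ b hb))]
        norm_num
      have hnot : ∀ c ∈ Γ, ∀ d ∈ Γ, d ≠ c → z d ∉ O c := by
        intro c hc d hd hdc hmem
        rcases lt_or_gt_of_ne hdc with hlt | hlt
        · -- d < c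
          have h1 : h d < c := hΓF d hd c hc hlt
          have h2 := hhalf (P c) (hP𝒜 c) d (fun b hb a ha =>
            ((hubc (pp d) b hb).trans h1).trans (hPc c a ha))
          have h3 : g (P c) (z d) < 1 / 4 := hmem.2
          linarith
        · have h1 : h c < d := hΓF c hc d hd hlt
          have h2 := hzero (pp c) d (fun a ha b hb =>
            (((hubc (pp c) a ha).trans h1).trans
              ((hPc d _ ((Finset.card_pos.1 (by rw [hcard _ (hP𝒜 d)]; omega)).choose_spec)).trans
                (hubc (P d) _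
                  ((Finset.card_pos.1 (by rw [hcard _ (hP𝒜 d)]; omega)).choose_spec)))).trans
              (hPc _ b hb))
          have h3 : 1 / 4 < g (pp c) (z d) := hmem.1
          rw [h2] at h3
          norm_num at h3
      have hinj : Set.InjOn z Γ := by
        intro c hc d hd hcd'
        by_contra hne
        exact hnot c hc d hd (Ne.symm hne) (by rw [← hcd']; exact hin c)
      have hDc : (z '' Γ).Countable := by
        refine hCS (n + 1) _ ?_
        rintro _ ⟨c, hc, rfl⟩
        refine ⟨O c, hO c, hin c, ?_⟩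
        rintro _ ⟨d, hd, rfl⟩ hdO
        by_contra hne
        exact hnot c hc d hd (fun h => hne (by rw [h])) hdO
      exact hΓunc (Set.countable_of_injective_of_countable_image hinj hDc)

include hW hWu hfc hf0 hf1 hfs in
/-- Under Martin's axiom there is no such sequence. -/
theorem no_seq (hMA : MartinAlephOne) (hcardW : Cardinal.mk W ≤ Cardinal.aleph 1)
    (hCS1 : CS Y) (hCS : ∀ N : ℕ, CS (Fin N → Y)) : False := by
  classical
  let Comp : Finset W → Prop := fun p => ∀ a ∈ p, ∀ b ∈ p, a ≠ b → f a (y b) < 1 / 2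
  let P := {p : Finset W // Comp p}
  -- reverse inclusion
  let leP : P → P → Prop := fun p q => q.1 ⊆ p.1
  have hccc : ∀ A : Set P, (∀ p ∈ A, ∀ q ∈ A, p ≠ q → ¬ ∃ r, leP r p ∧ leP r q) →
      A.Countable := by
    intro A hA
    have h1 : ∀ n : ℕ, (Subtype.val '' {p ∈ A | p.1.card = n} : Set (Finset W)).Countable := by
      intro n
      refine antichain_countable hW y f hfc hf0 hf1 hfs hCS n _ ?_ ?_ ?_
      · rintro _ ⟨p, ⟨-, hp⟩, rfl⟩; exact hp
      · rintro _ ⟨p, -, rfl⟩; exact p.2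
      · rintro _ ⟨p, ⟨hp, -⟩, rfl⟩ _ ⟨q, ⟨hq, -⟩, rfl⟩ hpq
        have hne : p ≠ q := fun h => hpq (by rw [h])
        by_contra hcon
        push Not at hcon
        refine hA p hp q hq hne ⟨⟨p.1 ∪ q.1, ?_⟩, Finset.subset_union_left,
          Finset.subset_union_right⟩
        intro a ha b hb hab
        rcases Finset.mem_union.1 ha with ha | ha <;> rcases Finset.mem_union.1 hb with hb | hb
        · exact p.2 a ha b hb hab
        · exact (hcon a ha b hb hab).1
        · exact (hcon b hb a ha hab.symm).2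
        · exact q.2 a ha b hb hab
    have h2 : (Subtype.val '' A : Set (Finset W)).Countable := by
      refine (Set.countable_iUnion h1).mono ?_
      rintro _ ⟨p, hp, rfl⟩
      exact Set.mem_iUnion.2 ⟨p.1.card, p, ⟨hp, rfl⟩, rfl⟩
    exact Set.countable_of_injective_of_countable_image Subtype.val_injective.injOn h2
  -- an element below which the unbounded sets are dense
  let Bd : P → W → Prop := fun q c => ∀ r : P, leP r q → ∀ a ∈ r.1, a ≤ c
  have hp0 : ∃ p0 : P, ∀ q, leP q p0 → ∀ c, ¬ Bd q c := by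
    by_contra hcon
    push Not at hcon
    -- maximal antichain of bounded elements
    let Fam : Set (Set P) := {A | (∀ p ∈ A, ∃ c, Bd p c) ∧
      ∀ p ∈ A, ∀ q ∈ A, p ≠ q → ¬ ∃ r, leP r p ∧ leP r q}
    obtain ⟨A, hA⟩ : ∃ A, Maximal (· ∈ Fam) A := by
      refine zorn_subset Fam fun C hC hchain => ⟨⋃₀ C, ⟨?_, ?_⟩,
        fun s hs => Set.subset_sUnion_of_mem hs⟩
      · rintro p ⟨s, hs, hps⟩
        exact (hC hs).1 p hps
      · rintro p ⟨s, hs, hps⟩ q ⟨t, ht, hqt⟩ hpq
        rcases hchain.total hs ht with hst | hst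
        · exact (hC ht).2 p (hst hps) q hqt hpq
        · exact (hC hs).2 p hps q (hst hqt) hpq
    have hA1 : ∀ p ∈ A, ∃ c, Bd p c := hA.prop.1
    have hA2 : ∀ p ∈ A, ∀ q ∈ A, p ≠ q → ¬ ∃ r, leP r p ∧ leP r q := hA.prop.2
    have hAc := hccc A hA2
    choose! bd hbd using hA1
    obtain ⟨c0, hc0⟩ := bdd_above_countable hW (bd '' A) (hAc.image bd)
    obtain ⟨q, hq, c, hqc⟩ := hcon ⟨{c0}, by
      intro a ha b hb hab
      rw [Finset.mem_singleton] at ha hb
      exact (hab (ha.trans hb.symm)).elim⟩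
    have hc0q : c0 ∈ q.1 := hq (Finset.mem_singleton_self c0)
    -- q is compatible with an element of A
    have hex : ∃ a ∈ A, ∃ r, leP r a ∧ leP r q := by
      by_cases hqA : q ∈ A
      · exact ⟨q, hqA, q, Finset.Subset.refl _, Finset.Subset.refl _⟩
      · by_contra hno
        push Not at hno
        have hins : insert q A ∈ Fam := by
          refine ⟨?_, ?_⟩
          · intro p hp
            rcases Set.mem_insert_iff.1 hp with rfl | hp
            · exact ⟨c, hqc⟩
            · exact ⟨bd p, hbd p hp⟩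
          · intro p hp p' hp' hpp'
            rcases Set.mem_insert_iff.1 hp with hq1 | hq1
            · rcases Set.mem_insert_iff.1 hp' with hq2 | hq2
              · exact (hpp' (hq1.trans hq2.symm)).elim
              · rintro ⟨r, h1, h2⟩
                rw [hq1] at h1
                exact hno p' hq2 r h2 h1
            · rcases Set.mem_insert_iff.1 hp' with hq2 | hq2
              · rintro ⟨r, h1, h2⟩
                rw [hq2] at h2
                exact hno p hq1 r h1 h2
              · exact hA2 p hq1 p' hq2 hpp'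
        have hsub := hA.le_of_ge hins (Set.subset_insert _ _)
        exact hqA (hsub (Set.mem_insert _ _))
    obtain ⟨a, haA, r, hra, hrq⟩ := hex
    have h1 := hbd a haA r hra c0 (hrq hc0q)
    have h2 := hc0 (bd a) ⟨a, haA, rfl⟩
    exact absurd h2 (not_lt.2 h1)
  obtain ⟨p0, hp0⟩ := hp0
  -- the poset below p0
  let Q := {q : P // leP q p0}
  let preQ : Preorder Q :=
    { le := fun p q => leP p.1 q.1
      le_refl := fun p => Finset.Subset.refl _
      le_trans := fun p q r h1 h2 => fun a ha => h1 (h2 ha)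
      lt := fun p q => leP p.1 q.1 ∧ ¬ leP q.1 p.1
      lt_iff_le_not_ge := fun p q => Iff.rfl }
  have hQccc : ∀ A : Set Q, (∀ p ∈ A, ∀ q ∈ A, p ≠ q → ¬ ∃ r : Q, leP r.1 p.1 ∧ leP r.1 q.1) →
      A.Countable := by
    intro A hA
    refine Set.countable_of_injective_of_countable_image (f := Subtype.val)
      Subtype.val_injective.injOn (hccc _ ?_)
    rintro _ ⟨p, hp, rfl⟩ _ ⟨q, hq, rfl⟩ hpq
    rintro ⟨r, h1, h2⟩
    exact hA p hp q hq (fun h => hpq (by rw [h])) ⟨⟨r, fun a ha => h1 (p.2 ha)⟩, h1, h2⟩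
  let Dn : W → Set Q := fun c => {q | ∃ a ∈ q.1.1, c < a}
  obtain ⟨G, hGne, -, hGdir, hGD⟩ := hMA Q preQ ⟨⟨p0, Finset.Subset.refl _⟩⟩ hQccc (Set.range Dn)
    (Cardinal.mk_range_le.trans hcardW) (by
      rintro _ ⟨c, rfl⟩ q
      have h1 := hp0 q.1 q.2 c
      simp only [Bd] at h1
      push Not at h1
      obtain ⟨r, hr, a, ha, hca⟩ := h1
      exact ⟨⟨r, fun b hb => hr (q.2 hb)⟩, ⟨a, ha, hca⟩, hr⟩)
  let A : Set W := {a | ∃ q ∈ G, a ∈ q.1.1}
  have hAunc : ¬ A.Countable := by
    intro hc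
    obtain ⟨c0, hc0⟩ := bdd_above_countable hW A hc
    obtain ⟨q, ⟨a, ha, hca⟩, hqG⟩ := hGD (Dn c0) ⟨c0, rfl⟩
    exact lt_asymm hca (hc0 a ⟨q, hqG, ha⟩)
  have hpair : ∀ a ∈ A, ∀ b ∈ A, a ≠ b → f a (y b) < 1 / 2 := by
    rintro a ⟨p, hp, hap⟩ b ⟨q, hq, hbq⟩ hab
    obtain ⟨r, -, hrp, hrq⟩ := hGdir p hp q hq
    exact r.1.2 a (hrp hap) b (hrq hbq) hab
  have hinj : Set.InjOn y A := by
    intro a ha b hb hab
    by_contra hne
    have h1 := hpair a ha b hb hne
    rw [← hab, hf1 a] at h1
    norm_num at h1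
  have hc : (y '' A).Countable := by
    refine hCS1 _ ?_
    rintro _ ⟨a, ha, rfl⟩
    refine ⟨{w | 1 / 2 < f a w}, isOpen_lt continuous_const (hfc a), ?_, ?_⟩
    · show 1 / 2 < f a (y a)
      rw [hf1 a]; norm_num
    · rintro _ ⟨b, hb, rfl⟩ hbO
      by_contra hne
      have h1 := hpair a ha b hb (fun h => hne (by rw [h]))
      have h2 : 1 / 2 < f a (y b) := hbO
      linarith
  exact hAunc (Set.countable_of_injective_of_countable_image hinj hc)

end seq

end Pool.Agent.Q213.CpSep
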