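import Pool.Agent.Q213.CpSepC

set_option autoImplicit false

open TopologicalSpace Topology Set Filter

namespace Pool.Agent.Q213.CpSep

/-- bump functions -/
theorem bump {X : Type*} [TopologicalSpace X] [CompletelyRegularSpace X] (x : X) (V : Set X)
    (hV : IsOpen V) (hx : x ∈ V) :
    ∃ g : X → ℝ, Continuous g ∧ (∀ y, 0 ≤ g y) ∧ (∀ y, g y ≤ 1) ∧ g x = 1 ∧ ∀ y, y ∉ V → g y = 0 := by
  obtain ⟨f, hf, hf0, hf1⟩ := CompletelyRegularSpace.completely_regular x Vᶜ hV.isClosed_compl
    (by simpa using hx)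
  refine ⟨fun y => 1 - (f y : ℝ), continuous_const.sub (continuous_subtype_val.comp hf), ?_, ?_,
    ?_, ?_⟩
  · intro y
    have := (f y).2.2
    linarith
  · intro y
    have := (f y).2.1
    linarith
  · simp [hf0]
  · intro y hy
    have : f y = 1 := hf1 hy
    simp [this]

/-- closed separability gives countable spread of all finite powers -/
theorem cs_pi {X : Type*} [TopologicalSpace X] [T35Space X]
    (h : CHS ↥{f : X → ℝ | Continuous f}) (ι : Type) [Fintype ι] : CS (ι → X) := by
  classical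
  intro D hD
  choose! O hOo hzO hOD using hD
  have hev : ∀ x : X, Continuous (fun F : ↥{f : X → ℝ | Continuous f} => F.1 x) := fun x =>
    (continuous_apply x).comp continuous_subtype_val
  -- a countable dense set of functions
  have hsep : SeparableSpace ↥{f : X → ℝ | Continuous f} := by
    have h1 : SeparableSpace ↥(Set.univ : Set ↥{f : X → ℝ | Continuous f}) := h _ isClosed_univ
    exact (Function.Surjective.denseRange (f := (Subtype.val :
      ↥(Set.univ : Set ↥{f : X → ℝ | Continuous f}) → ↥{f : X → ℝ | Continuous f}))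
      (fun x => ⟨⟨x, Set.mem_univ _⟩, rfl⟩)).separableSpace continuous_subtype_val
  obtain ⟨H, hHc, hHd⟩ := exists_countable_dense ↥{f : X → ℝ | Continuous f}
  -- pattern of a point
  have hpat : ∀ z : ι → X, ∃ c : ι → ℕ, ∃ F ∈ H, (∀ i j, c i = c j → z i = z j) ∧
      ∀ i, |(F.1 (z i) : ℝ) - c i| < 1 / 4 := by
    intro z
    -- number the values
    let S : Finset X := Finset.univ.image z
    let num : X → ℕ := fun x => if hx : x ∈ S then (S.equivFin ⟨x, hx⟩ : ℕ) else 0
    have hnum : ∀ x ∈ S, ∀ y ∈ S, num x = num y → x = y := by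
      intro x hx y hy hxy
      simp only [num, hx, hy, dif_pos] at hxy
      have h1 := S.equivFin.injective (Fin.ext hxy)
      exact congrArg Subtype.val h1
    have hzS : ∀ i, z i ∈ S := fun i => Finset.mem_image_of_mem _ (Finset.mem_univ _)
    -- a continuous function with the prescribed values
    have hfun : ∃ g : X → ℝ, Continuous g ∧ ∀ x ∈ S, g x = num x := by
      have hb : ∀ x : X, ∃ g : X → ℝ, Continuous g ∧ g x = 1 ∧ ∀ y ∈ S, y ≠ x → g y = 0 := by
        intro x
        obtain ⟨g, hg, -, -, hg1, hg0⟩ := bump x ((S.erase x : Finset X) : Set X)ᶜ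
          (S.erase x).finite_toSet.isClosed.isOpen_compl (by simp)
        exact ⟨g, hg, hg1, fun y hy hyx => hg0 y (by simp [hy, hyx])⟩
      choose b hbc hb1 hb0 using hb
      refine ⟨fun y => ∑ x ∈ S, (num x : ℝ) * b x y,
        continuous_finsetSum _ fun x _ => continuous_const.mul (hbc x), fun y hy => ?_⟩
      show ∑ x ∈ S, (num x : ℝ) * b x y = num y
      rw [Finset.sum_eq_single y]
      · rw [hb1 y, mul_one]
      · intro x _ hxy
        rw [hb0 x y hy (Ne.symm hxy), mul_zero]
      · intro hy'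
        exact (hy' hy).elim
    obtain ⟨g, hg, hgS⟩ := hfun
    have hO : IsOpen {F : ↥{f : X → ℝ | Continuous f} | ∀ i, |F.1 (z i) - (num (z i) : ℝ)| < 1 / 4} := by
      have : {F : ↥{f : X → ℝ | Continuous f} | ∀ i, |F.1 (z i) - (num (z i) : ℝ)| < 1 / 4}
          = ⋂ i, {F | |F.1 (z i) - (num (z i) : ℝ)| < 1 / 4} := by
        ext F; simp
      rw [this]
      exact isOpen_iInter_of_finite fun i =>
        isOpen_lt ((hev (z i)).sub continuous_const).abs continuous_const
    obtain ⟨F, hFO, hFH⟩ := hHd.inter_open_nonempty _ hO ⟨⟨g, hg⟩, fun i => by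
      show |g (z i) - (num (z i) : ℝ)| < 1 / 4
      rw [hgS (z i) (hzS i)]
      norm_num⟩
    exact ⟨fun i => num (z i), F, hFH, fun i j hij => hnum _ (hzS i) _ (hzS j) hij, fun i => hFO i⟩
  choose c F hFH hcz hFc using hpat
  -- split D into countably many pieces
  have _ : Countable ↥H := hHc.to_subtype
  let key : (ι → X) → (ι → ℕ) × ↥H := fun z => (c z, ⟨F z, hFH z⟩)
  have hpieces : ∀ κ : (ι → ℕ) × ↥H, (D ∩ key ⁻¹' {κ}).Countable := by
    rintro ⟨c0, F0⟩
    set D' := D ∩ key ⁻¹' {(c0, F0)} with hD'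
    have hkey : ∀ z ∈ D', c z = c0 ∧ F z = F0.1 := by
      rintro z ⟨-, hz⟩
      have hz' : key z = (c0, F0) := hz
      exact ⟨congrArg Prod.fst hz', congrArg Subtype.val (congrArg Prod.snd hz')⟩
    let E : Set ↥{f : X → ℝ | Continuous f} :=
      {G | ∀ z ∈ D', ∀ w ∈ D', z ≠ w → (∏ i, G.1 (z i)) * (∏ i, G.1 (w i)) = 0}
    have hprod : ∀ z : ι → X, Continuous (fun G : ↥{f : X → ℝ | Continuous f} => ∏ i, G.1 (z i)) :=
      fun z => continuous_finsetProd _ fun i _ => hev (z i)
    have hE : IsClosed E := by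
      have : E = ⋂ z ∈ D', ⋂ w ∈ D', {G | z ≠ w → (∏ i, G.1 (z i)) * (∏ i, G.1 (w i)) = 0} := by
        ext G
        simp only [E, Set.mem_iInter]
        rfl
      rw [this]
      refine isClosed_biInter fun z _ => isClosed_biInter fun w _ => ?_
      by_cases hzw : z = w
      · have : {G : ↥{f : X → ℝ | Continuous f} |
            z ≠ w → (∏ i, G.1 (z i)) * (∏ i, G.1 (w i)) = 0} = Set.univ := by
          ext G; simp [hzw]
        rw [this]; exact isClosed_univ
      · have : {G : ↥{f : X → ℝ | Continuous f} |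
            z ≠ w → (∏ i, G.1 (z i)) * (∏ i, G.1 (w i)) = 0}
            = {G | (∏ i, G.1 (z i)) * (∏ i, G.1 (w i)) = 0} := by
          ext G; simp [hzw]
        rw [this]; exact isClosed_eq ((hprod z).mul (hprod w)) continuous_const
    have hEsep := h E hE
    obtain ⟨T, hTc, hTd⟩ := exists_countable_dense ↥E
    -- for every z in D' an element of T not vanishing on z
    have hex : ∀ z ∈ D', ∃ G ∈ T, ∏ i, G.1.1 (z i) ≠ 0 := by
      intro z hz
      obtain ⟨hcz0, hFz0⟩ := hkey z hz
      -- box
      obtain ⟨I, u, hu, huO⟩ := isOpen_pi_iff.1 (hOo z hz.1) z (hzO z hz.1)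
      -- open neighbourhoods of the coordinates
      let V : ι → Set X := fun i =>
        (⋂ j ∈ I.filter (fun j => c0 j = c0 i), u j) ∩ {x | |F0.1.1 x - (c0 i : ℝ)| < 1 / 4}
      have hVo : ∀ i, IsOpen (V i) := by
        intro i
        refine IsOpen.inter ?_ ?_
        · exact isOpen_biInter_finset fun j hj => (hu j (Finset.mem_filter.1 hj).1).1
        · exact isOpen_lt (F0.1.2.sub continuous_const).abs continuous_const
      have hzV : ∀ i, z i ∈ V i := by
        intro i
        refine ⟨?_, ?_⟩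
        · simp only [Set.mem_iInter]
          intro j hj
          obtain ⟨hj1, hj2⟩ := Finset.mem_filter.1 hj
          have : z j = z i := hcz z j i (by rw [hcz0]; exact hj2)
          rw [← this]
          exact (hu j hj1).2
        · have := hFc z i
          rw [hcz0, hFz0] at this
          exact this
      have hbump : ∀ i, ∃ g : X → ℝ, Continuous g ∧ (∀ y, 0 ≤ g y) ∧ (∀ y, g y ≤ 1) ∧
          g (z i) = 1 ∧ ∀ y, y ∉ V i → g y = 0 := fun i => bump (z i) (V i) (hVo i) (hzV i)
      choose g hgc hg0 _ hg1 hgV using hbump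
      let Fz : X → ℝ := fun x => ∑ i, g i x
      have hFzc : Continuous Fz := continuous_finsetSum _ fun i _ => hgc i
      have hFzpos : ∀ i, 1 ≤ Fz (z i) := by
        intro i
        calc (1 : ℝ) = g i (z i) := (hg1 i).symm
          _ ≤ Fz (z i) := Finset.single_le_sum (f := fun j => g j (z i))
            (fun j _ => hg0 j _) (Finset.mem_univ i)
      have hFz0' : ∀ w ∈ D', w ≠ z → ∏ i, Fz (w i) = 0 := by
        intro w hw hwz
        obtain ⟨hcw0, hFw0⟩ := hkey w hw
        by_contra hne
        apply hwz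
        apply hOD z hz.1 w hw.1
        apply huO
        intro i hi
        have h1 : Fz (w i) ≠ 0 := fun h0 => hne (Finset.prod_eq_zero (Finset.mem_univ i) h0)
        obtain ⟨j, -, hj⟩ := Finset.exists_ne_zero_of_sum_ne_zero h1
        have hwV : w i ∈ V j := by
          by_contra hnot
          exact hj (hgV j _ hnot)
        have h2 : |F0.1.1 (w i) - (c0 j : ℝ)| < 1 / 4 := hwV.2
        have h3 := hFc w i
        rw [hcw0, hFw0] at h3
        have hcij : c0 i = c0 j := by
          have h4 : |(c0 i : ℝ) - (c0 j : ℝ)| < 1 := by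
            have h5 : (c0 i : ℝ) - (c0 j : ℝ)
                = (F0.1.1 (w i) - (c0 j : ℝ)) - (F0.1.1 (w i) - (c0 i : ℝ)) := by ring
            rw [h5]
            calc |(F0.1.1 (w i) - (c0 j : ℝ)) - (F0.1.1 (w i) - (c0 i : ℝ))|
                ≤ |F0.1.1 (w i) - (c0 j : ℝ)| + |F0.1.1 (w i) - (c0 i : ℝ)| := abs_sub _ _
              _ < 1 := by linarith
          rw [abs_lt] at h4
          have h6 : ((c0 i : ℤ) : ℝ) < (c0 j : ℤ) + 1 := by push_cast; linarith
          have h7 : ((c0 j : ℤ) : ℝ) < (c0 i : ℤ) + 1 := by push_cast; linarith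
          have h6' : (c0 i : ℤ) < c0 j + 1 := by exact_mod_cast h6
          have h7' : (c0 j : ℤ) < c0 i + 1 := by exact_mod_cast h7
          omega
        have h8 := hwV.1
        simp only [Set.mem_iInter] at h8
        exact h8 i (Finset.mem_filter.2 ⟨hi, hcij⟩)
      have hFzE : (⟨Fz, hFzc⟩ : ↥{f : X → ℝ | Continuous f}) ∈ E := by
        intro z1 hz1 w1 hw1 hne
        by_cases h1 : z1 = z
        · have h2 : w1 ≠ z := fun h => hne (h1.trans h.symm)
          have := hFz0' w1 hw1 h2
          show (∏ i, Fz (z1 i)) * (∏ i, Fz (w1 i)) = 0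
          rw [this, mul_zero]
        · have := hFz0' z1 hz1 h1
          show (∏ i, Fz (z1 i)) * (∏ i, Fz (w1 i)) = 0
          rw [this, zero_mul]
      have hopen : IsOpen {G : ↥E | 1 / 2 < ∏ i, G.1.1 (z i)} :=
        isOpen_lt continuous_const ((hprod z).comp continuous_subtype_val)
      obtain ⟨G, hGO, hGT⟩ := hTd.inter_open_nonempty _ hopen ⟨⟨⟨Fz, hFzc⟩, hFzE⟩, by
        show 1 / 2 < ∏ i, Fz (z i)
        have : 1 ≤ ∏ i, Fz (z i) := by
          calc (1 : ℝ) = ∏ _i : ι, (1 : ℝ) := by simp
            _ ≤ ∏ i, Fz (z i) := Finset.prod_le_prod (fun _ _ => zero_le_one)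
              (fun i _ => hFzpos i)
        linarith⟩
      refine ⟨G, hGT, ?_⟩
      have : 1 / 2 < ∏ i, G.1.1 (z i) := hGO
      intro h0
      rw [h0] at this
      norm_num at this
    choose G hGT hGne using hex
    have _ : Countable ↥T := hTc.to_subtype
    have hinj : Function.Injective (fun z : ↥D' => (⟨G z.1 z.2, hGT z.1 z.2⟩ : ↥T)) := by
      rintro ⟨z, hz⟩ ⟨w, hw⟩ hzw
      have hzw' : G z hz = G w hw := congrArg Subtype.val hzw
      by_contra hne'
      have hne : z ≠ w := fun h => hne' (Subtype.ext h)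
      have h1 : (∏ i, (G z hz).1.1 (z i)) * (∏ i, (G z hz).1.1 (w i)) = 0 :=
        (G z hz).2 z hz w hw hne
      rcases mul_eq_zero.1 h1 with h2 | h2
      · exact hGne z hz h2
      · rw [hzw'] at h2
        exact hGne w hw h2
    exact Set.countable_coe_iff.1 hinj.countable
  have : D ⊆ ⋃ κ, D ∩ key ⁻¹' {κ} := fun z hz => Set.mem_iUnion.2 ⟨key z, hz, rfl⟩
  exact (Set.countable_iUnion hpieces).mono this

theorem CS.of_embedding {Y Z : Type*} [TopologicalSpace Y] [TopologicalSpace Z] (e : Y → Z)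
    (he : IsEmbedding e) (h : CS Z) : CS Y := by
  intro D hD
  refine Set.countable_of_injective_of_countable_image (f := e) he.injective.injOn (h _ ?_)
  rintro _ ⟨z, hz, rfl⟩
  obtain ⟨O, hO, hzO, hOD⟩ := hD z hz
  obtain ⟨O', hO', hOO'⟩ := he.isInducing.isOpen_iff.1 hO
  refine ⟨O', hO', ?_, ?_⟩
  · have : z ∈ e ⁻¹' O' := by rw [hOO']; exact hzO
    exact this
  · rintro _ ⟨w, hw, rfl⟩ hwO
    have : w ∈ e ⁻¹' O' := hwO
    rw [hOO'] at this
    rw [hOD w hw this]

theorem cs_pi2 {X : Type*} [TopologicalSpace X] [T35Space X]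
    (h : CHS ↥{f : X → ℝ | Continuous f}) (N n : ℕ) : CS (Fin N → (Fin n → X)) := by
  let e : (Fin N → (Fin n → X)) ≃ₜ (Fin N × Fin n → X) :=
    { toFun := fun g p => g p.1 p.2
      invFun := fun g i j => g (i, j)
      left_inv := fun g => rfl
      right_inv := fun g => rfl
      continuous_toFun := continuous_pi fun p =>
        (continuous_apply p.2).comp (continuous_apply p.1)
      continuous_invFun := continuous_pi fun i => continuous_pi fun j =>
        continuous_apply (i, j) }
  exact CS.of_embedding e e.isEmbedding (cs_pi h (Fin N × Fin n))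

end Pool.Agent.Q213.CpSep
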