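import Pool.Agent.Q213.CpSepD

set_option autoImplicit false

open TopologicalSpace Topology Set Filter

namespace Pool.Agent.Q213.CpSep

/-- the first uncountable well-order -/
abbrev W0 : Type := (Cardinal.aleph 1 : Cardinal.{0}).ord.ToType

theorem W0_Iio (a : W0) : (Set.Iio a).Countable := by
  rw [Cardinal.countable_iff_lt_aleph_one]
  have h := Cardinal.mk_Iio_lt (α := W0) a (by simp)
  simpa using h

theorem W0_Iic (a : W0) : (Set.Iic a).Countable := by
  have : Set.Iic a = insert a (Set.Iio a) := by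
    ext b
    simp only [Set.mem_Iic, Set.mem_insert_iff, Set.mem_Iio]
    exact le_iff_eq_or_lt
  rw [this]
  exact (W0_Iio a).insert a

theorem W0_mk : Cardinal.mk W0 = Cardinal.aleph 1 := by simp

instance W0_unc : Uncountable W0 := by
  rw [← Cardinal.aleph0_lt_mk_iff, W0_mk]
  exact Cardinal.aleph0_lt_aleph_one

/-- basic data -/
abbrev Dat (k : ℕ) : Type := Σ n : ℕ, (Fin n → Fin k → ℚ) × ℕ

def Good {X : Type*} [TopologicalSpace X] {k : ℕ} (d : Dat k) (K : ℕ → X) (b : Cpk X k) : Prop :=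
  ∀ (i : Fin d.1) (j : Fin k), |b.1 (K i) j - (d.2.1 i j : ℝ)| < 1 / ((d.2.2 : ℝ) + 1)

theorem good_of_notMem_closure {X : Type*} [TopologicalSpace X] [Nonempty X] {k : ℕ}
    (t : Set (Cpk X k)) (b : Cpk X k) (hb : b ∉ closure t) :
    ∃ (d : Dat k) (K : ℕ → X), Good d K b ∧ ∀ b' ∈ t, ¬ Good d K b' := by
  classical
  obtain ⟨V, hV, hVt⟩ := isOpen_induced_iff.1 (isClosed_closure (s := t)).isOpen_compl
  have hbV : b.1 ∈ V := by
    have : b ∈ (Subtype.val ⁻¹' V : Set (Cpk X k)) := by rw [hVt]; exact hb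
    exact this
  obtain ⟨F, W, hW, hWV⟩ := isOpen_pi_iff.1 hV b.1 hbV
  have hr : ∃ ε > (0 : ℝ), ∀ x ∈ F, Metric.ball (b.1 x) ε ⊆ W x := by
    have h1 : ∀ x ∈ F, ∃ ε > (0 : ℝ), Metric.ball (b.1 x) ε ⊆ W x := fun x hx =>
      Metric.isOpen_iff.1 (hW x hx).1 _ (hW x hx).2
    clear hWV
    induction F using Finset.induction_on with
    | empty => exact ⟨1, one_pos, by simp⟩
    | insert a s ha ih =>
      obtain ⟨ε1, he1, hb1⟩ := ih (fun f hf => hW f (Finset.mem_insert_of_mem hf))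
        (fun f hf => h1 f (Finset.mem_insert_of_mem hf))
      obtain ⟨ε2, he2, hb2⟩ := h1 a (Finset.mem_insert_self _ _)
      refine ⟨min ε1 ε2, lt_min he1 he2, fun f hf => ?_⟩
      rcases Finset.mem_insert.1 hf with rfl | hf
      · exact (Metric.ball_subset_ball (min_le_right _ _)).trans hb2
      · exact (Metric.ball_subset_ball (min_le_left _ _)).trans (hb1 f hf)
  obtain ⟨ε, hε, hball⟩ := hr
  obtain ⟨m, hm⟩ := exists_nat_one_div_lt (show 0 < ε / 3 by positivity)
  let x0 : X := Classical.arbitrary X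
  let K : ℕ → X := fun i => if hi : i < F.card then (F.equivFin.symm ⟨i, hi⟩).1 else x0
  have hq : ∀ (i : Fin F.card) (j : Fin k), ∃ q : ℚ, |b.1 (K i) j - (q : ℝ)| < 1 / ((m : ℝ) + 1) := by
    intro i j
    obtain ⟨q, hq1, hq2⟩ := exists_rat_btwn
      (show b.1 (K i) j - 1 / ((m : ℝ) + 1) < b.1 (K i) j + 1 / ((m : ℝ) + 1) by
        have : (0 : ℝ) < 1 / ((m : ℝ) + 1) := by positivity
        linarith)
    exact ⟨q, by rw [abs_lt]; constructor <;> linarith⟩
  choose q hq using hq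
  refine ⟨⟨F.card, q, m⟩, K, hq, fun b' hb' hgood => ?_⟩
  have hb'V : b'.1 ∈ V := by
    apply hWV
    intro x hx
    have hx' : x ∈ F := hx
    apply hball x hx'
    have hKx : K (F.equivFin ⟨x, hx'⟩ : ℕ) = x := by
      have hlt : (F.equivFin ⟨x, hx'⟩ : ℕ) < F.card := (F.equivFin ⟨x, hx'⟩).2
      simp only [K, hlt, dif_pos]
      simp
    rw [Metric.mem_ball, dist_eq_norm]
    refine lt_of_le_of_lt ((pi_norm_le_iff_of_nonneg (show (0 : ℝ) ≤ 2 * (ε / 3) by positivity)).2
      fun j => ?_) (show 2 * (ε / 3) < ε by linarith)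
    have h1 := hgood (F.equivFin ⟨x, hx'⟩) j
    have h2 := hq (F.equivFin ⟨x, hx'⟩) j
    rw [hKx] at h1 h2
    simp only at h1
    rw [Pi.sub_apply, Real.norm_eq_abs]
    have h3 : b'.1 x j - b.1 x j = (b'.1 x j - (q (F.equivFin ⟨x, hx'⟩) j : ℝ))
        - (b.1 x j - (q (F.equivFin ⟨x, hx'⟩) j : ℝ)) := by ring
    rw [h3]
    calc |(b'.1 x j - (q (F.equivFin ⟨x, hx'⟩) j : ℝ))
        - (b.1 x j - (q (F.equivFin ⟨x, hx'⟩) j : ℝ))|
        ≤ |b'.1 x j - (q (F.equivFin ⟨x, hx'⟩) j : ℝ)|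
          + |b.1 x j - (q (F.equivFin ⟨x, hx'⟩) j : ℝ)| := abs_sub _ _
      _ ≤ 2 * (ε / 3) := by linarith
  have h1 : b' ∈ (Subtype.val ⁻¹' V : Set (Cpk X k)) := hb'V
  rw [hVt] at h1
  exact h1 (subset_closure hb')

theorem separable_of_subset_closure {Z : Type*} [TopologicalSpace Z] (B t : Set Z) (ht : t ⊆ B)
    (htc : t.Countable) (hB : B ⊆ closure t) : SeparableSpace ↥B := by
  refine ⟨⟨(Subtype.val ⁻¹' t : Set ↥B), ?_, ?_⟩⟩
  · exact htc.preimage Subtype.val_injective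
  · rw [Subtype.dense_iff]
    have : (Subtype.val '' (Subtype.val ⁻¹' t : Set ↥B) : Set Z) = t := by
      rw [Subtype.image_preimage_coe]
      exact Set.inter_eq_self_of_subset_right ht
    rw [this]
    exact hB

theorem ma_sep {X : Type*} [TopologicalSpace X] (hMA : MartinAlephOne)
    (hcs1 : ∀ n : ℕ, CS (Fin n → X)) (hcs2 : ∀ N n : ℕ, CS (Fin N → (Fin n → X))) (k : ℕ)
    (B : Set (Cpk X k)) : SeparableSpace ↥B := by
  classical
  by_contra hns
  rcases isEmpty_or_nonempty X with hX | hX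
  · apply hns
    have : Subsingleton ↥B := ⟨fun a b => Subtype.ext (Subtype.ext (funext fun x => (hX.false x).elim))⟩
    infer_instance
  have hstep0 : ∀ t : Set (Cpk X k), t ⊆ B → t.Countable →
      ∃ s : Cpk X k × Dat k × (ℕ → X), s.1 ∈ B ∧ Good s.2.1 s.2.2 s.1 ∧
        ∀ b' ∈ t, ¬ Good s.2.1 s.2.2 b' := by
    intro t ht htc
    by_contra hcon
    push Not at hcon
    apply hns
    refine separable_of_subset_closure B t ht htc fun b hb => ?_
    by_contra hbt
    obtain ⟨d, K, h1, h2⟩ := good_of_notMem_closure t b hbt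
    obtain ⟨b', hb', hg⟩ := hcon (b, d, K) hb h1
    exact h2 b' hb' hg
  obtain ⟨s0, -⟩ := hstep0 ∅ (Set.empty_subset _) Set.countable_empty
  have hstep : ∀ t : Set (Cpk X k), ∃ s : Cpk X k × Dat k × (ℕ → X),
      (t ⊆ B ∧ t.Countable) → s.1 ∈ B ∧ Good s.2.1 s.2.2 s.1 ∧
        ∀ b' ∈ t, ¬ Good s.2.1 s.2.2 b' := by
    intro t
    by_cases ht : t ⊆ B ∧ t.Countable
    · obtain ⟨s, hs⟩ := hstep0 t ht.1 ht.2
      exact ⟨s, fun _ => hs⟩
    · exact ⟨s0, fun h => (ht h).elim⟩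
  choose step hstep using hstep
  have hwf : WellFounded (fun a b : W0 => a < b) := wellFounded_lt
  let seq : W0 → Cpk X k × Dat k × (ℕ → X) :=
    hwf.fix (fun a ih => step {b | ∃ c, ∃ hc : c < a, b = (ih c hc).1})
  have hseq : ∀ a, seq a = step {b | ∃ c, c < a ∧ b = (seq c).1} := by
    intro a
    have h1 : seq a = step {b | ∃ c, ∃ _ : c < a, b = (seq c).1} := hwf.fix_eq _ a
    rw [h1]
    congr 1
    ext b
    simp only [Set.mem_ofPred_eq, exists_prop]
  have hcnt : ∀ a, ({b | ∃ c, c < a ∧ b = (seq c).1} : Set (Cpk X k)).Countable := by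
    intro a
    refine ((W0_Iio a).image (fun c => (seq c).1)).mono ?_
    rintro b ⟨c, hc, rfl⟩
    exact ⟨c, hc, rfl⟩
  have hB : ∀ a, (seq a).1 ∈ B := by
    intro a
    induction a using hwf.induction with
    | _ a ih =>
      rw [hseq a]
      refine (hstep _ ⟨?_, hcnt a⟩).1
      rintro b ⟨c, hc, rfl⟩
      exact ih c hc
  have hprop : ∀ a, Good (seq a).2.1 (seq a).2.2 (seq a).1 ∧
      ∀ c, c < a → ¬ Good (seq a).2.1 (seq a).2.2 (seq c).1 := by
    intro a
    have h1 := hstep {b | ∃ c, c < a ∧ b = (seq c).1} ⟨by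
      rintro b ⟨c, hc, rfl⟩
      exact hB c, hcnt a⟩
    rw [← hseq a] at h1
    exact ⟨h1.2.1, fun c hc => h1.2.2 _ ⟨c, hc, rfl⟩⟩
  -- pigeonhole
  obtain ⟨d, hd⟩ : ∃ d : Dat k, ¬ ({a : W0 | (seq a).2.1 = d}).Countable := by
    by_contra hcon
    push Not at hcon
    have h1 : (⋃ d : Dat k, {a : W0 | (seq a).2.1 = d}).Countable := Set.countable_iUnion hcon
    have h2 : (⋃ d : Dat k, {a : W0 | (seq a).2.1 = d}) = Set.univ := by
      ext a; simp
    rw [h2] at h1
    exact Set.not_countable_univ h1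
  let W : Type := {a : W0 // (seq a).2.1 = d}
  have hWunc : Uncountable W := by
    rw [← not_countable_iff]
    intro hc
    exact hd (Set.countable_coe_iff.1 hc)
  have hWIic : ∀ a : W, (Set.Iic a).Countable := by
    intro a
    have h1 : (Subtype.val '' (Set.Iic a) : Set W0).Countable := by
      refine (W0_Iic a.1).mono ?_
      rintro _ ⟨b, hb, rfl⟩
      exact hb
    exact Set.countable_of_injective_of_countable_image Subtype.val_injective.injOn h1
  have hWcard : Cardinal.mk W ≤ Cardinal.aleph 1 := by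
    rw [← W0_mk]
    exact Cardinal.mk_subtype_le _
  let Y := Fin d.1 → X
  let y : W → Y := fun a i => (seq a.1).2.2 i
  let u : W → Y → ℝ := fun a w => ∏ i, ∏ j,
    max 0 (1 / ((d.2.2 : ℝ) + 1) - |(seq a.1).1.1 (w i) j - (d.2.1 i j : ℝ)|)
  have huc : ∀ a, Continuous (u a) := by
    intro a
    refine continuous_finsetProd _ fun i _ => continuous_finsetProd _ fun j _ =>
      continuous_const.max (continuous_const.sub (Continuous.abs (Continuous.sub ?_
        continuous_const)))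
    exact (continuous_apply j).comp ((seq a.1).1.2.comp (continuous_apply i))
  have hu0 : ∀ a w, 0 ≤ u a w := fun a w =>
    Finset.prod_nonneg fun i _ => Finset.prod_nonneg fun j _ => le_max_left _ _
  have hupos : ∀ a, 0 < u a (y a) := by
    intro a
    refine Finset.prod_pos fun i _ => Finset.prod_pos fun j _ => lt_max_of_lt_right ?_
    have h1 := (hprop a.1).1
    rw [a.2] at h1
    have := h1 i j
    show 0 < 1 / ((d.2.2 : ℝ) + 1) - |(seq a.1).1.1 ((seq a.1).2.2 i) j - (d.2.1 i j : ℝ)|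
    linarith
  have huzero : ∀ a b : W, a < b → u a (y b) = 0 := by
    intro a b hab
    have h1 := (hprop b.1).2 a.1 hab
    rw [b.2] at h1
    simp only [Good] at h1
    push Not at h1
    obtain ⟨i, j, hij⟩ := h1
    refine Finset.prod_eq_zero (Finset.mem_univ i) (Finset.prod_eq_zero (Finset.mem_univ j) ?_)
    refine max_eq_left ?_
    show 1 / ((d.2.2 : ℝ) + 1) - |(seq a.1).1.1 ((seq b.1).2.2 i) j - (d.2.1 i j : ℝ)| ≤ 0
    linarith
  refine no_seq hWIic y (fun a w => u a w / u a (y a)) (fun a => (huc a).div_const _)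
    (fun a w => div_nonneg (hu0 a w) (hupos a).le) (fun a => div_self (hupos a).ne')
    (fun a b hab => by simp only [huzero a b hab, zero_div]) hMA hWcard (hcs1 d.1)
    (fun N => hcs2 N d.1)

theorem ma_chs {X : Type*} [TopologicalSpace X] [T35Space X] (hMA : MartinAlephOne)
    (h : CHS ↥{f : X → ℝ | Continuous f}) (k : ℕ) : CHS (Cpk X k) := fun B _ =>
  ma_sep hMA (fun n => cs_pi h (Fin n)) (fun N n => cs_pi2 h N n) k B

end Pool.Agent.Q213.CpSep
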