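import Pool.Agent.Q213.CpSepE
import Pool.Agent.Helper47.LP.Dep
import Pool.Agent.Helper937.Szd2

set_option autoImplicit false

open TopologicalSpace Topology Set Filter

namespace Pool.Agent.Q213.CpSep

/-- the span version of L_p(X) -/
abbrev LpS (X : Type) [TopologicalSpace X] : Type :=
  ↥(Submodule.span ℝ (Set.range (fun (x : X) (f : {f : X → ℝ // Continuous f}) => f.1 x)))

/-- the functional f ↦ Σ a_x f(x), x in S -/
theorem fin_mem {X : Type} [TopologicalSpace X] {κ : Type} [Fintype κ] (a : κ → ℝ) (z : κ → X) :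
    (fun f : {f : X → ℝ // Continuous f} => ∑ i, a i * f.1 (z i)) ∈
      Submodule.span ℝ (Set.range (fun (x : X) (f : {f : X → ℝ // Continuous f}) => f.1 x)) := by
  have h : (fun f : {f : X → ℝ // Continuous f} => ∑ i, a i * f.1 (z i))
      = ∑ i, a i • (fun f : {f : X → ℝ // Continuous f} => f.1 (z i)) := by
    funext f
    rw [Finset.sum_apply]
    rfl
  rw [h]
  exact Submodule.sum_mem _ fun i _ => Submodule.smul_mem _ _ (Submodule.subset_span ⟨z i, rfl⟩)

/-- the element Σ a_i δ_{z_i} -/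
noncomputable def dz {X : Type} [TopologicalSpace X] {κ : Type} [Fintype κ] (a : κ → ℝ)
    (z : κ → X) : LpS X := ⟨_, fin_mem a z⟩

/-- countably many functions approximate integer patterns -/
theorem patterns (X : Type) [TopologicalSpace X] [T35Space X]
    (hL : PerfectlyNormalSpace (LpS X)) :
    ∃ H : Set {f : X → ℝ // Continuous f}, H.Countable ∧
      ∀ (S : Finset X) (num : X → ℝ), ∃ h ∈ H, ∀ x ∈ S, |h.1 x - num x| < 1 / 4 := by
  classical
  obtain ⟨W, hWc, hW⟩ := Helper47.LP.depends X hL {0} isClosed_singleton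
  have hsep : ∀ ψ : LpS X, (∀ w ∈ W, ψ.1 w = 0) → ψ = 0 := by
    intro ψ hψ
    by_contra hne
    obtain ⟨G, η, hGW, hη, hG⟩ := hW ψ hne
    refine hG 0 (fun w hw => ?_) rfl
    have h0 : ((0 : LpS X).1) w = 0 := rfl
    rw [h0, hψ w (hGW hw), sub_zero, abs_zero]
    exact hη
  have _ : Countable ↥W := hWc.to_subtype
  let comb : (Σ m : ℕ, (Fin m → ↥W) × (Fin m → ℚ)) → {f : X → ℝ // Continuous f} := fun κ =>
    ⟨fun x => ∑ j, (κ.2.2 j : ℝ) * (κ.2.1 j).1.1 x,
      continuous_finsetSum _ fun j _ => continuous_const.mul (κ.2.1 j).1.2⟩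
  refine ⟨Set.range comb, Set.countable_range comb, fun S num => ?_⟩
  -- the restrictions of W to S span
  let V : Submodule ℝ (↥S → ℝ) :=
    Submodule.span ℝ ((fun (w : {f : X → ℝ // Continuous f}) (x : ↥S) => w.1 x.1) '' W)
  have hV : V = ⊤ := by
    by_contra hne
    obtain ⟨φ, hφ0, hφ⟩ := Submodule.exists_le_ker_of_lt_top V (lt_top_iff_ne_top.2 hne)
    apply hφ0
    let a : ↥S → ℝ := fun x => φ (Pi.single x 1)
    have hφa : ∀ v : ↥S → ℝ, φ v = ∑ x, a x * v x := by
      intro v
      rw [LinearMap.pi_apply_eq_sum_univ φ v]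
      refine Finset.sum_congr rfl fun x _ => ?_
      rw [smul_eq_mul, mul_comm]
      congr 2
      funext y
      simp only [Pi.single_apply, eq_comm]
    have hz : dz a (fun x : ↥S => x.1) = 0 := by
      apply hsep
      intro w hw
      show ∑ x : ↥S, a x * w.1 x.1 = 0
      rw [← hφa (fun x : ↥S => w.1 x.1)]
      exact hφ (Submodule.subset_span ⟨w, hw, rfl⟩)
    have ha : ∀ x : ↥S, a x = 0 := by
      intro x
      obtain ⟨g, hg, -, -, hg1, hg0⟩ := bump x.1 ((S.erase x.1 : Finset X) : Set X)ᶜ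
        (S.erase x.1).finite_toSet.isClosed.isOpen_compl (by simp)
      have h1 : (dz a (fun x : ↥S => x.1)).1 ⟨g, hg⟩ = 0 := by rw [hz]; rfl
      have h2 : (dz a (fun x : ↥S => x.1)).1 ⟨g, hg⟩ = ∑ y : ↥S, a y * g y.1 := rfl
      rw [h2, Finset.sum_eq_single x] at h1
      · rw [hg1, mul_one] at h1
        exact h1
      · intro y _ hyx
        have : g y.1 = 0 := hg0 y.1 (by
          have : y.1 ≠ x.1 := fun h => hyx (Subtype.ext h)
          simp [this])
        rw [this, mul_zero]
      · intro h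
        exact (h (Finset.mem_univ x)).elim
    refine LinearMap.ext fun v => ?_
    rw [hφa v]
    simp [ha]
  have hmem : (fun x : ↥S => num x.1) ∈ V := by rw [hV]; exact Submodule.mem_top
  obtain ⟨m, c, g, hcg⟩ := Submodule.mem_span_set'.1 hmem
  choose w hwW hwg using fun j => (g j).2
  -- rational approximation of the coefficients
  let U : Set (Fin m → ℝ) := {c' | ∀ x : ↥S, |∑ j, c' j * (w j).1 x.1 - num x.1| < 1 / 4}
  have hU : IsOpen U := by
    have : U = ⋂ x : ↥S, {c' : Fin m → ℝ | |∑ j, c' j * (w j).1 x.1 - num x.1| < 1 / 4} := by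
      ext c'; simp [U]
    rw [this]
    refine isOpen_iInter_of_finite fun x => isOpen_lt (Continuous.abs (Continuous.sub
      (continuous_finsetSum _ fun j _ => (continuous_apply j).mul continuous_const)
      continuous_const)) continuous_const
  have hcU : c ∈ U := by
    intro x
    have h1 := congrFun hcg x
    rw [Finset.sum_apply] at h1
    have h2 : ∑ j, c j * (w j).1 x.1 = num x.1 := by
      rw [← h1]
      refine Finset.sum_congr rfl fun j _ => ?_
      rw [Pi.smul_apply, smul_eq_mul, ← hwg j]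
    rw [h2, sub_self, abs_zero]
    norm_num
  have hdense : DenseRange (Pi.map (fun _ : Fin m => ((↑) : ℚ → ℝ))) :=
    DenseRange.piMap fun _ => Rat.denseRange_cast
  obtain ⟨q, hq⟩ := hdense.exists_mem_open hU ⟨c, hcU⟩
  refine ⟨comb ⟨m, fun j => ⟨w j, hwW j⟩, q⟩, ⟨_, rfl⟩, fun x hx => ?_⟩
  exact hq ⟨x, hx⟩

/-- perfect normality of L_p(X) gives countable spread of all finite powers of X -/
theorem cs_of_perfect (X : Type) [TopologicalSpace X] [T35Space X]
    (hL : PerfectlyNormalSpace (LpS X)) (ι : Type) [Fintype ι] : CS (ι → X) := by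
  classical
  intro D hD
  choose! O hOo hzO hOD using hD
  obtain ⟨H, hHc, hH⟩ := patterns X hL
  -- pattern of a point
  have hpat : ∀ z : ι → X, ∃ c : ι → ℕ, ∃ F ∈ H, (∀ i j, c i = c j → z i = z j) ∧
      (∀ i j, z i = z j → c i = c j) ∧ ∀ i, |(F.1 (z i) : ℝ) - c i| < 1 / 4 := by
    intro z
    let S : Finset X := Finset.univ.image z
    let num : X → ℕ := fun x => if hx : x ∈ S then (S.equivFin ⟨x, hx⟩ : ℕ) else 0
    have hnum : ∀ x ∈ S, ∀ y ∈ S, num x = num y → x = y := by
      intro x hx y hy hxy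
      simp only [num, hx, hy, dif_pos] at hxy
      have h1 := S.equivFin.injective (Fin.ext hxy)
      exact congrArg Subtype.val h1
    have hzS : ∀ i, z i ∈ S := fun i => Finset.mem_image_of_mem _ (Finset.mem_univ _)
    obtain ⟨h, hh, hhS⟩ := hH S (fun x => (num x : ℝ))
    exact ⟨fun i => num (z i), h, hh, fun i j hij => hnum _ (hzS i) _ (hzS j) hij,
      fun i j hij => congrArg num hij, fun i => hhS _ (hzS i)⟩
  choose c F hFH hcz hzc hFc using hpat
  have _ : Countable ↥H := hHc.to_subtype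
  let key : (ι → X) → (ι → ℕ) × ↥H := fun z => (c z, ⟨F z, hFH z⟩)
  have hpieces : ∀ κ : (ι → ℕ) × ↥H, (D ∩ key ⁻¹' {κ}).Countable := by
    rintro ⟨c0, F0⟩
    set D' := D ∩ key ⁻¹' {(c0, F0)} with hD'
    have hkey : ∀ z ∈ D', c z = c0 ∧ F z = F0.1 := by
      rintro z ⟨-, hz⟩
      have hz' : key z = (c0, F0) := hz
      exact ⟨congrArg Prod.fst hz', congrArg Subtype.val (congrArg Prod.snd hz')⟩
    -- bump functions
    have hex : ∀ z ∈ D', ∃ g : ι → {f : X → ℝ // Continuous f}, (∀ i x, 0 ≤ (g i).1 x) ∧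
        (∀ i x, (g i).1 x ≤ 1) ∧ (∀ i, (g i).1 (z i) = 1) ∧
        (∀ w ∈ D', ∀ i j, c0 j ≠ c0 i → (g i).1 (w j) = 0) ∧
        (∀ w ∈ D', (∀ i, (g i).1 (w i) ≠ 0) → w = z) := by
      intro z hz
      obtain ⟨hcz0, hFz0⟩ := hkey z hz
      obtain ⟨I, u, hu, huO⟩ := isOpen_pi_iff.1 (hOo z hz.1) z (hzO z hz.1)
      let V : ι → Set X := fun i =>
        (if i ∈ I then u i else Set.univ) ∩ {x | |F0.1.1 x - (c0 i : ℝ)| < 1 / 4}
      have hVo : ∀ i, IsOpen (V i) := by
        intro i
        refine IsOpen.inter ?_ ?_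
        · split_ifs with hi
          · exact (hu i hi).1
          · exact isOpen_univ
        · exact isOpen_lt (F0.1.2.sub continuous_const).abs continuous_const
      have hzV : ∀ i, z i ∈ V i := by
        intro i
        refine ⟨?_, ?_⟩
        · split_ifs with hi
          · exact (hu i hi).2
          · exact Set.mem_univ _
        · have := hFc z i
          rw [hcz0, hFz0] at this
          exact this
      have hbump : ∀ i, ∃ g : X → ℝ, Continuous g ∧ (∀ y, 0 ≤ g y) ∧ (∀ y, g y ≤ 1) ∧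
          g (z i) = 1 ∧ ∀ y, y ∉ V i → g y = 0 := fun i => bump (z i) (V i) (hVo i) (hzV i)
      choose g hgc hg0 hgle hg1 hgV using hbump
      refine ⟨fun i => ⟨g i, hgc i⟩, hg0, hgle, hg1, ?_, ?_⟩
      · intro w hw i j hij
        obtain ⟨hcw0, hFw0⟩ := hkey w hw
        apply hgV
        intro hmem
        apply hij
        have h2 : |F0.1.1 (w j) - (c0 i : ℝ)| < 1 / 4 := hmem.2
        have h3 := hFc w j
        rw [hcw0, hFw0] at h3
        have h4 : |(c0 j : ℝ) - (c0 i : ℝ)| < 1 := by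
          have h5 : (c0 j : ℝ) - (c0 i : ℝ)
              = (F0.1.1 (w j) - (c0 i : ℝ)) - (F0.1.1 (w j) - (c0 j : ℝ)) := by ring
          rw [h5]
          calc |(F0.1.1 (w j) - (c0 i : ℝ)) - (F0.1.1 (w j) - (c0 j : ℝ))|
              ≤ |F0.1.1 (w j) - (c0 i : ℝ)| + |F0.1.1 (w j) - (c0 j : ℝ)| := abs_sub _ _
            _ < 1 := by linarith
        rw [abs_lt] at h4
        have h6 : ((c0 j : ℤ) : ℝ) < (c0 i : ℤ) + 1 := by push_cast; linarith
        have h7 : ((c0 i : ℤ) : ℝ) < (c0 j : ℤ) + 1 := by push_cast; linarith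
        have h6' : (c0 j : ℤ) < c0 i + 1 := by exact_mod_cast h6
        have h7' : (c0 i : ℤ) < c0 j + 1 := by exact_mod_cast h7
        omega
      · intro w hw hne
        apply hOD z hz.1 w hw.1
        apply huO
        intro i hi
        have hwV : w i ∈ V i := by
          by_contra hnot
          exact hne i (hgV i _ hnot)
        have h8 := hwV.1
        have hi' : i ∈ I := hi
        rw [if_pos hi'] at h8
        exact h8
    have _ : Nonempty (ι → {f : X → ℝ // Continuous f}) :=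
      ⟨fun _ => ⟨fun _ => 0, continuous_const⟩⟩
    choose! g hg0 hgle hg1 hgcross hgsep using hex
    -- functionals
    let ψ : (ι → X) → LpS X := fun z => dz (fun _ : ι => (1 : ℝ)) z
    have hψ : ∀ z f, (ψ z).1 f = ∑ i, f.1 (z i) := by
      intro z f
      show ∑ i, (1 : ℝ) * f.1 (z i) = _
      simp
    let N : ℝ := (Fintype.card ι : ℝ)
    have hN0 : 0 ≤ N := by positivity
    let t : ℝ := 1 / (2 * N + 2)
    have ht0 : 0 < t := by positivity
    have htN : t * N ≤ 1 / 2 := by
      show 1 / (2 * N + 2) * N ≤ 1 / 2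
      rw [div_mul_eq_mul_div, div_le_div_iff₀ (by positivity) (by norm_num)]
      linarith
    have ht1 : t ≤ 1 / 2 := by
      show 1 / (2 * N + 2) ≤ 1 / 2
      rw [div_le_div_iff₀ (by positivity) (by norm_num)]
      linarith
    have hψle : ∀ z ∈ D', ∀ w, ∀ i, (ψ w).1 (g z i) ≤ N := by
      intro z hz w i
      rw [hψ]
      calc ∑ j, (g z i).1 (w j) ≤ ∑ _j : ι, (1 : ℝ) :=
            Finset.sum_le_sum fun j _ => hgle z hz i (w j)
        _ = N := by simp [N]
    have hψself : ∀ z ∈ D', ∀ i, 1 ≤ (ψ z).1 (g z i) := by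
      intro z hz i
      rw [hψ]
      calc (1 : ℝ) = (g z i).1 (z i) := (hg1 z hz i).symm
        _ ≤ _ := Finset.single_le_sum (f := fun j => (g z i).1 (z j))
          (fun j _ => hg0 z hz i _) (Finset.mem_univ i)
    have hψzero : ∀ z ∈ D', ∀ w ∈ D', w ≠ z → ∃ i, (ψ w).1 (g z i) = 0 := by
      intro z hz w hw hwz
      by_contra hcon
      push Not at hcon
      apply hwz
      refine hgsep z hz w hw fun i hi => hcon i ?_
      rw [hψ]
      refine Finset.sum_eq_zero fun j _ => ?_
      by_cases hij : c0 j = c0 i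
      · have hwij : w j = w i := hcz w j i (by rw [(hkey w hw).1]; exact hij)
        rw [hwij, hi]
      · exact hgcross z hz w hw i j hij
    let Q : Set (LpS X) := {q | ∃ z ∈ D', ∃ w ∈ D', z ≠ w ∧ q = ψ z + t • (ψ w - ψ z)}
    have hqv : ∀ z w f, (ψ z + t • (ψ w - ψ z)).1 f
        = (ψ z).1 f + t * ((ψ w).1 f - (ψ z).1 f) := fun z w f => rfl
    have hev : ∀ f, Continuous (fun q : LpS X => q.1 f) := fun f =>
      (continuous_apply f).comp continuous_subtype_val
    have hPQ : ∀ u ∈ D', ψ u ∉ closure Q := by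
      intro u hu hmem
      let Nu : Set (LpS X) := {q | ∀ i, (1 - t / 2) * (ψ u).1 (g u i) < q.1 (g u i)}
      have hNu : IsOpen Nu := by
        have : Nu = ⋂ i, {q : LpS X | (1 - t / 2) * (ψ u).1 (g u i) < q.1 (g u i)} := by
          ext q; simp [Nu]
        rw [this]
        exact isOpen_iInter_of_finite fun i => isOpen_lt continuous_const (hev _)
      have huN : ψ u ∈ Nu := by
        intro i
        have := hψself u hu i
        nlinarith
      obtain ⟨q, hqN, z, hz, w, hw, hzw, rfl⟩ := mem_closure_iff.1 hmem Nu hNu huN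
      by_cases hzu : z = u
      · subst hzu
        obtain ⟨i, hi⟩ := hψzero z hz w hw (Ne.symm hzw)
        have h1 := hqN i
        rw [hqv, hi] at h1
        have h2 := hψself z hz i
        nlinarith
      · obtain ⟨i, hi⟩ := hψzero u hu z hz hzu
        have h1 := hqN i
        rw [hqv, hi] at h1
        have h2 := hψself u hu i
        have h3 := hψle u hu w i
        have h4 : t * (ψ w).1 (g u i) ≤ t * N := mul_le_mul_of_nonneg_left h3 ht0.le
        nlinarith
    obtain ⟨W, hWc, hW⟩ := Helper47.LP.depends X hL (closure Q) isClosed_closure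
    have _ : Countable ↥W := hWc.to_subtype
    have hdat : ∀ u ∈ D', ∃ (G : Finset ↥W) (m : ℕ), ∀ q : LpS X,
        (∀ w ∈ G, |q.1 w.1 - (ψ u).1 w.1| < 1 / ((m : ℝ) + 1)) → q ∉ closure Q := by
      intro u hu
      obtain ⟨G, η, hGW, hη, hG⟩ := hW (ψ u) (hPQ u hu)
      obtain ⟨m, hm⟩ := exists_nat_one_div_lt hη
      refine ⟨G.attach.image (fun w => (⟨w.1, hGW w.2⟩ : ↥W)), m, fun q hq => hG q fun w hw => ?_⟩
      refine (hq ⟨w, hGW hw⟩ ?_).trans hm
      rw [Finset.mem_image]
      exact ⟨⟨w, hw⟩, Finset.mem_attach _ _, rfl⟩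
    choose! G m hGm using hdat
    let dat : (ι → X) → Finset ↥W × ℕ × Finset (↥W × ℤ) := fun u =>
      (G u, m u, (G u).image (fun w => (w, ⌊((m u : ℝ) + 1) * (ψ u).1 w.1⌋)))
    have hinj : Set.InjOn dat D' := by
      intro u hu w hw huw
      by_contra hne
      have h1 : G u = G w := congrArg Prod.fst huw
      have h2 : m u = m w := congrArg (fun p => p.2.1) huw
      have h3 : (G u).image (fun a => (a, ⌊((m u : ℝ) + 1) * (ψ u).1 a.1⌋))
          = (G w).image (fun a => (a, ⌊((m w : ℝ) + 1) * (ψ w).1 a.1⌋)) :=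
        congrArg (fun p => p.2.2) huw
      have hclose : ∀ a ∈ G u, |(ψ w).1 a.1 - (ψ u).1 a.1| < 1 / ((m u : ℝ) + 1) := by
        intro a ha
        have h4 : (a, ⌊((m u : ℝ) + 1) * (ψ u).1 a.1⌋) ∈
            (G w).image (fun a => (a, ⌊((m w : ℝ) + 1) * (ψ w).1 a.1⌋)) := by
          rw [← h3]
          exact Finset.mem_image_of_mem _ ha
        obtain ⟨b, -, hb⟩ := Finset.mem_image.1 h4
        have hba : b = a := congrArg Prod.fst hb
        subst hba
        have h5 : ⌊((m w : ℝ) + 1) * (ψ w).1 b.1⌋ = ⌊((m u : ℝ) + 1) * (ψ u).1 b.1⌋ :=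
          congrArg Prod.snd hb
        rw [← h2] at h5
        have h6 := Int.abs_sub_lt_one_of_floor_eq_floor h5
        rw [← mul_sub, abs_mul, abs_of_pos (show (0 : ℝ) < (m u : ℝ) + 1 by positivity)] at h6
        rw [lt_div_iff₀ (by positivity)]
        linarith
      refine hGm u hu (ψ u + t • (ψ w - ψ u)) (fun a ha => ?_)
        (subset_closure ⟨u, hu, w, hw, hne, rfl⟩)
      rw [hqv]
      have h7 : (ψ u).1 a.1 + t * ((ψ w).1 a.1 - (ψ u).1 a.1) - (ψ u).1 a.1
          = t * ((ψ w).1 a.1 - (ψ u).1 a.1) := by ring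
      rw [h7, abs_mul, abs_of_pos ht0]
      have h8 := hclose a ha
      have h9 := abs_nonneg ((ψ w).1 a.1 - (ψ u).1 a.1)
      nlinarith
    exact Set.countable_of_injective_of_countable_image hinj (Set.to_countable _)
  have : D ⊆ ⋃ κ, D ∩ key ⁻¹' {κ} := fun z hz => Set.mem_iUnion.2 ⟨key z, hz, rfl⟩
  exact (Set.countable_iUnion hpieces).mono this

end Pool.Agent.Q213.CpSep
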