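import Pool.Agent.Q213.CpSepF

set_option autoImplicit false

open TopologicalSpace Topology Set Filter

namespace Pool.Agent.Q213.CpSep

abbrev C0 (Y : Type*) [TopologicalSpace Y] : Type _ := {f : Y → ℝ // Continuous f}

/-- all subspaces are separable -/
def HS (Y : Type*) [TopologicalSpace Y] : Prop := ∀ S : Set Y, SeparableSpace ↥S

/-- every family of open sets has a countable subfamily with the same union -/
def HL (Y : Type*) [TopologicalSpace Y] : Prop :=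
  ∀ 𝒰 : Set (Set Y), (∀ U ∈ 𝒰, IsOpen U) → ∃ 𝒱 ⊆ 𝒰, 𝒱.Countable ∧ ⋃₀ 𝒰 ⊆ ⋃₀ 𝒱

theorem HS.surj {Y Z : Type*} [TopologicalSpace Y] [TopologicalSpace Z] (h : HS Y)
    (f : Y → Z) (hf : Continuous f) (hs : Function.Surjective f) : HS Z := by
  intro S
  have h1 : SeparableSpace ↥(f ⁻¹' S) := h _
  have h2 : Continuous (fun y : ↥(f ⁻¹' S) => (⟨f y.1, y.2⟩ : ↥S)) :=
    (hf.comp continuous_subtype_val).subtype_mk _
  have h3 : Function.Surjective (fun y : ↥(f ⁻¹' S) => (⟨f y.1, y.2⟩ : ↥S)) := by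
    rintro ⟨z, hz⟩
    obtain ⟨y, rfl⟩ := hs z
    exact ⟨⟨y, hz⟩, rfl⟩
  exact h3.denseRange.separableSpace h2

theorem exists_dense_subset {Z : Type*} [TopologicalSpace Z] (S : Set Z)
    (h : SeparableSpace ↥S) : ∃ D : Set Z, D ⊆ S ∧ D.Countable ∧ S ⊆ closure D := by
  obtain ⟨t, htc, htd⟩ := exists_countable_dense ↥S
  refine ⟨Subtype.val '' t, ?_, htc.image _, ?_⟩
  · rintro _ ⟨z, -, rfl⟩
    exact z.2
  · exact Subtype.dense_iff.1 htd

theorem exists_lb {ι : Type*} [Finite ι] (e : ι → ℝ) (he : ∀ i, 0 < e i) :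
    ∃ ε > 0, ∀ i, ε ≤ e i := by
  rcases isEmpty_or_nonempty ι with h | h
  · exact ⟨1, one_pos, fun i => (h.false i).elim⟩
  · obtain ⟨i0, hi0⟩ := Finite.exists_min e
    exact ⟨e i0, he i0, hi0⟩

theorem basic1 {Y : Type*} (V : Set (Y → ℝ)) (hV : IsOpen V) (f : Y → ℝ) (hf : f ∈ V) :
    ∃ (F : Finset Y) (ε : ℝ), 0 < ε ∧ ∀ g : Y → ℝ, (∀ y ∈ F, |g y - f y| < ε) → g ∈ V := by
  obtain ⟨F, W, hW, hWV⟩ := isOpen_pi_iff.1 hV f hf
  have h1 : ∀ y : ↥F, ∃ ε > 0, Metric.ball (f y) ε ⊆ W y := fun y =>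
    Metric.isOpen_iff.1 (hW y y.2).1 _ (hW y y.2).2
  choose e he hb using h1
  obtain ⟨ε, hε, hle⟩ := exists_lb e he
  refine ⟨F, ε, hε, fun g hg => hWV fun y hy => hb ⟨y, hy⟩ (Metric.ball_subset_ball (hle _) ?_)⟩
  rw [Metric.mem_ball, Real.dist_eq]
  exact hg y hy

theorem basicn {Y : Type*} [TopologicalSpace Y] {n : ℕ} (U : Set (Fin n → C0 Y)) (hU : IsOpen U)
    (φ : Fin n → C0 Y) (hφ : φ ∈ U) :
    ∃ (F : Finset Y) (ε : ℝ), 0 < ε ∧
      ∀ ψ : Fin n → C0 Y, (∀ a, ∀ y ∈ F, |(ψ a).1 y - (φ a).1 y| < ε) → ψ ∈ U := by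
  classical
  obtain ⟨I, u, hu, huU⟩ := isOpen_pi_iff.1 hU φ hφ
  have h1 : ∀ a : Fin n, ∃ (F : Finset Y) (ε : ℝ), 0 < ε ∧
      ∀ g : C0 Y, (∀ y ∈ F, |g.1 y - (φ a).1 y| < ε) → (a ∈ I → g ∈ u a) := by
    intro a
    by_cases ha : a ∈ I
    · obtain ⟨V, hV, hVu⟩ := isOpen_induced_iff.1 (hu a ha).1
      have h2 : (φ a).1 ∈ V := by
        have : φ a ∈ Subtype.val ⁻¹' V := by rw [hVu]; exact (hu a ha).2
        exact this
      obtain ⟨F, ε, hε, hF⟩ := basic1 V hV _ h2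
      refine ⟨F, ε, hε, fun g hg _ => ?_⟩
      have h3 : g ∈ Subtype.val ⁻¹' V := hF g.1 hg
      rw [hVu] at h3
      exact h3
    · exact ⟨∅, 1, one_pos, fun g _ h => (ha h).elim⟩
  choose F e he hF using h1
  obtain ⟨ε, hε, hle⟩ := exists_lb e he
  refine ⟨Finset.univ.biUnion F, ε, hε, fun ψ hψ => huU fun a ha => ?_⟩
  refine hF a (ψ a) (fun y hy => ?_) ha
  exact (hψ a y (Finset.mem_biUnion.2 ⟨a, Finset.mem_univ _, hy⟩)).trans_le (hle a)

theorem hl_of_hs {Y : Type*} [TopologicalSpace Y] (h : ∀ k : ℕ, HS (Fin k → Y)) (n : ℕ) :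
    HL (Fin n → C0 Y) := by
  classical
  intro 𝒰 h𝒰
  let J := Σ k : ℕ, (Fin n → Fin k → ℚ) × ℕ
  let B : (j : J) → (Fin j.1 → Y) → Set (Fin n → C0 Y) := fun j y =>
    {ψ | ∀ a i, |(ψ a).1 (y i) - (j.2.1 a i : ℝ)| < 1 / ((j.2.2 : ℝ) + 1)}
  let S : (j : J) → Set (Fin j.1 → Y) := fun j => {y | ∃ U ∈ 𝒰, B j y ⊆ U}
  have hS : ∀ j, ∃ D : Set (Fin j.1 → Y), D ⊆ S j ∧ D.Countable ∧ S j ⊆ closure D := fun j =>
    exists_dense_subset (S j) (h j.1 (S j))
  choose D hDS hDc hDd using hS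
  have hU : ∀ j, ∀ y : ↥(D j), ∃ U ∈ 𝒰, B j y.1 ⊆ U := fun j y => hDS j y.2
  choose U hU𝒰 hBU using hU
  have _ : ∀ j, Countable ↥(D j) := fun j => (hDc j).to_subtype
  refine ⟨Set.range (fun p : Σ j, ↥(D j) => U p.1 p.2), ?_, Set.countable_range _, ?_⟩
  · rintro _ ⟨p, rfl⟩
    exact hU𝒰 _ _
  · rintro φ ⟨V, hV, hφ⟩
    obtain ⟨F, ε, hε, hF⟩ := basicn V (h𝒰 V hV) φ hφ
    obtain ⟨m, hm⟩ := exists_nat_one_div_lt (half_pos hε)
    have hm0 : (0 : ℝ) < 1 / ((m : ℝ) + 1) := by positivity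
    let y : Fin F.card → Y := fun i => (F.equivFin.symm i).1
    have hq : ∀ (a : Fin n) (i : Fin F.card), ∃ q : ℚ,
        |(φ a).1 (y i) - (q : ℝ)| < 1 / ((m : ℝ) + 1) := by
      intro a i
      obtain ⟨q, hq1, hq2⟩ := exists_rat_btwn
        (show (φ a).1 (y i) - 1 / ((m : ℝ) + 1) < (φ a).1 (y i) + 1 / ((m : ℝ) + 1) by linarith)
      exact ⟨q, by rw [abs_lt]; constructor <;> linarith⟩
    choose q hq using hq
    let j : J := ⟨F.card, q, m⟩
    have hyS : y ∈ S j := by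
      refine ⟨V, hV, fun ψ hψ => hF ψ fun a z hz => ?_⟩
      have h1 : |(ψ a).1 (y (F.equivFin ⟨z, hz⟩)) - (q a (F.equivFin ⟨z, hz⟩) : ℝ)|
          < 1 / ((m : ℝ) + 1) := hψ a (F.equivFin ⟨z, hz⟩)
      have h2 := hq a (F.equivFin ⟨z, hz⟩)
      have h3 : y (F.equivFin ⟨z, hz⟩) = z := by simp [y]
      rw [h3] at h1 h2
      have h4 : (ψ a).1 z - (φ a).1 z = ((ψ a).1 z - (q a (F.equivFin ⟨z, hz⟩) : ℝ))
          - ((φ a).1 z - (q a (F.equivFin ⟨z, hz⟩) : ℝ)) := by ring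
      rw [h4]
      refine (abs_sub _ _).trans_lt ?_
      linarith
    have hWo : IsOpen {y' : Fin F.card → Y |
        ∀ a i, |(φ a).1 (y' i) - (q a i : ℝ)| < 1 / ((m : ℝ) + 1)} := by
      have : {y' : Fin F.card → Y | ∀ a i, |(φ a).1 (y' i) - (q a i : ℝ)| < 1 / ((m : ℝ) + 1)}
          = ⋂ a, ⋂ i, {y' : Fin F.card → Y |
            |(φ a).1 (y' i) - (q a i : ℝ)| < 1 / ((m : ℝ) + 1)} := by
        ext y'; simp
      rw [this]
      refine isOpen_iInter_of_finite fun a => isOpen_iInter_of_finite fun i => isOpen_lt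
        (Continuous.abs (Continuous.sub ((φ a).2.comp (continuous_apply i)) continuous_const))
        continuous_const
    obtain ⟨y', hy'W, hy'D⟩ := mem_closure_iff.1 (hDd j hyS) _ hWo hq
    exact ⟨U j ⟨y', hy'D⟩, ⟨⟨j, ⟨y', hy'D⟩⟩, rfl⟩, hBU j ⟨y', hy'D⟩ hy'W⟩

theorem hs_of_hl {T : Type*} [TopologicalSpace T] (h : ∀ n : ℕ, HL (Fin n → T)) :
    HS (C0 T) := by
  classical
  intro A
  let J := Σ n : ℕ, (Fin n → ℚ) × ℕ
  let O : (j : J) → C0 T → Set (Fin j.1 → T) := fun j f =>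
    {K | ∀ i, |f.1 (K i) - (j.2.1 i : ℝ)| < 1 / ((j.2.2 : ℝ) + 1)}
  have hO : ∀ j f, IsOpen (O j f) := by
    intro j f
    have : O j f = ⋂ i, {K : Fin j.1 → T | |f.1 (K i) - (j.2.1 i : ℝ)| < 1 / ((j.2.2 : ℝ) + 1)} := by
      ext K; simp [O]
    rw [this]
    exact isOpen_iInter_of_finite fun i => isOpen_lt
      (Continuous.abs (Continuous.sub (f.2.comp (continuous_apply i)) continuous_const))
      continuous_const
  have hne : Nonempty (C0 T) := ⟨⟨fun _ => 0, continuous_const⟩⟩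
  have h1 : ∀ j, ∃ A' ⊆ A, A'.Countable ∧ ∀ f ∈ A, ∀ K ∈ O j f, ∃ g ∈ A', K ∈ O j g := by
    intro j
    obtain ⟨𝒱, h𝒱, hc, hcov⟩ := h j.1 (O j '' A) (by rintro _ ⟨f, -, rfl⟩; exact hO j f)
    have h2 : ∀ V ∈ 𝒱, ∃ g ∈ A, O j g = V := fun V hV => h𝒱 hV
    choose! g hgA hg using h2
    refine ⟨g '' 𝒱, ?_, hc.image g, fun f hf K hK => ?_⟩
    · rintro _ ⟨V, hV, rfl⟩
      exact hgA V hV
    · obtain ⟨V, hV, hKV⟩ := hcov ⟨O j f, ⟨f, hf, rfl⟩, hK⟩
      exact ⟨g V, ⟨V, hV, rfl⟩, by rw [hg V hV]; exact hKV⟩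
  choose A' hA' hc hA'' using h1
  refine separable_of_subset_closure A (⋃ j, A' j) (Set.iUnion_subset hA')
    (Set.countable_iUnion hc) fun f hf => ?_
  rw [mem_closure_iff]
  intro V hV hfV
  obtain ⟨V', hV', rfl⟩ := isOpen_induced_iff.1 hV
  obtain ⟨F, ε, hε, hF⟩ := basic1 V' hV' f.1 hfV
  obtain ⟨m, hm⟩ := exists_nat_one_div_lt (half_pos hε)
  have hm0 : (0 : ℝ) < 1 / ((m : ℝ) + 1) := by positivity
  let K : Fin F.card → T := fun i => (F.equivFin.symm i).1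
  have hq : ∀ i : Fin F.card, ∃ q : ℚ, |f.1 (K i) - (q : ℝ)| < 1 / ((m : ℝ) + 1) := by
    intro i
    obtain ⟨q, hq1, hq2⟩ := exists_rat_btwn
      (show f.1 (K i) - 1 / ((m : ℝ) + 1) < f.1 (K i) + 1 / ((m : ℝ) + 1) by linarith)
    exact ⟨q, by rw [abs_lt]; constructor <;> linarith⟩
  choose q hq using hq
  let j : J := ⟨F.card, q, m⟩
  obtain ⟨g, hgA', hg⟩ := hA'' j f hf K hq
  refine ⟨g, ?_, Set.mem_iUnion.2 ⟨j, hgA'⟩⟩
  refine hF g.1 fun z hz => ?_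
  have h1 : |g.1 (K (F.equivFin ⟨z, hz⟩)) - (q (F.equivFin ⟨z, hz⟩) : ℝ)|
      < 1 / ((m : ℝ) + 1) := hg (F.equivFin ⟨z, hz⟩)
  have h2 := hq (F.equivFin ⟨z, hz⟩)
  have h3 : K (F.equivFin ⟨z, hz⟩) = z := by simp [K]
  rw [h3] at h1 h2
  have h4 : g.1 z - f.1 z = (g.1 z - (q (F.equivFin ⟨z, hz⟩) : ℝ))
      - (f.1 z - (q (F.equivFin ⟨z, hz⟩) : ℝ)) := by ring
  rw [h4]
  refine (abs_sub _ _).trans_lt ?_
  linarith

theorem cs2_of {X : Type*} [TopologicalSpace X] (N n : ℕ) (h : CS (Fin N × Fin n → X)) :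
    CS (Fin N → (Fin n → X)) := by
  let e : (Fin N → (Fin n → X)) ≃ₜ (Fin N × Fin n → X) :=
    { toFun := fun g p => g p.1 p.2
      invFun := fun g i j => g (i, j)
      left_inv := fun g => rfl
      right_inv := fun g => rfl
      continuous_toFun := continuous_pi fun p =>
        (continuous_apply p.2).comp (continuous_apply p.1)
      continuous_invFun := continuous_pi fun i => continuous_pi fun j =>
        continuous_apply (i, j) }
  exact CS.of_embedding e e.isEmbedding h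

/-- under Martin's axiom: L_p(X) perfectly normal gives C_p(X)^k hereditarily separable -/
theorem hs_of_perfect (X : Type) [TopologicalSpace X] [T35Space X] (hMA : MartinAlephOne)
    (hL : PerfectlyNormalSpace (LpS X)) (k : ℕ) : HS (Fin k → C0 X) := by
  have h1 : HS (Cpk X k) := fun B => ma_sep hMA (fun n => cs_of_perfect X hL (Fin n))
    (fun N n => cs2_of N n (cs_of_perfect X hL (Fin N × Fin n))) k B
  refine h1.surj (fun f i => ⟨fun x => f.1 x i, (continuous_apply i).comp f.2⟩) ?_ ?_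
  · refine continuous_pi fun i => Continuous.subtype_mk (continuous_pi fun x => ?_) _
    exact (continuous_apply i).comp ((continuous_apply x).comp continuous_subtype_val)
  · intro g
    exact ⟨⟨fun x i => (g i).1 x, continuous_pi fun i => (g i).2⟩, rfl⟩

theorem cpcp_perfect (X : Type) [TopologicalSpace X] [T35Space X] (hMA : MartinAlephOne)
    (hL : PerfectlyNormalSpace (LpS X)) : PerfectlyNormalSpace (C0 (C0 X)) := by
  have hz := Helper937.Szd.perfect_of_zero (E := C0 (C0 X)) (fun P hP =>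
    Helper937.Szd.zero_set (X := X) (E := C0 (C0 X)) (fun φ => φ.1) IsInducing.subtypeVal
      (fun φ => φ.2) (fun n S _ => hs_of_perfect X hMA hL n S) P hP)
  have := hz.1
  exact ⟨hz.2⟩

theorem lps_of_cpcp (X : Type) [TopologicalSpace X] (h : PerfectlyNormalSpace (C0 (C0 X))) :
    PerfectlyNormalSpace (LpS X) := by
  have hcont : ∀ ψ : LpS X, Continuous (ψ.1 : C0 X → ℝ) := by
    rintro ⟨ψ, hψ⟩
    show Continuous ψ
    induction hψ using Submodule.span_induction with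
    | mem x hx =>
      obtain ⟨x, rfl⟩ := hx
      exact (continuous_apply x).comp continuous_subtype_val
    | zero => exact continuous_const
    | add a b _ _ ha hb => exact ha.add hb
    | smul r a _ ha => exact continuous_const.mul ha
  let e : LpS X → C0 (C0 X) := fun ψ => ⟨ψ.1, hcont ψ⟩
  have he : IsInducing e := by
    refine IsInducing.of_comp (g := (Subtype.val : C0 (C0 X) → (C0 X → ℝ))) ?_ continuous_subtype_val ?_
    · exact continuous_subtype_val.subtype_mk _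
    · exact IsInducing.subtypeVal
  exact he.perfectlyNormalSpace

theorem hs_c3 (X : Type) [TopologicalSpace X] [T35Space X] (hMA : MartinAlephOne)
    (h : PerfectlyNormalSpace (C0 (C0 X))) : HS (C0 (C0 (C0 X))) :=
  hs_of_hl fun n => hl_of_hs (fun k => hs_of_perfect X hMA (lps_of_cpcp X h) k) n

end Pool.Agent.Q213.CpSep
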