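import Pool.Agent.Q213.CpSepG

set_option autoImplicit false

open TopologicalSpace Topology Set Filter

namespace Pool.Agent.Q213.CpSep

theorem HL.of_inducing {Y Z : Type*} [TopologicalSpace Y] [TopologicalSpace Z] (e : Y → Z)
    (he : IsInducing e) (h : HL Z) : HL Y := by
  intro 𝒰 h𝒰
  have h1 : ∀ U ∈ 𝒰, ∃ V : Set Z, IsOpen V ∧ e ⁻¹' V = U := fun U hU =>
    he.isOpen_iff.1 (h𝒰 U hU)
  choose! V hV hVU using h1
  obtain ⟨𝒱, h𝒱, hc, hcov⟩ := h (V '' 𝒰) (by rintro _ ⟨U, hU, rfl⟩; exact hV U hU)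
  have h2 : ∀ v ∈ 𝒱, ∃ U ∈ 𝒰, V U = v := fun v hv => h𝒱 hv
  choose! g hg hgv using h2
  refine ⟨g '' 𝒱, ?_, hc.image g, ?_⟩
  · rintro _ ⟨v, hv, rfl⟩
    exact hg v hv
  · rintro y ⟨U, hU, hyU⟩
    have hy : e y ∈ V U := by
      have : y ∈ e ⁻¹' V U := by rw [hVU U hU]; exact hyU
      exact this
    obtain ⟨v, hv, hyv⟩ := hcov ⟨V U, ⟨U, hU, rfl⟩, hy⟩
    refine ⟨g v, ⟨v, hv, rfl⟩, ?_⟩
    rw [← hVU _ (hg v hv), hgv v hv]
    exact hyv

theorem hl_second (Z : Type*) [TopologicalSpace Z] [SecondCountableTopology Z] : HL Z := by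
  intro 𝒰 h𝒰
  obtain ⟨𝒱, h1, h2, h3⟩ := TopologicalSpace.isOpen_sUnion_countable 𝒰 h𝒰
  exact ⟨𝒱, h2, h1, h3.symm.subset⟩

theorem hl_of_perfect (Z : Type*) [TopologicalSpace Z] (hP : PerfectlyNormalSpace Z)
    (hL : LindelofSpace Z) : HL Z := by
  intro 𝒰 h𝒰
  have hO : IsOpen (⋃₀ 𝒰) := isOpen_sUnion h𝒰
  obtain ⟨G, hG, hGO⟩ := isGδ_iff_eq_iInter_nat.1 (hO.isClosed_compl.isGδ)
  have h1 : ∀ n, ∃ r : Set ↥𝒰, r.Countable ∧ (G n)ᶜ ⊆ ⋃ i ∈ r, (i : Set Z) := by
    intro n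
    refine ((hG n).isClosed_compl.isLindelof).elim_countable_subcover (fun i : ↥𝒰 => (i : Set Z))
      (fun i => h𝒰 i i.2) ?_
    intro z hz
    have h2 : z ∈ ⋃₀ 𝒰 := by
      by_contra hcon
      have h3 : z ∈ (⋃₀ 𝒰)ᶜ := hcon
      rw [hGO] at h3
      exact hz (Set.mem_iInter.1 h3 n)
    obtain ⟨U, hU, hzU⟩ := h2
    exact Set.mem_iUnion.2 ⟨⟨U, hU⟩, hzU⟩
  choose r hrc hr using h1
  refine ⟨⋃ n, Subtype.val '' (r n), ?_, Set.countable_iUnion fun n => (hrc n).image _, ?_⟩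
  · refine Set.iUnion_subset fun n => ?_
    rintro _ ⟨U, -, rfl⟩
    exact U.2
  · intro z hz
    have h3 : ∃ n, z ∉ G n := by
      by_contra hcon
      push Not at hcon
      have : z ∈ (⋃₀ 𝒰)ᶜ := by
        rw [hGO]
        exact Set.mem_iInter.2 hcon
      exact this hz
    obtain ⟨n, hn⟩ := h3
    obtain ⟨U, hU, hzU⟩ := Set.mem_iUnion₂.1 (hr n hn)
    exact ⟨U, Set.mem_iUnion.2 ⟨n, ⟨U, hU, rfl⟩⟩, hzU⟩

/-- t sin t takes every value at some t ≥ 1 -/
theorem sin_surj (a : ℝ) : ∃ t : ℝ, 1 ≤ t ∧ t * Real.sin t = a := by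
  obtain ⟨n, hn⟩ := exists_nat_gt |a|
  let t1 : ℝ := Real.pi / 2 + n * (2 * Real.pi)
  let t2 : ℝ := Real.pi / 2 + n * (2 * Real.pi) + Real.pi
  have hpi := Real.pi_gt_three
  have hn0 : (0 : ℝ) ≤ n := Nat.cast_nonneg n
  have ht1 : (n : ℝ) + 1 ≤ t1 := by
    show (n : ℝ) + 1 ≤ Real.pi / 2 + n * (2 * Real.pi)
    nlinarith
  have ht12 : t1 ≤ t2 := by
    show Real.pi / 2 + n * (2 * Real.pi) ≤ Real.pi / 2 + n * (2 * Real.pi) + Real.pi
    linarith
  have hs1 : Real.sin t1 = 1 := by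
    show Real.sin (Real.pi / 2 + n * (2 * Real.pi)) = 1
    rw [Real.sin_add_nat_mul_two_pi, Real.sin_pi_div_two]
  have hs2 : Real.sin t2 = -1 := by
    show Real.sin (t1 + Real.pi) = -1
    rw [Real.sin_add_pi, hs1]
  have hcont : ContinuousOn (fun t : ℝ => t * Real.sin t) (Set.Icc t1 t2) :=
    (continuous_id.mul Real.continuous_sin).continuousOn
  have h1 := intermediate_value_Icc' ht12 hcont
  have habs := abs_lt.1 hn
  have h2 : a ∈ Set.Icc ((fun t : ℝ => t * Real.sin t) t2) ((fun t : ℝ => t * Real.sin t) t1) := by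
    simp only [hs1, hs2]
    constructor <;> linarith
  obtain ⟨t, ht, hta⟩ := h1 h2
  exact ⟨t, by linarith [ht.1], hta⟩

/-- the square of C_pC_p(X) embeds in C_pC_p(X) -/
theorem square_embeds (X : Type*) [TopologicalSpace X] (x0 : X) :
    ∃ Φ : C0 (C0 X) × C0 (C0 X) → C0 (C0 X), IsInducing Φ := by
  let w : ℝ → ℝ := fun t => max 0 (min 1 t)
  have hw : Continuous w := continuous_const.max (continuous_const.min continuous_id)
  let s : ℝ → ℝ := fun t => t * Real.sin t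
  have hs : Continuous s := continuous_id.mul Real.continuous_sin
  have hev : Continuous (fun y : C0 X => y.1 x0) :=
    (continuous_apply x0).comp continuous_subtype_val
  let r : C0 X → C0 X := fun y => ⟨fun x => y.1 x - y.1 x0 + s (y.1 x0),
    (y.2.sub continuous_const).add continuous_const⟩
  have hr : Continuous r := by
    refine Continuous.subtype_mk (continuous_pi fun x => ?_) _
    exact (((continuous_apply x).comp continuous_subtype_val).sub hev).add (hs.comp hev)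
  let Φ : C0 (C0 X) × C0 (C0 X) → C0 (C0 X) := fun φ =>
    ⟨fun y => w (y.1 x0) * φ.1.1 (r y) + w (-(y.1 x0)) * φ.2.1 (r y),
      ((hw.comp hev).mul (φ.1.2.comp hr)).add ((hw.comp hev.neg).mul (φ.2.2.comp hr))⟩
  have hΦ : Continuous Φ := by
    refine Continuous.subtype_mk (continuous_pi fun y => ?_) _
    refine (continuous_const.mul ?_).add (continuous_const.mul ?_)
    · exact (continuous_apply (r y)).comp (continuous_subtype_val.comp continuous_fst)
    · exact (continuous_apply (r y)).comp (continuous_subtype_val.comp continuous_snd)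
  choose t ht1 hts using sin_surj
  let y1 : C0 X → C0 X := fun z => ⟨fun x => z.1 x - z.1 x0 + t (z.1 x0),
    (z.2.sub continuous_const).add continuous_const⟩
  let y2 : C0 X → C0 X := fun z => ⟨fun x => z.1 x - z.1 x0 + -t (z.1 x0),
    (z.2.sub continuous_const).add continuous_const⟩
  have hy1 : ∀ z, r (y1 z) = z := by
    intro z
    refine Subtype.ext (funext fun x => ?_)
    show (z.1 x - z.1 x0 + t (z.1 x0)) - (z.1 x0 - z.1 x0 + t (z.1 x0))
      + (z.1 x0 - z.1 x0 + t (z.1 x0)) * Real.sin (z.1 x0 - z.1 x0 + t (z.1 x0)) = z.1 x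
    rw [sub_self, zero_add, hts]
    ring
  have hy2 : ∀ z, r (y2 z) = z := by
    intro z
    refine Subtype.ext (funext fun x => ?_)
    show (z.1 x - z.1 x0 + -t (z.1 x0)) - (z.1 x0 - z.1 x0 + -t (z.1 x0))
      + (z.1 x0 - z.1 x0 + -t (z.1 x0)) * Real.sin (z.1 x0 - z.1 x0 + -t (z.1 x0)) = z.1 x
    rw [sub_self, zero_add, Real.sin_neg, neg_mul_neg, hts]
    ring
  have hw1 : ∀ a : ℝ, 1 ≤ a → w a = 1 := by
    intro a ha
    show max 0 (min 1 a) = 1
    rw [min_eq_left ha]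
    exact max_eq_right zero_le_one
  have hw0 : ∀ a : ℝ, a ≤ 0 → w a = 0 := by
    intro a ha
    show max 0 (min 1 a) = 0
    rw [min_eq_right (by linarith)]
    exact max_eq_left ha
  let Ψ : C0 (C0 X) → (C0 X → ℝ) × (C0 X → ℝ) := fun F => (fun z => F.1 (y1 z), fun z => F.1 (y2 z))
  have hΨ : Continuous Ψ := by
    refine Continuous.prodMk (continuous_pi fun z => ?_) (continuous_pi fun z => ?_)
    · exact (continuous_apply (y1 z)).comp continuous_subtype_val
    · exact (continuous_apply (y2 z)).comp continuous_subtype_val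
  have hcomp : Ψ ∘ Φ = Prod.map Subtype.val Subtype.val := by
    funext φ
    refine Prod.ext (funext fun z => ?_) (funext fun z => ?_)
    · show w (z.1 x0 - z.1 x0 + t (z.1 x0)) * φ.1.1 (r (y1 z))
        + w (-(z.1 x0 - z.1 x0 + t (z.1 x0))) * φ.2.1 (r (y1 z)) = φ.1.1 z
      rw [hy1, sub_self, zero_add, hw1 _ (ht1 _), hw0 _ (by linarith [ht1 (z.1 x0)])]
      ring
    · show w (z.1 x0 - z.1 x0 + -t (z.1 x0)) * φ.1.1 (r (y2 z))
        + w (-(z.1 x0 - z.1 x0 + -t (z.1 x0))) * φ.2.1 (r (y2 z)) = φ.2.1 z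
      rw [hy2, sub_self, zero_add, neg_neg, hw1 _ (ht1 _), hw0 _ (by linarith [ht1 (z.1 x0)])]
      ring
  refine ⟨Φ, IsInducing.of_comp hΦ hΨ ?_⟩
  rw [hcomp]
  exact IsInducing.subtypeVal.prodMap IsInducing.subtypeVal

theorem powers_embed {T : Type*} [TopologicalSpace T] [Nonempty T]
    (h : ∃ Φ : T × T → T, IsInducing Φ) (n : ℕ) : ∃ Φ : (Fin n → T) → T, IsInducing Φ := by
  obtain ⟨Φ, hΦ⟩ := h
  induction n with
  | zero =>
    refine ⟨fun _ => Classical.arbitrary T, ⟨Subsingleton.elim _ _⟩⟩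
  | succ n ih =>
    obtain ⟨Ψ, hΨ⟩ := ih
    let e : (Fin (n + 1) → T) → T × (Fin n → T) := fun v => (v 0, Fin.tail v)
    have hec : Continuous e := (continuous_apply 0).prodMk
      (continuous_pi fun i => continuous_apply i.succ)
    let e' : T × (Fin n → T) → (Fin (n + 1) → T) := fun p => Fin.cons p.1 p.2
    have he'c : Continuous e' := by
      refine continuous_pi fun i => ?_
      refine Fin.cases ?_ (fun j => ?_) i
      · exact continuous_fst
      · simp only [e', Fin.cons_succ]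
        exact (continuous_apply j).comp continuous_snd
    have he : IsInducing e := IsInducing.of_comp hec he'c (by
      have : e' ∘ e = id := by
        funext v
        exact Fin.cons_self_tail v
      rw [this]
      exact IsInducing.id)
    exact ⟨_, hΦ.comp ((IsInducing.id.prodMap hΨ).comp he)⟩

theorem hs_of_lindelof (X : Type*) [TopologicalSpace X] (hP : PerfectlyNormalSpace (C0 (C0 X)))
    (hL : LindelofSpace (C0 (C0 X))) : HS (C0 (C0 (C0 X))) := by
  have hne : Nonempty (C0 (C0 X)) := ⟨⟨fun _ => 0, continuous_const⟩⟩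
  rcases isEmpty_or_nonempty X with hX | ⟨⟨x0⟩⟩
  · apply hs_of_hl
    intro n
    let y0 : C0 X := ⟨fun _ => 0, continuous_const⟩
    have huniq : ∀ y : C0 X, y = y0 := fun y => Subtype.ext (funext fun x => (hX.false x).elim)
    have h1 : IsInducing (fun (φ : C0 (C0 X)) => φ.1 y0) := by
      refine IsInducing.of_comp ((continuous_apply y0).comp continuous_subtype_val)
        (g := fun (a : ℝ) (_ : C0 X) => a) (continuous_pi fun _ => continuous_id) ?_
      have : ((fun (a : ℝ) (_ : C0 X) => a) ∘ (fun (φ : C0 (C0 X)) => φ.1 y0)) = Subtype.val := by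
        funext φ y
        show φ.1 y0 = φ.1 y
        rw [huniq y]
      rw [this]
      exact IsInducing.subtypeVal
    have h2 : IsInducing (Pi.map (fun (_ : Fin n) (φ : C0 (C0 X)) => φ.1 y0)) :=
      IsInducing.piMap fun _ => h1
    exact HL.of_inducing _ h2 (hl_second (Fin n → ℝ))
  · apply hs_of_hl
    intro n
    obtain ⟨Φ, hΦ⟩ := powers_embed (square_embeds X x0) n
    exact HL.of_inducing Φ hΦ (hl_of_perfect _ hP hL)

end Pool.Agent.Q213.CpSep

namespace Pool.Agent.Q213.CpSep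

theorem lindelof_of_hs (T : Type*) [TopologicalSpace T] [CompletelyRegularSpace T]
    (h : HS (C0 T)) : LindelofSpace T := by
  classical
  refine ⟨isLindelof_of_countable_subcover fun {ι} U hU hcov => ?_⟩
  have h1 : ∀ t : T, ∃ i, t ∈ U i := fun t => Set.mem_iUnion.1 (hcov (Set.mem_univ t))
  choose i hi using h1
  have h2 : ∀ t : T, ∃ g : T → ℝ, Continuous g ∧ (∀ y, 0 ≤ g y) ∧ (∀ y, g y ≤ 1) ∧ g t = 1 ∧
      ∀ y, y ∉ U (i t) → g y = 0 := fun t => bump t (U (i t)) (hU _) (hi t)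
  choose g hgc hg0 hg1 hgt hgU using h2
  let A : Set (C0 T) := Set.range fun t => ⟨g t, hgc t⟩
  obtain ⟨D, hDA, hDc, hAD⟩ := exists_dense_subset A (h A)
  have h3 : ∀ f ∈ D, ∃ t : T, (⟨g t, hgc t⟩ : C0 T) = f := fun f hf => hDA hf
  rcases isEmpty_or_nonempty T with hT | ⟨⟨t0⟩⟩
  · exact ⟨∅, Set.countable_empty, fun t _ => (hT.false t).elim⟩
  have _ : Nonempty T := ⟨t0⟩
  choose! τ hτ using h3
  refine ⟨(fun f => i (τ f)) '' D, hDc.image _, fun s _ => ?_⟩
  have hopen : IsOpen {f : C0 T | 0 < f.1 s} :=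
    isOpen_lt continuous_const ((continuous_apply s).comp continuous_subtype_val)
  have hs : (⟨g s, hgc s⟩ : C0 T) ∈ {f : C0 T | 0 < f.1 s} := by
    show 0 < g s s
    rw [hgt]
    exact one_pos
  obtain ⟨f, hf0, hfD⟩ := mem_closure_iff.1 (hAD ⟨s, rfl⟩) _ hopen hs
  refine Set.mem_iUnion₂.2 ⟨i (τ f), ⟨f, hfD, rfl⟩, ?_⟩
  by_contra hcon
  have h4 := hgU (τ f) s hcon
  have h5 : f.1 s = g (τ f) s := by
    conv_lhs => rw [← hτ f hfD]
  have h6 : 0 < f.1 s := hf0
  rw [h5, h4] at h6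
  exact lt_irrefl _ h6

end Pool.Agent.Q213.CpSep
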