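import Mathlib

/-!
# Distance-hereditary graphs: the definition, and splits of finite connected induced subgraphs
-/

namespace Q213.DH

variable {V : Type*} {G : SimpleGraph V}

/-- A graph is distance-hereditary if distances in connected induced subgraphs are distances in
the graph. -/
def DistanceHereditary (G : SimpleGraph V) : Prop :=
  ∀ S : Set V, (G.induce S).Connected → ∀ u v : S, (G.induce S).dist u v = G.dist u.1 v.1

/-- connectedness of an induced subgraph in terms of closed subsets -/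
def Cn (G : SimpleGraph V) (S : Set V) : Prop :=
  S.Nonempty ∧ ∀ T ⊆ S, T.Nonempty → (∀ a ∈ T, ∀ b ∈ S, G.Adj a b → b ∈ T) → S ⊆ T

theorem cn_iff {S : Set V} : Cn G S ↔ (G.induce S).Connected := by
  constructor
  · rintro ⟨⟨r, hr⟩, h⟩
    rw [SimpleGraph.connected_iff]
    refine ⟨?_, ⟨⟨r, hr⟩⟩⟩
    rintro ⟨u, hu⟩ ⟨v, hv⟩
    have := h {x | ∃ hx : x ∈ S, (G.induce S).Reachable ⟨u, hu⟩ ⟨x, hx⟩}
      (fun x hx => hx.1) ⟨u, hu, SimpleGraph.Reachable.refl _⟩ (by
        rintro a ⟨ha, har⟩ b hb hab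
        refine ⟨hb, har.trans (SimpleGraph.Adj.reachable ?_)⟩
        exact hab) hv
    exact this.2
  · intro h
    have hne := h.nonempty
    refine ⟨⟨hne.some.1, hne.some.2⟩, ?_⟩
    rintro T hTS ⟨t, ht⟩ hcl s hs
    by_contra hsT
    obtain ⟨w⟩ := h.preconnected ⟨t, hTS ht⟩ ⟨s, hs⟩
    obtain ⟨d, _, hd1, hd2⟩ := w.exists_boundary_dart {x : S | x.1 ∈ T} ht hsT
    exact hd2 (hcl d.fst.1 hd1 d.snd.1 d.snd.2 d.adj)

/-- a crossing edge -/
theorem Cn.cross {S : Set V} (h : Cn G S) {T : Set V} {a b : V} (haS : a ∈ S) (haT : a ∈ T)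
    (hbS : b ∈ S) (hbT : b ∉ T) : ∃ x ∈ S, x ∈ T ∧ ∃ y ∈ S, y ∉ T ∧ G.Adj x y := by
  by_contra hcon
  push Not at hcon
  have := h.2 (S ∩ T) Set.inter_subset_left ⟨a, haS, haT⟩ (by
    intro x hx y hy hxy
    refine ⟨hy, ?_⟩
    by_contra hyT
    exact hcon x hx.1 hx.2 y hy hyT hxy) hbS
  exact hbT this.2

theorem Cn.of_root {S : Set V} {r : V} (hr : r ∈ S)
    (h : ∀ T ⊆ S, T.Nonempty → (∀ a ∈ T, ∀ b ∈ S, G.Adj a b → b ∈ T) → r ∈ T) : Cn G S := by
  refine ⟨⟨r, hr⟩, ?_⟩
  intro T hTS hT hcl x hx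
  by_contra hxT
  have h1 := h T hTS hT hcl
  have h2 := h (S \ T) Set.sdiff_subset ⟨x, hx, hxT⟩ (by
    intro a ha b hb hab
    refine ⟨hb, fun hbT => ha.2 (hcl b hbT a ha.1 hab.symm)⟩)
  exact h2.2 h1

theorem Cn.insert {S : Set V} (h : Cn G S) {x y : V} (hy : y ∈ S) (hxy : G.Adj y x) :
    Cn G (insert x S) := by
  refine Cn.of_root (Set.mem_insert_of_mem _ hy) ?_
  rintro T hTS ⟨t, ht⟩ hcl
  have key : ∀ t ∈ T, t ∈ S → y ∈ T := by
    intro t ht htS
    have := h.2 (S ∩ T) Set.inter_subset_left ⟨t, htS, ht⟩ (by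
      intro a ha b hb hab
      exact ⟨hb, hcl a ha.2 b (Set.mem_insert_of_mem _ hb) hab⟩) hy
    exact this.2
  rcases hTS ht with rfl | htS
  · exact hcl _ ht y (Set.mem_insert_of_mem _ hy) hxy.symm
  · exact key t ht htS

theorem Cn.singleton (r : V) : Cn G {r} := by
  refine Cn.of_root rfl ?_
  rintro T hT ⟨t, ht⟩ _
  rw [← Set.mem_singleton_iff.1 (hT ht)]
  exact ht

/-- the only consequence of the definition that is used -/
theorem DistanceHereditary.common (hG : DistanceHereditary G) {S : Set V} (hS : Cn G S) {u v w : V}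
    (hu : u ∈ S) (hv : v ∈ S) (hne : u ≠ v) (hna : ¬ G.Adj u v) (h1 : G.Adj u w)
    (h2 : G.Adj w v) : ∃ z ∈ S, G.Adj u z ∧ G.Adj z v := by
  rw [cn_iff] at hS
  have hd : (G.induce S).dist ⟨u, hu⟩ ⟨v, hv⟩ ≤ 2 := by
    rw [hG S hS]
    exact SimpleGraph.dist_le (SimpleGraph.Walk.cons h1 (SimpleGraph.Walk.cons h2
      SimpleGraph.Walk.nil))
  obtain ⟨p, hp⟩ := hS.exists_walk_length_eq_dist ⟨u, hu⟩ ⟨v, hv⟩
  rw [← hp] at hd
  generalize hu' : (⟨u, hu⟩ : S) = u' at p
  generalize hv' : (⟨v, hv⟩ : S) = v' at p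
  match p with
  | SimpleGraph.Walk.nil =>
    exfalso
    apply hne
    have := hu'.trans hv'.symm
    exact congrArg Subtype.val this
  | SimpleGraph.Walk.cons h SimpleGraph.Walk.nil =>
    exfalso
    apply hna
    subst hu' hv'
    exact h
  | SimpleGraph.Walk.cons (v := z) h (SimpleGraph.Walk.cons h' SimpleGraph.Walk.nil) =>
    subst hu' hv'
    exact ⟨z.1, z.2, h, h'⟩
  | SimpleGraph.Walk.cons h (SimpleGraph.Walk.cons h' (SimpleGraph.Walk.cons h'' q)) =>
    simp at hd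

/-- a potential which descends inside `S` computes the distances in `S` and in `G` -/
theorem dist_of_potential {S : Set V} (hS : (G.induce S).Connected) (f : V → ℕ) (u : S)
    (h0 : f u.1 = 0) (hlip : ∀ a b, G.Adj a b → f b ≤ f a + 1)
    (hdesc : ∀ y ∈ S, y ≠ u.1 → ∃ z ∈ S, G.Adj z y ∧ f z < f y) (v : S) :
    (G.induce S).dist u v = G.dist u.1 v.1 := by
  have hup : ∀ n, ∀ v : S, f v.1 = n → (G.induce S).dist u v ≤ n := by
    intro n
    induction n using Nat.strong_induction_on with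
    | _ n ih =>
      intro v hv
      by_cases huv : v = u
      · subst huv
        simp
      · obtain ⟨z, hz, hzv, hlt⟩ := hdesc v.1 v.2 (fun h => huv (Subtype.ext h))
        have h1 := ih (f z) (by omega) ⟨z, hz⟩ rfl
        have h2 : (G.induce S).dist ⟨z, hz⟩ v ≤ 1 := by
          have : (G.induce S).Adj ⟨z, hz⟩ v := hzv
          exact (SimpleGraph.dist_eq_one_iff_adj.2 this).le
        have h3 := hS.dist_triangle (u := u) (v := ⟨z, hz⟩) (w := v)
        omega
  have hw : ∀ (a b : V) (p : G.Walk a b), f b ≤ f a + p.length := by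
    intro a b p
    induction p with
    | nil => simp
    | cons h p ih =>
      have := hlip _ _ h
      rw [SimpleGraph.Walk.length_cons]
      omega
  obtain ⟨p, hp⟩ := hS.exists_walk_length_eq_dist u v
  let q : G.Walk u.1 v.1 := p.map (SimpleGraph.Embedding.induce S).toHom
  have hq : q.length = p.length := SimpleGraph.Walk.length_map _ _
  have h1 : G.dist u.1 v.1 ≤ (G.induce S).dist u v := by
    rw [← hp, ← hq]
    exact SimpleGraph.dist_le q
  have h2 : f v.1 ≤ G.dist u.1 v.1 := by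
    obtain ⟨p', hp'⟩ := SimpleGraph.Reachable.exists_walk_length_eq_dist ⟨q⟩
    have := hw _ _ p'
    omega
  have h3 := hup _ v rfl
  omega

/-- the splits: rank one -/
def Rk (G : SimpleGraph V) (A B : Set V) : Prop :=
  ∀ a ∈ A, ∀ b ∈ A, ∀ y ∈ B, ∀ z ∈ B, G.Adj a y → G.Adj b z → G.Adj a z

theorem Rk.symm {A B : Set V} (h : Rk G A B) : Rk G B A := by
  intro a ha b hb y hy z hz hay hbz
  exact (h z hz y hy b hb a ha hbz.symm hay.symm).symm

/-- the components of the non-neighbours -/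
theorem rk_component (hG : DistanceHereditary G) {S : Set V} (hS : Cn G S) {u x y : V}
    (hu : u ∈ S) (hx : x ∈ S) (hy : y ∈ S) (hux : ¬ G.Adj u x) (huy : ¬ G.Adj u y) (hux' : x ≠ u)
    (huy' : y ≠ u) (hxy : G.Adj x y) :
    ∃ C ⊆ S, x ∈ C ∧ y ∈ C ∧ u ∉ C ∧ (∃ z ∈ S, z ≠ u ∧ z ∉ C) ∧ Rk G C (S \ C) := by
  let N : Set V := {z | z ∈ S ∧ ¬ G.Adj u z ∧ z ≠ u}
  let C : Set V := {z | z ∈ N ∧ ∀ T : Set V, x ∈ T → (∀ a ∈ T, ∀ b ∈ N, G.Adj a b → b ∈ T) → z ∈ T}
  have hxN : x ∈ N := ⟨hx, hux, hux'⟩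
  have hyN : y ∈ N := ⟨hy, huy, huy'⟩
  have hxC : x ∈ C := ⟨hxN, fun T hT _ => hT⟩
  have hCcl : ∀ a ∈ C, ∀ b ∈ N, G.Adj a b → b ∈ C := by
    intro a ha b hb hab
    exact ⟨hb, fun T hT hcl => hcl a (ha.2 T hT hcl) b hb hab⟩
  have hyC : y ∈ C := hCcl x hxC y hyN hxy
  have hCcn : Cn G C := by
    refine Cn.of_root hxC ?_
    rintro T hTC ⟨t, ht⟩ hcl
    by_contra hxT
    have : t ∈ C \ T := by
      refine (hTC ht).2 (C \ T) ⟨hxC, hxT⟩ ?_
      intro a ha b hb hab
      refine ⟨hCcl a ha.1 b hb hab, fun hbT => ha.2 (hcl b hbT a ha.1 hab.symm)⟩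
    exact this.2 ht
  have hCS : C ⊆ S := fun z hz => hz.1.1
  have huC : u ∉ C := fun h => h.1.2.2 rfl
  have hnb : ∀ a ∈ C, ∀ b ∈ S, b ∉ C → G.Adj a b → G.Adj u b := by
    intro a ha b hb hbC hab
    by_contra hub
    apply hbC
    refine hCcl a ha b ⟨hb, hub, ?_⟩ hab
    rintro rfl
    exact ha.1.2.1 hab.symm
  refine ⟨C, hCS, hxC, hyC, huC, ?_, ?_⟩
  · obtain ⟨a, haS, haC, b, hbS, hbC, hab⟩ := hS.cross hx hxC hu huC
    refine ⟨b, hbS, ?_, hbC⟩
    rintro rfl
    exact haC.1.2.1 hab.symm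
  · intro a ha b hb v hv z hz hav hbz
    have huv := hnb a ha v hv.1 hv.2 hav
    have huz := hnb b hb z hz.1 hz.2 hbz
    have hcz : Cn G (insert z C) := hCcn.insert hb hbz
    have hcu : Cn G (insert u (insert z C)) := hcz.insert (Set.mem_insert _ _) huz.symm
    obtain ⟨w, hw, haw, hwu⟩ := hG.common hcu (Set.mem_insert_of_mem _ (Set.mem_insert_of_mem _ ha))
      (Set.mem_insert _ _) ha.1.2.2 (fun h => ha.1.2.1 h.symm) hav huv.symm
    rcases hw with rfl | rfl | hw
    · exact absurd hwu (G.irrefl)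
    · exact haw
    · exact absurd hwu.symm hw.1.2.1

theorem exists_split [DecidableEq V] (hG : DistanceHereditary G) {S : Finset V}
    (hS : Cn G (S : Set V)) (h4 : 4 ≤ S.card) :
    ∃ A ⊆ S, 2 ≤ A.card ∧ 2 ≤ (S \ A).card ∧ Rk G (A : Set V) ((S \ A : Finset V) : Set V) := by
  classical
  by_cases h : ∃ u ∈ S, ∃ x ∈ S, ∃ y ∈ S, ¬ G.Adj u x ∧ ¬ G.Adj u y ∧ x ≠ u ∧ y ≠ u ∧ G.Adj x y
  · obtain ⟨u, hu, x, hx, y, hy, h1, h2, h3, h4, h5⟩ := h
    obtain ⟨C, hCS, hxC, hyC, huC, ⟨z, hzS, hzu, hzC⟩, hrk⟩ :=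
      rk_component hG hS (Finset.mem_coe.2 hu) (Finset.mem_coe.2 hx) (Finset.mem_coe.2 hy)
        h1 h2 h3 h4 h5
    refine ⟨S.filter (· ∈ C), Finset.filter_subset _ _, ?_, ?_, ?_⟩
    · have : ({x, y} : Finset V) ⊆ S.filter (· ∈ C) := by
        intro w hw
        rw [Finset.mem_insert, Finset.mem_singleton] at hw
        rcases hw with rfl | rfl
        · exact Finset.mem_filter.2 ⟨hx, hxC⟩
        · exact Finset.mem_filter.2 ⟨hy, hyC⟩
      have hc := Finset.card_le_card this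
      rwa [Finset.card_pair h5.ne] at hc
    · have : ({u, z} : Finset V) ⊆ S \ S.filter (· ∈ C) := by
        intro w hw
        rw [Finset.mem_insert, Finset.mem_singleton] at hw
        rcases hw with rfl | rfl
        · simp [hu, huC]
        · simp [Finset.mem_coe.1 hzS, hzC]
      have hc := Finset.card_le_card this
      rwa [Finset.card_pair hzu.symm] at hc
    · have e1 : ((S.filter (· ∈ C) : Finset V) : Set V) = C := by
        ext w
        simp only [Finset.coe_filter, Set.mem_ofPred_eq]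
        exact ⟨fun h => h.2, fun h => ⟨hCS h, h⟩⟩
      have e2 : ((S \ S.filter (· ∈ C) : Finset V) : Set V) = (S : Set V) \ C := by
        rw [Finset.coe_sdiff, e1]
      rw [e1, e2]
      exact hrk
  · push Not at h
    by_cases h' : ∃ a ∈ S, ∃ b ∈ S, a ≠ b ∧ ¬ G.Adj a b
    · obtain ⟨a, ha, b, hb, hab, hna⟩ := h'
      have hsub : ({a, b} : Finset V) ⊆ S := by
        intro w hw
        rw [Finset.mem_insert, Finset.mem_singleton] at hw
        rcases hw with rfl | rfl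
        · exact ha
        · exact hb
      refine ⟨{a, b}, hsub, (Finset.card_pair hab).ge, ?_, ?_⟩
      · rw [Finset.card_sdiff_of_subset hsub, Finset.card_pair hab]
        omega
      · have key : ∀ a b : V, a ∈ S → b ∈ S → a ≠ b → ¬ G.Adj a b → ∀ z ∈ S, G.Adj b z →
            G.Adj a z := by
          intro a b ha hb hab hna z hz hbz
          by_contra haz
          by_cases hza : z = a
          · subst hza
            exact hna hbz.symm
          · exact h a ha b hb z hz hna haz hab.symm hza hbz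
        intro x hx y hy v hv z hz _ hyz
        simp only [Finset.coe_insert, Finset.coe_singleton, Set.mem_insert_iff,
          Set.mem_singleton_iff] at hx hy
        have hzS : z ∈ S := (Finset.mem_sdiff.1 (Finset.mem_coe.1 hz)).1
        rcases hx with rfl | rfl <;> rcases hy with rfl | rfl
        · exact hyz
        · exact key _ _ ha hb hab hna z hzS hyz
        · exact key _ _ hb ha hab.symm (fun h => hna h.symm) z hzS hyz
        · exact hyz
    · push Not at h'
      obtain ⟨A, hAS, hA⟩ := Finset.exists_subset_card_eq (s := S) (n := 2) (by omega)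
      refine ⟨A, hAS, hA.ge, ?_, ?_⟩
      · rw [Finset.card_sdiff_of_subset hAS]
        omega
      · intro x hx y hy v hv z hz _ _
        have hz' := Finset.mem_sdiff.1 (Finset.mem_coe.1 hz)
        refine h' x (hAS (Finset.mem_coe.1 hx)) z hz'.1 ?_
        rintro rfl
        exact hz'.2 (Finset.mem_coe.1 hx)

end Q213.DH
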