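import Pool.Agent.Q213.DHModel
import Pool.Agent.Q213.DHConn

/-!
# The model graph is vertex-transitive and distance-hereditary
-/

namespace Q213.DH

/-- embedding of the whole tree in the part of the trunk beyond a node -/
def sub (h : P → P) : List P → List P
  | [] => []
  | b :: y => h b :: y

/-- exchange of the two sides of the node `p` -/
noncomputable def swp (p : P) (g h : P → P) : List P → List P
  | [] => [p]
  | a :: x => if a < p then a :: x else if a = p then sub h x else p :: g a :: x

section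

variable {p : P} {g h : P → P} (hhg : ∀ a, p < a → h (g a) = a) (hh : ∀ b, p < h b)
  (hgh : ∀ b, g (h b) = b) (hmono : ∀ a a', p < a → p < a' → (g a < g a' ↔ a < a'))
  (hcol : ∀ a, p < a → col (g a) = col a) (hp : col p ≠ .L)

include hh hgh hcol in
theorem col_h (b : P) : col (h b) = col b := by
  rw [← hcol (h b) (hh b), hgh]

include hh hgh hmono in
theorem h_lt {b b' : P} : h b < h b' ↔ b < b' := by
  rw [← hmono _ _ (hh b) (hh b'), hgh, hgh]

include hgh in
theorem h_inj {b b' : P} : h b = h b' ↔ b = b' :=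
  ⟨fun e => by rw [← hgh b, e, hgh], fun e => by rw [e]⟩

include hh hgh hcol in
theorem nL_sub {x : List P} : nL (sub h x) ↔ nL x := by
  cases x with
  | nil => simp [sub]
  | cons b y => simp [sub, col_h hh hgh hcol]

include hh hgh hmono hcol in
theorem adj_sub {x y : List P} : adj (sub h x) (sub h y) ↔ adj x y := by
  cases x with
  | nil =>
    cases y with
    | nil => exact Iff.rfl
    | cons b y => simp [sub, adj, col_h hh hgh hcol]
  | cons a x =>
    cases y with
    | nil => simp [sub, adj, col_h hh hgh hcol]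
    | cons b y =>
      simp only [sub, adj, h_lt hh hgh hmono, h_inj hgh, col_h hh hgh hcol, nL_cons]

include hh hgh hcol in
theorem adj_sub_p {x y : List P} : adj (sub h x) (p :: y) ↔ col p ≠ .U ∧ nL y ∧ nL x := by
  cases x with
  | nil => simp [sub, adj]
  | cons a x =>
    rw [sub, adj_cons_gt (hh a)]
    simp [col_h hh hgh hcol]

include hh hgh hcol in
theorem adj_sub_lt {a : P} (ha : a < p) {x z : List P} :
    adj (sub h x) (a :: z) ↔ col a ≠ .U ∧ nL z ∧ nL x := by
  cases x with
  | nil => simp [sub, adj]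
  | cons b x =>
    rw [sub, adj_cons_gt (ha.trans (hh b))]
    simp [col_h hh hgh hcol]

include hhg in
theorem swp_cases (x : List P) : (∃ a y, a < p ∧ x = a :: y) ∨ (∃ z, x = sub h z) ∨
    (∃ z, x = p :: z) := by
  cases x with
  | nil => exact Or.inr (Or.inl ⟨[], rfl⟩)
  | cons a x =>
    rcases lt_trichotomy a p with h1 | h1 | h1
    · exact Or.inl ⟨a, x, h1, rfl⟩
    · exact Or.inr (Or.inr ⟨x, by rw [h1]⟩)
    · exact Or.inr (Or.inl ⟨g a :: x, by rw [sub, hhg a h1]⟩)

theorem swp_lt {a : P} (ha : a < p) (y : List P) : swp p g h (a :: y) = a :: y := by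
  simp [swp, ha]

theorem swp_p (z : List P) : swp p g h (p :: z) = sub h z := by
  simp [swp]

include hh hgh in
theorem swp_sub (z : List P) : swp p g h (sub h z) = p :: z := by
  cases z with
  | nil => rfl
  | cons b z => simp [swp, sub, (hh b).not_gt, (hh b).ne', hgh]

include hh hgh hhg in
theorem swp_swp (x : List P) : swp p g h (swp p g h x) = x := by
  rcases swp_cases (p := p) hhg x with ⟨a, y, ha, rfl⟩ | ⟨z, rfl⟩ | ⟨z, rfl⟩
  · rw [swp_lt ha, swp_lt ha]
  · rw [swp_sub hh hgh, swp_p]
  · rw [swp_p, swp_sub hh hgh]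

include hhg hh hgh hcol hp in
theorem nL_swp (x : List P) : nL (swp p g h x) ↔ nL x := by
  rcases swp_cases (p := p) hhg x with ⟨a, y, ha, rfl⟩ | ⟨z, rfl⟩ | ⟨z, rfl⟩
  · rw [swp_lt ha]
  · rw [swp_sub hh hgh, nL_sub hh hgh hcol]
    simp [hp]
  · rw [swp_p, nL_sub hh hgh hcol]
    simp [hp]

include hhg hh hgh hmono hcol hp in
theorem adj_swp (x y : List P) : adj x y → adj (swp p g h x) (swp p g h y) := by
  rcases swp_cases (p := p) hhg x with ⟨a, x', ha, rfl⟩ | ⟨z, rfl⟩ | ⟨z, rfl⟩ <;>
  rcases swp_cases (p := p) hhg y with ⟨b, y', hb, rfl⟩ | ⟨w, rfl⟩ | ⟨w, rfl⟩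
  · rw [swp_lt ha, swp_lt hb]
    exact id
  · rw [swp_lt ha, swp_sub hh hgh, adj_comm, adj_sub_lt hh hgh hcol ha, adj_cons_lt ha]
    simp only [nL_cons]
    tauto
  · rw [swp_lt ha, swp_p, adj_comm (y := sub h w), adj_sub_lt hh hgh hcol ha, adj_cons_lt ha]
    simp only [nL_cons]
    tauto
  · rw [swp_lt hb, swp_sub hh hgh, adj_sub_lt hh hgh hcol hb, adj_cons_gt hb]
    simp only [nL_cons]
    tauto
  · rw [swp_sub hh hgh, swp_sub hh hgh, adj_sub hh hgh hmono hcol, adj_cons_self]
    exact id
  · rw [swp_sub hh hgh, swp_p, adj_sub_p hh hgh hcol, adj_comm, adj_sub_p hh hgh hcol]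
    tauto
  · rw [swp_lt hb, swp_p, adj_sub_lt hh hgh hcol hb, adj_cons_gt hb]
    simp only [nL_cons]
    tauto
  · rw [swp_sub hh hgh, swp_p, adj_sub_p hh hgh hcol, adj_comm, adj_sub_p hh hgh hcol]
    tauto
  · rw [swp_p, swp_p, adj_sub hh hgh hmono hcol, adj_cons_self]
    exact id

end

/-- automorphisms from involutions -/
def autOf (f : Option (List P) → Option (List P)) (hf : Function.Involutive f)
    (hadj : ∀ u v, X.Adj u v → X.Adj (f u) (f v)) : X ≃g X where
  toEquiv := hf.toPerm
  map_rel_iff' := by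
    intro u v
    constructor
    · intro h
      have := hadj _ _ h
      simpa [hf u, hf v] using this
    · exact hadj u v

/-- swapping -/
theorem exists_swap (p : P) (hp : col p ≠ .L) : ∃ (φ : X ≃g X) (h : P → P),
    (∀ x, nL (sub h x) ↔ nL x) ∧ φ none = none ∧ ∀ x, φ (some (p :: x)) = some (sub h x) := by
  obtain ⟨g, h, hhg, hh, hgh, hmono, hcol⟩ := exists_shift p
  refine ⟨autOf (Option.map (swp p g h)) ?_ ?_, h, fun x => nL_sub hh hgh hcol, rfl, ?_⟩
  · rintro (_ | x)
    · rfl
    · simp [swp_swp hhg hh hgh]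
  · rintro (_ | x) (_ | y) hxy
    · exact hxy
    · exact (nL_swp hhg hh hgh hcol hp y).2 hxy
    · exact (nL_swp hhg hh hgh hcol hp x).2 hxy
    · exact adj_swp hhg hh hgh hmono hcol hp x y hxy
  · intro x
    change some (swp p g h (p :: x)) = _
    rw [swp_p]

/-- turning the trunk upside down -/
noncomputable def flip : Option (List P) → Option (List P)
  | none => some []
  | some [] => none
  | some (p :: z) => some (theta p :: z)

theorem flip_flip : Function.Involutive flip := by
  rintro (_ | _ | ⟨p, z⟩)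
  · rfl
  · rfl
  · simp [flip, theta_theta]

theorem flip_adj : ∀ u v, X.Adj u v → X.Adj (flip u) (flip v) := by
  rintro (_ | _ | ⟨p, z⟩) (_ | _ | ⟨q, w⟩) h
  · exact h
  · simp [flip]
  · simp only [flip, X_some_some, adj, col_theta, ne_eq, Col.sw_eq_U]
    simpa using h
  · simp [flip]
  · exact h
  · simp only [flip, X_none_some, nL_cons, ne_eq, col_theta, Col.sw_eq_L]
    exact h
  · simp only [flip, X_some_some, adj, col_theta, ne_eq, Col.sw_eq_U]
    simpa using h
  · simp only [flip, X_some_none, nL_cons, ne_eq, col_theta, Col.sw_eq_L]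
    exact h
  · simp only [flip, X_some_some, adj, col_theta, ne_eq, Col.sw_eq_U, Col.sw_eq_L, theta_lt,
      theta_inj, nL_cons] at h ⊢
    tauto

theorem exists_flip : ∃ φ : X ≃g X, φ (some []) = none :=
  ⟨autOf flip flip_flip flip_adj, rfl⟩

/-- in the orbit of the root -/
def Orb (u : Option (List P)) : Prop := ∃ φ : X ≃g X, φ u = none

theorem Orb.of_iso {u : Option (List P)} (φ : X ≃g X) (h : Orb (φ u)) : Orb u := by
  obtain ⟨ψ, hψ⟩ := h
  exact ⟨φ.trans ψ, hψ⟩

theorem orb_nL : ∀ (n : ℕ) (x : List P), x.length = n → nL x → Orb (some x)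
  | 0, [], _, _ => exists_flip
  | n + 1, p :: x, hn, hx => by
    rw [nL_cons] at hx
    obtain ⟨φ, h, hs, _, h2⟩ := exists_swap p hx.1
    refine Orb.of_iso φ ?_
    rw [h2]
    refine orb_nL n (sub h x) ?_ ((hs x).2 hx.2)
    have hn' : x.length = n := by simpa using hn
    cases x <;> simpa [sub] using hn'

theorem Orb.adj {u v : Option (List P)} (hu : Orb u) (huv : X.Adj u v) : Orb v := by
  obtain ⟨φ, hφ⟩ := hu
  have h := φ.map_rel_iff.2 huv
  refine Orb.of_iso φ ?_
  generalize φ v = w at h
  rw [hφ] at h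
  cases w with
  | none => exact absurd h X_none_none
  | some x => exact orb_nL _ x rfl h

theorem exists_last_L : ∀ {x : List P}, ¬ nL x → ∃ s p t, x = s ++ p :: t ∧ col p = .L ∧ nL t
  | [] => fun h => absurd nL_nil h
  | a :: x => by
    intro h
    by_cases hx : nL x
    · refine ⟨[], a, x, rfl, ?_, hx⟩
      by_contra ha
      exact h (nL_cons.2 ⟨ha, hx⟩)
    · obtain ⟨s, p, t, rfl, h1, h2⟩ := exists_last_L hx
      exact ⟨a :: s, p, t, rfl, h1, h2⟩

theorem orb_all (u : Option (List P)) : Orb u := by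
  have key : ∀ (n : ℕ) (x : List P), x.length = n → Orb (some x) := by
    intro n
    induction n using Nat.strong_induction_on with
    | _ n ih =>
      intro x hx
      by_cases h : nL x
      · exact orb_nL _ x rfl h
      · obtain ⟨s, p, t, rfl, h1, h2⟩ := exists_last_L h
        refine (ih s.length ?_ s rfl).adj (v := some (s ++ p :: t)) ?_
        · rw [← hx]
          simp
        · rw [X_some_some]
          have := adj_append s (x := []) (y := p :: t)
          rw [List.append_nil] at this
          rw [this]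
          simp [Q213.DH.adj, h1, h2]
  cases u with
  | none => exact ⟨RelIso.refl _, rfl⟩
  | some x => exact key _ x rfl

theorem X_transitive (u v : Option (List P)) : ∃ φ : X ≃g X, φ u = v := by
  obtain ⟨φ, hφ⟩ := orb_all u
  obtain ⟨ψ, hψ⟩ := orb_all v
  refine ⟨φ.trans ψ.symm, ?_⟩
  rw [RelIso.trans_apply, hφ, ← hψ, RelIso.symm_apply_apply]

/-- number of letters of colour `L` -/
def lc (x : List P) : ℕ := x.countP (fun p => decide (col p = .L))

@[simp] theorem lc_nil : lc [] = 0 := rfl

theorem lc_cons (a : P) (x : List P) : lc (a :: x) = lc x + if col a = .L then 1 else 0 := by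
  simp [lc, List.countP_cons]

theorem lc_append (x y : List P) : lc (x ++ y) = lc x + lc y := by
  simp [lc, List.countP_append]

theorem nL_lc {x : List P} (h : nL x) : lc x = 0 := by
  rw [lc, List.countP_eq_zero]
  intro p hp
  simpa using h p hp

theorem lc_adj : ∀ {x y : List P}, adj x y → lc y ≤ lc x + 1
  | [], [] => fun h => absurd h (fun h => h)
  | [], b :: y => by
    intro h
    simp only [adj] at h
    rw [lc_cons, nL_lc h.2]
    split_ifs <;> omega
  | a :: x, [] => by simp
  | a :: x, b :: y => by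
    intro h
    simp only [adj] at h
    rcases h with ⟨h1, h2⟩ | ⟨h1, h2, h3, h4⟩ | ⟨h1, h2, h3, h4⟩
    · subst h1
      have := lc_adj h2
      rw [lc_cons, lc_cons]
      omega
    · rw [nL_lc h4]
      omega
    · rw [lc_cons, nL_lc h3]
      split_ifs <;> omega

theorem cross_L {p : P} (hp : col p = .L) {t t1 : List P} (ht : nL t) : ∀ {s z : List P},
    adj (s ++ p :: t1) z → (∀ t', z ≠ s ++ p :: t') → adj (s ++ p :: t) z ∧ lc z ≤ lc s
  | [], [] => by
    intro h _
    simp only [List.nil_append, adj] at h ⊢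
    exact ⟨⟨h.1, ht⟩, le_rfl⟩
  | [], b :: z => by
    intro h hne
    simp only [List.nil_append, adj] at h ⊢
    rcases h with ⟨h1, h2⟩ | ⟨h1, h2, h3, h4⟩ | ⟨h1, h2, h3, h4⟩
    · subst h1
      exact absurd rfl (hne z)
    · exact ⟨Or.inr (Or.inl ⟨h1, h2, ht, h4⟩), by rw [nL_lc h4]; omega⟩
    · rw [nL_cons] at h4
      exact absurd hp h4.1
  | a :: s, [] => by
    intro h _
    simp only [List.cons_append, adj, nL_append, nL_cons] at h
    exact absurd hp h.2.2.1
  | a :: s, b :: z => by
    intro h hne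
    simp only [List.cons_append, adj, nL_append, nL_cons] at h
    rcases h with ⟨h1, h2⟩ | ⟨h1, h2, h3, h4⟩ | ⟨h1, h2, h3, h4⟩
    · subst h1
      obtain ⟨h3, h4⟩ := cross_L hp ht h2 (fun t' e => hne t' (by rw [e]; rfl))
      refine ⟨?_, ?_⟩
      · rw [List.cons_append, adj_cons_self]
        exact h3
      · rw [lc_cons, lc_cons]
        omega
    · exact absurd hp h3.2.1
    · exact absurd hp h4.2.2.1

/-- distance from the root -/
def ht : Option (List P) → ℕ
  | none => 0
  | some x => 1 + lc x

theorem ht_lip : ∀ u v, X.Adj u v → ht v ≤ ht u + 1 := by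
  rintro (_ | x) (_ | y) h
  · exact absurd h X_none_none
  · rw [X_none_some] at h
    simp [ht, nL_lc h]
  · simp [ht]
  · have := lc_adj (X_some_some.1 h)
    simp only [ht]
    omega

theorem X_dh : DistanceHereditary X := by
  intro S hS u v
  obtain ⟨φ, hφ⟩ := orb_all u.1
  refine dist_of_potential hS (fun w => ht (φ w)) u (by simp [hφ, ht]) ?_ ?_ v
  · intro a b hab
    exact ht_lip _ _ (φ.map_rel_iff.2 hab)
  · intro y hy hyu
    obtain ⟨x, hx⟩ : ∃ x, φ y = some x := by
      cases hxy : φ y with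
      | none =>
        exfalso
        apply hyu
        apply φ.injective
        rw [hφ, hxy]
      | some x => exact ⟨x, rfl⟩
    by_cases hn : nL x
    · refine ⟨u.1, u.2, ?_, ?_⟩
      · rw [← φ.map_rel_iff, hφ, hx]
        exact hn
      · simp [hφ, hx, ht]
    · obtain ⟨s, p, t, rfl, h1, h2⟩ := exists_last_L hn
      have hcn := cn_iff.2 hS
      obtain ⟨a, haS, ⟨t1, ht1⟩, b, hbS, hbT, hab⟩ := hcn.cross (T := {z | ∃ t', φ z =
        some (s ++ p :: t')}) hy ⟨t, hx⟩ u.2 (by
          rintro ⟨t', ht'⟩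
          rw [hφ] at ht'
          exact absurd ht' (by simp))
      rw [← φ.map_rel_iff, ht1] at hab
      cases hb : φ b with
      | none =>
        rw [hb, X_some_none, nL_append, nL_cons] at hab
        exact absurd h1 hab.2.1
      | some z =>
        rw [hb, X_some_some] at hab
        obtain ⟨h3, h4⟩ := cross_L h1 h2 hab (fun t' e => hbT ⟨t', by rw [hb, e]⟩)
        refine ⟨b, hbS, ?_, ?_⟩
        · rw [← φ.map_rel_iff, hx, hb]
          exact adj_symm _ _ h3
        · simp only [hb, hx, ht, lc_append, lc_cons, h1, if_true]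
          omega

end Q213.DH
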