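import Pool.Agent.Q213.DHFin

/-!
# Adding one vertex to a representation
-/

namespace Q213.DH

variable {V : Type*} {G : SimpleGraph V}

/-- `w` turns off `x` at a node of colour `κ` and has no further turns -/
structure Turn (κ : Col) (x w : List P) : Prop where
  u : lU x w ↔ κ = .U
  l : lS w x ↔ κ = .L
  n : ¬ lS x w
  t : ∀ z, sep x w < sep w z → ¬ lS w z
  ne : x ≠ w

theorem Turn.cons {κ : Col} {x w : List P} (h : Turn κ x w) (a : P) :
    Turn κ (a :: x) (a :: w) := by
  refine ⟨?_, ?_, ?_, ?_, ?_⟩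
  · simpa [lU] using h.u
  · simpa [lS] using h.l
  · simpa [lS] using h.n
  · intro z hz
    cases z with
    | nil => simp [sep] at hz
    | cons b z =>
      by_cases hab : a = b
      · subst hab
        have := h.t z (by simpa [sep] using hz)
        simpa [lS] using this
      · simp [sep, hab] at hz
  · intro e
    exact h.ne (by simpa using e)

theorem Turn.head {κ : Col} {x : List P} {p : P} (hp : col p = κ)
    (h : ∀ a y, x = a :: y → p < a) : Turn κ x [p] ∧ sep x [p] = hd p := by
  cases x with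
  | nil =>
    refine ⟨⟨?_, ?_, ?_, ?_, by simp⟩, rfl⟩
    · simp [lU, hp]
    · simp [lS, hp]
    · simp [lS]
    · intro z hz
      cases z with
      | nil => simp [sep] at hz
      | cons b z =>
        by_cases hab : p = b
        · subst hab
          simp [lS]
        · simp only [sep, hab, if_false, hd_lt_hd] at hz
          exact absurd hz (min_le_left _ _).not_gt
  | cons a x =>
    have hpa := h a x rfl
    have hs : sep (a :: x) [p] = hd p := by simp [sep, hpa.ne', hpa.le]
    refine ⟨⟨?_, ?_, ?_, ?_, ?_⟩, hs⟩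
    · simp [lU, hpa.ne', hpa.le, hp]
    · simp [lS, hpa.ne, hpa, hp]
    · simp [lS, hpa.ne', hpa.not_gt]
    · rw [hs]
      intro z hz
      cases z with
      | nil => simp [sep] at hz
      | cons b z =>
        by_cases hab : p = b
        · subst hab
          simp [lS]
        · simp only [sep, hab, if_false, hd_lt_hd] at hz
          exact absurd hz (min_le_left _ _).not_gt
    · simp [hpa.ne']

theorem exists_lt_col (q : P) (κ : Col) : ∃ p, col p = κ ∧ p < q := by
  obtain ⟨p, h1, _, h3⟩ := rich_P ∅ {q} (by simp) κ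
  exact ⟨p, h1, h3 q (by simp)⟩

theorem exists_gt_col (q : P) (κ : Col) : ∃ p, col p = κ ∧ q < p := by
  obtain ⟨p, h1, h2, _⟩ := rich_P {q} ∅ (by simp) κ
  exact ⟨p, h1, h2 q (by simp)⟩

theorem exists_btw_col {q q' : P} (h : q < q') (κ : Col) : ∃ p, col p = κ ∧ q < p ∧ p < q' := by
  obtain ⟨p, h1, h2, h3⟩ := rich_P {q} {q'} (by simpa using h) κ
  exact ⟨p, h1, h2 q (by simp), h3 q' (by simp)⟩

theorem ins0 (κ : Col) (x b : List P) : ∃ w, Turn κ x w ∧ sep x w < sep x b := by
  cases x with
  | nil =>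
    cases b with
    | nil =>
      obtain ⟨p, hp, _⟩ := rich_P ∅ ∅ (by simp) κ
      obtain ⟨h1, h2⟩ := Turn.head (x := []) hp (by simp)
      exact ⟨[p], h1, by rw [h2]; simp [sep]⟩
    | cons q b =>
      obtain ⟨p, hp, hpq⟩ := exists_lt_col q κ
      obtain ⟨h1, h2⟩ := Turn.head (x := []) hp (by simp)
      exact ⟨[p], h1, by rw [h2]; simpa [sep] using hpq⟩
  | cons a x =>
    cases b with
    | nil =>
      obtain ⟨p, hp, hpq⟩ := exists_lt_col a κ
      obtain ⟨h1, h2⟩ := Turn.head (x := a :: x) hp (by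
        intro a' y e
        rw [List.cons.injEq] at e
        rw [← e.1]
        exact hpq)
      exact ⟨[p], h1, by rw [h2]; simpa [sep] using hpq⟩
    | cons q b =>
      obtain ⟨p, hp, hpq⟩ := exists_lt_col (min a q) κ
      obtain ⟨h1, h2⟩ := Turn.head (x := a :: x) hp (by
        intro a' y e
        rw [List.cons.injEq] at e
        rw [← e.1]
        exact lt_of_lt_of_le hpq (min_le_left _ _))
      refine ⟨[p], h1, ?_⟩
      rw [h2]
      by_cases haq : a = q
      · simp [sep, haq]
      · simp only [sep, haq, if_false, hd_lt_hd]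
        exact hpq

theorem ins (κ : Col) : ∀ {x c b : List P}, sep x c < sep x b →
    ∃ w, Turn κ x w ∧ sep x c < sep x w ∧ sep x w < sep x b
  | [], [], b => by
    intro h
    rw [sep_self] at h
    exact absurd h not_top_lt
  | [], q :: c, [] => by
    intro _
    obtain ⟨p, hp, hpq⟩ := exists_gt_col q κ
    obtain ⟨h1, h2⟩ := Turn.head (x := []) hp (by simp)
    exact ⟨[p], h1, by rw [h2]; simpa [sep] using hpq, by rw [h2]; simp [sep]⟩
  | [], q :: c, q' :: b => by
    intro h
    simp only [sep, hd_lt_hd] at h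
    obtain ⟨p, hp, hpq, hpq'⟩ := exists_btw_col h κ
    obtain ⟨h1, h2⟩ := Turn.head (x := []) hp (by simp)
    exact ⟨[p], h1, by rw [h2]; simpa [sep] using hpq, by rw [h2]; simpa [sep] using hpq'⟩
  | a :: x, c, b => by
    intro h
    -- the lower bound is below the first turn or beyond it
    have hc : (∃ c', c = a :: c') ∨ ∃ q, q ≤ a ∧ sep (a :: x) c = hd q := by
      cases c with
      | nil => exact Or.inr ⟨a, le_rfl, rfl⟩
      | cons q c =>
        by_cases haq : a = q
        · exact Or.inl ⟨c, by rw [haq]⟩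
        · exact Or.inr ⟨min a q, min_le_left _ _, by simp [sep, haq]⟩
    have hb : (∃ b', b = a :: b') ∨ ∃ q, q ≤ a ∧ sep (a :: x) b = hd q := by
      cases b with
      | nil => exact Or.inr ⟨a, le_rfl, rfl⟩
      | cons q c =>
        by_cases haq : a = q
        · exact Or.inl ⟨c, by rw [haq]⟩
        · exact Or.inr ⟨min a q, min_le_left _ _, by simp [sep, haq]⟩
    rcases hc with ⟨c', rfl⟩ | ⟨q, hq, hcq⟩
    · rcases hb with ⟨b', rfl⟩ | ⟨q, hq, hbq⟩
      · have h' : sep x c' < sep x b' := by simpa [sep] using h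
        obtain ⟨w, h1, h2, h3⟩ := ins κ h'
        exact ⟨a :: w, h1.cons a, by simpa [sep] using h2, by simpa [sep] using h3⟩
      · rw [hbq] at h
        simp [sep] at h
    · rcases hb with ⟨b', rfl⟩ | ⟨q', hq', hbq⟩
      · obtain ⟨w, h1, h2⟩ := ins0 κ x b'
        refine ⟨a :: w, h1.cons a, ?_, by simpa [sep] using h2⟩
        rw [hcq]
        simp [sep]
      · rw [hcq, hbq, hd_lt_hd] at h
        obtain ⟨p, hp, hpq, hpq'⟩ := exists_btw_col h κ
        obtain ⟨h1, h2⟩ := Turn.head (x := a :: x) hp (by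
          intro a' y e
          rw [List.cons.injEq] at e
          rw [← e.1]
          exact lt_of_lt_of_le hpq' hq')
        refine ⟨[p], h1, ?_, ?_⟩
        · rw [h2, hcq]
          simpa using hpq
        · rw [h2, hbq]
          simpa using hpq'

/-! ### relations with a new word -/

section

variable {a v x y z : List P}

theorem w_out (hz : sep a z < sep a v) : sep v z = sep a z ∧ (lU v z ↔ lU a z) ∧
    (lS v z ↔ lS a z) ∧ (lS z v ↔ lS z a) := by
  rw [sep_comm a z] at hz
  obtain ⟨h1, h2, h3, h4⟩ := coh hz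
  refine ⟨?_, ?_, h4, h3⟩
  · rw [sep_comm v z, h1, sep_comm]
  · rw [lU_comm v z, h2, lU_comm]

theorem w_in (hz : sep a v < sep a z) : sep v z = sep a v ∧ (lU v z ↔ lU a v) ∧
    (lS v z ↔ lS v a) ∧ (lS z v ↔ lS a v) := by
  rw [sep_comm a v] at hz
  obtain ⟨h1, h2, h3, h4⟩ := coh hz
  refine ⟨?_, ?_, h3, h4⟩
  · rw [h1, sep_comm]
  · rw [h2, lU_comm]

theorem in_in (hx : sep a v < sep a x) (hy : sep a v < sep a y) : sep a v < sep x y := by
  by_contra hcon
  push Not at hcon
  have h1 : sep x y < sep y a := by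
    rw [sep_comm y a]
    exact lt_of_le_of_lt hcon hy
  obtain ⟨h2, _⟩ := coh h1
  rw [sep_comm x a] at h2
  rw [h2] at hx
  exact absurd hx hcon.not_gt

theorem in_out (hx : sep a v < sep a x) (hy : sep a y < sep a v) : sep x y = sep a y :=
  (w_out (hy.trans hx)).1

theorem l_i (hy : sep a y ≠ sep a v) (hz : sep a z ≠ sep a v) :
    sep v z < sep v y ↔ ¬ sep a v < sep a z ∧ sep a z < sep a y := by
  rcases lt_or_gt_of_ne hy with hy | hy <;> rcases lt_or_gt_of_ne hz with hz | hz
  · rw [(w_out hy).1, (w_out hz).1]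
    simp [hz.not_gt]
  · rw [(w_out hy).1, (w_in hz).1]
    simp [hz, hy.le]
  · rw [(w_in hy).1, (w_out hz).1]
    simp [hz.not_gt, hz, hz.trans hy]
  · rw [(w_in hy).1, (w_in hz).1]
    simp [hz]

theorem l_ii (hx : sep a x ≠ sep a v) (hz : sep a z ≠ sep a v) :
    sep x z < sep x v ↔ ¬ sep a v < sep a z ∧ sep x z < sep x a := by
  rw [sep_comm x v, sep_comm x a]
  rcases lt_or_gt_of_ne hx with hx | hx <;> rcases lt_or_gt_of_ne hz with hz | hz
  · rw [(w_out hx).1]
    simp [hz.not_gt]
  · rw [(w_out hx).1]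
    have : sep x z = sep a x := by
      rw [sep_comm x z]
      exact in_out hz hx
    simp [this]
  · rw [(w_in hx).1, in_out hx hz]
    simp [hz.not_gt, hz, hz.trans hx]
  · rw [(w_in hx).1]
    simp [hz, (in_in hx hz).le]

theorem l_iii (hx : sep a x ≠ sep a v) (hy : sep a y ≠ sep a v) :
    sep x v < sep x y ↔ sep x a < sep x y ∨ (sep a v < sep a x ∧ sep a v < sep a y) := by
  rw [sep_comm x v, sep_comm x a]
  rcases lt_or_gt_of_ne hx with hx | hx <;> rcases lt_or_gt_of_ne hy with hy | hy
  · rw [(w_out hx).1]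
    simp [hx.not_gt]
  · rw [(w_out hx).1]
    simp [hx.not_gt]
  · rw [(w_in hx).1, in_out hx hy]
    simp [hy.not_gt, (hy.trans hx).le]
  · rw [(w_in hx).1]
    simp [hx, hy, in_in hx hy]

end

/-- the two functions define the same structure on `T` -/
structure Eqv (T : Finset V) (e e' : V → List P) : Prop where
  c : ∀ x ∈ T, ∀ y ∈ T, ∀ z ∈ T,
    (sep (e x) (e z) < sep (e x) (e y) ↔ sep (e' x) (e' z) < sep (e' x) (e' y))
  u : ∀ x ∈ T, ∀ y ∈ T, (lU (e x) (e y) ↔ lU (e' x) (e' y))
  l : ∀ x ∈ T, ∀ y ∈ T, (lS (e x) (e y) ↔ lS (e' x) (e' y))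

/-- the `L`-turns are witnessed in `T` -/
def Wit (T : Finset V) (e : V → List P) : Prop :=
  ∀ x ∈ T, ∀ w, lS (e x) w → ∃ y ∈ T, sep (e x) (e y) = sep (e x) w

theorem sep_lt_top {x y : List P} (h : x ≠ y) : sep x y < ⊤ :=
  lt_top_iff_ne_top.2 (fun h' => h (sep_eq_top h'))

theorem lS_ne {x w : List P} (h : lS x w) : x ≠ w := by
  rintro rfl
  exact lS_self _ h

theorem lS_of_sep {x y w : List P} (h : lS x w) (h' : sep x y = sep x w) : lS x y := by
  have h1 := binary h'.symm (lS_ne h)
  exact (coh h1).2.2.1.2 h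

theorem Eqv.ne {T : Finset V} {e e' : V → List P} (h : Eqv T e e') {x y : V} (hx : x ∈ T)
    (hy : y ∈ T) : e x ≠ e y ↔ e' x ≠ e' y := by
  have key : ∀ e : V → List P, (e x ≠ e y ↔ sep (e x) (e y) < sep (e x) (e x)) := by
    intro e
    rw [sep_self]
    constructor
    · exact sep_lt_top
    · intro h1 h2
      rw [h2, sep_self] at h1
      exact lt_irrefl _ h1
  rw [key e, key e']
  exact h.c x hx x hx y hy

theorem Eqv.adj {T : Finset V} {e e' : V → List P} (h : Eqv T e e') (hW : Wit T e)
    (hW' : Wit T e') {x y : V} (hx : x ∈ T) (hy : y ∈ T) :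
    Q213.DH.adj (e x) (e y) ↔ Q213.DH.adj (e' x) (e' y) := by
  have key : ∀ e : V → List P, Wit T e → (Q213.DH.adj (e x) (e y) ↔ e x ≠ e y ∧
      ¬ lU (e x) (e y) ∧ (∀ w ∈ T, sep (e x) (e y) < sep (e x) (e w) → ¬ lS (e x) (e w)) ∧
      (∀ w ∈ T, sep (e y) (e x) < sep (e y) (e w) → ¬ lS (e y) (e w))) := by
    intro e hW
    rw [adj_iff, sep_comm (e y) (e x)]
    refine and_congr_right fun _ => and_congr_right fun _ => and_congr ?_ ?_
    · constructor
      · intro h w _
        exact h (e w)
      · intro h w hw hS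
        obtain ⟨z, hz, hzw⟩ := hW x hx w hS
        exact h z hz (by rw [hzw]; exact hw) (lS_of_sep hS hzw)
    · constructor
      · intro h w _
        exact h (e w)
      · intro h w hw hS
        obtain ⟨z, hz, hzw⟩ := hW y hy w hS
        exact h z hz (by rw [hzw]; exact hw) (lS_of_sep hS hzw)
  rw [key e hW, key e' hW']
  refine and_congr (h.ne hx hy) (and_congr (not_congr (h.u x hx y hy)) (and_congr ?_ ?_))
  · refine forall₂_congr fun w hw => ?_
    rw [h.c x hx w hw y hy, h.l x hx w hw]
  · refine forall₂_congr fun w hw => ?_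
    rw [h.c y hy w hw x hx, h.l y hy w hw]

theorem Eqv.nL {T : Finset V} {e e' : V → List P} (h : Eqv T e e') (hW : Wit T e)
    (hW' : Wit T e') {x : V} (hx : x ∈ T) : Q213.DH.nL (e x) ↔ Q213.DH.nL (e' x) := by
  have key : ∀ e : V → List P, Wit T e → (Q213.DH.nL (e x) ↔ ∀ w ∈ T, ¬ lS (e x) (e w)) := by
    intro e hW
    rw [nL_iff]
    constructor
    · intro h w _
      exact h (e w)
    · intro h w hS
      obtain ⟨z, hz, hzw⟩ := hW x hx w hS
      exact h z hz (lS_of_sep hS hzw)
  rw [key e hW, key e' hW']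
  refine forall₂_congr fun w hw => ?_
  rw [h.l x hx w hw]

theorem Rep.wit [DecidableEq V] {S : Finset V} {r : V} {e : V → List P}
    (h : Rep G (S : Set V) r e) (hr : r ∈ S) (hS : Cn G (S : Set V)) : Wit (S.erase r) e := by
  intro x hx w hw
  by_contra hcon
  push Not at hcon
  rw [Finset.mem_erase] at hx
  obtain ⟨z, hzS, ⟨hzr, hz⟩, z', hz'S, hz'T, hadj⟩ := hS.cross (a := x) (b := r)
    (T := {z | z ≠ r ∧ sep (e x) w < sep (e x) (e z)}) (Finset.mem_coe.2 hx.2)
    ⟨hx.1, by rw [sep_self]; exact sep_lt_top (lS_ne hw)⟩ (Finset.mem_coe.2 hr)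
    (fun h => h.1 rfl)
  have hco := coh (x := w) (y := e x) (z := e z) (by rw [sep_comm w]; exact hz)
  have hS' : lS (e z) w := hco.2.2.2.2 hw
  by_cases hz'r : z' = r
  · subst hz'r
    have := (h.root z hzS hzr).1 hadj.symm
    rw [nL_iff] at this
    exact this w hS'
  · have h1 : sep (e x) (e z') < sep (e x) w := by
      have h2 : ¬ sep (e x) w < sep (e x) (e z') := fun h => hz'T ⟨hz'r, h⟩
      exact lt_of_le_of_ne (not_lt.1 h2)
        (hcon z' (Finset.mem_erase.2 ⟨hz'r, Finset.mem_coe.1 hz'S⟩))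
    have h3 := (w_out (a := e x) (v := e z) (z := e z') (h1.trans hz)).1
    have h4 := (h.adj z hzS z' hz'S hzr hz'r).1 hadj
    rw [adj_iff] at h4
    refine h4.2.2.1 w ?_ hS'
    rw [h3, sep_comm (e z) w, hco.1, sep_comm w]
    exact h1

theorem ext_step [DecidableEq V] {T : Finset V} {v : V} (hv : v ∉ T) {e e' : V → List P}
    (hE : Eqv T e e') (hW : Wit T e) (hW' : Wit T e') (hne : ∀ a ∈ T, e' a ≠ e' v) :
    ∃ e'', (∀ x ∈ T, e'' x = e x) ∧ Eqv (insert v T) e'' e' ∧ Wit (insert v T) e'' := by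
  rcases T.eq_empty_or_nonempty with rfl | hT
  · refine ⟨fun _ => [], by simp, ⟨?_, ?_, ?_⟩, ?_⟩
    · simp [sep_self]
    · simp [lU_self]
    · simp [lS_self]
    · simp [Wit, lS]
  · obtain ⟨a, ha, hmax⟩ := Finset.exists_max_image T (fun z => sep (e' z) (e' v)) hT
    -- facts in the old world
    have hne' : ∀ z ∈ T, sep (e' a) (e' z) ≠ sep (e' a) (e' v) := by
      intro z hz h
      have h1 := binary h.symm (hne a ha)
      rw [sep_comm (e' v) (e' z)] at h1
      exact absurd (hmax z hz) (not_le.2 h1)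
    have hnS : ¬ lS (e' a) (e' v) := by
      intro h
      obtain ⟨y, hy, hy'⟩ := hW' a ha _ h
      exact hne' y hy hy'
    obtain ⟨κ, hκU, hκL⟩ : ∃ κ : Col, (κ = .U ↔ lU (e' a) (e' v)) ∧
        (κ = .L ↔ lS (e' v) (e' a)) := by
      by_cases h1 : lU (e' a) (e' v)
      · refine ⟨.U, by simp [h1], ?_⟩
        have : ¬ lS (e' v) (e' a) := fun h => lS_not_lU h ((lU_comm _ _).1 h1)
        simp [this]
      · by_cases h2 : lS (e' v) (e' a)
        · exact ⟨.L, by simp [h1], by simp [h2]⟩
        · exact ⟨.K, by simp [h1], by simp [h2]⟩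
    -- the new word
    obtain ⟨w, hw, hin⟩ : ∃ w, Turn κ (e a) w ∧ ∀ z ∈ T,
        sep (e a) (e z) ≠ sep (e a) w ∧
        (sep (e a) w < sep (e a) (e z) ↔ sep (e' a) (e' v) < sep (e' a) (e' z)) := by
      obtain ⟨b, hb, hbmin⟩ := Finset.exists_min_image
        (T.filter (fun z => sep (e' a) (e' v) < sep (e' a) (e' z)))
        (fun z => sep (e a) (e z)) ⟨a, by
          rw [Finset.mem_filter]
          exact ⟨ha, by rw [sep_self]; exact sep_lt_top (hne a ha)⟩⟩
      rw [Finset.mem_filter] at hb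
      by_cases hlo : (T.filter (fun z => ¬ sep (e' a) (e' v) < sep (e' a) (e' z))).Nonempty
      · obtain ⟨c, hc, hcmax⟩ := Finset.exists_max_image _ (fun z => sep (e a) (e z)) hlo
        rw [Finset.mem_filter] at hc
        have hlt : sep (e a) (e c) < sep (e a) (e b) := by
          rw [hE.c a ha b hb.1 c hc.1]
          exact lt_of_le_of_lt (not_lt.1 hc.2) hb.2
        obtain ⟨w, h1, h2, h3⟩ := ins κ hlt
        refine ⟨w, h1, ?_⟩
        intro z hz
        by_cases hzB : sep (e' a) (e' v) < sep (e' a) (e' z)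
        · have h4 : sep (e a) w < sep (e a) (e z) :=
            lt_of_lt_of_le h3 (hbmin z (Finset.mem_filter.2 ⟨hz, hzB⟩))
          exact ⟨h4.ne', by simp [h4, hzB]⟩
        · have h4 : sep (e a) (e z) < sep (e a) w :=
            lt_of_le_of_lt (hcmax z (Finset.mem_filter.2 ⟨hz, hzB⟩)) h2
          exact ⟨h4.ne, by simp [h4.not_gt, hzB]⟩
      · obtain ⟨w, h1, h3⟩ := ins0 κ (e a) (e b)
        refine ⟨w, h1, ?_⟩
        intro z hz
        have hzB : sep (e' a) (e' v) < sep (e' a) (e' z) := by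
          by_contra h
          exact hlo ⟨z, Finset.mem_filter.2 ⟨hz, h⟩⟩
        have h4 : sep (e a) w < sep (e a) (e z) :=
          lt_of_lt_of_le h3 (hbmin z (Finset.mem_filter.2 ⟨hz, hzB⟩))
        exact ⟨h4.ne', by simp [h4, hzB]⟩
    have hinn : ∀ z ∈ T, sep (e a) (e z) ≠ sep (e a) w := fun z hz => (hin z hz).1
    have hini : ∀ z ∈ T, (sep (e a) w < sep (e a) (e z) ↔
        sep (e' a) (e' v) < sep (e' a) (e' z)) := fun z hz => (hin z hz).2
    have hwne : ∀ z ∈ T, e z ≠ w := by
      rintro z hz h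
      exact hinn z hz (by rw [h])
    have heT : ∀ z ∈ T, Function.update e v w z = e z := by
      intro z hz
      rw [Function.update_of_ne]
      rintro rfl
      exact hv hz
    have hev : Function.update e v w v = w := Function.update_self _ _ _
    refine ⟨Function.update e v w, heT, ⟨?_, ?_, ?_⟩, ?_⟩
    · intro x hx y hy z hz
      rw [Finset.mem_insert] at hx hy hz
      rcases hx with rfl | hx <;> rcases hy with rfl | hy <;> rcases hz with rfl | hz
      · simp
      · rw [hev, heT z hz, sep_self, sep_self]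
        simp [sep_lt_top (hwne z hz).symm, sep_lt_top (hne z hz).symm]
      · rw [hev, sep_self, sep_self]
        simp
      · rw [hev, heT y hy, heT z hz, l_i (hinn y hy) (hinn z hz), l_i (hne' y hy) (hne' z hz),
          hini z hz, hE.c a ha y hy z hz]
      · simp
      · rw [hev, heT x hx, heT z hz, l_ii (hinn x hx) (hinn z hz), l_ii (hne' x hx) (hne' z hz),
          hini z hz, hE.c x hx a ha z hz]
      · rw [hev, heT x hx, heT y hy, l_iii (hinn x hx) (hinn y hy), l_iii (hne' x hx) (hne' y hy),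
          hini x hx, hini y hy, hE.c x hx y hy a ha]
      · rw [heT x hx, heT y hy, heT z hz]
        exact hE.c x hx y hy z hz
    · have key : ∀ z ∈ T, (lU w (e z) ↔ lU (e' v) (e' z)) := by
        intro z hz
        by_cases hzB : sep (e' a) (e' v) < sep (e' a) (e' z)
        · rw [(w_in ((hini z hz).2 hzB)).2.1, (w_in hzB).2.1, hw.u, hκU]
        · have h1 : sep (e' a) (e' z) < sep (e' a) (e' v) :=
            lt_of_le_of_ne (not_lt.1 hzB) (hne' z hz)
          have h2 : sep (e a) (e z) < sep (e a) w :=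
            lt_of_le_of_ne (not_lt.1 (fun h => hzB ((hini z hz).1 h))) (hinn z hz)
          rw [(w_out h1).2.1, (w_out h2).2.1]
          exact hE.u a ha z hz
      intro x hx y hy
      rw [Finset.mem_insert] at hx hy
      rcases hx with rfl | hx <;> rcases hy with rfl | hy
      · simp [lU_self]
      · rw [hev, heT y hy]
        exact key y hy
      · rw [hev, heT x hx, lU_comm, lU_comm (e' x)]
        exact key x hx
      · rw [heT x hx, heT y hy]
        exact hE.u x hx y hy
    · have key : ∀ z ∈ T, (lS w (e z) ↔ lS (e' v) (e' z)) ∧ (lS (e z) w ↔ lS (e' z) (e' v)) := by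
        intro z hz
        by_cases hzB : sep (e' a) (e' v) < sep (e' a) (e' z)
        · have h1 := w_in ((hini z hz).2 hzB)
          have h2 := w_in hzB
          rw [h1.2.2.1, h2.2.2.1, h1.2.2.2, h2.2.2.2, hw.l, hκL]
          exact ⟨Iff.rfl, by simp [hw.n, hnS]⟩
        · have h1 : sep (e' a) (e' z) < sep (e' a) (e' v) :=
            lt_of_le_of_ne (not_lt.1 hzB) (hne' z hz)
          have h2 : sep (e a) (e z) < sep (e a) w :=
            lt_of_le_of_ne (not_lt.1 (fun h => hzB ((hini z hz).1 h))) (hinn z hz)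
          rw [(w_out h1).2.2.1, (w_out h2).2.2.1, (w_out h1).2.2.2, (w_out h2).2.2.2]
          exact ⟨hE.l a ha z hz, hE.l z hz a ha⟩
      intro x hx y hy
      rw [Finset.mem_insert] at hx hy
      rcases hx with rfl | hx <;> rcases hy with rfl | hy
      · simp [lS_self]
      · rw [hev, heT y hy]
        exact (key y hy).1
      · rw [hev, heT x hx]
        exact (key x hx).2
      · rw [heT x hx, heT y hy]
        exact hE.l x hx y hy
    · intro x hx u hu
      rw [Finset.mem_insert] at hx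
      rcases hx with rfl | hx
      · rw [hev] at hu ⊢
        rcases lt_trichotomy (sep w u) (sep (e a) w) with h | h | h
        · have h1 : sep (e a) u = sep w u ∧ (lS (e a) u ↔ lS w u) := by
            have := w_out (a := w) (v := e a) (z := u) (by rw [sep_comm w (e a)]; exact h)
            exact ⟨this.1, this.2.2.1⟩
          obtain ⟨y, hy, hyu⟩ := hW a ha u (h1.2.2 hu)
          refine ⟨y, Finset.mem_insert_of_mem hy, ?_⟩
          rw [heT y hy, ← h1.1, ← hyu]
          refine (w_out ?_).1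
          rw [hyu, h1.1]
          exact h
        · refine ⟨a, Finset.mem_insert_of_mem ha, ?_⟩
          rw [heT a ha, h, sep_comm]
        · exact absurd hu (hw.t u h)
      · rw [heT x hx] at hu ⊢
        obtain ⟨y, hy, hyu⟩ := hW x hx u hu
        exact ⟨y, Finset.mem_insert_of_mem hy, by rw [heT y hy]; exact hyu⟩

end Q213.DH
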