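import Pool.Agent.Q213.DHModel
import Pool.Agent.Q213.DHConn

/-!
# Finite connected induced subgraphs of distance-hereditary graphs embed in the model
-/

namespace Q213.DH

variable {V : Type*} {G : SimpleGraph V}

/-- `e` represents the induced subgraph on `S` with the vertex `r` placed at the root -/
structure Rep (G : SimpleGraph V) (S : Set V) (r : V) (e : V → List P) : Prop where
  root : ∀ x ∈ S, x ≠ r → (G.Adj r x ↔ nL (e x))
  inj : ∀ x ∈ S, ∀ y ∈ S, x ≠ r → y ≠ r → e x = e y → x = y
  adj : ∀ x ∈ S, ∀ y ∈ S, x ≠ r → y ≠ r → (G.Adj x y ↔ Q213.DH.adj (e x) (e y))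

theorem adj_insert {p : P} (hK : col p = .K) {t : List P} : ∀ {s y : List P}, y ≠ s →
    (∀ q t', y = s ++ q :: t' → q < p) → (adj (s ++ p :: t) y ↔ adj s y ∧ nL t)
  | [], [] => fun h => absurd rfl h
  | [], b :: y => by
    intro _ h
    have hb : b < p := h b y rfl
    rw [List.nil_append, adj_cons_gt hb]
    simp only [adj, nL_cons, hK]
    simp only [ne_eq, reduceCtorEq, not_false_eq_true, true_and]
    tauto
  | a :: s, [] => by
    intro _ _
    simp only [List.cons_append, adj, nL_append, nL_cons, hK]
    simp only [ne_eq, reduceCtorEq, not_false_eq_true, true_and]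
    tauto
  | a :: s, b :: y => by
    intro hne h
    rw [List.cons_append]
    rcases lt_trichotomy a b with h1 | h1 | h1
    · rw [adj_cons_lt h1, adj_cons_lt h1]
      simp only [nL_append, nL_cons, hK]
      simp only [ne_eq, reduceCtorEq, not_false_eq_true, true_and]
      tauto
    · subst h1
      rw [adj_cons_self, adj_cons_self]
      exact adj_insert hK (fun e => hne (by rw [e])) (fun q t' e => h q t' (by rw [e]; rfl))
    · rw [adj_cons_gt h1, adj_cons_gt h1]
      simp only [nL_append, nL_cons, hK]
      simp only [ne_eq, reduceCtorEq, not_false_eq_true, true_and]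
      tauto

theorem rep_three [DecidableEq V] {S : Finset V} {r x y : V} (hS : Cn G (S : Set V))
    (hr : r ∈ S) (hxy : x ≠ y) (he : S.erase r = {x, y}) (h : G.Adj r x) :
    ∃ e, Rep G (S : Set V) r e := by
  have hmem : ∀ z ∈ S, z ≠ r → z = x ∨ z = y := by
    intro z hz hzr
    have : z ∈ S.erase r := Finset.mem_erase.2 ⟨hzr, hz⟩
    rw [he] at this
    simpa using this
  have hy : y ∈ S.erase r := by rw [he]; simp
  rw [Finset.mem_erase] at hy
  have hcol : ∃ k : Col, (k ≠ .L ↔ G.Adj r y) ∧ (k ≠ .U ↔ G.Adj x y) := by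
    by_cases h1 : G.Adj r y
    · by_cases h2 : G.Adj x y
      · exact ⟨.K, by simp [h1], by simp [h2]⟩
      · exact ⟨.U, by simp [h1], by simp [h2]⟩
    · refine ⟨.L, by simp [h1], ?_⟩
      obtain ⟨a, haS, haT, b, hbS, hbT, hab⟩ := hS.cross (T := {y}) (Finset.mem_coe.2 hy.2) rfl
        (Finset.mem_coe.2 hr) (fun h => hy.1 h.symm)
      rw [Set.mem_singleton_iff] at haT hbT
      subst haT
      by_cases hbr : b = r
      · subst hbr
        exact absurd hab.symm h1
      · rcases hmem b hbS hbr with rfl | rfl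
        · simp [hab.symm]
        · exact absurd rfl hbT
  obtain ⟨k, hk1, hk2⟩ := hcol
  obtain ⟨p, hp, _⟩ := rich_P ∅ ∅ (by simp) k
  refine ⟨fun z => if z = y then [p] else [], ?_, ?_, ?_⟩
  · intro z hz hzr
    rcases hmem z hz hzr with rfl | rfl
    · simp [hxy, h]
    · simp [hp, hk1]
  · intro z hz w hw hzr hwr hzw
    rcases hmem z hz hzr with rfl | rfl <;> rcases hmem w hw hwr with rfl | rfl
    · rfl
    · simp [hxy] at hzw
    · simp [hxy] at hzw
    · rfl
  · intro z hz w hw hzr hwr
    rcases hmem z hz hzr with rfl | rfl <;> rcases hmem w hw hwr with rfl | rfl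
    · simp [hxy, Q213.DH.adj]
    · simp [hxy, Q213.DH.adj, hp, hk2]
    · rw [G.adj_comm]
      simp [hxy, Q213.DH.adj, hp, hk2]
    · simp [adj_irrefl]

theorem cn_side {S A B : Set V} (hS : Cn G S) (hAB : S = A ∪ B) (hrk : Rk G A B) {a b : V}
    (ha : a ∈ A) (hb : b ∈ B) (hab : G.Adj a b) : Cn G (insert b A) := by
  refine Cn.of_root (Set.mem_insert _ _) ?_
  intro T hT hne hcl
  by_contra hbT
  have hTA : T ⊆ A := by
    intro t ht
    rcases hT ht with rfl | h
    · exact absurd ht hbT
    · exact h
  have : S ⊆ T := by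
    refine hS.2 T (fun t ht => by rw [hAB]; exact Or.inl (hTA ht)) hne ?_
    intro x hx y hy hxy
    rw [hAB] at hy
    rcases hy with hy | hy
    · exact hcl x hx y (Set.mem_insert_of_mem _ hy) hxy
    · exfalso
      apply hbT
      exact hcl x hx b (Set.mem_insert _ _) (hrk x (hTA hx) a ha y hy b hb hxy hab)
  exact hbT (this (by rw [hAB]; exact Or.inr hb))

theorem rep_glue [DecidableEq V] {S A B : Finset V} {r : V} (hS : Cn G (S : Set V))
    (hAB : S = A ∪ B) (hdis : Disjoint A B) (hrB : r ∈ B) (hA : 2 ≤ A.card) (hB : 2 ≤ B.card)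
    (hrk : Rk G (A : Set V) (B : Set V))
    (ih : ∀ T : Finset V, T.card < S.card → ∀ r ∈ T, Cn G (T : Set V) →
      ∃ e, Rep G (T : Set V) r e) :
    ∃ e, Rep G (S : Set V) r e := by
  have hAB' : (S : Set V) = (A : Set V) ∪ (B : Set V) := by rw [hAB, Finset.coe_union]
  have hnot : ∀ z, z ∈ A → z ∉ B := fun z hz hz' => (Finset.disjoint_left.1 hdis) hz hz'
  obtain ⟨a0, ha0⟩ : A.Nonempty := Finset.card_pos.1 (by omega)
  obtain ⟨a, _, haA, b, hbS, hbA, hab⟩ := hS.cross (T := (A : Set V))
    (a := a0) (b := r) (by rw [hAB']; exact Or.inl ha0) ha0 (by rw [hAB']; exact Or.inr hrB)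
    (fun h => hnot r h hrB)
  have hbB : b ∈ B := by
    rw [hAB'] at hbS
    rcases hbS with h | h
    · exact absurd h hbA
    · exact h
  have haA' : a ∈ A := haA
  have hcard : S.card = A.card + B.card := by rw [hAB, Finset.card_union_of_disjoint hdis]
  have c1 : Cn G ((insert b A : Finset V) : Set V) := by
    rw [Finset.coe_insert]
    exact cn_side hS hAB' hrk haA hbB hab
  have c2 : Cn G ((insert a B : Finset V) : Set V) := by
    rw [Finset.coe_insert]
    exact cn_side hS (hAB'.trans (Set.union_comm _ _)) hrk.symm hbB haA hab.symm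
  obtain ⟨e1, h1⟩ := ih (insert b A) (by
    have := Finset.card_insert_le b A
    omega) b (Finset.mem_insert_self _ _) c1
  obtain ⟨e2, h2⟩ := ih (insert a B) (by
    have := Finset.card_insert_le a B
    omega) r (Finset.mem_insert_of_mem hrB) c2
  obtain ⟨p, hpK, hp1, _⟩ := rich_P (B.biUnion (fun y => (e2 y).toFinset)) ∅ (by simp) .K
  have hbig : ∀ y ∈ B, ∀ q t', e2 y = e2 a ++ q :: t' → q < p := by
    intro y hy q t' h
    refine hp1 q ?_
    rw [Finset.mem_biUnion]
    refine ⟨y, hy, ?_⟩
    rw [h]
    simp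
  have har : a ≠ r := by
    rintro rfl
    exact hnot _ haA' hrB
  have hcross : ∀ x ∈ A, ∀ y ∈ B, (G.Adj x y ↔ G.Adj x b ∧ G.Adj a y) := by
    intro x hx y hy
    constructor
    · intro h
      exact ⟨hrk x hx a haA y hy b hbB h hab, hrk a haA x hx b hbB y hy hab h⟩
    · rintro ⟨h, h'⟩
      exact hrk x hx a haA b hbB y hy h h'
  have hkey : ∀ x ∈ A, ∀ y ∈ B, y ≠ r →
      (G.Adj x y ↔ Q213.DH.adj (e2 a ++ p :: e1 x) (e2 y)) := by
    intro x hx y hy hyr
    have hya : y ≠ a := by
      rintro rfl
      exact hnot _ haA' hy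
    have hxb : x ≠ b := by
      rintro rfl
      exact hnot _ hx hbB
    rw [hcross x hx y hy, adj_insert hpK ?_ (hbig y hy)]
    · rw [← h2.adj a (by simp) y (by simp [hy]) har hyr, ← h1.root x (by simp [hx]) hxb,
        G.adj_comm b x, and_comm]
    · intro h
      exact hya (h2.inj y (by simp [hy]) a (by simp) hyr har h)
  have hmem : ∀ z ∈ (S : Set V), z ∈ A ∨ z ∈ B := by
    intro z hz
    rw [hAB'] at hz
    exact hz
  have hAf : ∀ z ∈ A, (if z ∈ A then e2 a ++ p :: e1 z else e2 z) = e2 a ++ p :: e1 z := by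
    intro z hz
    rw [if_pos hz]
  have hBf : ∀ z ∈ B, (if z ∈ A then e2 a ++ p :: e1 z else e2 z) = e2 z := by
    intro z hz
    rw [if_neg (fun h => hnot z h hz)]
  refine ⟨fun z => if z ∈ A then e2 a ++ p :: e1 z else e2 z, ?_, ?_, ?_⟩
  · intro x hx hxr
    rcases hmem x hx with hx | hx
    · simp only [hAf x hx]
      have hxb : x ≠ b := by
        rintro rfl
        exact hnot _ hx hbB
      rw [G.adj_comm, hcross x hx r hrB, nL_append, nL_cons, ← h2.root a (by simp) har,
        ← h1.root x (by simp [hx]) hxb, G.adj_comm b x, G.adj_comm r a, hpK]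
      simp [and_comm]
    · simp only [hBf x hx]
      exact h2.root x (by simp [hx]) hxr
  · intro x hx y hy hxr hyr hxy
    rcases hmem x hx with hx | hx <;> rcases hmem y hy with hy | hy
    · simp only [hAf x hx, hAf y hy, List.append_cancel_left_eq, List.cons.injEq, true_and] at hxy
      refine h1.inj x (by simp [hx]) y (by simp [hy]) ?_ ?_ hxy
      · rintro rfl
        exact hnot _ hx hbB
      · rintro rfl
        exact hnot _ hy hbB
    · simp only [hAf x hx, hBf y hy] at hxy
      exact absurd (hbig y hy _ _ hxy.symm) (lt_irrefl _)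
    · simp only [hAf y hy, hBf x hx] at hxy
      exact absurd (hbig x hx _ _ hxy) (lt_irrefl _)
    · simp only [hBf x hx, hBf y hy] at hxy
      exact h2.inj x (by simp [hx]) y (by simp [hy]) hxr hyr hxy
  · intro x hx y hy hxr hyr
    rcases hmem x hx with hx | hx <;> rcases hmem y hy with hy | hy
    · simp only [hAf x hx, hAf y hy]
      rw [adj_append, adj_cons_self]
      refine h1.adj x (by simp [hx]) y (by simp [hy]) ?_ ?_
      · rintro rfl
        exact hnot _ hx hbB
      · rintro rfl
        exact hnot _ hy hbB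
    · simp only [hAf x hx, hBf y hy]
      exact hkey x hx y hy hyr
    · simp only [hAf y hy, hBf x hx]
      rw [adj_comm, G.adj_comm]
      exact hkey y hy x hx hxr
    · simp only [hBf x hx, hBf y hy]
      exact h2.adj x (by simp [hx]) y (by simp [hy]) hxr hyr

theorem fin_rep (hG : DistanceHereditary G) : ∀ (n : ℕ) (S : Finset V), S.card = n → ∀ r ∈ S,
    Cn G (S : Set V) → ∃ e, Rep G (S : Set V) r e := by
  classical
  intro n
  induction n using Nat.strong_induction_on with
  | _ n ih =>
    intro S hn r hr hS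
    by_cases h4 : 4 ≤ S.card
    · obtain ⟨A, hAS, hA, hB, hrk⟩ := exists_split hG hS h4
      have ih' : ∀ T : Finset V, T.card < S.card → ∀ r ∈ T, Cn G (T : Set V) →
          ∃ e, Rep G (T : Set V) r e := fun T hT r hr hc => ih T.card (by omega) T rfl r hr hc
      by_cases hrA : r ∈ A
      · refine rep_glue (A := S \ A) (B := A) hS ?_ ?_ hrA hB hA hrk.symm ih'
        · rw [Finset.sdiff_union_of_subset hAS]
        · exact Finset.sdiff_disjoint
      · refine rep_glue (A := A) (B := S \ A) hS ?_ ?_ (Finset.mem_sdiff.2 ⟨hr, hrA⟩) hA hB hrk ih'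
        · rw [Finset.union_sdiff_of_subset hAS]
        · exact Finset.disjoint_sdiff
    · have hc : (S.erase r).card ≤ 2 := by
        rw [Finset.card_erase_of_mem hr]
        omega
      have h012 : (S.erase r).card = 0 ∨ (S.erase r).card = 1 ∨ (S.erase r).card = 2 := by omega
      rcases h012 with h | h | h
      · rw [Finset.card_eq_zero] at h
        have hmem : ∀ z ∈ (S : Set V), z = r := by
          intro z hz
          by_contra hzr
          have : z ∈ S.erase r := Finset.mem_erase.2 ⟨hzr, hz⟩
          rw [h] at this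
          simp at this
        refine ⟨fun _ => [], ?_, ?_, ?_⟩
        · intro x hx hxr
          exact absurd (hmem x hx) hxr
        · intro x hx y hy hxr
          exact absurd (hmem x hx) hxr
        · intro x hx y hy hxr
          exact absurd (hmem x hx) hxr
      · rw [Finset.card_eq_one] at h
        obtain ⟨x, hx⟩ := h
        have hmem : ∀ z ∈ S, z ≠ r → z = x := by
          intro z hz hzr
          have : z ∈ S.erase r := Finset.mem_erase.2 ⟨hzr, hz⟩
          rw [hx] at this
          simpa using this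
        have hxS : x ∈ S.erase r := by rw [hx]; simp
        rw [Finset.mem_erase] at hxS
        have hadj : G.Adj r x := by
          obtain ⟨a, haS, haT, b, hbS, hbT, hab⟩ := hS.cross (T := {r}) (Finset.mem_coe.2 hr) rfl
            (Finset.mem_coe.2 hxS.2) (fun h => hxS.1 h)
          rw [Set.mem_singleton_iff] at haT hbT
          rw [haT, hmem b hbS hbT] at hab
          exact hab
        refine ⟨fun _ => [], ?_, ?_, ?_⟩
        · intro z hz hzr
          rw [hmem z hz hzr]
          simp [hadj]
        · intro z hz w hw hzr hwr _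
          rw [hmem z hz hzr, hmem w hw hwr]
        · intro z hz w hw hzr hwr
          rw [hmem z hz hzr, hmem w hw hwr]
          simp [adj_irrefl]
      · rw [Finset.card_eq_two] at h
        obtain ⟨x, y, hxy, he⟩ := h
        have hmem : ∀ z ∈ S, z ≠ r → z = x ∨ z = y := by
          intro z hz hzr
          have : z ∈ S.erase r := Finset.mem_erase.2 ⟨hzr, hz⟩
          rw [he] at this
          simpa using this
        have hxS : x ∈ S.erase r := by rw [he]; simp
        rw [Finset.mem_erase] at hxS
        obtain ⟨a, haS, haT, b, hbS, hbT, hab⟩ := hS.cross (T := {r}) (Finset.mem_coe.2 hr) rfl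
          (Finset.mem_coe.2 hxS.2) (fun h => hxS.1 h)
        rw [Set.mem_singleton_iff] at haT hbT
        subst haT
        rcases hmem b hbS hbT with rfl | rfl
        · exact rep_three hS hr hxy he hab
        · exact rep_three hS hr hxy.symm (he.trans (Finset.pair_comm _ _)) hab

end Q213.DH
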