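import Pool.Agent.Q213.DHExt

/-!
# Countable distance-hereditary graphs embed in the model
-/

namespace Q213.DH

variable {V : Type*} {G : SimpleGraph V}

/-- limits of coherent sequences of functions -/
theorem exists_limit {V X : Type*} [Inhabited X] (F : ℕ → Finset V) (hF : Monotone F)
    (Q : ℕ → (V → X) → Prop) (h0 : ∃ e, Q 0 e)
    (hext : ∀ n e, Q n e → ∃ e', (∀ x ∈ F n, e' x = e x) ∧ Q (n + 1) e')
    (hcongr : ∀ n e e', (∀ x ∈ F n, e' x = e x) → Q n e → Q n e') : ∃ e, ∀ n, Q n e := by
  classical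
  choose! nx h1 h2 using hext
  obtain ⟨e0, he0⟩ := h0
  let s : ℕ → (V → X) := fun n => Nat.rec e0 (fun k f => nx k f) n
  have hs : ∀ n, s (n + 1) = nx n (s n) := fun n => rfl
  have hQ : ∀ n, Q n (s n) := by
    intro n
    induction n with
    | zero => exact he0
    | succ n ih => rw [hs]; exact h2 n _ ih
  have hst : ∀ n m, n ≤ m → ∀ x ∈ F n, s m x = s n x := by
    intro n m hnm x hx
    induction m, hnm using Nat.le_induction with
    | base => rfl
    | succ m hm ih =>
      rw [hs, h1 m (s m) (hQ m) x (hF hm hx), ih]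
  refine ⟨fun x => if h : ∃ n, x ∈ F n then s (Nat.find h) x else default, ?_⟩
  intro n
  refine hcongr n (s n) _ ?_ (hQ n)
  intro x hx
  have h : ∃ n, x ∈ F n := ⟨n, hx⟩
  simp only [dif_pos h]
  exact (hst _ _ (Nat.find_min' h hx) x (Nat.find_spec h)).symm

/-- an enumeration with connected initial segments -/
theorem exists_enum [Countable V] (G : SimpleGraph V) (r : V) : ∃ v : ℕ → V, v 0 = r ∧
    (∀ n, v (n + 1) = r ∨ ∃ i ≤ n, G.Adj (v i) (v (n + 1))) ∧
    ∀ x, G.Reachable r x → ∃ n, v n = x := by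
  classical
  have : Nonempty V := ⟨r⟩
  obtain ⟨f, hf⟩ := exists_surjective_nat V
  -- the sequence of finite prefixes as lists
  let σ : ℕ → V := fun n => f (Nat.unpair n).1
  let nx : ℕ → List V → V := fun n l => if ∃ y ∈ l, G.Adj y (σ n) then σ n else r
  let s : ℕ → List V := fun n => Nat.rec [r] (fun k l => nx k l :: l) n
  have hs : ∀ n, s (n + 1) = nx n (s n) :: s n := fun n => rfl
  let v : ℕ → V := fun n => (s n).headD r
  have hv : ∀ n, v (n + 1) = nx n (s n) := fun n => by simp [v, hs]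
  have hmem : ∀ n x, x ∈ s n ↔ ∃ i ≤ n, v i = x := by
    intro n x
    induction n with
    | zero =>
      simp [s, v, eq_comm]
    | succ n ih =>
      rw [hs, List.mem_cons, ih, ← hv]
      constructor
      · rintro (h | ⟨i, hi, h⟩)
        · exact ⟨n + 1, le_rfl, h.symm⟩
        · exact ⟨i, by omega, h⟩
      · rintro ⟨i, hi, h⟩
        rcases Nat.lt_or_ge i (n + 1) with h1 | h1
        · exact Or.inr ⟨i, by omega, h⟩
        · have : i = n + 1 := by omega
          subst this
          exact Or.inl h.symm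
  refine ⟨v, rfl, ?_, ?_⟩
  · intro n
    rw [hv]
    simp only [nx]
    split_ifs with h
    · right
      obtain ⟨y, hy, hyn⟩ := h
      obtain ⟨i, hi, hiy⟩ := (hmem n y).1 hy
      exact ⟨i, hi, by rw [hiy]; exact hyn⟩
    · exact Or.inl rfl
  · intro x hx
    obtain ⟨p⟩ := hx
    have key : ∀ (a b : V) (p : G.Walk a b), (∃ n, v n = a) → ∃ n, v n = b := by
      intro a b p
      induction p with
      | nil => exact id
      | @cons a c b hac p ih =>
        rintro ⟨n, hn⟩
        apply ih
        obtain ⟨k, hk⟩ := hf c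
        have hσ : σ (Nat.pair k n) = c := by simp [σ, hk]
        have hle : n ≤ Nat.pair k n := Nat.right_le_pair k n
        refine ⟨Nat.pair k n + 1, ?_⟩
        rw [hv]
        simp only [nx, hσ]
        rw [if_pos]
        exact ⟨a, (hmem _ _).2 ⟨n, hle, hn⟩, hac⟩
    exact key r x p ⟨0, rfl⟩

theorem Eqv.symm {T : Finset V} {e e' : V → List P} (h : Eqv T e e') : Eqv T e' e :=
  ⟨fun x hx y hy z hz => (h.c x hx y hy z hz).symm, fun x hx y hy => (h.u x hx y hy).symm,
    fun x hx y hy => (h.l x hx y hy).symm⟩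

theorem Eqv.trans {T : Finset V} {e e' e'' : V → List P} (h : Eqv T e e') (h' : Eqv T e' e'') :
    Eqv T e e'' :=
  ⟨fun x hx y hy z hz => (h.c x hx y hy z hz).trans (h'.c x hx y hy z hz),
    fun x hx y hy => (h.u x hx y hy).trans (h'.u x hx y hy),
    fun x hx y hy => (h.l x hx y hy).trans (h'.l x hx y hy)⟩

theorem Rep.mono {S S' : Set V} (h : S ⊆ S') {r : V} {e : V → List P} (hR : Rep G S' r e) :
    Rep G S r e :=
  ⟨fun x hx => hR.root x (h hx), fun x hx y hy => hR.inj x (h hx) y (h hy),
    fun x hx y hy => hR.adj x (h hx) y (h hy)⟩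

/-- the limit structure along an ultrafilter -/
theorem exists_ultra (E : ℕ → V → List P) : ∃ (C : V → V → V → Prop) (LU LS : V → V → Prop),
    ∀ (T : Finset V) (n : ℕ), ∃ m ≥ n,
      (∀ x ∈ T, ∀ y ∈ T, ∀ z ∈ T, (sep (E m x) (E m z) < sep (E m x) (E m y) ↔ C x y z)) ∧
      (∀ x ∈ T, ∀ y ∈ T, (lU (E m x) (E m y) ↔ LU x y)) ∧
      (∀ x ∈ T, ∀ y ∈ T, (lS (E m x) (E m y) ↔ LS x y)) := by
  let U : Ultrafilter ℕ := Filter.hyperfilter ℕ
  have dec : ∀ p : ℕ → Prop, ∀ᶠ n in (U : Filter ℕ), (p n ↔ ∀ᶠ m in (U : Filter ℕ), p m) := by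
    intro p
    by_cases h : ∀ᶠ m in (U : Filter ℕ), p m
    · filter_upwards [h] with n hn
      exact ⟨fun _ => h, fun _ => hn⟩
    · have h' := Ultrafilter.eventually_not.2 h
      filter_upwards [h'] with n hn
      exact ⟨fun h => absurd h hn, fun h' => absurd h' h⟩
  refine ⟨fun x y z => ∀ᶠ n in (U : Filter ℕ), sep (E n x) (E n z) < sep (E n x) (E n y),
    fun x y => ∀ᶠ n in (U : Filter ℕ), lU (E n x) (E n y),
    fun x y => ∀ᶠ n in (U : Filter ℕ), lS (E n x) (E n y), ?_⟩
  intro T n
  have h1 : ∀ᶠ m in (U : Filter ℕ), ∀ x ∈ T, ∀ y ∈ T, ∀ z ∈ T,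
      (sep (E m x) (E m z) < sep (E m x) (E m y) ↔
        ∀ᶠ n in (U : Filter ℕ), sep (E n x) (E n z) < sep (E n x) (E n y)) := by
    rw [Filter.eventually_all_finset]
    intro x _
    rw [Filter.eventually_all_finset]
    intro y _
    rw [Filter.eventually_all_finset]
    intro z _
    exact dec _
  have h2 : ∀ᶠ m in (U : Filter ℕ), ∀ x ∈ T, ∀ y ∈ T,
      (lU (E m x) (E m y) ↔ ∀ᶠ n in (U : Filter ℕ), lU (E n x) (E n y)) := by
    rw [Filter.eventually_all_finset]
    intro x _
    rw [Filter.eventually_all_finset]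
    intro y _
    exact dec _
  have h3 : ∀ᶠ m in (U : Filter ℕ), ∀ x ∈ T, ∀ y ∈ T,
      (lS (E m x) (E m y) ↔ ∀ᶠ n in (U : Filter ℕ), lS (E n x) (E n y)) := by
    rw [Filter.eventually_all_finset]
    intro x _
    rw [Filter.eventually_all_finset]
    intro y _
    exact dec _
  have h4 : ∀ᶠ m in (U : Filter ℕ), n ≤ m :=
    Nat.hyperfilter_le_atTop (Filter.eventually_ge_atTop n)
  obtain ⟨m, hm⟩ := (h1.and (h2.and (h3.and h4))).exists
  exact ⟨m, hm.2.2.2, hm.1, hm.2.1, hm.2.2.1⟩

theorem exists_rep [Countable V] (hG : DistanceHereditary G) (r : V) :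
    ∃ e, Rep G {x | G.Reachable r x} r e := by
  classical
  obtain ⟨v, hv0, hvs, hvr⟩ := exists_enum G r
  let F : ℕ → Finset V := fun n => (Finset.range (n + 1)).image v
  have hFmem : ∀ n x, x ∈ F n ↔ ∃ i ≤ n, v i = x := by
    intro n x
    simp only [F, Finset.mem_image, Finset.mem_range, Nat.lt_succ_iff]
  have hFmono : Monotone F := by
    intro n m hnm x hx
    rw [hFmem] at hx ⊢
    obtain ⟨i, hi, h⟩ := hx
    exact ⟨i, hi.trans hnm, h⟩
  have hFr : ∀ n, r ∈ F n := fun n => (hFmem n r).2 ⟨0, Nat.zero_le _, hv0⟩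
  have hFs : ∀ n, F (n + 1) = insert (v (n + 1)) (F n) := by
    intro n
    ext x
    rw [Finset.mem_insert, hFmem, hFmem]
    constructor
    · rintro ⟨i, hi, h⟩
      rcases Nat.lt_or_ge i (n + 1) with h1 | h1
      · exact Or.inr ⟨i, by omega, h⟩
      · have : i = n + 1 := by omega
        subst this
        exact Or.inl h.symm
    · rintro (h | ⟨i, hi, h⟩)
      · exact ⟨n + 1, le_rfl, h.symm⟩
      · exact ⟨i, by omega, h⟩
  have hcn : ∀ n, Cn G (F n : Set V) := by
    intro n
    induction n with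
    | zero =>
      have : ((F 0 : Finset V) : Set V) = {r} := by
        ext x
        rw [Finset.mem_coe, hFmem, Set.mem_singleton_iff]
        constructor
        · rintro ⟨i, hi, h⟩
          have : i = 0 := by omega
          subst this
          rw [← h, hv0]
        · rintro rfl
          exact ⟨0, le_rfl, hv0⟩
      rw [this]
      exact Cn.singleton r
    | succ n ih =>
      rw [hFs, Finset.coe_insert]
      rcases hvs n with h | ⟨i, hi, h⟩
      · rw [h, Set.insert_eq_of_mem (Finset.mem_coe.2 (hFr n))]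
        exact ih
      · exact ih.insert (Finset.mem_coe.2 ((hFmem n _).2 ⟨i, hi, rfl⟩)) h
  choose E hE using fun n => fin_rep hG _ (F n) rfl r (hFr n) (hcn n)
  obtain ⟨C, LU, LS, hult⟩ := exists_ultra E
  -- representations of the initial segments
  have hEw : ∀ n m, n ≤ m → Wit ((F n).erase r) (E m) := by
    intro n m hnm
    exact ((hE m).mono (Finset.coe_subset.2 (hFmono hnm))).wit (hFr n) (hcn n)
  let Ag : Finset V → (V → List P) → Prop := fun T e =>
      (∀ x ∈ T, ∀ y ∈ T, ∀ z ∈ T, (sep (e x) (e z) < sep (e x) (e y) ↔ C x y z)) ∧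
      (∀ x ∈ T, ∀ y ∈ T, (lU (e x) (e y) ↔ LU x y)) ∧
      (∀ x ∈ T, ∀ y ∈ T, (lS (e x) (e y) ↔ LS x y))
  have hAg : ∀ T e e', Ag T e → Ag T e' → Eqv T e e' := by
    intro T e e' h h'
    exact ⟨fun x hx y hy z hz => (h.1 x hx y hy z hz).trans (h'.1 x hx y hy z hz).symm,
      fun x hx y hy => (h.2.1 x hx y hy).trans (h'.2.1 x hx y hy).symm,
      fun x hx y hy => (h.2.2 x hx y hy).trans (h'.2.2 x hx y hy).symm⟩
  have hAg' : ∀ T e e', Eqv T e e' → Ag T e' → Ag T e := by
    intro T e e' h h'
    exact ⟨fun x hx y hy z hz => (h.c x hx y hy z hz).trans (h'.1 x hx y hy z hz),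
      fun x hx y hy => (h.u x hx y hy).trans (h'.2.1 x hx y hy),
      fun x hx y hy => (h.l x hx y hy).trans (h'.2.2 x hx y hy)⟩
  obtain ⟨e, he⟩ := exists_limit (X := List P) (fun n => (F n).erase r)
    (fun n m hnm => Finset.erase_subset_erase _ (hFmono hnm))
    (fun n e => Ag ((F n).erase r) e ∧ Wit ((F n).erase r) e) (by
      have : (F 0).erase r = ∅ := by
        ext x
        simp only [Finset.mem_erase, hFmem, Finset.notMem_empty, iff_false]
        rintro ⟨h1, i, hi, h⟩
        have : i = 0 := by omega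
        subst this
        exact h1 (by rw [← h, hv0])
      refine ⟨fun _ => [], ?_⟩
      rw [this]
      simp [Ag, Wit]) (by
      rintro n e ⟨h1, h2⟩
      by_cases hmem : v (n + 1) ∈ F n
      · refine ⟨e, fun _ _ => rfl, ?_⟩
        rw [hFs, Finset.insert_eq_of_mem hmem]
        exact ⟨h1, h2⟩
      · have hvr' : v (n + 1) ≠ r := by
          intro h
          exact hmem (by rw [h]; exact hFr n)
        have hins : (F (n + 1)).erase r = insert (v (n + 1)) ((F n).erase r) := by
          rw [hFs, Finset.erase_insert_of_ne hvr']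
        obtain ⟨m, hm, hA⟩ := hult ((F (n + 1)).erase r) (n + 1)
        have hA' : Ag ((F (n + 1)).erase r) (E m) := hA
        have hAn : Ag ((F n).erase r) (E m) := by
          have hsub : (F n).erase r ⊆ (F (n + 1)).erase r :=
            Finset.erase_subset_erase _ (hFmono (Nat.le_succ n))
          exact ⟨fun x hx y hy z hz => hA'.1 x (hsub hx) y (hsub hy) z (hsub hz),
            fun x hx y hy => hA'.2.1 x (hsub hx) y (hsub hy),
            fun x hx y hy => hA'.2.2 x (hsub hx) y (hsub hy)⟩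
        have hnot : v (n + 1) ∉ (F n).erase r := fun h => hmem (Finset.mem_of_mem_erase h)
        obtain ⟨e'', h3, h4, h5⟩ := ext_step hnot (hAg _ _ _ h1 hAn) h2
          (hEw n m (by omega)) (by
            intro a ha h
            rw [Finset.mem_erase] at ha
            have := (hE m).inj a (Finset.mem_coe.2 (hFmono (by omega : n ≤ m) ha.2)) (v (n + 1))
              (Finset.mem_coe.2 ((hFmem m _).2 ⟨n + 1, hm, rfl⟩)) ha.1 hvr' h
            rw [this] at ha
            exact hmem ha.2)
        refine ⟨e'', h3, ?_⟩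
        rw [hins]
        rw [hins] at hA'
        exact ⟨hAg' _ _ _ h4 hA', h5⟩) (by
      rintro n e e' hee ⟨h1, h2⟩
      refine ⟨⟨?_, ?_, ?_⟩, ?_⟩
      · intro x hx y hy z hz
        rw [hee x hx, hee y hy, hee z hz]
        exact h1.1 x hx y hy z hz
      · intro x hx y hy
        rw [hee x hx, hee y hy]
        exact h1.2.1 x hx y hy
      · intro x hx y hy
        rw [hee x hx, hee y hy]
        exact h1.2.2 x hx y hy
      · intro x hx w hw
        rw [hee x hx] at hw ⊢
        obtain ⟨y, hy, hyw⟩ := h2 x hx w hw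
        exact ⟨y, hy, by rw [hee y hy]; exact hyw⟩)
  -- comparison with a finite stage
  have hcmp : ∀ n, ∃ m ≥ n, Eqv ((F n).erase r) e (E m) := by
    intro n
    obtain ⟨m, hm, hA⟩ := hult ((F n).erase r) n
    exact ⟨m, hm, hAg _ _ _ (he n).1 hA⟩
  have hreach : ∀ x, G.Reachable r x → ∃ n, x ∈ F n := by
    intro x hx
    obtain ⟨n, hn⟩ := hvr x hx
    exact ⟨n, (hFmem n x).2 ⟨n, le_rfl, hn⟩⟩
  refine ⟨e, ?_, ?_, ?_⟩
  · intro x hx hxr
    obtain ⟨n, hn⟩ := hreach x hx
    obtain ⟨m, hm, hE'⟩ := hcmp n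
    rw [(hE m).root x (Finset.mem_coe.2 (hFmono hm hn)) hxr]
    exact (hE'.nL (he n).2 (hEw n m hm) (Finset.mem_erase.2 ⟨hxr, hn⟩)).symm
  · intro x hx y hy hxr hyr hxy
    obtain ⟨n1, hn1⟩ := hreach x hx
    obtain ⟨n2, hn2⟩ := hreach y hy
    have hx' := hFmono (le_max_left n1 n2) hn1
    have hy' := hFmono (le_max_right n1 n2) hn2
    obtain ⟨m, hm, hE'⟩ := hcmp (max n1 n2)
    by_contra hne
    have h1 : E m x ≠ E m y := by
      intro h
      exact hne ((hE m).inj x (Finset.mem_coe.2 (hFmono hm hx')) y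
        (Finset.mem_coe.2 (hFmono hm hy')) hxr hyr h)
    exact (hE'.ne (Finset.mem_erase.2 ⟨hxr, hx'⟩) (Finset.mem_erase.2 ⟨hyr, hy'⟩)).2 h1 hxy
  · intro x hx y hy hxr hyr
    obtain ⟨n1, hn1⟩ := hreach x hx
    obtain ⟨n2, hn2⟩ := hreach y hy
    have hx' := hFmono (le_max_left n1 n2) hn1
    have hy' := hFmono (le_max_right n1 n2) hn2
    obtain ⟨m, hm, hE'⟩ := hcmp (max n1 n2)
    rw [(hE m).adj x (Finset.mem_coe.2 (hFmono hm hx')) y (Finset.mem_coe.2 (hFmono hm hy')) hxr
      hyr]
    exact (hE'.adj (he _).2 (hEw _ m hm) (Finset.mem_erase.2 ⟨hxr, hx'⟩)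
      (Finset.mem_erase.2 ⟨hyr, hy'⟩)).symm

theorem exists_embedding [Countable V] (hG : DistanceHereditary G) : Nonempty (G ↪g X) := by
  classical
  -- roots of the components
  let r : V → V := fun x => (G.connectedComponentMk x).out
  have hr : ∀ x, G.Reachable (r x) x := by
    intro x
    exact SimpleGraph.ConnectedComponent.exact (Quot.out_eq (G.connectedComponentMk x))
  have hrr : ∀ x y, G.Reachable x y → r x = r y := by
    intro x y h
    simp only [r]
    rw [SimpleGraph.ConnectedComponent.sound h]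
  choose E hE using fun a : V => exists_rep hG a
  -- positions of the components
  have hinf : Infinite {p : P // col p = .U} := by
    rw [← not_finite_iff_infinite]
    intro hfin
    have hfin' : Finite (Set.univ : Set {p : P // col p = .U}) := Set.finite_univ
    obtain ⟨m, hm, hlt, _⟩ := rich_P
      ((Set.toFinite (Set.univ : Set {p : P // col p = .U})).toFinset.map
        (Function.Embedding.subtype _)) ∅ (by simp) .U
    have := hlt m (by
      rw [Finset.mem_map]
      exact ⟨⟨m, hm⟩, by simp, rfl⟩)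
    exact lt_irrefl _ this
  obtain ⟨ι, hι⟩ : ∃ ι : V → P, Function.Injective ι ∧ ∀ x, col (ι x) = .U := by
    obtain ⟨f, hf⟩ := Countable.exists_injective_nat V
    let g := Infinite.natEmbedding {p : P // col p = .U}
    refine ⟨fun x => (g (f x)).1, ?_, fun x => (g (f x)).2⟩
    intro x y h
    exact hf (g.injective (Subtype.ext h))
  obtain ⟨q, hq, _⟩ := rich_P ∅ ∅ (by simp) .K
  let φ : V → List P := fun x => if x = r x then [ι (r x)] else ι (r x) :: q :: E (r x) x
  have hφ : ∀ x, ∃ t, φ x = ι (r x) :: t := by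
    intro x
    simp only [φ]
    split_ifs
    · exact ⟨_, rfl⟩
    · exact ⟨_, rfl⟩
  have hinj : Function.Injective φ := by
    intro x y hxy
    have hrxy : r x = r y := by
      obtain ⟨s, hs⟩ := hφ x
      obtain ⟨t, ht⟩ := hφ y
      rw [hs, ht, List.cons.injEq] at hxy
      exact hι.1 hxy.1
    simp only [φ] at hxy
    split_ifs at hxy with h1 h2 h2
    · rw [h1, h2, hrxy]
    · simp at hxy
    · simp at hxy
    · simp only [List.cons.injEq, true_and] at hxy
      rw [← hrxy] at hxy
      refine (hE (r x)).inj x (hr x) y ?_ h1 ?_ hxy.2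
      · have := hr y
        rw [← hrxy] at this
        exact this
      · rw [hrxy]
        exact h2
  have hadj : ∀ x y, Q213.DH.adj (φ x) (φ y) ↔ G.Adj x y := by
    intro x y
    by_cases hrxy : r x = r y
    · have hy' : G.Reachable (r x) y := by
        have := hr y
        rw [← hrxy] at this
        exact this
      simp only [φ]
      rw [← hrxy]
      split_ifs with h1 h2 h2
      · have : x = y := h1.trans h2.symm
        subst this
        simp [adj_irrefl]
      · rw [adj_cons_self]
        simp only [Q213.DH.adj, hq]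
        rw [← (hE (r x)).root y hy' h2, ← h1]
        simp
      · rw [adj_cons_self]
        simp only [Q213.DH.adj, hq]
        rw [← (hE (r x)).root x (hr x) h1, ← h2, G.adj_comm]
        simp
      · rw [adj_cons_self, adj_cons_self]
        exact ((hE (r x)).adj x (hr x) y hy' h1 h2).symm
    · obtain ⟨s, hs⟩ := hφ x
      obtain ⟨t, ht⟩ := hφ y
      rw [hs, ht]
      have hne : ι (r x) ≠ ι (r y) := fun h => hrxy (hι.1 h)
      constructor
      · intro h
        exfalso
        rcases lt_or_gt_of_ne hne with h1 | h1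
        · rw [adj_cons_lt h1] at h
          exact h.1 (hι.2 _)
        · rw [adj_cons_gt h1] at h
          exact h.1 (hι.2 _)
      · intro h
        exact absurd (hrr x y h.reachable) hrxy
  exact ⟨{
    toFun := fun x => some (φ x)
    inj' := fun x y h => hinj (Option.some_injective _ h)
    map_rel_iff' := by
      intro x y
      exact hadj x y }⟩

end Q213.DH
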