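import Pool.Agent.Q213.DHOrder

/-!
# The model graph on finite words over the three-coloured order

A word is a leaf of a binary tree: the trunk is the empty word, and the word `p :: x` leaves the
trunk at the node `p` and then follows `x`.
-/

namespace Q213.DH

/-- no letter of colour `L` -/
def nL (x : List P) : Prop := ∀ p ∈ x, col p ≠ .L

@[simp] theorem nL_nil : nL [] := by simp [nL]

@[simp] theorem nL_cons {p : P} {x : List P} : nL (p :: x) ↔ col p ≠ .L ∧ nL x := by
  simp [nL]

@[simp] theorem nL_append {x y : List P} : nL (x ++ y) ↔ nL x ∧ nL y := by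
  simp only [nL, List.mem_append]
  constructor
  · intro h
    exact ⟨fun p hp => h p (Or.inl hp), fun p hp => h p (Or.inr hp)⟩
  · rintro ⟨h1, h2⟩ p (hp | hp)
    · exact h1 p hp
    · exact h2 p hp

/-- adjacency of two words -/
def adj : List P → List P → Prop
  | [], [] => False
  | [], b :: y => col b ≠ .U ∧ nL y
  | a :: x, [] => col a ≠ .U ∧ nL x
  | a :: x, b :: y => (a = b ∧ adj x y) ∨ (a < b ∧ col a ≠ .U ∧ nL x ∧ nL (b :: y)) ∨
      (b < a ∧ col b ≠ .U ∧ nL y ∧ nL (a :: x))

theorem adj_symm : ∀ x y : List P, adj x y → adj y x
  | [], [] => fun h => h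
  | [], b :: y => fun h => h
  | a :: x, [] => fun h => h
  | a :: x, b :: y => by
    intro h
    simp only [adj] at h ⊢
    rcases h with h | h | h
    · exact Or.inl ⟨h.1.symm, adj_symm x y h.2⟩
    · exact Or.inr (Or.inr h)
    · exact Or.inr (Or.inl h)

theorem adj_comm {x y : List P} : adj x y ↔ adj y x := ⟨adj_symm x y, adj_symm y x⟩

theorem adj_irrefl : ∀ x : List P, ¬ adj x x
  | [] => fun h => h
  | a :: x => by
    intro h
    simp only [adj] at h
    rcases h with h | h | h
    · exact adj_irrefl x h.2
    · exact lt_irrefl _ h.1
    · exact lt_irrefl _ h.1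

theorem adj_cons_self {a : P} {x y : List P} : adj (a :: x) (a :: y) ↔ adj x y := by
  simp [adj]

theorem adj_cons_lt {a b : P} (h : a < b) {x y : List P} :
    adj (a :: x) (b :: y) ↔ col a ≠ .U ∧ nL x ∧ nL (b :: y) := by
  simp [adj, h, h.ne, h.not_gt]

theorem adj_cons_gt {a b : P} (h : b < a) {x y : List P} :
    adj (a :: x) (b :: y) ↔ col b ≠ .U ∧ nL y ∧ nL (a :: x) := by
  simp [adj, h, h.ne', h.not_gt]

theorem adj_append (s : List P) {x y : List P} : adj (s ++ x) (s ++ y) ↔ adj x y := by
  induction s with
  | nil => rfl
  | cons a s ih => rw [List.cons_append, List.cons_append, adj_cons_self, ih]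

/-- depths of nodes -/
abbrev D := WithTop (ℕ ×ₗ P)

/-- the shift by one turn -/
noncomputable def sh : D → D := WithTop.map (fun v => toLex ((ofLex v).1 + 1, (ofLex v).2))

/-- the node `b` on the trunk -/
noncomputable def hd (b : P) : D := ((toLex (0, b) : ℕ ×ₗ P) : D)

@[simp] theorem sh_lt {v w : D} : sh v < sh w ↔ v < w := by
  induction v using WithTop.recTopCoe with
  | top => simp [sh]
  | coe v =>
    induction w using WithTop.recTopCoe with
    | top => simp [sh]
    | coe w =>
      simp only [sh, WithTop.map_coe, WithTop.coe_lt_coe, Prod.Lex.lt_iff, ofLex_toLex]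
      simp

@[simp] theorem sh_inj {v w : D} : sh v = sh w ↔ v = w := by
  constructor
  · intro h
    rcases lt_trichotomy v w with h1 | h1 | h1
    · rw [← sh_lt, h] at h1
      exact absurd h1 (lt_irrefl _)
    · exact h1
    · rw [← sh_lt, h] at h1
      exact absurd h1 (lt_irrefl _)
  · intro h
    rw [h]

@[simp] theorem sh_eq_top {v : D} : sh v = ⊤ ↔ v = ⊤ := by
  induction v using WithTop.recTopCoe with
  | top => simp [sh]
  | coe v => simp [sh]

@[simp] theorem hd_ne_top (b : P) : hd b ≠ ⊤ := by simp [hd]

@[simp] theorem hd_lt_top (b : P) : hd b < ⊤ := by simp [hd]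

@[simp] theorem hd_lt_sh (b : P) (v : D) : hd b < sh v := by
  induction v using WithTop.recTopCoe with
  | top => simp [sh, hd]
  | coe v =>
    simp only [sh, hd, WithTop.map_coe, WithTop.coe_lt_coe, Prod.Lex.lt_iff, ofLex_toLex]
    left
    omega

@[simp] theorem hd_ne_sh (b : P) (v : D) : hd b ≠ sh v := (hd_lt_sh b v).ne

@[simp] theorem sh_ne_hd (b : P) (v : D) : sh v ≠ hd b := (hd_lt_sh b v).ne'

@[simp] theorem not_sh_lt_hd (b : P) (v : D) : ¬ sh v < hd b := (hd_lt_sh b v).not_gt

@[simp] theorem hd_lt_hd {a b : P} : hd a < hd b ↔ a < b := by
  simp only [hd, WithTop.coe_lt_coe, Prod.Lex.lt_iff, ofLex_toLex]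
  simp

@[simp] theorem hd_inj {a b : P} : hd a = hd b ↔ a = b := by
  simp [hd]

/-- the node where two words separate -/
noncomputable def sep : List P → List P → D
  | [], [] => ⊤
  | [], b :: _ => hd b
  | a :: _, [] => hd a
  | a :: x, b :: y => if a = b then sh (sep x y) else hd (min a b)

/-- separated at a node of colour `U` -/
def lU : List P → List P → Prop
  | [], [] => False
  | [], b :: _ => col b = .U
  | a :: _, [] => col a = .U
  | a :: x, b :: y => if a = b then lU x y else col (min a b) = .U

/-- separated at a node of colour `L` at which the first word turns -/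
def lS : List P → List P → Prop
  | [], _ => False
  | a :: _, [] => col a = .L
  | a :: x, b :: y => if a = b then lS x y else a < b ∧ col a = .L

theorem sep_self (x : List P) : sep x x = ⊤ := by
  induction x with
  | nil => rfl
  | cons a x ih => simp [sep, ih]

theorem sep_eq_top : ∀ {x y : List P}, sep x y = ⊤ → x = y
  | [], [] => fun _ => rfl
  | [], b :: y => fun h => absurd h (by simp [sep])
  | a :: x, [] => fun h => absurd h (by simp [sep])
  | a :: x, b :: y => by
    intro h
    simp only [sep] at h
    split_ifs at h with h1
    · rw [h1, sep_eq_top (sh_eq_top.1 h)]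
    · exact absurd h (by simp)

theorem sep_comm : ∀ x y : List P, sep x y = sep y x
  | [], [] => rfl
  | [], b :: y => rfl
  | a :: x, [] => rfl
  | a :: x, b :: y => by
    simp only [sep]
    by_cases h : a = b
    · simp [h, sep_comm x y]
    · simp [h, Ne.symm h, min_comm]

theorem lU_comm : ∀ x y : List P, lU x y ↔ lU y x
  | [], [] => Iff.rfl
  | [], b :: y => Iff.rfl
  | a :: x, [] => Iff.rfl
  | a :: x, b :: y => by
    simp only [lU]
    by_cases h : a = b
    · simp [h, lU_comm x y]
    · simp [h, Ne.symm h, min_comm]

theorem lS_self (x : List P) : ¬ lS x x := by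
  induction x with
  | nil => simp [lS]
  | cons a x ih => simp [lS, ih]

theorem lU_self (x : List P) : ¬ lU x x := by
  induction x with
  | nil => simp [lU]
  | cons a x ih => simp [lU, ih]

theorem lS_not_lU : ∀ {x y : List P}, lS x y → ¬ lU x y
  | [], _ => fun h => absurd h (by simp [lS])
  | a :: x, [] => by
    intro h
    simp only [lS] at h
    simp [lU, h]
  | a :: x, b :: y => by
    intro h
    simp only [lS, lU] at h ⊢
    split_ifs at h ⊢ with h1
    · exact lS_not_lU h
    · rw [min_eq_left h.1.le, h.2]
      simp

/-- beyond the node separating `x` and `y` all words are separated from `x` in the same way -/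
theorem coh : ∀ {x y z : List P}, sep x y < sep y z →
    sep x z = sep x y ∧ (lU x z ↔ lU x y) ∧ (lS x z ↔ lS x y) ∧ (lS z x ↔ lS y x)
  | [], [], z => by
    intro h
    rw [sep_self] at h
    exact absurd h not_top_lt
  | a :: x, [], [] => by simp
  | a :: x, [], b :: z => by
    intro h
    simp only [sep, hd_lt_hd] at h
    simp [sep, lU, lS, h.ne, h.ne', h.le, h, h.not_gt]
  | [], b :: y, [] => by
    intro h
    simp only [sep] at h
    exact absurd h (lt_irrefl _)
  | [], b :: y, d :: z => by
    intro h
    simp only [sep] at h
    by_cases hbd : b = d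
    · subst hbd
      simp [sep, lU, lS]
    · simp only [hbd, if_false, hd_lt_hd] at h
      exact absurd h (min_le_left _ _).not_gt
  | a :: x, b :: y, [] => by
    intro h
    simp only [sep] at h
    by_cases hab : a = b
    · subst hab
      simp at h
    · simp only [hab, if_false, hd_lt_hd] at h
      have hlt : a < b := by
        rcases lt_trichotomy a b with h1 | h1 | h1
        · exact h1
        · exact absurd h1 hab
        · rw [min_eq_right h1.le] at h
          exact absurd h (lt_irrefl _)
      simp [sep, lU, lS, hab, hlt.le, hlt, hlt.not_gt, Ne.symm hab]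
  | a :: x, b :: y, d :: z => by
    intro h
    by_cases hab : a = b
    · subst hab
      by_cases had : a = d
      · subst had
        have h' : sep x y < sep y z := by simpa [sep] using h
        obtain ⟨h1, h2, h3, h4⟩ := coh h'
        simp [sep, lU, lS, h1, h2, h3, h4]
      · simp [sep, had] at h
    · by_cases hbd : b = d
      · subst hbd
        simp [sep, lU, lS, hab, Ne.symm hab]
      · simp only [sep, hab, hbd, if_false, hd_lt_hd] at h
        have hlt : a < b := by
          rcases lt_trichotomy a b with h1 | h1 | h1
          · exact h1
          · exact absurd h1 hab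
          · rw [min_eq_right h1.le] at h
            exact absurd h (min_le_left _ _).not_gt
        rw [min_eq_left hlt.le] at h
        have had : a < d := lt_of_lt_of_le h (min_le_right _ _)
        simp [sep, lU, lS, hab, Ne.symm hab, hlt.le, had.le, had.ne, had.ne', hlt, had,
          hlt.not_gt, had.not_gt]

theorem binary : ∀ {x y z : List P}, sep x y = sep x z → x ≠ y → sep x y < sep y z
  | [], [], z => fun _ h => absurd rfl h
  | [], b :: y, [] => by simp [sep]
  | [], b :: y, d :: z => by
    intro h _
    simp only [sep, hd_inj] at h
    subst h
    simp [sep]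
  | a :: x, [], [] => by simp [sep]
  | a :: x, [], d :: z => by
    intro h _
    by_cases had : a = d
    · subst had
      simp [sep] at h
    · simp only [sep, had, if_false, hd_inj] at h ⊢
      rw [hd_lt_hd]
      rw [h]
      rcases lt_trichotomy a d with h1 | h1 | h1
      · rw [min_eq_left h1.le]
        exact h1
      · exact absurd h1 had
      · rw [min_eq_right h1.le] at h
        exact absurd h had
  | a :: x, b :: y, [] => by
    intro h _
    by_cases hab : a = b
    · subst hab
      simp [sep] at h
    · simp only [sep, hab, if_false, hd_inj] at h ⊢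
      rw [hd_lt_hd, h]
      rcases lt_trichotomy a b with h1 | h1 | h1
      · exact h1
      · exact absurd h1 hab
      · rw [min_eq_right h1.le] at h
        exact absurd h.symm hab
  | a :: x, b :: y, d :: z => by
    intro h hne
    by_cases hab : a = b
    · subst hab
      by_cases had : a = d
      · subst had
        have h' : sep x y = sep x z := by simpa [sep] using h
        have hne' : x ≠ y := fun h => hne (by rw [h])
        simpa [sep] using binary h' hne'
      · simp [sep, had] at h
    · by_cases had : a = d
      · subst had
        simp [sep, hab] at h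
      · simp only [sep, hab, had, if_false, hd_inj] at h ⊢
        by_cases hbd : b = d
        · subst hbd
          simp
        · simp only [hbd, if_false, hd_lt_hd]
          rcases lt_trichotomy a b with h1 | h1 | h1
          · rw [min_eq_left h1.le] at h ⊢
            rcases lt_trichotomy a d with h2 | h2 | h2
            · exact lt_min h1 h2
            · exact absurd h2 had
            · rw [min_eq_right h2.le] at h
              exact absurd h had
          · exact absurd h1 hab
          · rw [min_eq_right h1.le] at h
            rcases lt_trichotomy a d with h2 | h2 | h2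
            · rw [min_eq_left h2.le] at h
              exact absurd h.symm hab
            · exact absurd h2 had
            · rw [min_eq_right h2.le] at h
              exact absurd h hbd

/-- every separation of an `L`-turn of `a :: x` -/
theorem nL_iff : ∀ {x : List P}, nL x ↔ ∀ w, ¬ lS x w
  | [] => by simp [lS]
  | a :: x => by
    rw [nL_cons, nL_iff (x := x)]
    constructor
    · rintro ⟨h1, h2⟩ w
      cases w with
      | nil => simpa [lS] using h1
      | cons d w =>
        simp only [lS]
        split_ifs with h
        · exact h2 w
        · exact fun h' => h1 h'.2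
    · intro h
      refine ⟨?_, fun w => ?_⟩
      · have := h []
        simpa [lS] using this
      · have := h (a :: w)
        simpa [lS] using this

theorem lS_sep {a : P} {x w : List P} (h : lS (a :: x) w) : hd a ≤ sep (a :: x) w := by
  cases w with
  | nil => simp [sep]
  | cons d w =>
    simp only [lS] at h
    by_cases had : a = d
    · subst had
      simp only [sep, if_true]
      exact (hd_lt_sh _ _).le
    · simp only [had, if_false] at h
      simp [sep, had, h.1.le]

theorem tail_iff {a : P} {x : List P} {v : D} (hv : v = hd a) :
    (∀ w, v < sep (a :: x) w → ¬ lS (a :: x) w) ↔ nL x := by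
  subst hv
  rw [nL_iff]
  constructor
  · intro h w
    have := h (a :: w)
    simpa [sep, lS] using this
  · intro h w hw
    cases w with
    | nil => simp [sep] at hw
    | cons d w =>
      by_cases had : a = d
      · subst had
        simpa [lS] using h w
      · simp only [sep, had, if_false, hd_lt_hd] at hw
        exact absurd hw (min_le_left _ _).not_gt

theorem all_iff {a : P} {x : List P} {v : D} (hv : v < hd a) :
    (∀ w, v < sep (a :: x) w → ¬ lS (a :: x) w) ↔ nL (a :: x) := by
  rw [nL_iff]
  constructor
  · intro h w hw
    exact h w (lt_of_lt_of_le hv (lS_sep hw)) hw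
  · intro h w _
    exact h w

theorem adj_iff : ∀ {x y : List P}, adj x y ↔ x ≠ y ∧ ¬ lU x y ∧
    (∀ w, sep x y < sep x w → ¬ lS x w) ∧ (∀ w, sep x y < sep y w → ¬ lS y w)
  | [], [] => by simp [adj]
  | [], b :: y => by
    rw [tail_iff (by rfl)]
    simp [adj, lU, lS]
  | a :: x, [] => by
    rw [tail_iff (by rfl)]
    simp [adj, lU, lS]
  | a :: x, b :: y => by
    by_cases hab : a = b
    · subst hab
      rw [adj_cons_self, adj_iff]
      have e1 : ∀ x y : List P, (∀ w, sep x y < sep x w → ¬ lS x w) ↔
          (∀ w, sep (a :: x) (a :: y) < sep (a :: x) w → ¬ lS (a :: x) w) := by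
        intro x y
        constructor
        · intro h w hw
          cases w with
          | nil => simp [sep] at hw
          | cons d w =>
            by_cases had : a = d
            · subst had
              simp only [sep, if_true, sh_lt] at hw
              simpa [lS] using h w hw
            · simp [sep, had] at hw
        · intro h w hw
          have := h (a :: w) (by simpa [sep] using hw)
          simpa [lS] using this
      have e2 := e1 x y
      have e3 := e1 y x
      rw [sep_comm y x, sep_comm (a :: y) (a :: x)] at e3
      rw [e2, e3]
      simp [lU]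
    · rcases lt_trichotomy a b with h | h | h
      · have h1 : sep (a :: x) (b :: y) = hd a := by simp [sep, hab, h.le]
        rw [h1, tail_iff rfl, all_iff (by simpa using h), adj_cons_lt h]
        simp [lU, hab, h.le]
      · exact absurd h hab
      · have h1 : sep (a :: x) (b :: y) = hd b := by simp [sep, hab, h.le]
        rw [h1, tail_iff rfl, all_iff (by simpa using h), adj_cons_gt h]
        simp only [lU, hab, if_false, min_eq_right h.le, ne_eq, List.cons.injEq, false_and,
          not_false_eq_true, true_and]
        tauto

/-- the model graph; `none` is the root -/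
def X : SimpleGraph (Option (List P)) where
  Adj u v := match u, v with
    | none, none => False
    | none, some y => nL y
    | some x, none => nL x
    | some x, some y => adj x y
  symm := ⟨by
    rintro (_ | x) (_ | y) h
    · exact h
    · exact h
    · exact h
    · exact adj_symm x y h⟩
  loopless := ⟨by
    rintro (_ | x) h
    · exact h
    · exact adj_irrefl x h⟩

@[simp] theorem X_none_some {y : List P} : X.Adj none (some y) ↔ nL y := Iff.rfl

@[simp] theorem X_some_none {y : List P} : X.Adj (some y) none ↔ nL y := Iff.rfl

@[simp] theorem X_some_some {x y : List P} : X.Adj (some x) (some y) ↔ adj x y := Iff.rfl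

@[simp] theorem X_none_none : ¬ X.Adj none none := fun h => h

end Q213.DH
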