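import Mathlib

/-!
# Three-coloured countable dense linear orders

`Rich c`: the colouring `c` of a linear order has every colour in every finite cut.
Two countable rich orders are isomorphic by a colour preserving map.  There is a countable rich
order with an order reversing involution which exchanges two of the colours.
-/

namespace Q213.DH

/-- three colours -/
inductive Col
  | K
  | U
  | L
  deriving DecidableEq

/-- exchange of the colours `U` and `L` -/
def Col.sw : Col → Col
  | .K => .K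
  | .U => .L
  | .L => .U

theorem Col.sw_sw (k : Col) : k.sw.sw = k := by cases k <;> rfl

theorem Col.sw_eq_U {k : Col} : k.sw = .U ↔ k = .L := by cases k <;> simp [Col.sw]

theorem Col.sw_eq_L {k : Col} : k.sw = .L ↔ k = .U := by cases k <;> simp [Col.sw]

/-- every colour is present in every finite cut -/
def Rich {P : Type*} [LinearOrder P] (c : P → Col) : Prop :=
  ∀ (lo hi : Finset P), (∀ x ∈ lo, ∀ y ∈ hi, x < y) → ∀ k : Col,
    ∃ m, c m = k ∧ (∀ x ∈ lo, x < m) ∧ ∀ y ∈ hi, m < y

section BF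

variable {α β : Type*} [LinearOrder α] [LinearOrder β] (cα : α → Col) (cβ : β → Col)

/-- finite partial isomorphisms -/
def PIso (f : Finset (α × β)) : Prop :=
  (∀ p ∈ f, cα p.1 = cβ p.2) ∧ ∀ p ∈ f, ∀ q ∈ f, cmp p.1 q.1 = cmp p.2 q.2

variable {cα cβ}

theorem across (hβ : Rich cβ) (f : Finset (α × β)) (hf : PIso cα cβ f) (a : α) :
    ∃ b : β, PIso cα cβ (insert (a, b) f) := by
  classical
  have key : ∃ b : β, cα a = cβ b ∧ ∀ p ∈ f, cmp (Prod.fst p) a = cmp (Prod.snd p) b := by
    by_cases h : ∃ b, (a, b) ∈ f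
    · obtain ⟨b, hb⟩ := h
      exact ⟨b, hf.1 _ hb, fun p hp ↦ hf.2 _ hp _ hb⟩
    have :
      ∀ x ∈ {p ∈ f | p.fst < a}.image Prod.snd,
        ∀ y ∈ {p ∈ f | a < p.fst}.image Prod.snd, x < y := by
      intro x hx y hy
      rw [Finset.mem_image] at hx hy
      rcases hx with ⟨p, hp1, rfl⟩
      rcases hy with ⟨q, hq1, rfl⟩
      rw [Finset.mem_filter] at hp1 hq1
      rw [← lt_iff_lt_of_cmp_eq_cmp (hf.2 _ hp1.1 _ hq1.1)]
      exact lt_trans hp1.right hq1.right
    obtain ⟨b, hc, hb⟩ := hβ _ _ this (cα a)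
    refine ⟨b, hc.symm, ?_⟩
    rintro ⟨p1, p2⟩ hp
    have : p1 ≠ a := fun he ↦ h ⟨p2, he ▸ hp⟩
    rcases lt_or_gt_of_ne this with hl | hr
    · have : p1 < a ∧ p2 < b :=
        ⟨hl, hb.1 _ (Finset.mem_image.mpr ⟨(p1, p2), Finset.mem_filter.mpr ⟨hp, hl⟩, rfl⟩)⟩
      rw [← cmp_eq_lt_iff, ← cmp_eq_lt_iff] at this
      exact this.1.trans this.2.symm
    · have : a < p1 ∧ b < p2 :=
        ⟨hr, hb.2 _ (Finset.mem_image.mpr ⟨(p1, p2), Finset.mem_filter.mpr ⟨hp, hr⟩, rfl⟩)⟩
      rw [← cmp_eq_gt_iff, ← cmp_eq_gt_iff] at this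
      exact this.1.trans this.2.symm
  obtain ⟨b, hc, hb⟩ := key
  refine ⟨b, ?_, ?_⟩
  · intro p hp
    rw [Finset.mem_insert] at hp
    rcases hp with rfl | hp
    · exact hc
    · exact hf.1 p hp
  · intro p hp q hq
    rw [Finset.mem_insert] at hp hq
    rcases hp with (rfl | pf) <;> rcases hq with (rfl | qf)
    · simp only [cmp_self_eq_eq]
    · rw [cmp_eq_cmp_symm]
      exact hb _ qf
    · exact hb _ pf
    · exact hf.2 _ pf _ qf

theorem PIso.symm {f : Finset (α × β)} (hf : PIso cα cβ f) :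
    PIso cβ cα (f.map (Equiv.prodComm α β).toEmbedding) := by
  refine ⟨?_, ?_⟩
  · intro p hp
    simp only [Finset.mem_map_equiv, Equiv.prodComm_symm, Equiv.prodComm_apply] at hp
    exact (hf.1 _ hp).symm
  · intro p hp q hq
    simp only [Finset.mem_map_equiv, Equiv.prodComm_symm, Equiv.prodComm_apply] at hp hq
    exact (hf.2 _ hp _ hq).symm

theorem across' (hα : Rich cα) (f : Finset (α × β)) (hf : PIso cα cβ f) (b : β) :
    ∃ a : α, PIso cα cβ (insert (a, b) f) := by
  obtain ⟨a, ha⟩ := across hα _ hf.symm b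
  refine ⟨a, ?_⟩
  refine ⟨?_, ?_⟩
  · intro p hp
    have := ha.1 (p.2, p.1) (by
      rw [Finset.mem_insert] at hp ⊢
      rcases hp with rfl | hp
      · exact Or.inl rfl
      · exact Or.inr (by simpa using hp))
    exact this.symm
  · intro p hp q hq
    have := ha.2 (p.2, p.1) (by
      rw [Finset.mem_insert] at hp ⊢
      rcases hp with rfl | hp
      · exact Or.inl rfl
      · exact Or.inr (by simpa using hp)) (q.2, q.1) (by
      rw [Finset.mem_insert] at hq ⊢
      rcases hq with rfl | hq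
      · exact Or.inl rfl
      · exact Or.inr (by simpa using hq))
    exact this.symm

/-- Skolem: two countable rich orders are isomorphic -/
theorem colIso [Countable α] [Countable β] (hα : Rich cα) (hβ : Rich cβ) :
    ∃ f : α ≃o β, ∀ a, cβ (f a) = cα a := by
  classical
  have hneα : Nonempty α := ⟨(hα ∅ ∅ (by simp) .K).choose⟩
  have hneβ : Nonempty β := ⟨(hβ ∅ ∅ (by simp) .K).choose⟩
  obtain ⟨ea, hea⟩ := exists_surjective_nat α
  obtain ⟨eb, heb⟩ := exists_surjective_nat β
  let T := {f : Finset (α × β) // PIso cα cβ f}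
  have step : ∀ (n : ℕ) (f : T), ∃ g : T, f.1 ⊆ g.1 ∧ (∃ b, (ea n, b) ∈ g.1) ∧
      ∃ a, (a, eb n) ∈ g.1 := by
    rintro n ⟨f, hf⟩
    obtain ⟨b, hb⟩ := across hβ f hf (ea n)
    obtain ⟨a, ha⟩ := across' hα _ hb (eb n)
    refine ⟨⟨_, ha⟩, ?_, ⟨b, ?_⟩, ⟨a, ?_⟩⟩
    · intro x hx; simp [hx]
    · simp
    · simp
  choose nx hsub hA hB using step
  let s : ℕ → T := fun n => Nat.rec ⟨∅, by simp [PIso]⟩ (fun k f => nx k f) n
  have hs : ∀ n, s (n + 1) = nx n (s n) := fun n => rfl
  have mono : Monotone (fun n => (s n).1) := monotone_nat_of_le_succ (fun n => by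
    exact hsub n (s n))
  have hA' : ∀ a, ∃ b n, (a, b) ∈ (s n).1 := by
    intro a
    obtain ⟨n, rfl⟩ := hea a
    obtain ⟨b, hb⟩ := hA n (s n)
    exact ⟨b, n + 1, hb⟩
  have hB' : ∀ b, ∃ a n, (a, b) ∈ (s n).1 := by
    intro b
    obtain ⟨n, rfl⟩ := heb b
    obtain ⟨a, ha⟩ := hB n (s n)
    exact ⟨a, n + 1, ha⟩
  choose F NF hF using hA'
  choose G NG hG using hB'
  have cmpeq : ∀ {a b a' b' n m}, (a, b) ∈ (s n).1 → (a', b') ∈ (s m).1 →
      cmp a a' = cmp b b' := by
    intro a b a' b' n m h h'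
    exact (s (max n m)).2.2 _ (mono (le_max_left n m) h) _ (mono (le_max_right n m) h')
  refine ⟨OrderIso.ofCmpEqCmp F G (fun a b => cmpeq (hF a) (hG b)), ?_⟩
  intro a
  exact ((s (NF a)).2.1 _ (hF a)).symm

end BF

/-- the underlying type of the order -/
structure P where
  /-- colour -/
  k : Col
  /-- rational part -/
  q : ℚ

/-- weight of a colour -/
def wt : Col → ℚ
  | .K => 0
  | .U => 1
  | .L => -1

theorem wt_inj {k l : Col} (h : wt k = wt l) : k = l := by
  cases k <;> cases l <;> simp_all [wt] <;> norm_num at h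

/-- position in the real line -/
noncomputable def pos (x : P) : ℝ := (x.q : ℝ) + (wt x.k : ℝ) * Real.sqrt 2

theorem pos_inj : Function.Injective pos := by
  rintro ⟨k, q⟩ ⟨l, r⟩ h
  simp only [pos] at h
  by_cases hw : wt k = wt l
  · have := wt_inj hw
    subst this
    have h3 : (q : ℝ) = r := by linarith
    have h4 : q = r := by exact_mod_cast h3
    rw [h4]
  · exfalso
    apply irrational_sqrt_two
    refine ⟨(r - q) / (wt k - wt l), ?_⟩
    have h2 : (wt k : ℝ) - wt l ≠ 0 := by
      intro h3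
      apply hw
      have : (wt k : ℝ) = wt l := by linarith
      exact_mod_cast this
    push_cast
    rw [div_eq_iff h2]
    linarith

noncomputable instance : LinearOrder P := LinearOrder.lift' pos pos_inj

instance : Countable P := by
  have : Countable Col := by
    refine Function.Injective.countable (f := wt) (fun _ _ h => wt_inj h)
  refine Function.Injective.countable (f := fun x : P => (x.k, x.q)) ?_
  rintro ⟨k, q⟩ ⟨l, r⟩ h
  simp only [Prod.mk.injEq] at h
  rw [h.1, h.2]

/-- the colour -/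
def col (x : P) : Col := x.k

theorem lt_def {x y : P} : x < y ↔ pos x < pos y := Iff.rfl

theorem rich_P : Rich col := by
  intro lo hi h k
  have h1 : ∀ x ∈ lo.image pos, ∀ y ∈ hi.image pos, x < y := by
    intro x hx y hy
    rw [Finset.mem_image] at hx hy
    obtain ⟨x, hx, rfl⟩ := hx
    obtain ⟨y, hy, rfl⟩ := hy
    exact h x hx y hy
  obtain ⟨m, hm1, hm2⟩ := Order.exists_between_finsets _ _ h1
  have h2 : ∀ x ∈ lo.image pos, ∀ y ∈ insert m (hi.image pos), x < y := by
    intro x hx y hy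
    rw [Finset.mem_insert] at hy
    rcases hy with rfl | hy
    · exact hm1 x hx
    · exact h1 x hx y hy
  obtain ⟨m', hm1', hm2'⟩ := Order.exists_between_finsets _ _ h2
  have hmm : m' < m := hm2' m (by simp)
  obtain ⟨q, hq1, hq2⟩ := exists_rat_btwn (sub_lt_sub_right hmm ((wt k : ℝ) * Real.sqrt 2))
  refine ⟨⟨k, q⟩, rfl, ?_, ?_⟩
  · intro x hx
    have := hm1' (pos x) (Finset.mem_image_of_mem _ hx)
    rw [lt_def]
    change pos x < (q : ℝ) + (wt k : ℝ) * Real.sqrt 2
    linarith
  · intro x hx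
    have := hm2 (pos x) (Finset.mem_image_of_mem _ hx)
    rw [lt_def]
    change (q : ℝ) + (wt k : ℝ) * Real.sqrt 2 < pos x
    linarith

/-- the reversing involution -/
def theta (x : P) : P := ⟨x.k.sw, -x.q⟩

theorem theta_theta (x : P) : theta (theta x) = x := by
  obtain ⟨k, q⟩ := x
  simp [theta, Col.sw_sw]

theorem wt_sw (k : Col) : wt k.sw = - wt k := by
  cases k <;> simp [wt, Col.sw]

theorem pos_theta (x : P) : pos (theta x) = - pos x := by
  obtain ⟨k, q⟩ := x
  simp only [theta, pos, wt_sw]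
  push_cast
  ring

theorem theta_lt {x y : P} : theta x < theta y ↔ y < x := by
  rw [lt_def, lt_def, pos_theta, pos_theta, neg_lt_neg_iff]

theorem theta_inj {x y : P} : theta x = theta y ↔ x = y :=
  ⟨fun h => by rw [← theta_theta x, h, theta_theta], fun h => by rw [h]⟩

theorem col_theta (x : P) : col (theta x) = (col x).sw := rfl

/-- the final segments are isomorphic to the whole order -/
theorem exists_shift (p : P) : ∃ g h : P → P, (∀ a, p < a → h (g a) = a) ∧
    (∀ b, p < h b) ∧ (∀ b, g (h b) = b) ∧ (∀ a a', p < a → p < a' → (g a < g a' ↔ a < a')) ∧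
    (∀ a, p < a → col (g a) = col a) := by
  classical
  have hr : Rich (fun x : Set.Ioi p => col x.1) := by
    intro lo hi h k
    obtain ⟨m, hm, h1, h2⟩ := rich_P (insert p (lo.map (Function.Embedding.subtype _)))
      (hi.map (Function.Embedding.subtype _)) (by
        intro x hx y hy
        rw [Finset.mem_map] at hy
        obtain ⟨y, hy, rfl⟩ := hy
        rw [Finset.mem_insert, Finset.mem_map] at hx
        rcases hx with rfl | ⟨x, hx, rfl⟩
        · exact y.2
        · exact h x hx y hy) k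
    refine ⟨⟨m, h1 p (by simp)⟩, hm, ?_, ?_⟩
    · intro x hx
      exact h1 x.1 (Finset.mem_insert_of_mem (Finset.mem_map_of_mem _ hx))
    · intro x hx
      exact h2 x.1 (Finset.mem_map_of_mem _ hx)
  obtain ⟨f, hf⟩ := colIso hr rich_P
  have hlt : ∀ b, p < (f.symm b).1 := fun b => (f.symm b).2
  refine ⟨fun a => if h : p < a then f ⟨a, h⟩ else a, fun b => (f.symm b).1, ?_, hlt, ?_, ?_, ?_⟩
  · intro a ha
    simp [ha]
  · intro b
    have h1 := hlt b
    simp only [dif_pos h1]
    exact f.apply_symm_apply b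
  · intro a a' ha ha'
    simp only [dif_pos ha, dif_pos ha', f.lt_iff_lt]
    exact Iff.rfl
  · intro a ha
    simp only [ha, dif_pos]
    exact hf ⟨a, ha⟩

end Q213.DH
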