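import Mathlib

/-!
# The order `Om θ` : an `η`-order of size `2^θ` with a level function

`Lam θ` is the well-order of type `θ⁺`; `Om` is the set of sign sequences which are nonzero
exactly below a level, ordered lexicographically.
-/

namespace Pool.Agent.Q213.EtaOrder

open Cardinal Set

/-! ## The index well-order -/

/-- the well-order of type `θ⁺`. -/
abbrev Lam (θ : Cardinal.{0}) : Type := (Order.succ θ).ord.ToType

theorem mk_Lam (θ : Cardinal.{0}) : #(Lam θ) = Order.succ θ := by simp [Lam]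

theorem mk_Iio_Lam (θ : Cardinal.{0}) (i : Lam θ) : #(Iio i) ≤ θ := by
  have h := Cardinal.mk_Iio_lt i (by simp [Lam])
  rw [mk_Lam] at h
  exact Order.lt_succ_iff.mp h

theorem bdd_Lam (θ : Cardinal.{0}) (hθ : ℵ₀ ≤ θ) (S : Set (Lam θ)) (hS : #S ≤ θ) :
    ∃ z, ∀ s ∈ S, s < z := by
  by_contra hcon
  push Not at hcon
  have hcov : (Set.univ : Set (Lam θ)) ⊆ ⋃ s : S, Iic (s : Lam θ) := by
    intro z _
    obtain ⟨s, hs, hz⟩ := hcon z
    exact mem_iUnion.mpr ⟨⟨s, hs⟩, hz⟩
  have h1 : #(Lam θ) ≤ #(⋃ s : S, Iic (s : Lam θ)) := by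
    rw [← Cardinal.mk_univ]
    exact Cardinal.mk_le_mk_of_subset hcov
  have h2 : ∀ s : S, #(Iic (s : Lam θ)) ≤ θ := by
    intro s
    have : Iic (s : Lam θ) = insert (s : Lam θ) (Iio (s : Lam θ)) := by
      ext x
      simp [le_iff_eq_or_lt]
    rw [this]
    refine (Cardinal.mk_insert_le).trans ?_
    refine (add_le_add (mk_Iio_Lam θ _) (one_le_aleph0.trans hθ)).trans ?_
    rw [Cardinal.add_eq_self hθ]
  have h3 : #(⋃ s : S, Iic (s : Lam θ)) ≤ θ := by
    refine (Cardinal.mk_iUnion_le _).trans ?_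
    refine (mul_le_mul' hS (ciSup_le' h2)).trans ?_
    rw [Cardinal.mul_eq_self hθ]
  rw [mk_Lam] at h1
  exact absurd (h1.trans h3) (not_le.mpr (Order.lt_succ θ))

theorem exists_Iio_Lam (θ : Cardinal.{0}) : ∃ i : Lam θ, #(Iio i) = θ := by
  have hlt : θ.ord < (Order.succ θ).ord := Cardinal.ord_lt_ord.mpr (Order.lt_succ θ)
  let i : Lam θ := Ordinal.ToType.mk ⟨θ.ord, hlt⟩
  refine ⟨i, ?_⟩
  have h1 : Ordinal.type (α := Iio i) LT.lt = θ.ord := by
    rw [Ordinal.type_Iio_lt]
    show Ordinal.typein LT.lt (Ordinal.ToType.mk ⟨θ.ord, hlt⟩) = θ.ord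
    exact Ordinal.typein_enum _ _
  have h2 := congrArg Ordinal.card h1
  rw [Ordinal.card_type, Cardinal.card_ord] at h2
  exact h2

theorem nonempty_Lam (θ : Cardinal.{0}) : Nonempty (Lam θ) := by
  obtain ⟨i, _⟩ := exists_Iio_Lam θ
  exact ⟨i⟩

/-- every set of at most `θ` colours is enumerated along `Lam θ` with each colour appearing
unboundedly often. -/
theorem exists_enum (θ : Cardinal.{0}) (hθ : ℵ₀ ≤ θ) {K : Type} (C : Set K) (hC : #C ≤ θ)
    (hne : C.Nonempty) : ∃ h : Lam θ → K, (∀ i, h i ∈ C) ∧ ∀ c ∈ C, ∀ z, ∃ i, z < i ∧ h i = c := by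
  have hne' : Nonempty C := hne.to_subtype
  have h1 : #(Lam θ × C) = #(Lam θ) := by
    rw [Cardinal.mk_prod, Cardinal.lift_id, Cardinal.lift_id]
    refine Cardinal.mul_eq_left ?_ ?_ ?_
    · rw [mk_Lam]; exact hθ.trans (Order.le_succ θ)
    · rw [mk_Lam]; exact hC.trans (Order.le_succ θ)
    · exact Cardinal.mk_ne_zero _
  obtain ⟨e⟩ := Cardinal.eq.mp h1
  refine ⟨fun i => ((e.symm i).2 : K), fun i => (e.symm i).2.2, ?_⟩
  intro c hc z
  by_contra hcon
  push Not at hcon
  -- all `i` with colour `c` are `≤ z`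
  let g : Lam θ → Iic z := fun j => ⟨e (j, ⟨c, hc⟩), by
    by_contra hlt
    have := hcon (e (j, ⟨c, hc⟩)) (not_le.mp hlt)
    simp at this⟩
  have hg : Function.Injective g := by
    intro j j' hjj
    have := congrArg Subtype.val hjj
    have := e.injective this
    simpa using this
  have h2 := Cardinal.mk_le_of_injective hg
  have h3 : #(Iic z) ≤ θ := by
    have : Iic z = insert z (Iio z) := by
      ext x
      simp [le_iff_eq_or_lt]
    rw [this]
    refine (Cardinal.mk_insert_le).trans ?_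
    refine (add_le_add (mk_Iio_Lam θ _) (one_le_aleph0.trans hθ)).trans ?_
    rw [Cardinal.add_eq_self hθ]
  rw [mk_Lam] at h2
  exact absurd (h2.trans h3) (not_le.mpr (Order.lt_succ θ))

/-! ## The order -/

/-- sign sequences on `Λ` which are nonzero exactly below a level `lev`. -/
structure Om (Λ : Type) [LinearOrder Λ] where
  val : Λ → SignType
  lev : Λ
  spec : ∀ j, val j = 0 ↔ lev ≤ j

theorem Om.ext' {Λ : Type} [LinearOrder Λ] {x y : Om Λ} (h : x.val = y.val) : x = y := by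
  have hl : x.lev = y.lev := by
    apply le_antisymm
    · rw [← x.spec, h, y.spec]
    · rw [← y.spec, ← h, x.spec]
  cases x; cases y
  simp only at h hl
  subst h; subst hl; rfl

section

variable {Λ : Type} [LinearOrder Λ] [WellFoundedLT Λ]

noncomputable instance : LinearOrder (Om Λ) :=
  LinearOrder.lift' (fun x : Om Λ => (toLex x.val : Lex (Λ → SignType)))
    (fun _ _ h => Om.ext' (toLex_inj.mp h))

theorem Om.lt_iff {x y : Om Λ} :
    x < y ↔ ∃ i, (∀ j, j < i → x.val j = y.val j) ∧ x.val i < y.val i := Iff.rfl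

/-- the first difference of two different points -/
theorem Om.exists_diff {x y : Om Λ} (h : x ≠ y) :
    ∃ i, (∀ j, j < i → x.val j = y.val j) ∧ x.val i ≠ y.val i := by
  rcases lt_or_gt_of_ne h with h | h
  · obtain ⟨i, h1, h2⟩ := Om.lt_iff.mp h
    exact ⟨i, h1, h2.ne⟩
  · obtain ⟨i, h1, h2⟩ := Om.lt_iff.mp h
    exact ⟨i, fun j hj => (h1 j hj).symm, h2.ne'⟩

/-- if `x < y` agree below `j` then `x j ≤ y j`. -/
theorem Om.le_at {x y : Om Λ} (h : x < y) {j : Λ} (hj : ∀ k, k < j → x.val k = y.val k) :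
    x.val j ≤ y.val j := by
  obtain ⟨i, h1, h2⟩ := Om.lt_iff.mp h
  rcases lt_trichotomy j i with h' | h' | h'
  · exact (h1 j h').le
  · subst h'; exact h2.le
  · exact absurd (hj i h') h2.ne

/-- the reflection -/
def Om.neg (x : Om Λ) : Om Λ where
  val := fun j => - x.val j
  lev := x.lev
  spec := fun j => by
    rw [← x.spec j]
    generalize x.val j = s
    cases s <;> simp

theorem Om.neg_lt {x y : Om Λ} (h : x < y) : y.neg < x.neg := by
  obtain ⟨i, h1, h2⟩ := Om.lt_iff.mp h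
  refine Om.lt_iff.mpr ⟨i, fun j hj => ?_, ?_⟩
  · show - y.val j = - x.val j
    rw [h1 j hj]
  · show - y.val i < - x.val i
    revert h2
    generalize x.val i = s
    generalize y.val i = t
    revert s t
    decide

open Classical in
/-- the generic filler of a cut `(A, B)` -/
noncomputable def fill (A B : Set (Om Λ)) : Λ → SignType :=
  wellFounded_lt.fix fun j prev =>
    if ∃ k, ∃ hk : k < j, prev k hk = 0 then 0
    else if ∃ a ∈ A, (∀ k, ∀ hk : k < j, a.val k = prev k hk) ∧ 0 ≤ a.val j then 1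
    else if ∃ b ∈ B, (∀ k, ∀ hk : k < j, b.val k = prev k hk) ∧ b.val j ≤ 0 then -1
    else 0

open Classical in
theorem fill_eq (A B : Set (Om Λ)) (j : Λ) :
    fill A B j = if ∃ k, k < j ∧ fill A B k = 0 then 0
    else if ∃ a ∈ A, (∀ k, k < j → a.val k = fill A B k) ∧ 0 ≤ a.val j then 1
    else if ∃ b ∈ B, (∀ k, k < j → b.val k = fill A B k) ∧ b.val j ≤ 0 then -1
    else 0 := by
  have h := WellFounded.fix_eq (wellFounded_lt (α := Λ)) (C := fun _ => SignType)
    (fun j prev =>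
    if ∃ k, ∃ hk : k < j, prev k hk = 0 then 0
    else if ∃ a ∈ A, (∀ k, ∀ hk : k < j, a.val k = prev k hk) ∧ 0 ≤ a.val j then 1
    else if ∃ b ∈ B, (∀ k, ∀ hk : k < j, b.val k = prev k hk) ∧ b.val j ≤ 0 then -1
    else 0) j
  rw [fill, h]
  simp only [exists_prop]

theorem fill_zero_up (A B : Set (Om Λ)) {k j : Λ} (hk : fill A B k = 0) (hkj : k ≤ j) :
    fill A B j = 0 := by
  rcases eq_or_lt_of_le hkj with rfl | h
  · exact hk
  · rw [fill_eq, if_pos ⟨k, h, hk⟩]

/-- no zero of the filler below the first difference with a member of `A` -/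
theorem fill_noz_A (A B : Set (Om Λ)) {a : Om Λ} (ha : a ∈ A) {j : Λ}
    (hj : ∀ k, k < j → a.val k = fill A B k) : ¬ ∃ k, k < j ∧ fill A B k = 0 := by
  classical
  rintro ⟨k, hkj, hk⟩
  obtain ⟨m, ⟨hmj, hm⟩, hmin⟩ := wellFounded_lt.has_min {k | k < j ∧ fill A B k = 0} ⟨k, hkj, hk⟩
  have hno : ¬ ∃ k, k < m ∧ fill A B k = 0 := by
    rintro ⟨k', h1, h2⟩
    exact hmin k' ⟨h1.trans hmj, h2⟩ h1
  have h1 : fill A B m = 1 := by
    rw [fill_eq, if_neg hno, if_pos]
    exact ⟨a, ha, fun k hk => hj k (hk.trans hmj), by rw [hj m hmj, hm]⟩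
  rw [hm] at h1
  exact absurd h1 (by decide)

theorem fill_noz_B (A B : Set (Om Λ)) {b : Om Λ} (hb : b ∈ B) {j : Λ}
    (hj : ∀ k, k < j → b.val k = fill A B k) : ¬ ∃ k, k < j ∧ fill A B k = 0 := by
  classical
  rintro ⟨k, hkj, hk⟩
  obtain ⟨m, ⟨hmj, hm⟩, hmin⟩ := wellFounded_lt.has_min {k | k < j ∧ fill A B k = 0} ⟨k, hkj, hk⟩
  have hno : ¬ ∃ k, k < m ∧ fill A B k = 0 := by
    rintro ⟨k', h1, h2⟩
    exact hmin k' ⟨h1.trans hmj, h2⟩ h1
  have h1 : fill A B m ≠ 0 := by
    rw [fill_eq, if_neg hno]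
    by_cases h2 : ∃ a ∈ A, (∀ k, k < m → a.val k = fill A B k) ∧ 0 ≤ a.val m
    · rw [if_pos h2]; decide
    · rw [if_neg h2, if_pos]
      · decide
      · exact ⟨b, hb, fun k hk => hj k (hk.trans hmj), by rw [hj m hmj, hm]⟩
  exact h1 hm

theorem fill_A (A B : Set (Om Λ)) {a : Om Λ} (ha : a ∈ A) :
    ∃ j, j ≤ a.lev ∧ (∀ k, k < j → a.val k = fill A B k) ∧ a.val j < fill A B j := by
  classical
  by_cases hall : ∀ k, k ≤ a.lev → a.val k = fill A B k
  · exfalso
    have h0 : a.val a.lev = 0 := (a.spec _).mpr le_rfl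
    have h1 : fill A B a.lev = 1 := by
      rw [fill_eq, if_neg (fill_noz_A A B ha (fun k hk => hall k hk.le)), if_pos]
      exact ⟨a, ha, fun k hk => hall k hk.le, h0.ge⟩
    have h2 := hall a.lev le_rfl
    rw [h0, h1] at h2
    exact absurd h2 (by decide)
  · push Not at hall
    obtain ⟨m, ⟨hmj, hm⟩, hmin⟩ := wellFounded_lt.has_min
      {k | k ≤ a.lev ∧ a.val k ≠ fill A B k} hall
    have hag : ∀ k, k < m → a.val k = fill A B k := by
      intro k hk
      by_contra hne
      exact hmin k ⟨hk.le.trans hmj, hne⟩ hk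
    refine ⟨m, hmj, hag, ?_⟩
    have hno := fill_noz_A A B ha hag
    by_cases h0 : 0 ≤ a.val m
    · have h1 : fill A B m = 1 := by
        rw [fill_eq, if_neg hno, if_pos ⟨a, ha, hag, h0⟩]
      rw [h1] at hm ⊢
      revert hm h0
      generalize a.val m = s
      revert s
      decide
    · have h3 : a.val m = -1 := by
        revert h0
        generalize a.val m = s
        revert s
        decide
      rw [h3] at hm ⊢
      revert hm
      generalize fill A B m = s
      revert s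
      decide

theorem fill_B (A B : Set (Om Λ)) (hAB : ∀ a ∈ A, ∀ b ∈ B, a < b) {b : Om Λ} (hb : b ∈ B) :
    ∃ j, j ≤ b.lev ∧ (∀ k, k < j → b.val k = fill A B k) ∧ fill A B j < b.val j := by
  classical
  -- if the filler is `1` because of some `a` then `b` is `1` there
  have key : ∀ j, (∀ k, k < j → b.val k = fill A B k) →
      (∃ a ∈ A, (∀ k, k < j → a.val k = fill A B k) ∧ 0 ≤ a.val j) → b.val j = 1 := by
    rintro j hj ⟨a, ha, h1, h2⟩
    have hag : ∀ k, k < j → a.val k = b.val k := fun k hk => (h1 k hk).trans (hj k hk).symm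
    have h3 := Om.le_at (hAB a ha b hb) hag
    have h4 : b.val j ≠ 0 := by
      intro h0
      have h5 : a.val j = 0 := le_antisymm (h3.trans h0.le) h2
      have : a = b := by
        apply Om.ext'
        funext k
        rcases lt_or_ge k j with hk | hk
        · exact hag k hk
        · rw [(a.spec k).mpr (((a.spec j).mp h5).trans hk),
            (b.spec k).mpr (((b.spec j).mp h0).trans hk)]
      exact absurd (hAB a ha b hb) (by rw [this]; exact lt_irrefl _)
    have h5 := h2.trans h3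
    revert h4 h5
    generalize b.val j = s
    revert s
    decide
  by_cases hall : ∀ k, k ≤ b.lev → b.val k = fill A B k
  · exfalso
    have h0 : b.val b.lev = 0 := (b.spec _).mpr le_rfl
    have hag : ∀ k, k < b.lev → b.val k = fill A B k := fun k hk => hall k hk.le
    have h1 : fill A B b.lev = -1 := by
      rw [fill_eq, if_neg (fill_noz_B A B hb hag), if_neg, if_pos]
      · exact ⟨b, hb, hag, h0.le⟩
      · intro hex
        have := key _ hag hex
        rw [h0] at this
        exact absurd this (by decide)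
    have h2 := hall b.lev le_rfl
    rw [h0, h1] at h2
    exact absurd h2 (by decide)
  · push Not at hall
    obtain ⟨m, ⟨hmj, hm⟩, hmin⟩ := wellFounded_lt.has_min
      {k | k ≤ b.lev ∧ b.val k ≠ fill A B k} hall
    have hag : ∀ k, k < m → b.val k = fill A B k := by
      intro k hk
      by_contra hne
      exact hmin k ⟨hk.le.trans hmj, hne⟩ hk
    refine ⟨m, hmj, hag, ?_⟩
    have hno := fill_noz_B A B hb hag
    by_cases hex : ∃ a ∈ A, (∀ k, k < m → a.val k = fill A B k) ∧ 0 ≤ a.val m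
    · exfalso
      apply hm
      rw [key m hag hex, fill_eq, if_neg hno, if_pos hex]
    · by_cases h0 : b.val m ≤ 0
      · have h1 : fill A B m = -1 := by
          rw [fill_eq, if_neg hno, if_neg hex, if_pos ⟨b, hb, hag, h0⟩]
        rw [h1] at hm ⊢
        revert hm h0
        generalize b.val m = s
        revert s
        decide
      · have h3 : b.val m = 1 := by
          revert h0
          generalize b.val m = s
          revert s
          decide
        rw [h3] at hm ⊢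
        revert hm
        generalize fill A B m = s
        revert s
        decide

/-- the `η`-property -/
theorem Om.eta (A B : Set (Om Λ)) (hAB : ∀ a ∈ A, ∀ b ∈ B, a < b)
    (ρ : Λ) (hA : ∀ a ∈ A, a.lev < ρ) (hB : ∀ b ∈ B, b.lev < ρ) :
    ∃ x : Om Λ, (∀ a ∈ A, a < x) ∧ ∀ b ∈ B, x < b := by
  classical
  -- the filler vanishes somewhere
  have hz : ∃ j, fill A B j = 0 := by
    by_contra hno
    push Not at hno
    have h1 : fill A B ρ = 0 := by
      rw [fill_eq, if_neg (by push Not; exact fun k _ => hno k), if_neg, if_neg]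
      · rintro ⟨b, hb, hag, _⟩
        obtain ⟨j, hj, _, hlt⟩ := fill_B A B hAB hb
        exact hlt.ne' (hag j (hj.trans_lt (hB b hb)))
      · rintro ⟨a, ha, hag, _⟩
        obtain ⟨j, hj, _, hlt⟩ := fill_A A B ha
        exact hlt.ne (hag j (hj.trans_lt (hA a ha)))
    exact hno ρ h1
  obtain ⟨m, hm, hmin⟩ := wellFounded_lt.has_min {k | fill A B k = 0} hz
  let x : Om Λ := ⟨fill A B, m, fun j => ⟨fun h => by
    by_contra hlt
    exact hmin j h (not_le.mp hlt), fun h => fill_zero_up A B hm h⟩⟩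
  refine ⟨x, fun a ha => ?_, fun b hb => ?_⟩
  · obtain ⟨j, _, h1, h2⟩ := fill_A A B ha
    exact Om.lt_iff.mpr ⟨j, h1, h2⟩
  · obtain ⟨j, _, h1, h2⟩ := fill_B A B hAB hb
    exact Om.lt_iff.mpr ⟨j, fun k hk => (h1 k hk).symm, h2⟩

end

/-! ## no long monotone sequences of bounded level -/

section

variable {θ : Cardinal.{0}}

theorem Om.no_mono (hθ : ℵ₀ ≤ θ) (ρ : Lam θ) (I : Set (Lam θ)) (hI : ∀ z, ∃ i ∈ I, z < i)
    (g : Lam θ → Om (Lam θ)) (hg : ∀ i ∈ I, ∀ j ∈ I, i < j → g i < g j)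
    (hl : ∀ i ∈ I, (g i).lev ≤ ρ) : False := by
  classical
  have claim : ∀ j : Lam θ, ∃ s, ∀ i ∈ I, s < i → ∀ i' ∈ I, s < i' →
      (g i).val j = (g i').val j := by
    intro j
    induction j using WellFoundedLT.induction with
    | ind j ih =>
      have := nonempty_Lam θ
      choose! s hs using ih
      obtain ⟨z, hz⟩ := bdd_Lam θ hθ (s '' (Iio j)) (Cardinal.mk_image_le.trans (mk_Iio_Lam θ j))
      have hag : ∀ i ∈ I, z < i → ∀ i' ∈ I, z < i' → ∀ k, k < j → (g i).val k = (g i').val k := by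
        intro i hi hzi i' hi' hzi' k hk
        have := hz (s k) ⟨k, hk, rfl⟩
        exact hs k hk i hi (this.trans hzi) i' hi' (this.trans hzi')
      have hmono : ∀ i ∈ I, z < i → ∀ i' ∈ I, i < i' → (g i).val j ≤ (g i').val j := by
        intro i hi hzi i' hi' hii
        exact Om.le_at (hg i hi i' hi' hii) (hag i hi hzi i' hi' (hzi.trans hii))
      -- the maximal value
      obtain ⟨v, ⟨i0, hi0, hzi0, rfl⟩, hv⟩ := (wellFounded_gt (α := SignType)).has_min
        {v | ∃ i ∈ I, z < i ∧ (g i).val j = v} (by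
          obtain ⟨i, hi, hzi⟩ := hI z
          exact ⟨_, i, hi, hzi, rfl⟩)
      refine ⟨i0, ?_⟩
      have hconst : ∀ i ∈ I, i0 < i → (g i).val j = (g i0).val j := by
        intro i hi hii
        have h1 := hmono i0 hi0 hzi0 i hi hii
        have h2 := hv _ ⟨i, hi, hzi0.trans hii, rfl⟩
        exact le_antisymm (not_lt.mp h2) h1
      intro i hi hii i' hi' hii'
      rw [hconst i hi hii, hconst i' hi' hii']
  choose s hs using claim
  obtain ⟨z, hz⟩ := bdd_Lam θ hθ (s '' (Iio ρ)) (Cardinal.mk_image_le.trans (mk_Iio_Lam θ ρ))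
  obtain ⟨i, hi, hzi⟩ := hI z
  obtain ⟨i', hi', hii⟩ := hI i
  have heq : g i = g i' := by
    apply Om.ext'
    funext k
    rcases lt_or_ge k ρ with hk | hk
    · have := hz (s k) ⟨k, hk, rfl⟩
      exact hs k i hi (this.trans hzi) i' hi' (this.trans (hzi.trans hii))
    · rw [((g i).spec k).mpr ((hl i hi).trans hk), ((g i').spec k).mpr ((hl i' hi').trans hk)]
  exact absurd (hg i hi i' hi' hii) (by rw [heq]; exact lt_irrefl _)

theorem Om.no_anti (hθ : ℵ₀ ≤ θ) (ρ : Lam θ) (I : Set (Lam θ)) (hI : ∀ z, ∃ i ∈ I, z < i)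
    (g : Lam θ → Om (Lam θ)) (hg : ∀ i ∈ I, ∀ j ∈ I, i < j → g j < g i)
    (hl : ∀ i ∈ I, (g i).lev ≤ ρ) : False :=
  Om.no_mono hθ ρ I hI (fun i => (g i).neg) (fun i hi j hj hij => Om.neg_lt (hg i hi j hj hij))
    (fun i hi => hl i hi)

/-- the `η`-property for sets of size at most `θ` -/
theorem Om.eta' (hθ : ℵ₀ ≤ θ) (A B : Set (Om (Lam θ))) (hA : #A ≤ θ) (hB : #B ≤ θ)
    (hAB : ∀ a ∈ A, ∀ b ∈ B, a < b) :
    ∃ x : Om (Lam θ), (∀ a ∈ A, a < x) ∧ ∀ b ∈ B, x < b := by
  obtain ⟨z, hz⟩ := bdd_Lam θ hθ (Om.lev '' A) (Cardinal.mk_image_le.trans hA)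
  obtain ⟨z', hz'⟩ := bdd_Lam θ hθ (Om.lev '' B) (Cardinal.mk_image_le.trans hB)
  exact Om.eta A B hAB (max z z') (fun a ha => (hz _ ⟨a, ha, rfl⟩).trans_le (le_max_left _ _))
    (fun b hb => (hz' _ ⟨b, hb, rfl⟩).trans_le (le_max_right _ _))

theorem mk_Om_le (hθ : ℵ₀ ≤ θ) : #(Om (Lam θ)) ≤ 2 ^ θ := by
  let F : Om (Lam θ) → Σ i : Lam θ, (Iio i → SignType) := fun x => ⟨x.lev, fun j => x.val j⟩
  have hF : Function.Injective F := by
    intro x y hxy
    have h1 : x.lev = y.lev := congrArg Sigma.fst hxy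
    apply Om.ext'
    funext k
    rcases lt_or_ge k x.lev with hk | hk
    · obtain ⟨xv, xl, xs⟩ := x
      obtain ⟨yv, yl, ys⟩ := y
      simp only at h1
      subst h1
      simp only [F, Sigma.mk.injEq, heq_eq_eq, true_and] at hxy
      exact congrFun hxy ⟨k, hk⟩
    · rw [(x.spec k).mpr hk, (y.spec k).mpr (h1 ▸ hk)]
  refine (Cardinal.mk_le_of_injective hF).trans ?_
  rw [Cardinal.mk_sigma]
  have h2 : ∀ i : Lam θ, #(Iio i → SignType) ≤ 2 ^ θ := by
    intro i
    rw [← Cardinal.power_def]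
    have h3 : #SignType = ((3 : ℕ) : Cardinal) := by
      rw [Cardinal.mk_fintype]; rfl
    rw [h3, ← Cardinal.nat_power_eq hθ (n := 3) (by norm_num)]
    exact Cardinal.power_le_power_left (by norm_num) (mk_Iio_Lam θ i)
  refine (Cardinal.sum_le_sum _ (fun _ => 2 ^ θ) h2).trans ?_
  rw [Cardinal.sum_const, Cardinal.lift_id, Cardinal.lift_id, mk_Lam]
  refine (mul_le_mul' (Order.succ_le_of_lt (Cardinal.cantor θ)) le_rfl).trans ?_
  rw [Cardinal.mul_eq_self (hθ.trans (Cardinal.cantor θ).le)]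

end

end Pool.Agent.Q213.EtaOrder
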