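import Mathlib
import Pool.Agent.Q213.EtaOrder

/-!
# Colour preserving automorphisms of `η`-orders

`Om (Lam θ)`: for every colouring with at most `θ` colours there is a non-identical
order automorphism which preserves the colours.
-/

namespace Pool.Agent.Q213.EtaOrder

open Cardinal Set

section abstract_part

variable {Λ Ω K : Type} [LinearOrder Λ] [WellFoundedLT Λ] [LinearOrder Ω]

omit [LinearOrder Ω] in
theorem exists_min_lev (ℓ : Ω → Λ) (f : Ω → K) (c : K) (D : Set Ω) (h : ∃ z ∈ D, f z = c) :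
    ∃ z ∈ D, f z = c ∧ ∀ z' ∈ D, f z' = c → ℓ z ≤ ℓ z' := by
  obtain ⟨z0, h0, h1⟩ := h
  obtain ⟨m, ⟨z, hz, hzc, rfl⟩, hmin⟩ := (wellFounded_lt (α := Λ)).has_min
    {m | ∃ z ∈ D, f z = c ∧ ℓ z = m} ⟨ℓ z0, z0, h0, h1, rfl⟩
  exact ⟨z, hz, hzc, fun z' hz' hc' => not_lt.mp (hmin _ ⟨z', hz', hc', rfl⟩)⟩

open Classical in
/-- a point of colour `c` and minimal level in `D` (if there is one) -/
noncomputable def pick (ℓ : Ω → Λ) (f : Ω → K) (a : Ω) (c : K) (D : Set Ω) : Ω :=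
  if H : ∃ z ∈ D, f z = c ∧ ∀ z' ∈ D, f z' = c → ℓ z ≤ ℓ z' then H.choose else a

omit [LinearOrder Ω] in
theorem pick_spec (ℓ : Ω → Λ) (f : Ω → K) (a : Ω) (c : K) (D : Set Ω) (h : ∃ z ∈ D, f z = c) :
    pick ℓ f a c D ∈ D ∧ f (pick ℓ f a c D) = c ∧
      ∀ z' ∈ D, f z' = c → ℓ (pick ℓ f a c D) ≤ ℓ z' := by
  have H := exists_min_lev ℓ f c D h
  rw [pick, dif_pos H]
  exact H.choose_spec

variable (ℓ : Ω → Λ) (f : Ω → K) (h : Λ → K) (a b x0 : Ω)

open Classical in
/-- the canonical tree map -/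
noncomputable def P (t : Λ → Bool) : Λ → Ω :=
  wellFounded_lt.fix fun i prev =>
    if IsBot i then x0 else pick ℓ f a (h i)
      {z | a < z ∧ z < b ∧ ∀ j, ∀ hj : j < i,
        (t j = true → prev j hj < z) ∧ (t j = false → z < prev j hj)}

/-- the points which the node `(t, i)` could still choose -/
def D (t : Λ → Bool) (i : Λ) : Set Ω :=
  {z | a < z ∧ z < b ∧ ∀ j, j < i →
        (t j = true → P ℓ f h a b x0 t j < z) ∧ (t j = false → z < P ℓ f h a b x0 t j)}

open Classical in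
theorem P_eq (t : Λ → Bool) (i : Λ) : P ℓ f h a b x0 t i =
    if IsBot i then x0 else pick ℓ f a (h i) (D ℓ f h a b x0 t i) := by
  have h1 := WellFounded.fix_eq (wellFounded_lt (α := Λ)) (C := fun _ => Ω)
    (fun i prev =>
    if IsBot i then x0 else pick ℓ f a (h i)
      {z | a < z ∧ z < b ∧ ∀ j, ∀ hj : j < i,
        (t j = true → prev j hj < z) ∧ (t j = false → z < prev j hj)}) i
  rw [P, h1]
  rfl

theorem P_bot (t : Λ → Bool) (i : Λ) (hi : IsBot i) : P ℓ f h a b x0 t i = x0 := by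
  rw [P_eq, if_pos hi]

theorem P_congr (t s : Λ → Bool) (i : Λ) (hts : ∀ j, j < i → t j = s j) :
    P ℓ f h a b x0 t i = P ℓ f h a b x0 s i := by
  induction i using WellFoundedLT.induction with
  | ind i ih =>
    have hD : D ℓ f h a b x0 t i = D ℓ f h a b x0 s i := by
      ext z
      simp only [D, Set.mem_ofPred_eq]
      constructor
      · rintro ⟨h1, h2, h3⟩
        refine ⟨h1, h2, fun j hj => ?_⟩
        rw [← hts j hj, ← ih j hj (fun k hk => hts k (hk.trans hj))]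
        exact h3 j hj
      · rintro ⟨h1, h2, h3⟩
        refine ⟨h1, h2, fun j hj => ?_⟩
        rw [hts j hj, ih j hj (fun k hk => hts k (hk.trans hj))]
        exact h3 j hj
    rw [P_eq, P_eq, hD]

variable {θ : Cardinal.{0}}

/-- the hypotheses on the order, the colouring and the interval -/
structure Good (θ : Cardinal.{0}) (f : Ω → K) (h : Λ → K) (a b : Ω) : Prop where
  inf : ℵ₀ ≤ θ
  small : ∀ i : Λ, #(Iio i) ≤ θ
  eta : ∀ A B : Set Ω, #A ≤ θ → #B ≤ θ → (∀ a ∈ A, ∀ b ∈ B, a < b) →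
    ∃ x, (∀ a ∈ A, a < x) ∧ ∀ b ∈ B, x < b
  dense : ∀ i : Λ, ∀ x y, a ≤ x → x < y → y ≤ b → ∃ z, x < z ∧ z < y ∧ f z = h i

variable {f h a b x0}

theorem P_spec (G : Good θ f h a b) (hx0 : a < x0 ∧ x0 < b) (t : Λ → Bool) (i : Λ) :
    P ℓ f h a b x0 t i ∈ D ℓ f h a b x0 t i ∧ (¬ IsBot i → f (P ℓ f h a b x0 t i) = h i ∧
      ∀ z ∈ D ℓ f h a b x0 t i, f z = h i → ℓ (P ℓ f h a b x0 t i) ≤ ℓ z) := by
  induction i using WellFoundedLT.induction with
  | ind i ih =>
    by_cases hi : IsBot i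
    · refine ⟨?_, fun hni => absurd hi hni⟩
      rw [P_bot ℓ f h a b x0 t i hi]
      exact ⟨hx0.1, hx0.2, fun j hj => absurd (hi j) (not_le.mpr hj)⟩
    · have hAB : ∃ z ∈ D ℓ f h a b x0 t i, f z = h i := by
        let A : Set Ω := insert a ((P ℓ f h a b x0 t) '' {j | j < i ∧ t j = true})
        let B : Set Ω := insert b ((P ℓ f h a b x0 t) '' {j | j < i ∧ t j = false})
        have hcard : ∀ S : Set Λ, S ⊆ Iio i → ∀ w : Ω,
            #(insert w ((P ℓ f h a b x0 t) '' S) : Set Ω) ≤ θ := by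
          intro S hS w
          refine Cardinal.mk_insert_le.trans ?_
          refine (add_le_add (Cardinal.mk_image_le.trans ((Cardinal.mk_le_mk_of_subset hS).trans
            (G.small i))) (one_le_aleph0.trans G.inf)).trans ?_
          rw [Cardinal.add_eq_self G.inf]
        have hA : #A ≤ θ := hcard _ (fun j hj => hj.1) a
        have hB : #B ≤ θ := hcard _ (fun j hj => hj.1) b
        have hlt : ∀ u ∈ A, ∀ v ∈ B, u < v := by
          rintro u hu v hv
          rcases hu with rfl | ⟨j, ⟨hj, htj⟩, rfl⟩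
          · rcases hv with rfl | ⟨k, ⟨hk, htk⟩, rfl⟩
            · exact hx0.1.trans hx0.2
            · exact (ih k hk).1.1
          · rcases hv with rfl | ⟨k, ⟨hk, htk⟩, rfl⟩
            · exact (ih j hj).1.2.1
            · rcases lt_trichotomy j k with hjk | hjk | hjk
              · exact ((ih k hk).1.2.2 j hjk).1 htj
              · subst hjk
                rw [htj] at htk
                exact absurd htk (by decide)
              · exact ((ih j hj).1.2.2 k hjk).2 htk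
        obtain ⟨x, hx1, hx2⟩ := G.eta A B hA hB hlt
        have hB' : #(insert x (∅ : Set Ω) : Set Ω) ≤ θ := by
          have : #(insert x (∅ : Set Ω) : Set Ω) = 1 := by simp
          rw [this]
          exact one_le_aleph0.trans G.inf
        have hA' : #(insert x A : Set Ω) ≤ θ := by
          refine Cardinal.mk_insert_le.trans ?_
          refine (add_le_add hA (one_le_aleph0.trans G.inf)).trans ?_
          rw [Cardinal.add_eq_self G.inf]
        obtain ⟨y, hy1, hy2⟩ := G.eta (insert x A) B hA' hB (by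
          rintro u (rfl | hu) v hv
          · exact hx2 v hv
          · exact hlt u hu v hv)
        obtain ⟨z, hz1, hz2, hz3⟩ := G.dense i x y (hx1 a (Or.inl rfl)).le (hy1 x (Or.inl rfl))
          (hy2 b (Or.inl rfl)).le
        refine ⟨z, ⟨(hx1 a (Or.inl rfl)).trans hz1, hz2.trans (hy2 b (Or.inl rfl)), ?_⟩, hz3⟩
        intro j hj
        refine ⟨fun htj => ?_, fun htj => ?_⟩
        · exact (hx1 _ (Or.inr ⟨j, ⟨hj, htj⟩, rfl⟩)).trans hz1
        · exact hz2.trans (hy2 _ (Or.inr ⟨j, ⟨hj, htj⟩, rfl⟩))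
      have := pick_spec ℓ f a (h i) _ hAB
      rw [P_eq, if_neg hi]
      exact ⟨this.1, fun _ => ⟨this.2.1, this.2.2⟩⟩

/-- the order between two nodes does not depend on the base point -/
theorem P_tri (G : Good θ f h a b) (t s : Λ → Bool) (i j : Λ) :
    (∀ x0, a < x0 → x0 < b → P ℓ f h a b x0 t i < P ℓ f h a b x0 s j) ∨
    (∀ x0, a < x0 → x0 < b → P ℓ f h a b x0 t i = P ℓ f h a b x0 s j) ∨
    (∀ x0, a < x0 → x0 < b → P ℓ f h a b x0 s j < P ℓ f h a b x0 t i) := by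
  by_cases hd : ∃ k, (k < i ∧ k < j) ∧ t k ≠ s k
  · obtain ⟨k, ⟨⟨hki, hkj⟩, hk⟩, hmin⟩ := (wellFounded_lt (α := Λ)).has_min
      {k | (k < i ∧ k < j) ∧ t k ≠ s k} hd
    have hag : ∀ m, m < k → t m = s m := by
      intro m hm
      by_contra hne
      exact hmin m ⟨⟨hm.trans hki, hm.trans hkj⟩, hne⟩ hm
    cases htk : t k
    · have hsk : s k = true := by
        rw [htk] at hk
        cases hs : s k
        · exact absurd hs.symm hk
        · rfl
      left
      intro x0 h1 h2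
      have e := P_congr ℓ f h a b x0 t s k hag
      have g1 := ((P_spec ℓ G ⟨h1, h2⟩ t i).1.2.2 k hki).2 htk
      have g2 := ((P_spec ℓ G ⟨h1, h2⟩ s j).1.2.2 k hkj).1 hsk
      rw [e] at g1
      exact g1.trans g2
    · have hsk : s k = false := by
        rw [htk] at hk
        cases hs : s k
        · rfl
        · exact absurd hs.symm hk
      right; right
      intro x0 h1 h2
      have e := P_congr ℓ f h a b x0 t s k hag
      have g1 := ((P_spec ℓ G ⟨h1, h2⟩ t i).1.2.2 k hki).1 htk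
      have g2 := ((P_spec ℓ G ⟨h1, h2⟩ s j).1.2.2 k hkj).2 hsk
      rw [e] at g1
      exact g2.trans g1
  · push Not at hd
    rcases lt_trichotomy i j with hij | hij | hij
    · have e : ∀ x0, P ℓ f h a b x0 t i = P ℓ f h a b x0 s i := fun x0 =>
        P_congr ℓ f h a b x0 t s i (fun m hm => hd m ⟨hm, hm.trans hij⟩)
      cases hsi : s i
      · right; right
        intro x0 h1 h2
        rw [e]
        exact ((P_spec ℓ G ⟨h1, h2⟩ s j).1.2.2 i hij).2 hsi
      · left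
        intro x0 h1 h2
        rw [e]
        exact ((P_spec ℓ G ⟨h1, h2⟩ s j).1.2.2 i hij).1 hsi
    · subst hij
      right; left
      intro x0 _ _
      exact P_congr ℓ f h a b x0 t s i (fun m hm => hd m ⟨hm, hm⟩)
    · have e : ∀ x0, P ℓ f h a b x0 s j = P ℓ f h a b x0 t j := fun x0 =>
        P_congr ℓ f h a b x0 s t j (fun m hm => (hd m ⟨hm.trans hij, hm⟩).symm)
      cases htj : t j
      · left
        intro x0 h1 h2
        rw [e]
        exact ((P_spec ℓ G ⟨h1, h2⟩ t i).1.2.2 j hij).2 htj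
      · right; right
        intro x0 h1 h2
        rw [e]
        exact ((P_spec ℓ G ⟨h1, h2⟩ t i).1.2.2 j hij).1 htj

open Classical in
/-- the path which follows a point `z` -/
noncomputable def path (ℓ : Ω → Λ) (f : Ω → K) (h : Λ → K) (a b x0 z : Ω) : Λ → Bool :=
  wellFounded_lt.fix fun i prev =>
    decide (P ℓ f h a b x0 (fun j => if hj : j < i then prev j hj else false) i < z)

theorem path_eq (z : Ω) (i : Λ) :
    path ℓ f h a b x0 z i = true ↔ P ℓ f h a b x0 (path ℓ f h a b x0 z) i < z := by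
  classical
  have h1 := WellFounded.fix_eq (wellFounded_lt (α := Λ)) (C := fun _ => Bool)
    (fun i prev => decide (P ℓ f h a b x0 (fun j => if hj : j < i then prev j hj else false) i < z)) i
  have h2 : path ℓ f h a b x0 z i = decide (P ℓ f h a b x0
      (fun j => if j < i then path ℓ f h a b x0 z j else false) i < z) := by
    rw [path, h1]
    rfl
  rw [h2, P_congr ℓ f h a b x0 (fun j => if j < i then path ℓ f h a b x0 z j else false)
    (path ℓ f h a b x0 z) i (fun j hj => by simp [hj])]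
  simp

/-- the canonical map reaches every point of the interval -/
theorem P_surj (G : Good θ f h a b) (hx0 : a < x0 ∧ x0 < b)
    (hcol : ∀ z, a < z → z < b → ∀ i : Λ, ∃ j, i < j ∧ h j = f z)
    (hup : ∀ (ρ : Λ) (I : Set Λ) (g : Λ → Ω), (∀ z, ∃ i ∈ I, z < i) →
      (∀ i ∈ I, ∀ j ∈ I, i < j → g i < g j) → (∀ i ∈ I, ℓ (g i) ≤ ρ) → False)
    (hdn : ∀ (ρ : Λ) (I : Set Λ) (g : Λ → Ω), (∀ z, ∃ i ∈ I, z < i) →
      (∀ i ∈ I, ∀ j ∈ I, i < j → g j < g i) → (∀ i ∈ I, ℓ (g i) ≤ ρ) → False)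
    (z : Ω) (hz1 : a < z) (hz2 : z < b) : ∃ t i, P ℓ f h a b x0 t i = z := by
  by_contra hcon
  push Not at hcon
  set t := path ℓ f h a b x0 z with ht
  have htrue : ∀ i, t i = true ↔ P ℓ f h a b x0 t i < z := fun i => path_eq ℓ z i
  have hfalse : ∀ i, t i = false → z < P ℓ f h a b x0 t i := by
    intro i hi
    rcases lt_trichotomy z (P ℓ f h a b x0 t i) with h1 | h1 | h1
    · exact h1
    · exact absurd h1.symm (hcon t i)
    · rw [← htrue i, hi] at h1
      exact absurd h1 (by decide)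
  have hD : ∀ i, z ∈ D ℓ f h a b x0 t i := fun i =>
    ⟨hz1, hz2, fun j _ => ⟨fun htj => (htrue j).mp htj, fun htj => hfalse j htj⟩⟩
  have hlev : ∀ i, ¬ IsBot i → h i = f z → ℓ (P ℓ f h a b x0 t i) ≤ ℓ z := fun i hi hc =>
    ((P_spec ℓ G hx0 t i).2 hi).2 z (hD i) hc.symm
  by_cases hU : ∀ w : Λ, ∃ i ∈ {i | (h i = f z ∧ ¬ IsBot i) ∧ t i = true}, w < i
  · refine hup (ℓ z) _ (P ℓ f h a b x0 t) hU ?_ (fun i hi => hlev i hi.1.2 hi.1.1)
    intro i hi j _ hij
    exact ((P_spec ℓ G hx0 t j).1.2.2 i hij).1 hi.2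
  · push Not at hU
    obtain ⟨w, hw⟩ := hU
    refine hdn (ℓ z) {i | (h i = f z ∧ ¬ IsBot i) ∧ t i = false} (P ℓ f h a b x0 t) ?_ ?_
      (fun i hi => hlev i hi.1.2 hi.1.1)
    · intro v
      obtain ⟨i, hi, hc⟩ := hcol z hz1 hz2 (max v w)
      refine ⟨i, ⟨⟨hc, fun hb => ?_⟩, ?_⟩, (le_max_left v w).trans_lt hi⟩
      · exact absurd (hb (max v w)) (not_le.mpr hi)
      · cases hti : t i
        · rfl
        · exfalso
          refine absurd (hw i ⟨⟨hc, fun hb => ?_⟩, hti⟩) (not_le.mpr ((le_max_right v w).trans_lt hi))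
          exact absurd (hb (max v w)) (not_le.mpr hi)
    · intro i hi j _ hij
      exact ((P_spec ℓ G hx0 t j).1.2.2 i hij).2 hi.2

end abstract_part

section main

variable {θ : Cardinal.{0}}

theorem squeeze (hθ : ℵ₀ ≤ θ) {ι : Type} (hι : #ι ≤ θ) (p : ι → Om (Lam θ) × Om (Lam θ))
    (hp : ∀ i j, (p i).1 < (p j).2) : ∃ x y, x < y ∧ ∀ i, (p i).1 < x ∧ y < (p i).2 := by
  let A : Set (Om (Lam θ)) := range fun i => (p i).1
  let B : Set (Om (Lam θ)) := range fun i => (p i).2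
  have hA : #A ≤ θ := Cardinal.mk_range_le.trans hι
  have hB : #B ≤ θ := Cardinal.mk_range_le.trans hι
  obtain ⟨x, hx1, hx2⟩ := Om.eta' hθ A B hA hB (by
    rintro _ ⟨i, rfl⟩ _ ⟨j, rfl⟩
    exact hp i j)
  have hA' : #(insert x A : Set (Om (Lam θ))) ≤ θ := by
    refine Cardinal.mk_insert_le.trans ?_
    refine (add_le_add hA (one_le_aleph0.trans hθ)).trans ?_
    rw [Cardinal.add_eq_self hθ]
  obtain ⟨y, hy1, hy2⟩ := Om.eta' hθ (insert x A) B hA' hB (by
    rintro u (rfl | ⟨i, rfl⟩) _ ⟨j, rfl⟩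
    · exact hx2 _ ⟨j, rfl⟩
    · exact hp i j)
  exact ⟨x, y, hy1 x (Or.inl rfl), fun i => ⟨hx1 _ ⟨i, rfl⟩, hy2 _ ⟨i, rfl⟩⟩⟩

theorem exists_pair (hθ : ℵ₀ ≤ θ) : ∃ x y : Om (Lam θ), x < y := by
  obtain ⟨x, y, h, _⟩ := squeeze hθ (ι := Empty) (by simp) (fun e => e.elim) (fun e => e.elim)
  exact ⟨x, y, h⟩

theorem exists_mid (hθ : ℵ₀ ≤ θ) {x y : Om (Lam θ)} (hxy : x < y) : ∃ z, x < z ∧ z < y := by
  obtain ⟨z, hz1, hz2⟩ := Om.eta' hθ {x} {y} (by simpa using one_le_aleph0.trans hθ)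
    (by simpa using one_le_aleph0.trans hθ) (by rintro a rfl b rfl; exact hxy)
  exact ⟨z, hz1 x rfl, hz2 y rfl⟩

theorem exists_above (hθ : ℵ₀ ≤ θ) (x : Om (Lam θ)) : ∃ z, x < z := by
  obtain ⟨z, hz1, _⟩ := Om.eta' hθ {x} ∅ (by simpa using one_le_aleph0.trans hθ)
    (by simp) (by rintro a rfl b hb; exact hb.elim)
  exact ⟨z, hz1 x rfl⟩

theorem exists_below (hθ : ℵ₀ ≤ θ) (x : Om (Lam θ)) : ∃ z, z < x := by
  obtain ⟨z, _, hz1⟩ := Om.eta' hθ ∅ {x} (by simp) (by simpa using one_le_aleph0.trans hθ)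
    (by rintro a ha b hb; exact ha.elim)
  exact ⟨z, hz1 x rfl⟩

/-- `k` does not occur in the interval, or is dense in it. -/
def Decided {K : Type} (f : Om (Lam θ) → K) (k : K) (a b : Om (Lam θ)) : Prop :=
  (∀ z, a < z → z < b → f z ≠ k) ∨ ∀ x y, a ≤ x → x < y → y ≤ b → ∃ z, x < z ∧ z < y ∧ f z = k

theorem exists_decided {K : Type} (f : Om (Lam θ) → K) (k : K) {a b : Om (Lam θ)} (hab : a < b) :
    ∃ a' b', a ≤ a' ∧ a' < b' ∧ b' ≤ b ∧ Decided f k a' b' := by
  by_cases h : ∀ x y, a ≤ x → x < y → y ≤ b → ∃ z, x < z ∧ z < y ∧ f z = k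
  · exact ⟨a, b, le_rfl, hab, le_rfl, Or.inr h⟩
  · push Not at h
    obtain ⟨x, y, h1, h2, h3, h4⟩ := h
    exact ⟨x, y, h1, h2, h3, Or.inl h4⟩

theorem shrink (hθ : ℵ₀ ≤ θ) {K : Type} (hK : #K ≤ θ) (f : Om (Lam θ) → K) :
    ∃ a b, a < b ∧ ∀ c, (∃ z, a < z ∧ z < b ∧ f z = c) →
      ∀ x y, a ≤ x → x < y → y ≤ b → ∃ z, x < z ∧ z < y ∧ f z = c := by
  classical
  obtain ⟨inst, wf⟩ := exists_wellFoundedLT K
  obtain ⟨u, v, _⟩ := exists_pair (θ := θ) hθ
  let Q : (k : K) → (∀ l, l < k → Om (Lam θ) × Om (Lam θ)) → Om (Lam θ) × Om (Lam θ) → Prop :=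
    fun k prev p => p.1 < p.2 ∧ (∀ l, ∀ hl : l < k, (prev l hl).1 < p.1 ∧ p.2 < (prev l hl).2) ∧
      Decided f k p.1 p.2
  let F : K → Om (Lam θ) × Om (Lam θ) := wellFounded_lt.fix fun k prev =>
    if H : ∃ p, Q k prev p then H.choose else (u, v)
  have hF : ∀ k, F k = if H : ∃ p, Q k (fun l _ => F l) p then H.choose else (u, v) := by
    intro k
    have h1 := WellFounded.fix_eq (wellFounded_lt (α := K))
      (C := fun _ => Om (Lam θ) × Om (Lam θ)) (fun k prev =>
      if H : ∃ p, Q k prev p then H.choose else (u, v)) k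
    exact h1
  have hspec : ∀ k, Q k (fun l _ => F l) (F k) := by
    intro k
    induction k using WellFoundedLT.induction with
    | ind k ih =>
      have hex : ∃ p, Q k (fun l _ => F l) p := by
        have hcross : ∀ i j : Iio k, (F i).1 < (F j).2 := by
          intro i j
          rcases lt_trichotomy (i : K) (j : K) with hij | hij | hij
          · exact ((ih j j.2).2.1 i hij).1.trans (ih j j.2).1
          · rw [hij]; exact (ih j j.2).1
          · exact (ih i i.2).1.trans ((ih i i.2).2.1 j hij).2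
        obtain ⟨x, y, hxy, hsq⟩ := squeeze hθ (ι := Iio k) ((Cardinal.mk_set_le _).trans hK)
          (fun i => F i) hcross
        obtain ⟨a', b', h1, h2, h3, h4⟩ := exists_decided f k hxy
        refine ⟨(a', b'), h2, fun l hl => ?_, h4⟩
        exact ⟨(hsq ⟨l, hl⟩).1.trans_le h1, h3.trans_lt (hsq ⟨l, hl⟩).2⟩
      have := hF k
      rw [dif_pos hex] at this
      rw [this]
      exact hex.choose_spec
  have hcross : ∀ i j : K, (F i).1 < (F j).2 := by
    intro i j
    rcases lt_trichotomy i j with hij | hij | hij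
    · exact ((hspec j).2.1 i hij).1.trans (hspec j).1
    · rw [hij]; exact (hspec j).1
    · exact (hspec i).1.trans ((hspec i).2.1 j hij).2
  obtain ⟨a, b, hab, hsq⟩ := squeeze hθ hK F hcross
  refine ⟨a, b, hab, ?_⟩
  rintro c ⟨z, hz1, hz2, hz3⟩ x y hax hxy hyb
  rcases (hspec c).2.2 with h | h
  · exact absurd hz3 (h z ((hsq c).1.trans hz1) (hz2.trans (hsq c).2))
  · exact h x y ((hsq c).1.le.trans hax) hxy (hyb.trans (hsq c).2.le)

theorem good_of (hθ : ℵ₀ ≤ θ) {K : Type} {f : Om (Lam θ) → K} {h : Lam θ → K}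
    {a b : Om (Lam θ)}
    (hd : ∀ i : Lam θ, ∀ x y, a ≤ x → x < y → y ≤ b → ∃ z, x < z ∧ z < y ∧ f z = h i) :
    Good θ f h a b where
  inf := hθ
  small := mk_Iio_Lam θ
  eta := Om.eta' hθ
  dense := hd

/-- every interval has at least `2^θ` elements -/
theorem le_mk_Ioo (hθ : ℵ₀ ≤ θ) {a b : Om (Lam θ)} (hab : a < b) : 2 ^ θ ≤ #(Ioo a b) := by
  obtain ⟨x0, hx1, hx2⟩ := exists_mid hθ hab
  have G : Good θ (fun _ : Om (Lam θ) => ()) (fun _ : Lam θ => ()) a b :=
    good_of hθ (fun i x y _ hxy _ => by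
      obtain ⟨z, hz1, hz2⟩ := exists_mid hθ hxy
      exact ⟨z, hz1, hz2, rfl⟩)
  obtain ⟨i, hi⟩ := exists_Iio_Lam θ
  let ext : (Iio i → Bool) → Lam θ → Bool := fun t j =>
    haveI := Classical.dec (j < i); if hj : j < i then t ⟨j, hj⟩ else false
  let F : (Iio i → Bool) → Ioo a b := fun t =>
    ⟨P Om.lev (fun _ => ()) (fun _ => ()) a b x0 (ext t) i, by
      have := (P_spec Om.lev G ⟨hx1, hx2⟩ (ext t) i).1
      exact ⟨this.1, this.2.1⟩⟩
  have hF : Function.Injective F := by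
    intro t s hts
    have hts' : P Om.lev (fun _ => ()) (fun _ => ()) a b x0 (ext t) i =
      P Om.lev (fun _ => ()) (fun _ => ()) a b x0 (ext s) i := congrArg Subtype.val hts
    by_contra hne
    have hd : ∃ k, k < i ∧ ext t k ≠ ext s k := by
      by_contra hcon
      push Not at hcon
      apply hne
      funext ⟨k, hk⟩
      have := hcon k hk
      have hk' : k < i := hk
      simpa [ext, hk'] using this
    obtain ⟨k, ⟨hki, hk⟩, hmin⟩ := (wellFounded_lt (α := Lam θ)).has_min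
      {k | k < i ∧ ext t k ≠ ext s k} hd
    have hag : ∀ m, m < k → ext t m = ext s m := by
      intro m hm
      by_contra hne
      exact hmin m ⟨hm.trans hki, hne⟩ hm
    have e := P_congr Om.lev (fun _ => ()) (fun _ => ()) a b x0 (ext t) (ext s) k hag
    have g1 := (P_spec Om.lev G ⟨hx1, hx2⟩ (ext t) i).1.2.2 k hki
    have g2 := (P_spec Om.lev G ⟨hx1, hx2⟩ (ext s) i).1.2.2 k hki
    rw [← e, ← hts'] at g2
    cases htk : ext t k
    · cases hsk : ext s k
      · exact hk (htk.trans hsk.symm)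
      · exact absurd ((g1.2 htk).trans (g2.1 hsk)) (lt_irrefl _)
    · cases hsk : ext s k
      · exact absurd ((g2.2 hsk).trans (g1.1 htk)) (lt_irrefl _)
      · exact hk (htk.trans hsk.symm)
  have h1 := Cardinal.mk_le_of_injective hF
  have h2 : #(Iio i → Bool) = 2 ^ θ := by
    rw [← Cardinal.power_def, hi]
    simp
  rwa [h2] at h1

theorem mk_Om (hθ : ℵ₀ ≤ θ) : #(Om (Lam θ)) = 2 ^ θ := by
  apply le_antisymm (mk_Om_le hθ)
  obtain ⟨x, y, hxy⟩ := exists_pair (θ := θ) hθ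
  exact (le_mk_Ioo hθ hxy).trans (Cardinal.mk_set_le _)

/-- **Main lemma**: every colouring of the order with at most `θ` colours is preserved by a
non-identical automorphism. -/
theorem exists_auto (hθ : ℵ₀ ≤ θ) {K : Type} (hK : #K ≤ θ) (f : Om (Lam θ) → K) :
    ∃ g : Om (Lam θ) ≃o Om (Lam θ), (∃ x, g x ≠ x) ∧ ∀ z, f (g z) = f z := by
  classical
  obtain ⟨a, b, hab, hd⟩ := shrink hθ hK f
  -- the colours of the interval
  let C : Set K := f '' Ioo a b
  have hC : #C ≤ θ := (Cardinal.mk_set_le _).trans hK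
  obtain ⟨w, hw1, hw2⟩ := exists_mid hθ hab
  obtain ⟨h, hhC, hh⟩ := exists_enum θ hθ C hC ⟨f w, w, ⟨hw1, hw2⟩, rfl⟩
  have G : Good θ f h a b := good_of hθ (fun i x y hax hxy hyb => by
    obtain ⟨z, ⟨hz1, hz2⟩, hz3⟩ := hhC i
    exact hd (h i) ⟨z, hz1, hz2, hz3⟩ x y hax hxy hyb)
  -- two points of the same colour
  obtain ⟨x, hx1, hx2, hx3⟩ := hd (f w) ⟨w, hw1, hw2, rfl⟩ a w le_rfl hw1 hw2.le
  obtain ⟨y, hy1, hy2, hy3⟩ := hd (f w) ⟨w, hw1, hw2, rfl⟩ w b hw1.le hw2 le_rfl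
  have hx : a < x ∧ x < b := ⟨hx1, hx2.trans hw2⟩
  have hy : a < y ∧ y < b := ⟨hw1.trans hy1, hy2⟩
  have hxy : x ≠ y := (hx2.trans hy1).ne
  have hfxy : f x = f y := hx3.trans hy3.symm
  have hsurj : ∀ x0, a < x0 ∧ x0 < b → ∀ z, a < z → z < b →
      ∃ t i, P Om.lev f h a b x0 t i = z := by
    intro x0 hx0 z hz1 hz2
    refine P_surj Om.lev G hx0 (fun z hz1 hz2 i => hh _ ⟨z, ⟨hz1, hz2⟩, rfl⟩ i) ?_ ?_ z hz1 hz2
    · intro ρ I g hI hg hl
      exact Om.no_mono hθ ρ I hI g hg hl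
    · intro ρ I g hI hg hl
      exact Om.no_anti hθ ρ I hI g hg hl
  have hin : ∀ x0, a < x0 ∧ x0 < b → ∀ t i, a < P Om.lev f h a b x0 t i ∧
      P Om.lev f h a b x0 t i < b := fun x0 hx0 t i =>
    ⟨(P_spec Om.lev G hx0 t i).1.1, (P_spec Om.lev G hx0 t i).1.2.1⟩
  have hcolour : ∀ t i, f (P Om.lev f h a b y t i) = f (P Om.lev f h a b x t i) := by
    intro t i
    by_cases hi : IsBot i
    · rw [P_bot _ _ _ _ _ _ _ _ hi, P_bot _ _ _ _ _ _ _ _ hi, hfxy]
    · rw [((P_spec Om.lev G hx t i).2 hi).1, ((P_spec Om.lev G hy t i).2 hi).1]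
  -- the automorphism
  let g : Om (Lam θ) → Om (Lam θ) := fun z =>
    if H : ∃ q : (Lam θ → Bool) × Lam θ, P Om.lev f h a b x q.1 q.2 = z then
      P Om.lev f h a b y H.choose.1 H.choose.2 else z
  have hg1 : ∀ t i, g (P Om.lev f h a b x t i) = P Om.lev f h a b y t i := by
    intro t i
    have H : ∃ q : (Lam θ → Bool) × Lam θ, P Om.lev f h a b x q.1 q.2 =
      P Om.lev f h a b x t i := ⟨(t, i), rfl⟩
    have h1 : g (P Om.lev f h a b x t i) = P Om.lev f h a b y H.choose.1 H.choose.2 := dif_pos H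
    rw [h1]
    have h2 := H.choose_spec
    rcases P_tri Om.lev G H.choose.1 t H.choose.2 i with h3 | h3 | h3
    · exact absurd h2 (h3 x hx.1 hx.2).ne
    · exact h3 y hy.1 hy.2
    · exact absurd h2 (h3 x hx.1 hx.2).ne'
  have hg2 : ∀ z, ¬ (a < z ∧ z < b) → g z = z := by
    intro z hz
    have H : ¬ ∃ q : (Lam θ → Bool) × Lam θ, P Om.lev f h a b x q.1 q.2 = z := by
      rintro ⟨q, hq⟩
      exact hz (hq ▸ hin x hx q.1 q.2)
    exact dif_neg H
  have hmono : StrictMono g := by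
    intro z1 z2 hz
    by_cases h1 : a < z1 ∧ z1 < b
    · obtain ⟨t1, i1, e1⟩ := hsurj x hx z1 h1.1 h1.2
      by_cases h2 : a < z2 ∧ z2 < b
      · obtain ⟨t2, i2, e2⟩ := hsurj x hx z2 h2.1 h2.2
        rw [← e1, ← e2, hg1, hg1]
        rw [← e1, ← e2] at hz
        rcases P_tri Om.lev G t1 t2 i1 i2 with h3 | h3 | h3
        · exact h3 y hy.1 hy.2
        · exact absurd (h3 x hx.1 hx.2) hz.ne
        · exact absurd (h3 x hx.1 hx.2) hz.not_gt
      · rw [hg2 z2 h2, ← e1, hg1]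
        have : b ≤ z2 := by
          by_contra hlt
          exact h2 ⟨h1.1.trans hz, not_le.mp hlt⟩
        exact (hin y hy t1 i1).2.trans_le this
    · rw [hg2 z1 h1]
      by_cases h2 : a < z2 ∧ z2 < b
      · obtain ⟨t2, i2, e2⟩ := hsurj x hx z2 h2.1 h2.2
        rw [← e2, hg1]
        have : z1 ≤ a := by
          by_contra hlt
          exact h1 ⟨not_le.mp hlt, hz.trans h2.2⟩
        exact this.trans_lt (hin y hy t2 i2).1
      · rw [hg2 z2 h2]
        exact hz
  have hgsurj : Function.Surjective g := by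
    intro z
    by_cases h1 : a < z ∧ z < b
    · obtain ⟨t, i, e⟩ := hsurj y hy z h1.1 h1.2
      exact ⟨P Om.lev f h a b x t i, by rw [hg1, e]⟩
    · exact ⟨z, hg2 z h1⟩
  obtain ⟨i0, hi0⟩ : ∃ i : Lam θ, IsBot i := by
    have := nonempty_Lam θ
    obtain ⟨m, _, hm⟩ := (wellFounded_lt (α := Lam θ)).has_min Set.univ Set.univ_nonempty
    exact ⟨m, fun j => not_lt.mp (hm j trivial)⟩
  refine ⟨StrictMono.orderIsoOfSurjective g hmono hgsurj, ⟨x, ?_⟩, ?_⟩
  · show g x ≠ x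
    have e := P_bot Om.lev f h a b x (fun _ => false) i0 hi0
    have e' := P_bot Om.lev f h a b y (fun _ => false) i0 hi0
    have := hg1 (fun _ => false) i0
    rw [e, e'] at this
    rw [this]
    exact hxy.symm
  · intro z
    show f (g z) = f z
    by_cases h1 : a < z ∧ z < b
    · obtain ⟨t, i, e⟩ := hsurj x hx z h1.1 h1.2
      rw [← e, hg1, hcolour]
    · rw [hg2 z h1]

end main

end Pool.Agent.Q213.EtaOrder
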