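import Mathlib

/-! FAD-systems: a shift invariant mean on bounded sequences (Abel means along an ultrafilter). -/

set_option autoImplicit false

namespace Q213.FD

open Filter Topology Complex

/-- bounded sequences -/
def Bd (h : ℕ → ℂ) : Prop := ∃ C : ℝ, ∀ n, ‖h n‖ ≤ C

/-- Abel average -/
noncomputable def Ab (h : ℕ → ℂ) (x : ℝ) : ℂ := ((1 - x : ℝ) : ℂ) * ∑' n, h n * (x : ℂ) ^ n

/-- an ultrafilter of reals tending to `1` from below -/
noncomputable def U1 : Ultrafilter ℝ := Ultrafilter.of (𝓝[<] (1 : ℝ))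

lemma U1_le : (U1 : Filter ℝ) ≤ 𝓝[<] 1 := Ultrafilter.of_le _

lemma U1_Ioo : ∀ᶠ x in (U1 : Filter ℝ), x ∈ Set.Ioo (0 : ℝ) 1 :=
  U1_le (Ioo_mem_nhdsLT one_pos)

noncomputable def M (h : ℕ → ℂ) : ℂ := limUnder (U1 : Filter ℝ) (Ab h)

lemma Bd.summable {h : ℕ → ℂ} (hb : Bd h) {x : ℝ} (hx : x ∈ Set.Ioo (0 : ℝ) 1) :
    Summable (fun n => h n * (x : ℂ) ^ n) := by
  obtain ⟨C, hC⟩ := hb
  refine Summable.of_norm_bounded ((summable_geometric_of_lt_one hx.1.le hx.2).mul_left C) ?_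
  intro n
  rw [norm_mul, norm_pow, Complex.norm_real, Real.norm_of_nonneg hx.1.le]
  exact mul_le_mul_of_nonneg_right (hC n) (pow_nonneg hx.1.le n)

lemma Bd.const (z : ℂ) : Bd (fun _ => z) := ⟨‖z‖, fun _ => le_rfl⟩

lemma Bd.add {h g : ℕ → ℂ} (hh : Bd h) (hg : Bd g) : Bd (fun n => h n + g n) := by
  obtain ⟨C, hC⟩ := hh
  obtain ⟨D, hD⟩ := hg
  exact ⟨C + D, fun n => (norm_add_le _ _).trans (add_le_add (hC n) (hD n))⟩

lemma Bd.sub {h g : ℕ → ℂ} (hh : Bd h) (hg : Bd g) : Bd (fun n => h n - g n) := by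
  obtain ⟨C, hC⟩ := hh
  obtain ⟨D, hD⟩ := hg
  exact ⟨C + D, fun n => (norm_sub_le _ _).trans (add_le_add (hC n) (hD n))⟩

lemma Bd.mul {h g : ℕ → ℂ} (hh : Bd h) (hg : Bd g) : Bd (fun n => h n * g n) := by
  obtain ⟨C, hC⟩ := hh
  obtain ⟨D, hD⟩ := hg
  refine ⟨C * D, fun n => ?_⟩
  rw [norm_mul]
  exact mul_le_mul (hC n) (hD n) (norm_nonneg _) ((norm_nonneg _).trans (hC n))

lemma Bd.shift {h : ℕ → ℂ} (hh : Bd h) (k : ℕ) : Bd (fun n => h (n + k)) := by
  obtain ⟨C, hC⟩ := hh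
  exact ⟨C, fun n => hC _⟩

lemma Bd.sum {ι : Type*} (s : Finset ι) {h : ι → ℕ → ℂ} (hh : ∀ i ∈ s, Bd (h i)) :
    Bd (fun n => ∑ i ∈ s, h i n) := by
  classical
  induction s using Finset.induction_on with
  | empty => simpa using Bd.const 0
  | insert a s ha ih =>
    simp_rw [Finset.sum_insert ha]
    exact (hh a (by simp)).add (ih fun i hi => hh i (by simp [hi]))

lemma Bd.prod {ι : Type*} (s : Finset ι) {h : ι → ℕ → ℂ} (hh : ∀ i ∈ s, Bd (h i)) :
    Bd (fun n => ∏ i ∈ s, h i n) := by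
  classical
  induction s using Finset.induction_on with
  | empty => simpa using Bd.const 1
  | insert a s ha ih =>
    simp_rw [Finset.prod_insert ha]
    exact (hh a (by simp)).mul (ih fun i hi => hh i (by simp [hi]))

lemma Bd.pow {z : ℂ} (hz : ‖z‖ = 1) : Bd (fun n => z ^ n) :=
  ⟨1, fun n => by rw [norm_pow, hz, one_pow]⟩

lemma Bd.of_tendsto {h : ℕ → ℂ} {z : ℂ} (hz : Tendsto h atTop (𝓝 z)) : Bd h := by
  have := hz.norm.bddAbove_range
  obtain ⟨C, hC⟩ := this
  exact ⟨C, fun n => hC ⟨n, rfl⟩⟩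

lemma Bd.tendsto {h : ℕ → ℂ} (hb : Bd h) : Tendsto (Ab h) U1 (𝓝 (M h)) := by
  obtain ⟨C, hC⟩ := id hb
  have hmem : ∀ᶠ x in (U1 : Filter ℝ), Ab h x ∈ Metric.closedBall (0 : ℂ) C := by
    filter_upwards [U1_Ioo] with x hx
    rw [mem_closedBall_zero_iff]
    unfold Ab
    have hs := hb.summable hx
    have h1 : ‖∑' n, h n * (x : ℂ) ^ n‖ ≤ ∑' n : ℕ, C * x ^ n := by
      refine tsum_of_norm_bounded
        ((summable_geometric_of_lt_one hx.1.le hx.2).mul_left C).hasSum ?_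
      intro n
      rw [norm_mul, norm_pow, Complex.norm_real, Real.norm_of_nonneg hx.1.le]
      exact mul_le_mul_of_nonneg_right (hC n) (pow_nonneg hx.1.le n)
    rw [tsum_mul_left, tsum_geometric_of_lt_one hx.1.le hx.2] at h1
    have h1x : 0 < 1 - x := by linarith [hx.2]
    rw [norm_mul, Complex.norm_real, Real.norm_of_nonneg h1x.le]
    calc (1 - x) * ‖∑' n, h n * (x : ℂ) ^ n‖ ≤ (1 - x) * (C * (1 - x)⁻¹) :=
          mul_le_mul_of_nonneg_left h1 h1x.le
      _ = C := by field_simp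
  obtain ⟨z, -, hz⟩ := (isCompact_closedBall (0 : ℂ) C).ultrafilter_le_nhds'
    (U1.map (Ab h)) hmem
  exact tendsto_nhds_limUnder ⟨z, hz⟩

lemma M_eq {h : ℕ → ℂ} {z : ℂ} (hz : Tendsto (Ab h) (𝓝[<] 1) (𝓝 z)) : M h = z :=
  (hz.mono_left U1_le).limUnder_eq

lemma M_uniq {h : ℕ → ℂ} (hb : Bd h) {z : ℂ} (hz : Tendsto (Ab h) U1 (𝓝 z)) : M h = z :=
  tendsto_nhds_unique hb.tendsto hz

lemma M_add {h g : ℕ → ℂ} (hh : Bd h) (hg : Bd g) : M (fun n => h n + g n) = M h + M g := by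
  refine M_uniq (hh.add hg) ?_
  refine (hh.tendsto.add hg.tendsto).congr' ?_
  filter_upwards [U1_Ioo] with x hx
  unfold Ab
  rw [← mul_add, ← (hh.summable hx).tsum_add (hg.summable hx)]
  congr 2
  ext n
  ring

lemma M_const_mul {h : ℕ → ℂ} (hh : Bd h) (z : ℂ) : M (fun n => z * h n) = z * M h := by
  refine M_uniq ((Bd.const z).mul hh) ?_
  refine (hh.tendsto.const_mul z).congr' ?_
  filter_upwards [U1_Ioo] with x hx
  unfold Ab
  simp_rw [mul_assoc, tsum_mul_left]
  ring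

lemma M_sub {h g : ℕ → ℂ} (hh : Bd h) (hg : Bd g) : M (fun n => h n - g n) = M h - M g := by
  have h1 := M_add hh ((Bd.const (-1)).mul hg)
  rw [M_const_mul hg] at h1
  calc M (fun n => h n - g n) = M (fun n => h n + -1 * g n) := by
        congr 1; ext n; ring
    _ = _ := by rw [h1]; ring

lemma M_sum {ι : Type*} (s : Finset ι) {h : ι → ℕ → ℂ} (hh : ∀ i ∈ s, Bd (h i)) :
    M (fun n => ∑ i ∈ s, h i n) = ∑ i ∈ s, M (h i) := by
  classical
  induction s using Finset.induction_on with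
  | empty =>
    simp only [Finset.sum_empty]
    have := M_const_mul (Bd.const 1) 0
    simpa using this
  | insert a s ha ih =>
    simp_rw [Finset.sum_insert ha]
    rw [M_add (hh a (by simp)) (Bd.sum s fun i hi => hh i (by simp [hi])),
      ih fun i hi => hh i (by simp [hi])]

lemma M_shift1 {h : ℕ → ℂ} (hh : Bd h) : M (fun n => h (n + 1)) = M h := by
  symm
  refine M_uniq hh ?_
  have h1 := (hh.shift 1).tendsto
  have hx1 : Tendsto (fun x : ℝ => (x : ℂ)) U1 (𝓝 1) := by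
    have : Tendsto (fun x : ℝ => (x : ℂ)) (𝓝[<] 1) (𝓝 ((1 : ℝ) : ℂ)) :=
      (Complex.continuous_ofReal.tendsto 1).mono_left nhdsWithin_le_nhds
    simpa using this.mono_left U1_le
  have hx0 : Tendsto (fun x : ℝ => ((1 - x : ℝ) : ℂ)) U1 (𝓝 0) := by
    have := (tendsto_const_nhds (x := (1 : ℂ))).sub hx1
    simpa using this
  have h2 := (hx0.mul_const (h 0)).add (hx1.mul h1)
  simp only [zero_mul, one_mul, zero_add] at h2
  refine h2.congr' ?_
  filter_upwards [U1_Ioo] with x hx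
  unfold Ab
  rw [(hh.summable hx).tsum_eq_zero_add]
  have : ∑' n, h (n + 1) * (x : ℂ) ^ (n + 1) = x * ∑' n, h (n + 1) * (x : ℂ) ^ n := by
    rw [← tsum_mul_left]
    congr 1
    ext n
    ring
  rw [this]
  simp only [pow_zero, mul_one]
  ring

lemma M_shift {h : ℕ → ℂ} (hh : Bd h) (k : ℕ) : M (fun n => h (n + k)) = M h := by
  induction k with
  | zero => rfl
  | succ k ih =>
    rw [← ih, ← M_shift1 (hh.shift k)]
    congr 1
    ext n
    congr 1
    ring

lemma M_norm_le {g : ℕ → ℂ} {h : ℕ → ℝ} (hh : Bd (fun n => (h n : ℂ)))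
    (hgh : ∀ n, ‖g n‖ ≤ h n) : ‖M g‖ ≤ (M (fun n => (h n : ℂ))).re := by
  have hg : Bd g := by
    obtain ⟨C, hC⟩ := hh
    refine ⟨C, fun n => (hgh n).trans ?_⟩
    have := hC n
    rw [Complex.norm_real] at this
    exact (le_abs_self _).trans this
  have h1 := hg.tendsto.norm
  have h2 := (Complex.continuous_re.tendsto _).comp hh.tendsto
  refine le_of_tendsto_of_tendsto h1 h2 ?_
  filter_upwards [U1_Ioo] with x hx
  have h1x : 0 < 1 - x := by linarith [hx.2]
  simp only [Function.comp, Ab]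
  rw [norm_mul, Complex.norm_real, Real.norm_of_nonneg h1x.le, Complex.re_ofReal_mul]
  refine mul_le_mul_of_nonneg_left ?_ h1x.le
  have hs := hh.summable hx
  have hs' : HasSum (fun n => h n * x ^ n) (∑' n, (h n : ℂ) * (x : ℂ) ^ n).re := by
    have := Complex.hasSum_re hs.hasSum
    refine this.congr_fun ?_ |> fun h => h
    intro n
    rw [← Complex.ofReal_pow, ← Complex.ofReal_mul, Complex.ofReal_re]
  refine tsum_of_norm_bounded hs' ?_
  intro n
  rw [norm_mul, norm_pow, Complex.norm_real, Real.norm_of_nonneg hx.1.le]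
  exact mul_le_mul_of_nonneg_right (hgh n) (pow_nonneg hx.1.le n)

lemma M_one : M (fun _ => 1) = 1 := by
  refine M_uniq (Bd.const 1) ?_
  refine tendsto_const_nhds.congr' ?_
  filter_upwards [U1_Ioo] with x hx
  unfold Ab
  have h1 : ∑' n : ℕ, (1 : ℂ) * (x : ℂ) ^ n = (1 - (x : ℂ))⁻¹ := by
    simp_rw [one_mul]
    refine tsum_geometric_of_norm_lt_one ?_
    rw [Complex.norm_real, Real.norm_of_nonneg hx.1.le]
    exact hx.2
  rw [h1]
  have : (1 - (x : ℂ)) ≠ 0 := by
    intro h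
    have : (x : ℂ) = ((1 : ℝ) : ℂ) := by push_cast; linear_combination -h
    have := Complex.ofReal_injective this
    linarith [hx.2]
  push_cast
  field_simp

lemma M_const (z : ℂ) : M (fun _ => z) = z := by
  have := M_const_mul (Bd.const 1) z
  rw [M_one] at this
  simpa using this

/-- nonnegative real sequences have nonnegative real mean -/
lemma M_nonneg {h : ℕ → ℝ} (hh : Bd (fun n => (h n : ℂ))) (h0 : ∀ n, 0 ≤ h n) :
    0 ≤ (M (fun n => (h n : ℂ))).re ∧ M (fun n => (h n : ℂ)) = ((M (fun n => (h n : ℂ))).re : ℂ) := by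
  have h1 := M_norm_le (g := fun n => (h n : ℂ)) hh (fun n => by
    rw [Complex.norm_real, Real.norm_of_nonneg (h0 n)])
  refine ⟨(norm_nonneg _).trans h1, ?_⟩
  have h2 : ‖M (fun n => (h n : ℂ))‖ = (M (fun n => (h n : ℂ))).re :=
    le_antisymm h1 (Complex.re_le_norm _)
  exact (Complex.re_eq_norm.1 h2.symm) |> fun h => by
    rw [Complex.nonneg_iff] at h
    apply Complex.ext
    · simp
    · simp [← h.2]

lemma M_close {g h : ℕ → ℂ} (hg : Bd g) (hh : Bd h) {ε : ℝ} (hε : ∀ n, 1 ≤ n → ‖g n - h n‖ ≤ ε) :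
    ‖M g - M h‖ ≤ ε := by
  rw [← M_sub hg hh, ← M_shift1 (hg.sub hh)]
  have := M_norm_le (g := fun n => g (n + 1) - h (n + 1)) (h := fun _ => ε)
    (Bd.const _) (fun n => hε _ (by omega))
  rw [M_const] at this
  simpa using this

lemma M_congr {g h : ℕ → ℂ} (hg : Bd g) (hh : Bd h) (hε : ∀ n, 1 ≤ n → g n = h n) :
    M g = M h := by
  have := M_close hg hh (ε := 0) (fun n hn => by rw [hε n hn]; simp)
  rw [← sub_eq_zero]
  exact norm_le_zero_iff.1 this

lemma M_null {h : ℕ → ℂ} (hz : Tendsto h atTop (𝓝 0)) : M h = 0 := by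
  have hb : Bd h := Bd.of_tendsto hz
  rw [← norm_le_zero_iff]
  refine le_of_forall_pos_le_add fun ε hε => ?_
  have h1 : ∀ᶠ n in atTop, ‖h n‖ ≤ ε := by
    have := hz.norm
    rw [norm_zero] at this
    exact this.eventually (eventually_le_nhds hε)
  obtain ⟨N, hN⟩ := eventually_atTop.1 h1
  rw [← M_shift hb N]
  have := M_norm_le (g := fun n => h (n + N)) (h := fun _ => ε) (Bd.const _)
    (fun n => hN _ (by omega))
  rw [M_const] at this
  simpa using this

lemma M_diff_null {g h : ℕ → ℂ} (hg : Bd g) (hh : Bd h)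
    (hz : Tendsto (fun n => g n - h n) atTop (𝓝 0)) : M g = M h := by
  rw [← sub_eq_zero, ← M_sub hg hh]
  exact M_null hz

/-- periodic times a character nontrivial on the period -/
lemma M_per_mul_pow {g : ℕ → ℂ} (hg : Bd g) {Q : ℕ} (hQ : ∀ n, g (n + Q) = g n) {z : ℂ}
    (hz : ‖z‖ = 1) (hzQ : z ^ Q ≠ 1) : M (fun n => g n * z ^ n) = 0 := by
  have hb : Bd (fun n => g n * z ^ n) := hg.mul (Bd.pow hz)
  have h1 : M (fun n => g (n + Q) * z ^ (n + Q)) = M (fun n => g n * z ^ n) := M_shift hb Q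
  have h2 : (fun n => g (n + Q) * z ^ (n + Q)) = fun n => z ^ Q * (g n * z ^ n) := by
    ext n
    rw [hQ, pow_add]
    ring
  rw [h2, M_const_mul hb] at h1
  have h3 : (z ^ Q - 1) * M (fun n => g n * z ^ n) = 0 := by linear_combination h1
  rcases mul_eq_zero.1 h3 with h | h
  · exact absurd (sub_eq_zero.1 h) hzQ
  · exact h

/-- indicator of a residue class -/
noncomputable def cls (Q y n : ℕ) : ℝ := if n % Q = y % Q then 1 else 0

lemma cls_nonneg (Q y n : ℕ) : 0 ≤ cls Q y n := by unfold cls; split_ifs <;> simp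

lemma cls_le_one (Q y n : ℕ) : cls Q y n ≤ 1 := by unfold cls; split_ifs <;> simp

lemma cls_per (Q y n : ℕ) : cls Q y (n + Q) = cls Q y n := by unfold cls; simp

lemma cls_bd (Q y : ℕ) : Bd (fun n => (cls Q y n : ℂ)) :=
  ⟨1, fun n => by
    rw [Complex.norm_real, Real.norm_of_nonneg (cls_nonneg _ _ _)]; exact cls_le_one _ _ _⟩

lemma M_cls (Q y : ℕ) (hQ : 0 < Q) : M (fun n => (cls Q y n : ℂ)) = ((1 / Q : ℝ) : ℂ) := by
  have hstep : ∀ y, M (fun n => (cls Q (y + 1) n : ℂ)) = M (fun n => (cls Q y n : ℂ)) := by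
    intro y
    rw [← M_shift1 (cls_bd Q (y + 1))]
    congr 1
    ext n
    congr 1
    unfold cls
    have : (n + 1) % Q = (y + 1) % Q ↔ n % Q = y % Q := by
      constructor
      · intro h
        exact Nat.ModEq.add_right_cancel' 1 h
      · intro h
        exact Nat.ModEq.add_right 1 h
    simp only [this]
  have hall : ∀ y, M (fun n => (cls Q y n : ℂ)) = M (fun n => (cls Q 0 n : ℂ)) := by
    intro y
    induction y with
    | zero => rfl
    | succ y ih => rw [hstep, ih]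
  have hsum : M (fun n => ∑ y ∈ Finset.range Q, (cls Q y n : ℂ)) = 1 := by
    rw [← M_one]
    congr 1
    ext n
    rw [Finset.sum_eq_single (n % Q)]
    · unfold cls; simp
    · intro b hb hne
      unfold cls
      rw [if_neg]
      · simp
      · rw [Nat.mod_eq_of_lt (Finset.mem_range.1 hb)]
        exact fun h => hne h.symm
    · intro h
      exact absurd (Finset.mem_range.2 (Nat.mod_lt n hQ)) h
  rw [M_sum _ (fun y _ => cls_bd Q y), Finset.sum_congr rfl (fun y _ => hall y),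
    Finset.sum_const, Finset.card_range, nsmul_eq_mul] at hsum
  rw [hall y]
  have hQ' : (Q : ℂ) ≠ 0 := by exact_mod_cast hQ.ne'
  push_cast
  field_simp
  linear_combination hsum

end Q213.FD
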