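import Pool.Agent.Q213.FDa

/-! FAD-systems: the determinants `det (A ^ n - 1)`. -/

set_option autoImplicit false

namespace Q213.FD

open Filter Topology Complex Polynomial

lemma det_sub_scalar {D : ℕ} (A : Matrix (Fin D) (Fin D) ℂ) (z : ℂ) :
    (A - Matrix.scalar (Fin D) z).det = (A.charpoly.roots.map (fun l => l - z)).prod := by
  have h1 : A.charpoly = (A.charpoly.roots.map (fun a => X - C a)).prod :=
    (IsAlgClosed.splits A.charpoly).eq_prod_roots_of_monic A.charpoly_monic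
  have hcard : Multiset.card A.charpoly.roots = D := by
    have := (splits_iff_card_roots.1 (IsAlgClosed.splits A.charpoly))
    rw [this, Matrix.charpoly_natDegree_eq_dim, Fintype.card_fin]
  have h2 : (Matrix.scalar (Fin D) z - A).det = (A.charpoly.roots.map (fun l => z - l)).prod := by
    rw [← Matrix.eval_charpoly]
    conv_lhs => rw [h1]
    rw [eval_multiset_prod, Multiset.map_map]
    simp
  have h3 : A - Matrix.scalar (Fin D) z = -(Matrix.scalar (Fin D) z - A) := by abel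
  rw [h3, Matrix.det_neg, h2, Fintype.card_fin]
  have h4 : (A.charpoly.roots.map (fun l => l - z)) =
      (A.charpoly.roots.map (fun l => (-1) * (z - l))) := by
    congr 1; ext l; ring
  rw [h4, Multiset.prod_map_mul, Multiset.map_const', Multiset.prod_replicate, hcard]

lemma det_pow_sub_one_zeta {D : ℕ} (A : Matrix (Fin D) (Fin D) ℂ) {n : ℕ} (hn : 0 < n) {ζ : ℂ}
    (hζ : IsPrimitiveRoot ζ n) :
    (A ^ n - 1).det = ∏ k ∈ Finset.range n, (A - Matrix.scalar (Fin D) (ζ ^ k)).det := by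
  have h1 : (X ^ n - C (1 : ℂ)) = ∏ i ∈ Finset.range n, (X - C (ζ ^ i * 1)) :=
    X_pow_sub_C_eq_prod hζ hn (one_pow n)
  let ψ : ℂ[X] →* ℂ := Matrix.detMonoidHom.comp
    ((aeval A : ℂ[X] →ₐ[ℂ] Matrix (Fin D) (Fin D) ℂ) : ℂ[X] →* Matrix (Fin D) (Fin D) ℂ)
  have hψ : ∀ p, ψ p = (aeval A p).det := fun p => rfl
  have h2 := congrArg ψ h1
  rw [map_prod, hψ] at h2
  simp only [hψ, map_sub, map_pow, aeval_X, aeval_C, mul_one, map_one] at h2
  rw [h2]
  refine Finset.prod_congr rfl fun k _ => ?_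
  rw [← map_pow]
  rfl

lemma prod_zeta {n : ℕ} (hn : 0 < n) (l : ℂ) :
    l ^ n - 1 = ∏ k ∈ Finset.range n, (l - (Complex.exp (2 * Real.pi * I / n)) ^ k) := by
  have hζ := Complex.isPrimitiveRoot_exp n hn.ne'
  have h1 : (X ^ n - C (1 : ℂ)) = ∏ i ∈ Finset.range n,
      (X - C ((Complex.exp (2 * Real.pi * I / n)) ^ i * 1)) :=
    X_pow_sub_C_eq_prod hζ hn (one_pow n)
  have h2 := congrArg (eval l) h1
  rw [eval_prod] at h2
  simpa using h2

lemma det_pow_sub_one {D : ℕ} (A : Matrix (Fin D) (Fin D) ℂ) {n : ℕ} (hn : 0 < n) :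
    (A ^ n - 1).det = (A.charpoly.roots.map (fun l => l ^ n - 1)).prod := by
  have hζ := Complex.isPrimitiveRoot_exp n hn.ne'
  rw [det_pow_sub_one_zeta A hn hζ]
  simp_rw [det_sub_scalar, prod_zeta hn]
  exact Multiset.prod_map_prod_map (Finset.range n).val A.charpoly.roots

lemma prod_range_conj_odd {g : ℂ → ℂ} (hg : ∀ z, g (starRingEnd ℂ z) = starRingEnd ℂ (g z))
    (m : ℕ) {ζ : ℂ} (hζ : ζ ^ (2 * m + 1) = 1) (hn : ‖ζ‖ = 1) :
    ∏ k ∈ Finset.range (2 * m + 1), g (ζ ^ k) =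
      g 1 * (Complex.normSq (∏ k ∈ Finset.range m, g (ζ ^ (k + 1))) : ℂ) := by
  have hc : ∀ j k, j + k = 2 * m + 1 → ζ ^ j = starRingEnd ℂ (ζ ^ k) := by
    intro j k hjk
    have h1 : ζ ^ j * ζ ^ k = 1 := by rw [← pow_add, hjk, hζ]
    have h2 : ‖ζ ^ k‖ = 1 := by rw [norm_pow, hn, one_pow]
    rw [← Complex.inv_eq_conj h2]
    exact eq_inv_of_mul_eq_one_left h1
  rw [Finset.prod_range_succ', pow_zero, two_mul, Finset.prod_range_add]
  have h1 : ∏ x ∈ Finset.range m, g (ζ ^ (m + x + 1)) =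
      starRingEnd ℂ (∏ k ∈ Finset.range m, g (ζ ^ (k + 1))) := by
    rw [← Finset.prod_range_reflect, map_prod]
    refine Finset.prod_congr rfl fun k hk => ?_
    have hk' := Finset.mem_range.1 hk
    rw [hc (m + (m - 1 - k) + 1) (k + 1) (by omega), hg]
  rw [h1, Complex.normSq_eq_conj_mul_self]
  ring

lemma prod_range_conj_even {g : ℂ → ℂ} (hg : ∀ z, g (starRingEnd ℂ z) = starRingEnd ℂ (g z))
    (m : ℕ) {ζ : ℂ} (hζ : ζ ^ (2 * m + 2) = 1) (hn : ‖ζ‖ = 1) :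
    ∏ k ∈ Finset.range (2 * m + 2), g (ζ ^ k) =
      g 1 * g (ζ ^ (m + 1)) * (Complex.normSq (∏ k ∈ Finset.range m, g (ζ ^ (k + 1))) : ℂ) := by
  have hc : ∀ j k, j + k = 2 * m + 2 → ζ ^ j = starRingEnd ℂ (ζ ^ k) := by
    intro j k hjk
    have h1 : ζ ^ j * ζ ^ k = 1 := by rw [← pow_add, hjk, hζ]
    have h2 : ‖ζ ^ k‖ = 1 := by rw [norm_pow, hn, one_pow]
    rw [← Complex.inv_eq_conj h2]
    exact eq_inv_of_mul_eq_one_left h1
  rw [show 2 * m + 2 = (m + 1 + m) + 1 by ring, Finset.prod_range_succ', pow_zero,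
    Finset.prod_range_add, Finset.prod_range_succ]
  have h1 : ∏ x ∈ Finset.range m, g (ζ ^ (m + 1 + x + 1)) =
      starRingEnd ℂ (∏ k ∈ Finset.range m, g (ζ ^ (k + 1))) := by
    rw [← Finset.prod_range_reflect, map_prod]
    refine Finset.prod_congr rfl fun k hk => ?_
    have hk' := Finset.mem_range.1 hk
    rw [hc (m + 1 + (m - 1 - k) + 1) (k + 1) (by omega), hg]
  rw [h1, Complex.normSq_eq_conj_mul_self]
  ring

/-- the integer matrix over the complex numbers -/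
noncomputable def cA {D : ℕ} (A : Matrix (Fin D) (Fin D) ℤ) : Matrix (Fin D) (Fin D) ℂ :=
  A.map (Int.castRingHom ℂ)

lemma det_cA {D : ℕ} (A : Matrix (Fin D) (Fin D) ℤ) (n : ℕ) :
    ((cA A) ^ n - 1).det = (((A ^ n - 1).det : ℤ) : ℂ) := by
  have h1 : (cA A) ^ n - 1 = (Int.castRingHom ℂ).mapMatrix (A ^ n - 1) := by
    simp [cA, map_sub, map_pow]
  rw [h1, ← RingHom.map_det]
  rfl

lemma det_conj {D : ℕ} (A : Matrix (Fin D) (Fin D) ℤ) (z : ℂ) :
    (cA A - Matrix.scalar (Fin D) (starRingEnd ℂ z)).det =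
      starRingEnd ℂ ((cA A - Matrix.scalar (Fin D) z).det) := by
  rw [RingHom.map_det]
  congr 1
  ext i j
  simp only [cA, Matrix.sub_apply, Matrix.map_apply, RingHom.mapMatrix_apply, map_sub]
  congr 1
  · simp
  · by_cases h : i = j
    · subst h; simp
    · simp [h]

lemma det_one_eq {D : ℕ} (A : Matrix (Fin D) (Fin D) ℤ) :
    (cA A - Matrix.scalar (Fin D) (1 : ℂ)).det = (((A - 1).det : ℤ) : ℂ) := by
  have := det_cA A 1
  rw [pow_one, pow_one] at this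
  rw [← this]
  simp

lemma norm_zeta (n : ℕ) : ‖Complex.exp (2 * Real.pi * I / n)‖ = 1 := by
  rcases Nat.eq_zero_or_pos n with rfl | hn
  · simp
  · exact (Complex.isPrimitiveRoot_exp n hn.ne').norm'_eq_one hn.ne'

lemma sign_odd {D : ℕ} (A : Matrix (Fin D) (Fin D) ℤ) (m : ℕ) :
    ∃ y : ℝ, 0 ≤ y ∧ (((A ^ (2 * m + 1) - 1).det : ℤ) : ℝ) = ((A - 1).det : ℤ) * y := by
  have hn : 0 < 2 * m + 1 := by omega
  have hζ := Complex.isPrimitiveRoot_exp (2 * m + 1) hn.ne'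
  have h1 := det_pow_sub_one_zeta (cA A) hn hζ
  rw [prod_range_conj_odd (g := fun z => (cA A - Matrix.scalar (Fin D) z).det)
    (det_conj A) m hζ.pow_eq_one (norm_zeta _), det_cA, det_one_eq] at h1
  refine ⟨Complex.normSq (∏ k ∈ Finset.range m, (cA A - (Matrix.scalar (Fin D))
    (cexp (2 * ↑Real.pi * I / ↑(2 * m + 1)) ^ (k + 1))).det), Complex.normSq_nonneg _, ?_⟩
  apply Complex.ofReal_injective
  rw [Complex.ofReal_mul, Complex.ofReal_intCast, Complex.ofReal_intCast]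
  exact h1

lemma det_even_aux {D : ℕ} (A : Matrix (Fin D) (Fin D) ℤ) (m : ℕ) :
    ∃ y : ℝ, 0 ≤ y ∧ (((A ^ (2 * m + 2) - 1).det : ℤ) : ℂ) =
      ((cA A - Matrix.scalar (Fin D) (1 : ℂ)).det * (cA A - Matrix.scalar (Fin D) (-1 : ℂ)).det)
        * y := by
  have hn : 0 < 2 * m + 2 := by omega
  have hζ := Complex.isPrimitiveRoot_exp (2 * m + 2) hn.ne'
  have h1 := det_pow_sub_one_zeta (cA A) hn hζ
  rw [prod_range_conj_even (g := fun z => (cA A - Matrix.scalar (Fin D) z).det)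
    (det_conj A) m hζ.pow_eq_one (norm_zeta _), det_cA] at h1
  have h2 : (Complex.exp (2 * Real.pi * I / ((2 * m + 2 : ℕ) : ℂ))) ^ (m + 1) = -1 := by
    have h3 : ((Complex.exp (2 * Real.pi * I / ((2 * m + 2 : ℕ) : ℂ))) ^ (m + 1)) ^ 2 = 1 := by
      rw [← pow_mul, show (m + 1) * 2 = 2 * m + 2 by ring]
      exact hζ.pow_eq_one
    rcases sq_eq_one_iff.1 h3 with h | h
    · exact absurd h (hζ.pow_ne_one_of_pos_of_lt (by omega) (by omega))
    · exact h
  rw [h2] at h1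
  exact ⟨_, Complex.normSq_nonneg _, h1⟩

lemma sign_even {D : ℕ} (A : Matrix (Fin D) (Fin D) ℤ) (m : ℕ) :
    ∃ y : ℝ, 0 ≤ y ∧ (((A ^ (2 * m + 2) - 1).det : ℤ) : ℝ) = ((A ^ 2 - 1).det : ℤ) * y := by
  have h0 : (((A ^ 2 - 1).det : ℤ) : ℂ) =
      ((cA A - Matrix.scalar (Fin D) (1 : ℂ)).det *
        (cA A - Matrix.scalar (Fin D) (-1 : ℂ)).det) := by
    rw [← det_cA, ← Matrix.det_mul]
    congr 1
    have e1 : Matrix.scalar (Fin D) (1 : ℂ) = 1 := map_one _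
    have e2 : Matrix.scalar (Fin D) (-1 : ℂ) = -1 := by rw [map_neg, map_one]
    rw [e1, e2]
    noncomm_ring
  obtain ⟨y, hy, h1⟩ := det_even_aux A m
  rw [← h0] at h1
  refine ⟨y, hy, ?_⟩
  apply Complex.ofReal_injective
  rw [Complex.ofReal_mul, Complex.ofReal_intCast, Complex.ofReal_intCast]
  exact h1

/-- `1` or `-1` -/
noncomputable def sig (x : ℤ) : ℤ := if 0 ≤ x then 1 else -1

lemma abs_of_sig {x : ℤ} {a y : ℝ} (hy : 0 ≤ y) (h : a = x * y) : |a| = sig x * a := by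
  unfold sig
  split_ifs with hx
  · rw [h, abs_of_nonneg]
    · push_cast; ring
    · have : (0 : ℝ) ≤ x := by exact_mod_cast hx
      positivity
  · rw [h, abs_of_nonpos]
    · push_cast; ring
    · have : (x : ℝ) ≤ 0 := by exact_mod_cast (not_le.1 hx).le
      exact mul_nonpos_of_nonpos_of_nonneg this hy

/-- the sign of `det (A ^ n - 1)` depends on the parity of `n` only -/
noncomputable def sg {D : ℕ} (A : Matrix (Fin D) (Fin D) ℤ) (n : ℕ) : ℤ :=
  if n % 2 = 0 then sig (A ^ 2 - 1).det else sig (A - 1).det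

lemma abs_det {D : ℕ} (A : Matrix (Fin D) (Fin D) ℤ) {n : ℕ} (hn : 0 < n) :
    |(((A ^ n - 1).det : ℤ) : ℝ)| = sg A n * ((A ^ n - 1).det : ℤ) := by
  unfold sg
  split_ifs with h
  · obtain ⟨m, rfl⟩ : ∃ m, n = 2 * m + 2 := ⟨n / 2 - 1, by omega⟩
    obtain ⟨y, hy, h1⟩ := sign_even A m
    exact abs_of_sig hy h1
  · obtain ⟨m, rfl⟩ : ∃ m, n = 2 * m + 1 := ⟨n / 2, by omega⟩
    obtain ⟨y, hy, h1⟩ := sign_odd A m
    exact abs_of_sig hy h1

lemma sg_ne {D : ℕ} (A : Matrix (Fin D) (Fin D) ℤ) (n : ℕ) : sg A n = 1 ∨ sg A n = -1 := by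
  unfold sg sig
  split_ifs <;> simp

end Q213.FD
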