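import Pool.Agent.Q213.FDb

/-! FAD-systems: trigonometric polynomials and their means over residue classes. -/

set_option autoImplicit false

namespace Q213.FD

open Filter Topology Complex

/-- powers of unimodular numbers -/
noncomputable def cpow : Circle →* (ℕ → ℂ) where
  toFun z := fun n => (z : ℂ) ^ n
  map_one' := by ext n; simp
  map_mul' := by intro x y; ext n; simp [mul_pow]

/-- trigonometric polynomials -/
noncomputable def TP : Subalgebra ℂ (ℕ → ℂ) := (MonoidAlgebra.lift ℂ (ℕ → ℂ) Circle cpow).range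

lemma TP_pow (z : Circle) : (fun n => (z : ℂ) ^ n) ∈ TP :=
  ⟨MonoidAlgebra.of ℂ Circle z, by simp [cpow]⟩

lemma TP_pow' {z : ℂ} (hz : ‖z‖ = 1) : (fun n => z ^ n) ∈ TP :=
  TP_pow ⟨z, mem_sphere_zero_iff_norm.2 hz⟩

lemma TP_const (z : ℂ) : (fun _ => z) ∈ TP := Subalgebra.algebraMap_mem TP z

lemma TP_rep {T : ℕ → ℂ} (hT : T ∈ TP) : ∃ (F : Finset Circle) (a : Circle → ℂ),
    ∀ n, T n = ∑ v ∈ F, a v * (v : ℂ) ^ n := by
  obtain ⟨x, rfl⟩ := hT
  refine ⟨x.coeff.support, x.coeff, fun n => ?_⟩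
  change (MonoidAlgebra.lift ℂ (ℕ → ℂ) Circle cpow) x n = _
  rw [MonoidAlgebra.lift_apply, Finsupp.sum, Finset.sum_apply]
  rfl

lemma cls_mul_pow (N y n : ℕ) {z : ℂ} (hz : z ^ N = 1) :
    (cls N y n : ℂ) * z ^ n = z ^ y * (cls N y n : ℂ) := by
  unfold cls
  split_ifs with h
  · have : z ^ n = z ^ y := by
      rw [← Nat.mod_add_div n N, ← Nat.mod_add_div y N, h]
      rw [pow_add, pow_add, pow_mul, pow_mul, hz]
      simp
    rw [this]; ring
  · simp

open Classical in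
lemma M_cls_pow {N y : ℕ} (hN : 0 < N) (z : Circle) :
    M (fun n => (cls N y n : ℂ) * (z : ℂ) ^ n) = if z ^ N = 1 then (z : ℂ) ^ y * ((1 / N : ℝ) : ℂ)
      else 0 := by
  split_ifs with h
  · have hz : (z : ℂ) ^ N = 1 := by
      have := congrArg (fun w : Circle => (w : ℂ)) h
      simpa using this
    have h1 : (fun n => (cls N y n : ℂ) * (z : ℂ) ^ n) = fun n => (z : ℂ) ^ y * (cls N y n : ℂ) := by
      ext n; exact cls_mul_pow N y n hz
    rw [h1, M_const_mul (cls_bd N y), M_cls N y hN]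
  · refine M_per_mul_pow (cls_bd N y) (fun n => by rw [cls_per]) (Circle.norm_coe z) ?_
    intro h2
    apply h
    apply Circle.ext
    simpa using h2

lemma TP_bd {T : ℕ → ℂ} (hT : T ∈ TP) : Bd T := by
  obtain ⟨F, a, h⟩ := TP_rep hT
  have : T = fun n => ∑ v ∈ F, a v * (v : ℂ) ^ n := funext h
  rw [this]
  exact Bd.sum F fun v _ => (Bd.const (a v)).mul (Bd.pow (Circle.norm_coe v))

theorem split {W : ℕ → ℝ} (hW0 : ∀ n, 0 ≤ W n) {T : ℕ → ℂ} (hT : T ∈ TP)
    (hWT : Tendsto (fun n => (W n : ℂ) - T n) atTop (𝓝 0)) :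
    ∃ N₀ : ℕ, 0 < N₀ ∧ ∃ P : ℕ → ℝ, (∀ n, 0 ≤ P n) ∧ (∀ n, P (n + N₀) = P n) ∧
      (∀ n, T n ≠ 0 → 0 < P n) ∧ ∃ (F : Finset Circle) (a : Circle → ℂ),
        (∀ v ∈ F, ∀ m, 0 < m → v ^ m ≠ 1) ∧
        ∀ n, T n = (P n : ℂ) + ∑ v ∈ F, a v * (v : ℂ) ^ n := by
  classical
  have hTb : Bd T := TP_bd hT
  have hWb : Bd (fun n => (W n : ℂ)) := by
    have h1 := (Bd.of_tendsto hWT).add hTb
    simpa using h1
  obtain ⟨F, a, hF⟩ := TP_rep hT
  set N₀ : ℕ := ∏ v ∈ F, (if 0 < orderOf v then orderOf v else 1) with hN₀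
  have hN0 : 0 < N₀ := Finset.prod_pos fun v _ => by split_ifs with h <;> omega
  have htor : ∀ v ∈ F, ∀ m, 0 < m → v ^ m = 1 → v ^ N₀ = 1 := by
    intro v hv m hm hvm
    have h1 : 0 < orderOf v := orderOf_pos_iff.2 (isOfFinOrder_iff_pow_eq_one.2 ⟨m, hm, hvm⟩)
    rw [← orderOf_dvd_iff_pow_eq_one]
    have h2 : (if 0 < orderOf v then orderOf v else 1) ∣ N₀ := Finset.dvd_prod_of_mem _ hv
    rwa [if_pos h1] at h2
  -- the class means
  have key : ∀ (y : ℕ) (w : Circle), M (fun n => (cls N₀ y n : ℂ) * W n * (w : ℂ) ^ n) =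
      (∑ v ∈ F with (v * w) ^ N₀ = 1, a v * (v : ℂ) ^ y) * (w : ℂ) ^ y * ((1 / N₀ : ℝ) : ℂ) := by
    intro y w
    have h1 : M (fun n => (cls N₀ y n : ℂ) * W n * (w : ℂ) ^ n) =
        M (fun n => ∑ v ∈ F, a v * ((cls N₀ y n : ℂ) * ((v * w : Circle) : ℂ) ^ n)) := by
      have e : (fun n => ∑ v ∈ F, a v * ((cls N₀ y n : ℂ) * ((v * w : Circle) : ℂ) ^ n)) =
          (fun n => (cls N₀ y n : ℂ) * T n * (w : ℂ) ^ n) := by
        ext n
        rw [hF n, Finset.mul_sum, Finset.sum_mul]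
        refine Finset.sum_congr rfl fun v _ => ?_
        rw [Circle.coe_mul, mul_pow]
        ring
      rw [e]
      refine M_diff_null (((cls_bd N₀ y).mul hWb).mul (Bd.pow (Circle.norm_coe w)))
        (((cls_bd N₀ y).mul hTb).mul (Bd.pow (Circle.norm_coe w))) ?_
      have h2 : (fun n => (cls N₀ y n : ℂ) * W n * (w : ℂ) ^ n -
          (cls N₀ y n : ℂ) * T n * (w : ℂ) ^ n) =
          fun n => ((cls N₀ y n : ℂ) * (w : ℂ) ^ n) * ((W n : ℂ) - T n) := by
        ext n; ring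
      rw [h2]
      refine squeeze_zero_norm (a := fun n => ‖(W n : ℂ) - T n‖) ?_ (by simpa using hWT.norm)
      intro n
      rw [norm_mul, norm_mul, norm_pow, Circle.norm_coe, one_pow, mul_one, Complex.norm_real,
        Real.norm_of_nonneg (cls_nonneg _ _ _)]
      exact mul_le_of_le_one_left (norm_nonneg _) (cls_le_one _ _ _)
    rw [h1, M_sum]
    · rw [Finset.sum_congr rfl (fun v _ => M_const_mul
        ((cls_bd N₀ y).mul (Bd.pow (Circle.norm_coe (v * w)))) (a v))]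
      simp_rw [M_cls_pow hN0]
      rw [Finset.sum_filter, Finset.sum_mul, Finset.sum_mul]
      refine Finset.sum_congr rfl fun v _ => ?_
      split_ifs
      · rw [Circle.coe_mul, mul_pow]; ring
      · simp
    · intro v _
      exact (Bd.const (a v)).mul ((cls_bd N₀ y).mul (Bd.pow (Circle.norm_coe (v * w))))
  have hNc : ((1 / N₀ : ℝ) : ℂ) ≠ 0 := by
    have : (N₀ : ℝ) ≠ 0 := by exact_mod_cast hN0.ne'
    exact_mod_cast one_div_ne_zero this
  set P : ℕ → ℂ := fun n => ∑ v ∈ F with v ^ N₀ = 1, a v * (v : ℂ) ^ n with hP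
  have hclsW : ∀ y, Bd (fun n => ((cls N₀ y n * W n : ℝ) : ℂ)) := by
    intro y
    have := (cls_bd N₀ y).mul hWb
    simpa using this
  have hPM : ∀ y, M (fun n => ((cls N₀ y n * W n : ℝ) : ℂ)) = P y * ((1 / N₀ : ℝ) : ℂ) := by
    intro y
    have := key y 1
    simp only [Circle.coe_one, one_pow, mul_one] at this
    rw [hP]
    simp only [Complex.ofReal_mul]
    exact this
  have hPre : ∀ y, P y = (((P y).re : ℝ) : ℂ) ∧ 0 ≤ (P y).re := by
    intro y
    obtain ⟨h1, h2⟩ := M_nonneg (hclsW y) (fun n => mul_nonneg (cls_nonneg _ _ _) (hW0 n))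
    rw [hPM] at h1 h2
    have h3 : (0 : ℝ) < 1 / N₀ := by positivity
    rw [Complex.re_mul_ofReal] at h1 h2
    have h4 : 0 ≤ (P y).re := by
      by_contra hc
      push Not at hc
      nlinarith
    refine ⟨?_, h4⟩
    rw [Complex.ofReal_mul] at h2
    exact mul_right_cancel₀ hNc h2
  refine ⟨N₀, hN0, fun n => (P n).re, fun n => (hPre n).2, ?_, ?_,
    F.filter (fun v => ¬ v ^ N₀ = 1), a, ?_, ?_⟩
  · intro n
    simp only [hP]
    congr 1
    refine Finset.sum_congr rfl fun v hv => ?_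
    have hv1 : (v : ℂ) ^ N₀ = 1 := by
      have := congrArg (fun w : Circle => (w : ℂ)) (Finset.mem_filter.1 hv).2
      simpa using this
    rw [pow_add, hv1, mul_one]
  · intro y hTy
    refine lt_of_le_of_ne (hPre y).2 fun h0 => hTy ?_
    have hP0 : P y = 0 := by
      have h0' : (P y).re = 0 := h0.symm
      rw [(hPre y).1, h0']; simp
    have hM0 : M (fun n => ((cls N₀ y n * W n : ℝ) : ℂ)) = 0 := by rw [hPM, hP0, zero_mul]
    have hall : ∀ w : Circle, ∑ v ∈ F with (v * w) ^ N₀ = 1, a v * (v : ℂ) ^ y = 0 := by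
      intro w
      have h1 := M_norm_le (g := fun n => (cls N₀ y n : ℂ) * W n * (w : ℂ) ^ n) (hclsW y) (by
        intro n
        rw [norm_mul, norm_pow, Circle.norm_coe, one_pow, mul_one, ← Complex.ofReal_mul,
          Complex.norm_real, Real.norm_of_nonneg (mul_nonneg (cls_nonneg _ _ _) (hW0 n))])
      rw [hM0, Complex.zero_re, norm_le_zero_iff, key] at h1
      have hw : (w : ℂ) ^ y ≠ 0 := pow_ne_zero _ (Circle.coe_ne_zero w)
      rcases mul_eq_zero.1 h1 with h | h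
      · rcases mul_eq_zero.1 h with h | h
        · exact h
        · exact absurd h hw
      · exact absurd h hNc
    rw [hF y, ← Finset.sum_fiberwise_of_maps_to (t := F.image (fun v => v ^ N₀))
      (g := fun v => v ^ N₀) (fun v hv => Finset.mem_image_of_mem _ hv)]
    refine Finset.sum_eq_zero fun μ hμ => ?_
    obtain ⟨v₀, hv₀, rfl⟩ := Finset.mem_image.1 hμ
    rw [← hall v₀⁻¹]
    refine Finset.sum_congr ?_ fun _ _ => rfl
    ext v
    simp only [Finset.mem_filter, and_congr_right_iff]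
    intro _
    rw [mul_pow, inv_pow, mul_inv_eq_one]
  · intro v hv m hm hvm
    obtain ⟨hv1, hv2⟩ := Finset.mem_filter.1 hv
    exact hv2 (htor v hv1 m hm hvm)
  · intro n
    rw [← (hPre n).1, hF n]
    simp only [hP]
    rw [Finset.sum_filter_add_sum_filter_not]

end Q213.FD
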