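import Pool.Agent.Q213.FDc

/-! FAD-systems: limit periodic functions and the key step. -/

set_option autoImplicit false

namespace Q213.FD

open Filter Topology Complex

/-- uniform limits of functions with periods in `K` -/
def LP (K : Set ℕ) (h : ℕ → ℝ) : Prop :=
  ∀ ε : ℝ, 0 < ε → ∃ Q ∈ K, ∃ g : ℕ → ℝ, (∀ n, g (n + Q) = g n) ∧ ∀ n, 1 ≤ n → |h n - g n| ≤ ε

def Lcl (K : Set ℕ) : Prop := ∀ a ∈ K, ∀ b ∈ K, Nat.lcm a b ∈ K

lemma per_mul {g : ℕ → ℝ} {Q : ℕ} (h : ∀ n, g (n + Q) = g n) (m n : ℕ) : g (n + m * Q) = g n := by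
  induction m with
  | zero => simp
  | succ m ih => rw [Nat.succ_mul, ← add_assoc, h, ih]

lemma per_dvd {g : ℕ → ℝ} {Q Q' : ℕ} (h : ∀ n, g (n + Q) = g n) (hd : Q ∣ Q') (n : ℕ) :
    g (n + Q') = g n := by
  obtain ⟨m, rfl⟩ := hd
  rw [mul_comm]
  exact per_mul h m n

lemma per_mod {g : ℕ → ℝ} {Q : ℕ} (h : ∀ n, g (n + Q) = g n) {m n : ℕ} (hmn : m ≡ n [MOD Q]) :
    g m = g n := by
  have h1 : g m = g (m % Q) := by
    conv_lhs => rw [← Nat.mod_add_div m Q, mul_comm]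
    exact per_mul h _ _
  have h2 : g n = g (n % Q) := by
    conv_lhs => rw [← Nat.mod_add_div n Q, mul_comm]
    exact per_mul h _ _
  rw [h1, h2, hmn]

lemma LP_per {K : Set ℕ} {Q : ℕ} (hQ : Q ∈ K) {g : ℕ → ℝ} (h : ∀ n, g (n + Q) = g n) : LP K g :=
  fun ε hε => ⟨Q, hQ, g, h, fun n _ => by simpa using hε.le⟩

lemma LP_mul {K : Set ℕ} (hK : Lcl K) {h₁ h₂ : ℕ → ℝ} {B : ℝ} (hB₁ : ∀ n, |h₁ n| ≤ B)
    (hB₂ : ∀ n, |h₂ n| ≤ B) (H₁ : LP K h₁) (H₂ : LP K h₂) : LP K (fun n => h₁ n * h₂ n) := by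
  intro ε hε
  have hB : 0 ≤ B := (abs_nonneg _).trans (hB₁ 0)
  set δ := min 1 (ε / (2 * B + 1)) with hδ
  have hδ0 : 0 < δ := lt_min one_pos (by positivity)
  have hδ1 : δ ≤ 1 := min_le_left _ _
  have hδ2 : δ * (2 * B + 1) ≤ ε := by
    have : δ ≤ ε / (2 * B + 1) := min_le_right _ _
    rwa [le_div_iff₀ (by positivity)] at this
  obtain ⟨Q₁, hQ₁, g₁, hg₁, hd₁⟩ := H₁ δ hδ0
  obtain ⟨Q₂, hQ₂, g₂, hg₂, hd₂⟩ := H₂ δ hδ0
  refine ⟨Nat.lcm Q₁ Q₂, hK _ hQ₁ _ hQ₂, fun n => g₁ n * g₂ n, ?_, ?_⟩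
  · intro n
    simp only
    rw [per_dvd hg₁ (Nat.dvd_lcm_left _ _), per_dvd hg₂ (Nat.dvd_lcm_right _ _)]
  · intro n hn
    have e : h₁ n * h₂ n - g₁ n * g₂ n = h₁ n * (h₂ n - g₂ n) + (h₁ n - g₁ n) * g₂ n := by ring
    have hg2 : |g₂ n| ≤ B + 1 := by
      have : g₂ n = h₂ n - (h₂ n - g₂ n) := by ring
      rw [this]
      calc |h₂ n - (h₂ n - g₂ n)| ≤ |h₂ n| + |h₂ n - g₂ n| := abs_sub _ _
        _ ≤ B + 1 := add_le_add (hB₂ n) ((hd₂ n hn).trans hδ1)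
    rw [e]
    calc |h₁ n * (h₂ n - g₂ n) + (h₁ n - g₁ n) * g₂ n|
        ≤ |h₁ n| * |h₂ n - g₂ n| + |h₁ n - g₁ n| * |g₂ n| := by
          rw [← abs_mul, ← abs_mul]; exact abs_add_le _ _
      _ ≤ B * δ + δ * (B + 1) := by
          refine add_le_add ?_ ?_
          · exact mul_le_mul (hB₁ n) (hd₂ n hn) (abs_nonneg _) hB
          · exact mul_le_mul (hd₁ n hn) hg2 (abs_nonneg _) hδ0.le
      _ = δ * (2 * B + 1) := by ring
      _ ≤ ε := hδ2

lemma LP_prod {K : Set ℕ} (hK : Lcl K) (h1 : 1 ∈ K) {ι : Type*} (s : Finset ι) (h : ι → ℕ → ℝ)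
    (hB : ∀ i ∈ s, ∀ n, |h i n| ≤ 1) (H : ∀ i ∈ s, LP K (h i)) : LP K (fun n => ∏ i ∈ s, h i n) := by
  classical
  induction s using Finset.induction_on with
  | empty => simpa using LP_per h1 (g := fun _ => (1 : ℝ)) (fun _ => rfl)
  | insert a s ha ih =>
    simp_rw [Finset.prod_insert ha]
    refine LP_mul hK (B := 1) (hB a (by simp)) ?_ (H a (by simp))
      (ih (fun i hi => hB i (by simp [hi])) (fun i hi => H i (by simp [hi])))
    intro n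
    rw [Finset.abs_prod]
    exact Finset.prod_le_one (fun _ _ => abs_nonneg _) (fun i hi => hB i (by simp [hi]) n)

lemma LP_mono {K K' : Set ℕ} (h : K ⊆ K') {g : ℕ → ℝ} (H : LP K g) : LP K' g := by
  intro ε hε
  obtain ⟨Q, hQ, x⟩ := H ε hε
  exact ⟨Q, h hQ, x⟩

lemma real_bd {h : ℕ → ℝ} {B : ℝ} (hB : ∀ n, |h n| ≤ B) : Bd (fun n => (h n : ℂ)) :=
  ⟨B, fun n => by rw [Complex.norm_real]; exact hB n⟩

lemma per_bd {g : ℕ → ℝ} {Q : ℕ} (hQ : 0 < Q) (h : ∀ n, g (n + Q) = g n) : ∃ B, ∀ n, |g n| ≤ B := by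
  refine ⟨∑ i ∈ Finset.range Q, |g i|, fun n => ?_⟩
  have h1 : g n = g (n % Q) := per_mod h (Nat.mod_modEq _ _).symm
  rw [h1]
  exact Finset.single_le_sum (f := fun i => |g i|) (fun i _ => abs_nonneg _)
    (Finset.mem_range.2 (Nat.mod_lt n hQ))

lemma M_LP {K : Set ℕ} (hK0 : ∀ Q ∈ K, 0 < Q) {h : ℕ → ℝ} {B : ℝ} (hB : ∀ n, |h n| ≤ B)
    (H : LP K h) {z : ℂ} (hz : ‖z‖ = 1) (hzK : ∀ Q ∈ K, z ^ Q ≠ 1) :
    M (fun n => (h n : ℂ) * z ^ n) = 0 := by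
  rw [← norm_le_zero_iff]
  refine le_of_forall_pos_le_add fun ε hε => ?_
  obtain ⟨Q, hQ, g, hg, hd⟩ := H ε hε
  obtain ⟨B', hB'⟩ := per_bd (hK0 Q hQ) hg
  have h1 : M (fun n => (g n : ℂ) * z ^ n) = 0 :=
    M_per_mul_pow (real_bd hB') (fun n => by rw [hg]) hz (hzK Q hQ)
  have h2 := M_close (ε := ε) ((real_bd hB).mul (Bd.pow hz)) ((real_bd hB').mul (Bd.pow hz)) (by
    intro n hn
    have e : (h n : ℂ) * z ^ n - (g n : ℂ) * z ^ n = ((h n - g n : ℝ) : ℂ) * z ^ n := by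
      push_cast; ring
    rw [e, norm_mul, norm_pow, hz, one_pow, mul_one, Complex.norm_real]
    exact hd n hn)
  rw [h1, sub_zero] at h2
  linarith

/-- the `p`-factor with exponents `a, b` at `p`-adic valuation `j` -/
noncomputable def eta (p : ℕ) (a b : ℝ) (j : ℕ) : ℝ := (p : ℝ) ^ (-(a * j + b * (p : ℝ) ^ j))

lemma eta_pos {p : ℕ} (hp : 0 < p) (a b : ℝ) (j : ℕ) : 0 < eta p a b j :=
  Real.rpow_pos_of_pos (by exact_mod_cast hp) _

lemma eta_anti {p : ℕ} (hp : 1 < p) {a b : ℝ} (ha : 0 ≤ a) (hb : 0 ≤ b) {i j : ℕ} (hij : i ≤ j) :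
    eta p a b j ≤ eta p a b i := by
  have hp1 : (1 : ℝ) < p := by exact_mod_cast hp
  refine Real.rpow_le_rpow_of_exponent_le hp1.le (neg_le_neg ?_)
  have h1 : (i : ℝ) ≤ j := by exact_mod_cast hij
  have h2 : (p : ℝ) ^ i ≤ (p : ℝ) ^ j := pow_le_pow_right₀ hp1.le hij
  exact add_le_add (mul_le_mul_of_nonneg_left h1 ha) (mul_le_mul_of_nonneg_left h2 hb)

lemma eta_lt {p : ℕ} (hp : 1 < p) {a b : ℝ} (ha : 0 ≤ a) (hb : 0 ≤ b) (hab : ¬ (a = 0 ∧ b = 0))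
    {i j : ℕ} (hij : i < j) : eta p a b j < eta p a b i := by
  have hp1 : (1 : ℝ) < p := by exact_mod_cast hp
  refine Real.rpow_lt_rpow_of_exponent_lt hp1 (neg_lt_neg ?_)
  have h1 : (i : ℝ) < j := by exact_mod_cast hij
  have h2 : (p : ℝ) ^ i < (p : ℝ) ^ j := pow_lt_pow_right₀ hp1 hij
  rcases eq_or_lt_of_le ha with h | h
  · rcases eq_or_lt_of_le hb with h' | h'
    · exact absurd ⟨h.symm, h'.symm⟩ hab
    · exact add_lt_add_of_le_of_lt (mul_le_mul_of_nonneg_left h1.le ha)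
        (mul_lt_mul_of_pos_left h2 h')
  · exact add_lt_add_of_lt_of_le (mul_lt_mul_of_pos_left h1 h)
      (mul_le_mul_of_nonneg_left h2.le hb)

lemma eta_le_one {p : ℕ} (hp : 1 < p) {a b : ℝ} (ha : 0 ≤ a) (hb : 0 ≤ b) (j : ℕ) :
    eta p a b j ≤ 1 := by
  have hp1 : (1 : ℝ) < p := by exact_mod_cast hp
  refine Real.rpow_le_one_of_one_le_of_nonpos hp1.le ?_
  have : 0 ≤ a * j + b * (p : ℝ) ^ j := by positivity
  linarith

lemma eta_zero {p : ℕ} (j : ℕ) : eta p 0 0 j = 1 := by simp [eta]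

lemma eta_abs {p : ℕ} (hp : 1 < p) {a b : ℝ} (ha : 0 ≤ a) (hb : 0 ≤ b) (j : ℕ) :
    |eta p a b j| ≤ 1 := by
  rw [abs_of_pos (eta_pos (by omega) _ _ _)]
  exact eta_le_one hp ha hb j

lemma eta_tendsto {p : ℕ} (hp : 1 < p) {a b : ℝ} (ha : 0 ≤ a) (hb : 0 ≤ b)
    (hab : ¬ (a = 0 ∧ b = 0)) : Tendsto (fun j => eta p a b j) atTop (𝓝 0) := by
  have hp1 : (1 : ℝ) < p := by exact_mod_cast hp
  have h1 : Tendsto (fun j : ℕ => (a * j + b * (p : ℝ) ^ j)) atTop atTop := by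
    rcases eq_or_lt_of_le ha with h | h
    · rcases eq_or_lt_of_le hb with h' | h'
      · exact absurd ⟨h.symm, h'.symm⟩ hab
      · refine tendsto_atTop_mono (f := fun j : ℕ => b * (p : ℝ) ^ j) ?_
          ((tendsto_pow_atTop_atTop_of_one_lt hp1).const_mul_atTop h')
        intro j
        have : 0 ≤ a * j := by positivity
        linarith
    · refine tendsto_atTop_mono (f := fun j : ℕ => a * (j : ℝ)) ?_
          (tendsto_natCast_atTop_atTop.const_mul_atTop h)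
      intro j
      have : 0 ≤ b * (p : ℝ) ^ j := by positivity
      linarith
  have h2 : Tendsto (fun j : ℕ => Real.exp (-(Real.log p * (a * j + b * (p : ℝ) ^ j)))) atTop
      (𝓝 0) := by
    refine Real.tendsto_exp_neg_atTop_nhds_zero.comp ?_
    exact h1.const_mul_atTop (Real.log_pos hp1)
  refine h2.congr fun j => ?_
  unfold eta
  rw [Real.rpow_def_of_pos (by linarith)]
  congr 1
  ring

/-- truncated valuation -/
def tv (p J n : ℕ) : ℕ := padicValNat p (Nat.gcd n (p ^ J))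

lemma tv_per (p J n : ℕ) : tv p J (n + p ^ J) = tv p J n := by
  unfold tv
  simp

lemma tv_eq {p : ℕ} (hp : p.Prime) (J : ℕ) {n : ℕ} (hn : 1 ≤ n) :
    tv p J n = min (padicValNat p n) J := by
  have := Fact.mk hp
  unfold tv
  have h1 : Nat.gcd n (p ^ J) ∣ p ^ J := Nat.gcd_dvd_right _ _
  obtain ⟨i, hi, h2⟩ := (Nat.dvd_prime_pow hp).1 h1
  rw [h2, padicValNat.prime_pow]
  apply le_antisymm
  · refine le_min ?_ hi
    rw [← padicValNat_dvd_iff_le (by omega), ← h2]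
    exact Nat.gcd_dvd_left _ _
  · have h3 : p ^ (min (padicValNat p n) J) ∣ p ^ i := by
      rw [← h2]
      refine Nat.dvd_gcd ?_ (pow_dvd_pow _ (min_le_right _ _))
      rw [padicValNat_dvd_iff_le (by omega)]
      exact min_le_left _ _
    exact (Nat.pow_dvd_pow_iff_le_right hp.one_lt).1 h3

lemma tv_le {p : ℕ} (hp : p.Prime) (J : ℕ) {n : ℕ} (hn : 1 ≤ n) : tv p J n ≤ padicValNat p n := by
  rw [tv_eq hp J hn]; exact min_le_left _ _

lemma LP_eta {K : Set ℕ} (hK : Lcl K) {p : ℕ} (hp : p.Prime) {m : ℕ} (hm0 : 0 < m) (hm : m ∈ K)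
    (hpJ : ∀ J, p ^ J ∈ K) {s t : ℕ → ℝ} (hs : ∀ n, s n = s (Nat.gcd n m))
    (ht : ∀ n, t n = t (Nat.gcd n m)) (hs0 : ∀ n, 0 ≤ s n) (ht0 : ∀ n, 0 ≤ t n) :
    LP K (fun n => eta p (s n) (t n) (padicValNat p n)) := by
  intro ε hε
  have hev : ∀ᶠ J in atTop, ∀ d ∈ m.divisors, ¬ (s d = 0 ∧ t d = 0) → eta p (s d) (t d) J ≤ ε := by
    rw [Filter.eventually_all_finset]
    intro d _
    by_cases h : s d = 0 ∧ t d = 0
    · exact Eventually.of_forall fun J h' => absurd h h'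
    · filter_upwards [(eta_tendsto hp.one_lt (hs0 d) (ht0 d) h).eventually
        (eventually_le_nhds hε)] with J hJ _
      exact hJ
  obtain ⟨J, hJ⟩ := hev.exists
  have hsp : ∀ n, s (n + m) = s n := by
    intro n
    rw [hs (n + m), Nat.gcd_add_self_left, ← hs]
  have htp : ∀ n, t (n + m) = t n := by
    intro n
    rw [ht (n + m), Nat.gcd_add_self_left, ← ht]
  refine ⟨Nat.lcm m (p ^ J), hK _ hm _ (hpJ J), fun n => eta p (s n) (t n) (tv p J n), ?_, ?_⟩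
  · intro n
    have h1 : tv p J (n + Nat.lcm m (p ^ J)) = tv p J n := by
      obtain ⟨k, hk⟩ := Nat.dvd_lcm_right m (p ^ J)
      rw [hk]
      clear hk
      induction k with
      | zero => simp
      | succ k ih => rw [Nat.mul_succ, ← add_assoc, tv_per, ih]
    simp only
    rw [per_dvd hsp (Nat.dvd_lcm_left _ _), per_dvd htp (Nat.dvd_lcm_left _ _), h1]
  · intro n hn
    beta_reduce
    by_cases h : s n = 0 ∧ t n = 0
    · rw [h.1, h.2, eta_zero, eta_zero]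
      simpa using hε.le
    · rw [tv_eq hp J hn]
      rcases le_total (padicValNat p n) J with h1 | h1
      · rw [min_eq_left h1]; simpa using hε.le
      · rw [min_eq_right h1, abs_sub_comm, abs_of_nonneg (by
          linarith [eta_anti hp.one_lt (hs0 n) (ht0 n) h1])]
        have h2 := hJ (Nat.gcd n m) (Nat.mem_divisors.2 ⟨Nat.gcd_dvd_right _ _, hm0.ne'⟩)
        rw [← hs, ← ht] at h2
        have h3 := h2 h
        have h4 := eta_pos hp.pos (s n) (t n) (padicValNat p n)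
        linarith

end Q213.FD
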