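import Pool.Agent.Q213.FDd

/-! FAD-systems: nonvanishing of the means at the frequencies `b / p ^ k`. -/

set_option autoImplicit false

namespace Q213.FD

open Filter Topology Complex

/-- the non-determinantal part of a FAD-sequence, normalised -/
structure ND where
  S : Finset ℕ
  hS : ∀ p ∈ S, p.Prime
  s : ℕ → ℕ → ℝ
  t : ℕ → ℕ → ℝ
  m : ℕ → ℕ
  hm0 : ∀ p ∈ S, 0 < m p
  hmp : ∀ p ∈ S, Nat.Coprime (m p) p
  hs : ∀ p ∈ S, ∀ n, s p n = s p (Nat.gcd n (m p))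
  ht : ∀ p ∈ S, ∀ n, t p n = t p (Nat.gcd n (m p))
  hs0 : ∀ p ∈ S, ∀ n, 0 ≤ s p n
  ht0 : ∀ p ∈ S, ∀ n, 0 ≤ t p n
  r : ℕ → ℝ
  mr : ℕ
  hmr0 : 0 < mr
  hr : ∀ n, r n = r (Nat.gcd n mr)
  hr0 : ∀ n, 0 < r n

namespace ND

variable (d : ND)

/-- the factor at `p` -/
noncomputable def ef (p n : ℕ) : ℝ := eta p (d.s p n) (d.t p n) (padicValNat p n)

noncomputable def V (n : ℕ) : ℝ := d.r n * ∏ p ∈ d.S, d.ef p n

lemma ef_pos {p : ℕ} (hp : p ∈ d.S) (n : ℕ) : 0 < d.ef p n := eta_pos (d.hS p hp).pos _ _ _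

lemma ef_le {p : ℕ} (hp : p ∈ d.S) (n : ℕ) : d.ef p n ≤ 1 :=
  eta_le_one (d.hS p hp).one_lt (d.hs0 p hp n) (d.ht0 p hp n) _

lemma ef_abs {p : ℕ} (hp : p ∈ d.S) (n : ℕ) : |d.ef p n| ≤ 1 := by
  rw [abs_of_pos (d.ef_pos hp n)]; exact d.ef_le hp n

lemma V_pos (n : ℕ) : 0 < d.V n :=
  mul_pos (d.hr0 n) (Finset.prod_pos fun p hp => d.ef_pos hp n)

lemma r_per (n : ℕ) : d.r (n + d.mr) = d.r n := by
  rw [d.hr (n + d.mr), Nat.gcd_add_self_left, ← d.hr]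

lemma s_per {p : ℕ} (hp : p ∈ d.S) (n : ℕ) : d.s p (n + d.m p) = d.s p n := by
  rw [d.hs p hp (n + d.m p), Nat.gcd_add_self_left, ← d.hs p hp]

lemma t_per {p : ℕ} (hp : p ∈ d.S) (n : ℕ) : d.t p (n + d.m p) = d.t p n := by
  rw [d.ht p hp (n + d.m p), Nat.gcd_add_self_left, ← d.ht p hp]

lemma prod_abs (s : Finset ℕ) (hs : s ⊆ d.S) (n : ℕ) : |∏ p ∈ s, d.ef p n| ≤ 1 := by
  rw [Finset.abs_prod]
  exact Finset.prod_le_one (fun _ _ => abs_nonneg _) (fun i hi => d.ef_abs (hs hi) n)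

lemma V_bdd : ∃ B, ∀ n, |d.V n| ≤ B := by
  obtain ⟨B, hB⟩ := per_bd d.hmr0 d.r_per
  refine ⟨B, fun n => ?_⟩
  unfold V
  rw [abs_mul]
  calc |d.r n| * |∏ p ∈ d.S, d.ef p n| ≤ B * 1 :=
        mul_le_mul (hB n) (d.prod_abs _ (Finset.Subset.refl _) n) (abs_nonneg _)
          ((abs_nonneg _).trans (hB 0))
    _ = B := mul_one B

lemma ef_LP {K : Set ℕ} (hK : Lcl K) {p : ℕ} (hp : p ∈ d.S) (hm : d.m p ∈ K)
    (hpJ : ∀ J, p ^ J ∈ K) : LP K (d.ef p) :=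
  LP_eta hK (d.hS p hp) (d.hm0 p hp) hm hpJ (d.hs p hp) (d.ht p hp) (d.hs0 p hp) (d.ht0 p hp)

lemma V_LP : LP {Q | 0 < Q} d.V := by
  have hK : Lcl {Q | 0 < Q} := fun a ha b hb => Nat.lcm_pos ha hb
  obtain ⟨B, hB⟩ := per_bd d.hmr0 d.r_per
  refine LP_mul hK (B := max B 1) (fun n => (hB n).trans (le_max_left _ _))
    (fun n => (d.prod_abs _ (Finset.Subset.refl _) n).trans (le_max_right _ _))
    (LP_per (Q := d.mr) d.hmr0 d.r_per) ?_
  exact LP_prod hK (by simp) d.S _ (fun p hp n => d.ef_abs hp n)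
    (fun p hp => d.ef_LP hK hp (d.hm0 p hp) (fun J => pow_pos (d.hS p hp).pos J))

end ND

lemma val_congr {q : ℕ} (hq : q.Prime) {n n₁ : ℕ} (hn : 1 ≤ n) (hn₁ : 1 ≤ n₁)
    (h : n ≡ n₁ [MOD q ^ (padicValNat q n₁ + 1)]) : padicValNat q n = padicValNat q n₁ := by
  have := Fact.mk hq
  have h1 : q ^ padicValNat q n₁ ∣ n := by
    have : n ≡ n₁ [MOD q ^ padicValNat q n₁] := h.of_dvd (pow_dvd_pow _ (Nat.le_succ _))
    exact (this.dvd_iff (dvd_refl _)).2 pow_padicValNat_dvd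
  have h2 : ¬ q ^ (padicValNat q n₁ + 1) ∣ n := by
    intro hc
    exact pow_succ_padicValNat_not_dvd (by omega) ((h.dvd_iff (dvd_refl _)).1 hc)
  rw [padicValNat_dvd_iff_le (by omega)] at h1 h2
  omega

lemma M_nonneg' {h : ℕ → ℝ} (hh : Bd (fun n => (h n : ℂ))) (h0 : ∀ n, 1 ≤ n → 0 ≤ h n) :
    0 ≤ (M (fun n => (h n : ℂ))).re := by
  rw [← M_shift1 hh]
  exact (M_nonneg (h := fun n => h (n + 1)) (hh.shift 1) (fun n => h0 _ (by omega))).1

lemma M_pos {h : ℕ → ℝ} (hh : Bd (fun n => (h n : ℂ))) {Q y : ℕ} (hQ : 0 < Q) {δ : ℝ} (hδ : 0 < δ)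
    (h0 : ∀ n, 1 ≤ n → 0 ≤ h n) (h1 : ∀ n, 1 ≤ n → n ≡ y [MOD Q] → δ ≤ h n) :
    0 < (M (fun n => (h n : ℂ))).re := by
  have hb2 : Bd (fun n => (δ : ℂ) * (cls Q y n : ℂ)) := (Bd.const _).mul (cls_bd Q y)
  have hb : Bd (fun n => ((h n - δ * cls Q y n : ℝ) : ℂ)) := by
    have := hh.sub hb2
    simpa using this
  have h2 := M_nonneg' hb (by
    intro n hn
    unfold cls
    split_ifs with h
    · have := h1 n hn h
      linarith
    · have := h0 n hn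
      linarith)
  have h3 : M (fun n => ((h n - δ * cls Q y n : ℝ) : ℂ)) =
      M (fun n => (h n : ℂ)) - δ * ((1 / Q : ℝ) : ℂ) := by
    rw [← M_cls Q y hQ, ← M_const_mul (cls_bd Q y), ← M_sub hh hb2]
    congr 1
    ext n
    push_cast
    ring
  rw [h3, Complex.sub_re, Complex.re_ofReal_mul, Complex.ofReal_re] at h2
  have : (0 : ℝ) < 1 / Q := by positivity
  nlinarith [mul_pos hδ this]

/-- output of `split` -/
structure SP (W : ℕ → ℝ) (T : ℕ → ℂ) where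
  hW0 : ∀ n, 0 ≤ W n
  hT : T ∈ TP
  hWT : Tendsto (fun n => (W n : ℂ) - T n) atTop (𝓝 0)
  N₀ : ℕ
  hN₀ : 0 < N₀
  P : ℕ → ℝ
  hP0 : ∀ n, 0 ≤ P n
  hPp : ∀ n, P (n + N₀) = P n
  hPT : ∀ n, T n ≠ 0 → 0 < P n
  F : Finset Circle
  a : Circle → ℂ
  hF : ∀ v ∈ F, ∀ m, 0 < m → v ^ m ≠ 1
  hsum : ∀ n, T n = (P n : ℂ) + ∑ v ∈ F, a v * (v : ℂ) ^ n

lemma exists_SP {W : ℕ → ℝ} (hW0 : ∀ n, 0 ≤ W n) {T : ℕ → ℂ} (hT : T ∈ TP)
    (hWT : Tendsto (fun n => (W n : ℂ) - T n) atTop (𝓝 0)) : Nonempty (SP W T) := by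
  obtain ⟨N₀, hN₀, P, hP0, hPp, hPT, F, a, hF, hsum⟩ := split hW0 hT hWT
  exact ⟨⟨hW0, hT, hWT, N₀, hN₀, P, hP0, hPp, hPT, F, a, hF, hsum⟩⟩

section

variable {W : ℕ → ℝ} {T : ℕ → ℂ} (e : SP W T) (d : ND)
include e

lemma SP.W_bd : Bd (fun n => (W n : ℂ)) := by
  have h1 := (Bd.of_tendsto e.hWT).add (TP_bd e.hT)
  simpa using h1

lemma M_WV {z : Circle} {m : ℕ} (hm : 0 < m) (hz : z ^ m = 1) :
    M (fun n => ((W n * d.V n : ℝ) : ℂ) * (z : ℂ) ^ n) =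
      M (fun n => ((e.P n * d.V n : ℝ) : ℂ) * (z : ℂ) ^ n) := by
  obtain ⟨B, hB⟩ := d.V_bdd
  have hVb : Bd (fun n => (d.V n : ℂ)) := real_bd hB
  have hzb : Bd (fun n => (z : ℂ) ^ n) := Bd.pow (Circle.norm_coe z)
  have hTb := TP_bd e.hT
  obtain ⟨B', hB'⟩ := per_bd e.hN₀ e.hPp
  have hPb : Bd (fun n => (e.P n : ℂ)) := real_bd hB'
  have h1 : M (fun n => ((W n * d.V n : ℝ) : ℂ) * (z : ℂ) ^ n) =
      M (fun n => T n * (d.V n : ℂ) * (z : ℂ) ^ n) := by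
    refine M_diff_null ?_ ((hTb.mul hVb).mul hzb) ?_
    · have := (e.W_bd.mul hVb).mul hzb
      simpa using this
    · have e1 : (fun n => ((W n * d.V n : ℝ) : ℂ) * (z : ℂ) ^ n - T n * (d.V n : ℂ) * (z : ℂ) ^ n) =
          fun n => ((W n : ℂ) - T n) * ((d.V n : ℂ) * (z : ℂ) ^ n) := by
        ext n; push_cast; ring
      rw [e1]
      refine squeeze_zero_norm (a := fun n => ‖(W n : ℂ) - T n‖ * B) ?_ ?_
      · intro n
        rw [norm_mul]
        refine mul_le_mul_of_nonneg_left ?_ (norm_nonneg _)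
        rw [norm_mul, norm_pow, Circle.norm_coe, one_pow, mul_one, Complex.norm_real]
        exact hB n
      · have := e.hWT.norm.mul_const B
        simpa using this
  rw [h1]
  have h2 : (fun n => T n * (d.V n : ℂ) * (z : ℂ) ^ n) =
      fun n => ((e.P n * d.V n : ℝ) : ℂ) * (z : ℂ) ^ n +
        ∑ v ∈ e.F, e.a v * ((d.V n : ℂ) * ((v * z : Circle) : ℂ) ^ n) := by
    ext n
    rw [e.hsum n, add_mul, add_mul, Finset.sum_mul, Finset.sum_mul]
    congr 1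
    · push_cast; ring
    · refine Finset.sum_congr rfl fun v _ => ?_
      rw [Circle.coe_mul, mul_pow]; ring
  rw [h2, M_add, M_sum, Finset.sum_eq_zero, add_zero]
  · intro v hv
    have h3 : Bd (fun n => (d.V n : ℂ) * ((v * z : Circle) : ℂ) ^ n) :=
      hVb.mul (Bd.pow (Circle.norm_coe _))
    rw [M_const_mul h3, M_LP (K := {Q | 0 < Q}) (fun Q hQ => hQ) hB d.V_LP (Circle.norm_coe _),
      mul_zero]
    intro Q hQ hc
    have h4 : (v * z) ^ Q = 1 := by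
      apply Circle.ext
      simpa using hc
    apply e.hF v hv (Q * m) (Nat.mul_pos hQ hm)
    have h5 : ((v * z) ^ Q) ^ m = 1 := by rw [h4, one_pow]
    rw [← pow_mul, mul_pow, mul_comm Q m, pow_mul z, hz, one_pow, mul_one, mul_comm m Q] at h5
    exact h5
  · intro v _
    exact (Bd.const _).mul (hVb.mul (Bd.pow (Circle.norm_coe _)))
  · have := (hPb.mul hVb).mul hzb
    simpa using this
  · exact Bd.sum _ fun v _ => (Bd.const _).mul (hVb.mul (Bd.pow (Circle.norm_coe _)))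

/-- total period -/
def SP.N : ℕ := e.N₀ * d.mr * ∏ q ∈ d.S, d.m q

lemma SP.N_pos : 0 < e.N d :=
  Nat.mul_pos (Nat.mul_pos e.hN₀ d.hmr0) (Finset.prod_pos fun q hq => d.hm0 q hq)

lemma SP.N₀_dvd : e.N₀ ∣ e.N d := ⟨d.mr * ∏ q ∈ d.S, d.m q, by unfold SP.N; ring⟩
lemma SP.mr_dvd : d.mr ∣ e.N d := ⟨e.N₀ * ∏ q ∈ d.S, d.m q, by unfold SP.N; ring⟩
lemma SP.m_dvd {q : ℕ} (hq : q ∈ d.S) : d.m q ∣ e.N d :=
  (Finset.dvd_prod_of_mem d.m hq).trans (Dvd.intro_left _ rfl)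

omit e in
lemma lcl_p {p : ℕ} (hp : p.Prime) (k : ℕ) : Lcl {Q | 0 < Q ∧ ¬ p ^ k ∣ Q} := by
  rintro a ⟨ha0, ha⟩ b ⟨hb0, hb⟩
  refine ⟨Nat.lcm_pos ha0 hb0, fun hc => ?_⟩
  rw [hp.pow_dvd_iff_le_factorization ha0.ne'] at ha
  rw [hp.pow_dvd_iff_le_factorization hb0.ne'] at hb
  rw [hp.pow_dvd_iff_le_factorization (Nat.lcm_pos ha0 hb0).ne', Nat.factorization_lcm ha0.ne'
    hb0.ne'] at hc
  simp only [Finsupp.sup_apply, le_sup_iff] at hc
  rcases hc with h | h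
  · exact ha h
  · exact hb h

theorem M_pos_one (hT1 : T 1 ≠ 0) : M (fun n => ((W n * d.V n : ℝ) : ℂ)) ≠ 0 := by
  have h0 := M_WV e d (z := 1) (m := 1) one_pos (by simp)
  simp only [Circle.coe_one, one_pow, mul_one] at h0
  rw [h0]
  obtain ⟨B, hB⟩ := d.V_bdd
  obtain ⟨B', hB'⟩ := per_bd e.hN₀ e.hPp
  have hb : Bd (fun n => ((e.P n * d.V n : ℝ) : ℂ)) := by
    have := (real_bd hB').mul (real_bd hB)
    simpa using this
  have hQ : 0 < e.N d * ∏ q ∈ d.S, q :=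
    Nat.mul_pos (e.N_pos d) (Finset.prod_pos fun q hq => (d.hS q hq).pos)
  have hpos := M_pos hb (y := 1) hQ (δ := e.P 1 * d.V 1) (mul_pos (e.hPT 1 hT1) (d.V_pos 1))
    (fun n _ => mul_nonneg (e.hP0 n) (d.V_pos n).le) (by
      intro n hn hmod
      have h1 : n ≡ 1 [MOD e.N d] := hmod.of_dvd (Dvd.intro _ rfl)
      have hP : e.P n = e.P 1 := per_mod e.hPp (h1.of_dvd (e.N₀_dvd d))
      have hr : d.r n = d.r 1 := per_mod d.r_per (h1.of_dvd (e.mr_dvd d))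
      have hV : d.V n = d.V 1 := by
        unfold ND.V
        rw [hr]
        congr 1
        refine Finset.prod_congr rfl fun q hq => ?_
        unfold ND.ef
        have hs : d.s q n = d.s q 1 := per_mod (d.s_per hq) (h1.of_dvd (e.m_dvd d hq))
        have ht : d.t q n = d.t q 1 := per_mod (d.t_per hq) (h1.of_dvd (e.m_dvd d hq))
        have hv : padicValNat q n = padicValNat q 1 := by
          refine val_congr (d.hS q hq) hn le_rfl (hmod.of_dvd ?_)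
          simp only [padicValNat_one_right, zero_add, pow_one]
          exact (Finset.dvd_prod_of_mem (fun q => q) hq).trans (Dvd.intro_left _ rfl)
        rw [hs, ht, hv]
      rw [hP, hV])
  intro hc
  rw [hc] at hpos
  simp at hpos

theorem key {p : ℕ} (hp : p ∈ d.S) {k : ℕ} (hk : ¬ p ^ k ∣ e.N d) {z : Circle}
    (hz : ∀ Q, z ^ Q = 1 ↔ p ^ k ∣ Q) {n₁ : ℕ} (hn₁ : 1 ≤ n₁)
    (hdvd : ∀ j, p ^ j ∣ e.N d → p ^ j ∣ n₁) (hT : T n₁ ≠ 0)
    (hst : ¬ (d.s p n₁ = 0 ∧ d.t p n₁ = 0)) :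
    M (fun n => ((W n * d.V n : ℝ) : ℂ) * (z : ℂ) ^ n) ≠ 0 := by
  have hpp := d.hS p hp
  have := Fact.mk hpp
  have hk1 : 1 ≤ k := by
    by_contra hc
    have : k = 0 := by omega
    subst this
    simp at hk
  rw [M_WV e d (pow_pos hpp.pos k) ((hz _).2 (dvd_refl _))]
  set K : Set ℕ := {Q | 0 < Q ∧ ¬ p ^ k ∣ Q} with hKdef
  have hK : Lcl K := lcl_p hpp k
  have hKN : ∀ Q, Q ∣ e.N d → Q ∈ K := fun Q hQ =>
    ⟨Nat.pos_of_dvd_of_pos hQ (e.N_pos d), fun h => hk (h.trans hQ)⟩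
  have h1K : 1 ∈ K := hKN 1 (one_dvd _)
  -- the functions
  obtain ⟨B₁, hB₁⟩ := per_bd e.hN₀ e.hPp
  obtain ⟨B₂, hB₂⟩ := per_bd d.hmr0 d.r_per
  set B := max (max B₁ B₂) 1 with hBdef
  have hB0 : 0 ≤ B := le_trans zero_le_one (le_max_right _ _)
  have hB1 : 1 ≤ B := le_max_right _ _
  set R : ℕ → ℝ := fun n => ∏ q ∈ d.S.erase p, d.ef q n with hR
  have hRb : ∀ n, |R n| ≤ 1 := fun n => d.prod_abs _ (Finset.erase_subset _ _) n
  have hR0 : ∀ n, 0 < R n := fun n =>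
    Finset.prod_pos fun q hq => d.ef_pos (Finset.mem_of_mem_erase hq) n
  have hRLP : LP K R := by
    refine LP_prod hK h1K _ _ (fun q hq n => d.ef_abs (Finset.mem_of_mem_erase hq) n) ?_
    intro q hq
    have hqS := Finset.mem_of_mem_erase hq
    refine d.ef_LP hK hqS (hKN _ (e.m_dvd d hqS)) (fun J => ⟨pow_pos (d.hS q hqS).pos J, ?_⟩)
    intro hc
    have h1 : p ∣ q ^ J := (dvd_pow_self p (by omega)).trans hc
    have h2 := (Nat.prime_dvd_prime_iff_eq hpp (d.hS q hqS)).1 (hpp.dvd_of_dvd_pow h1)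
    exact Finset.ne_of_mem_erase hq h2.symm
  set Pr : ℕ → ℝ := fun n => e.P n * d.r n with hPr
  have hPrb : ∀ n, |Pr n| ≤ B * B := fun n => by
    rw [hPr]
    simp only [abs_mul]
    exact mul_le_mul ((hB₁ n).trans ((le_max_left _ _).trans (le_max_left _ _)))
      ((hB₂ n).trans ((le_max_right _ _).trans (le_max_left _ _))) (abs_nonneg _) hB0
  have hPrLP : LP K Pr := by
    refine LP_mul hK (B := B) (fun n => (hB₁ n).trans ((le_max_left _ _).trans (le_max_left _ _)))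
      (fun n => (hB₂ n).trans ((le_max_right _ _).trans (le_max_left _ _)))
      (LP_per (hKN _ (e.N₀_dvd d)) e.hPp) (LP_per (hKN _ (e.mr_dvd d)) d.r_per)
  set E : ℕ → ℝ := fun n => Pr n * R n with hE
  have hBB : 1 ≤ B * B := by nlinarith
  have hEb : ∀ n, |E n| ≤ B * B := fun n => by
    rw [hE]
    simp only [abs_mul]
    calc |Pr n| * |R n| ≤ (B * B) * 1 := mul_le_mul (hPrb n) (hRb n) (abs_nonneg _) (by positivity)
      _ = B * B := mul_one _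
  have hELP : LP K E :=
    LP_mul hK (B := B * B) hPrb (fun n => (hRb n).trans hBB) hPrLP hRLP
  have hE0 : ∀ n, 0 ≤ E n := fun n => mul_nonneg (mul_nonneg (e.hP0 n) (d.hr0 n).le) (hR0 n).le
  set g : ℕ → ℝ := fun n => eta p (d.s p n) (d.t p n) (tv p (k - 1) n) with hg
  have hgb : ∀ n, |g n| ≤ 1 := fun n => eta_abs hpp.one_lt (d.hs0 p hp n) (d.ht0 p hp n) _
  have hgLP : LP K g := by
    refine LP_per (Q := Nat.lcm (d.m p) (p ^ (k - 1))) (hK _ (hKN _ (e.m_dvd d hp)) _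
      ⟨pow_pos hpp.pos _, fun hc => ?_⟩) ?_
    · have := (Nat.pow_dvd_pow_iff_le_right hpp.one_lt).1 hc
      omega
    · intro n
      have h1 : tv p (k - 1) (n + Nat.lcm (d.m p) (p ^ (k - 1))) = tv p (k - 1) n := by
        obtain ⟨j, hj⟩ := Nat.dvd_lcm_right (d.m p) (p ^ (k - 1))
        rw [hj]
        clear hj
        induction j with
        | zero => simp
        | succ j ih => rw [Nat.mul_succ, ← add_assoc, tv_per, ih]
      simp only [hg]
      rw [per_dvd (d.s_per hp) (Nat.dvd_lcm_left _ _), per_dvd (d.t_per hp) (Nat.dvd_lcm_left _ _),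
        h1]
  set G' : ℕ → ℝ := fun n => E n * g n with hG'
  have hG'b : ∀ n, |G' n| ≤ B * B := fun n => by
    rw [hG']
    simp only [abs_mul]
    calc |E n| * |g n| ≤ (B * B) * 1 := mul_le_mul (hEb n) (hgb n) (abs_nonneg _) (by positivity)
      _ = B * B := mul_one _
  have hG'LP : LP K G' := LP_mul hK (B := B * B) hEb (fun n => (hgb n).trans hBB) hELP hgLP
  have hM1 : M (fun n => (G' n : ℂ) * (z : ℂ) ^ n) = 0 := by
    refine M_LP (fun Q hQ => hQ.1) hG'b hG'LP (Circle.norm_coe z) ?_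
    intro Q hQ hc
    have : z ^ Q = 1 := by apply Circle.ext; simpa using hc
    exact hQ.2 ((hz Q).1 this)
  set Φ : ℕ → ℝ := fun n => E n * (g n - d.ef p n) with hΦ
  have hΦb : Bd (fun n => (Φ n : ℂ)) := by
    refine real_bd (B := B * B * 2) fun n => ?_
    rw [hΦ]
    simp only [abs_mul]
    refine mul_le_mul (hEb n) ?_ (abs_nonneg _) (by positivity)
    calc |g n - d.ef p n| ≤ |g n| + |d.ef p n| := abs_sub _ _
      _ ≤ 2 := by linarith [hgb n, d.ef_abs hp n]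
  have hPV : ∀ n, e.P n * d.V n = G' n - Φ n := by
    intro n
    simp only [hG', hΦ, hE, hPr, hR, ND.V]
    rw [← Finset.mul_prod_erase d.S (fun q => d.ef q n) hp]
    ring
  have hM2 : M (fun n => ((e.P n * d.V n : ℝ) : ℂ) * (z : ℂ) ^ n) = - M (fun n => (Φ n : ℂ)) := by
    have hzb : Bd (fun n => (z : ℂ) ^ n) := Bd.pow (Circle.norm_coe z)
    have e1 : (fun n => ((e.P n * d.V n : ℝ) : ℂ) * (z : ℂ) ^ n) =
        fun n => (G' n : ℂ) * (z : ℂ) ^ n - (Φ n : ℂ) * (z : ℂ) ^ n := by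
      ext n; rw [hPV]; push_cast; ring
    rw [e1, M_sub ((real_bd hG'b).mul hzb) (hΦb.mul hzb), hM1, zero_sub]
    congr 1
    refine M_congr (hΦb.mul hzb) hΦb fun n hn => ?_
    by_cases hd : p ^ k ∣ n
    · have h1 : (z : ℂ) ^ n = 1 := by
        have := congrArg (fun w : Circle => (w : ℂ)) ((hz n).2 hd)
        simpa using this
      rw [h1, mul_one]
    · have h1 : padicValNat p n < k := by
        by_contra hc
        exact hd ((padicValNat_dvd_iff_le (by omega)).2 (not_lt.1 hc))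
      have h2 : Φ n = 0 := by
        simp only [hΦ, hg, ND.ef]
        rw [tv_eq hpp _ hn, min_eq_left (by omega)]
        ring
      rw [h2]; simp
  rw [hM2, neg_ne_zero]
  -- the class
  set A := padicValNat p (e.N d) with hA
  have hpA : p ^ A ∣ e.N d := pow_padicValNat_dvd
  obtain ⟨N', hN'⟩ := hpA
  have hAk : A < k := by
    by_contra hc
    exact hk ((padicValNat_dvd_iff_le (e.N_pos d).ne').2 (not_lt.1 hc))
  have hN'co : Nat.Coprime p N' := by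
    rw [hpp.coprime_iff_not_dvd]
    intro hc
    have : p ^ (A + 1) ∣ e.N d := by
      rw [hN', pow_succ]
      exact Nat.mul_dvd_mul_left _ hc
    rw [padicValNat_dvd_iff_le (e.N_pos d).ne'] at this
    omega
  have hN'0 : 0 < N' := by
    rcases Nat.eq_zero_or_pos N' with h | h
    · rw [h, mul_zero] at hN'
      exact absurd hN' (e.N_pos d).ne'
    · exact h
  set Z := ∏ q ∈ d.S.erase p, q ^ (padicValNat q n₁ + 1) with hZ
  have hZ0 : 0 < Z := Finset.prod_pos fun q hq =>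
    pow_pos (d.hS q (Finset.mem_of_mem_erase hq)).pos _
  have hZco : Nat.Coprime p Z := by
    refine Nat.Coprime.prod_right fun q hq => Nat.Coprime.pow_right _ ?_
    rw [Nat.coprime_primes hpp (d.hS q (Finset.mem_of_mem_erase hq))]
    exact (Finset.ne_of_mem_erase hq).symm
  have hco : Nat.Coprime (p ^ k) (N' * Z) := Nat.Coprime.pow_left _ (hN'co.mul_right hZco)
  obtain ⟨y, hy1, hy2⟩ := Nat.chineseRemainder hco 0 n₁
  have hP1 : 0 < e.P n₁ := e.hPT n₁ hT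
  have hΦ0 : ∀ n, 1 ≤ n → 0 ≤ Φ n := by
    intro n hn
    refine mul_nonneg (hE0 n) (sub_nonneg.2 ?_)
    exact eta_anti hpp.one_lt (d.hs0 p hp n) (d.ht0 p hp n) (tv_le hpp _ hn)
  have hpos := M_pos hΦb (Q := p ^ k * (N' * Z)) (y := y)
    (Nat.mul_pos (pow_pos hpp.pos k) (Nat.mul_pos hN'0 hZ0))
    (δ := E n₁ * (eta p (d.s p n₁) (d.t p n₁) (k - 1) - eta p (d.s p n₁) (d.t p n₁) k))
    (mul_pos (mul_pos (mul_pos hP1 (d.hr0 _)) (hR0 _))
      (sub_pos.2 (eta_lt hpp.one_lt (d.hs0 p hp n₁) (d.ht0 p hp n₁) hst (by omega)))) hΦ0 (by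
      intro n hn hmod
      have hm1 : n ≡ 0 [MOD p ^ k] := (hmod.of_dvd (Dvd.intro _ rfl)).trans hy1
      have hm2 : n ≡ n₁ [MOD N' * Z] := (hmod.of_dvd (Dvd.intro_left _ rfl)).trans hy2
      have hpkn : p ^ k ∣ n := (Nat.modEq_zero_iff_dvd).1 hm1
      have hm3 : n ≡ n₁ [MOD e.N d] := by
        rw [hN']
        refine (Nat.modEq_and_modEq_iff_modEq_mul (Nat.Coprime.pow_left _ hN'co)).1 ⟨?_, ?_⟩
        · have h1 : n ≡ 0 [MOD p ^ A] :=
            Nat.modEq_zero_iff_dvd.2 ((pow_dvd_pow _ hAk.le).trans hpkn)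
          have h2 : n₁ ≡ 0 [MOD p ^ A] :=
            Nat.modEq_zero_iff_dvd.2 (hdvd A pow_padicValNat_dvd)
          exact h1.trans h2.symm
        · exact hm2.of_dvd (Dvd.intro _ rfl)
      have hPn : e.P n = e.P n₁ := per_mod e.hPp (hm3.of_dvd (e.N₀_dvd d))
      have hrn : d.r n = d.r n₁ := per_mod d.r_per (hm3.of_dvd (e.mr_dvd d))
      have hsn : d.s p n = d.s p n₁ := per_mod (d.s_per hp) (hm3.of_dvd (e.m_dvd d hp))
      have htn : d.t p n = d.t p n₁ := per_mod (d.t_per hp) (hm3.of_dvd (e.m_dvd d hp))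
      have hRn : R n = R n₁ := by
        refine Finset.prod_congr rfl fun q hq => ?_
        have hqS := Finset.mem_of_mem_erase hq
        unfold ND.ef
        have hs : d.s q n = d.s q n₁ := per_mod (d.s_per hqS) (hm3.of_dvd (e.m_dvd d hqS))
        have ht : d.t q n = d.t q n₁ := per_mod (d.t_per hqS) (hm3.of_dvd (e.m_dvd d hqS))
        have hv : padicValNat q n = padicValNat q n₁ := by
          refine val_congr (d.hS q hqS) hn hn₁ (hm2.of_dvd ?_)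
          exact (Finset.dvd_prod_of_mem (fun q => q ^ (padicValNat q n₁ + 1)) hq).trans
            (Dvd.intro_left _ rfl)
        rw [hs, ht, hv]
      have hkv : k ≤ padicValNat p n := (padicValNat_dvd_iff_le (by omega)).1 hpkn
      have hΦn : Φ n = E n₁ * (eta p (d.s p n₁) (d.t p n₁) (k - 1) -
          eta p (d.s p n₁) (d.t p n₁) (padicValNat p n)) := by
        simp only [hΦ, hE, hPr, hg, ND.ef]
        rw [hPn, hrn, hRn, hsn, htn, tv_eq hpp _ hn, min_eq_right (by omega)]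
      rw [hΦn]
      refine mul_le_mul_of_nonneg_left ?_ (hE0 n₁)
      have := eta_anti hpp.one_lt (d.hs0 p hp n₁) (d.ht0 p hp n₁) hkv
      linarith)
  intro hc
  rw [hc] at hpos
  simp at hpos

end

end Q213.FD
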