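import Pool.Agent.Q213.FDe

/-! FAD-systems: the normalised determinants and their trigonometric polynomial. -/

set_option autoImplicit false

namespace Q213.FD

open Filter Topology Complex

/-- normalised factor -/
noncomputable def ka (l : ℂ) (n : ℕ) : ℂ := (l ^ n - 1) / ((max 1 ‖l‖ : ℝ) : ℂ) ^ n

open Classical in
/-- its almost periodic part -/
noncomputable def ta (l : ℂ) : ℕ → ℂ :=
  if 1 < ‖l‖ then fun n => (l / (‖l‖ : ℂ)) ^ n
  else if ‖l‖ = 1 then fun n => l ^ n - 1 else fun _ => -1

lemma ta_TP (l : ℂ) : ta l ∈ TP := by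
  unfold ta
  split_ifs with h1 h2
  · refine TP_pow' ?_
    rw [norm_div, Complex.norm_real, norm_norm, div_self (by linarith)]
  · exact Subalgebra.sub_mem _ (TP_pow' h2) (TP_const 1)
  · exact TP_const (-1)

lemma ka_ta (l : ℂ) : Tendsto (fun n => ka l n - ta l n) atTop (𝓝 0) := by
  unfold ta ka
  split_ifs with h1 h2
  · have hl0 : (‖l‖ : ℂ) ≠ 0 := by
      exact_mod_cast (by linarith : ‖l‖ ≠ 0)
    have e : (fun n : ℕ => (l ^ n - 1) / ((max 1 ‖l‖ : ℝ) : ℂ) ^ n - (l / (‖l‖ : ℂ)) ^ n) =
        fun n => -((‖l‖ : ℂ)⁻¹ ^ n) := by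
      ext n
      rw [max_eq_right h1.le, div_pow, inv_pow]
      field_simp
      ring
    rw [e, ← neg_zero]
    refine Tendsto.neg ?_
    refine tendsto_pow_atTop_nhds_zero_of_norm_lt_one ?_
    rw [norm_inv, Complex.norm_real, norm_norm]
    exact inv_lt_one_of_one_lt₀ h1
  · have e : (fun n : ℕ => (l ^ n - 1) / ((max 1 ‖l‖ : ℝ) : ℂ) ^ n - (l ^ n - 1)) = fun n => 0 := by
      ext n
      rw [h2]
      simp
    rw [e]
    exact tendsto_const_nhds
  · have h3 : ‖l‖ < 1 := lt_of_le_of_ne (not_lt.1 h1) h2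
    have e : (fun n : ℕ => (l ^ n - 1) / ((max 1 ‖l‖ : ℝ) : ℂ) ^ n - -1) = fun n => l ^ n := by
      ext n
      rw [max_eq_left h3.le]
      simp
    rw [e]
    exact tendsto_pow_atTop_nhds_zero_of_norm_lt_one h3

lemma prod_conv (R : Multiset ℂ) :
    Bd (fun n => (R.map (fun l => ka l n)).prod) ∧ Bd (fun n => (R.map (fun l => ta l n)).prod) ∧
    Tendsto (fun n => (R.map (fun l => ka l n)).prod - (R.map (fun l => ta l n)).prod) atTop
      (𝓝 0) := by
  induction R using Multiset.induction_on with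
  | empty =>
    simp only [Multiset.map_zero, Multiset.prod_zero, sub_self]
    exact ⟨Bd.const 1, Bd.const 1, tendsto_const_nhds⟩
  | cons l R ih =>
    simp only [Multiset.map_cons, Multiset.prod_cons]
    obtain ⟨h1, h2, h3⟩ := ih
    have hta : Bd (ta l) := TP_bd (ta_TP l)
    have hka : Bd (ka l) := by
      have := (Bd.of_tendsto (ka_ta l)).add hta
      simpa using this
    refine ⟨hka.mul h1, hta.mul h2, ?_⟩
    have e : (fun n => ka l n * (R.map (fun l => ka l n)).prod -
        ta l n * (R.map (fun l => ta l n)).prod) =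
        fun n => ka l n * ((R.map (fun l => ka l n)).prod - (R.map (fun l => ta l n)).prod) +
          (ka l n - ta l n) * (R.map (fun l => ta l n)).prod := by
      ext n; ring
    rw [e]
    obtain ⟨C₁, hC₁⟩ := hka
    obtain ⟨C₂, hC₂⟩ := h2
    rw [← add_zero (0 : ℂ)]
    refine Tendsto.add ?_ ?_
    · refine squeeze_zero_norm (a := fun n => C₁ * ‖(R.map (fun l => ka l n)).prod -
        (R.map (fun l => ta l n)).prod‖) (fun n => ?_) ?_
      · rw [norm_mul]
        exact mul_le_mul_of_nonneg_right (hC₁ n) (norm_nonneg _)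
      · have := h3.norm.const_mul C₁
        simpa using this
    · refine squeeze_zero_norm (a := fun n => ‖ka l n - ta l n‖ * C₂) (fun n => ?_) ?_
      · rw [norm_mul]
        exact mul_le_mul_of_nonneg_left (hC₂ n) (norm_nonneg _)
      · have := (ka_ta l).norm.mul_const C₂
        simpa using this

variable {D : ℕ} (A : Matrix (Fin D) (Fin D) ℤ)

noncomputable def RR : Multiset ℂ := (cA A).charpoly.roots

noncomputable def bb : ℝ := ((RR A).map (fun l => max 1 ‖l‖)).prod

lemma bb_pos : 0 < bb A := by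
  unfold bb
  refine Multiset.prod_pos fun a ha => ?_
  obtain ⟨l, _, rfl⟩ := Multiset.mem_map.1 ha
  exact lt_of_lt_of_le one_pos (le_max_left _ _)

noncomputable def WW (n : ℕ) : ℝ := |(((A ^ n - 1).det : ℤ) : ℝ)| / bb A ^ n

noncomputable def TT (n : ℕ) : ℂ := (sg A n : ℂ) * ((RR A).map (fun l => ta l n)).prod

lemma WW_nonneg (n : ℕ) : 0 ≤ WW A n :=
  div_nonneg (abs_nonneg _) (pow_nonneg (bb_pos A).le n)

lemma sg_TP : (fun n => (sg A n : ℂ)) ∈ TP := by
  have e : (fun n => (sg A n : ℂ)) =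
      (fun _ => (((sig (A ^ 2 - 1).det : ℤ) : ℂ) + (sig (A - 1).det : ℤ)) / 2) +
      (fun _ => (((sig (A ^ 2 - 1).det : ℤ) : ℂ) - (sig (A - 1).det : ℤ)) / 2) *
        (fun n => (-1 : ℂ) ^ n) := by
    ext n
    simp only [Pi.add_apply, Pi.mul_apply, sg]
    split_ifs with h
    · rw [(Nat.even_iff.2 h).neg_one_pow]; ring
    · rw [(Nat.odd_iff.2 (by omega)).neg_one_pow]; ring
  rw [e]
  exact Subalgebra.add_mem _ (TP_const _) (Subalgebra.mul_mem _ (TP_const _) (TP_pow' (by simp)))

lemma TT_TP : TT A ∈ TP := by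
  have e : TT A = (fun n => (sg A n : ℂ)) * ((RR A).map ta).prod := by
    ext n
    simp only [TT, Pi.mul_apply]
    congr 1
    induction RR A using Multiset.induction_on with
    | empty => simp
    | cons l R ih => simp [ih]
  rw [e]
  refine Subalgebra.mul_mem _ (sg_TP A) (Subalgebra.multiset_prod_mem _ fun x hx => ?_)
  obtain ⟨l, _, rfl⟩ := Multiset.mem_map.1 hx
  exact ta_TP l

lemma WW_eq {n : ℕ} (hn : 0 < n) :
    (WW A n : ℂ) = (sg A n : ℂ) * ((RR A).map (fun l => ka l n)).prod := by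
  unfold WW
  rw [abs_det A hn]
  have h1 := det_pow_sub_one (cA A) hn
  rw [det_cA] at h1
  have h2 : ((RR A).map (fun l => ka l n)).prod =
      ((RR A).map (fun l => l ^ n - 1)).prod / (bb A : ℂ) ^ n := by
    unfold bb
    induction RR A using Multiset.induction_on with
    | empty => simp
    | cons l R ih =>
      simp only [Multiset.map_cons, Multiset.prod_cons, Complex.ofReal_mul]
      rw [ih, mul_pow, mul_div_mul_comm, ka]
  rw [h2, Complex.ofReal_div, Complex.ofReal_mul, Complex.ofReal_intCast, Complex.ofReal_intCast,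
    Complex.ofReal_pow, h1]
  unfold RR
  ring

lemma WW_TT : Tendsto (fun n => (WW A n : ℂ) - TT A n) atTop (𝓝 0) := by
  have h1 := (prod_conv (RR A)).2.2
  have h2 : Tendsto (fun n => (sg A n : ℂ) * (((RR A).map (fun l => ka l n)).prod -
      ((RR A).map (fun l => ta l n)).prod)) atTop (𝓝 0) := by
    refine squeeze_zero_norm (a := fun n => ‖((RR A).map (fun l => ka l n)).prod -
      ((RR A).map (fun l => ta l n)).prod‖) (fun n => ?_) (by simpa using h1.norm)
    rw [norm_mul]
    have : ‖(sg A n : ℂ)‖ = 1 := by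
      rcases sg_ne A n with h | h <;> rw [h] <;> simp
    rw [this, one_mul]
  refine h2.congr' ?_
  filter_upwards [eventually_gt_atTop 0] with n hn
  rw [WW_eq A hn, TT]
  ring

lemma TT_zero {n : ℕ} (hn : 0 < n) (h : TT A n = 0) : (A ^ n - 1).det = 0 := by
  unfold TT at h
  have hsg : (sg A n : ℂ) ≠ 0 := by
    rcases sg_ne A n with h | h <;> rw [h] <;> simp
  rcases mul_eq_zero.1 h with h | h
  · exact absurd h hsg
  · obtain ⟨l, hl, hl0⟩ := Multiset.mem_map.1 (Multiset.prod_eq_zero_iff.1 h)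
    have hln : l ^ n = 1 := by
      unfold ta at hl0
      split_ifs at hl0 with h1 h2
      · exfalso
        have : (l / (‖l‖ : ℂ)) = 0 := by
          exact (pow_eq_zero_iff hn.ne').1 hl0
        rcases div_eq_zero_iff.1 this with h | h
        · rw [h] at h1; simp at h1; linarith
        · have : ‖l‖ = 0 := by exact_mod_cast h
          linarith
      · exact sub_eq_zero.1 hl0
      · exact absurd hl0 (by norm_num)
    have h1 := det_pow_sub_one (cA A) hn
    rw [det_cA] at h1
    have h2 : (((RR A).map (fun l => l ^ n - 1)).prod) = 0 := by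
      refine Multiset.prod_eq_zero (Multiset.mem_map.2 ⟨l, hl, ?_⟩)
      rw [hln, sub_self]
    unfold RR at h2
    rw [h2] at h1
    exact_mod_cast h1

lemma exists_SPA : Nonempty (SP (WW A) (TT A)) :=
  exists_SP (WW_nonneg A) (TT_TP A) (WW_TT A)

end Q213.FD
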