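import Pool.Agent.Q213.FDf

/-! FAD-systems: analytic continuation forces vanishing means. -/

set_option autoImplicit false

namespace Q213.FD

open Filter Topology Complex
open scoped ENNReal

/-- the zeta function attached to a sequence of fixed point counts -/
noncomputable def zt (F : ℕ → ℕ) (z : ℂ) : ℂ :=
  Complex.exp (∑' n : ℕ, ((F (n + 1) : ℂ) / ((n : ℂ) + 1)) * z ^ (n + 1))

variable {F : ℕ → ℕ} {L C : ℝ}

lemma F_summable (hL : 0 < L) (hF : ∀ n, 1 ≤ n → (F n : ℝ) ≤ C * L ^ n) {z : ℂ}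
    (hz : ‖z‖ * L < 1) : Summable (fun n => (F (n + 1) : ℂ) * z ^ n) := by
  refine Summable.of_norm_bounded (g := fun n => C * L * (‖z‖ * L) ^ n)
    ((summable_geometric_of_lt_one (by positivity) hz).mul_left _) (fun n => ?_)
  rw [norm_mul, norm_pow, Complex.norm_natCast]
  calc (F (n + 1) : ℝ) * ‖z‖ ^ n ≤ (C * L ^ (n + 1)) * ‖z‖ ^ n :=
        mul_le_mul_of_nonneg_right (hF _ (by omega)) (by positivity)
    _ = C * L * (‖z‖ * L) ^ n := by rw [mul_pow, pow_succ]; ring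

lemma sum_hasDeriv (hL : 0 < L) (hF : ∀ n, 1 ≤ n → (F n : ℝ) ≤ C * L ^ n) {z : ℂ}
    (hz : ‖z‖ * L < 1) :
    HasDerivAt (fun z => ∑' n : ℕ, ((F (n + 1) : ℂ) / ((n : ℂ) + 1)) * z ^ (n + 1))
      (∑' n : ℕ, (F (n + 1) : ℂ) * z ^ n) z := by
  obtain ⟨ρ, hρ1, hρ2⟩ : ∃ ρ, ‖z‖ < ρ ∧ ρ * L < 1 := by
    have : ‖z‖ < 1 / L := by rwa [lt_div_iff₀ hL]
    obtain ⟨ρ, h1, h2⟩ := exists_between this
    exact ⟨ρ, h1, by rwa [lt_div_iff₀ hL] at h2⟩
  have hρ0 : 0 < ρ := lt_of_le_of_lt (norm_nonneg _) hρ1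
  have hu : Summable (fun n : ℕ => C * L * (ρ * L) ^ n) :=
    (summable_geometric_of_lt_one (by positivity) hρ2).mul_left _
  refine hasDerivAt_tsum_of_isPreconnected (t := Metric.ball (0 : ℂ) ρ)
    (g := fun n z => ((F (n + 1) : ℂ) / ((n : ℂ) + 1)) * z ^ (n + 1))
    (g' := fun n z => (F (n + 1) : ℂ) * z ^ n) (y₀ := 0) hu Metric.isOpen_ball
    (convex_ball _ _).isPreconnected ?_ ?_ (by simpa using hρ0) ?_ (by simpa using hρ1)
  · intro n y _
    have h1 := ((hasDerivAt_pow (n + 1) y).const_mul ((F (n + 1) : ℂ) / ((n : ℂ) + 1)))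
    refine h1.congr_deriv ?_
    have : (n : ℂ) + 1 ≠ 0 := by exact_mod_cast Nat.succ_ne_zero n
    push_cast
    field_simp
  · intro n y hy
    have hy' : ‖y‖ < ρ := by simpa using hy
    rw [norm_mul, norm_pow, Complex.norm_natCast]
    calc (F (n + 1) : ℝ) * ‖y‖ ^ n ≤ (C * L ^ (n + 1)) * ρ ^ n := by
          have h0 : (0 : ℝ) ≤ F (n + 1) := Nat.cast_nonneg _
          exact mul_le_mul (hF _ (by omega)) (pow_le_pow_left₀ (norm_nonneg _) hy'.le n)
            (by positivity) (h0.trans (hF _ (by omega)))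
      _ = C * L * (ρ * L) ^ n := by rw [mul_pow, pow_succ]; ring
  · have : (fun n : ℕ => ((F (n + 1) : ℂ) / ((n : ℂ) + 1)) * (0 : ℂ) ^ (n + 1)) = fun _ => 0 := by
      ext n; simp
    rw [this]
    exact summable_zero

lemma zt_hasDeriv (hL : 0 < L) (hF : ∀ n, 1 ≤ n → (F n : ℝ) ≤ C * L ^ n) {z : ℂ}
    (hz : ‖z‖ * L < 1) :
    HasDerivAt (zt F) (zt F z * ∑' n : ℕ, (F (n + 1) : ℂ) * z ^ n) z :=
  (sum_hasDeriv hL hF hz).cexp

lemma zt_ne (F : ℕ → ℕ) (z : ℂ) : zt F z ≠ 0 := Complex.exp_ne_zero _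

/-- the normalised sequence -/
noncomputable def hh (F : ℕ → ℕ) (L : ℝ) (n : ℕ) : ℝ := (F n : ℝ) / L ^ n

lemma hh_bd (hL : 0 < L) (hF : ∀ n, 1 ≤ n → (F n : ℝ) ≤ C * L ^ n) :
    Bd (fun n => (hh F L n : ℂ)) := by
  refine ⟨max C (F 0), fun n => ?_⟩
  rw [Complex.norm_real, hh, Real.norm_of_nonneg (by positivity)]
  rcases Nat.eq_zero_or_pos n with rfl | hn
  · simp
  · refine le_trans ?_ (le_max_left _ _)
    rw [div_le_iff₀ (by positivity)]
    exact hF n hn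

theorem vanish (hL : 0 < L) (hF : ∀ n, 1 ≤ n → (F n : ℝ) ≤ C * L ^ n) {U : Set ℂ} (hU : IsOpen U)
    {w : ℂ} (hw : w ∈ U) (hwL : ‖w‖ * L = 1) {g : ℂ → ℂ} (hg : AnalyticOnNhd ℂ g U)
    (hgz : ∀ z ∈ U, ‖z‖ * L < 1 → g z = zt F z) :
    ∃ δ : ℝ, 0 < δ ∧ ∀ v : Circle, ‖(v : ℂ) / L - w‖ < δ → (v : ℂ) / L ≠ w →
      M (fun n => (hh F L n : ℂ) * (v : ℂ) ^ n) = 0 := by
  -- radial approach
  have hrad : ∀ u : ℂ, Tendsto (fun x : ℝ => (x : ℂ) * u) (𝓝[<] 1) (𝓝 u) := by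
    intro u
    have h1 : Tendsto (fun x : ℝ => (x : ℂ) * u) (𝓝 1) (𝓝 (((1 : ℝ) : ℂ) * u)) :=
      (Complex.continuous_ofReal.tendsto 1).mul_const u
    rw [Complex.ofReal_one, one_mul] at h1
    exact h1.mono_left nhdsWithin_le_nhds
  have hin : ∀ u : ℂ, ‖u‖ * L = 1 → ∀ᶠ x : ℝ in 𝓝[<] 1, ‖(x : ℂ) * u‖ * L < 1 := by
    intro u hu
    filter_upwards [Ioo_mem_nhdsLT (one_pos : (0 : ℝ) < 1)] with x hx
    rw [norm_mul, Complex.norm_real, Real.norm_of_nonneg hx.1.le, mul_assoc, hu, mul_one]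
    exact hx.2
  have hne : ∀ᶠ z in 𝓝[≠] w, g z ≠ 0 := by
    rcases (hg w hw).eventually_eq_zero_or_eventually_ne_zero with h | h
    · exfalso
      have h1 := (hrad w).eventually h
      have h2 := (hrad w).eventually (hU.mem_nhds hw)
      obtain ⟨x, hx1, hx2, hx3⟩ := (h1.and (h2.and (hin w hwL))).exists
      rw [hgz _ hx2 hx3] at hx1
      exact zt_ne F _ hx1
    · exact h
  have hball : ∀ᶠ z in 𝓝 w, z ∈ U ∧ (z ≠ w → g z ≠ 0) := by
    have := eventually_nhdsWithin_iff.1 hne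
    filter_upwards [this, hU.mem_nhds hw] with z h1 h2
    exact ⟨h2, fun h => h1 h⟩
  obtain ⟨δ, hδ, hδb⟩ := Metric.eventually_nhds_iff.1 hball
  refine ⟨δ, hδ, fun v hv1 hv2 => ?_⟩
  set u : ℂ := (v : ℂ) / L with hu
  have hLc : (L : ℂ) ≠ 0 := by exact_mod_cast hL.ne'
  have huL : ‖u‖ * L = 1 := by
    rw [hu, norm_div, Circle.norm_coe, Complex.norm_real, Real.norm_of_nonneg hL.le]
    field_simp
  obtain ⟨huU, hgu⟩ := hδb (by rw [dist_eq_norm]; exact hv1 : dist u w < δ)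
  have hgu0 := hgu hv2
  have hφ : ContinuousAt (fun z => z * deriv g z / g z) u := by
    refine ContinuousAt.div ?_ (hg u huU).continuousAt hgu0
    exact continuousAt_id.mul (hg u huU).deriv.continuousAt
  have hφt : Tendsto (fun x : ℝ => (x * u : ℂ) * deriv g (x * u) / g (x * u)) (𝓝[<] 1)
      (𝓝 (u * deriv g u / g u)) := hφ.tendsto.comp (hrad u)
  have hx0 : Tendsto (fun x : ℝ => ((1 - x : ℝ) : ℂ)) (𝓝[<] 1) (𝓝 0) := by
    have h1 : Tendsto (fun x : ℝ => ((1 - x : ℝ) : ℂ)) (𝓝 1) (𝓝 ((1 - 1 : ℝ) : ℂ)) :=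
      (Complex.continuous_ofReal.tendsto _).comp
        ((continuous_const.sub continuous_id).tendsto (1 : ℝ))
    rw [sub_self, Complex.ofReal_zero] at h1
    exact h1.mono_left nhdsWithin_le_nhds
  refine M_eq ?_
  have hfin := hx0.mul (hφt.const_add (F 0 : ℂ))
  rw [zero_mul] at hfin
  refine hfin.congr' ?_
  filter_upwards [hin u huL, (hrad u).eventually (hU.mem_nhds huU),
    Ioo_mem_nhdsLT (one_pos : (0 : ℝ) < 1)] with x hx1 hx2 hx3
  have hd : deriv g (x * u) = zt F (x * u) * ∑' n : ℕ, (F (n + 1) : ℂ) * (x * u) ^ n := by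
    have h1 : g =ᶠ[𝓝 ((x : ℂ) * u)] zt F := by
      have h2 : ∀ᶠ z : ℂ in 𝓝 ((x : ℂ) * u), ‖z‖ * L < 1 :=
        (continuous_norm.mul continuous_const).continuousAt.eventually (gt_mem_nhds hx1)
      filter_upwards [h2, hU.mem_nhds hx2] with z hz1 hz2
      exact hgz z hz2 hz1
    rw [h1.deriv_eq]
    exact (zt_hasDeriv hL hF hx1).deriv
  unfold Ab
  rw [hd, hgz _ hx2 hx1]
  have h3 : (x * u : ℂ) * (zt F (x * u) * ∑' n : ℕ, (F (n + 1) : ℂ) * (x * u) ^ n) / zt F (x * u) =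
      ∑' n : ℕ, (F (n + 1) : ℂ) * (x * u) ^ (n + 1) := by
    have := zt_ne F (x * u)
    field_simp
    rw [← tsum_mul_left]
    congr 1
    ext n
    ring
  rw [h3]
  congr 1
  have h4 : ∀ n, (hh F L n : ℂ) * (v : ℂ) ^ n * (x : ℂ) ^ n = (F n : ℂ) * (x * u) ^ n := by
    intro n
    simp only [hh, hu]
    push_cast
    rw [mul_pow, div_pow]
    field_simp
  simp_rw [h4]
  have hs : Summable (fun n => (F n : ℂ) * (x * u : ℂ) ^ n) := by
    rw [← summable_nat_add_iff 1]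
    have := (F_summable hL hF hx1).mul_left (x * u : ℂ)
    refine this.congr fun n => ?_
    ring
  rw [hs.tsum_eq_zero_add]
  simp

/-- frequencies of exact order `p ^ k` are dense -/
theorem dense_freq {p : ℕ} (hp : p.Prime) (hL : 0 < L) {w : ℂ} (hwL : ‖w‖ * L = 1) {δ : ℝ}
    (hδ : 0 < δ) (k₀ : ℕ) : ∃ k, k₀ ≤ k ∧ ∃ z : Circle, (∀ Q, z ^ Q = 1 ↔ p ^ k ∣ Q) ∧
      ‖(z : ℂ) / L - w‖ < δ ∧ (z : ℂ) / L ≠ w := by
  have hLc : (L : ℂ) ≠ 0 := by exact_mod_cast hL.ne'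
  set θ : ℝ := arg w / (2 * Real.pi) with hθ
  have hpi := Real.pi_pos
  have hw : w = Complex.exp ((2 * Real.pi * θ : ℝ) * I) / L := by
    have h1 := Complex.norm_mul_exp_arg_mul_I w
    have h2 : ‖w‖ = 1 / L := by field_simp; exact hwL
    have h3 : 2 * Real.pi * θ = arg w := by rw [hθ]; field_simp
    rw [h3]
    conv_lhs => rw [← h1, h2]
    push_cast
    ring
  have hcont : Continuous (fun x : ℝ => Complex.exp ((2 * Real.pi * x : ℝ) * I) / L) := by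
    fun_prop
  have hev := hcont.continuousAt (x := θ) |>.eventually
    (Metric.ball_mem_nhds (Complex.exp ((2 * Real.pi * θ : ℝ) * I) / L) hδ)
  obtain ⟨η, hη, hηb⟩ := Metric.eventually_nhds_iff.1 hev
  have hp1 : (1 : ℝ) < p := by exact_mod_cast hp.one_lt
  obtain ⟨k, hk0, hk1⟩ : ∃ k, k₀ ≤ k ∧ 2 / (p : ℝ) ^ k < min η 1 := by
    have h1 : Tendsto (fun k : ℕ => 2 / (p : ℝ) ^ k) atTop (𝓝 0) :=
      tendsto_const_nhds.div_atTop (tendsto_pow_atTop_atTop_of_one_lt hp1)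
    have h2 := h1.eventually (gt_mem_nhds (lt_min hη one_pos))
    obtain ⟨k, h3, h4⟩ := (h2.and (eventually_ge_atTop k₀)).exists
    exact ⟨k, h4, h3⟩
  have hpk : (0 : ℝ) < (p : ℝ) ^ k := by positivity
  obtain ⟨b, hb1, hb2, hb3⟩ : ∃ b : ℤ, ¬ (p : ℤ) ∣ b ∧ θ * (p : ℝ) ^ k < b ∧
      (b : ℝ) ≤ θ * (p : ℝ) ^ k + 2 := by
    set b₀ := ⌊θ * (p : ℝ) ^ k⌋ with hb₀
    have h1 : (b₀ : ℝ) ≤ θ * (p : ℝ) ^ k := Int.floor_le _
    have h2 : θ * (p : ℝ) ^ k < b₀ + 1 := Int.lt_floor_add_one _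
    by_cases h : (p : ℤ) ∣ b₀ + 1
    · refine ⟨b₀ + 2, fun h' => ?_, ?_, ?_⟩
      · have h3 : (p : ℤ) ∣ 1 := by
          have := dvd_sub h' h
          have e : b₀ + 2 - (b₀ + 1) = 1 := by ring
          rwa [e] at this
        have h4 := Int.le_of_dvd one_pos h3
        have := hp.two_le
        omega
      · push_cast; linarith
      · push_cast; linarith
    · refine ⟨b₀ + 1, h, ?_, ?_⟩
      · push_cast; linarith
      · push_cast; linarith
  set x : ℝ := b / (p : ℝ) ^ k with hx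
  have hxθ1 : 0 < x - θ := by
    rw [hx, sub_pos, lt_div_iff₀ hpk]; exact hb2
  have hxθ2 : x - θ ≤ 2 / (p : ℝ) ^ k := by
    rw [hx, sub_le_iff_le_add, div_le_iff₀ hpk, add_mul, div_mul_cancel₀ _ hpk.ne']
    linarith
  refine ⟨k, hk0, Circle.exp (2 * Real.pi * x), ?_, ?_, ?_⟩
  · intro Q
    have hco : IsCoprime (((p ^ k : ℕ)) : ℤ) b := by
      rw [Nat.cast_pow]
      refine IsCoprime.pow_left ?_
      have hpp : Prime (p : ℤ) := Nat.prime_iff_prime_int.1 hp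
      exact (hpp.coprime_iff_not_dvd).2 hb1
    constructor
    · intro h
      have h1 : Complex.exp ((Q : ℂ) * ((2 * Real.pi * x : ℝ) * I)) = 1 := by
        rw [Complex.exp_nat_mul]
        have := congrArg (fun w : Circle => (w : ℂ)) h
        simpa using this
      obtain ⟨n, hn⟩ := Complex.exp_eq_one_iff.1 h1
      have h2 : (Q : ℂ) * b = n * (p : ℂ) ^ k := by
        have hpc : (p : ℂ) ^ k ≠ 0 := by exact_mod_cast hpk.ne'
        have hI : (2 * Real.pi * I : ℂ) ≠ 0 := Complex.two_pi_I_ne_zero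
        have h3 : (Q : ℂ) * (b / (p : ℂ) ^ k) * (2 * Real.pi * I) = n * (2 * Real.pi * I) := by
          rw [← hn, hx]; push_cast; ring
        have h4 := mul_right_cancel₀ hI h3
        field_simp at h4
        linear_combination h4
      have h3 : (Q : ℤ) * b = n * ((p ^ k : ℕ) : ℤ) := by
        have : (((Q : ℤ) * b : ℤ) : ℂ) = ((n * ((p ^ k : ℕ) : ℤ) : ℤ) : ℂ) := by
          push_cast; exact h2
        exact_mod_cast this
      have h4 : ((p ^ k : ℕ) : ℤ) ∣ (Q : ℤ) * b := ⟨n, by rw [h3]; ring⟩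
      exact_mod_cast hco.dvd_of_dvd_mul_right h4
    · rintro ⟨m, rfl⟩
      apply Circle.ext
      simp only [Circle.coe_pow, Circle.coe_exp, Circle.coe_one]
      rw [← Complex.exp_nat_mul, Complex.exp_eq_one_iff]
      refine ⟨b * m, ?_⟩
      have hpc : (p : ℂ) ^ k ≠ 0 := by exact_mod_cast hpk.ne'
      rw [hx]
      push_cast
      field_simp
  · have h1 : dist x θ < η := by
      rw [Real.dist_eq, abs_of_pos hxθ1]
      exact lt_of_le_of_lt hxθ2 (lt_of_lt_of_le hk1 (min_le_left _ _))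
    have h2 := hηb h1
    rw [← hw] at h2
    rw [Circle.coe_exp]
    exact mem_ball_iff_norm.1 h2
  · intro hc
    rw [hw, Circle.coe_exp] at hc
    have h1 : Complex.exp ((2 * Real.pi * x : ℝ) * I) = Complex.exp ((2 * Real.pi * θ : ℝ) * I) := by
      exact (div_left_inj' hLc).1 hc
    obtain ⟨n, hn⟩ := Complex.exp_eq_exp_iff_exists_int.1 h1
    have hI : (2 * Real.pi * I : ℂ) ≠ 0 := Complex.two_pi_I_ne_zero
    have h3 : (x : ℂ) * (2 * Real.pi * I) = (θ + n) * (2 * Real.pi * I) := by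
      push_cast at hn
      linear_combination hn
    have h4 := mul_right_cancel₀ hI h3
    have h5 : x = θ + n := by exact_mod_cast h4
    have h6 : (0 : ℝ) < n := by linarith
    have h7 : (n : ℝ) < 1 := by
      have := min_le_right η 1
      linarith
    have h8 : 0 < n := by exact_mod_cast h6
    have h9 : n < 1 := by exact_mod_cast h7
    omega

end Q213.FD
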