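import Pool.Agent.Q213.FDg
import Pool.Agent.H374R2.V.ZD

/-! FAD-systems: the constant `c` is rational. -/

set_option autoImplicit false

namespace Q213.FD

open Filter Topology Complex

variable {D : ℕ} (A : Matrix (Fin D) (Fin D) ℤ)

lemma det_mod {q : ℕ} (hq : q.Prime) :
    (((A ^ q - 1).det : ℤ) : ZMod q) = (((A - 1).det : ℤ) : ZMod q) := by
  have := Fact.mk hq
  rcases Nat.eq_zero_or_pos D with h0 | h0
  · subst h0
    rw [Matrix.det_isEmpty, Matrix.det_isEmpty]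
  · have : Nonempty (Fin D) := ⟨⟨0, h0⟩⟩
    let φ := Int.castRingHom (ZMod q)
    have h1 : φ.mapMatrix (A ^ q - 1) = (φ.mapMatrix (A - 1)) ^ q := by
      rw [map_sub, map_sub, map_pow, map_one, sub_pow_char_of_commute (p := q) (Commute.one_right _),
        one_pow]
    calc (((A ^ q - 1).det : ℤ) : ZMod q) = φ ((A ^ q - 1).det) := rfl
      _ = (φ.mapMatrix (A ^ q - 1)).det := RingHom.map_det φ _
      _ = (φ.mapMatrix (A - 1)).det ^ q := by rw [h1, Matrix.det_pow]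
      _ = (φ.mapMatrix (A - 1)).det := ZMod.pow_card _
      _ = φ ((A - 1).det) := (RingHom.map_det φ _).symm
      _ = _ := rfl

lemma abs_det_int {n : ℕ} (hn : 0 < n) : |(A ^ n - 1).det| = sg A n * (A ^ n - 1).det := by
  have := abs_det A hn
  exact_mod_cast this

lemma natAbs_det_mod {q : ℕ} (hq : q.Prime) (hq2 : q ≠ 2) :
    (((A ^ q - 1).det.natAbs : ℕ) : ZMod q) = (((A - 1).det.natAbs : ℕ) : ZMod q) := by
  have hodd := hq.odd_of_ne_two hq2
  have h1 : (((A ^ q - 1).det.natAbs : ℕ) : ℤ) = sig (A - 1).det * (A ^ q - 1).det := by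
    rw [Int.natCast_natAbs, abs_det_int A hq.pos, sg, if_neg]
    rw [Nat.odd_iff] at hodd
    omega
  have h2 : (((A - 1).det.natAbs : ℕ) : ℤ) = sig (A - 1).det * (A - 1).det := by
    have := abs_det_int A one_pos
    rw [pow_one] at this
    rw [Int.natCast_natAbs, this, sg, if_neg (by norm_num)]
  have h3 : (((A ^ q - 1).det.natAbs : ℕ) : ZMod q) =
      (((((A ^ q - 1).det.natAbs : ℕ) : ℤ)) : ZMod q) := (Int.cast_natCast _).symm
  have h4 : (((A - 1).det.natAbs : ℕ) : ZMod q) =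
      (((((A - 1).det.natAbs : ℕ) : ℤ)) : ZMod q) := (Int.cast_natCast _).symm
  rw [h3, h4, h1, h2, Int.cast_mul, Int.cast_mul, det_mod A hq]

/-- only finitely many primes `q` have `det (A ^ q - 1) = 0` -/
lemma bad_finite (h1 : (A - 1).det ≠ 0) : ∃ B : ℕ, ∀ q : ℕ, q.Prime → B < q →
    (A ^ q - 1).det ≠ 0 := by
  classical
  refine ⟨((RR A).toFinset.image orderOf).sup id, fun q hq hBq h0 => ?_⟩
  have h2 := det_pow_sub_one (cA A) hq.pos
  rw [det_cA, h0, Int.cast_zero] at h2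
  obtain ⟨l, hl, hl0⟩ := Multiset.mem_map.1 (Multiset.prod_eq_zero_iff.1 h2.symm)
  have hlq : l ^ q = 1 := sub_eq_zero.1 hl0
  have hl1 : l ≠ 1 := by
    intro hc
    apply h1
    have h3 := det_pow_sub_one (cA A) one_pos
    rw [det_cA] at h3
    have h4 : (((cA A).charpoly.roots.map (fun l => l ^ 1 - 1)).prod) = 0 := by
      refine Multiset.prod_eq_zero (Multiset.mem_map.2 ⟨l, hl, ?_⟩)
      rw [hc]; simp
    rw [h4, pow_one] at h3
    exact_mod_cast h3
  have := Fact.mk hq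
  have h5 : orderOf l = q := orderOf_eq_prime hlq hl1
  have h6 : orderOf l ≤ ((RR A).toFinset.image orderOf).sup id :=
    Finset.le_sup (f := id) (Finset.mem_image_of_mem _ (Multiset.mem_toFinset.2 hl))
  omega

/-- a natural number which is a square modulo all large primes is a square -/
lemma square_of_local {m B : ℕ} (h : ∀ q : ℕ, q.Prime → B < q → IsSquare ((m : ℤ) : ZMod q)) :
    IsSquare (m : ℤ) := by
  by_contra hc
  obtain ⟨K, c, hK, hco, hp⟩ := Pool.Agent.H374R2.V.ZD.nonres_class (m : ℤ) hc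
  obtain ⟨q, hq1, hq2, hq3⟩ := Nat.forall_exists_prime_gt_and_modEq B (q := K) (a := c) hK.ne' hco
  exact hp q hq2 hq3 (h q hq2 hq1)

theorem c_rat {F : ℕ → ℕ} (hDold : ∀ q : ℕ, q.Prime → F q ≡ F 1 [MOD q]) (hF1 : F 1 ≠ 0) {c : ℝ}
    (hc : 0 < c) {R : ℕ → ℝ} (hR : ∀ n, 0 < R n)
    (hF : ∀ n, 1 ≤ n → (F n : ℝ) = |(((A ^ n - 1).det : ℤ) : ℝ)| * c ^ n * R n) {B₀ : ℕ}
    (hR1 : ∀ q : ℕ, q.Prime → B₀ < q → R q = R 1) : ∃ x : ℚ, (x : ℝ) = c := by
  have hA1 : (A - 1).det ≠ 0 := by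
    intro h
    have := hF 1 le_rfl
    rw [pow_one, h] at this
    simp at this
    exact hF1 this
  obtain ⟨B₁, hB₁⟩ := bad_finite A hA1
  set B := max (max B₀ B₁) 2 with hB
  have hBB₀ : B₀ ≤ B := (le_max_left _ _).trans (le_max_left _ _)
  have hBB₁ : B₁ ≤ B := (le_max_right _ _).trans (le_max_left _ _)
  have hB2 : 2 ≤ B := le_max_right _ _
  set δ : ℕ → ℕ := fun n => (A ^ n - 1).det.natAbs with hδ
  have hδr : ∀ n, |(((A ^ n - 1).det : ℤ) : ℝ)| = (δ n : ℝ) := by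
    intro n
    rw [hδ]
    simp only
    rw [← Int.cast_abs, ← Int.natCast_natAbs, Int.cast_natCast]
  have hδ1 : δ 1 ≠ 0 := by
    rw [hδ]; simp only [pow_one]; exact Int.natAbs_ne_zero.2 hA1
  have hq0 : ∀ q : ℕ, q.Prime → B < q →
      (F q : ℝ) * δ 1 = F 1 * δ q * c ^ (q - 1) ∧ δ q ≠ 0 := by
    intro q hq hBq
    have h1 := hF q hq.one_lt.le
    have h2 := hF 1 le_rfl
    rw [hδr] at h1 h2
    rw [hR1 q hq (by omega)] at h1
    refine ⟨?_, Int.natAbs_ne_zero.2 (hB₁ q hq (by omega))⟩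
    have h3 : c ^ q = c ^ (q - 1) * c := by
      rw [← pow_succ, Nat.sub_add_cancel hq.one_lt.le]
    rw [h1, h2, h3]
    ring
  have hF1r : (F 1 : ℝ) ≠ 0 := by exact_mod_cast hF1
  have hrat : ∀ q : ℕ, q.Prime → B < q → ∃ x : ℚ, (x : ℝ) = c ^ (q - 1) := by
    intro q hq hBq
    obtain ⟨h1, h2⟩ := hq0 q hq hBq
    refine ⟨(F q * δ 1 : ℚ) / (F 1 * δ q), ?_⟩
    have h2' : (δ q : ℝ) ≠ 0 := by exact_mod_cast h2
    push_cast
    rw [h1]
    field_simp
  -- `c ^ 2` is rational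
  obtain ⟨y, hy⟩ : ∃ y : ℚ, (y : ℝ) = c ^ 2 := by
    obtain ⟨q₁, hq₁B, hq₁⟩ := Nat.exists_infinite_primes (B + 1)
    obtain ⟨q₂, hq₂B, hq₂, hq₂m⟩ := Nat.forall_exists_prime_gt_and_modEq B (q := q₁ - 1)
      (a := q₁ - 2) (by have := hq₁.two_le; omega) (by
        have h2 : 2 < q₁ := by omega
        have : q₁ - 1 = (q₁ - 2) + 1 := by omega
        rw [this]
        simp)
    obtain ⟨x₁, hx₁⟩ := hrat q₁ hq₁ (by omega)
    obtain ⟨x₂, hx₂⟩ := hrat q₂ hq₂ hq₂B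
    have h3 : q₁ - 1 ∣ q₂ + 1 := by
      have h4 : q₂ + 1 ≡ (q₁ - 2) + 1 [MOD (q₁ - 1)] := hq₂m.add_right 1
      have h5 : (q₁ - 2) + 1 = q₁ - 1 := by omega
      rw [h5] at h4
      exact (Nat.modEq_zero_iff_dvd).1 (h4.trans (by simp [Nat.ModEq]))
    obtain ⟨m, hm⟩ := h3
    refine ⟨x₁ ^ m / x₂, ?_⟩
    have h6 : c ^ (q₂ - 1) ≠ 0 := pow_ne_zero _ hc.ne'
    rw [Rat.cast_div, Rat.cast_pow, hx₁, hx₂, ← pow_mul, ← hm, div_eq_iff h6, ← pow_add]
    congr 1
    have := hq₂.two_le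
    omega
  -- numerator and denominator
  have hy0 : 0 < y := by
    have : (0 : ℝ) < (y : ℝ) := by rw [hy]; positivity
    exact_mod_cast this
  set u : ℕ := y.num.natAbs with hu
  set v : ℕ := y.den with hv
  have hv0 : v ≠ 0 := y.den_ne_zero
  have hu0 : u ≠ 0 := by
    rw [hu, Int.natAbs_ne_zero]
    exact (Rat.num_pos.2 hy0).ne'
  have hcuv : c ^ 2 * v = u := by
    have h1 : y * v = u := by
      have h2 : (u : ℚ) = (y.num : ℚ) := by
        have : ((u : ℕ) : ℤ) = y.num := by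
          rw [hu, Int.natCast_natAbs, abs_of_pos (Rat.num_pos.2 hy0)]
        exact_mod_cast this
      rw [h2]
      exact Rat.mul_den_eq_num y
    rw [← hy]
    exact_mod_cast h1
  have hsq : IsSquare ((u * v : ℕ) : ℤ) := by
    refine square_of_local (B := B + F 1 * δ 1 * u * v) fun q hq hqB => ?_
    have := Fact.mk hq
    have hqB' : B < q := by omega
    have hq2 : q ≠ 2 := by omega
    have hodd := hq.odd_of_ne_two hq2
    obtain ⟨h1, -⟩ := hq0 q hq hqB'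
    set h := q / 2 with hh
    have hh2 : q - 1 = 2 * h := by
      rw [Nat.odd_iff] at hodd
      omega
    have h2 : F q * δ 1 * v ^ h = F 1 * δ q * u ^ h := by
      have h3 : (F q : ℝ) * δ 1 * v ^ h = F 1 * δ q * u ^ h := by
        rw [h1, hh2, pow_mul, ← hcuv, mul_pow]
        ring
      exact_mod_cast h3
    have h3 : (F q : ZMod q) = F 1 := (ZMod.natCast_eq_natCast_iff _ _ _).2 (hDold q hq)
    have h4 : (δ q : ZMod q) = δ 1 := by
      have := natAbs_det_mod A hq hq2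
      rw [hδ]
      simp only [pow_one]
      exact this
    have h5 := congrArg (fun n : ℕ => (n : ZMod q)) h2
    simp only [Nat.cast_mul, Nat.cast_pow, h3, h4] at h5
    have hne : ∀ n : ℕ, n ≠ 0 → n < q → (n : ZMod q) ≠ 0 := by
      intro n hn hnq hc
      rw [ZMod.natCast_eq_zero_iff] at hc
      exact absurd (Nat.le_of_dvd (Nat.pos_of_ne_zero hn) hc) (not_le.2 hnq)
    have hF1p : 0 < F 1 := Nat.pos_of_ne_zero hF1
    have hδ1p : 0 < δ 1 := Nat.pos_of_ne_zero hδ1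
    have hup : 0 < u := Nat.pos_of_ne_zero hu0
    have hvp : 0 < v := Nat.pos_of_ne_zero hv0
    have hb1 : F 1 ≤ F 1 * δ 1 * u * v := by
      calc F 1 = F 1 * 1 * 1 * 1 := by ring
        _ ≤ F 1 * δ 1 * u * v := by gcongr <;> omega
    have hb2 : δ 1 ≤ F 1 * δ 1 * u * v := by
      calc δ 1 = 1 * δ 1 * 1 * 1 := by ring
        _ ≤ F 1 * δ 1 * u * v := by gcongr <;> omega
    have hb3 : u ≤ F 1 * δ 1 * u * v := by
      calc u = 1 * 1 * u * 1 := by ring
        _ ≤ F 1 * δ 1 * u * v := by gcongr <;> omega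
    have hb4 : v ≤ F 1 * δ 1 * u * v := by
      calc v = 1 * 1 * 1 * v := by ring
        _ ≤ F 1 * δ 1 * u * v := by gcongr <;> omega
    have g1 := hne (F 1) hF1 (by omega)
    have g2 := hne (δ 1) hδ1 (by omega)
    have g3 := hne u hu0 (by omega)
    have g4 := hne v hv0 (by omega)
    have h6 : (v : ZMod q) ^ h = (u : ZMod q) ^ h := mul_left_cancel₀ (mul_ne_zero g1 g2) h5
    have h7 : (((u * v : ℕ) : ℤ) : ZMod q) = (u : ZMod q) * v := by push_cast; rfl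
    rw [h7, ZMod.euler_criterion q (mul_ne_zero g3 g4), mul_pow, ← hh, ← h6, ← pow_add, ← two_mul,
      ← hh2]
    exact ZMod.pow_card_sub_one_eq_one g4
  obtain ⟨w, hw⟩ := hsq
  refine ⟨(|w| : ℤ) / v, ?_⟩
  have hvr : (v : ℝ) ≠ 0 := by exact_mod_cast hv0
  have h1 : (c * v) ^ 2 = ((|w| : ℤ) : ℝ) ^ 2 := by
    have h2 : ((u * v : ℕ) : ℝ) = (w : ℝ) * w := by exact_mod_cast hw
    rw [Int.cast_abs, sq_abs, mul_pow, sq (v : ℝ), ← mul_assoc, hcuv, sq, ← h2]
    push_cast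
    ring
  have h2 : c * v = ((|w| : ℤ) : ℝ) := by
    refine (sq_eq_sq₀ (by positivity) ?_).1 h1
    exact_mod_cast abs_nonneg w
  push_cast at h2 ⊢
  rw [← h2]
  field_simp

end Q213.FD
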