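import Pool.Agent.Q213.FDh

/-! FAD-systems: exponential sums with rational coefficients and root-rationality. -/

set_option autoImplicit false

namespace Q213.FD

open Filter Topology Complex

/-- powers of complex numbers -/
noncomputable def qpow : ℂ →* (ℕ → ℂ) where
  toFun z := fun n => z ^ n
  map_one' := by ext n; simp
  map_mul' := by intro x y; ext n; simp [mul_pow]

/-- exponential sums with rational coefficients -/
noncomputable def QP : Subalgebra ℚ (ℕ → ℂ) := (MonoidAlgebra.lift ℚ (ℕ → ℂ) ℂ qpow).range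

lemma QP_pow (z : ℂ) : (fun n => z ^ n) ∈ QP :=
  ⟨MonoidAlgebra.of ℚ ℂ z, by simp [qpow]⟩

lemma QP_const (x : ℚ) : (fun _ => (x : ℂ)) ∈ QP := by
  have h : (algebraMap ℚ (ℕ → ℂ)) x = fun _ => (x : ℂ) := by
    ext n; rw [Pi.algebraMap_apply, eq_ratCast]
  rw [← h]
  exact Subalgebra.algebraMap_mem QP x

lemma QP_rep {T : ℕ → ℂ} (hT : T ∈ QP) : ∃ (F : Finset ℂ) (a : ℂ → ℚ),
    ∀ n, T n = ∑ v ∈ F, (a v : ℂ) * v ^ n := by
  obtain ⟨x, rfl⟩ := hT
  refine ⟨x.coeff.support, x.coeff, fun n => ?_⟩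
  change (MonoidAlgebra.lift ℚ (ℕ → ℂ) ℂ qpow) x n = _
  rw [MonoidAlgebra.lift_apply, Finsupp.sum, Finset.sum_apply]
  refine Finset.sum_congr rfl fun v _ => ?_
  rw [Pi.smul_apply, Rat.smul_def]
  rfl

/-- indicator of the multiples of `e` -/
noncomputable def dv (e n : ℕ) : ℂ := if e ∣ n then 1 else 0

lemma QP_dv {e : ℕ} (he : 0 < e) : dv e ∈ QP := by
  have hζ := Complex.isPrimitiveRoot_exp e he.ne'
  set ζ := Complex.exp (2 * Real.pi * I / e) with hζd
  have h1 : dv e = (fun _ => (((1 / e : ℚ)) : ℂ)) * ∑ j ∈ Finset.range e, (fun n => (ζ ^ j) ^ n) := by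
    ext n
    rw [Pi.mul_apply, Finset.sum_apply]
    unfold dv
    have hec : (e : ℂ) ≠ 0 := by exact_mod_cast he.ne'
    have h2 : ∑ c ∈ Finset.range e, (ζ ^ c) ^ n = ∑ c ∈ Finset.range e, (ζ ^ n) ^ c := by
      refine Finset.sum_congr rfl fun j _ => ?_
      rw [← pow_mul, ← pow_mul, mul_comm]
    rw [h2]
    split_ifs with h
    · rw [(hζ.pow_eq_one_iff_dvd n).2 h]
      simp
      field_simp
    · have h3 : ζ ^ n ≠ 1 := fun hc => h ((hζ.pow_eq_one_iff_dvd n).1 hc)
      rw [geom_sum_eq h3, ← pow_mul, mul_comm n e, pow_mul, hζ.pow_eq_one, one_pow, sub_self,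
        zero_div, mul_zero]
  rw [h1]
  exact Subalgebra.mul_mem _ (QP_const _) (Subalgebra.sum_mem _ fun j _ => QP_pow _)

/-- rational functions of `gcd n N` -/
lemma QP_gcd {N : ℕ} (hN : 0 < N) (φ : ℕ → ℚ) : (fun n => ((φ (Nat.gcd n N) : ℚ) : ℂ)) ∈ QP := by
  classical
  have h1 : (fun n => ((φ (Nat.gcd n N) : ℚ) : ℂ)) = ∑ d ∈ N.divisors, ((fun _ => (φ d : ℂ)) *
      (dv d * ∏ e ∈ N.divisors.filter (fun e => d ∣ e ∧ e ≠ d), (1 - dv e))) := by
    ext n
    rw [Finset.sum_apply, Finset.sum_eq_single (Nat.gcd n N)]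
    · rw [Pi.mul_apply, Pi.mul_apply, Finset.prod_apply, Finset.prod_eq_one]
      · simp [dv, Nat.gcd_dvd_left]
      · intro e he
        obtain ⟨he1, he2, he3⟩ := Finset.mem_filter.1 he
        have : ¬ e ∣ n := fun hc => he3 (Nat.dvd_antisymm
          (Nat.dvd_gcd hc (Nat.dvd_of_mem_divisors he1)) he2)
        simp [dv, this]
    · intro d hd hne
      rw [Pi.mul_apply, Pi.mul_apply, Finset.prod_apply]
      by_cases hdn : d ∣ n
      · have h2 : ∏ c ∈ N.divisors.filter (fun e => d ∣ e ∧ e ≠ d),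
            (1 - dv c : ℕ → ℂ) n = 0 := by
          refine Finset.prod_eq_zero (i := Nat.gcd n N) (Finset.mem_filter.2 ⟨?_, ?_, hne.symm⟩) ?_
          · exact Nat.mem_divisors.2 ⟨Nat.gcd_dvd_right _ _, hN.ne'⟩
          · exact Nat.dvd_gcd hdn (Nat.dvd_of_mem_divisors hd)
          · simp [dv, Nat.gcd_dvd_left]
        rw [h2]; simp
      · simp [dv, hdn]
    · intro h
      exact absurd (Nat.mem_divisors.2 ⟨Nat.gcd_dvd_right _ _, hN.ne'⟩) h
  rw [h1]
  refine Subalgebra.sum_mem _ fun d hd => Subalgebra.mul_mem _ (QP_const _)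
    (Subalgebra.mul_mem _ (QP_dv (Nat.pos_of_mem_divisors hd)) (Subalgebra.prod_mem _ fun e he => ?_))
  exact Subalgebra.sub_mem _ (Subalgebra.one_mem _)
    (QP_dv (Nat.pos_of_mem_divisors (Finset.mem_filter.1 he).1))

lemma QP_sg {D : ℕ} (A : Matrix (Fin D) (Fin D) ℤ) : (fun n => (sg A n : ℂ)) ∈ QP := by
  have e : (fun n => (sg A n : ℂ)) =
      (fun _ => (((((sig (A ^ 2 - 1).det : ℤ) : ℚ) + (sig (A - 1).det : ℤ)) / 2 : ℚ) : ℂ)) +
      (fun _ => (((((sig (A ^ 2 - 1).det : ℤ) : ℚ) - (sig (A - 1).det : ℤ)) / 2 : ℚ) : ℂ)) *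
        (fun n => (-1 : ℂ) ^ n) := by
    ext n
    simp only [Pi.add_apply, Pi.mul_apply, sg]
    split_ifs with h
    · rw [(Nat.even_iff.2 h).neg_one_pow]; push_cast; ring
    · rw [(Nat.odd_iff.2 (by omega)).neg_one_pow]; push_cast; ring
  rw [e]
  exact Subalgebra.add_mem _ (QP_const _) (Subalgebra.mul_mem _ (QP_const _) (QP_pow _))

lemma QP_roots (R : Multiset ℂ) : (fun n => (R.map (fun l => l ^ n - 1)).prod) ∈ QP := by
  have e : (fun n => (R.map (fun l => l ^ n - 1)).prod) =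
      (R.map (fun l => (fun n => l ^ n : ℕ → ℂ) - 1)).prod := by
    induction R using Multiset.induction_on with
    | empty => ext n; simp
    | cons l R ih =>
      ext n
      have := congrFun ih n
      simp only [Multiset.map_cons, Multiset.prod_cons, Pi.mul_apply, Pi.sub_apply, Pi.one_apply]
      rw [← this]
  rw [e]
  refine Subalgebra.multiset_prod_mem _ fun x hx => ?_
  obtain ⟨l, _, rfl⟩ := Multiset.mem_map.1 hx
  exact Subalgebra.sub_mem _ (QP_pow _) (Subalgebra.one_mem _)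

/-- root-rationality for exponential sums with rational coefficients -/
theorem root_rational {F : ℕ → ℕ} {L C : ℝ} (hL : 0 < L)
    (hFb : ∀ n, 1 ≤ n → (F n : ℝ) ≤ C * L ^ n) {T : ℕ → ℂ} (hT : T ∈ QP)
    (hFT : ∀ n, 1 ≤ n → (F n : ℂ) = T n) :
    ∃ k : ℕ, 1 ≤ k ∧ ∃ P Q : Polynomial ℂ, Q ≠ 0 ∧ ∀ z : ℂ, ‖z‖ * L < 1 →
      Q.eval z * zt F z ^ k = P.eval z := by
  classical
  obtain ⟨S, a, hS⟩ := QP_rep hT
  set k : ℕ := ∏ v ∈ S, (a v).den with hk
  have hk0 : 1 ≤ k := Finset.prod_pos fun v _ => (a v).den_pos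
  have hm : ∀ v ∈ S, ∃ m : ℤ, (m : ℚ) = k * a v := by
    intro v hv
    obtain ⟨j, hj⟩ := Finset.dvd_prod_of_mem (fun v => (a v).den) hv
    refine ⟨j * (a v).num, ?_⟩
    rw [hk, hj]
    push_cast
    have := Rat.den_mul_eq_num (a v)
    rw [← this]
    ring
  choose! m hm using hm
  refine ⟨k, hk0, ∏ v ∈ S, (1 - Polynomial.C v * Polynomial.X) ^ (-(m v)).toNat,
    ∏ v ∈ S, (1 - Polynomial.C v * Polynomial.X) ^ (m v).toNat, ?_, ?_⟩
  · rw [Finset.prod_ne_zero_iff]
    intro v _
    refine pow_ne_zero _ fun hc => ?_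
    have := congrArg (Polynomial.eval 0) hc
    simp at this
  · -- the two analytic functions
    have hev1 : ∀ z : ℂ, (∏ v ∈ S, (1 - Polynomial.C v * Polynomial.X) ^ (m v).toNat).eval z =
        ∏ v ∈ S, (1 - v * z) ^ (m v).toNat := by
      intro z; rw [Polynomial.eval_prod]; simp
    have hev2 : ∀ z : ℂ, (∏ v ∈ S, (1 - Polynomial.C v * Polynomial.X) ^ (-(m v)).toNat).eval z =
        ∏ v ∈ S, (1 - v * z) ^ (-(m v)).toNat := by
      intro z; rw [Polynomial.eval_prod]; simp
    have hf1 : AnalyticOnNhd ℂ (fun z => (∏ v ∈ S, (1 - Polynomial.C v *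
        Polynomial.X) ^ (m v).toNat).eval z * zt F z ^ k) (Metric.ball 0 (1 / L)) := by
      refine AnalyticOnNhd.mul ?_ (AnalyticOnNhd.pow ?_ k)
      · exact fun z _ => AnalyticOnNhd.eval_polynomial _ z (Set.mem_univ z)
      · refine DifferentiableOn.analyticOnNhd (fun z hz => ?_) Metric.isOpen_ball
        have hz' : ‖z‖ * L < 1 := by
          have : ‖z‖ < 1 / L := by simpa using hz
          rwa [lt_div_iff₀ hL] at this
        exact (zt_hasDeriv hL hFb hz').differentiableAt.differentiableWithinAt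
    have hf2 : AnalyticOnNhd ℂ (fun z => (∏ v ∈ S, (1 - Polynomial.C v *
        Polynomial.X) ^ (-(m v)).toNat).eval z) (Metric.ball 0 (1 / L)) :=
      fun z _ => AnalyticOnNhd.eval_polynomial _ z (Set.mem_univ z)
    have heq : (fun z => (∏ v ∈ S, (1 - Polynomial.C v *
        Polynomial.X) ^ (m v).toNat).eval z * zt F z ^ k) =ᶠ[𝓝 0]
        (fun z => (∏ v ∈ S, (1 - Polynomial.C v * Polynomial.X) ^ (-(m v)).toNat).eval z) := by
      have h1 : ∀ᶠ z : ℂ in 𝓝 0, ∀ v ∈ S, ‖v * z‖ < 1 := by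
        rw [Filter.eventually_all_finset]
        intro v _
        have : ContinuousAt (fun z : ℂ => ‖v * z‖) 0 := by fun_prop
        refine this.eventually (gt_mem_nhds ?_)
        simp
      filter_upwards [h1] with z hz
      rw [hev1, hev2]
      -- the sum
      have h2 : HasSum (fun n : ℕ => ((F (n + 1) : ℂ) / ((n : ℂ) + 1)) * z ^ (n + 1))
          (∑ v ∈ S, (a v : ℂ) * (-Complex.log (1 - v * z))) := by
        have h3 : HasSum (fun n : ℕ => ∑ v ∈ S, (a v : ℂ) * ((v * z) ^ (n + 1) / ((n + 1 : ℕ) : ℂ)))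
            (∑ v ∈ S, (a v : ℂ) * (-Complex.log (1 - v * z))) := by
          refine hasSum_sum fun v hv => HasSum.mul_left _ ?_
          have h4 := Complex.hasSum_taylorSeries_neg_log (hz v hv)
          have h5 := (hasSum_nat_add_iff' (f := fun n : ℕ => (v * z) ^ n / (n : ℂ)) 1).2 h4
          simpa using h5
        refine h3.congr_fun ?_ |> fun h => h
        intro n
        rw [hFT (n + 1) (by omega), hS, Finset.sum_div, Finset.sum_mul]
        refine Finset.sum_congr rfl fun v _ => ?_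
        push_cast
        rw [mul_pow]
        ring
      have h3 : zt F z ^ k = ∏ v ∈ S, (1 - v * z) ^ (-(m v)) := by
        unfold zt
        rw [h2.tsum_eq, ← Complex.exp_nat_mul, Finset.mul_sum, Complex.exp_sum]
        refine Finset.prod_congr rfl fun v hv => ?_
        have hne : 1 - v * z ≠ 0 := by
          intro hc
          have : v * z = 1 := by linear_combination -hc
          have h4 := hz v hv
          rw [this] at h4
          simp at h4
        have h4 : (k : ℂ) * ((a v : ℂ) * -Complex.log (1 - v * z)) =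
            ((-(m v) : ℤ) : ℂ) * Complex.log (1 - v * z) := by
          have h5 : ((m v : ℤ) : ℂ) = (k : ℂ) * (a v : ℂ) := by
            have := hm v hv
            exact_mod_cast congrArg (fun x : ℚ => (x : ℂ)) this
          push_cast
          rw [h5]
          ring
        rw [h4, Complex.exp_int_mul, Complex.exp_log hne]
      rw [h3, ← Finset.prod_mul_distrib]
      refine Finset.prod_congr rfl fun v hv => ?_
      have hne : 1 - v * z ≠ 0 := by
        intro hc
        have : v * z = 1 := by linear_combination -hc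
        have h4 := hz v hv
        rw [this] at h4
        simp at h4
      rw [← zpow_natCast, ← zpow_natCast, ← zpow_add₀ hne]
      congr 1
      omega
    intro z hz
    have hz' : z ∈ Metric.ball (0 : ℂ) (1 / L) := by
      simp only [Metric.mem_ball, dist_zero_right]
      rwa [lt_div_iff₀ hL]
    exact hf1.eqOn_of_preconnected_of_eventuallyEq hf2 (convex_ball _ _).isPreconnected
      (Metric.mem_ball_self (by positivity)) heq hz'

end Q213.FD
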