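import Pool.Agent.Q213.FDi

/-! FAD-systems: radius of convergence, Dold congruences, assembly. -/

set_option autoImplicit false

namespace Q213.FD

open Filter Topology Complex
open scoped ENNReal

/-- `exp (limsup (log F n) / n)` -/
noncomputable def Lam (F : ℕ → ℕ) : ℝ≥0∞ :=
  EReal.exp (limsup (fun n : ℕ => ENNReal.log (F n : ℝ≥0∞) / (n : EReal)) atTop)

lemma log_div_le {x a : ℝ} {n : ℕ} (hn : 1 ≤ n) :
    ENNReal.log (ENNReal.ofReal x) / (n : EReal) ≤ (a : EReal) ↔ x ≤ Real.exp (a * n) := by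
  have hn0 : (0 : EReal) < (n : EReal) := by exact_mod_cast hn
  have hn1 : (n : EReal) ≠ ⊤ := EReal.natCast_ne_top n
  rw [EReal.div_le_iff_le_mul hn0 hn1]
  have h1 : (n : EReal) * (a : EReal) = ENNReal.log (ENNReal.ofReal (Real.exp (a * n))) := by
    rw [← EReal.exp_coe, EReal.log_exp]
    rw [mul_comm a]
    push_cast
    rfl
  rw [h1, ENNReal.log_le_log_iff, ENNReal.ofReal_le_ofReal_iff (Real.exp_pos _).le]

variable {F : ℕ → ℕ} {L C : ℝ}

theorem Lam_eq (hL : 0 < L) (hF : ∀ n, 1 ≤ n → (F n : ℝ) ≤ C * L ^ n)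
    (hM : M (fun n => (hh F L n : ℂ)) ≠ 0) : Lam F = ENNReal.ofReal L := by
  have hFx : ∀ n, (F n : ℝ≥0∞) = ENNReal.ofReal (F n : ℝ) := fun n => by
    rw [ENNReal.ofReal_natCast]
  have hC : 0 < C := by
    by_contra hc
    apply hM
    refine (M_congr (hh_bd hL hF) (Bd.const 0) fun n hn => ?_).trans (M_const 0)
    have h1 := hF n hn
    have h2 : C * L ^ n ≤ 0 := mul_nonpos_of_nonpos_of_nonneg (not_lt.1 hc) (by positivity)
    have h3 : (F n : ℝ) = 0 := le_antisymm (h1.trans h2) (Nat.cast_nonneg _)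
    simp [hh, h3]
  have key : limsup (fun n : ℕ => ENNReal.log (F n : ℝ≥0∞) / (n : EReal)) atTop =
      ((Real.log L : ℝ) : EReal) := by
    apply le_antisymm
    · refine le_of_forall_gt_imp_ge_of_dense fun b hb => ?_
      obtain ⟨a, ha1, ha2⟩ := EReal.lt_iff_exists_real_btwn.1 hb
      refine le_trans (Filter.limsup_le_of_le (a := (a : EReal)) (by isBoundedDefault) ?_) ha2.le
      have ha : Real.log L < a := by exact_mod_cast ha1
      have h1 : Tendsto (fun n : ℕ => Real.exp ((a - Real.log L) * n)) atTop atTop :=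
        Real.tendsto_exp_atTop.comp (tendsto_natCast_atTop_atTop.const_mul_atTop (by linarith))
      filter_upwards [h1.eventually_ge_atTop C, eventually_ge_atTop 1] with n h2 h3
      rw [hFx, log_div_le h3]
      refine (hF n h3).trans ?_
      have h4 : L ^ n = Real.exp (Real.log L * n) := by
        rw [mul_comm, Real.exp_nat_mul, Real.exp_log hL]
      calc C * L ^ n ≤ Real.exp ((a - Real.log L) * n) * L ^ n :=
            mul_le_mul_of_nonneg_right h2 (by positivity)
        _ = Real.exp (a * n) := by rw [h4, ← Real.exp_add]; congr 1; ring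
    · by_contra hc
      push Not at hc
      obtain ⟨a, ha1, ha2⟩ := EReal.lt_iff_exists_real_btwn.1 hc
      have ha : a < Real.log L := by exact_mod_cast ha2
      apply hM
      refine M_null ?_
      have h1 := Filter.eventually_lt_of_limsup_lt ha1
      have h2 : Tendsto (fun n : ℕ => Real.exp ((a - Real.log L) * n)) atTop (𝓝 0) := by
        have h3 : Tendsto (fun n : ℕ => Real.exp (-((Real.log L - a) * n))) atTop (𝓝 0) :=
          Real.tendsto_exp_neg_atTop_nhds_zero.comp
            (tendsto_natCast_atTop_atTop.const_mul_atTop (by linarith))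
        refine h3.congr fun n => ?_
        congr 1; ring
      refine squeeze_zero_norm' ?_ h2
      filter_upwards [h1, eventually_ge_atTop 1] with n h3 h4
      have h5 := h3.le
      rw [hFx, log_div_le h4] at h5
      rw [Complex.norm_real, Real.norm_of_nonneg (by unfold hh; positivity)]
      unfold hh
      rw [div_le_iff₀ (by positivity)]
      have h6 : L ^ n = Real.exp (Real.log L * n) := by
        rw [mul_comm, Real.exp_nat_mul, Real.exp_log hL]
      rw [h6, ← Real.exp_add]
      refine h5.trans (le_of_eq ?_)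
      congr 1; ring
  rw [Lam, key, EReal.exp_coe, Real.exp_log hL]

lemma enorm_lt_iff (hL : 0 < L) (z : ℂ) : ‖z‖ₑ < (ENNReal.ofReal L)⁻¹ ↔ ‖z‖ * L < 1 := by
  rw [← ENNReal.ofReal_inv_of_pos hL, ← ofReal_norm,
    ENNReal.ofReal_lt_ofReal_iff (by positivity), ← one_div, lt_div_iff₀ hL]

lemma enorm_eq_iff (hL : 0 < L) (z : ℂ) : ‖z‖ₑ = (ENNReal.ofReal L)⁻¹ ↔ ‖z‖ * L = 1 := by
  rw [← ENNReal.ofReal_inv_of_pos hL, ← ofReal_norm,
    ENNReal.ofReal_eq_ofReal_iff (norm_nonneg _) (by positivity), ← one_div, eq_div_iff hL.ne']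

/-- the Dold congruence at primes -/
theorem dold {X : Type*} (f : X → X) (hfin : ∀ n : ℕ, 1 ≤ n → {x | f^[n] x = x}.Finite) {q : ℕ}
    (hq : q.Prime) : {x | f^[q] x = x}.ncard ≡ {x | f^[1] x = x}.ncard [MOD q] := by
  classical
  have := Fact.mk hq
  set Y := {x | f^[q] x = x} with hY
  have hYf : Y.Finite := hfin q hq.one_lt.le
  have hmap : ∀ x ∈ Y, f x ∈ Y := by
    intro x hx
    change f^[q] (f x) = f x
    rw [← Function.iterate_succ_apply, Function.iterate_succ_apply']
    rw [show f^[q] x = x from hx]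
  let g : Function.End Y := fun x => ⟨f x, hmap x x.2⟩
  have hgn : ∀ (n : ℕ) (x : Y), (((g ^ n : Function.End Y) x : Y) : X) = f^[n] x := by
    intro n
    induction n with
    | zero => intro x; rfl
    | succ n ih =>
      intro x
      rw [pow_succ]
      change (((g ^ n : Function.End Y) (g x) : Y) : X) = _
      rw [ih, Function.iterate_succ_apply]
  have hg : g ^ q ^ 1 = 1 := by
    rw [pow_one]
    funext x
    apply Subtype.ext
    rw [hgn]
    exact x.2
  have : Fintype Y := hYf.fintype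
  have h1 := Equiv.Perm.card_fixedPoints_modEq (f := g) hg
  have h2 : Y.ncard = Fintype.card Y := by
    rw [← Nat.card_coe_set_eq, Nat.card_eq_fintype_card]
  have h3 : {x | f^[1] x = x}.ncard = Fintype.card (Function.fixedPoints g) := by
    rw [← Nat.card_coe_set_eq, ← Nat.card_eq_fintype_card]
    have hfx : ∀ x, f x = x → f^[q] x = x := fun x hx => Function.iterate_fixed hx q
    have h1x : ∀ x : {x | f^[1] x = x}, f x.1 = x.1 := fun x => x.2
    refine Nat.card_congr ⟨fun x => ⟨⟨x.1, hfx x.1 (h1x x)⟩, Subtype.ext (h1x x)⟩,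
      fun y => ⟨y.1.1, ?_⟩, fun x => rfl, fun y => rfl⟩
    have h2y : g y.1 = y.1 := y.2
    exact congrArg (fun w : Y => (w : X)) h2y
  rw [h2, h3]
  exact h1

/-- the main theorem for sequences -/
theorem main_seq {D : ℕ} (A : Matrix (Fin D) (Fin D) ℤ) {c : ℝ} (hc : 0 < c) (d : ND)
    (hform : ∀ n, 1 ≤ n → (F n : ℝ) = |(((A ^ n - 1).det : ℤ) : ℝ)| * c ^ n * d.V n)
    (hDold : ∀ q : ℕ, q.Prime → F q ≡ F 1 [MOD q])
    (hnr : ¬ ∃ k : ℕ, 1 ≤ k ∧ ∃ P Q : Polynomial ℂ, Q ≠ 0 ∧ ∀ z : ℂ, ‖z‖ₑ < (Lam F)⁻¹ →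
      Q.eval z * zt F z ^ k = P.eval z) :
    ¬ ∃ U : Set ℂ, IsOpen U ∧ (∃ w ∈ U, ‖w‖ₑ = (Lam F)⁻¹) ∧ ∃ g : ℂ → ℂ, AnalyticOnNhd ℂ g U ∧
      ∀ z ∈ U, ‖z‖ₑ < (Lam F)⁻¹ → g z = zt F z := by
  classical
  by_cases hA1 : (A - 1).det = 0
  · exfalso
    apply hnr
    have hdet : ∀ n, 1 ≤ n → (A ^ n - 1).det = 0 := by
      intro n hn
      obtain ⟨B, hB⟩ : (A - 1) ∣ (A ^ n - 1) := by
        have := (Commute.one_right A).sub_dvd_pow_sub_pow n
        simpa using this
      rw [hB, Matrix.det_mul, hA1, zero_mul]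
    have hF0 : ∀ n, 1 ≤ n → F n = 0 := by
      intro n hn
      have := hform n hn
      rw [hdet n hn] at this
      simpa using this
    refine ⟨1, le_rfl, 1, 1, one_ne_zero, fun z _ => ?_⟩
    have : zt F z = 1 := by
      unfold zt
      have h1 : (fun n : ℕ => ((F (n + 1) : ℂ) / ((n : ℂ) + 1)) * z ^ (n + 1)) = fun _ => 0 := by
        ext n
        rw [hF0 (n + 1) (by omega)]
        simp
      rw [h1, tsum_zero, Complex.exp_zero]
    rw [this]; simp
  · have hF1 : F 1 ≠ 0 := by
      intro h0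
      have := hform 1 le_rfl
      rw [h0, pow_one, pow_one] at this
      have h1 : (0 : ℝ) < |(((A - 1).det : ℤ) : ℝ)| := by
        rw [abs_pos]; exact_mod_cast hA1
      have h2 := d.V_pos 1
      have : (0 : ℝ) < ((0 : ℕ) : ℝ) := by rw [this]; positivity
      simp at this
    obtain ⟨e⟩ := exists_SPA A
    have hbb := bb_pos A
    set L : ℝ := c * bb A with hLdef
    have hL : 0 < L := mul_pos hc hbb
    have hTne : ∀ n, 1 ≤ n → F n ≠ 0 → TT A n ≠ 0 := by
      intro n hn hFn h0
      apply hFn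
      have := hform n hn
      rw [TT_zero A hn h0] at this
      simpa using this
    have hhW : ∀ n, 1 ≤ n → hh F L n = WW A n * d.V n := by
      intro n hn
      unfold hh WW
      rw [hform n hn, hLdef, mul_pow]
      field_simp
    obtain ⟨C, hC⟩ : ∃ C : ℝ, ∀ n, 1 ≤ n → (F n : ℝ) ≤ C * L ^ n := by
      obtain ⟨B₁, hB₁⟩ := e.W_bd
      obtain ⟨B₂, hB₂⟩ := d.V_bdd
      refine ⟨B₁ * B₂, fun n hn => ?_⟩
      have h1 := hhW n hn
      have h2 : (F n : ℝ) = hh F L n * L ^ n := by unfold hh; field_simp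
      rw [h2, h1]
      refine mul_le_mul_of_nonneg_right ?_ (by positivity)
      have h3 := hB₁ n
      rw [Complex.norm_real, Real.norm_of_nonneg (WW_nonneg A n)] at h3
      exact mul_le_mul h3 ((le_abs_self _).trans (hB₂ n)) (d.V_pos n).le
        ((WW_nonneg A n).trans h3)
    have hbd1 := hh_bd hL hC
    have hWVbd : Bd (fun n => ((WW A n * d.V n : ℝ) : ℂ)) := by
      obtain ⟨B₂, hB₂⟩ := d.V_bdd
      have := e.W_bd.mul (real_bd hB₂)
      simpa using this
    have hMW : ∀ z : Circle, M (fun n => (hh F L n : ℂ) * (z : ℂ) ^ n) =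
        M (fun n => ((WW A n * d.V n : ℝ) : ℂ) * (z : ℂ) ^ n) := by
      intro z
      refine M_congr (hbd1.mul (Bd.pow (Circle.norm_coe z)))
        (hWVbd.mul (Bd.pow (Circle.norm_coe z))) fun n hn => ?_
      rw [hhW n hn]
    have hLam : Lam F = ENNReal.ofReal L := by
      refine Lam_eq hL hC ?_
      have h1 := M_pos_one e d (hTne 1 le_rfl hF1)
      have h2 := hMW 1
      simp only [Circle.coe_one, one_pow, mul_one] at h2
      rw [h2]
      exact h1
    rw [hLam] at hnr ⊢
    simp only [enorm_lt_iff hL, enorm_eq_iff hL] at hnr ⊢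
    rintro ⟨U, hU, ⟨w, hwU, hwL⟩, g, hg, hgz⟩
    obtain ⟨δ, hδ, hvan⟩ := vanish hL hC hU hwU hwL hg hgz
    apply hnr
    -- all exponents vanish on the relevant classes
    set N := e.N d with hN
    have hN0 : 0 < N := e.N_pos d
    have hst : ∀ p ∈ d.S, ∀ n, 1 ≤ n → p ^ (padicValNat p N) ∣ n → F n ≠ 0 →
        d.s p n = 0 ∧ d.t p n = 0 := by
      intro p hp n hn hpn hFn
      by_contra hst
      have hpp := d.hS p hp
      have := Fact.mk hpp
      obtain ⟨k, hk, z, hz, hz1, hz2⟩ := dense_freq hpp hL hwL hδ (padicValNat p N + 1)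
      have h1 := hvan z hz1 hz2
      rw [hMW z] at h1
      refine key e d hp (k := k) ?_ hz hn ?_ (hTne n hn hFn) hst h1
      · intro hc
        rw [padicValNat_dvd_iff_le hN0.ne'] at hc
        omega
      · intro j hj
        rw [padicValNat_dvd_iff_le hN0.ne'] at hj
        exact (pow_dvd_pow _ hj).trans hpn
    set R : ℕ → ℝ := fun n => d.r n * ∏ p ∈ d.S,
      (if p ^ (padicValNat p N) ∣ n then 1 else d.ef p n) with hR
    have hR0 : ∀ n, 0 < R n := by
      intro n
      refine mul_pos (d.hr0 n) (Finset.prod_pos fun p hp => ?_)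
      split_ifs
      · exact one_pos
      · exact d.ef_pos hp n
    have hVR : ∀ n, 1 ≤ n → F n ≠ 0 → d.V n = R n := by
      intro n hn hFn
      simp only [ND.V, hR]
      congr 1
      refine Finset.prod_congr rfl fun p hp => ?_
      split_ifs with h
      · obtain ⟨h1, h2⟩ := hst p hp n hn h hFn
        unfold ND.ef
        rw [h1, h2, eta_zero]
      · rfl
    have hFR : ∀ n, 1 ≤ n → (F n : ℝ) = |(((A ^ n - 1).det : ℤ) : ℝ)| * c ^ n * R n := by
      intro n hn
      by_cases hFn : F n = 0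
      · have h1 := hform n hn
        rw [hFn, Nat.cast_zero] at h1 ⊢
        have h2 : |(((A ^ n - 1).det : ℤ) : ℝ)| = 0 := by
          have h3 := d.V_pos n
          have h4 : 0 < c ^ n := by positivity
          rcases mul_eq_zero.1 h1.symm with h | h
          · rcases mul_eq_zero.1 h with h | h
            · exact h
            · exact absurd h h4.ne'
          · exact absurd h h3.ne'
        rw [h2]; ring
      · rw [hform n hn, hVR n hn hFn]
    have hRgcd : ∀ n, 1 ≤ n → R n = R (Nat.gcd n N) := by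
      intro n hn
      have hg0 : 1 ≤ Nat.gcd n N := Nat.gcd_pos_of_pos_left _ hn
      simp only [hR]
      congr 1
      · rw [d.hr (Nat.gcd n N), Nat.gcd_assoc, Nat.gcd_eq_right (e.mr_dvd d), ← d.hr]
      · refine Finset.prod_congr rfl fun p hp => ?_
        have hpp := d.hS p hp
        have := Fact.mk hpp
        have h1 : p ^ (padicValNat p N) ∣ n ↔ p ^ (padicValNat p N) ∣ Nat.gcd n N := by
          rw [Nat.dvd_gcd_iff]
          exact ⟨fun h => ⟨h, pow_padicValNat_dvd⟩, fun h => h.1⟩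
        by_cases h : p ^ (padicValNat p N) ∣ n
        · rw [if_pos h, if_pos (h1.1 h)]
        · rw [if_neg h, if_neg (fun h' => h (h1.2 h'))]
          unfold ND.ef
          have hs : d.s p n = d.s p (Nat.gcd n N) := by
            rw [d.hs p hp (Nat.gcd n N), Nat.gcd_assoc, Nat.gcd_eq_right (e.m_dvd d hp),
              ← d.hs p hp]
          have ht : d.t p n = d.t p (Nat.gcd n N) := by
            rw [d.ht p hp (Nat.gcd n N), Nat.gcd_assoc, Nat.gcd_eq_right (e.m_dvd d hp),
              ← d.ht p hp]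
          have hv : padicValNat p n = padicValNat p (Nat.gcd n N) := by
            have hlt : padicValNat p n < padicValNat p N := by
              by_contra hc
              exact h ((padicValNat_dvd_iff_le (by omega)).2 (not_lt.1 hc))
            apply le_antisymm
            · rw [← padicValNat_dvd_iff_le (by omega)]
              refine Nat.dvd_gcd pow_padicValNat_dvd ?_
              exact (pow_dvd_pow _ hlt.le).trans pow_padicValNat_dvd
            · rw [← padicValNat_dvd_iff_le (by omega)]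
              exact pow_padicValNat_dvd.trans (Nat.gcd_dvd_left _ _)
          rw [hs, ht, hv]
    obtain ⟨x, hx⟩ := c_rat A hDold hF1 hc hR0 hFR (B₀ := N) (by
      intro q hq hqN
      rw [hRgcd q hq.one_lt.le]
      have h1 : Nat.gcd q N = 1 := by
        rw [← Nat.Coprime, hq.coprime_iff_not_dvd]
        intro hc
        exact absurd (Nat.le_of_dvd hN0 hc) (not_le.2 hqN)
      rw [h1])
    have hρ : ∀ j : ℕ, ∃ y : ℚ, ∀ n, 1 ≤ n → Nat.gcd n N = j → F n ≠ 0 → (y : ℝ) = R n := by
      intro j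
      by_cases hex : ∃ n, 1 ≤ n ∧ Nat.gcd n N = j ∧ F n ≠ 0
      · obtain ⟨n₀, hn₀, hj₀, hF₀⟩ := hex
        refine ⟨(F n₀ : ℚ) / ((|(A ^ n₀ - 1).det| : ℤ) * x ^ n₀), fun n hn hj hFn => ?_⟩
        have h1 := hFR n₀ hn₀
        have h2 : (|(((A ^ n₀ - 1).det : ℤ) : ℝ)|) ≠ 0 := by
          intro h0
          rw [h0] at h1
          simp at h1
          exact hF₀ h1
        rw [hRgcd n hn, hj, ← hj₀, ← hRgcd n₀ hn₀]
        rw [Rat.cast_div, Rat.cast_mul, Rat.cast_pow, Rat.cast_natCast, Rat.cast_intCast,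
          Int.cast_abs, hx, h1]
        field_simp
      · refine ⟨0, fun n hn hj hFn => absurd ⟨n, hn, hj, hFn⟩ hex⟩
    choose ρ hρ using hρ
    set T : ℕ → ℂ := (fun n => (sg A n : ℂ)) * (fun n => ((RR A).map (fun l => l ^ n - 1)).prod) *
      (fun n => ((x : ℂ)) ^ n) * (fun n => ((ρ (Nat.gcd n N) : ℚ) : ℂ)) with hT
    have hTQ : T ∈ QP := Subalgebra.mul_mem _ (Subalgebra.mul_mem _ (Subalgebra.mul_mem _ (QP_sg A)
      (QP_roots _)) (QP_pow _)) (QP_gcd hN0 ρ)
    have hFT : ∀ n, 1 ≤ n → (F n : ℂ) = T n := by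
      intro n hn
      have hdet : (((A ^ n - 1).det : ℤ) : ℂ) = ((RR A).map (fun l => l ^ n - 1)).prod := by
        rw [← det_cA, det_pow_sub_one (cA A) hn]; rfl
      simp only [hT, Pi.mul_apply]
      rw [← hdet]
      by_cases hFn : F n = 0
      · have h1 := hFR n hn
        rw [hFn, Nat.cast_zero] at h1
        have h2 : (A ^ n - 1).det = 0 := by
          by_contra hne
          have h3 : (0 : ℝ) < |(((A ^ n - 1).det : ℤ) : ℝ)| := by
            rw [abs_pos]; exact_mod_cast hne
          have h4 := hR0 n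
          have : (0 : ℝ) < 0 := by
            conv_rhs => rw [h1]
            positivity
          exact lt_irrefl _ this
        rw [hFn, h2]; simp
      · have h1 := hFR n hn
        rw [← hρ _ n hn rfl hFn, abs_det A hn, ← hx] at h1
        have h2 : (F n : ℂ) = ((F n : ℝ) : ℂ) := by push_cast; rfl
        rw [h2, h1, Complex.ofReal_mul, Complex.ofReal_mul, Complex.ofReal_mul, Complex.ofReal_pow,
          Complex.ofReal_ratCast, Complex.ofReal_ratCast, Complex.ofReal_intCast,
          Complex.ofReal_intCast]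
    exact root_rational hL hC hTQ hFT

end Q213.FD
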