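import Mathlib

/-!
# Ultrafilters built with an independent family

An independent family of continuum many subsets of `ℕ` is used to meet continuum many
requirements about two ultrafilters on `ℕ` (the method of Kunen).
-/

namespace Pool.Agent.Q213.IndUlt

open Set Filter

universe u

variable {Ξ : Type u}

/-- The Boolean combination given by the values `g ξ`, `ξ ∈ s`. -/
def comb (I : Ξ → ℕ → Bool) (s : Finset Ξ) (g : Ξ → Bool) : Set ℕ := {n | ∀ ξ ∈ s, I ξ n = g ξ}

/-- The members of the family with index outside `R` are independent modulo the filter `𝒰`. -/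
def Ind (I : Ξ → ℕ → Bool) (𝒰 : Filter ℕ) (R : Set Ξ) : Prop :=
  ∀ (s : Finset Ξ) (g : Ξ → Bool), (∀ ξ ∈ s, ξ ∉ R) → (𝒰 ⊓ 𝓟 (comb I s g)).NeBot

/-- The set where `x` has the value `ε`. -/
def val (x : ℕ → Bool) (ε : Bool) : Set ℕ := {n | x n = ε}

lemma comb_union [DecidableEq Ξ] (I : Ξ → ℕ → Bool) (s s' : Finset Ξ) (g g' : Ξ → Bool)
    (h : ∀ ξ ∈ s', ξ ∉ s) :
    comb I (s ∪ s') (fun ξ => if ξ ∈ s then g ξ else g' ξ) ⊆ comb I s g ∩ comb I s' g' := by
  intro n hn
  refine ⟨fun ξ hξ => ?_, fun ξ hξ => ?_⟩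
  · have := hn ξ (Finset.mem_union_left _ hξ)
    simpa only [if_pos hξ] using this
  · have := hn ξ (Finset.mem_union_right _ hξ)
    simpa only [if_neg (h ξ hξ)] using this

variable {I : Ξ → ℕ → Bool} {𝒰 : Filter ℕ} {R : Set Ξ}

lemma Ind.neBot (h : Ind I 𝒰 R) : 𝒰.NeBot := by
  have := h ∅ (fun _ => true) (by simp)
  exact this.mono inf_le_left

/-- Adding a Boolean combination. -/
lemma Ind.add_comb (h : Ind I 𝒰 R) (s : Finset Ξ) (g : Ξ → Bool) (hs : ∀ ξ ∈ s, ξ ∉ R) :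
    Ind I (𝒰 ⊓ 𝓟 (comb I s g)) (R ∪ ↑s) := by
  classical
  intro s' g' hs'
  have h1 : ∀ ξ ∈ s', ξ ∉ s := fun ξ hξ hξ' => hs' ξ hξ (Or.inr hξ')
  have := h (s ∪ s') (fun ξ => if ξ ∈ s then g ξ else g' ξ) (by
    intro ξ hξ
    rcases Finset.mem_union.1 hξ with h | h
    · exact hs ξ h
    · exact fun h' => hs' ξ h (Or.inl h'))
  refine this.mono ?_
  rw [inf_assoc, inf_principal]
  exact inf_le_inf le_rfl (principal_mono.2 (comb_union I s s' g g' h1))

/-- Each set can be decided at the cost of finitely many members of the family. -/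
lemma Ind.decide (h : Ind I 𝒰 R) (x : ℕ → Bool) : ∃ (ε : Bool) (A : Set ℕ) (F : Finset Ξ),
    Ind I (𝒰 ⊓ 𝓟 A) (R ∪ ↑F) ∧ A ⊆ val x ε := by
  by_cases h1 : Ind I (𝒰 ⊓ 𝓟 (val x true)) R
  · exact ⟨true, val x true, ∅, by simpa using h1, subset_rfl⟩
  · simp only [Ind, not_forall] at h1
    obtain ⟨s, g, hs, hn⟩ := h1
    rw [not_neBot] at hn
    refine ⟨false, comb I s g ∩ val x false, s, ?_, inter_subset_right⟩
    have h2 := h.add_comb s g hs
    have h3 : 𝒰 ⊓ 𝓟 (comb I s g) = 𝒰 ⊓ 𝓟 (comb I s g ∩ val x false) := by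
      apply le_antisymm
      · refine le_inf inf_le_left ?_
        rw [← inf_principal]
        refine le_inf inf_le_right ?_
        rw [le_principal_iff]
        have h4 : (𝒰 ⊓ 𝓟 (comb I s g)) ⊓ 𝓟 (val x true) = ⊥ := by
          rw [← hn, inf_assoc, inf_assoc, inf_comm (𝓟 (comb I s g))]
        rw [inf_principal_eq_bot] at h4
        refine mem_of_superset h4 ?_
        intro n hn
        simpa [val] using hn
      · exact inf_le_inf le_rfl (principal_mono.2 inter_subset_left)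
    rw [← h3]
    exact h2

/-- `x` can still be given the value `ε`. -/
def Can (I : Ξ → ℕ → Bool) (𝒰 : Filter ℕ) (R : Set Ξ) (x : ℕ → Bool) (ε : Bool) : Prop :=
  ∃ (A : Set ℕ) (F : Finset Ξ), Ind I (𝒰 ⊓ 𝓟 A) (R ∪ ↑F) ∧ A ⊆ val x ε

/-- The symmetric difference. -/
def sd (x y : ℕ → Bool) : ℕ → Bool := fun n => xor (x n) (y n)

/-- If `ξ` is not used then `x` or its symmetric difference with `I ξ` is undecided. -/
lemma Ind.undecided (h : Ind I 𝒰 R) {ξ : Ξ} (hξ : ξ ∉ R) (x : ℕ → Bool) :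
    (∀ ε, Can I 𝒰 R x ε) ∨ (∀ ε, Can I 𝒰 R (sd x (I ξ)) ε) := by
  by_contra hc
  push Not at hc
  obtain ⟨⟨e0, h0⟩, e1, h1⟩ := hc
  classical
  let δ : Bool := !(xor e0 e1)
  have i1 := h.add_comb {ξ} (fun _ => δ) (by simpa using hξ)
  obtain ⟨ε, A, F, i2, hA⟩ := i1.decide x
  have hε : ε = !e0 := by
    by_contra hne
    have : ε = e0 := by
      cases ε <;> cases e0 <;> simp_all
    apply h0
    refine ⟨comb I {ξ} (fun _ => δ) ∩ A, {ξ} ∪ F, ?_, ?_⟩
    · rw [← inf_principal, ← inf_assoc, Finset.coe_union, ← union_assoc]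
      exact i2
    · rw [← this]
      exact inter_subset_right.trans hA
  obtain ⟨ε', A', F', i3, hA'⟩ := i2.decide (sd x (I ξ))
  have hε' : ε' = !e1 := by
    by_contra hne
    have : ε' = e1 := by
      cases ε' <;> cases e1 <;> simp_all
    apply h1
    refine ⟨comb I {ξ} (fun _ => δ) ∩ A ∩ A', {ξ} ∪ F ∪ F', ?_, ?_⟩
    · rw [← inf_principal, ← inf_principal, ← inf_assoc, ← inf_assoc, Finset.coe_union,
        Finset.coe_union, ← union_assoc, ← union_assoc]
      exact i3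
    · rw [← this]
      exact inter_subset_right.trans hA'
  have hb := i3.neBot
  have : (∅ : Set ℕ) ∈ 𝒰 ⊓ 𝓟 (comb I {ξ} fun _ => δ) ⊓ 𝓟 A ⊓ 𝓟 A' := by
    have m1 : comb I {ξ} (fun _ => δ) ∈ 𝒰 ⊓ 𝓟 (comb I {ξ} fun _ => δ) ⊓ 𝓟 A ⊓ 𝓟 A' :=
      mem_inf_of_left (mem_inf_of_left (mem_inf_of_right (mem_principal_self _)))
    have m2 : A ∈ 𝒰 ⊓ 𝓟 (comb I {ξ} fun _ => δ) ⊓ 𝓟 A ⊓ 𝓟 A' :=
      mem_inf_of_left (mem_inf_of_right (mem_principal_self _))
    have m3 : A' ∈ 𝒰 ⊓ 𝓟 (comb I {ξ} fun _ => δ) ⊓ 𝓟 A ⊓ 𝓟 A' :=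
      mem_inf_of_right (mem_principal_self _)
    refine mem_of_superset (inter_mem (inter_mem m1 m2) m3) ?_
    rintro n ⟨⟨a, b⟩, c⟩
    have a1 : I ξ n = δ := a ξ (by simp)
    have b1 : x n = ε := hA b
    have c1 : xor (x n) (I ξ n) = ε' := hA' c
    rw [b1, a1, hε, hε'] at c1
    simp only [δ] at c1
    cases e0 <;> cases e1 <;> simp at c1
  exact hb.ne (empty_mem_iff_bot.1 this)

/-! ### Filters generated by a sequence of sets -/

variable {Λ : Type u} [LinearOrder Λ]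

/-- The filter generated by the cofinite sets and by the sets `A β` with `β ∈ D`. -/
def gen (A : Λ → Set ℕ) (D : Set Λ) : Filter ℕ where
  sets := {X | ∃ t : Finset Λ, (↑t ⊆ D) ∧ ((⋂ β ∈ t, A β) \ X).Finite}
  univ_sets := ⟨∅, by simp, by simp⟩
  sets_of_superset := by
    rintro X Y ⟨t, ht, hf⟩ hXY
    exact ⟨t, ht, hf.subset (sdiff_subset_sdiff_right hXY)⟩
  inter_sets := by
    classical
    rintro X Y ⟨t, ht, hf⟩ ⟨t', ht', hf'⟩
    refine ⟨t ∪ t', by rw [Finset.coe_union]; exact union_subset ht ht', (hf.union hf').subset ?_⟩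
    rintro n ⟨hn, hnX⟩
    simp only [Finset.mem_union, mem_iInter] at hn
    by_cases hX : n ∈ X
    · right
      refine ⟨?_, fun hY => hnX ⟨hX, hY⟩⟩
      simp only [mem_iInter]
      exact fun β hβ => hn β (Or.inr hβ)
    · left
      refine ⟨?_, hX⟩
      simp only [mem_iInter]
      exact fun β hβ => hn β (Or.inl hβ)

lemma mem_gen {A : Λ → Set ℕ} {D : Set Λ} {X : Set ℕ} :
    X ∈ gen A D ↔ ∃ t : Finset Λ, (↑t ⊆ D) ∧ ((⋂ β ∈ t, A β) \ X).Finite := Iff.rfl

lemma gen_anti (A : Λ → Set ℕ) {D D' : Set Λ} (h : D ⊆ D') : gen A D' ≤ gen A D := by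
  rintro X ⟨t, ht, hf⟩
  exact ⟨t, ht.trans h, hf⟩

lemma gen_congr {A A' : Λ → Set ℕ} {D : Set Λ} (h : ∀ β ∈ D, A β = A' β) :
    gen A D = gen A' D := by
  have key : ∀ {A A' : Λ → Set ℕ}, (∀ β ∈ D, A β = A' β) → gen A D ≤ gen A' D := by
    rintro A A' h X ⟨t, ht, hf⟩
    refine ⟨t, ht, ?_⟩
    have : (⋂ β ∈ t, A β) = ⋂ β ∈ t, A' β := by
      apply iInter₂_congr
      exact fun β hβ => h β (ht hβ)
    rwa [this]
  exact le_antisymm (key h) (key fun β hβ => (h β hβ).symm)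

lemma gen_le_principal (A : Λ → Set ℕ) {D : Set Λ} {α : Λ} (hα : α ∈ D) : gen A D ≤ 𝓟 (A α) := by
  rw [le_principal_iff]
  exact ⟨{α}, by simpa using hα, by simp⟩

lemma gen_le_cofinite (A : Λ → Set ℕ) (D : Set Λ) : gen A D ≤ cofinite := by
  intro X hX
  refine ⟨∅, by simp, ?_⟩
  simpa [compl_eq_univ_sdiff] using hX

/-- Independence at limits. -/
lemma ind_limit {I : Ξ → ℕ → Bool} (hI : Ind I cofinite ∅) (A : Λ → Set ℕ) (F : Λ → Finset Ξ)
    (D : Set Λ) (hD : ∀ β ∈ D, ∀ γ < β, γ ∈ D)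
    (h : ∀ β ∈ D, Ind I (gen A (Iio β) ⊓ 𝓟 (A β)) ((⋃ γ ∈ Iio β, ↑(F γ)) ∪ ↑(F β))) :
    Ind I (gen A D) (⋃ γ ∈ D, ↑(F γ)) := by
  classical
  intro s g hs
  rw [inf_principal_neBot_iff]
  rintro X ⟨t, ht, hf⟩
  rcases t.eq_empty_or_nonempty with rfl | hne
  · have hX : X ∈ (cofinite : Filter ℕ) := by
      simpa [compl_eq_univ_sdiff] using hf
    exact inf_principal_neBot_iff.1 (hI s g (by simp)) X hX
  · let β := t.max' hne
    have hβt : β ∈ t := t.max'_mem hne
    have hβ : β ∈ D := ht hβt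
    refine inf_principal_neBot_iff.1 (h β hβ s g ?_) X ?_
    · intro ξ hξ hξ'
      apply hs ξ hξ
      rcases hξ' with h1 | h1
      · simp only [mem_Iio, mem_iUnion, exists_prop] at h1 ⊢
        obtain ⟨γ, h2, h3⟩ := h1
        exact ⟨γ, hD β hβ γ h2, h3⟩
      · simp only [mem_iUnion, exists_prop]
        exact ⟨β, hβ, h1⟩
    · rw [mem_inf_principal]
      refine ⟨t.erase β, ?_, ?_⟩
      · intro γ hγ
        have := Finset.mem_erase.1 hγ
        exact lt_of_le_of_ne (t.le_max' γ this.2) this.1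
      · refine hf.subset ?_
        rintro n ⟨hn, hn'⟩
        simp only [mem_iInter, Finset.mem_erase] at hn
        simp only [mem_ofPred_eq, Classical.not_imp] at hn'
        refine ⟨?_, hn'.2⟩
        simp only [mem_iInter]
        intro γ hγ
        by_cases hγβ : γ = β
        · rw [hγβ]; exact hn'.1
        · exact hn γ ⟨hγβ, hγ⟩

/-! ### The recursion -/

/-- Dependent choice along a well-order. -/
lemma exists_rec {X : Type*} [Nonempty X] [WellFoundedLT Λ] (P : Λ → (Λ → X) → X → Prop)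
    (hcongr : ∀ α g g' x, (∀ β < α, g β = g' β) → P α g x → P α g' x)
    (h : ∀ α g, (∀ β < α, P β g (g β)) → ∃ x, P α g x) : ∃ f : Λ → X, ∀ α, P α f (f α) := by
  classical
  let x0 : X := Classical.arbitrary X
  let f : Λ → X := (wellFounded_lt (α := Λ)).fix fun α prev =>
    Classical.epsilon (P α (fun β => if h : β < α then prev β h else x0))
  have hf : ∀ α, f α = Classical.epsilon (P α (fun β => if β < α then f β else x0)) := by
    intro α
    have := (wellFounded_lt (α := Λ)).fix_eq (fun α prev =>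
      Classical.epsilon (P α (fun β => if h : β < α then prev β h else x0))) α
    simpa using this
  refine ⟨f, fun α => ?_⟩
  induction α using WellFoundedLT.induction with
  | ind α ih =>
    have hg : ∀ β < α, (if β < α then f β else x0) = f β := fun β hβ => if_pos hβ
    obtain ⟨x, hx⟩ := h α (fun β => if β < α then f β else x0) (by
      intro β hβ
      simp only [hβ, if_true]
      refine hcongr β f _ _ ?_ (ih β hβ)
      intro γ hγ
      rw [if_pos (hγ.trans hβ)])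
    have := Classical.epsilon_spec (p := P α (fun β => if β < α then f β else x0)) ⟨x, hx⟩
    rw [← hf α] at this
    exact hcongr α _ f _ hg this

end Pool.Agent.Q213.IndUlt
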