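import Mathlib
import Pool.Agent.Q213.IndUlt

/-!
# Two ultrafilters without a reduction between them

The ultrafilters `U`, `V` of `exists_pair` defeat all the continuous functions which are defined
on comeager sets and code the pair of `U`, `V` in a certain way.
-/

namespace Pool.Agent.Q213.IndUlt

open Set Filter
open Cardinal hiding univ

/-! ### An independent family -/

lemma exists_independent : ∃ I : Set ℕ → ℕ → Bool, Ind I cofinite ∅ := by
  classical
  let e := Denumerable.eqv (Finset ℕ × Finset (Finset ℕ))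
  let J : Set ℕ → (Finset ℕ × Finset (Finset ℕ)) → Bool := fun X d =>
    decide (d.1.filter (· ∈ X) ∈ d.2)
  refine ⟨fun X n => J X (e.symm n), ?_⟩
  intro s g _
  rw [cofinite_inf_principal_neBot_iff]
  -- a bound `m` below which the members of `s` differ
  have hm : ∃ m : ℕ, ∀ X ∈ s, ∀ Y ∈ s, X ≠ Y → ∃ n < m, ¬ (n ∈ X ↔ n ∈ Y) := by
    have h1 : ∀ p : Set ℕ × Set ℕ, ∃ n : ℕ, p.1 ≠ p.2 → ¬ (n ∈ p.1 ↔ n ∈ p.2) := by
      rintro ⟨X, Y⟩
      by_cases h : X = Y
      · exact ⟨0, fun h' => absurd h h'⟩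
      · have : ∃ n, ¬ (n ∈ X ↔ n ∈ Y) := by
          by_contra hc
          push Not at hc
          exact h (Set.ext hc)
        obtain ⟨n, hn⟩ := this
        exact ⟨n, fun _ => hn⟩
    choose N hN using h1
    refine ⟨(s ×ˢ s).sup N + 1, fun X hX Y hY hne => ⟨N (X, Y), ?_, hN (X, Y) hne⟩⟩
    exact Nat.lt_succ_of_le (Finset.le_sup (f := N) (Finset.mem_product.2 ⟨hX, hY⟩))
  obtain ⟨m, hm⟩ := hm
  let Fk : ℕ → Finset ℕ := fun k => Finset.range (m + k)
  let Sk : ℕ → Finset (Finset ℕ) := fun k =>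
    (s.filter (fun X => g X = true)).image fun X => (Fk k).filter (· ∈ X)
  have hinj : Function.Injective fun k => e (Fk k, Sk k) := by
    intro k l hkl
    have h1 := e.injective hkl
    have h2 : Fk k = Fk l := congrArg Prod.fst h1
    have h3 := congrArg Finset.card h2
    simp only [Fk, Finset.card_range] at h3
    omega
  refine (Set.infinite_range_of_injective hinj).mono ?_
  rintro _ ⟨k, rfl⟩ X hX
  simp only [Equiv.symm_apply_apply, J]
  have key : (Fk k).filter (· ∈ X) ∈ Sk k ↔ g X = true := by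
    constructor
    · intro h
      obtain ⟨Y, hY, hYX⟩ := Finset.mem_image.1 h
      rw [Finset.mem_filter] at hY
      by_cases hne : X = Y
      · rw [hne]; exact hY.2
      · obtain ⟨n, hn, hn'⟩ := hm X hX Y hY.1 hne
        exfalso
        apply hn'
        have hnk : n ∈ Fk k := Finset.mem_range.2 (by omega)
        constructor
        · intro h
          have : n ∈ (Fk k).filter (· ∈ X) := Finset.mem_filter.2 ⟨hnk, h⟩
          rw [← hYX] at this
          exact (Finset.mem_filter.1 this).2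
        · intro h
          have : n ∈ (Fk k).filter (· ∈ Y) := Finset.mem_filter.2 ⟨hnk, h⟩
          rw [hYX] at this
          exact (Finset.mem_filter.1 this).2
    · intro h
      exact Finset.mem_image.2 ⟨X, Finset.mem_filter.2 ⟨hX, h⟩, rfl⟩
  by_cases h : g X = true
  · rw [h, decide_eq_true (key.2 h)]
  · rw [decide_eq_false (fun h' => h (key.1 h'))]
    simpa using h

/-! ### Codes for continuous functions on comeager sets -/

/-- Even and odd part, and the inverse operation. -/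
def left (w : ℕ → Bool) : ℕ → Bool := fun n => w (2 * n)
def right (w : ℕ → Bool) : ℕ → Bool := fun n => w (2 * n + 1)
def join (p q : ℕ → Bool) : ℕ → Bool := fun n => if n % 2 = 0 then p (n / 2) else q (n / 2)

lemma left_join (p q : ℕ → Bool) : left (join p q) = p := by
  funext n
  simp [left, join]

lemma right_join (p q : ℕ → Bool) : right (join p q) = q := by
  funext n
  have h1 : (2 * n + 1) % 2 ≠ 0 := by omega
  have h2 : (2 * n + 1) / 2 = n := by omega
  simp only [right, join, if_neg h1, h2]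

lemma left_sd (w v : ℕ → Bool) : left (sd w v) = sd (left w) (left v) := rfl
lemma right_sd (w v : ℕ → Bool) : right (sd w v) = sd (right w) (right v) := rfl

/-- A code: for each place and each value a set of indices of basic open sets. -/
abbrev Code : Type := ℕ × Bool → Set ℕ

variable (β : ℕ → Set (ℕ → Bool))

/-- The open set coded at `(j, ε)`. -/
def op (T : Code) (j : ℕ) (ε : Bool) : Set (ℕ → Bool) := ⋃ m ∈ T (j, ε), β m

/-- The coded function. -/
noncomputable def hat (T : Code) (w : ℕ → Bool) : ℕ → Bool := by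
  classical exact fun j => decide (w ∈ op β T j true)

/-- The places where the coded function is defined. -/
def dom (T : Code) : Set (ℕ → Bool) := ⋂ j, (op β T j true ∪ op β T j false)

/-- The code is good if its function is defined on a dense `G_δ` set. -/
def Good (T : Code) : Prop := ∀ j, Dense (op β T j true ∪ op β T j false)

/-- The filters refute that the coded function reduces `U × V` to the pairs with a component in
its filter. -/
def Viol (T : Code) (𝒰 𝒱 : Filter ℕ) (w : ℕ → Bool) : Prop :=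
  ((val (left w) false ∈ 𝒰 ∨ val (right w) false ∈ 𝒱) ∧
    (val (left (hat β T w)) true ∈ 𝒰 ∨ val (right (hat β T w)) true ∈ 𝒱)) ∨
  (val (left w) true ∈ 𝒰 ∧ val (right w) true ∈ 𝒱 ∧
    val (left (hat β T w)) false ∈ 𝒰 ∧ val (right (hat β T w)) false ∈ 𝒱)

lemma Viol.mono {β : ℕ → Set (ℕ → Bool)} {T : Code} {𝒰 𝒱 𝒰' 𝒱' : Filter ℕ} {w : ℕ → Bool}
    (h : Viol β T 𝒰 𝒱 w) (h1 : 𝒰' ≤ 𝒰) (h2 : 𝒱' ≤ 𝒱) : Viol β T 𝒰' 𝒱' w := by
  rcases h with ⟨ha, hb⟩ | ⟨a, b, c, d⟩
  · exact Or.inl ⟨ha.imp (fun h => h1 h) fun h => h2 h, hb.imp (fun h => h1 h) fun h => h2 h⟩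
  · exact Or.inr ⟨h1 a, h2 b, h1 c, h2 d⟩

lemma continuous_sd (v : ℕ → Bool) : Continuous fun w : ℕ → Bool => sd w v := by
  refine continuous_pi fun n => ?_
  have : Continuous fun b : Bool => xor b (v n) := continuous_of_discreteTopology
  exact this.comp (continuous_apply n)

lemma sd_sd (w v : ℕ → Bool) : sd (sd w v) v = w := by
  funext n
  simp [sd]

/-- Translation by `v`. -/
def sdHomeo (v : ℕ → Bool) : (ℕ → Bool) ≃ₜ (ℕ → Bool) where
  toFun w := sd w v
  invFun w := sd w v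
  left_inv w := sd_sd w v
  right_inv w := sd_sd w v
  continuous_toFun := continuous_sd v
  continuous_invFun := continuous_sd v

lemma sd_zero (w : ℕ → Bool) : sd w (fun _ => false) = w := by
  funext n
  simp [sd]

/-- One step of the construction. -/
lemma solve (hβ : ∀ m, IsOpen (β m)) {Ξ : Type} {I : Ξ → ℕ → Bool} {𝒰 𝒱 : Filter ℕ}
    {R S : Set Ξ} (h1 : Ind I 𝒰 R) (h2 : Ind I 𝒱 S) {ξ η : Ξ} (hξ : ξ ∉ R) (hη : η ∉ S)
    (T : Code) (hT : Good β T) :
    ∃ w ∈ dom β T, ∃ (A : Set ℕ) (F : Finset Ξ) (B : Set ℕ) (H : Finset Ξ),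
      Ind I (𝒰 ⊓ 𝓟 A) (R ∪ ↑F) ∧ Ind I (𝒱 ⊓ 𝓟 B) (S ∪ ↑H) ∧ Viol β T (𝒰 ⊓ 𝓟 A) (𝒱 ⊓ 𝓟 B) w := by
  classical
  let z : ℕ → Bool := fun _ => false
  let sh : Bool → Bool → (ℕ → Bool) := fun a b =>
    join (if a then I ξ else z) (if b then I η else z)
  -- a point all of whose shifts are in the domain
  have hw : ∃ w, ∀ a b, sd w (sh a b) ∈ dom β T := by
    have hd : Dense (⋂ p : ℕ × Bool × Bool,
        (sdHomeo (sh p.2.1 p.2.2)) ⁻¹' (op β T p.1 true ∪ op β T p.1 false)) := by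
      refine dense_iInter_of_isOpen (fun p => ?_) (fun p => ?_)
      · refine IsOpen.preimage (Homeomorph.continuous _) ?_
        exact (isOpen_biUnion fun m _ => hβ m).union (isOpen_biUnion fun m _ => hβ m)
      · exact (hT p.1).preimage (Homeomorph.isOpenMap _)
    obtain ⟨w, hw⟩ := hd.nonempty
    refine ⟨w, fun a b => ?_⟩
    simp only [dom, mem_iInter]
    intro j
    exact mem_iInter.1 hw (j, a, b)
  obtain ⟨w, hw⟩ := hw
  -- choose the shifts such that both parts are undecided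
  have hl : ∃ a : Bool, ∀ ε, Can I 𝒰 R (sd (left w) (if a then I ξ else z)) ε := by
    rcases h1.undecided hξ (left w) with h | h
    · exact ⟨false, by simpa only [Bool.false_eq_true, if_false, z, sd_zero] using h⟩
    · exact ⟨true, by simpa only [if_true] using h⟩
  have hr : ∃ b : Bool, ∀ ε, Can I 𝒱 S (sd (right w) (if b then I η else z)) ε := by
    rcases h2.undecided hη (right w) with h | h
    · exact ⟨false, by simpa only [Bool.false_eq_true, if_false, z, sd_zero] using h⟩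
    · exact ⟨true, by simpa only [if_true] using h⟩
  obtain ⟨a, ha⟩ := hl
  obtain ⟨b, hb⟩ := hr
  let w' := sd w (sh a b)
  have hla : left w' = sd (left w) (if a then I ξ else z) := by
    simp only [w', left_sd, sh, left_join]
  have hrb : right w' = sd (right w) (if b then I η else z) := by
    simp only [w', right_sd, sh, right_join]
  rw [← hla] at ha
  rw [← hrb] at hb
  refine ⟨w', hw a b, ?_⟩
  -- the four extensions
  obtain ⟨A0, F0, i0, hA0⟩ := ha false
  obtain ⟨A1, F1, i1, hA1⟩ := ha true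
  obtain ⟨ε, A2, F2, i2, hA2⟩ := i1.decide (left (hat β T w'))
  obtain ⟨B0, H0, j0, hB0⟩ := hb false
  obtain ⟨B1, H1, j1, hB1⟩ := hb true
  obtain ⟨δ, B2, H2, j2, hB2⟩ := j1.decide (right (hat β T w'))
  have i2' : Ind I (𝒰 ⊓ 𝓟 (A1 ∩ A2)) (R ∪ ↑(F1 ∪ F2)) := by
    rw [← inf_principal, ← inf_assoc, Finset.coe_union, ← union_assoc]
    exact i2
  have j2' : Ind I (𝒱 ⊓ 𝓟 (B1 ∩ B2)) (S ∪ ↑(H1 ∪ H2)) := by
    rw [← inf_principal, ← inf_assoc, Finset.coe_union, ← union_assoc]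
    exact j2
  have mem : ∀ (𝒰 : Filter ℕ) {A : Set ℕ} {x : ℕ → Bool} {ε : Bool}, A ⊆ val x ε →
      val x ε ∈ 𝒰 ⊓ 𝓟 A := fun 𝒰 A x ε h =>
    mem_inf_of_right (mem_principal.2 h)
  cases ε with
  | true =>
    refine ⟨A1 ∩ A2, F1 ∪ F2, B0, H0, i2', j0, Or.inl ⟨Or.inr (mem _ hB0), Or.inl ?_⟩⟩
    exact mem _ (inter_subset_right.trans hA2)
  | false =>
    cases δ with
    | true =>
      refine ⟨A0, F0, B1 ∩ B2, H1 ∪ H2, i0, j2', Or.inl ⟨Or.inl (mem _ hA0), Or.inr ?_⟩⟩
      exact mem _ (inter_subset_right.trans hB2)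
    | false =>
      exact ⟨A1 ∩ A2, F1 ∪ F2, B1 ∩ B2, H1 ∪ H2, i2', j2', Or.inr
        ⟨mem _ (inter_subset_left.trans hA1), mem _ (inter_subset_left.trans hB1),
          mem _ (inter_subset_right.trans hA2), mem _ (inter_subset_right.trans hB2)⟩⟩

/-- The index set of the construction. -/
abbrev Λ₀ : Type := Cardinal.continuum.{0}.ord.ToType

lemma exists_unused (F : Λ₀ → Finset (Set ℕ)) (α : Λ₀) :
    ∃ ξ : Set ℕ, ξ ∉ ⋃ γ ∈ Iio α, (↑(F γ) : Set (Set ℕ)) := by
  by_contra hc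
  push Not at hc
  have h1 : (⋃ γ ∈ Iio α, (↑(F γ) : Set (Set ℕ))) = univ := eq_univ_of_forall hc
  have h2 : #(⋃ γ ∈ Iio α, (↑(F γ) : Set (Set ℕ)) : Set (Set ℕ)) = continuum := by
    rw [h1, mk_univ, mk_set, mk_nat, two_power_aleph0]
  have h3 : #(⋃ γ ∈ Iio α, (↑(F γ) : Set (Set ℕ)) : Set (Set ℕ)) < continuum := by
    refine (mk_biUnion_le _ _).trans_lt ?_
    refine mul_lt_of_lt aleph0_le_continuum ?_ ?_
    · simpa using mk_Iio_lt α
    · refine lt_of_le_of_lt ?_ aleph0_lt_continuum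
      apply ciSup_le'
      intro i
      exact (mk_le_aleph0_iff.2 (Finset.countable_toSet _))
  exact h3.ne h2

lemma card_code : #Code ≤ continuum := by
  have : #Code = continuum := by
    simp [Code, mk_set]
  exact this.le

/-- The pair of ultrafilters. -/
theorem exists_pair (hβ : ∀ m, IsOpen (β m)) : ∃ U V : Ultrafilter ℕ,
    (U : Filter ℕ) ≤ cofinite ∧ (V : Filter ℕ) ≤ cofinite ∧
      ∀ T : Code, Good β T → ∃ w ∈ dom β T, Viol β T U V w := by
  obtain ⟨I, hI⟩ := exists_independent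
  -- enumeration of the codes
  obtain ⟨task, htask⟩ : ∃ f : Λ₀ → Code, Function.Surjective f := by
    have h : #Code ≤ #Λ₀ := by
      rw [mk_ord_toType]
      exact card_code
    obtain ⟨g⟩ := h
    have : Nonempty Code := ⟨fun _ => ∅⟩
    exact ⟨Function.invFun g, Function.invFun_surjective g.injective⟩
  let X : Type := (Set ℕ × Finset (Set ℕ)) × (Set ℕ × Finset (Set ℕ))
  let P : Λ₀ → (Λ₀ → X) → X → Prop := fun α g x =>
    Ind I (gen (fun γ => (g γ).1.1) (Iio α) ⊓ 𝓟 x.1.1)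
      ((⋃ γ ∈ Iio α, ↑(g γ).1.2) ∪ ↑x.1.2) ∧
    Ind I (gen (fun γ => (g γ).2.1) (Iio α) ⊓ 𝓟 x.2.1)
      ((⋃ γ ∈ Iio α, ↑(g γ).2.2) ∪ ↑x.2.2) ∧
    (Good β (task α) → ∃ w ∈ dom β (task α), Viol β (task α)
      (gen (fun γ => (g γ).1.1) (Iio α) ⊓ 𝓟 x.1.1)
      (gen (fun γ => (g γ).2.1) (Iio α) ⊓ 𝓟 x.2.1) w)
  have hcongr : ∀ α g g' x, (∀ β < α, g β = g' β) → P α g x → P α g' x := by
    intro α g g' x hgg hP
    have e1 : gen (fun γ => (g γ).1.1) (Iio α) = gen (fun γ => (g' γ).1.1) (Iio α) :=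
      gen_congr fun γ hγ => by rw [hgg γ hγ]
    have e2 : gen (fun γ => (g γ).2.1) (Iio α) = gen (fun γ => (g' γ).2.1) (Iio α) :=
      gen_congr fun γ hγ => by rw [hgg γ hγ]
    have e3 : (⋃ γ ∈ Iio α, (↑(g γ).1.2 : Set (Set ℕ))) = ⋃ γ ∈ Iio α, ↑(g' γ).1.2 :=
      iUnion₂_congr fun γ hγ => by rw [hgg γ hγ]
    have e4 : (⋃ γ ∈ Iio α, (↑(g γ).2.2 : Set (Set ℕ))) = ⋃ γ ∈ Iio α, ↑(g' γ).2.2 :=
      iUnion₂_congr fun γ hγ => by rw [hgg γ hγ]
    simp only [P] at hP ⊢
    rw [← e1, ← e2, ← e3, ← e4]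
    exact hP
  have hstep : ∀ α g, (∀ β < α, P β g (g β)) → ∃ x, P α g x := by
    intro α g hg
    have i1 : Ind I (gen (fun γ => (g γ).1.1) (Iio α)) (⋃ γ ∈ Iio α, ↑(g γ).1.2) :=
      ind_limit hI _ (fun γ => (g γ).1.2) _ (fun β hβ γ hγ => hγ.trans hβ)
        (fun β hβ => (hg β hβ).1)
    have i2 : Ind I (gen (fun γ => (g γ).2.1) (Iio α)) (⋃ γ ∈ Iio α, ↑(g γ).2.2) :=
      ind_limit hI _ (fun γ => (g γ).2.2) _ (fun β hβ γ hγ => hγ.trans hβ)
        (fun β hβ => (hg β hβ).2.1)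
    by_cases hT : Good β (task α)
    · obtain ⟨ξ, hξ⟩ := exists_unused (fun γ => (g γ).1.2) α
      obtain ⟨η, hη⟩ := exists_unused (fun γ => (g γ).2.2) α
      obtain ⟨w, hw, A, F, B, H, j1, j2, hv⟩ := solve β hβ i1 i2 hξ hη (task α) hT
      exact ⟨((A, F), (B, H)), j1, j2, fun _ => ⟨w, hw, hv⟩⟩
    · refine ⟨((univ, ∅), (univ, ∅)), ?_, ?_, fun h => absurd h hT⟩
      · simpa using i1
      · simpa using i2
  obtain ⟨f, hf⟩ := exists_rec P hcongr hstep
  have i1 : Ind I (gen (fun γ => (f γ).1.1) univ) (⋃ γ ∈ univ, ↑(f γ).1.2) :=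
    ind_limit hI _ (fun γ => (f γ).1.2) _ (fun β hβ γ hγ => mem_univ _)
      (fun β hβ => (hf β).1)
  have i2 : Ind I (gen (fun γ => (f γ).2.1) univ) (⋃ γ ∈ univ, ↑(f γ).2.2) :=
    ind_limit hI _ (fun γ => (f γ).2.2) _ (fun β hβ γ hγ => mem_univ _)
      (fun β hβ => (hf β).2.1)
  have n1 := i1.neBot
  have n2 := i2.neBot
  refine ⟨Ultrafilter.of (gen (fun γ => (f γ).1.1) univ),
    Ultrafilter.of (gen (fun γ => (f γ).2.1) univ),
    (Ultrafilter.of_le _).trans (gen_le_cofinite _ _),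
    (Ultrafilter.of_le _).trans (gen_le_cofinite _ _), fun T hT => ?_⟩
  obtain ⟨α, rfl⟩ := htask T
  obtain ⟨w, hw, hv⟩ := (hf α).2.2 hT
  refine ⟨w, hw, hv.mono ?_ ?_⟩
  · refine (Ultrafilter.of_le _).trans (le_inf (gen_anti _ (subset_univ _)) ?_)
    exact gen_le_principal (fun γ => (f γ).1.1) (mem_univ α)
  · refine (Ultrafilter.of_le _).trans (le_inf (gen_anti _ (subset_univ _)) ?_)
    exact gen_le_principal (fun γ => (f γ).2.1) (mem_univ α)

end Pool.Agent.Q213.IndUlt
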