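import Mathlib
import Pool.Agent.Q213.IndPair

/-!
# Families of ultrafilters meeting continuum many requirements

A general form of the construction of `Pool.Agent.Q213.IndPair`, and the coding of closed
embeddings between dense subspaces of the Cantor space.
-/

namespace Pool.Agent.Q213.IndUlt

open Set Filter Topology
open Cardinal hiding univ

lemma unused_infinite (F : Λ₀ → Finset (Set ℕ)) (α : Λ₀) :
    (⋃ γ ∈ Iio α, (↑(F γ) : Set (Set ℕ)))ᶜ.Infinite := by
  intro hfin
  have hc : #(Set ℕ) = continuum := by rw [mk_set, mk_nat, two_power_aleph0]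
  have h1 : #((⋃ γ ∈ Iio α, (↑(F γ) : Set (Set ℕ))) : Set (Set ℕ)) < #(Set ℕ) := by
    rw [hc]
    refine (mk_biUnion_le _ _).trans_lt ?_
    refine mul_lt_of_lt aleph0_le_continuum ?_ ?_
    · simpa using mk_Iio_lt α
    · refine lt_of_le_of_lt ?_ aleph0_lt_continuum
      apply ciSup_le'
      intro i
      exact (mk_le_aleph0_iff.2 (Finset.countable_toSet _))
  have h2 := mk_compl_of_infinite _ h1
  have h3 : #((⋃ γ ∈ Iio α, (↑(F γ) : Set (Set ℕ)))ᶜ : Set (Set ℕ)) < #(Set ℕ) := by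
    rw [hc]
    exact (lt_aleph0_iff_set_finite.2 hfin).trans aleph0_lt_continuum
  exact h3.ne h2

/-- Ultrafilters `U j` meeting continuum many requirements, each of which can be met at each stage
by deciding one more set for each `j` at the cost of finitely many members of the independent
family. -/
theorem exists_family {J Task : Type} (I : Set ℕ → ℕ → Bool) (hI : Ind I cofinite ∅)
    (hcard : #Task ≤ continuum) (hne : Nonempty Task)
    (Req : Task → (J → Filter ℕ) → Prop)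
    (hmono : ∀ T 𝒰 𝒰', (∀ j, 𝒰' j ≤ 𝒰 j) → Req T 𝒰 → Req T 𝒰')
    (hstep : ∀ T (𝒰 : J → Filter ℕ) (R : J → Set (Set ℕ)), (∀ j, Ind I (𝒰 j) (R j)) →
      (∀ j, (R j)ᶜ.Infinite) → ∃ (A : J → Set ℕ) (F : J → Finset (Set ℕ)),
        (∀ j, Ind I (𝒰 j ⊓ 𝓟 (A j)) (R j ∪ ↑(F j))) ∧ Req T (fun j => 𝒰 j ⊓ 𝓟 (A j))) :
    ∃ U : J → Ultrafilter ℕ, (∀ j, (U j : Filter ℕ) ≤ cofinite) ∧
      ∀ T, Req T (fun j => (U j : Filter ℕ)) := by
  obtain ⟨task, htask⟩ : ∃ f : Λ₀ → Task, Function.Surjective f := by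
    have h : #Task ≤ #Λ₀ := by
      rw [mk_ord_toType]
      exact hcard
    obtain ⟨g⟩ := h
    exact ⟨Function.invFun g, Function.invFun_surjective g.injective⟩
  let X : Type := J → Set ℕ × Finset (Set ℕ)
  have : Nonempty X := ⟨fun _ => (∅, ∅)⟩
  let P : Λ₀ → (Λ₀ → X) → X → Prop := fun α g x =>
    (∀ j, Ind I (gen (fun γ => (g γ j).1) (Iio α) ⊓ 𝓟 (x j).1)
      ((⋃ γ ∈ Iio α, ↑(g γ j).2) ∪ ↑(x j).2)) ∧
    Req (task α) (fun j => gen (fun γ => (g γ j).1) (Iio α) ⊓ 𝓟 (x j).1)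
  have hcongr : ∀ α g g' x, (∀ β < α, g β = g' β) → P α g x → P α g' x := by
    intro α g g' x hgg hP
    have e1 : ∀ j, gen (fun γ => (g γ j).1) (Iio α) = gen (fun γ => (g' γ j).1) (Iio α) :=
      fun j => gen_congr fun γ hγ => by rw [hgg γ hγ]
    have e3 : ∀ j, (⋃ γ ∈ Iio α, (↑(g γ j).2 : Set (Set ℕ))) = ⋃ γ ∈ Iio α, ↑(g' γ j).2 :=
      fun j => iUnion₂_congr fun γ hγ => by rw [hgg γ hγ]
    simp only [P] at hP ⊢
    simp only [e1, e3] at hP
    exact hP
  have hrec : ∀ α g, (∀ β < α, P β g (g β)) → ∃ x, P α g x := by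
    intro α g hg
    have i1 : ∀ j, Ind I (gen (fun γ => (g γ j).1) (Iio α)) (⋃ γ ∈ Iio α, ↑(g γ j).2) :=
      fun j => ind_limit hI _ (fun γ => (g γ j).2) _ (fun β hβ γ hγ => hγ.trans hβ)
        (fun β hβ => (hg β hβ).1 j)
    obtain ⟨A, F, h1, h2⟩ := hstep (task α) _ _ i1 fun j => unused_infinite (fun γ => (g γ j).2) α
    exact ⟨fun j => (A j, F j), h1, h2⟩
  obtain ⟨f, hf⟩ := exists_rec P hcongr hrec
  have i1 : ∀ j, Ind I (gen (fun γ => (f γ j).1) univ) (⋃ γ ∈ univ, ↑(f γ j).2) :=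
    fun j => ind_limit hI _ (fun γ => (f γ j).2) _ (fun β hβ γ hγ => mem_univ _)
      (fun β hβ => (hf β).1 j)
  have n1 : ∀ j, (gen (fun γ => (f γ j).1) univ).NeBot := fun j => (i1 j).neBot
  refine ⟨fun j => Ultrafilter.of (gen (fun γ => (f γ j).1) univ), fun j =>
    (Ultrafilter.of_le _).trans (gen_le_cofinite _ _), fun T => ?_⟩
  obtain ⟨α, rfl⟩ := htask T
  refine hmono _ _ _ ?_ (hf α).2
  intro j
  refine (Ultrafilter.of_le _).trans (le_inf (gen_anti _ (subset_univ _)) ?_)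
  exact gen_le_principal (fun γ => (f γ j).1) (mem_univ α)

/-- A closed embedding of a dense subspace of the Cantor space into a subspace of the Cantor space
is coded by a code. -/
theorem exists_code (β : ℕ → Set (ℕ → Bool)) (hb : TopologicalSpace.IsTopologicalBasis (range β))
    (D Q : Set (ℕ → Bool)) (hD : Dense D) (e : D → Q) (he : IsClosedEmbedding e) :
    ∃ T : Code, Good β T ∧ ∀ w ∈ dom β T, (w ∈ D ↔ hat β T w ∈ Q) := by
  classical
  let O : ℕ → Bool → Set (ℕ → Bool) := fun j ε =>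
    {w | ∃ W : Set (ℕ → Bool), IsOpen W ∧ w ∈ W ∧ ∀ z : D, z.1 ∈ W → (e z).1 j = ε}
  have hO : ∀ j ε, IsOpen (O j ε) := by
    intro j ε
    rw [isOpen_iff_forall_mem_open]
    rintro w ⟨W, hW, hw, h⟩
    exact ⟨W, fun w' hw' => ⟨W, hW, hw', h⟩, hW, hw⟩
  let T : Code := fun p => {m | β m ⊆ O p.1 p.2}
  have hT : ∀ j ε, op β T j ε = O j ε := by
    intro j ε
    apply subset_antisymm
    · exact iUnion₂_subset fun m hm => hm
    · intro w hw
      obtain ⟨_, ⟨m, rfl⟩, hwm, hm⟩ := hb.exists_subset_of_mem_open hw (hO j ε)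
      exact mem_iUnion₂.2 ⟨m, hm, hwm⟩
  have hcont : ∀ (z : D) (j : ℕ), z.1 ∈ O j ((e z).1 j) := by
    intro z j
    have h1 : Continuous fun z : D => (e z).1 j :=
      (continuous_apply j).comp (continuous_subtype_val.comp he.continuous)
    have h2 : IsOpen {z' : D | (e z').1 j = (e z).1 j} :=
      (isOpen_discrete {(e z).1 j}).preimage h1
    obtain ⟨W, hW, hWe⟩ := isOpen_induced_iff.1 h2
    refine ⟨W, hW, ?_, fun z' hz' => ?_⟩
    · have : z ∈ Subtype.val ⁻¹' W := by rw [hWe]; rfl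
      exact this
    · have : z' ∈ Subtype.val ⁻¹' W := hz'
      rw [hWe] at this
      exact this
  have hgood : Good β T := by
    intro j
    refine hD.mono ?_
    intro w hw
    have := hcont ⟨w, hw⟩ j
    rw [hT, hT]
    cases h : (e ⟨w, hw⟩).1 j
    · rw [h] at this; exact Or.inr this
    · rw [h] at this; exact Or.inl this
  refine ⟨T, hgood, fun w hw => ?_⟩
  have hval : ∀ j, w ∈ O j (hat β T w j) := by
    intro j
    have h1 := mem_iInter.1 hw j
    rw [hT, hT] at h1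
    by_cases h : w ∈ op β T j true
    · have : hat β T w j = true := by simp only [hat, h, decide_true]
      rw [this, ← hT]
      exact h
    · have : hat β T w j = false := by simp only [hat, h, decide_false]
      rw [this]
      rw [hT] at h
      exact h1.resolve_left h
  constructor
  · intro hw'
    have : (e ⟨w, hw'⟩).1 = hat β T w := by
      funext j
      obtain ⟨W, -, hwW, h⟩ := hval j
      exact h ⟨w, hw'⟩ hwW
    rw [← this]
    exact (e ⟨w, hw'⟩).2
  · intro hp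
    let L : Filter D := comap Subtype.val (𝓝 w)
    have hL : L.NeBot := mem_closure_iff_comap_neBot.1 (hD w)
    have ht : Tendsto e L (𝓝 ⟨hat β T w, hp⟩) := by
      rw [tendsto_subtype_rng, tendsto_pi_nhds]
      intro j
      refine tendsto_const_nhds.congr' ?_
      obtain ⟨W, hW, hwW, h⟩ := hval j
      have : Subtype.val ⁻¹' W ∈ L := preimage_mem_comap (hW.mem_nhds hwW)
      filter_upwards [this] with z hz
      exact (h z hz).symm
    have hr : (⟨hat β T w, hp⟩ : Q) ∈ range e := by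
      rw [← he.isClosed_range.closure_eq]
      exact mem_closure_of_tendsto ht (Eventually.of_forall fun z => mem_range_self z)
    obtain ⟨z0, hz0⟩ := hr
    rw [← hz0] at ht
    have h1 : L ≤ 𝓝 z0 := by
      rw [he.isInducing.nhds_eq_comap]
      exact ht.le_comap
    have h2 : Tendsto (Subtype.val : D → (ℕ → Bool)) L (𝓝 z0.1) :=
      (continuous_subtype_val.tendsto z0).mono_left h1
    have h3 : Tendsto (Subtype.val : D → (ℕ → Bool)) L (𝓝 w) := tendsto_comap
    rw [tendsto_nhds_unique h3 h2]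
    exact z0.2

lemma exists_basis_seq : ∃ β : ℕ → Set (ℕ → Bool),
    TopologicalSpace.IsTopologicalBasis (range β) := by
  obtain ⟨b, hbc, -, hb⟩ := TopologicalSpace.exists_countable_basis (ℕ → Bool)
  have hne : b.Nonempty := by
    by_contra hc
    rw [not_nonempty_iff_eq_empty] at hc
    have := hb.sUnion_eq
    rw [hc, sUnion_empty] at this
    exact absurd this.symm (univ_nonempty.ne_empty)
  obtain ⟨β, rfl⟩ := hbc.exists_eq_range hne
  exact ⟨β, hb⟩

/-- Translations: none, or a member of the family. -/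
def tr (I : Set ℕ → ℕ → Bool) (ξ : ℕ → Set ℕ) : Option ℕ → ℕ → Bool
  | none => fun _ => false
  | some n => I (ξ n)

/-- Two sets can be translated such that the first can be made false, and the first can be made
true and the second false. -/
lemma pair_undecided {I : Set ℕ → ℕ → Bool} {𝒰 : Filter ℕ} {R : Set (Set ℕ)} (h : Ind I 𝒰 R)
    {ξ : ℕ → Set ℕ} (hξ : Function.Injective ξ) (hR : ∀ n, ξ n ∉ R) (x y : ℕ → Bool) :
    ∃ i k : Option ℕ, Can I 𝒰 R (sd x (tr I ξ i)) false ∧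
      ∃ (A : Set ℕ) (F : Finset (Set ℕ)), Ind I (𝒰 ⊓ 𝓟 A) (R ∪ ↑F) ∧
        A ⊆ val (sd x (tr I ξ i)) true ∧ A ⊆ val (sd y (tr I ξ k)) false := by
  have h1 : ∃ i : Option ℕ, ∀ ε, Can I 𝒰 R (sd x (tr I ξ i)) ε := by
    rcases h.undecided (hR 0) x with h | h
    · exact ⟨none, by simpa only [tr, sd_zero] using h⟩
    · exact ⟨some 0, h⟩
  obtain ⟨i, hi⟩ := h1
  obtain ⟨A, F, hA, hAx⟩ := hi true
  have h2 : ∃ n, ξ n ∉ R ∪ ↑F := by
    have : (range ξ).Infinite := infinite_range_of_injective hξ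
    obtain ⟨_, ⟨n, rfl⟩, hn⟩ := this.exists_notMem_finset F
    exact ⟨n, fun hc => hc.elim (hR n) hn⟩
  obtain ⟨n, hn⟩ := h2
  have h3 : ∃ k : Option ℕ, ∀ ε, Can I (𝒰 ⊓ 𝓟 A) (R ∪ ↑F) (sd y (tr I ξ k)) ε := by
    rcases hA.undecided hn y with h | h
    · exact ⟨none, by simpa only [tr, sd_zero] using h⟩
    · exact ⟨some n, h⟩
  obtain ⟨k, hk⟩ := h3
  obtain ⟨B, G, hB, hBy⟩ := hk false
  classical
  refine ⟨i, k, hi false, A ∩ B, F ∪ G, ?_, inter_subset_left.trans hAx,
    inter_subset_right.trans hBy⟩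
  rw [← inf_principal, ← inf_assoc, Finset.coe_union, ← union_assoc]
  exact hB

lemma exists_unused_seq {R : Set (Set ℕ)} (h : Rᶜ.Infinite) :
    ∃ ξ : ℕ → Set ℕ, Function.Injective ξ ∧ ∀ n, ξ n ∉ R := by
  refine ⟨fun n => (h.natEmbedding _ n).1, fun m n hmn => ?_, fun n => (h.natEmbedding _ n).2⟩
  exact (h.natEmbedding _).injective (Subtype.ext hmn)

/-- A comeager set contains all the translates of some point by countably many sets. -/
lemma exists_translates (β : ℕ → Set (ℕ → Bool)) (hβ : ∀ m, IsOpen (β m)) (T : Code)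
    (hT : Good β T) {K : Type} [Countable K] (t : K → ℕ → Bool) :
    ∃ w, ∀ k, sd w (t k) ∈ dom β T := by
  have hd : Dense (⋂ p : ℕ × K, (sdHomeo (t p.2)) ⁻¹' (op β T p.1 true ∪ op β T p.1 false)) := by
    refine dense_iInter_of_isOpen (fun p => ?_) (fun p => ?_)
    · refine IsOpen.preimage (Homeomorph.continuous _) ?_
      exact (isOpen_biUnion fun m _ => hβ m).union (isOpen_biUnion fun m _ => hβ m)
    · exact (hT p.1).preimage (Homeomorph.isOpenMap _)
  obtain ⟨w, hw⟩ := hd.nonempty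
  refine ⟨w, fun k => ?_⟩
  simp only [dom, mem_iInter]
  intro j
  exact mem_iInter.1 hw (j, k)

end Pool.Agent.Q213.IndUlt
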