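import Mathlib
import Pool.Agent.Q213.IndPair

/-!
# No closed embedding of `U × V` into the set of pairs with a component in its ultrafilter
-/

namespace Pool.Agent.Q213.IndUlt

open Set Filter Topology

/-- The sets whose even part is in `U` and whose odd part is in `V`. -/
def MM (U V : Ultrafilter ℕ) : Set (ℕ → Bool) :=
  {w | val (left w) true ∈ U ∧ val (right w) true ∈ V}

/-- The sets whose even part is in `U` or whose odd part is in `V`. -/
def PP (U V : Ultrafilter ℕ) : Set (ℕ → Bool) :=
  {w | val (left w) true ∈ U ∨ val (right w) true ∈ V}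

lemma val_false (x : ℕ → Bool) : val x false = (val x true)ᶜ := by
  ext n
  simp [val]

lemma val_false_mem (U : Ultrafilter ℕ) (x : ℕ → Bool) : val x false ∈ U ↔ val x true ∉ U := by
  rw [val_false]
  exact Ultrafilter.compl_mem_iff_notMem

lemma MM_dense {U V : Ultrafilter ℕ} (hU : (U : Filter ℕ) ≤ cofinite)
    (hV : (V : Filter ℕ) ≤ cofinite) : Dense (MM U V) := by
  intro w
  let wn : ℕ → ℕ → Bool := fun N n => if n < N then w n else true
  have ht : Tendsto wn atTop (𝓝 w) := by
    rw [tendsto_pi_nhds]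
    intro j
    refine tendsto_const_nhds.congr' ?_
    filter_upwards [eventually_gt_atTop j] with N hN
    simp only [wn, if_pos hN]
  refine mem_closure_of_tendsto ht (Eventually.of_forall fun N => ?_)
  constructor
  · apply hU
    rw [mem_cofinite]
    refine (finite_lt_nat N).subset ?_
    intro n hn
    by_contra hc
    apply hn
    have : ¬ 2 * n < N := by
      have := not_lt.1 (show ¬ n < N from hc)
      omega
    simp only [val, left, wn, if_neg this, mem_ofPred_eq]
  · apply hV
    rw [mem_cofinite]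
    refine (finite_lt_nat N).subset ?_
    intro n hn
    by_contra hc
    apply hn
    have : ¬ 2 * n + 1 < N := by
      have := not_lt.1 (show ¬ n < N from hc)
      omega
    simp only [val, right, wn, if_neg this, mem_ofPred_eq]

/-- **Main lemma.** -/
theorem exists_no_closed_embedding : ∃ U V : Ultrafilter ℕ,
    (U : Filter ℕ) ≤ cofinite ∧ (V : Filter ℕ) ≤ cofinite ∧
      ¬ ∃ e : MM U V → PP U V, IsClosedEmbedding e := by
  classical
  obtain ⟨b, hbc, -, hb⟩ := TopologicalSpace.exists_countable_basis (ℕ → Bool)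
  have hne : b.Nonempty := by
    by_contra hc
    rw [not_nonempty_iff_eq_empty] at hc
    have := hb.sUnion_eq
    rw [hc, sUnion_empty] at this
    exact absurd this.symm (univ_nonempty.ne_empty)
  obtain ⟨β, rfl⟩ := hbc.exists_eq_range hne
  have hβ : ∀ m, IsOpen (β m) := fun m => hb.isOpen (mem_range_self m)
  obtain ⟨U, V, hU, hV, hUV⟩ := exists_pair β hβ
  refine ⟨U, V, hU, hV, ?_⟩
  rintro ⟨e, he⟩
  let O : ℕ → Bool → Set (ℕ → Bool) := fun j ε =>
    {w | ∃ W : Set (ℕ → Bool), IsOpen W ∧ w ∈ W ∧ ∀ z : MM U V, z.1 ∈ W → (e z).1 j = ε}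
  have hO : ∀ j ε, IsOpen (O j ε) := by
    intro j ε
    rw [isOpen_iff_forall_mem_open]
    rintro w ⟨W, hW, hw, h⟩
    exact ⟨W, fun w' hw' => ⟨W, hW, hw', h⟩, hW, hw⟩
  let T : Code := fun p => {m | β m ⊆ O p.1 p.2}
  have hT : ∀ j ε, op β T j ε = O j ε := by
    intro j ε
    apply subset_antisymm
    · exact iUnion₂_subset fun m hm => hm
    · intro w hw
      obtain ⟨_, ⟨m, rfl⟩, hwm, hm⟩ := hb.exists_subset_of_mem_open hw (hO j ε)
      exact mem_iUnion₂.2 ⟨m, hm, hwm⟩
  have hcont : ∀ (z : MM U V) (j : ℕ), z.1 ∈ O j ((e z).1 j) := by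
    intro z j
    have h1 : Continuous fun z : MM U V => (e z).1 j :=
      (continuous_apply j).comp (continuous_subtype_val.comp he.continuous)
    have h2 : IsOpen {z' : MM U V | (e z').1 j = (e z).1 j} :=
      (isOpen_discrete {(e z).1 j}).preimage h1
    obtain ⟨W, hW, hWe⟩ := isOpen_induced_iff.1 h2
    refine ⟨W, hW, ?_, fun z' hz' => ?_⟩
    · have : z ∈ Subtype.val ⁻¹' W := by rw [hWe]; rfl
      exact this
    · have : z' ∈ Subtype.val ⁻¹' W := hz'
      rw [hWe] at this
      exact this
  have hgood : Good β T := by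
    intro j
    refine (MM_dense hU hV).mono ?_
    intro w hw
    have := hcont ⟨w, hw⟩ j
    rw [hT, hT]
    cases h : (e ⟨w, hw⟩).1 j
    · rw [h] at this; exact Or.inr this
    · rw [h] at this; exact Or.inl this
  obtain ⟨w, hw, hviol⟩ := hUV T hgood
  have hval : ∀ j, w ∈ O j (hat β T w j) := by
    intro j
    have h1 := mem_iInter.1 hw j
    rw [hT, hT] at h1
    by_cases h : w ∈ op β T j true
    · have : hat β T w j = true := by simp only [hat, h, decide_true]
      rw [this, ← hT]
      exact h
    · have : hat β T w j = false := by simp only [hat, h, decide_false]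
      rw [this]
      rw [hT] at h
      exact h1.resolve_left h
  have hin : ∀ hw' : w ∈ MM U V, (e ⟨w, hw'⟩).1 = hat β T w := by
    intro hw'
    funext j
    obtain ⟨W, -, hwW, h⟩ := hval j
    exact h ⟨w, hw'⟩ hwW
  have hout : hat β T w ∈ PP U V → w ∈ MM U V := by
    intro hp
    let L : Filter (MM U V) := comap Subtype.val (𝓝 w)
    have hL : L.NeBot := by
      have h1 : w ∈ closure (MM U V) := MM_dense hU hV w
      have := mem_closure_iff_comap_neBot.1 h1
      exact this
    have ht : Tendsto e L (𝓝 ⟨hat β T w, hp⟩) := by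
      rw [tendsto_subtype_rng, tendsto_pi_nhds]
      intro j
      refine tendsto_const_nhds.congr' ?_
      obtain ⟨W, hW, hwW, h⟩ := hval j
      have : Subtype.val ⁻¹' W ∈ L := preimage_mem_comap (hW.mem_nhds hwW)
      filter_upwards [this] with z hz
      exact (h z hz).symm
    have hr : (⟨hat β T w, hp⟩ : PP U V) ∈ range e := by
      rw [← he.isClosed_range.closure_eq]
      exact mem_closure_of_tendsto ht (Eventually.of_forall fun z => mem_range_self z)
    obtain ⟨z0, hz0⟩ := hr
    rw [← hz0] at ht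
    have h1 : L ≤ 𝓝 z0 := by
      rw [he.isInducing.nhds_eq_comap]
      exact ht.le_comap
    have h2 : Tendsto (Subtype.val : MM U V → (ℕ → Bool)) L (𝓝 z0.1) :=
      (continuous_subtype_val.tendsto z0).mono_left h1
    have h3 : Tendsto (Subtype.val : MM U V → (ℕ → Bool)) L (𝓝 w) := tendsto_comap
    rw [tendsto_nhds_unique h3 h2]
    exact z0.2
  rcases hviol with ⟨h1, h2⟩ | ⟨h1, h2, h3, h4⟩
  · have h5 := hout h2
    rcases h1 with h1 | h1
    · exact (val_false_mem _ _).1 h1 h5.1
    · exact (val_false_mem _ _).1 h1 h5.2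
  · have h5 : w ∈ MM U V := ⟨h1, h2⟩
    have h6 := (e ⟨w, h5⟩).2
    rw [hin h5] at h6
    rcases h6 with h6 | h6
    · exact (val_false_mem _ _).1 h3 h6
    · exact (val_false_mem _ _).1 h4 h6

end Pool.Agent.Q213.IndUlt
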