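import Mathlib
import Pool.Agent.Q213.IndTop
import Pool.Agent.Q213.IndGen

/-!
# No closed embedding of the square of the coideal of `U ∩ V` into the coideal
-/

namespace Pool.Agent.Q213.IndUlt

open Set Filter Topology
open Cardinal hiding univ

variable (β : ℕ → Set (ℕ → Bool))

/-- The requirement: the function coded by `T` does not reduce the square of `PP U V` to
`PP U V`. -/
def Viol2 (T : Code) (𝒰 𝒱 : Filter ℕ) (w : ℕ → Bool) : Prop :=
  (((val (left (left w)) false ∈ 𝒰 ∧ val (right (left w)) false ∈ 𝒱) ∨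
      (val (left (right w)) false ∈ 𝒰 ∧ val (right (right w)) false ∈ 𝒱)) ∧
    (val (left (hat β T w)) true ∈ 𝒰 ∨ val (right (hat β T w)) true ∈ 𝒱)) ∨
  ((val (left (left w)) true ∈ 𝒰 ∨ val (right (left w)) true ∈ 𝒱) ∧
    (val (left (right w)) true ∈ 𝒰 ∨ val (right (right w)) true ∈ 𝒱) ∧
    val (left (hat β T w)) false ∈ 𝒰 ∧ val (right (hat β T w)) false ∈ 𝒱)

lemma Viol2.mono {β : ℕ → Set (ℕ → Bool)} {T : Code} {𝒰 𝒱 𝒰' 𝒱' : Filter ℕ} {w : ℕ → Bool}
    (h : Viol2 β T 𝒰 𝒱 w) (h1 : 𝒰' ≤ 𝒰) (h2 : 𝒱' ≤ 𝒱) : Viol2 β T 𝒰' 𝒱' w := by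
  rcases h with ⟨ha, hb⟩ | ⟨a, b, c, d⟩
  · exact Or.inl ⟨ha.imp (fun h => ⟨h1 h.1, h2 h.2⟩) fun h => ⟨h1 h.1, h2 h.2⟩,
      hb.imp (fun h => h1 h) fun h => h2 h⟩
  · exact Or.inr ⟨a.imp (fun h => h1 h) fun h => h2 h, b.imp (fun h => h1 h) fun h => h2 h,
      h1 c, h2 d⟩

lemma solve2 (hβ : ∀ m, IsOpen (β m)) {I : Set ℕ → ℕ → Bool} {𝒰 𝒱 : Filter ℕ}
    {R S : Set (Set ℕ)} (h1 : Ind I 𝒰 R) (h2 : Ind I 𝒱 S) (hR : Rᶜ.Infinite) (hS : Sᶜ.Infinite)
    (T : Code) (hT : Good β T) :
    ∃ w ∈ dom β T, ∃ (A : Set ℕ) (F : Finset (Set ℕ)) (B : Set ℕ) (H : Finset (Set ℕ)),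
      Ind I (𝒰 ⊓ 𝓟 A) (R ∪ ↑F) ∧ Ind I (𝒱 ⊓ 𝓟 B) (S ∪ ↑H) ∧
        Viol2 β T (𝒰 ⊓ 𝓟 A) (𝒱 ⊓ 𝓟 B) w := by
  classical
  obtain ⟨ξ, hξ, hξR⟩ := exists_unused_seq hR
  obtain ⟨η, hη, hηS⟩ := exists_unused_seq hS
  obtain ⟨w0, hw0⟩ := exists_translates β hβ T hT
    (fun p : (Option ℕ × Option ℕ) × (Option ℕ × Option ℕ) =>
      join (join (tr I ξ p.1.1) (tr I η p.1.2)) (join (tr I ξ p.2.1) (tr I η p.2.2)))
  obtain ⟨i, k, ⟨A0, F0, i0, hA0⟩, A1, F1, i1, hA1, hA1'⟩ :=
    pair_undecided h1 hξ hξR (left (left w0)) (left (right w0))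
  obtain ⟨l, j, ⟨B0, H0, j0, hB0⟩, B1, H1, j1, hB1, hB1'⟩ :=
    pair_undecided h2 hη hηS (right (right w0)) (right (left w0))
  let w := sd w0 (join (join (tr I ξ i) (tr I η j)) (join (tr I ξ k) (tr I η l)))
  have ea : left (left w) = sd (left (left w0)) (tr I ξ i) := by
    simp only [w, left_sd, left_join]
  have eb : right (left w) = sd (right (left w0)) (tr I η j) := by
    simp only [w, left_sd, right_sd, left_join, right_join]
  have ec : left (right w) = sd (left (right w0)) (tr I ξ k) := by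
    simp only [w, left_sd, right_sd, left_join, right_join]
  have ed : right (right w) = sd (right (right w0)) (tr I η l) := by
    simp only [w, right_sd, right_join]
  rw [← ea] at hA0 hA1
  rw [← ec] at hA1'
  rw [← ed] at hB0 hB1
  rw [← eb] at hB1'
  refine ⟨w, hw0 ((i, j), (k, l)), ?_⟩
  obtain ⟨ε, A2, F2, i2, hA2⟩ := i1.decide (left (hat β T w))
  obtain ⟨δ, B2, H2, j2, hB2⟩ := j1.decide (right (hat β T w))
  have i2' : Ind I (𝒰 ⊓ 𝓟 (A1 ∩ A2)) (R ∪ ↑(F1 ∪ F2)) := by
    rw [← inf_principal, ← inf_assoc, Finset.coe_union, ← union_assoc]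
    exact i2
  have j2' : Ind I (𝒱 ⊓ 𝓟 (B1 ∩ B2)) (S ∪ ↑(H1 ∪ H2)) := by
    rw [← inf_principal, ← inf_assoc, Finset.coe_union, ← union_assoc]
    exact j2
  have mem : ∀ (𝒰 : Filter ℕ) {A : Set ℕ} {x : ℕ → Bool} {ε : Bool}, A ⊆ val x ε →
      val x ε ∈ 𝒰 ⊓ 𝓟 A := fun 𝒰 A x ε h =>
    mem_inf_of_right (mem_principal.2 h)
  cases ε with
  | true =>
    refine ⟨A1 ∩ A2, F1 ∪ F2, B0, H0, i2', j0, Or.inl ⟨Or.inr ⟨?_, mem _ hB0⟩, Or.inl ?_⟩⟩
    · exact mem _ (inter_subset_left.trans hA1')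
    · exact mem _ (inter_subset_right.trans hA2)
  | false =>
    cases δ with
    | true =>
      refine ⟨A0, F0, B1 ∩ B2, H1 ∪ H2, i0, j2', Or.inl ⟨Or.inl ⟨mem _ hA0, ?_⟩, Or.inr ?_⟩⟩
      · exact mem _ (inter_subset_left.trans hB1')
      · exact mem _ (inter_subset_right.trans hB2)
    | false =>
      exact ⟨A1 ∩ A2, F1 ∪ F2, B1 ∩ B2, H1 ∪ H2, i2', j2', Or.inr
        ⟨Or.inl (mem _ (inter_subset_left.trans hA1)), Or.inr (mem _ (inter_subset_left.trans hB1)),
          mem _ (inter_subset_right.trans hA2), mem _ (inter_subset_right.trans hB2)⟩⟩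

/-- The codes of pairs in the square of `PP U V`. -/
def PP2 (U V : Ultrafilter ℕ) : Set (ℕ → Bool) := {w | left w ∈ PP U V ∧ right w ∈ PP U V}

lemma PP2_dense {U V : Ultrafilter ℕ} (hU : (U : Filter ℕ) ≤ cofinite) : Dense (PP2 U V) := by
  intro w
  let wn : ℕ → ℕ → Bool := fun N n => if n < N then w n else true
  have ht : Tendsto wn atTop (𝓝 w) := by
    rw [tendsto_pi_nhds]
    intro j
    refine tendsto_const_nhds.congr' ?_
    filter_upwards [eventually_gt_atTop j] with N hN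
    simp only [wn, if_pos hN]
  have key : ∀ (N : ℕ) (g : ℕ → ℕ), (∀ n, n ≤ g n) → {n | wn N (g n) = true} ∈ U := by
    intro N g hg
    apply hU
    rw [mem_cofinite]
    refine (finite_lt_nat N).subset ?_
    intro n hn
    by_contra hc
    apply hn
    have h1 : N ≤ n := not_lt.1 (show ¬ n < N from hc)
    have : ¬ g n < N := not_lt.2 (h1.trans (hg n))
    show wn N (g n) = true
    simp only [wn, if_neg this]
  refine mem_closure_of_tendsto ht (Eventually.of_forall fun N => ⟨Or.inl ?_, Or.inl ?_⟩)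
  · exact key N (fun n => 2 * (2 * n)) fun n => by omega
  · exact key N (fun n => 2 * (2 * n) + 1) fun n => by omega

/-- **Main lemma.** -/
theorem exists_no_closed_embedding_square : ∃ U V : Ultrafilter ℕ,
    (U : Filter ℕ) ≤ cofinite ∧ (V : Filter ℕ) ≤ cofinite ∧
      ¬ ∃ e : PP2 U V → PP U V, IsClosedEmbedding e := by
  classical
  obtain ⟨β, hb⟩ := exists_basis_seq
  have hβ : ∀ m, IsOpen (β m) := fun m => hb.isOpen (mem_range_self m)
  obtain ⟨I, hI⟩ := exists_independent
  obtain ⟨U, hU, hreq⟩ := exists_family (J := Bool) (Task := Code) I hI card_code ⟨fun _ => ∅⟩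
    (fun T 𝒰 => Good β T → ∃ w ∈ dom β T, Viol2 β T (𝒰 false) (𝒰 true) w)
    (fun T 𝒰 𝒰' h h1 hT => by
      obtain ⟨w, hw, hv⟩ := h1 hT
      exact ⟨w, hw, hv.mono (h _) (h _)⟩)
    (fun T 𝒰 R hind hinf => by
      by_cases hT : Good β T
      · obtain ⟨w, hw, A, F, B, H, h1, h2, hv⟩ :=
          solve2 β hβ (hind false) (hind true) (hinf false) (hinf true) T hT
        refine ⟨fun j => if j then B else A, fun j => if j then H else F, ?_, fun _ => ⟨w, hw, ?_⟩⟩
        · intro j
          cases j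
          · simpa using h1
          · simpa using h2
        · simpa using hv
      · exact ⟨fun _ => univ, fun _ => ∅, by simpa using hind, fun h => absurd h hT⟩)
  refine ⟨U false, U true, hU _, hU _, ?_⟩
  rintro ⟨e, he⟩
  obtain ⟨T, hT, hTe⟩ := exists_code β hb _ _ (PP2_dense (hU false)) e he
  obtain ⟨w, hw, hv⟩ := hreq T hT
  have h1 := hTe w hw
  rcases hv with ⟨h2, h3⟩ | ⟨h2, h3, h4, h5⟩
  · have h4 := h1.2 h3
    rcases h2 with h2 | h2
    · rcases h4.1 with h | h
      · exact (val_false_mem _ _).1 h2.1 h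
      · exact (val_false_mem _ _).1 h2.2 h
    · rcases h4.2 with h | h
      · exact (val_false_mem _ _).1 h2.1 h
      · exact (val_false_mem _ _).1 h2.2 h
  · rcases h1.1 ⟨h2, h3⟩ with h | h
    · exact (val_false_mem _ _).1 h4 h
    · exact (val_false_mem _ _).1 h5 h

/-- The homeomorphism of the Cantor space with its square. -/
def pairHomeo : (ℕ → Bool) ≃ₜ (ℕ → Bool) × (ℕ → Bool) where
  toFun w := (left w, right w)
  invFun p := join p.1 p.2
  left_inv w := by
    funext n
    simp only [join, left, right]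
    split_ifs with h
    · congr 1; omega
    · congr 1; omega
  right_inv p := Prod.ext (left_join _ _) (right_join _ _)
  continuous_toFun := by
    refine Continuous.prodMk ?_ ?_
    · exact continuous_pi fun n => continuous_apply (2 * n)
    · exact continuous_pi fun n => continuous_apply (2 * n + 1)
  continuous_invFun := by
    refine continuous_pi fun n => ?_
    simp only [join]
    split_ifs with h
    · exact (continuous_apply _).comp continuous_fst
    · exact (continuous_apply _).comp continuous_snd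

/-- `PP2 U V` is the square of `PP U V`. -/
theorem no_closed_embedding_square {U V : Ultrafilter ℕ}
    (h : ¬ ∃ e : PP2 U V → PP U V, IsClosedEmbedding e) :
    ¬ ∃ e : PP U V × PP U V → PP U V, IsClosedEmbedding e := by
  rintro ⟨e, he⟩
  apply h
  let φ : PP2 U V → PP U V × PP U V := fun w => (⟨left w.1, w.2.1⟩, ⟨right w.1, w.2.2⟩)
  let ψ : PP U V × PP U V → PP2 U V := fun p =>
    ⟨join p.1.1 p.2.1, by
      show left (join p.1.1 p.2.1) ∈ PP U V ∧ right (join p.1.1 p.2.1) ∈ PP U V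
      rw [left_join, right_join]
      exact ⟨p.1.2, p.2.2⟩⟩
  have hφ : Continuous φ := by
    refine Continuous.prodMk ?_ ?_
    · exact ((continuous_fst.comp pairHomeo.continuous).comp continuous_subtype_val).subtype_mk _
    · exact ((continuous_snd.comp pairHomeo.continuous).comp continuous_subtype_val).subtype_mk _
  have hψ : Continuous ψ := by
    refine Continuous.subtype_mk (f := fun p : PP U V × PP U V => join p.1.1 p.2.1) ?_ _
    exact pairHomeo.symm.continuous.comp
      ((continuous_subtype_val.comp continuous_fst).prodMk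
        (continuous_subtype_val.comp continuous_snd))
  let Φ : PP2 U V ≃ₜ PP U V × PP U V :=
    { toFun := φ
      invFun := ψ
      left_inv := fun w => Subtype.ext (pairHomeo.left_inv w.1)
      right_inv := fun p => Prod.ext (Subtype.ext (left_join _ _)) (Subtype.ext (right_join _ _))
      continuous_toFun := hφ
      continuous_invFun := hψ }
  exact ⟨e ∘ Φ, he.comp Φ.isClosedEmbedding⟩

/-- The filter generated by a copy of `U` on the even and a copy of `V` on the odd numbers is not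
meager. -/
lemma MM_not_isMeagre (U V : Ultrafilter ℕ) : ¬ IsMeagre (MM U V) := by
  intro h
  let c : Bool → Bool → (ℕ → Bool) := fun a b => join (fun _ => a) (fun _ => b)
  have h1 : ∀ a b, IsMeagre ((sdHomeo (c a b)) ⁻¹' (MM U V)) := fun a b =>
    h.preimage_of_isOpenMap (Homeomorph.continuous _) (Homeomorph.isOpenMap _)
  have h2 : (⋃ p : Bool × Bool, (sdHomeo (c p.1 p.2)) ⁻¹' (MM U V)) = Set.univ := by
    apply Set.eq_univ_of_forall
    intro w
    have key : ∀ (W : Ultrafilter ℕ) (x : ℕ → Bool), ∃ a : Bool,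
        val (sd x (fun _ => a)) true ∈ W := by
      intro W x
      by_cases hx : val x true ∈ W
      · exact ⟨false, by rw [sd_zero]; exact hx⟩
      · refine ⟨true, ?_⟩
        rw [← val_false_mem] at hx
        refine mem_of_superset hx ?_
        intro n hn
        have : x n = false := hn
        simp [val, sd, this]
    obtain ⟨a, ha⟩ := key U (left w)
    obtain ⟨b, hb⟩ := key V (right w)
    refine Set.mem_iUnion.2 ⟨(a, b), ?_, ?_⟩
    · show val (left (sd w (c a b))) true ∈ U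
      rw [left_sd, left_join]
      exact ha
    · show val (right (sd w (c a b))) true ∈ V
      rw [right_sd, right_join]
      exact hb
  have h3 : IsMeagre (Set.univ : Set (ℕ → Bool)) := by
    rw [← h2]
    exact isMeagre_iUnion fun p => h1 p.1 p.2
  have h4 : (Set.univ : Set (ℕ → Bool))ᶜ ∈ residual (ℕ → Bool) := h3
  rw [Set.compl_univ, mem_residual] at h4
  obtain ⟨t, ht, -, hd⟩ := h4
  rw [Set.subset_empty_iff.1 ht] at hd
  exact absurd hd.nonempty (by simp)

/-- The positive sets of the filter generated by a copy of `U` on the even and a copy of `V` on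
the odd numbers. -/
lemma positive_eq (U V : Ultrafilter ℕ) :
    {x : ℕ → Bool | ∀ A ∈ ((U.map fun n => 2 * n : Ultrafilter ℕ) ⊔
      (V.map fun n => 2 * n + 1 : Ultrafilter ℕ) : Filter ℕ), ∃ n ∈ A, x n = true} = PP U V := by
  ext w
  constructor
  · intro hw
    by_contra hc
    have h1 : val (left w) true ∉ U := fun h => hc (Or.inl h)
    have h2 : val (right w) true ∉ V := fun h => hc (Or.inr h)
    rw [← val_false_mem] at h1 h2
    obtain ⟨n, hn, hn'⟩ := hw {n | w n = false} ⟨h1, h2⟩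
    have : w n = false := hn
    rw [this] at hn'
    exact absurd hn' (by simp)
  · rintro (hw | hw) A ⟨hA, hA'⟩
    · have h1 : (fun n => 2 * n) ⁻¹' A ∈ U := hA
      obtain ⟨n, hn, hn'⟩ := Ultrafilter.nonempty_of_mem (inter_mem h1 hw)
      exact ⟨2 * n, hn, hn'⟩
    · have h1 : (fun n => 2 * n + 1) ⁻¹' A ∈ V := hA'
      obtain ⟨n, hn, hn'⟩ := Ultrafilter.nonempty_of_mem (inter_mem h1 hw)
      exact ⟨2 * n + 1, hn, hn'⟩

end Pool.Agent.Q213.IndUlt
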