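import Mathlib

/-!
# Countably many sets of infinite binary words which are not reducible to each other

`exists_indep` : there are sets `N 0, N 1, …` of infinite binary words such that for every
injective letter by letter map `h`, all `n ≠ m` and all finite words `s` there is an `x` with
`s ⌢ x ∈ N n` and `h x ∉ N m`.
-/

namespace Pool.Agent.Q213.IndepReals

open Cardinal Set

/-- reversed initial segment of length `j`. -/
def rp (x : ℕ → Bool) : ℕ → List Bool
  | 0 => []
  | j + 1 => x j :: rp x j

/-- prepend a finite word. -/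
def app (s : List Bool) (x : ℕ → Bool) : ℕ → Bool :=
  fun i => if h : i < s.length then s[i] else x (i - s.length)

theorem app_add (s : List Bool) (x : ℕ → Bool) (k : ℕ) : app s x (s.length + k) = x k := by
  simp [app]

theorem app_injective (s : List Bool) : Function.Injective (app s) := by
  intro x y h
  funext k
  have := congrFun h (s.length + k)
  rwa [app_add, app_add] at this

/-- the letter by letter map given by `W`. -/
def hW (W : List Bool → Bool) (x : ℕ → Bool) : ℕ → Bool := fun i => W (rp x (i + 1))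

/-- the well-order of type continuum. -/
abbrev Lam : Type := (𝔠 : Cardinal.{0}).ord.ToType

theorem avoid {X : Type} (hX : #X = 𝔠) (B : Lam → Lam → X → Set X)
    (hB : ∀ α β y, (B α β y).Countable) :
    ∃ f : Lam → X, ∀ α, ∀ β < α, f α ∉ B α β (f β) := by
  have hne : ∀ (α : Lam) (g : ∀ β : Lam, β < α → X),
      ∃ x : X, ∀ β (h : β < α), x ∉ B α β (g β h) := by
    intro α g
    by_contra hcon
    push Not at hcon
    have hcov : (Set.univ : Set X) ⊆ ⋃ β : Iio α, B α β (g β β.2) := by
      intro x _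
      obtain ⟨β, h, hx⟩ := hcon x
      exact mem_iUnion.mpr ⟨⟨β, h⟩, hx⟩
    have h1 : #X ≤ #(⋃ β : Iio α, B α β (g β β.2)) := by
      rw [← Cardinal.mk_univ]
      exact Cardinal.mk_le_mk_of_subset hcov
    have h2 : #(⋃ β : Iio α, B α β (g β β.2)) ≤ #(Iio α) * ℵ₀ := by
      refine (Cardinal.mk_iUnion_le _).trans ?_
      exact mul_le_mul' le_rfl (ciSup_le' fun β => (hB _ _ _).le_aleph0)
    have h3 : #(Iio α) < 𝔠 := by
      have h := Cardinal.mk_Iio_lt α (by simp [Lam])
      simpa [Lam] using h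
    have h4 : #(Iio α) * ℵ₀ < 𝔠 := Cardinal.mul_lt_of_lt Cardinal.aleph0_le_continuum h3
      Cardinal.aleph0_lt_continuum
    rw [hX] at h1
    exact absurd (h1.trans h2) (not_le.mpr h4)
  choose c hc using hne
  refine ⟨WellFounded.fix (wellFounded_lt (α := Lam)) (C := fun _ => X) c, ?_⟩
  intro α β hβ
  have h1 := WellFounded.fix_eq (wellFounded_lt (α := Lam)) (C := fun _ => X) c α
  have h2 := hc α (fun β _ => WellFounded.fix (wellFounded_lt (α := Lam)) (C := fun _ => X) c β)
    β hβ
  rw [← h1] at h2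
  exact h2

theorem mk_words : #(List Bool → Bool) = 𝔠 := by
  simp

/-- the index data. -/
abbrev Idx : Type := (List Bool → Bool) × List Bool × ℕ × ℕ

theorem mk_Idx : #Idx = 𝔠 := by
  have h : #(List Bool × ℕ × ℕ) = ℵ₀ := by simp
  rw [Idx, Cardinal.mk_prod, h, mk_words]
  simp

theorem exists_indep : ∃ N : ℕ → Set (ℕ → Bool), ∀ W : List Bool → Bool,
    Function.Injective (hW W) → ∀ (s : List Bool) (n m : ℕ), n ≠ m →
      ∃ x : ℕ → Bool, app s x ∈ N n ∧ hW W x ∉ N m := by
  classical
  have hΛ : #Lam = 𝔠 := by simp [Lam]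
  obtain ⟨e⟩ : Nonempty (Lam ≃ Idx) := Cardinal.eq.mp (by rw [hΛ, mk_Idx])
  let B : Lam → Lam → (ℕ → Bool) → Set (ℕ → Bool) := fun α β y =>
    {x | Function.Injective (hW (e α).1) ∧ hW (e α).1 x = app (e β).2.1 y} ∪
      {x | app (e α).2.1 x = hW (e β).1 y}
  have hB : ∀ α β y, (B α β y).Countable := by
    intro α β y
    refine Set.Countable.union ?_ ?_
    · refine Set.Subsingleton.countable ?_
      rintro x ⟨hi, hx⟩ x' ⟨_, hx'⟩
      exact hi (hx.trans hx'.symm)
    · refine Set.Subsingleton.countable ?_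
      rintro x hx x' hx'
      exact app_injective _ (Eq.trans hx (Eq.symm hx'))
  obtain ⟨f, hf⟩ := avoid (by simp) B hB
  refine ⟨fun n => {z | ∃ α, (e α).2.2.1 = n ∧ z = app (e α).2.1 (f α)}, ?_⟩
  intro W hW' s n m hnm
  let α : Lam := e.symm (W, s, n, m)
  have hα : e α = (W, s, n, m) := e.apply_symm_apply _
  refine ⟨f α, ⟨α, by rw [hα], by rw [hα]⟩, ?_⟩
  rintro ⟨β, hβ, hz⟩
  rcases lt_trichotomy β α with h | h | h
  · apply hf α β h
    left
    rw [hα]
    exact ⟨hW', hz⟩
  · subst h
    rw [hα] at hβ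
    exact hnm hβ
  · apply hf β α h
    right
    show app (e β).2.1 (f β) = hW (e α).1 (f α)
    rw [hα]
    exact hz.symm

end Pool.Agent.Q213.IndepReals
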