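import Mathlib

/-!
# A pseudocompact group of prime exponent which is not selectively pseudocompact

For a prime `p` we construct a pseudocompact group topology on the vector space `V` of dimension
`𝔠` over `ZMod p` such that `V × G` is pseudocompact and not selectively pseudocompact, for every
pseudocompact group `G`.
-/

set_option autoImplicit false

open Set Topology Filter
open Cardinal hiding univ

namespace Pool.Agent.Q213.NSP

/-- Every continuous real function is bounded. -/
def Pseudocompact (X : Type) [TopologicalSpace X] : Prop :=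
  ∀ f : X → ℝ, Continuous f → ∃ M : ℝ, ∀ x, |f x| ≤ M

/-- For every sequence of nonempty open sets `U n` there are points `x n ∈ U n` such that the
sequence `x` has an accumulation point. -/
def SelectivelyPseudocompact (X : Type) [TopologicalSpace X] : Prop :=
  ∀ U : ℕ → Set X, (∀ n, IsOpen (U n) ∧ (U n).Nonempty) →
    ∃ x : ℕ → X, (∀ n, x n ∈ U n) ∧
      ∃ a : X, ∀ O : Set X, IsOpen O → a ∈ O → {n | x n ∈ O}.Infinite

/-- Every sequence of nonempty open sets has an accumulation point. -/
def FeeblyCompact (X : Type) [TopologicalSpace X] : Prop :=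
  ∀ U : ℕ → Set X, (∀ n, IsOpen (U n) ∧ (U n).Nonempty) →
    ∃ a : X, ∀ O : Set X, IsOpen O → a ∈ O → {n | (U n ∩ O).Nonempty}.Infinite

theorem Pseudocompact.feeblyCompact {X : Type} [TopologicalSpace X] [CompletelyRegularSpace X]
    (hX : Pseudocompact X) : FeeblyCompact X := by
  intro U hU
  by_contra! h
  have hlf : LocallyFinite U := by
    intro a
    obtain ⟨O, hO, haO, hfin⟩ := h a
    exact ⟨O, hO.mem_nhds haO, hfin⟩
  choose x hx using fun n => (hU n).2
  have h1 : ∀ n, ∃ f : X → ℝ, Continuous f ∧ f (x n) = 1 ∧ (∀ y, 0 ≤ f y) ∧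
      ∀ y, y ∉ U n → f y = 0 := by
    intro n
    obtain ⟨f, hf, hf0, hf1⟩ := CompletelyRegularSpace.completely_regular_isOpen (x n) (U n)
      (hU n).1 (hx n)
    refine ⟨fun y => 1 - (f y : ℝ), by fun_prop, by simp [hf0], fun y => ?_, fun y hy => ?_⟩
    · have := (f y).2.2
      linarith
    · have h2 : f y = 1 := hf1 hy
      simp [h2]
  choose f hf hfx hf0 hfU using h1
  have hsupp : ∀ n : ℕ, Function.support (fun y => (n : ℝ) * f n y) ⊆ U n := by
    intro n y hy
    by_contra hyn
    exact hy (by simp [hfU n y hyn])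
  have hlf' : LocallyFinite fun n : ℕ => Function.support (fun y => (n : ℝ) * f n y) :=
    hlf.subset hsupp
  obtain ⟨M, hM⟩ := hX (fun y => ∑ᶠ n : ℕ, (n : ℝ) * f n y)
    (continuous_finsum (fun n => continuous_const.mul (hf n)) hlf')
  obtain ⟨n, hn⟩ := exists_nat_gt M
  have h2 : (n : ℝ) ≤ ∑ᶠ m : ℕ, (m : ℝ) * f m (x n) := by
    have h3 : (n : ℝ) = (n : ℝ) * f n (x n) := by rw [hfx, mul_one]
    have hfin : (Function.support fun m : ℕ => (m : ℝ) * f m (x n)).Finite := by
      have h4 := hlf'.point_finite (x n)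
      exact h4
    rw [finsum_eq_sum _ hfin]
    by_cases hn0 : (n : ℝ) * f n (x n) = 0
    · rw [← h3] at hn0
      rw [hn0]
      exact Finset.sum_nonneg fun m _ => mul_nonneg (Nat.cast_nonneg _) (hf0 _ _)
    · calc (n : ℝ) = (n : ℝ) * f n (x n) := h3
        _ ≤ _ := Finset.single_le_sum (f := fun m : ℕ => (m : ℝ) * f m (x n))
          (fun m _ => mul_nonneg (Nat.cast_nonneg _) (hf0 _ _)) (hfin.mem_toFinset.2 hn0)
  have h3 := hM (x n)
  have h4 := le_abs_self (∑ᶠ m : ℕ, (m : ℝ) * f m (x n))
  linarith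

/-! ### Size -/

/-- An infinite pseudocompact Hausdorff group has at least continuum many elements. -/
theorem continuum_le {G : Type} [AddGroup G] [TopologicalSpace G] [IsTopologicalAddGroup G]
    [T2Space G] [Infinite G] (hG : Pseudocompact G) : 𝔠 ≤ #G := by
  classical
  have hcr : CompletelyRegularSpace G :=
    CompletelyRegularSpace.of_exists_uniformSpace ⟨IsTopologicalAddGroup.rightUniformSpace G, rfl⟩
  have hfc := hG.feeblyCompact
  -- no isolated points
  have hni : ∀ g : G, ¬ IsOpen ({g} : Set G) := by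
    intro g hg
    have h1 : IsOpen ({0} : Set G) := by
      have h3 : ({0} : Set G) = (fun x => g + x) ⁻¹' {g} := by
        ext x
        simp
      rw [h3]
      exact hg.preimage (by fun_prop)
    have : DiscreteTopology G := discreteTopology_of_isOpen_singleton_zero h1
    let e : ℕ ↪ G := Infinite.natEmbedding G
    obtain ⟨M, hM⟩ := hG (fun g => (Function.invFun e g : ℕ)) continuous_of_discreteTopology
    obtain ⟨n, hn⟩ := exists_nat_gt M
    have h2 := hM (e n)
    rw [Function.leftInverse_invFun e.injective n] at h2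
    have h3 := le_abs_self (n : ℝ)
    linarith
  -- splitting
  have hsplit : ∀ U : Set G, IsOpen U ∧ U.Nonempty → ∃ p : Set G × Set G,
      (IsOpen p.1 ∧ p.1.Nonempty) ∧ (IsOpen p.2 ∧ p.2.Nonempty) ∧ closure p.1 ⊆ U ∧
        closure p.2 ⊆ U ∧ Disjoint (closure p.1) (closure p.2) := by
    rintro U ⟨hU, x, hx⟩
    obtain ⟨y, hy, hyx⟩ : ∃ y ∈ U, y ≠ x := by
      by_contra! h
      apply hni x
      have : U = {x} := by
        ext z
        exact ⟨fun hz => h z hz, fun hz => by rw [mem_singleton_iff.1 hz]; exact hx⟩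
      rwa [← this]
    obtain ⟨A, B, hA, hB, hxA, hyB, hAB⟩ := t2_separation (Ne.symm hyx)
    have h1 : ∀ z ∈ U, ∀ C : Set G, IsOpen C → z ∈ C → ∃ D : Set G, IsOpen D ∧ z ∈ D ∧
        closure D ⊆ U ∧ closure D ⊆ C := by
      intro z hz C hC hzC
      obtain ⟨D, hD, hDc, hDU⟩ := exists_mem_nhds_isClosed_subset
        ((hU.inter hC).mem_nhds ⟨hz, hzC⟩)
      refine ⟨interior D, isOpen_interior, mem_interior_iff_mem_nhds.2 hD, ?_, ?_⟩
      · exact (closure_minimal interior_subset hDc).trans (hDU.trans inter_subset_left)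
      · exact (closure_minimal interior_subset hDc).trans (hDU.trans inter_subset_right)
    obtain ⟨A', hA', hxA', hA'U, hA'A⟩ := h1 x hx A hA hxA
    obtain ⟨B', hB', hyB', hB'U, hB'B⟩ := h1 y hy B hB hyB
    exact ⟨(A', B'), ⟨hA', x, hxA'⟩, ⟨hB', y, hyB'⟩, hA'U, hB'U, hAB.mono hA'A hB'B⟩
  choose s hs1 hs2 hs3 hs4 hs5 using hsplit
  let step : Bool → {U : Set G // IsOpen U ∧ U.Nonempty} → {U : Set G // IsOpen U ∧ U.Nonempty} :=
    fun b U => if b then ⟨(s U.1 U.2).1, hs1 U.1 U.2⟩ else ⟨(s U.1 U.2).2, hs2 U.1 U.2⟩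
  have hstep : ∀ b U, closure (step b U).1 ⊆ U.1 := by
    intro b U
    cases b
    · exact hs4 U.1 U.2
    · exact hs3 U.1 U.2
  have hdisj : ∀ U, Disjoint (closure (step true U).1) (closure (step false U).1) := fun U =>
    hs5 U.1 U.2
  let S : (ℕ → Bool) → ℕ → {U : Set G // IsOpen U ∧ U.Nonempty} := fun f n =>
    Nat.rec ⟨univ, isOpen_univ, univ_nonempty⟩ (fun m U => step (f m) U) n
  have hS : ∀ f n, S f (n + 1) = step (f n) (S f n) := fun f n => rfl
  have hanti : ∀ f, Antitone fun n => (S f n).1 := by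
    intro f
    refine antitone_nat_of_succ_le fun n => ?_
    rw [hS]
    exact subset_closure.trans (hstep _ _)
  choose x hx using fun f => hfc (fun n => (S f n).1) fun n => (S f n).2
  have hxS : ∀ f n, x f ∈ closure (S f n).1 := by
    intro f n
    refine mem_closure_iff.2 fun O hO hxO => ?_
    obtain ⟨m, hm, hnm⟩ := (hx f O hO hxO).exists_gt n
    obtain ⟨z, hz1, hz2⟩ := hm
    exact ⟨z, hz2, hanti f hnm.le hz1⟩
  have hinj : Function.Injective x := by
    intro f g hfg
    by_contra hne
    have hex : ∃ n, f n ≠ g n := Function.ne_iff.1 hne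
    let n := Nat.find hex
    have hn : f n ≠ g n := Nat.find_spec hex
    have hlt : ∀ m < n, f m = g m := fun m hm => not_not.1 (Nat.find_min hex hm)
    have hSn : ∀ m ≤ n, S f m = S g m := by
      intro m
      induction m with
      | zero => intro _; rfl
      | succ m ih =>
        intro hm
        rw [hS, hS, ih (by omega), hlt m (by omega)]
    have h1 := hxS f (n + 1)
    have h2 := hxS g (n + 1)
    rw [hS] at h1 h2
    rw [hSn n le_rfl, hfg] at h1
    cases hf : f n <;> cases hg : g n
    · exact hn (hf.trans hg.symm)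
    · rw [hf] at h1
      rw [hg] at h2
      exact Set.disjoint_left.1 (hdisj _) h2 h1
    · rw [hf] at h1
      rw [hg] at h2
      exact Set.disjoint_left.1 (hdisj _) h1 h2
    · exact hn (hf.trans hg.symm)
  have h1 := mk_le_of_injective hinj
  have h2 : #(ℕ → Bool) = 𝔠 := by simp
  rwa [h2] at h1

/-! ### Countable partial functions coded by sequences -/

section Codes

variable {A B : Type} [Zero B]

open Classical in
/-- The value at `x` of the partial function coded by `s`. -/
noncomputable def pval (s : ℕ → A × B) (x : A) : B :=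
  if h : ∃ n, (s n).1 = x then (s (Nat.find h)).2 else 0

theorem exists_pcode {S : Set A} (hS : S.Countable) (hne : S.Nonempty) (u : A → B) :
    ∃ s : ℕ → A × B, (range fun n => (s n).1) = S ∧ ∀ x ∈ S, pval s x = u x := by
  classical
  obtain ⟨a, rfl⟩ := hS.exists_eq_range hne
  refine ⟨fun n => (a n, u (a n)), rfl, fun x hx => ?_⟩
  have h : ∃ n, a n = x := hx
  have h1 : pval (fun n => (a n, u (a n))) x = u (a (Nat.find h)) := dif_pos h
  rw [h1, Nat.find_spec h]

end Codes

/-! ### The vector space -/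

variable (p : ℕ) [Fact p.Prime]

/-- The vector space of dimension continuum. -/
abbrev V : Type := ℝ →₀ ZMod p

/-- The indices of the coordinates. -/
abbrev J : Type := ℕ → ℝ × ZMod p

theorem mk_seq {A : Type} (hA : #A = 𝔠) : #(ℕ → A × ZMod p) = 𝔠 := by
  have h1 : #(A × ZMod p) = 𝔠 := by
    rw [mk_prod, lift_id, lift_id, hA]
    refine le_antisymm ?_ ?_
    · refine (mul_le_mul' le_rfl ((mk_le_aleph0 (α := ZMod p)).trans
        aleph0_le_continuum)).trans ?_
      rw [continuum_mul_self]
    · have h2 : #(ZMod p) ≠ 0 := mk_ne_zero _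
      exact Cardinal.le_mul_right h2
  rw [← power_def, h1, mk_nat, continuum_power_aleph0]

theorem mk_J : #(J p) = 𝔠 := mk_seq p mk_real

theorem exists_equiv : Nonempty (ℝ ≃ (ℕ → J p × ZMod p) × ℝ) := by
  refine Cardinal.eq.1 ?_
  rw [mk_real, mk_prod, lift_id, lift_id, mk_seq p (mk_J p), mk_real, continuum_mul_self]

/-- A bijection between the basis and the pairs of a task and a real number. -/
noncomputable def ε : ℝ ≃ (ℕ → J p × ZMod p) × ℝ := (exists_equiv p).some

open Classical in
/-- The value at the basis vector `ξ` of the coordinate `α`. -/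
noncomputable def c (α : J p) (ξ : ℝ) : ZMod p :=
  if ξ ∈ range (fun n => (α n).1) then pval α ξ else pval (ε p ξ).1 α

/-- The coordinate functional. -/
noncomputable def χ (α : J p) : V p →ₗ[ZMod p] ZMod p :=
  Finsupp.linearCombination (ZMod p) (c p α)

/-- Every assignment of values to countably many coordinates is realized. -/
theorem exists_vec {N : Set (J p)} (hN : N.Countable) (y : J p → ZMod p) :
    ∃ v : V p, ∀ α ∈ N, χ p α v = y α := by
  classical
  rcases N.eq_empty_or_nonempty with rfl | hne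
  · exact ⟨0, fun α hα => absurd hα (notMem_empty α)⟩
  obtain ⟨t, ht1, ht2⟩ := exists_pcode hN hne y
  have hcount : (⋃ α ∈ N, range (fun n => (α n).1) : Set ℝ).Countable :=
    hN.biUnion fun α _ => countable_range _
  obtain ⟨r, hr⟩ : ∃ r : ℝ, (ε p).symm (t, r) ∉ (⋃ α ∈ N, range (fun n => (α n).1) : Set ℝ) := by
    by_contra! h
    have h1 : (univ : Set ℝ) ⊆ (fun r => (ε p).symm (t, r)) ⁻¹'
        (⋃ α ∈ N, range (fun n => (α n).1)) := fun r _ => h r
    have h2 : ((fun r => (ε p).symm (t, r)) ⁻¹'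
        (⋃ α ∈ N, range (fun n => (α n).1))).Countable := by
      refine hcount.preimage_of_injOn ?_
      intro a _ b _ hab
      have := (ε p).symm.injective hab
      simpa using this
    exact Cardinal.not_countable_real (h2.mono h1)
  refine ⟨Finsupp.single ((ε p).symm (t, r)) 1, fun α hα => ?_⟩
  have h1 : (ε p).symm (t, r) ∉ range (fun n => (α n).1) := fun h =>
    hr (mem_iUnion₂.2 ⟨α, hα, h⟩)
  rw [χ, Finsupp.linearCombination_single, one_smul, c, if_neg h1, Equiv.apply_symm_apply]
  exact ht2 α hα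

/-- Every functional is represented by a coordinate on countably many vectors. -/
theorem exists_coord (x : ℕ → V p) (φ : V p →ₗ[ZMod p] ZMod p) :
    ∃ α, ∀ n, χ p α (x n) = φ (x n) := by
  classical
  let S : Set ℝ := ⋃ n, (x n).support
  have hS : S.Countable := countable_iUnion fun n => (x n).support.countable_toSet
  rcases S.eq_empty_or_nonempty with h | hne
  · refine ⟨fun _ => (0, 0), fun n => ?_⟩
    have h1 : x n = 0 := by
      rw [← Finsupp.support_eq_empty, ← Finset.coe_eq_empty, ← subset_empty_iff, ← h]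
      exact subset_iUnion (fun n => ((x n).support : Set ℝ)) n
    rw [h1, map_zero, map_zero]
  · obtain ⟨α, hα1, hα2⟩ := exists_pcode hS hne fun ξ => φ (Finsupp.single ξ 1)
    refine ⟨α, fun n => ?_⟩
    rw [χ, Finsupp.linearCombination_apply, Finsupp.sum]
    conv_rhs => rw [← Finsupp.sum_single (x n), Finsupp.sum, map_sum]
    refine Finset.sum_congr rfl fun ξ hξ => ?_
    have hξS : ξ ∈ S := mem_iUnion.2 ⟨n, hξ⟩
    have h1 : ξ ∈ range (fun n => (α n).1) := by rw [hα1]; exact hξS
    rw [c, if_pos h1, hα2 ξ hξS]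
    have h2 : Finsupp.single ξ (x n ξ) = (x n ξ) • Finsupp.single ξ (1 : ZMod p) := by
      rw [Finsupp.smul_single, smul_eq_mul, mul_one]
    rw [h2, map_smul]

/-- The map to the product. -/
noncomputable def toPi : V p →+ (J p → ZMod p) where
  toFun v α := χ p α v
  map_zero' := by
    funext α
    simp
  map_add' v w := by
    funext α
    simp

/-- The topology of `V`. -/
noncomputable instance topV : TopologicalSpace (V p) :=
  TopologicalSpace.induced (toPi p) inferInstance

instance : IsTopologicalAddGroup (V p) := topologicalAddGroup_induced (toPi p)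

theorem continuous_χ (α : J p) : Continuous fun v : V p => χ p α v :=
  (continuous_apply α).comp (continuous_induced_dom (f := toPi p))

theorem toPi_injective : Function.Injective (toPi p) := by
  rw [injective_iff_map_eq_zero]
  intro v hv
  ext ξ
  obtain ⟨α, hα⟩ := exists_coord p (fun _ => v) (Finsupp.lapply ξ)
  have h1 : χ p α v = 0 := congrFun hv α
  rw [hα 0] at h1
  exact h1

instance : T2Space (V p) :=
  (Topology.IsEmbedding.mk ⟨rfl⟩ (toPi_injective p)).t2Space

/-- Basic neighbourhoods. -/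
theorem mem_basic {O : Set (V p)} (hO : IsOpen O) {v : V p} (hv : v ∈ O) :
    ∃ F : Finset (J p), ∀ w : V p, (∀ α ∈ F, χ p α w = χ p α v) → w ∈ O := by
  obtain ⟨O', hO', rfl⟩ := isOpen_induced_iff.1 hO
  obtain ⟨F, u, hu, hF⟩ := isOpen_pi_iff.1 hO' _ hv
  refine ⟨F, fun w hw => hF fun α hα => ?_⟩
  have h1 : toPi p w α = toPi p v α := hw α hα
  rw [h1]
  exact (hu α hα).2

theorem isOpen_basic (F : Finset (J p)) (v : V p) :
    IsOpen {w : V p | ∀ α ∈ F, χ p α w = χ p α v} := by
  have h1 : {w : V p | ∀ α ∈ F, χ p α w = χ p α v} =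
      ⋂ α ∈ F, (fun w => χ p α w) ⁻¹' {χ p α v} := by
    ext w
    simp
  rw [h1]
  exact isOpen_biInter_finset fun α _ => (isOpen_discrete _).preimage (continuous_χ p α)

/-! ### Failure of selective pseudocompactness -/

/-- Triangular sequences are linearly independent modulo the common kernel. -/
theorem exists_functional (α : ℕ → J p) (x : ℕ → V p) (hx : ∀ n, χ p (α n) (x n) = 1)
    (hx' : ∀ n, ∀ i < n, χ p (α i) (x n) = 0) (h : V p) (hh : ∀ i, χ p (α i) h = 0) :
    ∃ φ : V p →ₗ[ZMod p] ZMod p, (∀ n, φ (x n) = 1) ∧ φ h = 0 := by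
  classical
  have hli : LinearIndependent (ZMod p) x := by
    rw [linearIndependent_iff]
    intro l hl
    by_contra hne
    have hsupp : l.support.Nonempty := Finsupp.support_nonempty_iff.2 hne
    let m := l.support.min' hsupp
    have hm : m ∈ l.support := Finset.min'_mem _ _
    have h1 : χ p (α m) (Finsupp.linearCombination (ZMod p) x l) = l m := by
      rw [Finsupp.linearCombination_apply, Finsupp.sum, map_sum,
        Finset.sum_eq_single_of_mem m hm]
      · rw [map_smul, hx m, smul_eq_mul, mul_one]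
      · intro n hn hnm
        have h2 : m < n := lt_of_le_of_ne (Finset.min'_le _ _ hn) hnm.symm
        rw [map_smul, hx' n m h2, smul_zero]
    rw [hl, map_zero] at h1
    exact (Finsupp.mem_support_iff.1 hm) h1.symm
  -- the span meets the multiples of `h` trivially
  have hnot : h ≠ 0 → h ∉ Submodule.span (ZMod p) (range x) := by
    intro hne hmem
    obtain ⟨l, hl⟩ := (Finsupp.mem_span_range_iff_exists_finsupp).1 hmem
    have hl0 : l ≠ 0 := by
      rintro rfl
      rw [Finsupp.sum_zero_index] at hl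
      exact hne hl.symm
    have hsupp : l.support.Nonempty := Finsupp.support_nonempty_iff.2 hl0
    let m := l.support.min' hsupp
    have hm : m ∈ l.support := Finset.min'_mem _ _
    have h1 : χ p (α m) (l.sum fun i a => a • x i) = l m := by
      rw [Finsupp.sum, map_sum, Finset.sum_eq_single_of_mem m hm]
      · rw [map_smul, hx m, smul_eq_mul, mul_one]
      · intro n hn hnm
        have h2 : m < n := lt_of_le_of_ne (Finset.min'_le _ _ hn) hnm.symm
        rw [map_smul, hx' n m h2, smul_zero]
    rw [hl, hh m] at h1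
    exact (Finsupp.mem_support_iff.1 hm) h1.symm
  let f : Submodule.span (ZMod p) (range x) →ₗ[ZMod p] ZMod p :=
    (Finsupp.linearCombination (ZMod p) fun _ : ℕ => (1 : ZMod p)).comp hli.repr
  have hf : ∀ n, f ⟨x n, Submodule.subset_span (mem_range_self n)⟩ = 1 := by
    intro n
    have h1 : hli.repr ⟨x n, Submodule.subset_span (mem_range_self n)⟩ = Finsupp.single n 1 :=
      hli.repr_eq_single n _ rfl
    show Finsupp.linearCombination (ZMod p) (fun _ : ℕ => (1 : ZMod p)) (hli.repr _) = 1
    rw [h1, Finsupp.linearCombination_single, one_smul]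
  have hext : ∀ g : V p →ₗ[ZMod p] ZMod p, g.comp (Submodule.span (ZMod p) (range x)).subtype = f →
      ∀ n, g (x n) = 1 := by
    intro g hg n
    rw [← hf n, ← hg]
    rfl
  by_cases h0 : h = 0
  · obtain ⟨g, hg⟩ := LinearMap.exists_extend f
    exact ⟨g, hext g hg, by rw [h0, map_zero]⟩
  · obtain ⟨g, hg, hg'⟩ := LinearMap.exists_extend_of_notMem f (hnot h0) 0
    exact ⟨g, hext g hg, hg'⟩

/-- `V × G` is not selectively pseudocompact. -/
theorem not_selectively (G : Type) [TopologicalSpace G] [Nonempty G] :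
    ¬ SelectivelyPseudocompact (V p × G) := by
  classical
  intro hsel
  obtain ⟨α, hα⟩ : ∃ α : ℕ → J p, Function.Injective α :=
    ⟨fun n _ => ((n : ℝ), 0), fun m n h => by simpa using congrFun h 0⟩
  let U : ℕ → Set (V p × G) := fun n =>
    {q | χ p (α n) q.1 = 1 ∧ ∀ i < n, χ p (α i) q.1 = 0}
  have hU : ∀ n, IsOpen (U n) ∧ (U n).Nonempty := by
    intro n
    obtain ⟨v, hv⟩ := exists_vec p ((finite_le_nat n).countable.image α)
      fun β => if β = α n then 1 else 0
    have hv1 : χ p (α n) v = 1 := by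
      rw [hv _ ⟨n, le_refl n, rfl⟩, if_pos rfl]
    have hv2 : ∀ i < n, χ p (α i) v = 0 := fun i hi => by
      rw [hv _ ⟨i, hi.le, rfl⟩, if_neg fun h => hi.ne (hα h)]
    refine ⟨?_, ⟨(v, Classical.arbitrary G), hv1, hv2⟩⟩
    have h1 : U n = Prod.fst ⁻¹' {w : V p | ∀ β ∈ (Finset.range (n + 1)).image α,
        χ p β w = χ p β v} := by
      ext q
      simp only [U, mem_ofPred_eq, mem_preimage, Finset.mem_image, Finset.mem_range]
      constructor
      · rintro ⟨h1, h2⟩ _ ⟨i, hi, rfl⟩
        rcases (Nat.lt_succ_iff.1 hi).lt_or_eq with h | rfl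
        · rw [h2 i h, hv2 i h]
        · rw [h1, hv1]
      · intro h
        refine ⟨?_, fun i hi => ?_⟩
        · rw [h _ ⟨n, by omega, rfl⟩, hv1]
        · rw [h _ ⟨i, by omega, rfl⟩, hv2 i hi]
    rw [h1]
    exact (isOpen_basic p _ v).preimage continuous_fst
  obtain ⟨x, hx, ⟨h, g⟩, ha⟩ := hsel U hU
  -- the coordinates of the accumulation point
  have hh : ∀ i, χ p (α i) h = 0 := by
    intro i
    obtain ⟨n, hn, hin⟩ := (ha (Prod.fst ⁻¹' ((fun w => χ p (α i) w) ⁻¹' {χ p (α i) h}))
      (((isOpen_discrete _).preimage (continuous_χ p (α i))).preimage continuous_fst)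
      rfl).exists_gt i
    have h1 : χ p (α i) (x n).1 = χ p (α i) h := hn
    rw [← h1]
    exact (hx n).2 i hin
  obtain ⟨φ, hφ1, hφ2⟩ := exists_functional p α (fun n => (x n).1) (fun n => (hx n).1)
    (fun n => (hx n).2) h hh
  obtain ⟨β, hβ⟩ := exists_coord p (fun n => Nat.rec h (fun m _ => (x m).1) n) φ
  have hβh : χ p β h = 0 := by
    have := hβ 0
    exact this.trans hφ2
  have hβx : ∀ n, χ p β (x n).1 = 1 := fun n => by
    have := hβ (n + 1)
    exact this.trans (hφ1 n)
  obtain ⟨n, hn⟩ := (ha (Prod.fst ⁻¹' ((fun w => χ p β w) ⁻¹' {0}))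
    (((isOpen_discrete _).preimage (continuous_χ p β)).preimage continuous_fst) hβh).nonempty
  have h1 : χ p β (x n).1 = 0 := hn
  rw [hβx n] at h1
  exact one_ne_zero h1

/-! ### Pseudocompactness of products -/

/-- The product of `V` and a feebly compact space is pseudocompact. -/
theorem pseudocompact_prod {G : Type} [TopologicalSpace G] (hG : FeeblyCompact G) :
    Pseudocompact (V p × G) := by
  classical
  intro f hf
  by_contra! h
  -- points with large values
  choose y hy using fun n : ℕ => h n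
  have h1 : ∀ n : ℕ, ∃ (F : Finset (J p)) (W : Set G), IsOpen W ∧ (y n).2 ∈ W ∧
      ∀ w : V p, (∀ α ∈ F, χ p α w = χ p α (y n).1) → ∀ g ∈ W, (n : ℝ) < |f (w, g)| := by
    intro n
    have h2 : {q : V p × G | (n : ℝ) < |f q|} ∈ 𝓝 (y n) :=
      (isOpen_lt continuous_const hf.abs).mem_nhds (hy n)
    obtain ⟨A, W, hA, hyA, hW, hyW, hAW⟩ := mem_nhds_prod_iff'.1 h2
    obtain ⟨F, hF⟩ := mem_basic p hA hyA
    exact ⟨F, W, hW, hyW, fun w hw g hg => hAW ⟨hF w hw, hg⟩⟩
  choose F W hW hyW hFW using h1
  -- a convergent subsequence on the countable set of coordinates involved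
  let N : Set (J p) := ⋃ n, (F n : Set (J p))
  have hN : N.Countable := countable_iUnion fun n => (F n).countable_toSet
  have : Countable N := hN.to_subtype
  obtain ⟨z, -, m, hm, hz⟩ := (isCompact_univ (X := N → ZMod p)).isSeqCompact
    (x := fun n => fun α : N => χ p α (y n).1) fun n => mem_univ _
  have hz' : ∀ α : N, ∀ᶠ k in atTop, χ p α (y (m k)).1 = z α := by
    intro α
    have h2 := (tendsto_pi_nhds.1 hz) α
    rw [nhds_discrete, tendsto_pure] at h2
    exact h2
  obtain ⟨v, hv⟩ := exists_vec p hN fun α => if h : α ∈ N then z ⟨α, h⟩ else 0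
  have hv' : ∀ α : N, χ p α v = z α := fun α => by
    rw [hv α α.2, dif_pos α.2]
  obtain ⟨g, hg⟩ := hG (fun k => W (m k)) fun k => ⟨hW _, _, hyW _⟩
  have h2 : {q : V p × G | |f q| < |f (v, g)| + 1} ∈ 𝓝 (v, g) :=
    (isOpen_lt hf.abs continuous_const).mem_nhds (lt_add_one |f (v, g)|)
  obtain ⟨A, Q, hA, hvA, hQ, hgQ, hAQ⟩ := mem_nhds_prod_iff'.1 h2
  obtain ⟨E, hE⟩ := mem_basic p hA hvA
  have h3 : ∀ᶠ k in atTop, ∀ α ∈ E, ∀ h : α ∈ N, χ p α (y (m k)).1 = χ p α v := by
    rw [Filter.eventually_all_finset]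
    intro α _
    by_cases hα : α ∈ N
    · filter_upwards [hz' ⟨α, hα⟩] with k hk _
      rw [hk, hv' ⟨α, hα⟩]
    · exact Eventually.of_forall fun k h => absurd h hα
  obtain ⟨K, hK⟩ := eventually_atTop.1 h3
  obtain ⟨K', hK'⟩ := exists_nat_gt (|f (v, g)| + 1)
  obtain ⟨k, ⟨g', hg'1, hg'2⟩, hk⟩ := (hg Q hQ hgQ).exists_gt (max K K')
  -- a common vector
  obtain ⟨w, hw⟩ := exists_vec p ((E ∪ F (m k)).countable_toSet)
    fun α => if α ∈ F (m k) then χ p α (y (m k)).1 else χ p α v
  have hw1 : ∀ α ∈ F (m k), χ p α w = χ p α (y (m k)).1 := fun α hα => by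
    rw [hw α (Finset.mem_coe.2 (Finset.mem_union_right _ hα)), if_pos hα]
  have hw2 : ∀ α ∈ E, χ p α w = χ p α v := fun α hα => by
    rw [hw α (Finset.mem_coe.2 (Finset.mem_union_left _ hα))]
    by_cases hαF : α ∈ F (m k)
    · rw [if_pos hαF]
      exact hK k ((le_max_left _ _).trans hk.le) α hα (mem_iUnion.2 ⟨m k, hαF⟩)
    · rw [if_neg hαF]
  have h4 : |f (w, g')| < |f (v, g)| + 1 := hAQ ⟨hE w hw2, hg'2⟩
  have h5 : ((m k : ℕ) : ℝ) < |f (w, g')| := hFW (m k) w hw1 g' hg'1
  have h6 : K' ≤ m k := (le_max_right K K').trans (hk.le.trans (hm.id_le k))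
  have h7 : (K' : ℝ) ≤ (m k : ℕ) := by exact_mod_cast h6
  linarith

/-! ### Transport to a group -/

/-- An additive group isomorphic to `V × G`, where `G` is an infinite pseudocompact group, has a
pseudocompact group topology which is not selectively pseudocompact. -/
theorem exists_topology_of_equiv {G L : Type} [AddCommGroup G] [AddCommGroup L]
    [τ : TopologicalSpace G] [IsTopologicalAddGroup G] [T2Space G] (hG : Pseudocompact G)
    (ε : L ≃+ V p × G) :
    ∃ σ : TopologicalSpace L, @IsTopologicalAddGroup L σ _ ∧ @T2Space L σ ∧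
      @Pseudocompact L σ ∧ ¬ @SelectivelyPseudocompact L σ := by
  have hcr : CompletelyRegularSpace G :=
    CompletelyRegularSpace.of_exists_uniformSpace ⟨IsTopologicalAddGroup.rightUniformSpace G, rfl⟩
  let σ : TopologicalSpace L := TopologicalSpace.induced ε inferInstance
  have hind : IsInducing ε := ⟨rfl⟩
  let E : L ≃ₜ V p × G := ε.toEquiv.toHomeomorphOfIsInducing hind
  refine ⟨σ, topologicalAddGroup_induced ε, E.isEmbedding.t2Space, ?_, ?_⟩
  · intro f hf
    obtain ⟨M, hM⟩ := pseudocompact_prod p hG.feeblyCompact (fun q => f (E.symm q))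
      (hf.comp E.symm.continuous)
    refine ⟨M, fun x => ?_⟩
    have := hM (E x)
    rwa [E.symm_apply_apply] at this
  · intro hsel
    apply not_selectively p G
    intro U hU
    obtain ⟨x, hx, a, ha⟩ := hsel (fun n => E ⁻¹' U n) fun n =>
      ⟨(hU n).1.preimage E.continuous, (hU n).2.preimage E.surjective⟩
    refine ⟨fun n => E (x n), hx, E a, fun O hO haO => ?_⟩
    exact ha (E ⁻¹' O) (hO.preimage E.continuous) haO

/-- An infinite elementary `p`-group with a pseudocompact Hausdorff group topology is isomorphic to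
its product with `V`. -/
theorem exists_equiv_prod {G : Type} [AddCommGroup G] [Infinite G] (hp : ∀ g : G, p • g = 0)
    (hc : 𝔠 ≤ #G) : Nonempty (G ≃+ V p × G) := by
  let _ : Module (ZMod p) G := AddCommGroup.zmodModule hp
  let b := Module.Basis.ofVectorSpace (ZMod p) G
  let ι := Module.Basis.ofVectorSpaceIndex (ZMod p) G
  have h1 : #G = #(ι →₀ ZMod p) := Cardinal.mk_congr b.repr.toEquiv
  have hinf : Infinite ι := by
    by_contra hfin
    rw [not_infinite_iff_finite] at hfin
    have : Finite (ι →₀ ZMod p) := by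
      have : Finite (ι → ZMod p) := inferInstance
      exact Finite.of_injective (fun f : ι →₀ ZMod p => (f : ι → ZMod p)) DFunLike.coe_injective
    have h2 : Finite G := Finite.of_equiv _ b.repr.toEquiv.symm
    exact not_finite_iff_infinite.2 ‹Infinite G› h2
  have h2 : #G = #ι := by
    rw [h1, Cardinal.mk_finsupp_of_infinite]
    exact max_eq_left ((mk_le_aleph0 (α := ZMod p)).trans (aleph0_le_mk ι))
  have h3 : #(ℝ ⊕ ι) = #ι := by
    rw [mk_sum, lift_id, lift_id, mk_real]
    refine Cardinal.add_eq_right (aleph0_le_mk ι) ?_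
    rw [← h2]
    exact hc
  obtain ⟨e⟩ := Cardinal.eq.1 h3
  refine ⟨(b.repr.toAddEquiv.trans (Finsupp.domCongr e.symm)).trans
    ((Finsupp.sumFinsuppAddEquivProdFinsupp).trans
      ((AddEquiv.refl (V p)).prodCongr b.repr.symm.toAddEquiv))⟩

/-- Every infinite elementary abelian `p`-group with a pseudocompact Hausdorff group topology has
one which is not selectively pseudocompact. -/
theorem exists_topology {G : Type} [AddCommGroup G] [Infinite G] (hp : ∀ g : G, p • g = 0)
    [TopologicalSpace G] [IsTopologicalAddGroup G] [T2Space G] (hG : Pseudocompact G) :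
    ∃ σ : TopologicalSpace G, @IsTopologicalAddGroup G σ _ ∧ @T2Space G σ ∧
      @Pseudocompact G σ ∧ ¬ @SelectivelyPseudocompact G σ := by
  obtain ⟨ε⟩ := exists_equiv_prod p hp (continuum_le hG)
  exact exists_topology_of_equiv p hG ε

end Pool.Agent.Q213.NSP
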