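import Mathlib

/-!
# Universal decomposition of powers of the variables in characteristic `p`

Every variable of `F_p[X_1, ..., X_N]` has a `p`-power which is a sum, over the sets `J` of indices
containing the index of the variable, of multiples of `∏ (X_j - X_j')` (`j` in `J`, `j'` outside),
in a way compatible with permutations.
-/

set_option linter.unusedSectionVars false

namespace Q213.PR

open MvPolynomial

variable {p : ℕ} [Fact p.Prime] {Ω : Type*} [Fintype Ω] [DecidableEq Ω]

/-- the product of the differences `w j - w j'`, `j ∈ J`, `j' ∉ J'` -/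
def RR {A : Type*} [CommRing A] (w : Ω → A) (J J' : Finset Ω) : A :=
  ∏ j ∈ J, ∏ j' ∈ J'ᶜ, (w j - w j')

theorem map_RR {A B : Type*} [CommRing A] [CommRing B] (f : A →+* B) (w : Ω → A)
    (J J' : Finset Ω) : f (RR w J J') = RR (fun i => f (w i)) J J' := by
  simp [RR, map_prod]

theorem compl_map' (σ : Equiv.Perm Ω) (J : Finset Ω) :
    (J.map σ.toEmbedding)ᶜ = Jᶜ.map σ.toEmbedding := by
  ext x
  simp [Finset.mem_map_equiv]

theorem RR_perm {A : Type*} [CommRing A] (w : Ω → A) (J J' : Finset Ω) (σ : Equiv.Perm Ω) :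
    RR (fun i => w (σ i)) J J' = RR w (J.map σ.toEmbedding) (J'.map σ.toEmbedding) := by
  simp only [RR, compl_map', Finset.prod_map, Equiv.coe_toEmbedding]

theorem RR_zero {A : Type*} [CommRing A] (w : Ω → A) {J J' : Finset Ω} (hc : J.card = J'.card)
    (hne : J ≠ J') : RR w J J' = 0 := by
  have : ∃ j ∈ J, j ∉ J' := by
    by_contra hcon
    push Not at hcon
    exact hne (Finset.eq_of_subset_of_card_le hcon hc.ge)
  obtain ⟨j, hj, hj'⟩ := this
  refine Finset.prod_eq_zero hj ?_
  refine Finset.prod_eq_zero (Finset.mem_compl.2 hj') ?_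
  exact sub_self _

variable (p) in
/-- collapse the variables in `J` to the variable `i` -/
noncomputable def cl (J : Finset Ω) (i : Ω) : MvPolynomial Ω (ZMod p) →ₐ[ZMod p]
    MvPolynomial Ω (ZMod p) := aeval (fun j => if j ∈ J then X i else X j)

variable (p) in
/-- symmetric function of the variables in `J` -/
noncomputable def EE (m' r : ℕ) (J : Finset Ω) : MvPolynomial Ω (ZMod p) :=
  C ((m' : ZMod p)⁻¹) * ∑ T ∈ J.powersetCard r, ∏ j ∈ T, X j

variable (p) in
/-- the substitution which is a section of `cl` up to Frobenius -/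
noncomputable def ps (m' r : ℕ) (J : Finset Ω) : MvPolynomial Ω (ZMod p) →ₐ[ZMod p]
    MvPolynomial Ω (ZMod p) := aeval (fun j => if j ∈ J then EE p m' r J else X j ^ r)

theorem choose_mod (v m' : ℕ) : ((p ^ v * m').choose (p ^ v) : ZMod p) = m' := by
  have h1 : ((1 + Polynomial.X : Polynomial (ZMod p)) ^ (p ^ v * m')).coeff (p ^ v) =
      ((p ^ v * m').choose (p ^ v) : ZMod p) := by
    rw [Polynomial.coeff_one_add_X_pow]
  rw [← h1, pow_mul, add_pow_char_pow, one_pow]
  have h2 : (1 + Polynomial.X ^ p ^ v : Polynomial (ZMod p)) ^ m' =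
      Polynomial.expand (ZMod p) (p ^ v) ((1 + Polynomial.X) ^ m') := by
    rw [map_pow, map_add, map_one, Polynomial.expand_X]
  rw [h2]
  have hp : 0 < p ^ v := pow_pos (Fact.out : p.Prime).pos _
  have h3 := Polynomial.coeff_expand_mul (R := ZMod p) hp ((1 + Polynomial.X) ^ m') 1
  rw [one_mul] at h3
  rw [h3, Polynomial.coeff_one_add_X_pow]
  simp

theorem cl_EE {J : Finset Ω} {v m' : ℕ} (hJ : J.card = p ^ v * m') (hm' : (m' : ZMod p) ≠ 0)
    {i : Ω} : cl p J i (EE p m' (p ^ v) J) = X i ^ p ^ v := by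
  rw [EE, map_mul, map_sum]
  have h1 : ∀ T ∈ J.powersetCard (p ^ v), cl p J i (∏ j ∈ T, X j) = X i ^ p ^ v := by
    intro T hT
    rw [Finset.mem_powersetCard] at hT
    rw [map_prod]
    have : ∀ j ∈ T, cl p J i (X j) = X i := by
      intro j hj
      simp [cl, hT.1 hj]
    rw [Finset.prod_congr rfl this, Finset.prod_const, hT.2]
  rw [Finset.sum_congr rfl h1, Finset.sum_const, Finset.card_powersetCard, hJ]
  have h2 : cl p J i (C ((m' : ZMod p)⁻¹)) = C ((m' : ZMod p)⁻¹) := by
    rw [cl, algHom_C, algebraMap_eq]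
  rw [h2, nsmul_eq_mul]
  have h3 : (((p ^ v * m').choose (p ^ v) : ℕ) : MvPolynomial Ω (ZMod p)) = C (m' : ZMod p) := by
    rw [← choose_mod (p := p) v m']
    simp
  rw [h3, ← mul_assoc, ← C_mul, inv_mul_cancel₀ hm', C_1, one_mul]

theorem cl_ps {J : Finset Ω} {v m' : ℕ} (hJ : J.card = p ^ v * m') (hm' : (m' : ZMod p) ≠ 0)
    (i : Ω) (x : MvPolynomial Ω (ZMod p)) :
    cl p J i (ps p m' (p ^ v) J x) = (cl p J i x) ^ p ^ v := by
  have key : ((cl p J i).toRingHom.comp (ps p m' (p ^ v) J).toRingHom) =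
      (iterateFrobenius (MvPolynomial Ω (ZMod p)) p v).comp (cl p J i).toRingHom := by
    apply MvPolynomial.ringHom_ext
    · intro r
      simp only [RingHom.comp_apply, AlgHom.toRingHom_eq_coe, RingHom.coe_coe, algHom_C,
        algebraMap_eq, iterateFrobenius_def]
      rw [← C_pow, ZMod.pow_card_pow]
    · intro j
      simp only [RingHom.comp_apply, AlgHom.toRingHom_eq_coe, RingHom.coe_coe,
        iterateFrobenius_def]
      by_cases hj : j ∈ J
      · have h1 : ps p m' (p ^ v) J (X j) = EE p m' (p ^ v) J := by simp [ps, hj]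
        have h2 : cl p J i (X j) = X i := by simp [cl, hj]
        rw [h1, h2, cl_EE hJ hm']
      · have h1 : ps p m' (p ^ v) J (X j) = X j ^ p ^ v := by simp [ps, hj]
        have h2 : cl p J i (X j) = X j := by simp [cl, hj]
        rw [h1, map_pow, h2]
  have := congrArg (fun f => f x) key
  simpa [iterateFrobenius_def] using this

theorem ps_cl {J : Finset Ω} {m' r : ℕ} {i : Ω} (hi : i ∈ J) (x : MvPolynomial Ω (ZMod p)) :
    ps p m' r J (cl p J i x) = ps p m' r J x := by
  have key : (ps p m' r J).comp (cl p J i) = ps p m' r J := by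
    apply MvPolynomial.algHom_ext
    intro j
    by_cases hj : j ∈ J
    · simp [ps, cl, hj, hi]
    · simp [ps, cl, hj]
  exact congrArg (fun f => f x) key

theorem rename_EE (σ : Equiv.Perm Ω) (m' r : ℕ) (J : Finset Ω) :
    rename σ (EE p m' r J) = EE p m' r (J.map σ.toEmbedding) := by
  rw [EE, EE, map_mul, rename_C, map_sum]
  congr 1
  rw [Finset.powersetCard_map, Finset.sum_map]
  refine Finset.sum_congr rfl fun T _ => ?_
  simp [map_prod, Finset.mapEmbedding_apply]

theorem rename_ps (σ : Equiv.Perm Ω) (m' r : ℕ) (J : Finset Ω) (x : MvPolynomial Ω (ZMod p)) :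
    rename σ (ps p m' r J x) = ps p m' r (J.map σ.toEmbedding) (rename σ x) := by
  have key : (rename σ).comp (ps p m' r J) =
      (ps p m' r (J.map σ.toEmbedding)).comp (rename σ : MvPolynomial Ω (ZMod p) →ₐ[ZMod p] _) := by
    apply MvPolynomial.algHom_ext
    intro j
    by_cases hj : j ∈ J
    · simp [ps, hj, rename_EE]
    · simp [ps, hj]
  exact congrArg (fun f => f x) key

theorem ps_swap {J : Finset Ω} {m' r : ℕ} {i i' : Ω} (hi : i ∈ J) (hi' : i' ∈ J)
    (x : MvPolynomial Ω (ZMod p)) :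
    ps p m' r J (rename (Equiv.swap i i') x) = ps p m' r J x := by
  have key : (ps p m' r J).comp (rename (Equiv.swap i i')) = ps p m' r J := by
    apply MvPolynomial.algHom_ext
    intro j
    by_cases h1 : j = i
    · subst h1
      simp [ps, hi, hi']
    · by_cases h2 : j = i'
      · subst h2
        simp [ps, hi, hi']
      · simp [ps, Equiv.swap_apply_of_ne_of_ne h1 h2]
  exact congrArg (fun f => f x) key

/-- divisibility by a difference of variables -/
theorem dvd_of_subst {R : Type*} [CommRing R] {a b : Ω} (g : MvPolynomial Ω R)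
    (h : aeval (fun j => if j = b then X a else X j) g = (0 : MvPolynomial Ω R)) :
    (X a - X b : MvPolynomial Ω R) ∣ g := by
  let I : Ideal (MvPolynomial Ω R) := Ideal.span {X a - X b}
  have key : (Ideal.Quotient.mkₐ R I).comp (aeval (fun j => if j = b then X a else X j)) =
      Ideal.Quotient.mkₐ R I := by
    apply MvPolynomial.algHom_ext
    intro j
    by_cases hj : j = b
    · subst hj
      simp only [AlgHom.comp_apply, aeval_X, if_true]
      exact (Ideal.Quotient.mk_eq_mk_iff_sub_mem _ _).2 (Ideal.subset_span rfl)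
    · simp [hj]
  have h2 := congrArg (fun f => f g) key
  simp only [AlgHom.comp_apply, h, map_zero] at h2
  have h3 : g ∈ I := (Ideal.Quotient.eq_zero_iff_mem).1 h2.symm
  exact Ideal.mem_span_singleton.1 h3

theorem prod_dvd {J : Finset Ω} {i : Ω} (hi : i ∈ J) {g : MvPolynomial Ω (ZMod p)}
    (hg : ∀ b ∉ J, aeval (fun j => if j = b then X i else X j) g =
      (0 : MvPolynomial Ω (ZMod p))) :
    (∏ j' ∈ Jᶜ, (X i - X j') : MvPolynomial Ω (ZMod p)) ∣ g := by
  have key : ∀ T : Finset Ω, T ⊆ Jᶜ → (∏ j' ∈ T, (X i - X j') : MvPolynomial Ω (ZMod p)) ∣ g := by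
    intro T
    induction T using Finset.induction_on with
    | empty =>
      intro _
      simp
    | insert b T hb ih =>
      intro hT
      obtain ⟨h, hh⟩ := ih (fun x hx => hT (Finset.mem_insert_of_mem hx))
      have hbJ : b ∉ J := Finset.mem_compl.1 (hT (Finset.mem_insert_self _ _))
      have h0 := hg b hbJ
      rw [hh, map_mul] at h0
      have hne : (aeval (fun j => if j = b then X i else X j))
          (∏ j' ∈ T, (X i - X j') : MvPolynomial Ω (ZMod p)) ≠ (0 : MvPolynomial Ω (ZMod p)) := by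
        rw [map_prod, Finset.prod_ne_zero_iff]
        intro j hj
        have hjb : j ≠ b := fun h => hb (h ▸ hj)
        have hib : i ≠ b := fun h => hbJ (h ▸ hi)
        have hij : i ≠ j := by
          rintro rfl
          exact Finset.mem_compl.1 (hT (Finset.mem_insert_of_mem hj)) hi
        simp only [map_sub, aeval_X, hjb, hib, if_false]
        rw [sub_ne_zero]
        intro h
        exact hij (X_injective h)
      have h1 := (mul_eq_zero.1 h0).resolve_left hne
      obtain ⟨h', hh'⟩ := dvd_of_subst h h1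
      refine ⟨h', ?_⟩
      rw [Finset.prod_insert hb, hh, hh']
      ring
  exact key _ (Finset.Subset.refl _)

theorem step {m : ℕ} (hm : 1 ≤ m) (u : Ω → MvPolynomial Ω (ZMod p))
    (hu : ∀ (σ : Equiv.Perm Ω) i, rename σ (u i) = u (σ i))
    (hv : ∀ J : Finset Ω, J.card = m + 1 → ∀ i ∈ J, cl p J i (u i) = 0) :
    ∃ (a : ℕ) (s : Finset Ω → MvPolynomial Ω (ZMod p)),
      (∀ (σ : Equiv.Perm Ω) J, J.card = m → rename σ (s J) = s (J.map σ.toEmbedding)) ∧
      ∀ J : Finset Ω, J.card = m → ∀ i ∈ J, cl p J i (u i ^ p ^ a -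
        ∑ J' ∈ Finset.univ.filter (fun J' : Finset Ω => J'.card = m ∧ i ∈ J'),
          RR X J' J' * s J') = 0 := by
  have hp : p.Prime := Fact.out
  -- the exponent
  obtain ⟨v, m', hm'p, hmv⟩ := Nat.exists_eq_pow_mul_and_not_dvd (n := m) (by omega) p hp.ne_one
  have hm' : (m' : ZMod p) ≠ 0 := by
    rw [Ne, ZMod.natCast_eq_zero_iff]
    exact hm'p
  let D : Finset Ω → Ω → MvPolynomial Ω (ZMod p) := fun J i => ∏ j' ∈ Jᶜ, (X i - X j')
  let D' : Finset Ω → MvPolynomial Ω (ZMod p) := fun J =>
    ∏ j' ∈ Jᶜ, (EE p m' (p ^ v) J - X j' ^ p ^ v)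
  have hD : ∀ J : Finset Ω, ∀ i ∈ J, D J i ≠ 0 := by
    intro J i hi
    rw [Finset.prod_ne_zero_iff]
    intro j hj
    rw [sub_ne_zero]
    intro h
    rw [X_injective h] at hi
    exact Finset.mem_compl.1 hj hi
  have hclD : ∀ J : Finset Ω, ∀ i ∈ J, cl p J i (D J i) = D J i := by
    intro J i hi
    simp only [D, map_prod]
    refine Finset.prod_congr rfl fun j hj => ?_
    simp [cl, hi, Finset.mem_compl.1 hj]
  have hpsD : ∀ J : Finset Ω, ∀ i ∈ J, ps p m' (p ^ v) J (D J i) = D' J := by
    intro J i hi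
    simp only [D, D', map_prod]
    refine Finset.prod_congr rfl fun j hj => ?_
    simp [ps, hi, Finset.mem_compl.1 hj]
  have hclD' : ∀ J : Finset Ω, J.card = m → ∀ i ∈ J, cl p J i (D' J) = D J i ^ p ^ v := by
    intro J hJ i hi
    rw [← hpsD J i hi, cl_ps (hJ.trans hmv) hm', hclD J i hi]
  have hD'0 : ∀ J : Finset Ω, J.card = m → D' J ≠ 0 := by
    intro J hJ h
    obtain ⟨i, hi⟩ : J.Nonempty := Finset.card_pos.1 (by omega)
    have := hclD' J hJ i hi
    rw [h, map_zero] at this
    exact hD J i hi ((pow_eq_zero_iff (pow_pos hp.pos v).ne').1 this.symm)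
  have hrenD' : ∀ (σ : Equiv.Perm Ω) J, rename σ (D' J) = D' (J.map σ.toEmbedding) := by
    intro σ J
    simp only [D', map_prod, compl_map', Finset.prod_map]
    refine Finset.prod_congr rfl fun j _ => ?_
    simp [rename_EE]
  -- divisibility
  have hz : ∀ J : Finset Ω, ∃ z, J.card = m → ∀ i ∈ J, ps p m' (p ^ v) J (u i) = D' J * z := by
    intro J
    by_cases hJ : J.card = m
    · obtain ⟨i, hi⟩ : J.Nonempty := Finset.card_pos.1 (by omega)
      have hdvd : D J i ∣ cl p J i (u i) := by
        refine prod_dvd hi ?_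
        intro b hb
        have h1 : (aeval (fun j => if j = b then X i else X j)).comp (cl p J i) =
            cl p (insert b J) i := by
          apply MvPolynomial.algHom_ext
          intro j
          have hib : i ≠ b := fun h => hb (h ▸ hi)
          by_cases hj : j ∈ J
          · simp [cl, hj, hib]
          · by_cases hjb : j = b
            · subst hjb
              simp [cl, hj]
            · simp [cl, hj, hjb]
        have h2 := congrArg (fun f => f (u i)) h1
        simp only [AlgHom.comp_apply] at h2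
        rw [h2]
        exact hv _ (by rw [Finset.card_insert_of_notMem hb, hJ]) i (Finset.mem_insert_of_mem hi)
      obtain ⟨h, hh⟩ := hdvd
      refine ⟨ps p m' (p ^ v) J h, fun _ i' hi' => ?_⟩
      have h1 : ps p m' (p ^ v) J (u i') = ps p m' (p ^ v) J (u i) := by
        have : u i' = rename (Equiv.swap i i') (u i) := by
          rw [hu, Equiv.swap_apply_left]
        rw [this, ps_swap hi hi']
      rw [h1, ← ps_cl hi, hh, map_mul, hpsD J i hi]
    · exact ⟨0, fun h => absurd h hJ⟩
  choose z hz using hz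
  have hzσ : ∀ (σ : Equiv.Perm Ω) J, J.card = m → rename σ (z J) = z (J.map σ.toEmbedding) := by
    intro σ J hJ
    obtain ⟨i, hi⟩ : J.Nonempty := Finset.card_pos.1 (by omega)
    have hJσ : (J.map σ.toEmbedding).card = m := by rw [Finset.card_map, hJ]
    have h1 := congrArg (rename σ) (hz J hJ i hi)
    rw [rename_ps, hu, map_mul, hrenD'] at h1
    have h2 := hz _ hJσ (σ i) (Finset.mem_map_of_mem _ hi)
    rw [h2] at h1
    exact (mul_left_cancel₀ (hD'0 _ hJσ) h1).symm
  have hpm : m ≤ p ^ m := (Nat.lt_pow_self hp.one_lt).le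
  let s : Finset Ω → MvPolynomial Ω (ZMod p) := fun J =>
    RR X J J ^ (p ^ v - 1) * D' J ^ (p ^ m - m) * z J ^ p ^ m
  have hRσ : ∀ (σ : Equiv.Perm Ω) (J : Finset Ω), rename σ (RR (X : Ω → MvPolynomial Ω (ZMod p)) J J)
      = RR X (J.map σ.toEmbedding) (J.map σ.toEmbedding) := by
    intro σ J
    have h1 := map_RR ((rename σ : MvPolynomial Ω (ZMod p) →ₐ[ZMod p] _).toRingHom) X J J
    simp only [AlgHom.toRingHom_eq_coe, RingHom.coe_coe, rename_X] at h1
    rw [h1, ← RR_perm]
  refine ⟨m + v, s, ?_, ?_⟩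
  · intro σ J hJ
    simp only [s, map_mul, map_pow, hRσ, hrenD', hzσ σ J hJ]
  · intro J hJ i hi
    rw [map_sub, map_pow, map_sum]
    have hRcl : cl p J i (RR X J J) = D J i ^ m := by
      have h1 := map_RR (cl p J i).toRingHom X J J
      simp only [AlgHom.toRingHom_eq_coe, RingHom.coe_coe] at h1
      rw [h1, RR]
      have : ∀ j ∈ J, ∏ j' ∈ Jᶜ, (cl p J i (X j) - cl p J i (X j')) = D J i := by
        intro j hj
        refine Finset.prod_congr rfl fun j' hj' => ?_
        simp [cl, hj, Finset.mem_compl.1 hj']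
      rw [Finset.prod_congr rfl this, Finset.prod_const, hJ]
    have hzcl : D J i ^ p ^ v * cl p J i (z J) = cl p J i (u i) ^ p ^ v := by
      rw [← hclD' J hJ i hi, ← map_mul, ← hz J hJ i hi, cl_ps (hJ.trans hmv) hm']
    have hmain : cl p J i (RR X J J * s J) = cl p J i (u i) ^ p ^ (m + v) := by
      simp only [s, map_mul, map_pow, hRcl, hclD' J hJ i hi]
      have e1 : cl p J i (u i) ^ p ^ (m + v) = (cl p J i (u i) ^ p ^ v) ^ p ^ m := by
        rw [← pow_mul, ← pow_add, add_comm v m]
      rw [e1, ← hzcl, mul_pow]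
      have hpv : 1 ≤ p ^ v := Nat.one_le_pow _ _ hp.pos
      have e2 : (D J i ^ m) * ((D J i ^ m) ^ (p ^ v - 1)) = (D J i ^ p ^ v) ^ m := by
        rw [← pow_succ', Nat.sub_add_cancel hpv, ← pow_mul, ← pow_mul, mul_comm]
      have e3 : (D J i ^ p ^ v) ^ m * (D J i ^ p ^ v) ^ (p ^ m - m) = (D J i ^ p ^ v) ^ p ^ m := by
        rw [← pow_add, Nat.add_sub_cancel' hpm]
      calc (D J i ^ m) * ((D J i ^ m) ^ (p ^ v - 1) * (D J i ^ p ^ v) ^ (p ^ m - m) *
            cl p J i (z J) ^ p ^ m)
          = ((D J i ^ m) * ((D J i ^ m) ^ (p ^ v - 1))) * (D J i ^ p ^ v) ^ (p ^ m - m) *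
            cl p J i (z J) ^ p ^ m := by ring
        _ = (D J i ^ p ^ v) ^ p ^ m * cl p J i (z J) ^ p ^ m := by rw [e2, e3]
    have hsum : ∑ J' ∈ Finset.univ.filter (fun J' : Finset Ω => J'.card = m ∧ i ∈ J'),
        cl p J i (RR X J' J' * s J') = cl p J i (RR X J J * s J) := by
      rw [Finset.sum_eq_single J]
      · intro J' hJ' hne
        rw [Finset.mem_filter] at hJ'
        have : ∃ j ∈ J, j ∉ J' := by
          by_contra hcon
          push Not at hcon
          exact hne (Finset.eq_of_subset_of_card_le hcon (by rw [hJ, hJ'.2.1])).symm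
        obtain ⟨j, hj, hj'⟩ := this
        have h0 : cl p J i (RR X J' J') = 0 := by
          have h1 := map_RR (cl p J i).toRingHom X J' J'
          simp only [AlgHom.toRingHom_eq_coe, RingHom.coe_coe] at h1
          rw [h1]
          refine Finset.prod_eq_zero hJ'.2.2 ?_
          refine Finset.prod_eq_zero (Finset.mem_compl.2 hj') ?_
          simp [cl, hi, hj]
        rw [map_mul, h0, zero_mul]
      · intro h
        exact absurd (Finset.mem_filter.2 ⟨Finset.mem_univ _, hJ, hi⟩) h
    rw [hsum, hmain, sub_self]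

theorem dec_aux : ∀ (m : ℕ) (u : Ω → MvPolynomial Ω (ZMod p)),
    (∀ (σ : Equiv.Perm Ω) i, rename σ (u i) = u (σ i)) →
    (∀ J : Finset Ω, J.card = m + 1 → ∀ i ∈ J, cl p J i (u i) = 0) →
    ∃ (c : ℕ) (s : Finset Ω → MvPolynomial Ω (ZMod p)),
      (∀ (σ : Equiv.Perm Ω) J, rename σ (s J) = s (J.map σ.toEmbedding)) ∧
      ∀ i, u i ^ p ^ c = ∑ J ∈ Finset.univ.filter (fun J : Finset Ω => i ∈ J),
        RR X J J * s J := by
  have hp : p.Prime := Fact.out
  intro m
  induction m with
  | zero =>
    intro u hu hv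
    refine ⟨0, fun _ => 0, by simp, ?_⟩
    intro i
    have h1 := hv {i} (by simp) i (by simp)
    have h2 : cl p {i} i = AlgHom.id (ZMod p) (MvPolynomial Ω (ZMod p)) := by
      apply MvPolynomial.algHom_ext
      intro j
      by_cases hj : j = i
      · simp [cl, hj]
      · simp [cl, hj]
    rw [h2] at h1
    simpa using h1
  | succ m ih =>
    intro u hu hv
    obtain ⟨a, s1, hs1, h1⟩ := step (by omega) u hu hv
    have hRσ : ∀ (σ : Equiv.Perm Ω) (J : Finset Ω),
        rename σ (RR (X : Ω → MvPolynomial Ω (ZMod p)) J J)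
          = RR X (J.map σ.toEmbedding) (J.map σ.toEmbedding) := by
      intro σ J
      have h1 := map_RR ((rename σ : MvPolynomial Ω (ZMod p) →ₐ[ZMod p] _).toRingHom) X J J
      simp only [AlgHom.toRingHom_eq_coe, RingHom.coe_coe, rename_X] at h1
      rw [h1, ← RR_perm]
    obtain ⟨c, s2, hs2, h2⟩ := ih (fun i => u i ^ p ^ a -
        ∑ J' ∈ Finset.univ.filter (fun J' : Finset Ω => J'.card = m + 1 ∧ i ∈ J'),
          RR X J' J' * s1 J') (by
      intro σ i
      rw [map_sub, map_pow, hu, map_sum]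
      congr 1
      refine Finset.sum_equiv (Equiv.finsetCongr σ) ?_ ?_
      · intro J
        simp [Equiv.finsetCongr_apply]
      · intro J hJ
        rw [Finset.mem_filter] at hJ
        rw [map_mul, hRσ, hs1 σ J hJ.2.1]
        rfl) (by
      intro J hJ i hi
      exact h1 J hJ i hi)
    refine ⟨a + c, fun J => s2 J + if J.card = m + 1 then
      RR X J J ^ (p ^ c - 1) * s1 J ^ p ^ c else 0, ?_, ?_⟩
    · intro σ J
      by_cases hJ : J.card = m + 1
      · have hJ' : (J.map σ.toEmbedding).card = m + 1 := by rw [Finset.card_map, hJ]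
        simp only [hJ, hJ', if_true, map_add, map_mul, map_pow, hs2, hRσ, hs1 σ J hJ]
      · have hJ' : (J.map σ.toEmbedding).card ≠ m + 1 := by rwa [Finset.card_map]
        simp only [hJ, hJ', if_false, map_add, map_zero, hs2]
    · intro i
      have h3 := h2 i
      have hpc : 1 ≤ p ^ c := Nat.one_le_pow _ _ hp.pos
      have h4 : u i ^ p ^ (a + c) = (u i ^ p ^ a -
        ∑ J' ∈ Finset.univ.filter (fun J' : Finset Ω => J'.card = m + 1 ∧ i ∈ J'),
          RR X J' J' * s1 J') ^ p ^ c + (∑ J' ∈ Finset.univ.filter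
          (fun J' : Finset Ω => J'.card = m + 1 ∧ i ∈ J'), RR X J' J' * s1 J') ^ p ^ c := by
        rw [← add_pow_char_pow, sub_add_cancel, ← pow_mul, ← pow_add]
      rw [h4, h3, sum_pow_char_pow]
      have h5 : ∑ J' ∈ Finset.univ.filter (fun J' : Finset Ω => J'.card = m + 1 ∧ i ∈ J'),
          (RR X J' J' * s1 J') ^ p ^ c =
          ∑ J ∈ Finset.univ.filter (fun J : Finset Ω => i ∈ J), (if J.card = m + 1 then
            RR X J J * (RR X J J ^ (p ^ c - 1) * s1 J ^ p ^ c) else
              (0 : MvPolynomial Ω (ZMod p))) := by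
        rw [← Finset.sum_filter, Finset.filter_filter]
        refine Finset.sum_congr (by ext J; simp [and_comm]) ?_
        intro J _
        rw [mul_pow, ← mul_assoc, ← pow_succ', Nat.sub_add_cancel hpc]
      rw [h5, ← Finset.sum_add_distrib]
      refine Finset.sum_congr rfl fun J _ => ?_
      beta_reduce
      by_cases hJ : J.card = m + 1
      · rw [if_pos hJ, if_pos hJ]
        ring
      · rw [if_neg hJ, if_neg hJ]
        ring

variable (p Ω) in
/-- The universal decomposition. -/
theorem dec : ∃ (c : ℕ) (s : Finset Ω → MvPolynomial Ω (ZMod p)),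
      (∀ (σ : Equiv.Perm Ω) J, rename σ (s J) = s (J.map σ.toEmbedding)) ∧
      ∀ i, (X i : MvPolynomial Ω (ZMod p)) ^ p ^ c =
        ∑ J ∈ Finset.univ.filter (fun J : Finset Ω => i ∈ J), RR X J J * s J := by
  refine dec_aux (Fintype.card Ω) X (fun σ i => rename_X _ _) ?_
  intro J hJ
  have := Finset.card_le_univ J
  omega

end Q213.PR
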