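import Pool.Agent.Q213.PRa

/-!
# Transfers of products of many elements of small support
-/

set_option linter.unusedSectionVars false

namespace Q213.PR

open scoped Pointwise
open MulAction

universe u v

noncomputable instance instFQ {G : Type*} [Group G] [Finite G] (H : Subgroup G) :
    Fintype (G ⧸ H) := Fintype.ofFinite _

section Transfer

variable {G : Type*} [Group G]

theorem out_smul {X : Type*} [MulAction G X] {H : Subgroup G} {x : X} (hx : ∀ g ∈ H, g • x = x)
    (g : G) : ((g : G ⧸ H).out) • x = g • x := by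
  obtain ⟨h, hh⟩ := QuotientGroup.mk_out_eq_mul H g
  rw [hh, mul_smul, hx h.1 h.2]

variable [Finite G] {A : Type*} [CommRing A] [MulSemiringAction G A]

/-- transfer -/
noncomputable def tr (H : Subgroup G) (x : A) : A := ∑ c : G ⧸ H, c.out • x

theorem tr_zero (H : Subgroup G) : tr H (0 : A) = 0 := by simp [tr]

theorem tr_add (H : Subgroup G) (x y : A) : tr H (x + y) = tr H x + tr H y := by
  simp [tr, Finset.sum_add_distrib, smul_add]

theorem tr_neg (H : Subgroup G) (x : A) : tr H (-x) = -tr H x := by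
  simp [tr, smul_neg]

theorem tr_sum {ι : Type*} (H : Subgroup G) (s : Finset ι) (x : ι → A) :
    tr H (∑ i ∈ s, x i) = ∑ i ∈ s, tr H (x i) := by
  simp only [tr, Finset.smul_sum]
  exact Finset.sum_comm

theorem tr_mul_left (H : Subgroup G) {y : A} (hy : ∀ g : G, g • y = y) (x : A) :
    tr H (y * x) = y * tr H x := by
  simp only [tr, smul_mul', hy, Finset.mul_sum]

theorem smul_tr {H : Subgroup G} {x : A} (hx : ∀ g ∈ H, g • x = x) (g : G) :
    g • tr H x = tr H x := by
  rw [tr, Finset.smul_sum]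
  have h1 : ∀ c : G ⧸ H, g • c.out • x = (g • c).out • x := by
    intro c
    rw [← mul_smul, ← out_smul hx]
    congr 2
    rw [← smul_eq_mul, ← MulAction.Quotient.smul_mk, QuotientGroup.out_eq']
  rw [Finset.sum_congr rfl (fun c _ => h1 c)]
  exact Equiv.sum_comp (MulAction.toPerm g) (fun c : G ⧸ H => c.out • x)

theorem tr_pow {p : ℕ} [Fact p.Prime] [CharP A p] (H : Subgroup G) (x : A) (n : ℕ) :
    tr H (x ^ p ^ n) = tr H x ^ p ^ n := by
  rw [tr, tr, sum_pow_char_pow]
  refine Finset.sum_congr rfl fun c _ => ?_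
  rw [smul_pow']

/-- sums over invariant sets of equivariant functions are sums of transfers -/
theorem orbsum {Θ : Type*} [MulAction G Θ] (M : AddSubgroup A) (F : Θ → A) :
    ∀ (n : ℕ) (T : Finset Θ), T.card = n → (∀ g : G, ∀ θ ∈ T, F (g • θ) = g • F θ) →
      (∀ g : G, ∀ θ ∈ T, g • θ ∈ T) →
      (∀ θ ∈ T, tr (stabilizer G θ) (F θ) ∈ M) → ∑ θ ∈ T, F θ ∈ M := by
  classical
  intro n
  induction n using Nat.strong_induction_on with
  | _ n ih =>
    intro T hn hF hT h
    rcases T.eq_empty_or_nonempty with rfl | ⟨θ, hθ⟩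
    · simp
    · rw [← Finset.sum_filter_add_sum_filter_not T (fun θ' => θ' ∈ orbit G θ)]
      refine AddSubgroup.add_mem _ ?_ ?_
      · have : ∑ θ' ∈ T.filter (fun θ' => θ' ∈ orbit G θ), F θ' = tr (stabilizer G θ) (F θ) := by
          rw [tr]
          symm
          refine Finset.sum_bij (fun c _ => c.out • θ) ?_ ?_ ?_ ?_
          · intro c _
            exact Finset.mem_filter.2 ⟨hT _ _ hθ, MulAction.mem_orbit _ _⟩
          · intro c _ c' _ hcc
            rw [← QuotientGroup.out_eq' c, ← QuotientGroup.out_eq' c', QuotientGroup.eq]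
            rw [mem_stabilizer_iff, mul_smul, ← hcc, inv_smul_smul]
          · intro θ' hθ'
            rw [Finset.mem_filter] at hθ'
            obtain ⟨g, hg⟩ := hθ'.2
            refine ⟨(g : G ⧸ stabilizer G θ), Finset.mem_univ _, ?_⟩
            rw [out_smul (fun g hg => hg)]
            exact hg
          · intro c _
            exact (hF _ _ hθ).symm
        rw [this]
        exact h θ hθ
      · refine ih _ ?_ _ rfl ?_ ?_ ?_
        · rw [← hn]
          refine Finset.card_lt_card ?_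
          refine Finset.filter_ssubset.2 ⟨θ, hθ, ?_⟩
          simp
        · intro g θ' hθ'
          exact hF g θ' (Finset.mem_filter.1 hθ').1
        · intro g θ' hθ'
          rw [Finset.mem_filter] at hθ' ⊢
          refine ⟨hT g θ' hθ'.1, fun hmem => hθ'.2 ?_⟩
          have := MulAction.mem_orbit_of_mem_orbit g⁻¹ hmem
          rwa [inv_smul_smul] at this
        · intro θ' hθ'
          exact h θ' (Finset.mem_filter.1 hθ').1

end Transfer

section Pieces

variable (G : Type*) [Group G] {A : Type*} [CommRing A] [MulSemiringAction G A] {Λ : Type}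

/-- invariants of small support -/
def Pc (𝒜 : Finset Λ → Subring A) (K : ℕ) (z : A) : Prop :=
  (∀ g : G, g • z = z) ∧ ∃ S : Finset Λ, S.card ≤ K ∧ z ∈ 𝒜 S

/-- sums of products of at most `m` pieces -/
def PM (𝒜 : Finset Λ → Subring A) (K m : ℕ) : AddSubgroup A :=
  AddSubgroup.closure {y | ∃ l : List A, l.length ≤ m ∧ (∀ z ∈ l, Pc G 𝒜 K z) ∧ y = l.prod}

variable {G} {𝒜 : Finset Λ → Subring A}

theorem PM.mono {K K' m m' : ℕ} (hK : K ≤ K') (hm : m ≤ m') {y : A} (hy : y ∈ PM G 𝒜 K m) :
    y ∈ PM G 𝒜 K' m' := by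
  refine AddSubgroup.closure_mono ?_ hy
  rintro y ⟨l, hl, hl', rfl⟩
  refine ⟨l, hl.trans hm, fun z hz => ?_, rfl⟩
  obtain ⟨h1, S, hS, h2⟩ := hl' z hz
  exact ⟨h1, S, hS.trans hK, h2⟩

theorem PM.mul {K m m' : ℕ} {y y' : A} (hy : y ∈ PM G 𝒜 K m) (hy' : y' ∈ PM G 𝒜 K m') :
    y * y' ∈ PM G 𝒜 K (m + m') := by
  induction hy using AddSubgroup.closure_induction with
  | mem y h =>
    obtain ⟨l, hl, hl', rfl⟩ := h
    induction hy' using AddSubgroup.closure_induction with
    | mem y h =>
      obtain ⟨l2, h2, h2', rfl⟩ := h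
      refine AddSubgroup.subset_closure ⟨l ++ l2, ?_, ?_, ?_⟩
      · rw [List.length_append]
        omega
      · intro z hz
        rw [List.mem_append] at hz
        rcases hz with hz | hz
        · exact hl' z hz
        · exact h2' z hz
      · rw [List.prod_append]
    | zero => rw [mul_zero]; exact AddSubgroup.zero_mem _
    | add a b _ _ ha hb => rw [mul_add]; exact AddSubgroup.add_mem _ ha hb
    | neg a _ ha => rw [mul_neg]; exact AddSubgroup.neg_mem _ ha
  | zero => rw [zero_mul]; exact AddSubgroup.zero_mem _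
  | add a b _ _ ha hb => rw [add_mul]; exact AddSubgroup.add_mem _ ha hb
  | neg a _ ha => rw [neg_mul]; exact AddSubgroup.neg_mem _ ha

theorem PM.piece {K : ℕ} {z : A} (hz : Pc G 𝒜 K z) : z ∈ PM G 𝒜 K 1 := by
  refine AddSubgroup.subset_closure ⟨[z], by simp, ?_, by simp⟩
  intro y hy
  rw [List.mem_singleton] at hy
  rw [hy]
  exact hz

theorem PM.prod {K : ℕ} {ι : Type*} (s : Finset ι) (f : ι → A) (hf : ∀ i ∈ s, Pc G 𝒜 K (f i)) :
    ∏ i ∈ s, f i ∈ PM G 𝒜 K s.card := by
  refine AddSubgroup.subset_closure ⟨s.toList.map f, by simp, ?_, ?_⟩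
  · intro z hz
    rw [List.mem_map] at hz
    obtain ⟨i, hi, rfl⟩ := hz
    exact hf i (Finset.mem_toList.1 hi)
  · rw [Finset.prod_map_toList]

/-- an additive induction for values at Frobenius powers -/
theorem PM.frob_ind {p : ℕ} [Fact p.Prime] [CharP A p] {K m c : ℕ} {y : A}
    (hy : y ∈ PM G 𝒜 K m) (M : AddSubgroup A)
    (h : ∀ l : List A, l.length ≤ m → (∀ z ∈ l, Pc G 𝒜 K z) → (l.map (· ^ p ^ c)).prod ∈ M) :
    y ^ p ^ c ∈ M := by
  induction hy using AddSubgroup.closure_induction with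
  | mem y hy =>
    obtain ⟨l, hl, hl', rfl⟩ := hy
    have h1 : l.prod ^ p ^ c = (l.map (· ^ p ^ c)).prod := by
      clear h hl hl'
      induction l with
      | nil => simp
      | cons a l ih => rw [List.prod_cons, mul_pow, ih, List.map_cons, List.prod_cons]
    rw [h1]
    exact h l hl hl'
  | zero =>
    rw [zero_pow (pow_pos (Fact.out : p.Prime).pos _).ne']
    exact AddSubgroup.zero_mem _
  | add a b _ _ ha hb =>
    rw [add_pow_char_pow]
    exact AddSubgroup.add_mem _ ha hb
  | neg a _ ha =>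
    have : (-a) ^ p ^ c = -(a ^ p ^ c) := by
      have h1 : (-a) ^ p ^ c + a ^ p ^ c = 0 := by
        rw [← add_pow_char_pow, neg_add_cancel, zero_pow (pow_pos (Fact.out : p.Prime).pos _).ne']
      exact eq_neg_of_add_eq_zero_left h1
    rw [this]
    exact AddSubgroup.neg_mem _ ha

theorem Pc.pow {K : ℕ} {z : A} (hz : Pc G 𝒜 K z) (n : ℕ) : Pc G 𝒜 K (z ^ n) := by
  obtain ⟨h1, S, hS, h2⟩ := hz
  exact ⟨fun g => by rw [smul_pow', h1], S, hS, Subring.pow_mem _ h2 n⟩

theorem PM.frob {p : ℕ} [Fact p.Prime] [CharP A p] {K m : ℕ} {y : A}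
    (hy : y ∈ PM G 𝒜 K m) (c : ℕ) : y ^ p ^ c ∈ PM G 𝒜 K m := by
  refine PM.frob_ind hy _ (fun l hl hl' => ?_)
  refine AddSubgroup.subset_closure ⟨_, by rwa [List.length_map], ?_, rfl⟩
  intro z hz
  rw [List.mem_map] at hz
  obtain ⟨z', hz', rfl⟩ := hz
  exact (hl' z' hz').pow _

end Pieces

section Splitting

variable {Ω : Type*} [Fintype Ω] [DecidableEq Ω]

/-- generating polynomial of the functions `sa` -/
noncomputable def gQ {A : Type*} [CommRing A] (w : Ω → A) (J : Finset Ω) :
    MvPolynomial ℕ A :=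
  ∏ j ∈ J, ∑ r ∈ Finset.range (Fintype.card Ω + 1), MvPolynomial.X r * MvPolynomial.C (w j ^ r)

/-- the polynomial with the roots `w j'`, `j' ∉ J` -/
noncomputable def gE {A : Type*} [CommRing A] (w : Ω → A) (J : Finset Ω) : Polynomial A :=
  ∏ j' ∈ Jᶜ, (Polynomial.X - Polynomial.C (w j'))

/-- first splitting functions -/
noncomputable def sa {A : Type*} [CommRing A] (w : Ω → A) (M : ℕ →₀ ℕ) (J : Finset Ω) : A :=
  (gQ w J).coeff M

/-- second splitting functions -/
noncomputable def sb {A : Type*} [CommRing A] (w : Ω → A) (M : ℕ →₀ ℕ) (J : Finset Ω) : A :=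
  M.prod (fun r n => (gE w J).coeff r ^ n)

/-- index set -/
noncomputable def sM {A : Type*} [CommRing A] (w : Ω → A) : Finset (ℕ →₀ ℕ) :=
  Finset.univ.biUnion (fun J : Finset Ω => (gQ w J).support)

theorem split_sum {A : Type*} [CommRing A] (w : Ω → A) (J J' : Finset Ω) :
    ∑ M ∈ sM w, sa w M J * sb w M J' = RR w J J' := by
  have h1 : ∑ M ∈ sM w, sa w M J * sb w M J' =
      MvPolynomial.eval (fun r => (gE w J').coeff r) (gQ w J) := by
    rw [MvPolynomial.eval_eq]
    symm
    refine Finset.sum_subset ?_ ?_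
    · intro M hM
      exact Finset.mem_biUnion.2 ⟨J, Finset.mem_univ _, hM⟩
    · intro M _ hM
      rw [MvPolynomial.notMem_support_iff] at hM
      rw [hM, zero_mul]
  rw [h1, gQ, map_prod, RR]
  refine Finset.prod_congr rfl fun j _ => ?_
  rw [map_sum]
  have hdeg : (gE w J').natDegree < Fintype.card Ω + 1 := by
    refine lt_of_le_of_lt (Polynomial.natDegree_prod_le _ _) ?_
    refine lt_of_le_of_lt (Finset.sum_le_card_nsmul _ _ 1 (fun j _ =>
      Polynomial.natDegree_X_sub_C_le _)) ?_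
    rw [smul_eq_mul, mul_one]
    exact Nat.lt_succ_of_le (Finset.card_le_univ _)
  have h2 : ∑ r ∈ Finset.range (Fintype.card Ω + 1), (MvPolynomial.eval fun r => (gE w J').coeff r)
      (MvPolynomial.X r * MvPolynomial.C (w j ^ r)) = (gE w J').eval (w j) := by
    rw [Polynomial.eval_eq_sum_range' hdeg]
    refine Finset.sum_congr rfl fun r _ => ?_
    simp
  rw [h2, gE, Polynomial.eval_prod]
  simp

theorem gQ_map {A B : Type*} [CommRing A] [CommRing B] (f : A →+* B) (w : Ω → A) (J : Finset Ω) :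
    MvPolynomial.map f (gQ w J) = gQ (fun i => f (w i)) J := by
  simp [gQ, map_prod, map_sum]

theorem gE_map {A B : Type*} [CommRing A] [CommRing B] (f : A →+* B) (w : Ω → A) (J : Finset Ω) :
    Polynomial.map f (gE w J) = gE (fun i => f (w i)) J := by
  simp [gE, Polynomial.map_prod]

theorem sa_map {A B : Type*} [CommRing A] [CommRing B] (f : A →+* B) (w : Ω → A) (M : ℕ →₀ ℕ)
    (J : Finset Ω) : f (sa w M J) = sa (fun i => f (w i)) M J := by
  rw [sa, sa, ← gQ_map, MvPolynomial.coeff_map]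

theorem sb_map {A B : Type*} [CommRing A] [CommRing B] (f : A →+* B) (w : Ω → A) (M : ℕ →₀ ℕ)
    (J : Finset Ω) : f (sb w M J) = sb (fun i => f (w i)) M J := by
  rw [sb, sb, ← gE_map, Finsupp.prod, map_prod, Finsupp.prod]
  simp [Polynomial.coeff_map]

theorem sa_perm {A : Type*} [CommRing A] (w : Ω → A) (M : ℕ →₀ ℕ) (J : Finset Ω)
    (σ : Equiv.Perm Ω) : sa (fun i => w (σ i)) M J = sa w M (J.map σ.toEmbedding) := by
  simp only [sa, gQ, Finset.prod_map, Equiv.coe_toEmbedding]

theorem sb_perm {A : Type*} [CommRing A] (w : Ω → A) (M : ℕ →₀ ℕ) (J : Finset Ω)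
    (σ : Equiv.Perm Ω) : sb (fun i => w (σ i)) M J = sb w M (J.map σ.toEmbedding) := by
  simp only [sb, gE, compl_map', Finset.prod_map, Equiv.coe_toEmbedding]

theorem RR_mem {A : Type*} [CommRing A] {w : Ω → A} {S : Subring A} (h : ∀ i, w i ∈ S)
    (J J' : Finset Ω) : RR w J J' ∈ S :=
  Subring.prod_mem _ fun j _ => Subring.prod_mem _ fun j' _ => Subring.sub_mem _ (h j) (h j')

theorem sa_mem {A : Type*} [CommRing A] {w : Ω → A} {S : Subring A} (h : ∀ i, w i ∈ S)
    (M : ℕ →₀ ℕ) (J : Finset Ω) : sa w M J ∈ S := by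
  have := sa_map S.subtype (fun i => (⟨w i, h i⟩ : S)) M J
  simp only [Subring.subtype_apply] at this
  rw [← this]
  exact (sa (fun i => (⟨w i, h i⟩ : S)) M J).2

theorem sb_mem {A : Type*} [CommRing A] {w : Ω → A} {S : Subring A} (h : ∀ i, w i ∈ S)
    (M : ℕ →₀ ℕ) (J : Finset Ω) : sb w M J ∈ S := by
  have := sb_map S.subtype (fun i => (⟨w i, h i⟩ : S)) M J
  simp only [Subring.subtype_apply] at this
  rw [← this]
  exact (sb (fun i => (⟨w i, h i⟩ : S)) M J).2

variable {G : Type*} [Group G] [MulAction G Ω] {A : Type*} [CommRing A] [MulSemiringAction G A]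

theorem smul_eq_map (g : G) (J : Finset Ω) :
    g • J = J.map (MulAction.toPerm g).toEmbedding := by
  rw [Finset.smul_finset_def, Finset.map_eq_image]
  rfl

theorem smul_RR {w : Ω → A} (hw : ∀ (g : G) i, w (g • i) = g • w i) (g : G) (J J' : Finset Ω) :
    g • RR w J J' = RR w (g • J) (g • J') := by
  have h1 := map_RR (MulSemiringAction.toRingHom G A g) w J J'
  simp only [MulSemiringAction.toRingHom_apply, ← hw] at h1
  rw [h1, smul_eq_map, smul_eq_map, ← RR_perm]
  rfl

theorem smul_sa {w : Ω → A} (hw : ∀ (g : G) i, w (g • i) = g • w i) (g : G) (M : ℕ →₀ ℕ)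
    (J : Finset Ω) : g • sa w M J = sa w M (g • J) := by
  have h1 := sa_map (MulSemiringAction.toRingHom G A g) w M J
  simp only [MulSemiringAction.toRingHom_apply, ← hw] at h1
  rw [h1, smul_eq_map, ← sa_perm]
  rfl

theorem smul_sb {w : Ω → A} (hw : ∀ (g : G) i, w (g • i) = g • w i) (g : G) (M : ℕ →₀ ℕ)
    (J : Finset Ω) : g • sb w M J = sb w M (g • J) := by
  have h1 := sb_map (MulSemiringAction.toRingHom G A g) w M J
  simp only [MulSemiringAction.toRingHom_apply, ← hw] at h1
  rw [h1, smul_eq_map, ← sb_perm]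
  rfl

/-- splitting of a transfer at a factor `RR w J J` -/
theorem tr_split [Finite G] {w : Ω → A} (hw : ∀ (g : G) i, w (g • i) = g • w i) (J : Finset Ω)
    (x z : A) :
    tr (stabilizer G J) (x * RR w J J * z) =
      ∑ M ∈ sM w, tr (stabilizer G J) (x * sa w M J) * tr (stabilizer G J) (sb w M J * z) := by
  simp only [tr, Finset.sum_mul_sum, smul_mul']
  rw [Finset.sum_comm]
  refine Finset.sum_congr rfl fun c _ => ?_
  rw [Finset.sum_comm]
  have h1 : ∀ c' : G ⧸ stabilizer G J, ∑ M ∈ sM w, (c.out • x * c.out • sa w M J) *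
      (c'.out • sb w M J * c'.out • z) =
      c.out • x * c'.out • z * RR w (c.out • J) (c'.out • J) := by
    intro c'
    rw [← split_sum, Finset.mul_sum]
    refine Finset.sum_congr rfl fun M _ => ?_
    rw [smul_sa hw, smul_sb hw]
    ring
  rw [Finset.sum_congr rfl (fun c' _ => h1 c'), Finset.sum_eq_single c]
  · rw [smul_RR hw]
    ring
  · intro c' _ hne
    rw [RR_zero, mul_zero]
    · rw [Finset.card_smul_finset, Finset.card_smul_finset]
    · intro h
      apply hne
      rw [← QuotientGroup.out_eq' c, ← QuotientGroup.out_eq' c', QuotientGroup.eq]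
      rw [mem_stabilizer_iff, mul_smul, h, inv_smul_smul]
  · intro h
    exact absurd (Finset.mem_univ _) h

end Splitting

end Q213.PR
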