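import Pool.Agent.Q213.PRb

/-!
# Transfers of Frobenius powers of products are sums of products of transfers of small support
-/

set_option linter.unusedSectionVars false

namespace Q213.PR

open scoped Pointwise
open MulAction

universe u v

section Iter

variable {G : Type*} [Group G] [Finite G] {Ω : Type*} [Fintype Ω] [DecidableEq Ω] [MulAction G Ω]
  {A : Type*} [CommRing A] [MulSemiringAction G A] {Λ : Type} [DecidableEq Λ]
  {𝒜 : Finset Λ → Subring A}

theorem tr_mem (hst : ∀ (g : G) S, ∀ x ∈ 𝒜 S, g • x ∈ 𝒜 S) {H : Subgroup G} {S : Finset Λ}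
    {x : A} (hx : x ∈ 𝒜 S) : tr H x ∈ 𝒜 S :=
  Subring.sum_mem _ fun _ _ => hst _ _ _ hx

theorem iter (hmono : Monotone 𝒜) (hst : ∀ (g : G) S, ∀ x ∈ 𝒜 S, g • x ∈ 𝒜 S) (J : Finset Ω)
    (K' : ℕ) : ∀ (P : List ((Ω → A) × A)) (Z : List A) (x : A), Z.length ≤ P.length →
      (∀ q ∈ P, (∀ (g : G) i, q.1 (g • i) = g • q.1 i) ∧ (∃ l, ∀ i, q.1 i ∈ 𝒜 {l}) ∧
        (∀ g ∈ stabilizer G J, g • q.2 = q.2) ∧ ∃ S : Finset Λ, S.card ≤ 1 ∧ q.2 ∈ 𝒜 S) →
      (∀ z ∈ Z, (∀ g ∈ stabilizer G J, g • z = z) ∧ ∃ S : Finset Λ, S.card ≤ K' ∧ z ∈ 𝒜 S) →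
      (∀ g ∈ stabilizer G J, g • x = x) → (∃ S : Finset Λ, S.card ≤ K' + 2 ∧ x ∈ 𝒜 S) →
      tr (stabilizer G J) (x * (P.map (fun q => RR q.1 J J * q.2)).prod * Z.prod) ∈
        PM G 𝒜 (K' + 3) (P.length + 1)
  | [], Z, x => by
    intro hZ _ _ hx hxS
    have : Z = [] := List.length_eq_zero_iff.1 (by simpa using hZ)
    subst this
    obtain ⟨S, hS, hxS⟩ := hxS
    simp only [List.map_nil, List.prod_nil, mul_one, List.length_nil, zero_add]
    exact PM.piece ⟨smul_tr hx, S, by omega, tr_mem hst hxS⟩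
  | q :: P, Z, x => by
    intro hZ hP hZp hx hxS
    obtain ⟨z, Z', hzZ, hlen, hz, hZ'⟩ : ∃ (z : A) (Z' : List A), Z.prod = z * Z'.prod ∧
        Z'.length ≤ P.length ∧ ((∀ g ∈ stabilizer G J, g • z = z) ∧
          ∃ S : Finset Λ, S.card ≤ K' ∧ z ∈ 𝒜 S) ∧
        (∀ z ∈ Z', (∀ g ∈ stabilizer G J, g • z = z) ∧
          ∃ S : Finset Λ, S.card ≤ K' ∧ z ∈ 𝒜 S) := by
      cases Z with
      | nil =>
        refine ⟨1, [], by simp, by simp, ⟨fun g _ => smul_one g, ∅, by simp, Subring.one_mem _⟩,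
          by simp⟩
      | cons z Z' =>
        refine ⟨z, Z', by simp, by simpa using hZ, hZp z (by simp),
          fun y hy => hZp y (by simp [hy])⟩
    obtain ⟨hw, ⟨l, hwl⟩, hq, Sq, hSq, hqS⟩ := hP q (by simp)
    obtain ⟨hzi, Sz, hSz, hzS⟩ := hz
    obtain ⟨Sx, hSx, hxS⟩ := hxS
    have e1 : x * ((q :: P).map (fun q => RR q.1 J J * q.2)).prod * Z.prod =
        x * RR q.1 J J * ((q.2 * z) * (P.map (fun q => RR q.1 J J * q.2)).prod * Z'.prod) := by
      rw [List.map_cons, List.prod_cons, hzZ]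
      ring
    rw [e1, tr_split hw]
    refine AddSubgroup.sum_mem _ fun M _ => ?_
    have hsai : ∀ g ∈ stabilizer G J, g • sa q.1 M J = sa q.1 M J := by
      intro g hg
      rw [smul_sa hw, mem_stabilizer_iff.1 hg]
    have hsbi : ∀ g ∈ stabilizer G J, g • sb q.1 M J = sb q.1 M J := by
      intro g hg
      rw [smul_sb hw, mem_stabilizer_iff.1 hg]
    have hlen2 : (q :: P).length + 1 = 1 + (P.length + 1) := by
      rw [List.length_cons]
      omega
    rw [hlen2]
    refine PM.mul ?_ ?_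
    · refine PM.piece ⟨smul_tr ?_, Sx ∪ {l}, ?_, tr_mem hst ?_⟩
      · intro g hg
        rw [smul_mul', hx g hg, hsai g hg]
      · refine (Finset.card_union_le _ _).trans ?_
        rw [Finset.card_singleton]
        omega
      · exact Subring.mul_mem _ (hmono Finset.subset_union_left hxS)
          (hmono Finset.subset_union_right (sa_mem hwl M J))
    · have e2 : sb q.1 M J * ((q.2 * z) * (P.map (fun q => RR q.1 J J * q.2)).prod * Z'.prod) =
          (sb q.1 M J * (q.2 * z)) * (P.map (fun q => RR q.1 J J * q.2)).prod * Z'.prod := by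
        ring
      rw [e2]
      refine iter hmono hst J K' P Z' _ hlen (fun q hq => hP q (by simp [hq])) hZ' ?_ ?_
      · intro g hg
        rw [smul_mul', smul_mul', hsbi g hg, hq g hg, hzi g hg]
      · refine ⟨{l} ∪ (Sq ∪ Sz), ?_, ?_⟩
        · have h1 := Finset.card_union_le {l} (Sq ∪ Sz)
          have h2 := Finset.card_union_le Sq Sz
          rw [Finset.card_singleton] at h1
          omega
        · refine Subring.mul_mem _ (hmono Finset.subset_union_left (sb_mem hwl M J)) ?_
          refine Subring.mul_mem _ (hmono ?_ hqS) (hmono ?_ hzS)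
          · exact Finset.subset_union_left.trans Finset.subset_union_right
          · exact Finset.subset_union_right.trans Finset.subset_union_right

end Iter

/-- the main statement for the transfer from `H` to `G` with given constants -/
def Good (p : ℕ) (G : Type u) [Group G] [Finite G] (H : Subgroup G) (c K C : ℕ) : Prop :=
  ∀ (A : Type v) [CommRing A] [CharP A p] [MulSemiringAction G A] (Λ : Type) [Fintype Λ]
    [DecidableEq Λ] (𝒜 : Finset Λ → Subring A), Monotone 𝒜 →
    (∀ (g : G) S, ∀ x ∈ 𝒜 S, g • x ∈ 𝒜 S) → ∀ x : Λ → A, (∀ l, ∀ g ∈ H, g • x l = x l) →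
    (∀ l, x l ∈ 𝒜 {l}) → tr H (∏ l, x l ^ p ^ c) ∈ PM G 𝒜 K (C * (Fintype.card Λ + 1))

theorem Good.mono {p : ℕ} [Fact p.Prime] {G : Type u} [Group G] [Finite G] {H : Subgroup G}
    {c K C c' K' C' : ℕ} (h : Good.{u, v} p G H c K C) (hc : c ≤ c') (hK : K ≤ K') (hC : C ≤ C') :
    Good.{u, v} p G H c' K' C' := by
  intro A _ _ _ Λ _ _ 𝒜 hm hst x hx hx'
  obtain ⟨d, rfl⟩ := Nat.exists_eq_add_of_le hc
  have e1 : ∏ l, x l ^ p ^ (c + d) = (∏ l, x l ^ p ^ c) ^ p ^ d := by
    rw [← Finset.prod_pow]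
    refine Finset.prod_congr rfl fun l _ => ?_
    rw [← pow_mul, ← pow_add]
  rw [e1, tr_pow]
  exact PM.mono hK (Nat.mul_le_mul_right _ hC) (PM.frob (h A Λ 𝒜 hm hst x hx hx') d)

theorem good_top {p : ℕ} [Fact p.Prime] {G : Type u} [Group G] [Finite G] :
    Good.{u, v} p G ⊤ 0 1 1 := by
  intro A _ _ _ Λ _ _ 𝒜 hm hst x hx hx'
  have h1 : ∀ g : G, g • (∏ l, x l ^ p ^ 0) = ∏ l, x l ^ p ^ 0 := by
    intro g
    rw [Finset.smul_prod']
    refine Finset.prod_congr rfl fun l _ => ?_
    rw [smul_pow', hx l g (Subgroup.mem_top g)]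
  have h2 : tr (⊤ : Subgroup G) (∏ l, x l ^ p ^ 0) = ∏ l, x l ^ p ^ 0 := by
    rw [tr, Finset.sum_congr rfl (fun c _ => h1 _), Finset.sum_const]
    have : (Finset.univ : Finset (G ⧸ (⊤ : Subgroup G))).card = 1 := by
      rw [Finset.card_univ, Fintype.card_eq_one_iff]
      refine ⟨((1 : G) : G ⧸ (⊤ : Subgroup G)), fun c => ?_⟩
      rw [← QuotientGroup.out_eq' c, QuotientGroup.eq]
      exact Subgroup.mem_top _
    rw [this, one_smul]
  rw [h2]
  have h3 : ∏ l, x l ^ p ^ 0 ∈ PM G 𝒜 1 (Finset.univ : Finset Λ).card := by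
    refine PM.prod (G := G) _ _ (fun l _ => ?_)
    exact Pc.pow (G := G) ⟨fun g => hx l g (Subgroup.mem_top g), {l}, by simp, hx' l⟩ _
  refine PM.mono le_rfl ?_ h3
  rw [Finset.card_univ]
  omega

theorem good_step {p : ℕ} [Fact p.Prime] {G : Type u} [Group G] [Finite G] {c' K' C' : ℕ}
    (hL : ∀ L : Subgroup G, L ≠ ⊤ → ∀ H : Subgroup L, Good.{u, v} p L H c' K' C')
    (H : Subgroup G) : ∃ c K C, Good.{u, v} p G H c K C := by
  classical
  have hp : p.Prime := Fact.out
  obtain ⟨c1, sP, hsP, hdec⟩ := dec p (G ⧸ H)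
  let N := Fintype.card (G ⧸ H)
  let c4 := C' * (2 ^ N + 1)
  have hq4 : C' * (2 ^ N + 1) ≤ p ^ c4 := (Nat.lt_pow_self hp.one_lt).le
  refine ⟨c1 + (c' + c4), K' + 3, p ^ c4, ?_⟩
  intro A _ _ _ Λ _ _ 𝒜 hm hst x hx hx'
  -- the equivariant families
  let w : Λ → (G ⧸ H) → A := fun l o => o.out • x l
  have hw : ∀ l (g : G) o, w l (g • o) = g • w l o := by
    intro l g o
    simp only [w]
    have h1 : ((g * o.out : G) : G ⧸ H) = g • o := by
      rw [← smul_eq_mul, ← MulAction.Quotient.smul_mk, QuotientGroup.out_eq']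
    have h2 := out_smul (H := H) (x := x l) (hx l) (g * o.out)
    rw [h1] at h2
    rw [h2, mul_smul]
  have hwmem : ∀ l o, w l o ∈ 𝒜 {l} := fun l o => hst _ _ _ (hx' l)
  let ev : Λ → MvPolynomial (G ⧸ H) (ZMod p) →+* A := fun l =>
    MvPolynomial.eval₂Hom (ZMod.castHom (dvd_refl p) A) (w l)
  have hev : ∀ l (g : G) f, g • ev l f = ev l (MvPolynomial.rename (MulAction.toPerm g) f) := by
    intro l g f
    have key : (MulSemiringAction.toRingHom G A g).comp (ev l) =
        (ev l).comp (MvPolynomial.rename (MulAction.toPerm g) :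
          MvPolynomial (G ⧸ H) (ZMod p) →ₐ[ZMod p] _).toRingHom := by
      apply MvPolynomial.ringHom_ext'
      · exact RingHom.ext_zmod _ _
      · intro o
        simp [ev, hw]
    have := congrArg (fun F => F f) key
    simpa using this
  have hevmem : ∀ l f, ev l f ∈ 𝒜 {l} := by
    intro l f
    induction f using MvPolynomial.induction_on with
    | C a =>
      simp only [ev, MvPolynomial.eval₂Hom_C]
      rw [← ZMod.natCast_zmod_val a, map_natCast]
      exact natCast_mem _ _
    | add a b ha hb =>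
      rw [map_add]
      exact Subring.add_mem _ ha hb
    | mul_X a o ha =>
      rw [map_mul]
      refine Subring.mul_mem _ ha ?_
      simp only [ev, MvPolynomial.eval₂Hom_X']
      exact hwmem l o
  let σ : Λ → Finset (G ⧸ H) → A := fun l J => ev l (sP J)
  let ρ : Λ → Finset (G ⧸ H) → A := fun l J => RR (w l) J J * σ l J
  have hσ : ∀ l (g : G) J, g • σ l J = σ l (g • J) := by
    intro l g J
    simp only [σ]
    rw [hev, hsP, smul_eq_map]
  have hρ : ∀ l (g : G) J, g • ρ l J = ρ l (g • J) := by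
    intro l g J
    simp only [ρ]
    rw [smul_mul', hσ, smul_RR (hw l)]
  have hσmem : ∀ l J, σ l J ∈ 𝒜 {l} := fun l J => hevmem l _
  have hRmem : ∀ l J, RR (w l) J J ∈ 𝒜 {l} := fun l J => RR_mem (hwmem l) _ _
  have hρmem : ∀ l J, ρ l J ∈ 𝒜 {l} := fun l J => Subring.mul_mem _ (hRmem l J) (hσmem l J)
  have hdec' : ∀ l o, w l o ^ p ^ c1 =
      ∑ J ∈ Finset.univ.filter (fun J : Finset (G ⧸ H) => o ∈ J), ρ l J := by
    intro l o
    have h1 := congrArg (ev l) (hdec o)
    rw [map_pow, map_sum] at h1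
    have h2 : ev l (MvPolynomial.X o) = w l o := by simp [ev]
    rw [h2] at h1
    rw [h1]
    refine Finset.sum_congr rfl fun J _ => ?_
    rw [map_mul, map_RR]
    simp [ev, ρ, σ]
  -- expansion
  let E := p ^ (c' + c4)
  let F : (G ⧸ H) × (Λ → Finset (G ⧸ H)) → A := fun θ => ∏ l, ρ l (θ.2 l) ^ E
  let T : Finset ((G ⧸ H) × (Λ → Finset (G ⧸ H))) :=
    Finset.univ.filter (fun θ => ∀ l, θ.1 ∈ θ.2 l)
  have hexp : tr H (∏ l, x l ^ p ^ (c1 + (c' + c4))) = ∑ θ ∈ T, F θ := by
    rw [tr, Finset.sum_filter, Fintype.sum_prod_type]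
    refine Finset.sum_congr rfl fun o _ => ?_
    rw [Finset.smul_prod']
    have h1 : ∀ l, o.out • x l ^ p ^ (c1 + (c' + c4)) =
        ∑ J ∈ Finset.univ.filter (fun J : Finset (G ⧸ H) => o ∈ J), ρ l J ^ E := by
      intro l
      rw [smul_pow']
      change w l o ^ p ^ (c1 + (c' + c4)) = _
      rw [pow_add, pow_mul, hdec', sum_pow_char_pow]
    rw [Finset.prod_congr rfl (fun l _ => h1 l), Finset.prod_univ_sum, ← Finset.sum_filter]
    refine Finset.sum_congr ?_ (fun τ _ => rfl)
    ext τ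
    simp [Fintype.mem_piFinset]
  rw [hexp]
  -- basic equivariance
  have hFsm : ∀ (g : G) θ, F (g • θ) = g • F θ := by
    intro g θ
    simp only [F, Finset.smul_prod']
    refine Finset.prod_congr rfl fun l _ => ?_
    rw [smul_pow', hρ]
    rfl
  have hTsm : ∀ (g : G), ∀ θ ∈ T, g • θ ∈ T := by
    intro g θ hθ
    rw [Finset.mem_filter] at hθ ⊢
    refine ⟨Finset.mem_univ _, fun l => ?_⟩
    change g • θ.1 ∈ g • θ.2 l
    exact Finset.smul_mem_smul_finset_iff g |>.2 (hθ.2 l)
  -- the invariant data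
  let δ : (Λ → Finset (G ⧸ H)) → Finset Λ × (Λ → Finset Λ) := fun τ =>
    (Finset.univ.filter (fun l => τ l = Finset.univ),
      fun l => Finset.univ.filter (fun l' => τ l' = τ l))
  have hδsm : ∀ (g : G) τ, δ (g • τ) = δ τ := by
    intro g τ
    simp only [δ, Prod.mk.injEq]
    constructor
    · ext l
      simp only [Finset.mem_filter, Finset.mem_univ, true_and, Pi.smul_apply]
      constructor
      · intro h
        have := congrArg (fun J => g⁻¹ • J) h
        simpa using this
      · intro h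
        rw [h]
        simp
    · funext l
      ext l'
      simp only [Finset.mem_filter, Finset.mem_univ, true_and, Pi.smul_apply]
      exact smul_left_cancel_iff g
  rw [← Finset.sum_fiberwise T (fun θ => δ θ.2) F]
  refine AddSubgroup.sum_mem _ fun κ _ => ?_
  rcases (T.filter (fun θ => δ θ.2 = κ)).eq_empty_or_nonempty with hemp | ⟨θ0, hθ0⟩
  · rw [hemp, Finset.sum_empty]
    exact AddSubgroup.zero_mem _
  obtain ⟨Tκ, hTκ⟩ : ∃ Tκ, Tκ = T.filter (fun θ => δ θ.2 = κ) := ⟨_, rfl⟩
  rw [← hTκ] at hθ0 ⊢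
  have hmemκ : ∀ θ, θ ∈ Tκ ↔ θ ∈ T ∧ δ θ.2 = κ := by
    intro θ
    rw [hTκ, Finset.mem_filter]
  have hκ1 : ∀ θ ∈ Tκ, ∀ l, θ.2 l = Finset.univ ↔ l ∈ κ.1 := by
    intro θ hθ l
    rw [← ((hmemκ θ).1 hθ).2]
    simp [δ]
  have hκ2 : ∀ θ ∈ Tκ, ∀ l l', θ.2 l' = θ.2 l ↔ l' ∈ κ.2 l := by
    intro θ hθ l l'
    rw [← ((hmemκ θ).1 hθ).2]
    simp [δ]
  have hTκsm : ∀ (g : G), ∀ θ ∈ Tκ, g • θ ∈ Tκ := by
    intro g θ hθ
    rw [hmemκ] at hθ ⊢
    refine ⟨hTsm g θ hθ.1, ?_⟩
    change δ (g • θ.2) = κ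
    rw [hδsm, hθ.2]
  have hpc : ∀ l, Pc G 𝒜 1 (ρ l Finset.univ ^ E) := by
    intro l
    refine Pc.pow ⟨fun g => ?_, {l}, by simp, hρmem l _⟩ _
    rw [hρ, Finset.smul_finset_univ]
  have hq4pos : 1 ≤ p ^ c4 := Nat.one_le_pow _ _ hp.pos
  by_cases hS0 : κ.1 = Finset.univ
  · -- all sets are everything
    refine AddSubgroup.sum_mem _ fun θ hθ => ?_
    have h1 : F θ = ∏ l, ρ l Finset.univ ^ E := by
      refine Finset.prod_congr rfl fun l _ => ?_
      rw [(hκ1 θ hθ l).2 (by rw [hS0]; exact Finset.mem_univ _)]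
    rw [h1]
    refine PM.mono (K := 1) (m := (Finset.univ : Finset Λ).card) (by omega) ?_
      (PM.prod _ _ (fun l _ => hpc l))
    rw [Finset.card_univ]
    calc Fintype.card Λ ≤ 1 * (Fintype.card Λ + 1) := by omega
      _ ≤ p ^ c4 * (Fintype.card Λ + 1) := Nat.mul_le_mul_right _ hq4pos
  · obtain ⟨l0, hl0⟩ : ∃ l, l ∉ κ.1 := by
      by_contra hcon
      push Not at hcon
      exact hS0 (Finset.eq_univ_iff_forall.2 hcon)
    -- the largest fibre
    obtain ⟨l1, hl1, hmax⟩ := Finset.exists_max_image (Finset.univ.filter (fun l => l ∉ κ.1))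
      (fun l => (κ.2 l).card) ⟨l0, by simp [hl0]⟩
    rw [Finset.mem_filter] at hl1
    have hcard : (Finset.univ.filter (fun l => l ∉ κ.1)).card ≤ (κ.2 l1).card * 2 ^ N := by
      refine (Finset.card_le_mul_card_image (f := θ0.2) _ (κ.2 l1).card ?_).trans ?_
      · intro J hJ
        rw [Finset.mem_image] at hJ
        obtain ⟨l, hl, rfl⟩ := hJ
        refine (Finset.card_le_card ?_).trans (hmax l hl)
        intro l' hl'
        rw [Finset.mem_filter] at hl'
        exact (hκ2 θ0 hθ0 l l').1 hl'.2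
      · refine Nat.mul_le_mul_left _ ?_
        refine (Finset.card_le_univ _).trans ?_
        rw [Fintype.card_finset]
    have hS10 : ∀ l ∈ κ.2 l1, l ∉ κ.1 := by
      intro l hl hl'
      have h1 := (hκ2 θ0 hθ0 l1 l).2 hl
      have h2 := (hκ1 θ0 hθ0 l).2 hl'
      exact hl1.2 ((hκ1 θ0 hθ0 l1).1 (h1 ▸ h2))
    have hl1S1 : l1 ∈ κ.2 l1 := (hκ2 θ0 hθ0 l1 l1).1 rfl
    obtain ⟨S2, hS2⟩ : ∃ S2 : Finset Λ, S2 = Finset.univ.filter
      (fun l => l ∉ κ.1 ∧ l ∉ κ.2 l1) := ⟨_, rfl⟩
    have hS2card : S2.card ≤ (κ.2 l1).card * 2 ^ N := by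
      refine (Finset.card_le_card ?_).trans hcard
      intro l hl
      rw [hS2, Finset.mem_filter] at hl
      simp [hl.2.1]
    have hS2mem : ∀ l, l ∈ S2 ↔ l ∉ κ.1 ∧ l ∉ κ.2 l1 := by
      intro l
      rw [hS2]
      simp
    have hsplit : ∀ f : Λ → A, ∏ l, f l = (∏ l ∈ κ.1, f l) * ((∏ l ∈ κ.2 l1, f l) *
        ∏ l ∈ S2, f l) := by
      intro f
      rw [← Finset.prod_filter_mul_prod_filter_not Finset.univ (fun l => l ∈ κ.1)]
      congr 1
      · exact Finset.prod_congr (by ext l; simp) (fun _ _ => rfl)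
      · rw [← Finset.prod_filter_mul_prod_filter_not (Finset.univ.filter (fun l => l ∉ κ.1))
          (fun l => l ∈ κ.2 l1)]
        congr 1
        · refine Finset.prod_congr ?_ (fun _ _ => rfl)
          ext l
          simp only [Finset.mem_filter, Finset.mem_univ, true_and]
          exact ⟨fun h => h.2, fun h => ⟨hS10 l h, h⟩⟩
        · refine Finset.prod_congr ?_ (fun _ _ => rfl)
          ext l
          rw [hS2mem]
          simp
    have hcards : κ.1.card + (κ.2 l1).card ≤ Fintype.card Λ := by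
      rw [← Finset.card_union_of_disjoint (Finset.disjoint_right.2 hS10)]
      exact Finset.card_le_univ _
    -- sum over the values at `l1`
    obtain ⟨Φ, hΦ⟩ : ∃ Φ : Finset (G ⧸ H) → A, ∀ J, Φ J =
      ∑ θ ∈ Tκ.filter (fun θ => θ.2 l1 = J), F θ := ⟨_, fun J => rfl⟩
    have hsum : ∑ θ ∈ Tκ, F θ = ∑ J : Finset (G ⧸ H), Φ J := by
      rw [← Finset.sum_fiberwise Tκ (fun θ => θ.2 l1) F]
      exact Finset.sum_congr rfl fun J _ => (hΦ J).symm
    rw [hsum]
    refine orbsum (G := G) (Θ := Finset (G ⧸ H)) _ Φ _ Finset.univ rfl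
      ?_ (fun g J _ => Finset.mem_univ _) ?_
    · intro g J _
      rw [hΦ, hΦ, Finset.smul_sum]
      symm
      refine Finset.sum_equiv (MulAction.toPerm g) ?_ ?_
      · intro θ
        simp only [Finset.mem_filter, MulAction.toPerm_apply]
        constructor
        · rintro ⟨h1, h2⟩
          refine ⟨hTκsm g θ h1, ?_⟩
          change g • θ.2 l1 = g • J
          rw [h2]
        · rintro ⟨h1, h2⟩
          have h3 := hTκsm g⁻¹ _ h1
          rw [inv_smul_smul] at h3
          refine ⟨h3, ?_⟩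
          have h4 : g • θ.2 l1 = g • J := h2
          exact smul_left_cancel g h4
      · intro θ _
        rw [MulAction.toPerm_apply, hFsm]
    · intro J _
      obtain ⟨TJ, hTJ⟩ : ∃ TJ, TJ = Tκ.filter (fun θ => θ.2 l1 = J) := ⟨_, rfl⟩
      rw [hΦ, ← hTJ]
      rcases TJ.eq_empty_or_nonempty with hemp | ⟨θ1, hθ1⟩
      · rw [hemp, Finset.sum_empty, tr_zero]
        exact AddSubgroup.zero_mem _
      have hmemJ : ∀ θ, θ ∈ TJ ↔ θ ∈ Tκ ∧ θ.2 l1 = J := by
        intro θ
        rw [hTJ, Finset.mem_filter]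
      have hJuniv : J ≠ Finset.univ := by
        intro h
        have h1 := (hmemJ θ1).1 hθ1
        exact hl1.2 ((hκ1 θ1 h1.1 l1).1 (h1.2.trans h))
      have hJne : θ1.1 ∈ J := by
        have h1 := (hmemJ θ1).1 hθ1
        rw [← h1.2]
        exact (Finset.mem_filter.1 ((hmemκ θ1).1 h1.1).1).2 l1
      have hLtop : stabilizer G J ≠ ⊤ := by
        intro htop
        apply hJuniv
        rw [Finset.eq_univ_iff_forall]
        intro o
        obtain ⟨g, hg⟩ := MulAction.exists_smul_eq G θ1.1 o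
        have h1 : g • J = J := by
          have : g ∈ stabilizer G J := by rw [htop]; exact Subgroup.mem_top g
          exact this
        rw [← h1, ← hg]
        exact Finset.smul_mem_smul_finset_iff g |>.2 hJne
      -- the inner sum
      let Y : A := ∑ θ ∈ TJ, ∏ l : S2, ρ l (θ.2 l) ^ p ^ c'
      have hFJ : ∑ θ ∈ TJ, F θ = (∏ l ∈ κ.1, ρ l Finset.univ ^ E) *
          ((∏ l ∈ κ.2 l1, ρ l J ^ E) * Y ^ p ^ c4) := by
        simp only [Y]
        rw [sum_pow_char_pow, Finset.mul_sum, Finset.mul_sum]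
        refine Finset.sum_congr rfl fun θ hθ => ?_
        have h1 := (hmemJ θ).1 hθ
        simp only [F]
        rw [hsplit]
        congr 1
        · refine Finset.prod_congr rfl fun l hl => ?_
          rw [(hκ1 θ h1.1 l).2 hl]
        · congr 1
          · refine Finset.prod_congr rfl fun l hl => ?_
            rw [(hκ2 θ h1.1 l1 l).2 hl, h1.2]
          · rw [← Finset.prod_pow, Finset.prod_coe_sort S2 (fun l => (ρ l (θ.2 l) ^ p ^ c') ^ p ^ c4)]
            refine Finset.prod_congr rfl fun l hl => ?_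
            simp only [E]
            rw [← pow_mul, ← pow_add]
      rw [hFJ, tr_mul_left]
      swap
      · intro g
        rw [Finset.smul_prod']
        exact Finset.prod_congr rfl fun l _ => (hpc l).1 g
      -- the inner sum in terms of pieces for the stabilizer
      have hY : Y ∈ PM (stabilizer G J) 𝒜 K' (C' * (S2.card + 1)) := by
        refine orbsum (G := stabilizer G J) (Θ := (G ⧸ H) × (Λ → Finset (G ⧸ H))) _
          (fun θ : (G ⧸ H) × (Λ → Finset (G ⧸ H)) => ∏ l : S2, ρ l (θ.2 l) ^ p ^ c') TJ.card TJ rfl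
          ?_ ?_ ?_
        · intro g θ _
          rw [Finset.smul_prod']
          refine Finset.prod_congr rfl fun l _ => ?_
          rw [smul_pow']
          congr 1
          exact (hρ l g (θ.2 l)).symm
        · intro g θ hθ
          rw [hmemJ] at hθ ⊢
          refine ⟨hTκsm g θ hθ.1, ?_⟩
          change (g : G) • θ.2 l1 = J
          rw [hθ.2]
          exact g.2
        · intro θ hθ
          have h1 := hL (stabilizer G J) hLtop (stabilizer (stabilizer G J) θ) A S2
            (fun S => 𝒜 (S.map (Function.Embedding.subtype _)))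
            (fun S S' h => hm (Finset.map_subset_map.2 h))
            (fun g S x hx => hst g _ x hx) (fun l => ρ l (θ.2 l)) (by
              intro l g hg
              have h2 : (g : G) • θ.2 l = θ.2 l := by
                have h3 : g • θ = θ := hg
                exact congrFun (congrArg Prod.snd h3) l
              have h3 := hρ l g (θ.2 l)
              rw [h2] at h3
              exact h3) (by
              intro l
              have := hρmem l (θ.2 l)
              simpa using this)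
          rw [Fintype.card_coe] at h1
          refine AddSubgroup.closure_mono ?_ h1
          rintro y ⟨l, hl, hl', rfl⟩
          refine ⟨l, hl, fun z hz => ?_, rfl⟩
          obtain ⟨h2, S, hS, h3⟩ := hl' z hz
          exact ⟨h2, S.map (Function.Embedding.subtype _), by rwa [Finset.card_map], h3⟩
      have hfin : tr (stabilizer G J) ((∏ l ∈ κ.2 l1, ρ l J ^ E) * Y ^ p ^ c4) ∈
          PM G 𝒜 (K' + 3) ((κ.2 l1).card * p ^ c4 + 1) := by
        let hom : A →+ A := AddMonoidHom.mk' (fun y => tr (stabilizer G J)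
          ((∏ l ∈ κ.2 l1, ρ l J ^ E) * y)) (fun a b => by rw [mul_add, tr_add])
        change Y ^ p ^ c4 ∈ (PM G 𝒜 (K' + 3) ((κ.2 l1).card * p ^ c4 + 1)).comap hom
        refine PM.frob_ind hY _ ?_
        intro Z hZ hZp
        change tr (stabilizer G J) ((∏ l ∈ κ.2 l1, ρ l J ^ E) * (Z.map (· ^ p ^ c4)).prod) ∈
          PM G 𝒜 (K' + 3) ((κ.2 l1).card * p ^ c4 + 1)
        let P : List (((G ⧸ H) → A) × A) := (κ.2 l1).toList.flatMap (fun l =>
          List.replicate (p ^ c4) (w l, RR (w l) J J ^ (p ^ c' - 1) * σ l J ^ p ^ c'))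
        have hPlen : P.length = (κ.2 l1).card * p ^ c4 := by
          simp [P, List.length_flatMap]
        have hPprod : (P.map (fun q => RR q.1 J J * q.2)).prod = ∏ l ∈ κ.2 l1, ρ l J ^ E := by
          have h1 : ∀ L : List Λ, ((L.flatMap (fun l =>
              List.replicate (p ^ c4) (w l, RR (w l) J J ^ (p ^ c' - 1) * σ l J ^ p ^ c'))).map
                (fun q => RR q.1 J J * q.2)).prod = (L.map (fun l => ρ l J ^ E)).prod := by
            intro L
            induction L with
            | nil => simp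
            | cons l L ih =>
              rw [List.flatMap_cons, List.map_append, List.prod_append, ih, List.map_cons,
                List.prod_cons]
              congr 1
              rw [List.map_replicate, List.prod_replicate]
              have hpc' : 1 ≤ p ^ c' := Nat.one_le_pow _ _ hp.pos
              have e5 : RR (w l) J J * (RR (w l) J J ^ (p ^ c' - 1) * σ l J ^ p ^ c') =
                  ρ l J ^ p ^ c' := by
                simp only [ρ]
                rw [← mul_assoc, ← pow_succ', Nat.sub_add_cancel hpc', mul_pow]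
              rw [e5]
              change (ρ l J ^ p ^ c') ^ p ^ c4 = ρ l J ^ p ^ (c' + c4)
              rw [← pow_mul, ← pow_add]
          rw [h1, Finset.prod_map_toList]
        have h2 := iter (G := G) hm hst J K' P (Z.map (· ^ p ^ c4)) 1 (by
          rw [List.length_map, hPlen]
          have hS1pos : 1 ≤ (κ.2 l1).card := Finset.card_pos.2 ⟨l1, hl1S1⟩
          calc Z.length ≤ C' * (S2.card + 1) := hZ
            _ ≤ C' * ((κ.2 l1).card * 2 ^ N + (κ.2 l1).card) :=
              Nat.mul_le_mul_left _ (Nat.add_le_add hS2card hS1pos)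
            _ = (κ.2 l1).card * (C' * (2 ^ N + 1)) := by ring
            _ ≤ (κ.2 l1).card * p ^ c4 := Nat.mul_le_mul_left _ hq4) (by
          intro q hq
          simp only [P, List.mem_flatMap, List.mem_replicate] at hq
          obtain ⟨l, _, _, rfl⟩ := hq
          refine ⟨hw l, ⟨l, hwmem l⟩, ?_, {l}, by simp, ?_⟩
          · intro g hg
            rw [smul_mul', smul_pow', smul_pow', hσ, smul_RR (hw l), mem_stabilizer_iff.1 hg]
          · exact Subring.mul_mem _ (Subring.pow_mem _ (hRmem l J) _)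
              (Subring.pow_mem _ (hσmem l J) _)) (by
          intro z hz
          rw [List.mem_map] at hz
          obtain ⟨z', hz', rfl⟩ := hz
          obtain ⟨h3, S, hS, h4⟩ := hZp z' hz'
          refine ⟨fun g hg => ?_, S, hS, Subring.pow_mem _ h4 _⟩
          rw [smul_pow']
          congr 1
          exact h3 ⟨g, hg⟩) (fun g _ => smul_one g) ⟨∅, by simp, Subring.one_mem _⟩
        rw [one_mul, hPprod, hPlen] at h2
        exact h2
      have hP0 : (∏ l ∈ κ.1, ρ l Finset.univ ^ E) ∈ PM G 𝒜 (K' + 3) κ.1.card :=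
        PM.mono (K := 1) (by omega) le_rfl (PM.prod _ _ (fun l _ => hpc l))
      refine PM.mono le_rfl ?_ (PM.mul hP0 hfin)
      have h5 : κ.1.card ≤ κ.1.card * p ^ c4 := Nat.le_mul_of_pos_right _ hq4pos
      calc κ.1.card + ((κ.2 l1).card * p ^ c4 + 1)
          ≤ κ.1.card * p ^ c4 + ((κ.2 l1).card * p ^ c4 + p ^ c4) := by omega
        _ = p ^ c4 * (κ.1.card + (κ.2 l1).card + 1) := by ring
        _ ≤ p ^ c4 * (Fintype.card Λ + 1) := Nat.mul_le_mul_left _ (by omega)

theorem unif {G : Type u} [Group G] [Finite G] {P : Subgroup G → ℕ → ℕ → ℕ → Prop}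
    (hP : ∀ H c K C c' K' C', P H c K C → c ≤ c' → K ≤ K' → C ≤ C' → P H c' K' C')
    (h : ∀ H, ∃ c K C, P H c K C) : ∃ c K C, ∀ H, P H c K C := by
  classical
  choose c K C hc using h
  have : Fintype (Subgroup G) := Fintype.ofFinite _
  refine ⟨Finset.univ.sup c, Finset.univ.sup K, Finset.univ.sup C, fun H => ?_⟩
  exact hP H _ _ _ _ _ _ (hc H) (Finset.le_sup (Finset.mem_univ H))
    (Finset.le_sup (Finset.mem_univ H)) (Finset.le_sup (Finset.mem_univ H))

theorem good_all (p : ℕ) [Fact p.Prime] : ∀ (n : ℕ) (G : Type u) [Group G] [Finite G],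
    Nat.card G = n → ∃ c K C, ∀ H : Subgroup G, Good.{u, v} p G H c K C := by
  intro n
  induction n using Nat.strong_induction_on with
  | _ n ih =>
    intro G _ _ hn
    have h1 : ∃ c K C, ∀ L : Subgroup G, (L ≠ ⊤ → ∀ H : Subgroup L, Good.{u, v} p L H c K C) := by
      refine unif (P := fun L c K C => L ≠ ⊤ → ∀ H : Subgroup L, Good.{u, v} p L H c K C) ?_ ?_
      · intro L c K C c' K' C' h hc hK hC hL H
        exact (h hL H).mono hc hK hC
      · intro L
        by_cases hL : L = ⊤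
        · exact ⟨0, 0, 0, fun h => absurd hL h⟩
        · have hlt : Nat.card L < n := by
            rw [← hn]
            refine lt_of_le_of_ne (Subgroup.card_le_card_group L) ?_
            intro h
            exact hL (Subgroup.eq_top_of_card_eq L h)
          obtain ⟨c, K, C, h⟩ := ih _ hlt L rfl
          exact ⟨c, K, C, fun _ => h⟩
    obtain ⟨c', K', C', h1⟩ := h1
    refine unif (P := fun H c K C => Good.{u, v} p G H c K C) ?_ ?_
    · intro H c K C c' K' C' h hc hK hC
      exact h.mono hc hK hC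
    · intro H
      exact good_step h1 H

end Q213.PR
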