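import Mathlib

/-!
# Finite extensions in characteristic `p` whose geometric points are determined below

If `S` is finite over the noetherian ring `P` of characteristic `p` and two homomorphisms from `S`
to an algebraically closed field agree as soon as they agree on `P`, then some power `f ^ (p ^ m)`
of every `f : S` comes from `P`, with one exponent `m` for all `f`.
-/

set_option linter.unusedSectionVars false
set_option linter.style.haveILetI false

namespace Q213.PR

universe u

theorem exists_ext {R S Ω : Type*} [CommRing R] [CommRing S] [Algebra R S]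
    [Algebra.IsIntegral R S] [Field Ω] [IsAlgClosed Ω] (φ : R →+* Ω) (q : Ideal S) [q.IsPrime]
    (h : q.comap (algebraMap R S) = RingHom.ker φ) :
    ∃ ψ : S →+* Ω, ψ.comp (algebraMap R S) = φ ∧ RingHom.ker ψ = q := by
  let R' := R ⧸ RingHom.ker φ
  let S' := S ⧸ q
  haveI hkp : (RingHom.ker φ).IsPrime := RingHom.ker_isPrime φ
  haveI : IsDomain R' := Ideal.Quotient.isDomain _
  letI i1 : Algebra R' S' := (Ideal.quotientMap q (algebraMap R S) h.ge).toAlgebra
  letI i2 : Algebra R' Ω := (RingHom.kerLift φ).toAlgebra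
  have inj1 : Function.Injective (algebraMap R' S') := by
    change Function.Injective (Ideal.quotientMap q (algebraMap R S) h.ge)
    exact Ideal.quotientMap_injective' h.le
  have inj2 : Function.Injective (algebraMap R' Ω) := RingHom.kerLift_injective φ
  haveI : FaithfulSMul R' S' := (faithfulSMul_iff_algebraMap_injective R' S').2 inj1
  haveI : FaithfulSMul R' Ω := (faithfulSMul_iff_algebraMap_injective R' Ω).2 inj2
  haveI : Module.IsTorsionFree R' S' := Module.IsTorsionFree.trans_faithfulSMul R' S' S'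
  haveI : Module.IsTorsionFree R' Ω := Module.IsTorsionFree.trans_faithfulSMul R' Ω Ω
  haveI : Algebra.IsIntegral R' S' := by
    refine ⟨fun x => ?_⟩
    obtain ⟨x, rfl⟩ := Ideal.Quotient.mk_surjective x
    obtain ⟨f, hf, hfx⟩ := Algebra.IsIntegral.isIntegral (R := R) x
    refine ⟨f.map (Ideal.Quotient.mk _), hf.map _, ?_⟩
    rw [Polynomial.eval₂_map]
    have e : (algebraMap R' S').comp (Ideal.Quotient.mk (RingHom.ker φ)) =
        (Ideal.Quotient.mk q).comp (algebraMap R S) := by
      ext r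
      rfl
    rw [e, ← Polynomial.hom_eval₂, hfx, map_zero]
  let L : S' →ₐ[R'] Ω := IsAlgClosed.lift
  have hL : Function.Injective L := by
    have hk : RingHom.ker L.toRingHom = ⊥ := by
      apply Ideal.eq_bot_of_comap_eq_bot (R := R')
      rw [eq_bot_iff]
      intro r hr
      have hr' : L (algebraMap R' S' r) = 0 := hr
      rw [AlgHom.commutes] at hr'
      exact inj2 (by rw [hr', map_zero])
    exact (RingHom.injective_iff_ker_eq_bot L.toRingHom).2 hk
  refine ⟨L.toRingHom.comp (Ideal.Quotient.mk q), ?_, ?_⟩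
  · ext r
    change L (Ideal.Quotient.mk q (algebraMap R S r)) = φ r
    have h1 : Ideal.Quotient.mk q (algebraMap R S r) =
        algebraMap R' S' (Ideal.Quotient.mk (RingHom.ker φ) r) := rfl
    rw [h1, AlgHom.commutes]
    rfl
  · ext s
    rw [RingHom.mem_ker]
    change L (Ideal.Quotient.mk q s) = 0 ↔ s ∈ q
    rw [← map_zero L, hL.eq_iff]
    exact Ideal.Quotient.eq_zero_iff_mem

/-- the canonical geometric point with given kernel -/
theorem exists_point {P : Type u} [CommRing P] (q : Ideal P) [q.IsPrime] :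
    RingHom.ker ((algebraMap (FractionRing (P ⧸ q)) (AlgebraicClosure (FractionRing (P ⧸ q)))).comp
      ((algebraMap (P ⧸ q) (FractionRing (P ⧸ q))).comp (Ideal.Quotient.mk q))) = q := by
  ext x
  rw [RingHom.mem_ker, RingHom.comp_apply, RingHom.comp_apply]
  rw [← map_zero (algebraMap (FractionRing (P ⧸ q)) (AlgebraicClosure (FractionRing (P ⧸ q)))),
    (algebraMap (FractionRing (P ⧸ q)) (AlgebraicClosure (FractionRing (P ⧸ q)))).injective.eq_iff,
    ← map_zero (algebraMap (P ⧸ q) (FractionRing (P ⧸ q))),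
    (IsFractionRing.injective (P ⧸ q) (FractionRing (P ⧸ q))).eq_iff]
  exact Ideal.Quotient.eq_zero_iff_mem

variable {p : ℕ} [Fact p.Prime] {P S : Type u} [CommRing P] [CommRing S] [Algebra P S]
  [CharP P p] [CharP S p] [IsNoetherianRing P] [Module.Finite P S]

/-- homomorphisms to algebraically closed fields are determined by their restrictions -/
def Det (P S : Type u) [CommRing P] [CommRing S] [Algebra P S] : Prop :=
  ∀ (Ω : Type u) [Field Ω] [IsAlgClosed Ω] (φ ψ : S →+* Ω),
    φ.comp (algebraMap P S) = ψ.comp (algebraMap P S) → φ = ψ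

theorem Det.uniq (hdet : Det P S) {q1 q2 : Ideal S} [q1.IsPrime] [q2.IsPrime]
    (h : q1.comap (algebraMap P S) = q2.comap (algebraMap P S)) : q1 = q2 := by
  have hk := exists_point (q1.comap (algebraMap P S))
  obtain ⟨ψ1, h1, k1⟩ := exists_ext _ q1 hk.symm
  obtain ⟨ψ2, h2, k2⟩ := exists_ext _ q2 (h.symm.trans hk.symm)
  have := hdet _ ψ1 ψ2 (h1.trans h2.symm)
  rw [← k1, ← k2, this]

/-- powers lie in the image of `P` modulo `a` -/
def Cond (p : ℕ) (P : Type u) {S : Type u} [CommRing P] [CommRing S] [Algebra P S] (a : Ideal S)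
    (m : ℕ) : Prop := ∀ f : S, ∃ x : P, f ^ p ^ m - algebraMap P S x ∈ a

theorem Cond.mono {a : Ideal S} {m : ℕ} (h : Cond p P a m) (k : ℕ) : Cond p P a (m + k) := by
  intro f
  obtain ⟨x, hx⟩ := h f
  refine ⟨x ^ p ^ k, ?_⟩
  rw [pow_add, pow_mul, map_pow, ← sub_pow_char_pow]
  exact Ideal.pow_mem_of_mem _ hx _ (pow_pos (Fact.out : p.Prime).pos _)

theorem cond_not_prime (hdet : Det P S) {a : Ideal S} {x y : S} (hxy : x * y ∈ a) {m : ℕ}
    (hb : Cond p P (a ⊔ Ideal.span {x}) m) (hc : Cond p P (a ⊔ Ideal.span {y}) m) :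
    ∃ m', Cond p P a m' := by
  have hp : p.Prime := Fact.out
  set b := a ⊔ Ideal.span {x} with hbdef
  set c := a ⊔ Ideal.span {y} with hcdef
  have hrad : (b ⊔ c).comap (algebraMap P S) ≤
      (b.comap (algebraMap P S) ⊔ c.comap (algebraMap P S)).radical := by
    rw [Ideal.radical_eq_sInf]
    refine le_sInf ?_
    rintro q ⟨hq, hqp⟩
    haveI := hqp
    obtain ⟨q1, hq1, hp1, hc1⟩ := Ideal.exists_ideal_over_prime_of_isIntegral q b
      (le_sup_left.trans hq)
    obtain ⟨q2, hq2, hp2, hc2⟩ := Ideal.exists_ideal_over_prime_of_isIntegral q c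
      (le_sup_right.trans hq)
    haveI := hp1
    haveI := hp2
    have heq := hdet.uniq (hc1.trans hc2.symm)
    subst heq
    rw [← hc1]
    exact Ideal.comap_mono (sup_le hq1 hq2)
  obtain ⟨M, hM⟩ := Ideal.exists_pow_le_of_le_radical_of_fg hrad
    ((isNoetherianRing_iff_ideal_fg P).1 inferInstance _)
  have hMp : M ≤ p ^ M := (Nat.lt_pow_self hp.one_lt).le
  refine ⟨m + M + 1, fun f => ?_⟩
  obtain ⟨p1, h1⟩ := hb f
  obtain ⟨p2, h2⟩ := hc f
  have h3 : p1 - p2 ∈ (b ⊔ c).comap (algebraMap P S) := by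
    rw [Ideal.mem_comap, map_sub]
    have : algebraMap P S p1 - algebraMap P S p2 =
        -(f ^ p ^ m - algebraMap P S p1) + (f ^ p ^ m - algebraMap P S p2) := by ring
    rw [this]
    exact Ideal.add_mem _ (Ideal.neg_mem_iff _ |>.2 (Ideal.mem_sup_left h1))
      (Ideal.mem_sup_right h2)
  have h4 : (p1 - p2) ^ p ^ M ∈ b.comap (algebraMap P S) ⊔ c.comap (algebraMap P S) :=
    hM (Ideal.pow_le_pow_right hMp (Ideal.pow_mem_pow h3 _))
  obtain ⟨u, hu, v, hv, huv⟩ := Submodule.mem_sup.1 h4
  rw [sub_pow_char_pow] at huv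
  rw [Ideal.mem_comap] at hu hv
  have e1 : f ^ p ^ (m + M) - algebraMap P S (p1 ^ p ^ M - u) ∈ b := by
    have : f ^ p ^ (m + M) - algebraMap P S (p1 ^ p ^ M - u) =
        (f ^ p ^ m - algebraMap P S p1) ^ p ^ M + algebraMap P S u := by
      rw [sub_pow_char_pow, pow_add, pow_mul, map_sub, map_pow]
      ring
    rw [this]
    exact Ideal.add_mem _ (Ideal.pow_mem_of_mem _ h1 _ (pow_pos hp.pos _)) hu
  have e2 : f ^ p ^ (m + M) - algebraMap P S (p1 ^ p ^ M - u) ∈ c := by
    have hpe : p1 ^ p ^ M - u = p2 ^ p ^ M + v := by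
      have : p1 ^ p ^ M = u + v + p2 ^ p ^ M := by rw [huv]; ring
      rw [this]
      ring
    have : f ^ p ^ (m + M) - algebraMap P S (p1 ^ p ^ M - u) =
        (f ^ p ^ m - algebraMap P S p2) ^ p ^ M - algebraMap P S v := by
      rw [hpe, sub_pow_char_pow, pow_add, pow_mul, map_add, map_pow]
      ring
    rw [this]
    exact Ideal.sub_mem _ (Ideal.pow_mem_of_mem _ h2 _ (pow_pos hp.pos _)) hv
  refine ⟨(p1 ^ p ^ M - u) ^ p, ?_⟩
  have e3 : f ^ p ^ (m + M + 1) - algebraMap P S ((p1 ^ p ^ M - u) ^ p) =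
      (f ^ p ^ (m + M) - algebraMap P S (p1 ^ p ^ M - u)) ^ p := by
    have e5 := sub_pow_char (f ^ p ^ (m + M)) (algebraMap P S (p1 ^ p ^ M - u)) (p := p)
    rw [e5, pow_succ, pow_mul, map_pow]
  rw [e3]
  set e := f ^ p ^ (m + M) - algebraMap P S (p1 ^ p ^ M - u)
  have h2p : p = (p - 2) + 2 := by
    have := hp.two_le
    omega
  rw [h2p, pow_add]
  refine Ideal.mul_mem_left _ _ ?_
  obtain ⟨a1, ha1, s1, hs1, hes⟩ := Submodule.mem_sup.1 e1
  obtain ⟨a2, ha2, s2, hs2, het⟩ := Submodule.mem_sup.1 e2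
  obtain ⟨s, rfl⟩ := Ideal.mem_span_singleton'.1 hs1
  obtain ⟨t, rfl⟩ := Ideal.mem_span_singleton'.1 hs2
  have : e ^ 2 = (a1 + s * x) * (a2 + t * y) := by rw [hes, het, sq]
  rw [this]
  have e4 : (a1 + s * x) * (a2 + t * y) = (a2 + t * y) * a1 + s * x * a2 + s * t * (x * y) := by
    ring
  rw [e4]
  exact Ideal.add_mem _ (Ideal.add_mem _ (Ideal.mul_mem_left _ _ ha1) (Ideal.mul_mem_left _ _ ha2))
    (Ideal.mul_mem_left _ _ hxy)

theorem cond_prime (hdet : Det P S) {q : Ideal S} [q.IsPrime]
    (h : ∀ b > q, ∃ m, Cond p P b m) : ∃ m', Cond p P q m' := by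
  classical
  have hp : p.Prime := Fact.out
  let P' := P ⧸ q.comap (algebraMap P S)
  let F := FractionRing P'
  let Ω := AlgebraicClosure F
  have hk := exists_point (q.comap (algebraMap P S))
  set φ : P →+* Ω := (algebraMap F Ω).comp ((algebraMap P' F).comp (Ideal.Quotient.mk _)) with hφ
  obtain ⟨ψ, h1, k1⟩ := exists_ext φ q hk.symm
  haveI : CharP F p := by
    rw [CharP.charP_iff_prime_eq_zero hp]
    have : (p : F) = (algebraMap P' F).comp (Ideal.Quotient.mk (q.comap (algebraMap P S))) (p : P) := by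
      rw [map_natCast]
    rw [this, CharP.cast_eq_zero, map_zero]
  haveI : ExpChar F p := ExpChar.prime hp
  -- each element is purely inseparable
  have key : ∀ s : S, ∃ n : ℕ, ψ s ^ p ^ n ∈ (algebraMap F Ω).range := by
    intro s
    rw [← minpoly.natSepDegree_eq_one_iff_pow_mem p, Polynomial.natSepDegree_eq_of_isAlgClosed
      (E := Ω)]
    rw [Finset.card_eq_one]
    refine ⟨ψ s, ?_⟩
    ext y
    rw [Multiset.mem_toFinset, Finset.mem_singleton]
    have hint : IsIntegral F (ψ s) := Algebra.IsIntegral.isIntegral _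
    rw [Polynomial.mem_aroots]
    constructor
    · rintro ⟨_, hy⟩
      obtain ⟨τ, hτ⟩ := IntermediateField.exists_algHom_of_splits_of_aeval (F := F) (E := Ω)
        (K := Ω) (x := ψ s) (y := y) (fun z => ⟨Algebra.IsIntegral.isIntegral z,
          IsAlgClosed.splits _⟩) hy
      have h2 : (τ.toRingHom.comp ψ).comp (algebraMap P S) = ψ.comp (algebraMap P S) := by
        rw [RingHom.comp_assoc, h1, hφ]
        ext r
        exact τ.commutes _
      have h3 := hdet Ω (τ.toRingHom.comp ψ) ψ h2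
      rw [← hτ]
      exact congrArg (fun g => g s) h3
    · rintro rfl
      exact ⟨minpoly.ne_zero hint, minpoly.aeval F (ψ s)⟩
  -- finitely many generators
  obtain ⟨t, ht⟩ := (Module.Finite.fg_top : (⊤ : Submodule P S).FG)
  choose n hn using key
  let m := t.sup n
  have hm : ∀ s ∈ t, ψ s ^ p ^ m ∈ (algebraMap F Ω).range := by
    intro s hs
    obtain ⟨d, hd⟩ := Nat.exists_eq_add_of_le (Finset.le_sup (f := n) hs)
    change ψ s ^ p ^ (t.sup n) ∈ _
    rw [hd, pow_add, pow_mul]
    exact Subring.pow_mem _ (hn s) _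
  -- common denominator
  have hden : ∀ T : Finset S, T ⊆ t → ∃ c : P, c ∉ q.comap (algebraMap P S) ∧ ∀ s ∈ T, ∃ x : P,
      φ c * ψ s ^ p ^ m = φ x := by
    intro T
    induction T using Finset.induction_on with
    | empty =>
      intro _
      exact ⟨1, fun h => (Ideal.IsPrime.ne_top inferInstance : q.comap (algebraMap P S) ≠ ⊤)
        ((Ideal.eq_top_iff_one _).2 h), by simp⟩
    | insert s T _ ih =>
      intro hT
      obtain ⟨c, hc, hcT⟩ := ih (fun z hz => hT (Finset.mem_insert_of_mem hz))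
      obtain ⟨y, hy⟩ := hm s (hT (Finset.mem_insert_self _ _))
      obtain ⟨a, b, hb, hab⟩ := IsFractionRing.div_surjective (A := P') y
      obtain ⟨a, rfl⟩ := Ideal.Quotient.mk_surjective a
      obtain ⟨b, rfl⟩ := Ideal.Quotient.mk_surjective b
      have hb' : b ∉ q.comap (algebraMap P S) := by
        intro h
        have := nonZeroDivisors.ne_zero hb
        exact this (Ideal.Quotient.eq_zero_iff_mem.2 h)
      have hφb : φ b ≠ 0 := by
        intro h
        apply hb'
        rw [← hk]
        exact h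
      have hs : φ b * ψ s ^ p ^ m = φ a := by
        rw [← hy, ← hab, map_div₀]
        have e1 : φ a = algebraMap F Ω (algebraMap P' F (Ideal.Quotient.mk _ a)) := rfl
        have e2 : φ b = algebraMap F Ω (algebraMap P' F (Ideal.Quotient.mk _ b)) := rfl
        rw [e1, e2]
        rw [e2] at hφb
        exact mul_div_cancel₀ _ hφb
      refine ⟨c * b, ?_, ?_⟩
      · intro h
        rcases Ideal.IsPrime.mem_or_mem inferInstance h with h | h
        · exact hc h
        · exact hb' h
      · intro z hz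
        rw [Finset.mem_insert] at hz
        rcases hz with rfl | hz
        · refine ⟨c * a, ?_⟩
          rw [map_mul, map_mul, mul_assoc, hs]
        · obtain ⟨x, hx⟩ := hcT z hz
          refine ⟨b * x, ?_⟩
          rw [map_mul, map_mul, ← hx]
          ring
  obtain ⟨c, hc, hct⟩ := hden t (Finset.Subset.refl _)
  have hall : ∀ f : S, ∃ x : P, φ c * ψ f ^ p ^ m = φ x := by
    intro f
    have hf : f ∈ Submodule.span P (t : Set S) := by rw [ht]; trivial
    induction hf using Submodule.span_induction with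
    | mem s hs => exact hct s hs
    | zero => exact ⟨0, by rw [map_zero, map_zero, zero_pow (pow_pos hp.pos _).ne', mul_zero]⟩
    | add a b _ _ ha hb =>
      obtain ⟨x, hx⟩ := ha
      obtain ⟨y, hy⟩ := hb
      haveI : CharP Ω p := charP_of_injective_algebraMap (algebraMap F Ω).injective p
      exact ⟨x + y, by rw [map_add, map_add, add_pow_char_pow, mul_add, hx, hy]⟩
    | smul r a _ ha =>
      obtain ⟨x, hx⟩ := ha
      refine ⟨r ^ p ^ m * x, ?_⟩
      have e1 : ψ (r • a) = φ r * ψ a := by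
        rw [Algebra.smul_def, map_mul, ← h1]
        rfl
      rw [e1, mul_pow, map_mul, map_pow, ← hx]
      ring
  -- descend
  have hall' : ∀ f : S, ∃ x : P, algebraMap P S c * f ^ p ^ m - algebraMap P S x ∈ q := by
    intro f
    obtain ⟨x, hx⟩ := hall f
    refine ⟨x, ?_⟩
    rw [← k1, RingHom.mem_ker, map_sub, map_mul, map_pow]
    have e1 : ∀ r, ψ (algebraMap P S r) = φ r := fun r => by rw [← h1]; rfl
    rw [e1, e1, hx, sub_self]
  have hcq : algebraMap P S c ∉ q := hc
  obtain ⟨m2, hm2⟩ := h (q ⊔ Ideal.span {algebraMap P S c}) (by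
    refine lt_of_le_of_ne le_sup_left ?_
    intro heq
    apply hcq
    rw [heq]
    exact Ideal.mem_sup_right (Ideal.mem_span_singleton_self _))
  refine ⟨m2 + m, fun f => ?_⟩
  obtain ⟨x, hx⟩ := hm2 f
  obtain ⟨a, ha, s', hs', has⟩ := Submodule.mem_sup.1 hx
  obtain ⟨s, rfl⟩ := Ideal.mem_span_singleton'.1 hs'
  obtain ⟨x', hx'⟩ := hall' s
  refine ⟨x ^ p ^ m + c ^ (p ^ m - 1) * x', ?_⟩
  have hpm : 1 ≤ p ^ m := Nat.one_le_pow _ _ hp.pos
  have e1 : f ^ p ^ (m2 + m) - algebraMap P S (x ^ p ^ m + c ^ (p ^ m - 1) * x') =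
      a ^ p ^ m + algebraMap P S c ^ (p ^ m - 1) *
        (algebraMap P S c * s ^ p ^ m - algebraMap P S x') := by
    have e2 : f ^ p ^ (m2 + m) = (a + s * algebraMap P S c) ^ p ^ m + algebraMap P S x ^ p ^ m := by
      rw [has, sub_pow_char_pow, pow_add, pow_mul]
      ring
    rw [e2, add_pow_char_pow, mul_pow, map_add, map_mul, map_pow, map_pow]
    have e3 : algebraMap P S c ^ p ^ m = algebraMap P S c ^ (p ^ m - 1) * algebraMap P S c := by
      rw [← pow_succ, Nat.sub_add_cancel hpm]
    rw [e3]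
    ring
  rw [e1]
  exact Ideal.add_mem _ (Ideal.pow_mem_of_mem _ ha _ (pow_pos hp.pos _))
    (Ideal.mul_mem_left _ _ hx')

/-- the lemma -/
theorem exists_pow_mem (hdet : Det P S) :
    ∃ m, ∀ f : S, ∃ x : P, f ^ p ^ m = algebraMap P S x := by
  haveI : IsNoetherianRing S := IsNoetherianRing.of_finite P S
  have key : ∀ a : Ideal S, ∃ m, Cond p P a m := by
    intro a
    induction a using IsNoetherian.induction with
    | _ a ih =>
      by_cases htop : a = ⊤
      · subst htop
        exact ⟨0, fun f => ⟨0, trivial⟩⟩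
      by_cases hpr : Ideal.IsPrime a
      · haveI := hpr
        exact cond_prime hdet ih
      · rw [Ideal.isPrime_iff] at hpr
        push Not at hpr
        obtain ⟨x, y, hxy, hx, hy⟩ := hpr htop
        have hlt : ∀ z, z ∉ a → a < a ⊔ Ideal.span {z} := by
          intro z hz
          refine lt_of_le_of_ne le_sup_left ?_
          intro heq
          apply hz
          rw [heq]
          exact Ideal.mem_sup_right (Ideal.mem_span_singleton_self _)
        obtain ⟨m1, h1⟩ := ih _ (hlt x hx)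
        obtain ⟨m2, h2⟩ := ih _ (hlt y hy)
        have h1' := h1.mono m2
        have h2' := h2.mono m1
        rw [add_comm] at h2'
        exact cond_not_prime hdet hxy h1' h2'
  obtain ⟨m, hm⟩ := key ⊥
  refine ⟨m, fun f => ?_⟩
  obtain ⟨x, hx⟩ := hm f
  exact ⟨x, sub_eq_zero.1 ((Submodule.mem_bot S).1 hx)⟩

end Q213.PR
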