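import Pool.Agent.Q213.PRd

/-!
# Polarizations: finiteness and separation

For a fixed number of copies, the `p`-root closure of the algebra of polarizations is the algebra
of invariants, with a uniform exponent.
-/

set_option linter.unusedSectionVars false
set_option linter.style.haveILetI false

namespace Q213.PR

open MvPolynomial

section Separation

/-- Two homomorphisms to a domain which agree on the invariants of a finite group differ, on a
finite family, by an element of the group. -/
theorem sep {G B D ι : Type*} [Group G] [Finite G] [CommRing B] [CommRing D] [IsDomain D]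
    [Fintype ι] [DecidableEq ι] [MulSemiringAction G B] (x : ι → B) (φ ψ : B →+* D)
    (h : ∀ b : B, (∀ g : G, g • b = b) → φ b = ψ b) : ∃ g : G, ∀ a, ψ (x a) = φ (g • x a) := by
  classical
  have := Fintype.ofFinite G
  let Θ : MvPolynomial (Option ι) B := ∏ g : G, (X none - ∑ a, X (some a) * C (g • x a))
  have hΘ : ∀ g : G, MvPolynomial.map (MulSemiringAction.toRingHom G B g) Θ = Θ := by
    intro g
    simp only [Θ, map_prod, map_sub, map_sum, map_mul, map_X, map_C,
      MulSemiringAction.toRingHom_apply, smul_smul]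
    exact Fintype.prod_equiv (Equiv.mulLeft g) _ _ (fun g' => rfl)
  have hmap : MvPolynomial.map φ Θ = MvPolynomial.map ψ Θ := by
    ext d
    rw [coeff_map, coeff_map]
    apply h
    intro g
    have := congrArg (fun f => coeff d f) (hΘ g)
    simp only [coeff_map, MulSemiringAction.toRingHom_apply] at this
    exact this
  let τ : MvPolynomial (Option ι) D →ₐ[D] MvPolynomial ι D :=
    aeval (fun o => o.elim (∑ a, X a * C (ψ (x a))) X)
  have h1 : τ (MvPolynomial.map ψ Θ) = 0 := by
    simp only [Θ, map_prod, map_sub, map_sum, map_mul, map_X, map_C, τ, aeval_X, Option.elim,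
      algHom_C, algebraMap_eq]
    refine Finset.prod_eq_zero (Finset.mem_univ (1 : G)) ?_
    simp
  rw [← hmap] at h1
  simp only [Θ, map_prod, map_sub, map_sum, map_mul, map_X, map_C, τ, aeval_X, Option.elim,
      algHom_C, algebraMap_eq] at h1
  obtain ⟨g, _, hg⟩ := Finset.prod_eq_zero_iff.1 h1
  refine ⟨g, fun a => ?_⟩
  rw [sub_eq_zero] at hg
  have h2 : ∀ c : ι → D, coeff (Finsupp.single a 1) (∑ b, X b * C (c b) : MvPolynomial ι D) =
      c a := by
    intro c
    rw [coeff_sum, Finset.sum_eq_single a]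
    · rw [mul_comm, coeff_C_mul, coeff_X, if_pos rfl, mul_one]
    · intro b _ hb
      rw [mul_comm, coeff_C_mul, coeff_X, if_neg, mul_zero]
      intro hab
      exact hb (Finsupp.single_left_injective one_ne_zero hab)
    · intro h
      exact absurd (Finset.mem_univ _) h
  have h3 := congrArg (coeff (Finsupp.single a 1)) hg
  rw [h2, h2] at h3
  exact h3

end Separation

universe u

variable {k : Type u} [Field k] {G : Type*} [Group G] {ι : Type*} [Fintype ι] [DecidableEq ι]

/-- the substitution `v ↦ g v` on polynomial functions on `V` -/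
noncomputable def s1 (M : G →* Matrix ι ι k) (g : G) : MvPolynomial ι k →ₐ[k] MvPolynomial ι k :=
  aeval (fun i => ∑ j, C (M g i j) * X j)

/-- the substitution `v ↦ g v` on polynomial functions on `V^Λ` -/
noncomputable def sL (M : G →* Matrix ι ι k) (Λ : Type) (g : G) :
    MvPolynomial (Λ × ι) k →ₐ[k] MvPolynomial (Λ × ι) k :=
  aeval (fun q => ∑ j, C (M g q.2 j) * X (q.1, j))

variable (M : G →* Matrix ι ι k) (Λ : Type)

theorem s1_X (g : G) (i : ι) : s1 M g (X i) = ∑ j, C (M g i j) * X j := by simp [s1]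

theorem sL_X (g : G) (l : Λ) (i : ι) : sL M Λ g (X (l, i)) = ∑ j, C (M g i j) * X (l, j) := by
  simp [sL]

theorem s1_mul (g h : G) (f : MvPolynomial ι k) : s1 M g (s1 M h f) = s1 M (h * g) f := by
  have key : (s1 M g).comp (s1 M h) = s1 M (h * g) := by
    apply MvPolynomial.algHom_ext
    intro i
    rw [AlgHom.comp_apply, s1_X, s1_X, map_sum]
    have : ∀ j, s1 M g (C (M h i j) * X j) = ∑ l, C (M h i j) * (C (M g j l) * X l) := by
      intro j
      rw [map_mul, s1_X, algHom_C, algebraMap_eq, Finset.mul_sum]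
    rw [Finset.sum_congr rfl (fun j _ => this j), Finset.sum_comm]
    refine Finset.sum_congr rfl fun l _ => ?_
    rw [map_mul, Matrix.mul_apply, map_sum, Finset.sum_mul]
    refine Finset.sum_congr rfl fun j _ => ?_
    rw [map_mul]
    ring
  exact congrArg (fun a => a f) key

theorem sL_mul (g h : G) (f : MvPolynomial (Λ × ι) k) :
    sL M Λ g (sL M Λ h f) = sL M Λ (h * g) f := by
  have key : (sL M Λ g).comp (sL M Λ h) = sL M Λ (h * g) := by
    apply MvPolynomial.algHom_ext
    rintro ⟨l, i⟩
    rw [AlgHom.comp_apply, sL_X, sL_X, map_sum]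
    have : ∀ j, sL M Λ g (C (M h i j) * X (l, j)) =
        ∑ l', C (M h i j) * (C (M g j l') * X (l, l')) := by
      intro j
      rw [map_mul, sL_X, algHom_C, algebraMap_eq, Finset.mul_sum]
    rw [Finset.sum_congr rfl (fun j _ => this j), Finset.sum_comm]
    refine Finset.sum_congr rfl fun l' _ => ?_
    rw [map_mul, Matrix.mul_apply, map_sum, Finset.sum_mul]
    refine Finset.sum_congr rfl fun j _ => ?_
    rw [map_mul]
    ring
  exact congrArg (fun a => a f) key

theorem s1_one (f : MvPolynomial ι k) : s1 M 1 f = f := by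
  have key : s1 M 1 = AlgHom.id k _ := by
    apply MvPolynomial.algHom_ext
    intro i
    rw [s1_X, map_one]
    simp [Matrix.one_apply]
  exact congrArg (fun a => a f) key

theorem sL_one (f : MvPolynomial (Λ × ι) k) : sL M Λ 1 f = f := by
  have key : sL M Λ 1 = AlgHom.id k _ := by
    apply MvPolynomial.algHom_ext
    rintro ⟨l, i⟩
    rw [sL_X, map_one]
    simp [Matrix.one_apply]
  exact congrArg (fun a => a f) key

/-- the action on polynomial functions on `V` -/
@[reducible] noncomputable def act1 : MulSemiringAction G (MvPolynomial ι k) where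
  smul g f := s1 M g⁻¹ f
  one_smul f := by
    change s1 M 1⁻¹ f = f
    rw [inv_one, s1_one]
  mul_smul g h f := by
    change s1 M (g * h)⁻¹ f = s1 M g⁻¹ (s1 M h⁻¹ f)
    rw [s1_mul, mul_inv_rev]
  smul_zero g := map_zero _
  smul_add g := map_add _
  smul_one g := map_one _
  smul_mul g := map_mul _

/-- the action on polynomial functions on `V^Λ` -/
@[reducible] noncomputable def actL : MulSemiringAction G (MvPolynomial (Λ × ι) k) where
  smul g f := sL M Λ g⁻¹ f
  one_smul f := by
    change sL M Λ 1⁻¹ f = f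
    rw [inv_one, sL_one]
  mul_smul g h f := by
    change sL M Λ (g * h)⁻¹ f = sL M Λ g⁻¹ (sL M Λ h⁻¹ f)
    rw [sL_mul, mul_inv_rev]
  smul_zero g := map_zero _
  smul_add g := map_add _
  smul_one g := map_one _
  smul_mul g := map_mul _

/-- the invariants of `V^Λ` -/
noncomputable def Inv : Subalgebra k (MvPolynomial (Λ × ι) k) where
  carrier := {f | ∀ g : G, sL M Λ g f = f}
  mul_mem' := by
    intro a b ha hb g
    rw [map_mul, ha g, hb g]
  add_mem' := by
    intro a b ha hb g
    rw [map_add, ha g, hb g]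
  algebraMap_mem' := by
    intro r g
    rw [AlgHom.commutes]

theorem mem_Inv {f : MvPolynomial (Λ × ι) k} : f ∈ Inv M Λ ↔ ∀ g : G, sL M Λ g f = f := Iff.rfl

variable [Fintype Λ] [DecidableEq Λ]

/-- the polynomial `f (∑ t_l v_l)` -/
noncomputable def pol : MvPolynomial ι k →ₐ[k] MvPolynomial Λ (MvPolynomial (Λ × ι) k) :=
  aeval (fun i => ∑ l, X l * C (X (l, i)))

/-- the algebra of polarizations of invariants -/
noncomputable def PP : Subalgebra k (MvPolynomial (Λ × ι) k) :=
  Algebra.adjoin k {h | ∃ f : MvPolynomial ι k, (∀ g : G, s1 M g f = f) ∧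
    ∃ β : Λ →₀ ℕ, h = coeff β (pol Λ f)}

theorem pol_s1 (g : G) (f : MvPolynomial ι k) :
    MvPolynomial.map (sL M Λ g).toRingHom (pol Λ f) = pol Λ (s1 M g f) := by
  have key : (MvPolynomial.map (sL M Λ g).toRingHom).comp (pol Λ).toRingHom =
      (pol Λ).toRingHom.comp (s1 M g).toRingHom := by
    apply MvPolynomial.ringHom_ext
    · intro r
      simp only [RingHom.comp_apply, AlgHom.toRingHom_eq_coe, RingHom.coe_coe, algHom_C,
        algebraMap_eq]
      rw [MvPolynomial.algebraMap_apply, map_C]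
      simp
    · intro i
      simp only [RingHom.comp_apply, AlgHom.toRingHom_eq_coe, RingHom.coe_coe]
      rw [s1_X, map_sum]
      have h1 : pol Λ (X i : MvPolynomial ι k) = ∑ l, X l * C (X (l, i)) := by simp [pol]
      have h2 : ∀ j, pol Λ (C (M g i j) * X j) = ∑ l, X l * C (C (M g i j) * X (l, j)) := by
        intro j
        rw [map_mul, algHom_C]
        have : pol Λ (X j : MvPolynomial ι k) = ∑ l, X l * C (X (l, j)) := by simp [pol]
        rw [this, Finset.mul_sum]
        refine Finset.sum_congr rfl fun l _ => ?_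
        rw [MvPolynomial.algebraMap_apply, algebraMap_eq, map_mul]
        ring
      rw [h1, Finset.sum_congr rfl (fun j _ => h2 j), Finset.sum_comm, map_sum]
      refine Finset.sum_congr rfl fun l _ => ?_
      rw [map_mul, map_X, map_C, ← Finset.mul_sum, ← map_sum]
      congr 2
      exact sL_X M Λ g l i
  exact congrArg (fun a => a f) key

theorem PP_le : PP M Λ ≤ Inv M Λ := by
  refine Algebra.adjoin_le ?_
  rintro h ⟨f, hf, β, rfl⟩ g
  have h1 := congrArg (coeff β) (pol_s1 M Λ g f)
  rw [hf g, coeff_map] at h1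
  exact h1

/-- restriction to the copy `l` -/
theorem rename_mem (l : Λ) {f : MvPolynomial ι k} (hf : ∀ g : G, s1 M g f = f) :
    rename (fun i => (l, i)) f ∈ PP M Λ := by
  have key : rename (fun i => (l, i)) f =
      eval (fun l' => if l' = l then (1 : MvPolynomial (Λ × ι) k) else 0) (pol Λ f) := by
    have : (rename (fun i => (l, i))).toRingHom =
        (eval (fun l' => if l' = l then (1 : MvPolynomial (Λ × ι) k) else 0)).comp
          (pol (k := k) (ι := ι) Λ).toRingHom := by
      apply MvPolynomial.ringHom_ext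
      · intro r
        simp [MvPolynomial.algebraMap_apply]
      · intro i
        simp [pol]
    exact congrArg (fun a => a f) this
  rw [key, eval_eq]
  refine Subalgebra.sum_mem _ fun d _ => ?_
  refine Subalgebra.mul_mem _ ?_ ?_
  · exact Algebra.subset_adjoin ⟨f, hf, d, rfl⟩
  · refine Subalgebra.prod_mem _ fun l' _ => Subalgebra.pow_mem _ ?_ _
    split_ifs
    · exact Subalgebra.one_mem _
    · exact Subalgebra.zero_mem _

variable [Finite G]

theorem int_X (q : Λ × ι) : IsIntegral (PP M Λ) (X q : MvPolynomial (Λ × ι) k) := by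
  obtain ⟨l, a⟩ := q
  have := Fintype.ofFinite G
  letI := act1 M
  let ν : MvPolynomial ι k →ₐ[k] MvPolynomial (Λ × ι) k := rename (fun i => (l, i))
  let f := MulSemiringAction.charpoly G (X a : MvPolynomial ι k)
  have hf : f.Monic := MulSemiringAction.monic_charpoly G _
  have hfa : f.eval (X a) = 0 := MulSemiringAction.eval_charpoly G _
  have hl : f.map ν.toRingHom ∈ Polynomial.lifts (algebraMap (PP M Λ) (MvPolynomial (Λ × ι) k)) := by
    rw [Polynomial.lifts_iff_coeff_lifts]
    intro n
    rw [Polynomial.coeff_map]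
    have h1 : ν (f.coeff n) ∈ PP M Λ := by
      apply rename_mem
      intro g
      have := MulSemiringAction.smul_coeff_charpoly (X a : MvPolynomial ι k) n g⁻¹
      change s1 M g⁻¹⁻¹ (f.coeff n) = f.coeff n at this
      rwa [inv_inv] at this
    exact ⟨⟨_, h1⟩, rfl⟩
  obtain ⟨q, hq, _, hqm⟩ := Polynomial.lifts_and_degree_eq_and_monic hl (hf.map _)
  refine ⟨q, hqm, ?_⟩
  rw [← Polynomial.eval_map, hq]
  have h2 : (X (l, a) : MvPolynomial (Λ × ι) k) = ν.toRingHom (X a) := by simp [ν]
  rw [h2, Polynomial.eval_map, Polynomial.eval₂_hom, hfa, map_zero]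

theorem isInt : Algebra.IsIntegral (PP M Λ) (MvPolynomial (Λ × ι) k) := by
  refine ⟨fun x => ?_⟩
  induction x using MvPolynomial.induction_on with
  | C r =>
    have : (C r : MvPolynomial (Λ × ι) k) = algebraMap (PP M Λ) _ (algebraMap k _ r) := rfl
    rw [this]
    exact isIntegral_algebraMap
  | add f g hf hg => exact hf.add hg
  | mul_X f q hf => exact hf.mul (int_X M Λ q)

theorem fin1 : Module.Finite (PP M Λ) (MvPolynomial (Λ × ι) k) := by
  haveI := isInt M Λ
  haveI : Algebra.FiniteType (PP M Λ) (MvPolynomial (Λ × ι) k) :=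
    Algebra.FiniteType.of_restrictScalars_finiteType k _ _
  exact Algebra.IsIntegral.finite

theorem noeth : IsNoetherianRing (PP M Λ) := by
  have h1 := fin1 M Λ
  have h2 : (⊤ : Subalgebra k (PP M Λ)).FG :=
    fg_of_fg_of_fg k (PP M Λ) (MvPolynomial (Λ × ι) k) Algebra.FiniteType.out
      h1.fg_top Subtype.val_injective
  exact Algebra.FiniteType.isNoetherianRing k _ (h := ⟨h2⟩)

/-- invariants as an algebra over the polarizations -/
@[reducible] noncomputable def algPS : Algebra (PP M Λ) (Inv M Λ) :=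
  (Subalgebra.inclusion (PP_le M Λ)).toRingHom.toAlgebra

theorem coeff_pol_X (l : Λ) (a : ι) :
    coeff (Finsupp.single l 1) (pol (k := k) Λ (X a)) = X (l, a) := by
  have h1 : pol Λ (X a : MvPolynomial ι k) = ∑ l, X l * C (X (l, a)) := by simp [pol]
  rw [h1, coeff_sum, Finset.sum_eq_single l]
  · rw [mul_comm, coeff_C_mul, coeff_X, if_pos rfl, mul_one]
  · intro b _ hb
    rw [mul_comm, coeff_C_mul, coeff_X, if_neg, mul_zero]
    intro hab
    exact hb (Finsupp.single_left_injective one_ne_zero hab)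
  · intro h
    exact absurd (Finset.mem_univ _) h

theorem det : @Det (PP M Λ) (Inv M Λ) _ _ (algPS M Λ) := by
  letI := algPS M Λ
  intro Ω _ _ φ ψ h
  haveI : IsScalarTower (PP M Λ) (Inv M Λ) (MvPolynomial (Λ × ι) k) :=
    IsScalarTower.of_algebraMap_eq (fun _ => rfl)
  haveI := isInt M Λ
  haveI : Algebra.IsIntegral (Inv M Λ) (MvPolynomial (Λ × ι) k) :=
    Algebra.IsIntegral.tower_top (R := PP M Λ)
  have ext : ∀ χ : Inv M Λ →+* Ω, ∃ X : MvPolynomial (Λ × ι) k →+* Ω,
      X.comp (algebraMap (Inv M Λ) (MvPolynomial (Λ × ι) k)) = χ := by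
    intro χ
    haveI := RingHom.ker_isPrime χ
    have hinj : Function.Injective (algebraMap (Inv M Λ) (MvPolynomial (Λ × ι) k)) :=
      Subtype.val_injective
    obtain ⟨Q, hQp, hQ⟩ := Ideal.exists_ideal_over_prime_of_isIntegral_of_isDomain
      (S := MvPolynomial (Λ × ι) k) (RingHom.ker χ) (by
        rw [(RingHom.injective_iff_ker_eq_bot _).1 hinj]
        exact bot_le)
    obtain ⟨X, h, _⟩ := exists_ext χ Q hQ
    exact ⟨X, h⟩
  obtain ⟨Φ, hΦ⟩ := ext φ
  obtain ⟨Ψ, hΨ⟩ := ext ψ
  have hφ : ∀ s : Inv M Λ, Φ s.1 = φ s := fun s => congrArg (fun a => a s) hΦ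
  have hψ : ∀ s : Inv M Λ, Ψ s.1 = ψ s := fun s => congrArg (fun a => a s) hΨ
  have hP : ∀ x ∈ PP M Λ, Φ x = Ψ x := by
    intro x hx
    have h1 := congrArg (fun a => a ⟨x, hx⟩) h
    have h2 := hφ ⟨x, PP_le M Λ hx⟩
    have h3 := hψ ⟨x, PP_le M Λ hx⟩
    change Φ x = _ at h2
    change Ψ x = _ at h3
    rw [h2, h3]
    exact h1
  have hk : ∀ r : k, Φ (C r) = Ψ (C r) := fun r => hP _ (Subalgebra.algebraMap_mem _ r)
  letI := act1 M
  obtain ⟨g, hg⟩ := sep (G := G) (B := MvPolynomial ι k) (D := MvPolynomial Λ Ω) X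
    ((MvPolynomial.map Φ).comp (pol Λ).toRingHom) ((MvPolynomial.map Ψ).comp (pol Λ).toRingHom) (by
      intro b hb
      ext β
      change coeff β (MvPolynomial.map Φ (pol Λ b)) = coeff β (MvPolynomial.map Ψ (pol Λ b))
      rw [coeff_map, coeff_map]
      refine hP _ (Algebra.subset_adjoin ⟨b, ?_, β, rfl⟩)
      intro g
      have := hb g⁻¹
      change s1 M g⁻¹⁻¹ b = b at this
      rwa [inv_inv] at this)
  have hX : ∀ q : Λ × ι, Ψ (X q) = Φ (sL M Λ g⁻¹ (X q)) := by
    rintro ⟨l, a⟩
    have h1 := congrArg (coeff (Finsupp.single l 1)) (hg a)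
    change coeff _ (MvPolynomial.map Ψ (pol Λ (X a))) =
      coeff _ (MvPolynomial.map Φ (pol Λ (s1 M g⁻¹ (X a)))) at h1
    rw [coeff_map, coeff_map, ← pol_s1, coeff_map, coeff_pol_X] at h1
    exact h1
  have hall : Ψ = Φ.comp (sL M Λ g⁻¹).toRingHom := by
    apply MvPolynomial.ringHom_ext
    · intro r
      change Ψ (C r) = Φ (sL M Λ g⁻¹ (C r))
      rw [algHom_C, algebraMap_eq, hk]
    · intro q
      exact hX q
  ext s
  rw [← hφ, ← hψ, hall]
  change Φ s.1 = Φ (sL M Λ g⁻¹ s.1)
  rw [s.2 g⁻¹]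

theorem exists_d (p : ℕ) [Fact p.Prime] [CharP k p] :
    ∃ d : ℕ, ∀ F ∈ Inv M Λ, F ^ p ^ d ∈ PP M Λ := by
  letI := algPS M Λ
  haveI : IsScalarTower (PP M Λ) (Inv M Λ) (MvPolynomial (Λ × ι) k) :=
    IsScalarTower.of_algebraMap_eq (fun _ => rfl)
  haveI : CharP (PP M Λ) p := charP_of_injective_algebraMap (algebraMap k (PP M Λ)).injective p
  haveI : CharP (Inv M Λ) p := charP_of_injective_algebraMap (algebraMap k (Inv M Λ)).injective p
  haveI := noeth M Λ
  haveI := fin1 M Λ
  haveI : Module.Finite (PP M Λ) (Inv M Λ) :=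
    Module.Finite.of_injective (IsScalarTower.toAlgHom (PP M Λ) (Inv M Λ)
      (MvPolynomial (Λ × ι) k)).toLinearMap Subtype.val_injective
  obtain ⟨m, hm⟩ := exists_pow_mem (p := p) (det M Λ)
  refine ⟨m, fun F hF => ?_⟩
  obtain ⟨x, hx⟩ := hm ⟨F, hF⟩
  have h1 := congrArg Subtype.val hx
  have h2 : F ^ p ^ m = x.1 := h1
  rw [h2]
  exact x.2

end Q213.PR
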