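import Pool.Agent.Q213.PRc
import Pool.Agent.Q213.PRe

/-!
# From transfers to all invariants
-/

set_option linter.unusedSectionVars false
set_option linter.style.haveILetI false

namespace Q213.PR

universe u v w

/-- partial families indexed by the group -/
def Th (G : Type u) (I : Type w) := G → Option I

instance instThAct {G : Type u} [Group G] {I : Type w} : MulAction G (Th G I) where
  smul h φ := fun g => φ (h⁻¹ * g)
  one_smul φ := by
    funext g
    change φ (1⁻¹ * g) = φ g
    rw [inv_one, one_mul]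
  mul_smul h h' φ := by
    funext g
    change φ ((h * h')⁻¹ * g) = φ (h'⁻¹ * (h⁻¹ * g))
    rw [mul_inv_rev, mul_assoc]

theorem Th.smul_apply {G : Type u} [Group G] {I : Type w} (h : G) (φ : Th G I) (g : G) :
    (h • φ) g = φ (h⁻¹ * g) := rfl

open Polynomial in
theorem expand_pow {G : Type u} [Group G] [Fintype G] [DecidableEq G] {A : Type v} [CommRing A]
    [MulSemiringAction G A]
    {I : Type w} [Fintype I] [DecidableEq I] (f : I → A) (hf : ∀ g : G, g • (∑ i, f i) = ∑ i, f i)
    (N : ℕ) :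
    ((Fintype.card G).choose N : A) * (∑ i, f i) ^ N =
      ∑ φ ∈ (Finset.univ : Finset (G → Option I)).filter
        (fun φ => ∑ g, (if φ g = none then 0 else 1) = N),
        ∏ g, (φ g).elim 1 (fun i => g • f i) := by
  have h1 : ∏ g : G, ∑ o : Option I, (C (o.elim 1 (fun i => g • f i)) *
      X ^ (if o = none then 0 else 1) : A[X]) = (1 + C (∑ i, f i) * X) ^ Fintype.card G := by
    rw [← Finset.card_univ, ← Finset.prod_const]
    refine Finset.prod_congr rfl fun g _ => ?_
    rw [Fintype.sum_option]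
    simp only [Option.elim, map_one, if_true, pow_zero, mul_one, reduceCtorEq, if_false, pow_one]
    rw [← Finset.sum_mul, ← map_sum, ← Finset.smul_sum, hf]
  have h2 : ∏ g : G, ∑ o : Option I, (C (o.elim 1 (fun i => g • f i)) *
      X ^ (if o = none then 0 else 1) : A[X]) = ∑ φ : G → Option I,
        C (∏ g, (φ g).elim 1 (fun i => g • f i)) * X ^ (∑ g, (if φ g = none then 0 else 1)) := by
    rw [Finset.prod_univ_sum, Fintype.piFinset_univ]
    refine Finset.sum_congr rfl fun φ _ => ?_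
    rw [Finset.prod_mul_distrib, Finset.prod_pow_eq_pow_sum, map_prod]
  have h3 : ((1 + C (∑ i, f i) * X) ^ Fintype.card G : A[X]).coeff N =
      ((Fintype.card G).choose N : A) * (∑ i, f i) ^ N := by
    have : ((1 + C (∑ i, f i) * X) ^ Fintype.card G : A[X]) =
        ((1 + X) ^ Fintype.card G).comp (C (∑ i, f i) * X) := by simp
    rw [this, comp_C_mul_X_coeff, coeff_one_add_X_pow]
  rw [← h3, ← h1, h2, finsetSum_coeff, Finset.sum_filter]
  refine Finset.sum_congr rfl fun φ _ => ?_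
  rw [coeff_C_mul, coeff_X_pow]
  split_ifs with h4 h5 h5
  · rw [mul_one]
  · exact absurd h4.symm h5
  · exact absurd h5.symm h4
  · rw [mul_zero]

theorem main_abstract (p : ℕ) [Fact p.Prime] (G : Type u) [Group G] [Finite G] :
    ∃ c K M : ℕ, ¬ p ∣ M ∧ ∀ (A : Type v) [CommRing A] [CharP A p] [MulSemiringAction G A]
      (Λ : Type) [Fintype Λ] [DecidableEq Λ] (𝒜 : Finset Λ → Subring A), Monotone 𝒜 →
      (∀ (g : G) S, ∀ x ∈ 𝒜 S, g • x ∈ 𝒜 S) → ∀ (I : Type w) [Fintype I] (u : Λ → I → A),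
      (∀ l i, u l i ∈ 𝒜 {l}) → (∀ g : G, g • (∑ i, ∏ l, u l i) = ∑ i, ∏ l, u l i) →
      ∃ N, (M : A) * (∑ i, ∏ l, u l i) ^ p ^ c ∈ PM G 𝒜 K N := by
  classical
  have hp : p.Prime := Fact.out
  have := Fintype.ofFinite G
  obtain ⟨c, K, C, hgood⟩ := good_all.{u, v} p (Nat.card G) G rfl
  obtain ⟨v, m', hm'p, hmv⟩ := Nat.exists_eq_pow_mul_and_not_dvd (n := Fintype.card G)
    Fintype.card_ne_zero p hp.ne_one
  refine ⟨v + c, K, m' ^ p ^ c, fun h => hm'p (hp.dvd_of_dvd_pow h), ?_⟩
  intro A _ _ _ Λ _ _ 𝒜 hm hst I _ u hu hF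
  refine ⟨C * (Fintype.card Λ + 1), ?_⟩
  set F := ∑ i, ∏ l, u l i with hFdef
  let x : Λ → Th G I → A := fun l φ => ∏ g : G, (φ g).elim 1 (fun i => g • u l i)
  have hx : ∀ l (h : G) φ, x l (h • φ) = h • x l φ := by
    intro l h φ
    have e1 : h • x l φ = ∏ g : G, h • (φ g).elim 1 (fun i => g • u l i) :=
      map_prod (MulSemiringAction.toRingHom G A h) _ _
    rw [e1]
    symm
    refine Fintype.prod_equiv (Equiv.mulLeft h) _ _ (fun g => ?_)
    rw [Equiv.coe_mulLeft, Th.smul_apply, inv_mul_cancel_left]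
    cases φ g with
    | none => simp
    | some i => simp [mul_smul]
  have hxmem : ∀ l φ, x l φ ∈ 𝒜 {l} := by
    intro l φ
    refine Subring.prod_mem _ fun g _ => ?_
    cases φ g with
    | none => exact Subring.one_mem _
    | some i => exact hst g _ _ (hu l i)
  have hexp := expand_pow (G := G) (fun i => ∏ l, u l i) hF (p ^ v)
  have hch : ((Fintype.card G).choose (p ^ v) : A) = (m' : A) := by
    have h1 := choose_mod (p := p) v m'
    rw [← hmv] at h1
    rw [CharP.natCast_eq_natCast A p]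
    exact (ZMod.natCast_eq_natCast_iff _ _ _).1 h1
  rw [hch] at hexp
  have hval : ∀ φ : Th G I, ∏ g, (φ g).elim 1 (fun i => g • ∏ l, u l i) = ∏ l, x l φ := by
    intro φ
    rw [Finset.prod_comm]
    refine Finset.prod_congr rfl fun g _ => ?_
    cases φ g with
    | none => simp
    | some i => exact map_prod (MulSemiringAction.toRingHom G A g) _ _
  let T : Finset (Th G I) := (Finset.univ : Finset (G → Option I)).filter
        (fun φ => ∑ g, (if φ g = none then 0 else 1) = p ^ v)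
  have hT : ∀ φ : Th G I, φ ∈ T ↔ ∑ g, (if φ g = none then 0 else 1) = p ^ v := by
    intro φ
    have : ∀ ψ : G → Option I, ψ ∈ (Finset.univ : Finset (G → Option I)).filter
        (fun φ => ∑ g, (if φ g = none then 0 else 1) = p ^ v) ↔
        ∑ g, (if ψ g = none then 0 else 1) = p ^ v := by
      intro ψ
      simp
    exact this φ
  have hexp2 : (m' : A) * F ^ p ^ v = ∑ φ ∈ T, ∏ l, x l φ := by
    rw [hexp]
    exact Finset.sum_congr rfl fun φ _ => hval φ
  have hexp3 : ((m' ^ p ^ c : ℕ) : A) * F ^ p ^ (v + c) = ∑ φ ∈ T, ∏ l, x l φ ^ p ^ c := by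
    have e1 : ((m' ^ p ^ c : ℕ) : A) * F ^ p ^ (v + c) = ((m' : A) * F ^ p ^ v) ^ p ^ c := by
      rw [mul_pow, ← pow_mul, ← pow_add, Nat.cast_pow]
    rw [e1, hexp2, sum_pow_char_pow]
    refine Finset.sum_congr rfl fun φ _ => ?_
    rw [Finset.prod_pow]
  rw [hexp3]
  refine orbsum (G := G) _ (fun φ => ∏ l, x l φ ^ p ^ c) _ T rfl ?_ ?_ ?_
  · intro g φ _
    have e1 : g • (∏ l, x l φ ^ p ^ c) = ∏ l, g • (x l φ ^ p ^ c) :=
      map_prod (MulSemiringAction.toRingHom G A g) _ _
    rw [e1]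
    refine Finset.prod_congr rfl fun l _ => ?_
    rw [hx, smul_pow']
  · intro h φ hφ
    rw [hT] at hφ ⊢
    rw [← hφ]
    symm
    refine Fintype.sum_equiv (Equiv.mulLeft h) _ _ (fun g => ?_)
    rw [Equiv.coe_mulLeft, Th.smul_apply, inv_mul_cancel_left]
  · intro φ _
    refine hgood (MulAction.stabilizer G φ) A Λ 𝒜 hm hst (fun l => x l φ) ?_ (fun l => hxmem l φ)
    intro l g hg
    rw [← hx, MulAction.mem_stabilizer_iff.1 hg]

end Q213.PR
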