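import Pool.Agent.Q213.PRf

/-!
# The uniform exponent for polarizations
-/

set_option linter.unusedSectionVars false
set_option linter.style.haveILetI false

namespace Q213.PR

open MvPolynomial

theorem coeff_killCompl {σ τ R : Type*} [CommRing R] {f : σ → τ} (hf : Function.Injective f)
    (P : MvPolynomial τ R) (β : σ →₀ ℕ) :
    coeff β (killCompl hf P) = coeff (β.mapDomain f) P := by
  classical
  induction P using MvPolynomial.induction_on' with
  | monomial u a =>
    by_cases hu : ∃ u' : σ →₀ ℕ, u = u'.mapDomain f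
    · obtain ⟨u', rfl⟩ := hu
      rw [← rename_monomial, killCompl_rename_app, coeff_rename_mapDomain _ hf]
    · have h1 : ∃ l ∈ u.support, l ∉ Set.range f := by
        by_contra hcon
        push Not at hcon
        exact hu ⟨_, (Finsupp.mapDomain_comapDomain f hf u (fun l hl => hcon l hl)).symm⟩
      obtain ⟨l, hl, hlr⟩ := h1
      have h2 : killCompl hf (monomial u a) = 0 := by
        rw [killCompl, aeval_monomial, Finsupp.prod, Finset.prod_eq_zero hl, mul_zero]
        rw [dif_neg hlr, zero_pow (Finsupp.mem_support_iff.1 hl)]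
      rw [h2, coeff_zero, coeff_monomial, if_neg]
      intro h
      exact hu ⟨β, h⟩
  | add P Q hP hQ => rw [map_add, coeff_add, coeff_add, hP, hQ]

universe u w

variable {k : Type u} [Field k] {G : Type*} [Group G] {ι : Type w} [Fintype ι] [DecidableEq ι]
  (M : G →* Matrix ι ι k)

section Transport

variable {Λ Λ' : Type} [Fintype Λ] [DecidableEq Λ] [Fintype Λ'] [DecidableEq Λ'] {e : Λ' → Λ}

theorem rename_pol (he : Function.Injective e) (f : MvPolynomial ι k) (β : Λ' →₀ ℕ) :
    rename (Prod.map e id) (coeff β (pol Λ' f)) = coeff (β.mapDomain e) (pol Λ f) := by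
  classical
  have key : (killCompl (R := MvPolynomial (Λ × ι) k) he).toRingHom.comp (pol Λ).toRingHom =
      (MvPolynomial.map (rename (R := k) (Prod.map e (id : ι → ι))).toRingHom).comp
        (pol Λ').toRingHom := by
    apply MvPolynomial.ringHom_ext
    · intro r
      have e1 : pol Λ (C r : MvPolynomial ι k) = C (C r) := by
        rw [algHom_C, MvPolynomial.algebraMap_apply]
        rfl
      have e2 : pol Λ' (C r : MvPolynomial ι k) = C (C r) := by
        rw [algHom_C, MvPolynomial.algebraMap_apply]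
        rfl
      change killCompl he (pol Λ (C r)) = MvPolynomial.map
        (rename (R := k) (Prod.map e (id : ι → ι))).toRingHom (pol Λ' (C r))
      rw [e1, e2, map_C, algHom_C, algebraMap_eq]
      congr 1
      exact (rename_C _ _).symm
    · intro i
      simp only [RingHom.comp_apply, AlgHom.toRingHom_eq_coe, RingHom.coe_coe]
      have h1 : pol Λ (X i : MvPolynomial ι k) = ∑ l, X l * C (X (l, i)) := by simp [pol]
      have h2 : pol Λ' (X i : MvPolynomial ι k) = ∑ l, X l * C (X (l, i)) := by simp [pol]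
      rw [h1, h2, map_sum, map_sum]
      have h3 : ∀ l : Λ', MvPolynomial.map (rename (R := k) (Prod.map e (id : ι → ι))).toRingHom
          (X l * C (X (l, i))) = X l * C (X (e l, i)) := by
        intro l
        rw [map_mul, map_X, map_C]
        simp
      have h4 : ∀ l : Λ', killCompl (R := MvPolynomial (Λ × ι) k) he (X (e l) * C (X (e l, i))) =
          X l * C (X (e l, i)) := by
        intro l
        rw [map_mul, algHom_C, algebraMap_eq]
        have : (X (e l) : MvPolynomial Λ (MvPolynomial (Λ × ι) k)) = rename e (X l) := by simp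
        rw [this, killCompl_rename_app]
      have h5 : ∑ l : Λ, killCompl (R := MvPolynomial (Λ × ι) k) he (X l * C (X (l, i))) =
          ∑ l ∈ Finset.univ.map ⟨e, he⟩, killCompl he (X l * C (X (l, i))) := by
        symm
        refine Finset.sum_subset (Finset.subset_univ _) ?_
        intro l _ hl
        have hlr : l ∉ Set.range e := by
          rintro ⟨l', rfl⟩
          exact hl (Finset.mem_map_of_mem ⟨e, he⟩ (Finset.mem_univ l'))
        rw [map_mul]
        have : killCompl (R := MvPolynomial (Λ × ι) k) he (X l) = 0 := by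
          rw [killCompl, aeval_X, dif_neg hlr]
        rw [this, zero_mul]
      have h6 : ∑ l : Λ, (killCompl (R := MvPolynomial (Λ × ι) k) he) (X l * C (X (l, i))) =
          ∑ l : Λ', X l * C (X (e l, i)) := by
        rw [h5, Finset.sum_map]
        exact Finset.sum_congr rfl fun l _ => h4 l
      exact h6.trans (Finset.sum_congr rfl (fun l _ => h3 l)).symm
  have h1 := congrArg (fun a => coeff β (a f)) key
  change coeff β (killCompl he (pol Λ f)) =
    coeff β (MvPolynomial.map (rename (R := k) (Prod.map e (id : ι → ι))).toRingHom (pol Λ' f)) at h1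
  rw [coeff_killCompl, coeff_map] at h1
  exact h1.symm

theorem rename_sL (g : G) (f : MvPolynomial (Λ' × ι) k) :
    rename (Prod.map e id) (sL M Λ' g f) = sL M Λ g (rename (Prod.map e id) f) := by
  have key : (rename (Prod.map e id)).comp (sL M Λ' g) =
      (sL M Λ g).comp (rename (Prod.map e id)) := by
    apply MvPolynomial.algHom_ext
    rintro ⟨l, i⟩
    rw [AlgHom.comp_apply, AlgHom.comp_apply, sL_X, rename_X, map_sum]
    simp only [Prod.map_apply, id_eq]
    rw [sL_X]
    refine Finset.sum_congr rfl fun j _ => ?_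
    rw [map_mul, rename_C, rename_X]
    rfl
  exact congrArg (fun a => a f) key

theorem rename_PP (he : Function.Injective e) {z : MvPolynomial (Λ' × ι) k} (hz : z ∈ PP M Λ') :
    rename (Prod.map e id) z ∈ PP M Λ := by
  have h1 : PP M Λ' ≤ (PP M Λ).comap (rename (Prod.map e id)) := by
    refine Algebra.adjoin_le ?_
    rintro h ⟨f, hf, β, rfl⟩
    change rename (Prod.map e id) _ ∈ PP M Λ
    rw [rename_pol he]
    exact Algebra.subset_adjoin ⟨f, hf, _, rfl⟩
  exact h1 hz

end Transport

/-- functions of the copies in `S` -/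
noncomputable def 𝒮 (Λ : Type) (S : Finset Λ) : Subring (MvPolynomial (Λ × ι) k) :=
  (supported k {q : Λ × ι | q.1 ∈ S}).toSubring

theorem 𝒮_mono (Λ : Type) : Monotone (𝒮 (k := k) (ι := ι) Λ) := by
  intro S T hST x hx
  have h1 : {q : Λ × ι | q.1 ∈ S} ⊆ {q : Λ × ι | q.1 ∈ T} := fun q hq => hST hq
  exact supported_mono (R := k) h1 hx

theorem 𝒮_stable (Λ : Type) (g : G) (S : Finset Λ) (x : MvPolynomial (Λ × ι) k)
    (hx : x ∈ 𝒮 (k := k) (ι := ι) Λ S) : sL M Λ g x ∈ 𝒮 (k := k) (ι := ι) Λ S := by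
  have h1 : supported k {q : Λ × ι | q.1 ∈ S} ≤
      (supported k {q : Λ × ι | q.1 ∈ S}).comap (sL M Λ g) := by
    refine Algebra.adjoin_le ?_
    rintro _ ⟨⟨l, i⟩, hq, rfl⟩
    change sL M Λ g (X (l, i)) ∈ supported k {q : Λ × ι | q.1 ∈ S}
    rw [sL_X]
    refine Subalgebra.sum_mem _ fun j _ => Subalgebra.mul_mem _ (Subalgebra.algebraMap_mem _ _) ?_
    exact Algebra.subset_adjoin ⟨(l, j), hq, rfl⟩
  exact h1 hx

theorem small (Λ : Type) [Fintype Λ] [DecidableEq Λ] (S : Finset Λ) {n : ℕ}
    (hn : ∀ F ∈ Inv M (Fin S.card), F ^ n ∈ PP M (Fin S.card)) {z : MvPolynomial (Λ × ι) k}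
    (hz : z ∈ Inv M Λ) (hzS : z ∈ 𝒮 (k := k) (ι := ι) Λ S) : z ^ n ∈ PP M Λ := by
  classical
  let e : Fin S.card → Λ := fun i => (S.equivFin.symm i).1
  have he : Function.Injective e := fun i j hij => S.equivFin.symm.injective (Subtype.ext hij)
  have hE : Function.Injective (Prod.map e (id : ι → ι)) := he.prodMap Function.injective_id
  have hvars : (z.vars : Set (Λ × ι)) ⊆ Set.range (Prod.map e (id : ι → ι)) := by
    have h1 : (z.vars : Set (Λ × ι)) ⊆ {q : Λ × ι | q.1 ∈ S} := mem_supported.1 hzS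
    intro q hq
    have h2 : q.1 ∈ S := h1 hq
    refine ⟨(S.equivFin ⟨q.1, h2⟩, q.2), ?_⟩
    ext
    · simp [e]
    · simp
  obtain ⟨z', rfl⟩ := exists_rename_eq_of_vars_subset_range z _ hE hvars
  have hz' : z' ∈ Inv M (Fin S.card) := by
    intro g
    have h1 := hz g
    rw [← rename_sL] at h1
    exact rename_injective _ hE h1
  rw [← map_pow]
  exact rename_PP M he (hn z' hz')

/-- The main theorem. -/
theorem main [Finite G] (p : ℕ) [Fact p.Prime] [CharP k p] :
    ∃ d : ℕ, ∀ (Λ : Type) [Fintype Λ] [DecidableEq Λ] [Nonempty Λ], ∀ F ∈ Inv M Λ,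
      F ^ p ^ d ∈ PP M Λ := by
  classical
  obtain ⟨c, K, m, hm, hmain⟩ := main_abstract.{_, max u w, w} p G
  choose d' hd' using fun j : ℕ => exists_d M (Fin j) p
  let d := (Finset.range (K + 1)).sup d'
  have hd : ∀ j ≤ K, ∀ F ∈ Inv M (Fin j), F ^ p ^ d ∈ PP M (Fin j) := by
    intro j hj F hF
    obtain ⟨a, ha⟩ := Nat.exists_eq_add_of_le
      (Finset.le_sup (f := d') (Finset.mem_range.2 (Nat.lt_succ_of_le hj)))
    change F ^ p ^ ((Finset.range (K + 1)).sup d') ∈ _
    rw [ha, pow_add, pow_mul]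
    exact Subalgebra.pow_mem _ (hd' j F hF) _
  refine ⟨c + d, ?_⟩
  intro Λ _ _ hne F hF
  letI := actL M Λ
  obtain ⟨l0⟩ := hne
  -- expand into monomials
  let u : Λ → F.support → MvPolynomial (Λ × ι) k := fun l μ =>
    (if l = l0 then C (coeff μ.1 F) else 1) * ∏ i, X (l, i) ^ μ.1 (l, i)
  have hFu : F = ∑ μ, ∏ l, u l μ := by
    conv_lhs => rw [F.as_sum]
    rw [← Finset.sum_coe_sort]
    refine Finset.sum_congr rfl fun μ _ => ?_
    simp only [u]
    rw [Finset.prod_mul_distrib, Finset.prod_ite_eq' Finset.univ l0, if_pos (Finset.mem_univ _),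
      monomial_eq, Finsupp.prod_fintype _ _ (fun _ => pow_zero _), Fintype.prod_prod_type]
  have hX : ∀ l i, (X (l, i) : MvPolynomial (Λ × ι) k) ∈ 𝒮 (k := k) (ι := ι) Λ {l} := by
    intro l i
    exact Algebra.subset_adjoin ⟨(l, i), Finset.mem_singleton_self _, rfl⟩
  have hu : ∀ l μ, u l μ ∈ 𝒮 (k := k) (ι := ι) Λ {l} := by
    intro l μ
    refine Subring.mul_mem _ ?_ (Subring.prod_mem _ fun i _ => Subring.pow_mem _ (hX l i) _)
    split_ifs
    · exact Subalgebra.algebraMap_mem (supported k {q : Λ × ι | q.1 ∈ ({l} : Finset Λ)}) _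
    · exact Subring.one_mem _
  obtain ⟨N, hN⟩ := hmain (MvPolynomial (Λ × ι) k) Λ (𝒮 Λ) (𝒮_mono Λ)
    (fun g S x hx => 𝒮_stable M Λ g⁻¹ S x hx) F.support u hu (by
      intro g
      rw [← hFu]
      exact hF g⁻¹)
  rw [← hFu] at hN
  have h1 : ((m : MvPolynomial (Λ × ι) k) * F ^ p ^ c) ^ p ^ d ∈ PP M Λ := by
    refine PM.frob_ind (p := p) hN (PP M Λ).toSubring.toAddSubgroup ?_
    intro l _ hl
    refine Subalgebra.list_prod_mem (PP M Λ) ?_
    intro y hy
    rw [List.mem_map] at hy
    obtain ⟨z, hz, rfl⟩ := hy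
    obtain ⟨hzi, S, hS, hzS⟩ := hl z hz
    refine small M Λ S (hd S.card hS) ?_ hzS
    intro g
    have := hzi g⁻¹
    change sL M Λ g⁻¹⁻¹ z = z at this
    rwa [inv_inv] at this
  have hmk : (m : k) ≠ 0 := by
    intro h
    exact hm ((CharP.cast_eq_zero_iff k p m).1 h)
  have h2 : F ^ p ^ (c + d) = ((m : k) ^ p ^ d)⁻¹ •
      ((m : MvPolynomial (Λ × ι) k) * F ^ p ^ c) ^ p ^ d := by
    rw [mul_pow, ← pow_mul, ← pow_add, smul_eq_C_mul, ← mul_assoc]
    have : C (((m : k) ^ p ^ d)⁻¹) * (m : MvPolynomial (Λ × ι) k) ^ p ^ d = 1 := by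
      rw [← map_natCast (C (σ := Λ × ι) (R := k)), ← C_pow, ← C_mul,
        inv_mul_cancel₀ (pow_ne_zero _ hmk), C_1]
    rw [this, one_mul]
  rw [h2]
  exact Subalgebra.smul_mem _ h1 _

end Q213.PR
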