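import Mathlib

/-!
# Tree orders from a height function and restrictions
-/

namespace Pool.Agent.Q213.ResTree

open Set

universe u

/-- a height function together with restriction maps. -/
structure ResData (X : Type u) where
  h : X → ℝ
  res : X → ℝ → X
  h_nonneg : ∀ x, 0 ≤ h x
  h_res : ∀ x r, 0 ≤ r → r ≤ h x → h (res x r) = r
  res_self : ∀ x, res x (h x) = x
  res_res : ∀ x r s, 0 ≤ s → s ≤ r → r ≤ h x → res (res x r) s = res x s
  res_zero : ∀ x y, res x 0 = res y 0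
  left : ∀ x y r, 0 < r → r ≤ h x → r ≤ h y →
    (∀ s, 0 ≤ s → s < r → res x s = res y s) → res x r = res y r

namespace ResData

variable {X : Type u} (D : ResData X)

/-- the order. -/
@[reducible] def order : PartialOrder X where
  le x y := D.h x ≤ D.h y ∧ D.res y (D.h x) = x
  le_refl x := ⟨le_rfl, D.res_self x⟩
  le_trans x y z hxy hyz := by
    refine ⟨hxy.1.trans hyz.1, ?_⟩
    have h := D.res_res z (D.h y) (D.h x) (D.h_nonneg x) hxy.1 hyz.1
    rw [hyz.2, hxy.2] at h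
    exact h.symm
  le_antisymm x y hxy hyx := by
    have h := le_antisymm hxy.1 hyx.1
    have h2 := hxy.2
    rw [h, D.res_self] at h2
    exact h2.symm

theorem le_iff (x y : X) : letI := D.order; (x ≤ y ↔ D.h x ≤ D.h y ∧ D.res y (D.h x) = x) :=
  Iff.rfl

theorem res_le (x : X) {r : ℝ} (h0 : 0 ≤ r) (h1 : r ≤ D.h x) :
    letI := D.order; D.res x r ≤ x := by
  letI := D.order
  show D.h (D.res x r) ≤ D.h x ∧ D.res x (D.h (D.res x r)) = D.res x r
  rw [D.h_res x r h0 h1]
  exact ⟨h1, rfl⟩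

theorem tree {x y z : X} (hx : letI := D.order; x ≤ z) (hy : letI := D.order; y ≤ z) :
    letI := D.order; x ≤ y ∨ y ≤ x := by
  letI := D.order
  rcases le_total (D.h x) (D.h y) with h | h
  · left
    refine ⟨h, ?_⟩
    have h2 := D.res_res z (D.h y) (D.h x) (D.h_nonneg x) h hy.1
    rw [hy.2, hx.2] at h2
    exact h2
  · right
    refine ⟨h, ?_⟩
    have h2 := D.res_res z (D.h x) (D.h y) (D.h_nonneg y) h hx.1
    rw [hy.2, hx.2] at h2
    exact h2

theorem meet (x y : X) : letI := D.order; ∃ z, IsGLB {x, y} z := by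
  letI := D.order
  let S : Set ℝ := {r | 0 ≤ r ∧ r ≤ D.h x ∧ r ≤ D.h y ∧ D.res x r = D.res y r}
  have h0 : (0 : ℝ) ∈ S := ⟨le_rfl, D.h_nonneg x, D.h_nonneg y, D.res_zero x y⟩
  have hb : BddAbove S := ⟨D.h x, fun r hr => hr.2.1⟩
  have hdown : ∀ r ∈ S, ∀ s, 0 ≤ s → s ≤ r → s ∈ S := by
    intro r hr s hs hsr
    refine ⟨hs, hsr.trans hr.2.1, hsr.trans hr.2.2.1, ?_⟩
    rw [← D.res_res x r s hs hsr hr.2.1, ← D.res_res y r s hs hsr hr.2.2.1, hr.2.2.2]
  let r := sSup S
  have hr0 : 0 ≤ r := le_csSup hb h0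
  have hrx : r ≤ D.h x := csSup_le ⟨0, h0⟩ fun s hs => hs.2.1
  have hry : r ≤ D.h y := csSup_le ⟨0, h0⟩ fun s hs => hs.2.2.1
  have hrS : r ∈ S := by
    rcases hr0.eq_or_lt with h | h
    · rw [← h]; exact h0
    · refine ⟨hr0, hrx, hry, D.left x y r h hrx hry ?_⟩
      intro s hs hsr
      obtain ⟨r', hr', hsr'⟩ := exists_lt_of_lt_csSup ⟨0, h0⟩ hsr
      exact (hdown r' hr' s hs hsr'.le).2.2.2
  refine ⟨D.res x r, ?_, ?_⟩
  · rintro z (rfl | rfl)
    · exact D.res_le _ hr0 hrx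
    · rw [hrS.2.2.2]
      exact D.res_le _ hr0 hry
  · intro w hw
    have hwx : w ≤ x := hw (by simp)
    have hwy : w ≤ y := hw (by simp)
    have hwS : D.h w ∈ S := ⟨D.h_nonneg w, hwx.1, hwy.1, by rw [hwx.2, hwy.2]⟩
    have hwr : D.h w ≤ r := le_csSup hb hwS
    refine ⟨?_, ?_⟩
    · rw [D.h_res x r hr0 hrx]; exact hwr
    · rw [D.res_res x r _ (D.h_nonneg w) hwr hrx, hwx.2]

theorem branch (C : Set X) (hC : letI := D.order; IsMaxChain (· ≤ ·) C) :
    letI := D.order; ∃ I : Set ℝ, I.OrdConnected ∧ Nonempty (C ≃o I) := by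
  letI := D.order
  have hch : IsChain (· ≤ ·) C := hC.1
  have hle : ∀ a ∈ C, ∀ b ∈ C, (a ≤ b ↔ D.h a ≤ D.h b) := by
    intro a ha b hb
    refine ⟨fun h => h.1, fun h => ?_⟩
    rcases hch.total ha hb with h1 | h1
    · exact h1
    · have h2 := le_antisymm h h1.1
      have h3 := h1.2
      rw [← h2, D.res_self] at h3
      rw [h3]
  refine ⟨D.h '' C, ?_, ?_⟩
  · constructor
    rintro _ ⟨a, ha, rfl⟩ _ ⟨b, hb, rfl⟩ r ⟨har, hrb⟩
    have hr0 : 0 ≤ r := (D.h_nonneg a).trans har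
    have hmem : D.res b r ∈ C := by
      have hins : IsChain (· ≤ ·) (insert (D.res b r) C) := by
        refine hch.insert fun c hc _ => ?_
        rcases hch.total hb hc with h1 | h1
        · left
          exact (D.res_le b hr0 hrb).trans h1
        · rcases D.tree (D.res_le b hr0 hrb) h1 with h2 | h2
          · exact Or.inl h2
          · exact Or.inr h2
      have := hC.2 hins (subset_insert _ _)
      rw [this]
      exact mem_insert _ _
    exact ⟨_, hmem, D.h_res b r hr0 hrb⟩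
  · have hinj : InjOn D.h C := by
      intro a ha b hb hab
      exact le_antisymm ((hle a ha b hb).2 hab.le) ((hle b hb a ha).2 hab.ge)
    let e : C ≃ D.h '' C := hinj.bijOn_image.equiv
    refine ⟨⟨e, ?_⟩⟩
    intro a b
    exact (hle a.1 a.2 b.1 b.2).symm

end ResData

end Pool.Agent.Q213.ResTree
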