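import Mathlib

/-!
# Minkowski space: two disjoint planes in normal position

Plane sections of the unit ball of three-space are given by vectors of Minkowski space; two
sections meet if some causal vector is orthogonal to both.
-/

namespace Pool.Agent.Q213.SG

open scoped BigOperators

/-- Minkowski space. -/
abbrev V4 := Fin 4 → ℝ

/-- The Minkowski form. -/
def bil (v w : V4) : ℝ := v 0 * w 0 + v 1 * w 1 + v 2 * w 2 - v 3 * w 3

/-- Two sections have a common point. -/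
def Meets4 (v w : V4) : Prop := ∃ X : V4, X ≠ 0 ∧ bil X X ≤ 0 ∧ bil v X = 0 ∧ bil w X = 0

lemma bil_comm (v w : V4) : bil v w = bil w v := by unfold bil; ring

lemma bil_sub_left (u v w : V4) : bil (u - v) w = bil u w - bil v w := by
  simp only [bil, Pi.sub_apply]; ring

lemma bil_sub_right (u v w : V4) : bil w (u - v) = bil w u - bil w v := by
  simp only [bil, Pi.sub_apply]; ring

lemma bil_smul_left (c : ℝ) (v w : V4) : bil (c • v) w = c * bil v w := by
  simp only [bil, Pi.smul_apply, smul_eq_mul]; ring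

lemma bil_smul_right (c : ℝ) (v w : V4) : bil v (c • w) = c * bil v w := by
  simp only [bil, Pi.smul_apply, smul_eq_mul]; ring

lemma ne_zero_iff (v : V4) : v ≠ 0 ↔ 0 < v 0 ^ 2 + v 1 ^ 2 + v 2 ^ 2 + v 3 ^ 2 := by
  constructor
  · intro h
    by_contra hc
    apply h
    have h0 : v 0 ^ 2 = 0 := by nlinarith [sq_nonneg (v 0), sq_nonneg (v 1), sq_nonneg (v 2), sq_nonneg (v 3)]
    have h1 : v 1 ^ 2 = 0 := by nlinarith [sq_nonneg (v 0), sq_nonneg (v 1), sq_nonneg (v 2), sq_nonneg (v 3)]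
    have h2 : v 2 ^ 2 = 0 := by nlinarith [sq_nonneg (v 0), sq_nonneg (v 1), sq_nonneg (v 2), sq_nonneg (v 3)]
    have h3 : v 3 ^ 2 = 0 := by nlinarith [sq_nonneg (v 0), sq_nonneg (v 1), sq_nonneg (v 2), sq_nonneg (v 3)]
    ext i
    fin_cases i <;> simp_all
  · rintro h rfl
    simp at h

lemma time_ne {v : V4} (h : v ≠ 0) (hc : bil v v ≤ 0) : v 3 ≠ 0 := by
  intro h3
  rw [ne_zero_iff] at h
  unfold bil at hc
  rw [h3] at h hc
  nlinarith

/-- Two orthogonal causal vectors are parallel. -/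
lemma causal_orth {v X : V4} (hv : v ≠ 0) (hvc : bil v v ≤ 0) (hX : X ≠ 0) (hXc : bil X X ≤ 0)
    (h : bil v X = 0) : ∃ c : ℝ, c ≠ 0 ∧ X = c • v := by
  have hv3 := time_ne hv hvc
  have hX3 := time_ne hX hXc
  refine ⟨X 3 / v 3, by positivity, ?_⟩
  have key : (v 3 * X 0 - X 3 * v 0) ^ 2 + (v 3 * X 1 - X 3 * v 1) ^ 2 + (v 3 * X 2 - X 3 * v 2) ^ 2 ≤ 0 := by
    have e : (v 3 * X 0 - X 3 * v 0) ^ 2 + (v 3 * X 1 - X 3 * v 1) ^ 2 + (v 3 * X 2 - X 3 * v 2) ^ 2
        = v 3 ^ 2 * bil X X + X 3 ^ 2 * bil v v - 2 * v 3 * X 3 * bil v X := by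
      unfold bil; ring
    rw [e, h]
    have h1 : v 3 ^ 2 * bil X X ≤ 0 := mul_nonpos_of_nonneg_of_nonpos (sq_nonneg _) hXc
    have h2 : X 3 ^ 2 * bil v v ≤ 0 := mul_nonpos_of_nonneg_of_nonpos (sq_nonneg _) hvc
    linarith
  have h0 : v 3 * X 0 - X 3 * v 0 = 0 := by
    have : (v 3 * X 0 - X 3 * v 0) ^ 2 = 0 := by
      nlinarith [sq_nonneg (v 3 * X 0 - X 3 * v 0), sq_nonneg (v 3 * X 1 - X 3 * v 1), sq_nonneg (v 3 * X 2 - X 3 * v 2)]
    exact pow_eq_zero_iff (two_ne_zero) |>.mp this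
  have h1 : v 3 * X 1 - X 3 * v 1 = 0 := by
    have : (v 3 * X 1 - X 3 * v 1) ^ 2 = 0 := by
      nlinarith [sq_nonneg (v 3 * X 0 - X 3 * v 0), sq_nonneg (v 3 * X 1 - X 3 * v 1), sq_nonneg (v 3 * X 2 - X 3 * v 2)]
    exact pow_eq_zero_iff (two_ne_zero) |>.mp this
  have h2 : v 3 * X 2 - X 3 * v 2 = 0 := by
    have : (v 3 * X 2 - X 3 * v 2) ^ 2 = 0 := by
      nlinarith [sq_nonneg (v 3 * X 0 - X 3 * v 0), sq_nonneg (v 3 * X 1 - X 3 * v 1), sq_nonneg (v 3 * X 2 - X 3 * v 2)]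
    exact pow_eq_zero_iff (two_ne_zero) |>.mp this
  ext i
  fin_cases i
  · simp; field_simp; linarith
  · simp; field_simp; linarith
  · simp; field_simp; linarith
  · simp; field_simp

/-- A section which meets two disjoint sections is a proper disc. -/
lemma spacelike_of {v a b : V4} (hv : v ≠ 0) (ha : Meets4 v a) (hb : Meets4 v b)
    (hab : ¬ Meets4 a b) : 0 < bil v v := by
  by_contra hc
  push Not at hc
  obtain ⟨X, hX, hXc, h1, h2⟩ := ha
  obtain ⟨Y, hY, hYc, h3, h4⟩ := hb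
  obtain ⟨c, hc0, rfl⟩ := causal_orth hv hc hX hXc h1
  obtain ⟨d, hd0, rfl⟩ := causal_orth hv hc hY hYc h3
  apply hab
  refine ⟨v, hv, hc, ?_, ?_⟩
  · rw [bil_smul_right] at h2
    exact (mul_eq_zero.mp h2).resolve_left hc0
  · rw [bil_smul_right] at h4
    exact (mul_eq_zero.mp h4).resolve_left hd0

/-- Lorentz transformations. -/
def IsLor (f : V4 ≃ₗ[ℝ] V4) : Prop := ∀ x y, bil (f x) (f y) = bil x y

lemma IsLor.meets {f : V4 ≃ₗ[ℝ] V4} (hf : IsLor f) (v w : V4) :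
    Meets4 (f v) (f w) ↔ Meets4 v w := by
  constructor
  · rintro ⟨X, hX, h1, h2, h3⟩
    refine ⟨f.symm X, by simpa using hX, ?_, ?_, ?_⟩
    · rw [← hf]; simpa using h1
    · rw [← hf]; simpa using h2
    · rw [← hf]; simpa using h3
  · rintro ⟨X, hX, h1, h2, h3⟩
    refine ⟨f X, by simpa using hX, ?_, ?_, ?_⟩
    · rwa [hf]
    · rwa [hf]
    · rwa [hf]

lemma IsLor.trans {f g : V4 ≃ₗ[ℝ] V4} (hf : IsLor f) (hg : IsLor g) : IsLor (f.trans g) := by
  intro x y
  simp only [LinearEquiv.trans_apply]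
  rw [hg, hf]

/-- The reflection map. -/
noncomputable def rfun (m : V4) : V4 →ₗ[ℝ] V4 where
  toFun x := x - (2 * bil x m / bil m m) • m
  map_add' x y := by
    ext i
    simp only [bil, Pi.add_apply, Pi.sub_apply, Pi.smul_apply, smul_eq_mul]
    ring
  map_smul' c x := by
    ext i
    simp only [bil, Pi.sub_apply, Pi.smul_apply, smul_eq_mul, RingHom.id_apply]
    ring

lemma rfun_apply (m x : V4) : rfun m x = x - (2 * bil x m / bil m m) • m := rfl

lemma rfun_invol {m : V4} (hm : bil m m ≠ 0) : Function.Involutive (rfun m) := by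
  intro x
  rw [rfun_apply, rfun_apply]
  have : bil (x - (2 * bil x m / bil m m) • m) m = - bil x m := by
    rw [bil_sub_left, bil_smul_left]
    field_simp
    ring
  rw [this]
  ext i
  simp only [Pi.sub_apply, Pi.smul_apply, smul_eq_mul]
  ring

/-- The reflection. -/
noncomputable def rfl4 (m : V4) (hm : bil m m ≠ 0) : V4 ≃ₗ[ℝ] V4 :=
  LinearEquiv.ofInvolutive (rfun m) (rfun_invol hm)

lemma rfl4_apply (m : V4) (hm : bil m m ≠ 0) (x : V4) :
    rfl4 m hm x = x - (2 * bil x m / bil m m) • m := rfl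

lemma rfl4_isLor (m : V4) (hm : bil m m ≠ 0) : IsLor (rfl4 m hm) := by
  intro x y
  rw [rfl4_apply, rfl4_apply, bil_sub_left, bil_sub_right, bil_sub_right, bil_smul_left,
    bil_smul_right, bil_smul_left, bil_smul_right, bil_comm m y]
  field_simp
  ring

lemma rfl4_map (x y : V4) (h : bil x x = bil y y) (hm : bil (x - y) (x - y) ≠ 0) :
    rfl4 (x - y) hm x = y := by
  rw [rfl4_apply]
  have : 2 * bil x (x - y) / bil (x - y) (x - y) = 1 := by
    have e : bil (x - y) (x - y) = 2 * bil x (x - y) := by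
      simp only [bil_sub_left, bil_sub_right]
      rw [bil_comm y x, ← h]
      ring
    rw [← e]
    exact div_self hm
  rw [this, one_smul]
  abel

lemma rfl4_fix (m : V4) (hm : bil m m ≠ 0) (x : V4) (h : bil x m = 0) : rfl4 m hm x = x := by
  rw [rfl4_apply, h]
  simp

/-- Every spacelike vector is moved to a multiple of the third basis vector. -/
lemma step1 {v : V4} (hv : 0 < bil v v) :
    ∃ f : V4 ≃ₗ[ℝ] V4, IsLor f ∧ ∃ c : ℝ, c ≠ 0 ∧ f v = c • ![0, 0, 1, 0] := by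
  set r : ℝ := Real.sqrt (bil v v) with hr
  have hr0 : 0 < r := Real.sqrt_pos.mpr hv
  have hr2 : r * r = bil v v := Real.mul_self_sqrt hv.le
  rcases le_or_gt (v 2) 0 with h2 | h2
  · have hy : bil v v = bil (r • ![0, 0, 1, 0] : V4) (r • ![0, 0, 1, 0]) := by
      rw [← hr2]; simp [bil]
    have hm : bil (v - r • ![0, 0, 1, 0]) (v - r • ![0, 0, 1, 0]) ≠ 0 := by
      have e : bil (v - r • ![0, 0, 1, 0]) (v - r • ![0, 0, 1, 0])
          = 2 * (r * r) - 2 * r * v 2 := by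
        have : bil (v - r • ![0, 0, 1, 0]) (v - r • ![0, 0, 1, 0])
          = bil v v + r * r - 2 * r * v 2 := by simp [bil]; ring
        rw [this, ← hr2]; ring
      rw [e]
      have : 0 < r * r := by positivity
      have h3 : r * v 2 ≤ 0 := mul_nonpos_of_nonneg_of_nonpos hr0.le h2
      nlinarith
    exact ⟨rfl4 _ hm, rfl4_isLor _ hm, r, hr0.ne', rfl4_map _ _ hy hm⟩
  · have hy : bil v v = bil ((-r) • ![0, 0, 1, 0] : V4) ((-r) • ![0, 0, 1, 0]) := by
      rw [← hr2]; simp [bil]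
    have hm : bil (v - (-r) • ![0, 0, 1, 0]) (v - (-r) • ![0, 0, 1, 0]) ≠ 0 := by
      have e : bil (v - (-r) • ![0, 0, 1, 0]) (v - (-r) • ![0, 0, 1, 0])
          = 2 * (r * r) + 2 * r * v 2 := by
        have : bil (v - (-r) • ![0, 0, 1, 0]) (v - (-r) • ![0, 0, 1, 0])
          = bil v v + r * r + 2 * r * v 2 := by simp [bil]; ring
        rw [this, ← hr2]; ring
      rw [e]
      positivity
    exact ⟨rfl4 _ hm, rfl4_isLor _ hm, -r, by simpa using hr0.ne', rfl4_map _ _ hy hm⟩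

/-- The boost map. -/
noncomputable def bfun (t s : ℝ) : V4 →ₗ[ℝ] V4 where
  toFun x := ![x 0, x 1, (x 2 + t * x 3) / s, (x 3 + t * x 2) / s]
  map_add' x y := by
    ext i
    fin_cases i <;> simp <;> ring
  map_smul' c x := by
    ext i
    fin_cases i <;> simp <;> ring

lemma bfun_apply (t s : ℝ) (x : V4) :
    bfun t s x = ![x 0, x 1, (x 2 + t * x 3) / s, (x 3 + t * x 2) / s] := rfl

lemma bfun_inv (t s : ℝ) (hs : s ≠ 0) (h : s ^ 2 = 1 - t ^ 2) (x : V4) :
    bfun (-t) s (bfun t s x) = x := by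
  rw [bfun_apply, bfun_apply]
  ext i
  fin_cases i
  · simp
  · simp
  · simp
    field_simp
    rw [h]
    ring
  · simp
    field_simp
    rw [h]
    ring

/-- The boost. -/
noncomputable def boost (t s : ℝ) (hs : s ≠ 0) (h : s ^ 2 = 1 - t ^ 2) : V4 ≃ₗ[ℝ] V4 :=
  { bfun t s with
    invFun := bfun (-t) s
    left_inv := fun x => bfun_inv t s hs h x
    right_inv := fun x => by
      have := bfun_inv (-t) s hs (by rw [h]; ring) x
      rwa [neg_neg] at this }

lemma boost_apply (t s : ℝ) (hs : s ≠ 0) (h : s ^ 2 = 1 - t ^ 2) (x : V4) :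
    boost t s hs h x = ![x 0, x 1, (x 2 + t * x 3) / s, (x 3 + t * x 2) / s] := rfl

lemma boost_isLor (t s : ℝ) (hs : s ≠ 0) (h : s ^ 2 = 1 - t ^ 2) : IsLor (boost t s hs h) := by
  intro x y
  rw [boost_apply, boost_apply]
  simp only [bil]
  simp
  have e : (x 2 + t * x 3) / s * ((y 2 + t * y 3) / s) - (x 3 + t * x 2) / s * ((y 3 + t * y 2) / s)
      = (1 - t ^ 2) / s ^ 2 * (x 2 * y 2 - x 3 * y 3) := by
    field_simp
    ring
  have e2 : (1 - t ^ 2) / s ^ 2 = 1 := by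
    rw [← h]
    exact div_self (by positivity)
  rw [e2] at e
  linarith

/-- Normal position with a signed parameter. -/
lemma normal_signed {v w : V4} (hv : 0 < bil v v) (hw : 0 < bil w w) (h : ¬ Meets4 v w) :
    ∃ f : V4 ≃ₗ[ℝ] V4, IsLor f ∧ ∃ k c c' : ℝ, k ≠ 0 ∧ |k| < 1 ∧ c ≠ 0 ∧ c' ≠ 0 ∧
      f v = c • ![0, 0, 1, k] ∧ f w = c' • ![0, 0, 1, -k] := by
  obtain ⟨f1, hf1, c1, hc1, e1⟩ := step1 hv
  set w' : V4 := f1 w with hw'
  have hww : 0 < bil w' w' := by rw [hw', hf1]; exact hw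
  have hno : w' 0 ^ 2 + w' 1 ^ 2 < w' 3 ^ 2 := by
    by_contra hc
    push Not at hc
    apply h
    rw [← hf1.meets]
    rw [e1]
    by_cases h0 : w' 0 ^ 2 + w' 1 ^ 2 = 0
    · have hw3 : w' 3 = 0 := by
        have : w' 3 ^ 2 ≤ 0 := by linarith
        exact pow_eq_zero_iff (two_ne_zero) |>.mp (le_antisymm this (sq_nonneg _))
      have ha : w' 0 = 0 := by
        have : w' 0 ^ 2 = 0 := by nlinarith [sq_nonneg (w' 0), sq_nonneg (w' 1)]
        exact pow_eq_zero_iff (two_ne_zero) |>.mp this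
      have hb : w' 1 = 0 := by
        have : w' 1 ^ 2 = 0 := by nlinarith [sq_nonneg (w' 0), sq_nonneg (w' 1)]
        exact pow_eq_zero_iff (two_ne_zero) |>.mp this
      refine ⟨![0, 0, 0, 1], ?_, ?_, ?_, ?_⟩
      · rw [ne_zero_iff]; simp
      · simp [bil]
      · simp [bil]
      · rw [← hw']; simp [bil, hw3]
    · have hpos : 0 < w' 0 ^ 2 + w' 1 ^ 2 := lt_of_le_of_ne (by positivity) (Ne.symm h0)
      refine ⟨![w' 0 * w' 3 / (w' 0 ^ 2 + w' 1 ^ 2), w' 1 * w' 3 / (w' 0 ^ 2 + w' 1 ^ 2), 0, 1],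
        ?_, ?_, ?_, ?_⟩
      · rw [ne_zero_iff]; simp; positivity
      · simp only [bil]
        simp
        have : w' 0 * w' 3 / (w' 0 ^ 2 + w' 1 ^ 2) * (w' 0 * w' 3 / (w' 0 ^ 2 + w' 1 ^ 2)) +
          w' 1 * w' 3 / (w' 0 ^ 2 + w' 1 ^ 2) * (w' 1 * w' 3 / (w' 0 ^ 2 + w' 1 ^ 2))
            = w' 3 ^ 2 / (w' 0 ^ 2 + w' 1 ^ 2) := by
          field_simp
        rw [this, div_le_one hpos]
        exact hc
      · simp [bil]
      · rw [← hw']
        simp only [bil]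
        simp
        field_simp
        ring
  -- the second step
  set D : ℝ := w' 3 ^ 2 - w' 0 ^ 2 - w' 1 ^ 2 with hD
  have hDpos : 0 < D := by rw [hD]; linarith
  obtain ⟨β, hβ2, hβs⟩ : ∃ β : ℝ, β ^ 2 = D ∧ β * w' 3 ≤ 0 := by
    rcases le_or_gt (w' 3) 0 with h3 | h3
    · exact ⟨Real.sqrt D, Real.sq_sqrt hDpos.le, mul_nonpos_of_nonneg_of_nonpos (Real.sqrt_nonneg _) h3⟩
    · refine ⟨-Real.sqrt D, by rw [neg_sq]; exact Real.sq_sqrt hDpos.le, ?_⟩
      have := Real.sqrt_nonneg D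
      nlinarith
  have hy : bil w' w' = bil (![0, 0, w' 2, β] : V4) ![0, 0, w' 2, β] := by
    simp only [bil]; simp; nlinarith
  have hm : bil (w' - ![0, 0, w' 2, β]) (w' - ![0, 0, w' 2, β]) ≠ 0 := by
    have e : bil (w' - ![0, 0, w' 2, β]) (w' - ![0, 0, w' 2, β]) = 2 * (β * w' 3) - 2 * β ^ 2 := by
      simp only [bil]; simp; nlinarith
    rw [e, hβ2]
    nlinarith
  set f2 := rfl4 _ hm with hf2
  have hf2L : IsLor f2 := rfl4_isLor _ hm
  have e2 : f2 w' = ![0, 0, w' 2, β] := rfl4_map _ _ hy hm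
  have e2' : f2 (![0, 0, 1, 0] : V4) = ![0, 0, 1, 0] := by
    apply rfl4_fix
    simp [bil]
  have hβ0 : β ≠ 0 := by
    intro h0
    rw [h0] at hβ2
    nlinarith
  have hg : β ^ 2 < w' 2 ^ 2 := by
    unfold bil at hww
    nlinarith
  have hg0 : w' 2 ≠ 0 := by
    intro h0
    rw [h0] at hg
    nlinarith [sq_nonneg β]
  set γ : ℝ := β / w' 2 with hγ
  have hγ0 : γ ≠ 0 := div_ne_zero hβ0 hg0
  have hγ2 : γ ^ 2 < 1 := by
    rw [hγ, div_pow, div_lt_one (by positivity)]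
    exact hg
  set s' : ℝ := Real.sqrt (1 - γ ^ 2) with hs'
  have hs'0 : 0 < s' := Real.sqrt_pos.mpr (by linarith)
  have hs'2 : s' ^ 2 = 1 - γ ^ 2 := Real.sq_sqrt (by linarith)
  set t : ℝ := -(γ / (1 + s')) with ht
  have ht0 : t ≠ 0 := by
    rw [ht]
    exact neg_ne_zero.mpr (div_ne_zero hγ0 (by positivity))
  have htt : t * (1 + s') = -γ := by rw [ht]; field_simp
  have ht2 : t ^ 2 * (1 + s') = 1 - s' := by
    have : t ^ 2 * (1 + s') ^ 2 = (1 - s') * (1 + s') := by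
      have e : t ^ 2 * (1 + s') ^ 2 = (t * (1 + s')) ^ 2 := by ring
      rw [e, htt]
      nlinarith
    have h1 : (0:ℝ) < 1 + s' := by positivity
    have h2 : (t ^ 2 * (1 + s') - (1 - s')) * (1 + s') = 0 := by nlinarith
    rcases mul_eq_zero.mp h2 with h3 | h3
    · linarith
    · exact absurd h3 h1.ne'
  have htlt : t ^ 2 < 1 := by
    have h1 : (0:ℝ) < 1 + s' := by positivity
    by_contra hc
    push Not at hc
    nlinarith
  have habs : |t| < 1 := by
    rw [← sq_lt_one_iff_abs_lt_one]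
    exact htlt
  have hγt : γ * (1 + t ^ 2) = -(2 * t) := by
    have h1 : (0:ℝ) < 1 + s' := by positivity
    have h2 : (γ * (1 + t ^ 2) + 2 * t) * (1 + s') = 0 := by
      have : (γ * (1 + t ^ 2) + 2 * t) * (1 + s') = γ * ((1 + s') + t ^ 2 * (1 + s')) + 2 * (t * (1 + s')) := by
        ring
      rw [this, ht2, htt]
      ring
    rcases mul_eq_zero.mp h2 with h3 | h3
    · linarith
    · exact absurd h3 h1.ne'
  set s : ℝ := Real.sqrt (1 - t ^ 2) with hs
  have hs0 : 0 < s := Real.sqrt_pos.mpr (by linarith)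
  have hs2 : s ^ 2 = 1 - t ^ 2 := Real.sq_sqrt (by linarith)
  set f3 := boost t s hs0.ne' hs2 with hf3
  have hf3L : IsLor f3 := boost_isLor _ _ _ _
  have h1t : 1 + t * γ ≠ 0 := by
    have : |t * γ| < 1 := by
      rw [abs_mul]
      have hγa : |γ| < 1 := by
        rw [← sq_lt_one_iff_abs_lt_one]; exact hγ2
      nlinarith [abs_nonneg t, abs_nonneg γ]
    have := (abs_lt.mp this).1
    intro h0
    linarith
  refine ⟨(f1.trans f2).trans f3, (hf1.trans hf2L).trans hf3L, t, c1 / s, w' 2 * (1 + t * γ) / s,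
    ht0, habs, div_ne_zero hc1 hs0.ne', ?_, ?_, ?_⟩
  · exact div_ne_zero (mul_ne_zero hg0 h1t) hs0.ne'
  · simp only [LinearEquiv.trans_apply]
    rw [e1, map_smul, e2', map_smul, hf3, boost_apply]
    ext i
    fin_cases i <;> simp <;> field_simp
  · simp only [LinearEquiv.trans_apply]
    rw [← hw', e2, hf3, boost_apply]
    have hβg : β = γ * w' 2 := by rw [hγ]; field_simp
    ext i
    fin_cases i
    · simp
    · simp
    · simp
      rw [hβg]
      field_simp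
    · simp
      rw [hβg]
      field_simp
      linear_combination hγt

/-- **Normal position.** -/
theorem normal_form {v w : V4} (hv : 0 < bil v v) (hw : 0 < bil w w) (h : ¬ Meets4 v w) :
    ∃ f : V4 ≃ₗ[ℝ] V4, IsLor f ∧ ∃ k c c' : ℝ, 0 < k ∧ k < 1 ∧ c ≠ 0 ∧ c' ≠ 0 ∧
      f v = c • ![0, 0, 1, k] ∧ f w = c' • ![0, 0, 1, -k] := by
  obtain ⟨f, hf, k, c, c', hk, hk1, hc, hc', e1, e2⟩ := normal_signed hv hw h
  rcases lt_or_gt_of_ne hk with hneg | hpos
  · -- reflect in the third coordinate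
    have hm : bil (![0, 0, 1, 0] : V4) ![0, 0, 1, 0] ≠ 0 := by simp [bil]
    refine ⟨f.trans (rfl4 _ hm), hf.trans (rfl4_isLor _ hm), -k, -c, -c', by linarith, ?_,
      by simpa using hc, by simpa using hc', ?_, ?_⟩
    · have := (abs_lt.mp hk1).1; linarith
    · simp only [LinearEquiv.trans_apply]
      rw [e1, rfl4_apply]
      ext i
      fin_cases i <;> simp [bil] <;> ring
    · simp only [LinearEquiv.trans_apply]
      rw [e2, rfl4_apply]
      ext i
      fin_cases i <;> simp [bil] <;> ring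
  · exact ⟨f, hf, k, c, c', hpos, (abs_lt.mp hk1).2, hc, hc', e1, e2⟩

end Pool.Agent.Q213.SG
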