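import Pool.Agent.Q213.SGa

/-!
# Planes, caps and angles

Points of the ball are pairs `(u, z)` with `u : ℂ`, `z : ℝ`.  A plane is `Re (conj w * u) + c z = d`.
-/

namespace Pool.Agent.Q213.SG

open Complex

/-- A plane in the space `ℂ × ℝ`. -/
@[ext] structure Pl where
  /-- horizontal part of the normal vector -/
  w : ℂ
  /-- vertical part -/
  c : ℝ
  /-- height -/
  d : ℝ

/-- The affine function of a plane. -/
def ell (F : Pl) (u : ℂ) (z : ℝ) : ℝ := F.w.re * u.re + F.w.im * u.im + F.c * z - F.d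

/-- The closed ball. -/
def Ball (u : ℂ) (z : ℝ) : Prop := u.re ^ 2 + u.im ^ 2 + z ^ 2 ≤ 1

/-- Two sections of the ball meet. -/
def M (F G : Pl) : Prop := ∃ (u : ℂ) (z : ℝ), Ball u z ∧ ell F u z = 0 ∧ ell G u z = 0

/-- The plane of a vector. -/
def ofV (v : V4) : Pl := ⟨⟨v 0, v 1⟩, v 2, v 3⟩

/-- The opposite orientation. -/
def ng (F : Pl) : Pl := ⟨-F.w, -F.c, -F.d⟩

lemma ell_ng (F : Pl) (u : ℂ) (z : ℝ) : ell (ng F) u z = - ell F u z := by
  simp [ell, ng]; ring

lemma M_ng_left (F G : Pl) : M (ng F) G ↔ M F G := by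
  unfold M
  simp only [ell_ng, neg_eq_zero]

lemma M_ng_right (F G : Pl) : M F (ng G) ↔ M F G := by
  unfold M
  simp only [ell_ng, neg_eq_zero]

lemma M_comm (F G : Pl) : M F G ↔ M G F := by
  constructor
  · rintro ⟨u, z, h1, h2, h3⟩; exact ⟨u, z, h1, h3, h2⟩
  · rintro ⟨u, z, h1, h2, h3⟩; exact ⟨u, z, h1, h3, h2⟩

lemma M_ofV (v w : V4) : M (ofV v) (ofV w) ↔ Meets4 v w := by
  constructor
  · rintro ⟨u, z, hb, h1, h2⟩
    refine ⟨![u.re, u.im, z, 1], ?_, ?_, ?_, ?_⟩
    · rw [ne_zero_iff]; simp; positivity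
    · unfold Ball at hb
      simp [bil]
      nlinarith
    · simp [bil]
      simpa [ell, ofV] using h1
    · simp [bil]
      simpa [ell, ofV] using h2
  · rintro ⟨X, hX, hc, h1, h2⟩
    have h3 := time_ne hX hc
    refine ⟨⟨X 0 / X 3, X 1 / X 3⟩, X 2 / X 3, ?_, ?_, ?_⟩
    · unfold Ball
      have hp : 0 < X 3 ^ 2 := by positivity
      have : (X 0 / X 3) ^ 2 + (X 1 / X 3) ^ 2 + (X 2 / X 3) ^ 2
          = (X 0 ^ 2 + X 1 ^ 2 + X 2 ^ 2) / X 3 ^ 2 := by
        field_simp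
      simp only
      rw [this, div_le_one hp]
      unfold bil at hc
      nlinarith
    · unfold bil at h1
      simp only [ell, ofV]
      field_simp
      linarith
    · unfold bil at h2
      simp only [ell, ofV]
      field_simp
      linarith

lemma Ball_smul {u u' : ℂ} {z z' a b : ℝ} (h : Ball u z) (h' : Ball u' z') (ha : 0 ≤ a)
    (hb : 0 ≤ b) (hab : a + b = 1) :
    Ball ⟨a * u.re + b * u'.re, a * u.im + b * u'.im⟩ (a * z + b * z') := by
  unfold Ball at *
  simp only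
  have e : (a * u.re + b * u'.re) ^ 2 + (a * u.im + b * u'.im) ^ 2 + (a * z + b * z') ^ 2
      = a * (u.re ^ 2 + u.im ^ 2 + z ^ 2) + b * (u'.re ^ 2 + u'.im ^ 2 + z' ^ 2)
        - a * b * ((u.re - u'.re) ^ 2 + (u.im - u'.im) ^ 2 + (z - z') ^ 2) := by
    have hb' : b = 1 - a := by linarith
    subst hb'
    ring
  rw [e]
  have h1 : 0 ≤ a * b * ((u.re - u'.re) ^ 2 + (u.im - u'.im) ^ 2 + (z - z') ^ 2) := by positivity
  have h2 := mul_le_mul_of_nonneg_left h ha
  have h3 := mul_le_mul_of_nonneg_left h' hb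
  linarith

lemma ell_comb (F : Pl) (u u' : ℂ) (z z' a b : ℝ) (hab : a + b = 1) :
    ell F ⟨a * u.re + b * u'.re, a * u.im + b * u'.im⟩ (a * z + b * z')
      = a * ell F u z + b * ell F u' z' := by
  have hb' : b = 1 - a := by linarith
  subst hb'
  simp only [ell]
  ring

/-- The section `G` lies strictly on the negative side of `F`. -/
def Neg (F G : Pl) : Prop := ∀ (u : ℂ) (z : ℝ), Ball u z → ell G u z = 0 → ell F u z < 0

lemma Neg.not_M {F G : Pl} (h : Neg F G) : ¬ M F G := by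
  rintro ⟨u, z, hb, h1, h2⟩
  have := h u z hb h2
  linarith

lemma Neg.ng_right {F G : Pl} (h : Neg F G) : Neg F (ng G) := by
  intro u z hb h1
  rw [ell_ng, neg_eq_zero] at h1
  exact h u z hb h1

/-- If `F` and `G` do not meet and one point of `G` is negative, then all are. -/
lemma neg_of {F G : Pl} (h : ¬ M F G) {u : ℂ} {z : ℝ} (hb : Ball u z) (h1 : ell G u z = 0)
    (h2 : ell F u z < 0) : Neg F G := by
  intro u' z' hb' h1'
  by_contra hc
  push Not at hc
  apply h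
  set α : ℝ := - ell F u z with hα
  set β : ℝ := ell F u' z' with hβ
  have hα0 : 0 < α := by rw [hα]; linarith
  have hs : 0 < α + β := by linarith
  have hab : β / (α + β) + α / (α + β) = 1 := by field_simp; ring
  refine ⟨_, _, Ball_smul hb hb' (div_nonneg hc hs.le) (div_nonneg hα0.le hs.le) hab, ?_, ?_⟩
  · rw [ell_comb _ _ _ _ _ _ _ hab]
    rw [← hβ]
    have : ell F u z = -α := by rw [hα]; ring
    rw [this]
    field_simp
    ring
  · rw [ell_comb _ _ _ _ _ _ _ hab, h1, h1']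
    ring

/-- Being on the negative side propagates along sections that meet. -/
lemma Neg.step {F G G' : Pl} (h : Neg F G) (hm : M G G') (hn : ¬ M F G') : Neg F G' := by
  obtain ⟨u, z, hb, h1, h2⟩ := hm
  exact neg_of hn hb h2 (h u z hb h1)

/-- The closed caps are disjoint. -/
def Dis (F G : Pl) : Prop := ∀ (u : ℂ) (z : ℝ), Ball u z → 0 ≤ ell F u z → 0 ≤ ell G u z → False

lemma dis_of {F G : Pl} (h : Neg G F) {u : ℂ} {z : ℝ} (hb : Ball u z) (h1 : ell G u z = 0)
    (h2 : ell F u z < 0) : Dis F G := by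
  intro u' z' hb' hF hG
  set α : ℝ := - ell F u z with hα
  set β : ℝ := ell F u' z' with hβ
  have hα0 : 0 < α := by rw [hα]; linarith
  have hs : 0 < α + β := by linarith
  have hab : β / (α + β) + α / (α + β) = 1 := by field_simp; ring
  have key := h _ _ (Ball_smul hb hb' (div_nonneg hF hs.le) (div_nonneg hα0.le hs.le) hab) (by
    rw [ell_comb _ _ _ _ _ _ _ hab]
    rw [← hβ]
    have : ell F u z = -α := by rw [hα]; ring
    rw [this]
    field_simp
    ring)
  rw [ell_comb _ _ _ _ _ _ _ hab, h1] at key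
  have : 0 ≤ α / (α + β) * ell G u' z' := mul_nonneg (div_nonneg hα0.le hs.le) hG
  linarith

/-- The two reference planes `z = sin K` and `z = - sin K`. -/
noncomputable def PA (K : ℝ) : Pl := ⟨0, 1, Real.sin K⟩
noncomputable def PB (K : ℝ) : Pl := ⟨0, -1, Real.sin K⟩

lemma ell_PA (K : ℝ) (u : ℂ) (z : ℝ) : ell (PA K) u z = z - Real.sin K := by
  simp [ell, PA]

lemma ell_PB (K : ℝ) (u : ℂ) (z : ℝ) : ell (PB K) u z = -z - Real.sin K := by
  simp [ell, PB]

lemma norm_sq_re_im (w : ℂ) : ‖w‖ ^ 2 = w.re ^ 2 + w.im ^ 2 := by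
  rw [Complex.sq_norm, Complex.normSq_apply]; ring

lemma cauchy (w u : ℂ) : |w.re * u.re + w.im * u.im| ≤ ‖w‖ * ‖u‖ := by
  apply abs_le_of_sq_le_sq
  · rw [mul_pow, norm_sq_re_im, norm_sq_re_im]
    nlinarith [sq_nonneg (w.re * u.im - w.im * u.re)]
  · positivity

/-- Planes of the first kind: they meet both reference planes. -/
def EType (K : ℝ) (F : Pl) : Prop :=
  F.w ≠ 0 ∧ ∀ z : ℝ, |z| ≤ Real.sin K → |F.d - F.c * z| ≤ ‖F.w‖ * Real.cos K

/-- Planes of the second kind: between the reference planes, not separating them. -/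
def DType (K : ℝ) (F : Pl) : Prop :=
  F.w ≠ 0 ∧ ∀ (u : ℂ) (z : ℝ), Ball u z → ell F u z = 0 →
    |z| ≤ Real.sin K ∧ ‖F.w‖ * Real.cos K < F.w.re * u.re + F.w.im * u.im

lemma ball_norm {u : ℂ} {z : ℝ} (h : Ball u z) : ‖u‖ ^ 2 + z ^ 2 ≤ 1 := by
  rw [norm_sq_re_im]; exact h

lemma norm_le_cos {K : ℝ} (hK : 0 < K) (hK2 : K < Real.pi / 2) {u : ℂ} {z : ℝ} (h : Ball u z)
    (hz : z ^ 2 = Real.sin K ^ 2) : ‖u‖ ≤ Real.cos K := by
  have h1 := ball_norm h
  have h2 : 0 < Real.cos K := Real.cos_pos_of_mem_Ioo ⟨by linarith, hK2⟩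
  have h3 := Real.sin_sq_add_cos_sq K
  rw [hz] at h1
  apply le_of_sq_le_sq _ h2.le
  linarith

lemma etype_of {K : ℝ} (hK : 0 < K) (hK2 : K < Real.pi / 2) {F : Pl}
    (h0 : ¬ (F.w = 0 ∧ F.c = 0 ∧ F.d = 0)) (hA : M F (PA K)) (hB : M F (PB K)) : EType K F := by
  obtain ⟨u, z, hb, h1, h2⟩ := hA
  obtain ⟨u', z', hb', h1', h2'⟩ := hB
  rw [ell_PA] at h2
  rw [ell_PB] at h2'
  have hz : z = Real.sin K := by linarith
  have hz' : z' = - Real.sin K := by linarith
  have hs : 0 < Real.sin K := Real.sin_pos_of_pos_of_lt_pi hK (by linarith [Real.pi_pos])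
  have hu := norm_le_cos hK hK2 hb (by rw [hz])
  have hu' := norm_le_cos hK hK2 hb' (by rw [hz']; ring)
  have e1 : |F.d - F.c * Real.sin K| ≤ ‖F.w‖ * Real.cos K := by
    have : F.d - F.c * Real.sin K = F.w.re * u.re + F.w.im * u.im := by
      unfold ell at h1; rw [hz] at h1; linarith
    rw [this]
    exact (cauchy _ _).trans (mul_le_mul_of_nonneg_left hu (norm_nonneg _))
  have e2 : |F.d + F.c * Real.sin K| ≤ ‖F.w‖ * Real.cos K := by
    have : F.d + F.c * Real.sin K = F.w.re * u'.re + F.w.im * u'.im := by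
      unfold ell at h1'; rw [hz'] at h1'; linarith
    rw [this]
    exact (cauchy _ _).trans (mul_le_mul_of_nonneg_left hu' (norm_nonneg _))
  constructor
  · intro hw
    apply h0
    rw [hw] at e1 e2
    simp at e1 e2
    refine ⟨hw, ?_, ?_⟩
    · have : F.c * Real.sin K = 0 := by linarith
      exact (mul_eq_zero.mp this).resolve_right hs.ne'
    · linarith
  · intro z hz
    rw [abs_le] at e1 e2 hz ⊢
    constructor
    · rcases le_total 0 F.c with hc | hc
      · nlinarith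
      · nlinarith
    · rcases le_total 0 F.c with hc | hc
      · nlinarith
      · nlinarith

lemma dtype_of {K : ℝ} (hK : 0 < K) (hK2 : K < Real.pi / 2) {F : Pl}
    (hne : ∃ (u : ℂ) (z : ℝ), Ball u z ∧ ell F u z = 0)
    (hA : Neg (PA K) F) (hB : Neg (PB K) F) (hA' : Neg F (PA K)) (hB' : Neg F (PB K)) :
    DType K F := by
  have hs : 0 < Real.sin K := Real.sin_pos_of_pos_of_lt_pi hK (by linarith [Real.pi_pos])
  have hc : 0 < Real.cos K := Real.cos_pos_of_mem_Ioo ⟨by linarith, hK2⟩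
  have hsc := Real.sin_sq_add_cos_sq K
  -- a horizontal vector of length `cos K` in the direction of `w`
  obtain ⟨v, hv1, hv2⟩ : ∃ v : ℂ, v.re ^ 2 + v.im ^ 2 ≤ Real.cos K ^ 2 ∧
      F.w.re * v.re + F.w.im * v.im = ‖F.w‖ * Real.cos K := by
    by_cases hw : F.w = 0
    · refine ⟨0, by simp; positivity, by simp [hw]⟩
    · have hn : 0 < ‖F.w‖ := norm_pos_iff.mpr hw
      refine ⟨⟨F.w.re * Real.cos K / ‖F.w‖, F.w.im * Real.cos K / ‖F.w‖⟩, ?_, ?_⟩
      · simp only
        have : (F.w.re * Real.cos K / ‖F.w‖) ^ 2 + (F.w.im * Real.cos K / ‖F.w‖) ^ 2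
            = (F.w.re ^ 2 + F.w.im ^ 2) * Real.cos K ^ 2 / ‖F.w‖ ^ 2 := by
          field_simp
        rw [this, ← norm_sq_re_im]
        apply le_of_eq
        field_simp
      · simp only
        have : F.w.re * (F.w.re * Real.cos K / ‖F.w‖) + F.w.im * (F.w.im * Real.cos K / ‖F.w‖)
            = (F.w.re ^ 2 + F.w.im ^ 2) * Real.cos K / ‖F.w‖ := by
          field_simp
        rw [this, ← norm_sq_re_im]
        field_simp
  have hbA : Ball v (Real.sin K) := by unfold Ball; linarith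
  have hbB : Ball v (-Real.sin K) := by unfold Ball; nlinarith
  have kA := hA' v _ hbA (by rw [ell_PA]; ring)
  have kB := hB' v _ hbB (by rw [ell_PB]; ring)
  have kA' : ‖F.w‖ * Real.cos K < F.d - F.c * Real.sin K := by
    unfold ell at kA; rw [hv2] at kA; linarith
  have kB' : ‖F.w‖ * Real.cos K < F.d + F.c * Real.sin K := by
    unfold ell at kB; rw [hv2] at kB; nlinarith
  have main : ∀ (u : ℂ) (z : ℝ), Ball u z → ell F u z = 0 →
      |z| ≤ Real.sin K ∧ ‖F.w‖ * Real.cos K < F.w.re * u.re + F.w.im * u.im := by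
    intro u z hb h1
    have a1 := hA u z hb h1
    have a2 := hB u z hb h1
    rw [ell_PA] at a1
    rw [ell_PB] at a2
    refine ⟨abs_le.mpr ⟨by linarith, by linarith⟩, ?_⟩
    have : F.w.re * u.re + F.w.im * u.im = F.d - F.c * z := by
      unfold ell at h1; linarith
    rw [this]
    rcases le_total 0 F.c with h | h <;> nlinarith
  refine ⟨?_, main⟩
  intro hw
  obtain ⟨u, z, hb, h1⟩ := hne
  have := (main u z hb h1).2
  rw [hw] at this
  simp at this

/-! ### Angles -/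

/-- `x` is an angle of the horizontal normal of `F`. -/
def Lift (F : Pl) (x : ℝ) : Prop := F.w = ‖F.w‖ * Complex.exp (x * I)

lemma lift_arg (F : Pl) : Lift F (arg F.w) := (Complex.norm_mul_exp_arg_mul_I F.w).symm

lemma exp_two_pi (x : ℝ) (n : ℤ) :
    Complex.exp (((x + n * (2 * Real.pi) : ℝ) : ℂ) * I) = Complex.exp (x * I) := by
  rw [Complex.exp_eq_exp_iff_exists_int]
  exact ⟨n, by push_cast; ring⟩

lemma exp_eq_real {x y : ℝ} (h : Complex.exp (x * I) = Complex.exp (y * I)) :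
    ∃ n : ℤ, x = y + n * (2 * Real.pi) := by
  rw [Complex.exp_eq_exp_iff_exists_int] at h
  obtain ⟨n, hn⟩ := h
  refine ⟨n, ?_⟩
  have h2 : ((x : ℂ) - (y + n * (2 * Real.pi))) * I = 0 := by
    linear_combination hn
  have h3 : (x : ℂ) - (y + n * (2 * Real.pi)) = 0 := by
    rcases mul_eq_zero.mp h2 with h | h
    · exact h
    · exact absurd h Complex.I_ne_zero
  have h4 : (x : ℂ) = ((y + n * (2 * Real.pi) : ℝ) : ℂ) := by
    push_cast
    linear_combination h3
  exact_mod_cast h4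

lemma Lift.add {F : Pl} {x : ℝ} (h : Lift F x) (n : ℤ) : Lift F (x + n * (2 * Real.pi)) := by
  unfold Lift at *
  rw [exp_two_pi]
  exact h

lemma Lift.unique {F : Pl} (hw : F.w ≠ 0) {x y : ℝ} (hx : Lift F x) (hy : Lift F y) :
    ∃ n : ℤ, y = x + n * (2 * Real.pi) := by
  apply exp_eq_real
  unfold Lift at *
  have h1 : (‖F.w‖ : ℂ) ≠ 0 := by simpa using hw
  have h2 : (‖F.w‖ : ℂ) * Complex.exp (y * I) = ‖F.w‖ * Complex.exp (x * I) := by
    rw [← hx, ← hy]
  exact mul_left_cancel₀ h1 h2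

lemma Lift.re {F : Pl} {x : ℝ} (h : Lift F x) : F.w.re = ‖F.w‖ * Real.cos x := by
  have := congrArg Complex.re h
  rw [Complex.re_ofReal_mul, Complex.exp_ofReal_mul_I_re] at this
  exact this

lemma Lift.im {F : Pl} {x : ℝ} (h : Lift F x) : F.w.im = ‖F.w‖ * Real.sin x := by
  have := congrArg Complex.im h
  rw [Complex.im_ofReal_mul, Complex.exp_ofReal_mul_I_im] at this
  exact this

/-- The number of the interval between consecutive angles of `Z`. -/
noncomputable def NN (Z : Pl) (x : ℝ) : ℤ := ⌊(x - arg Z.w) / (2 * Real.pi)⌋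

lemma nn_add (Z : Pl) (x : ℝ) (n : ℤ) : NN Z (x + n * (2 * Real.pi)) = NN Z x + n := by
  unfold NN
  rw [← Int.floor_add_intCast]
  congr 1
  have := Real.pi_pos
  field_simp
  ring

lemma nn_eq_of {Z : Pl} {x x' : ℝ} (hx : x ≤ x') (h : ∀ y, x < y → y ≤ x' → ¬ Lift Z y) :
    NN Z x = NN Z x' := by
  have hpi := Real.pi_pos
  have hle : NN Z x ≤ NN Z x' := by
    unfold NN
    apply Int.floor_le_floor
    apply div_le_div_of_nonneg_right _ (by positivity)
    linarith
  by_contra hne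
  have hlt : NN Z x < NN Z x' := lt_of_le_of_ne hle hne
  set n : ℤ := NN Z x' with hn
  have h1 : (n : ℝ) ≤ (x' - arg Z.w) / (2 * Real.pi) := by
    rw [hn]; unfold NN; exact Int.floor_le _
  have h2 : (x - arg Z.w) / (2 * Real.pi) < n := by
    unfold NN at hlt
    rw [Int.floor_lt] at hlt
    exact hlt
  rw [le_div_iff₀ (by positivity)] at h1
  rw [div_lt_iff₀ (by positivity)] at h2
  apply h (arg Z.w + n * (2 * Real.pi)) (by linarith) (by linarith)
  exact (lift_arg Z).add n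

lemma dir {w u : ℂ} (hw : w ≠ 0) {x : ℝ} (hx : w = ‖w‖ * Complex.exp (x * I)) :
    u = ‖u‖ * Complex.exp (((x + arg (u * (starRingEnd ℂ) w) : ℝ) : ℂ) * I) := by
  set a : ℝ := arg (u * (starRingEnd ℂ) w) with ha
  have h1 : (‖w‖ : ℂ) ≠ 0 := by simpa using hw
  have h2 : u * (starRingEnd ℂ) w = (‖u‖ * ‖w‖ : ℝ) * Complex.exp (a * I) := by
    have := Complex.norm_mul_exp_arg_mul_I (u * (starRingEnd ℂ) w)
    rw [norm_mul, Complex.norm_conj] at this
    rw [ha, this]
  have h3 : (starRingEnd ℂ) w = ‖w‖ * Complex.exp (-(x * I)) := by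
    conv_lhs => rw [hx]
    rw [map_mul, Complex.conj_ofReal, ← Complex.exp_conj, map_mul, Complex.conj_ofReal,
      Complex.conj_I]
    congr 2
    ring
  rw [h3] at h2
  have h4 : u * Complex.exp (-(x * I)) = ‖u‖ * Complex.exp (a * I) := by
    apply mul_left_cancel₀ h1
    push_cast at h2
    linear_combination h2
  have h5 : u = u * Complex.exp (-(x * I)) * Complex.exp (x * I) := by
    rw [mul_assoc, ← Complex.exp_add]
    simp
  rw [h5, h4]
  have e1 : ‖(‖u‖ : ℂ) * Complex.exp (a * I) * Complex.exp (x * I)‖ = ‖u‖ := by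
    rw [norm_mul, norm_mul, Complex.norm_exp_ofReal_mul_I, Complex.norm_exp_ofReal_mul_I]
    simp
  rw [e1, mul_assoc, ← Complex.exp_add]
  congr 2
  push_cast
  ring

lemma re_conj (w u : ℂ) : (u * (starRingEnd ℂ) w).re = w.re * u.re + w.im * u.im := by
  rw [Complex.mul_re, Complex.conj_re, Complex.conj_im]; ring

lemma cos_arg_conj {w u : ℂ} (hw : w ≠ 0) (hu : u ≠ 0) :
    ‖w‖ * ‖u‖ * Real.cos (arg (u * (starRingEnd ℂ) w)) = w.re * u.re + w.im * u.im := by
  have h : u * (starRingEnd ℂ) w ≠ 0 := mul_ne_zero hu (by simpa using hw)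
  rw [Complex.cos_arg h, re_conj, norm_mul, Complex.norm_conj]
  have h1 : ‖w‖ ≠ 0 := norm_ne_zero_iff.mpr hw
  have h2 : ‖u‖ ≠ 0 := norm_ne_zero_iff.mpr hu
  field_simp

/-- The main lemma on caps: the way from the axis of `F` to a contact point avoids the axis of
a disjoint cap. -/
lemma key {K : ℝ} {F Z : Pl} {u : ℂ} {z x : ℝ} (hw : F.w ≠ 0) (hc : 0 < Real.cos K)
    (hb : Ball u z) (hF : ell F u z = 0)
    (hz : |z| ≤ Real.sin K) (hu : Real.cos K < ‖u‖) (hZ : EType K Z) (hd : Dis F Z)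
    (hx : Lift F x) : NN Z (x + arg (u * (starRingEnd ℂ) F.w)) = NN Z x := by
  set a : ℝ := arg (u * (starRingEnd ℂ) F.w) with ha
  have hu0 : u ≠ 0 := by
    intro h; rw [h] at hu; simp at hu; linarith
  have no : ∀ y : ℝ, |y - x| ≤ |a| → ¬ Lift Z y := by
    intro y hy hyZ
    have hapi : |a| ≤ Real.pi := Complex.abs_arg_le_pi _
    have hcos : Real.cos a ≤ Real.cos (y - x) := by
      rw [← Real.cos_abs a, ← Real.cos_abs (y - x)]
      exact Real.cos_le_cos_of_nonneg_of_le_pi (abs_nonneg _) hapi hy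
    have hbq : Ball ⟨‖u‖ * Real.cos y, ‖u‖ * Real.sin y⟩ z := by
      have := ball_norm hb
      unfold Ball
      simp only
      have e : (‖u‖ * Real.cos y) ^ 2 + (‖u‖ * Real.sin y) ^ 2 = ‖u‖ ^ 2 := by
        have := Real.sin_sq_add_cos_sq y
        nlinarith
      rw [e]; exact this
    apply hd _ _ hbq
    · have h1 := cos_arg_conj hw hu0
      rw [← ha] at h1
      have h2 : ell F ⟨‖u‖ * Real.cos y, ‖u‖ * Real.sin y⟩ z
          = ‖F.w‖ * ‖u‖ * Real.cos (y - x) + F.c * z - F.d := by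
        unfold ell
        simp only
        rw [hx.re, hx.im, Real.cos_sub]
        ring
      rw [h2]
      have h3 : ‖F.w‖ * ‖u‖ * Real.cos a ≤ ‖F.w‖ * ‖u‖ * Real.cos (y - x) :=
        mul_le_mul_of_nonneg_left hcos (by positivity)
      unfold ell at hF
      linarith
    · have h2 : ell Z ⟨‖u‖ * Real.cos y, ‖u‖ * Real.sin y⟩ z
          = ‖Z.w‖ * ‖u‖ - (Z.d - Z.c * z) := by
        unfold ell
        simp only
        rw [hyZ.re, hyZ.im]
        have := Real.sin_sq_add_cos_sq y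
        linear_combination (‖Z.w‖ * ‖u‖) * this
      rw [h2]
      have h3 := (abs_le.mp (hZ.2 z hz)).2
      have h4 : ‖Z.w‖ * Real.cos K ≤ ‖Z.w‖ * ‖u‖ := mul_le_mul_of_nonneg_left hu.le (norm_nonneg _)
      linarith
  rcases le_total 0 a with h0 | h0
  · symm
    apply nn_eq_of (by linarith)
    intro y hy1 hy2
    apply no
    rw [abs_of_nonneg h0, abs_of_nonneg (by linarith)]
    linarith
  · apply nn_eq_of (by linarith)
    intro y hy1 hy2
    apply no
    rw [abs_of_nonpos h0, abs_of_nonpos (by linarith)]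
    linarith

open Classical in
/-- A common point of two sections. -/
noncomputable def ct (F G : Pl) : ℂ × ℝ :=
  if h : ∃ p : ℂ × ℝ, Ball p.1 p.2 ∧ ell F p.1 p.2 = 0 ∧ ell G p.1 p.2 = 0 then h.choose else (0, 0)

lemma ct_spec {F G : Pl} (h : M F G) :
    Ball (ct F G).1 (ct F G).2 ∧ ell F (ct F G).1 (ct F G).2 = 0 ∧
      ell G (ct F G).1 (ct F G).2 = 0 := by
  have h' : ∃ p : ℂ × ℝ, Ball p.1 p.2 ∧ ell F p.1 p.2 = 0 ∧ ell G p.1 p.2 = 0 := by
    obtain ⟨u, z, h⟩ := h
    exact ⟨(u, z), h⟩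
  unfold ct
  rw [dif_pos h']
  exact h'.choose_spec

/-- The angle from the axis of `F` to the axis of `G` through the common point. -/
noncomputable def gl (F G : Pl) : ℝ :=
  arg ((ct F G).1 * (starRingEnd ℂ) F.w) - arg ((ct F G).1 * (starRingEnd ℂ) G.w)

/-- The common point is good. -/
lemma ct_good {K : ℝ} {F G : Pl} (h : M F G) (hD : DType K F ∨ DType K G) :
    |(ct F G).2| ≤ Real.sin K ∧ Real.cos K < ‖(ct F G).1‖ := by
  obtain ⟨hb, h1, h2⟩ := ct_spec h
  rcases hD with hD | hD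
  · obtain ⟨h3, h4⟩ := hD.2 _ _ hb h1
    refine ⟨h3, ?_⟩
    have h5 := (le_abs_self _).trans (cauchy F.w (ct F G).1)
    have h6 : 0 < ‖F.w‖ := norm_pos_iff.mpr hD.1
    by_contra hc
    push Not at hc
    nlinarith
  · obtain ⟨h3, h4⟩ := hD.2 _ _ hb h2
    refine ⟨h3, ?_⟩
    have h5 := (le_abs_self _).trans (cauchy G.w (ct F G).1)
    have h6 : 0 < ‖G.w‖ := norm_pos_iff.mpr hD.1
    by_contra hc
    push Not at hc
    nlinarith

lemma gl_lift {K : ℝ} {F G : Pl} (hF : F.w ≠ 0) (hG : G.w ≠ 0) (hc : 0 < Real.cos K)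
    (h : M F G) (hD : DType K F ∨ DType K G) {x : ℝ} (hx : Lift F x) : Lift G (x + gl F G) := by
  have hg := ct_good h hD
  have hu0 : (ct F G).1 ≠ 0 := by
    intro h; rw [h] at hg; simp at hg; linarith
  have h1 := dir (u := (ct F G).1) hF hx
  have h2 := dir (u := (ct F G).1) hG (lift_arg G)
  set u := (ct F G).1 with hu
  set a := arg (u * (starRingEnd ℂ) F.w) with ha
  set b := arg (u * (starRingEnd ℂ) G.w) with hb
  have hn : (‖u‖ : ℂ) ≠ 0 := by simpa using hu0
  obtain ⟨n, hn⟩ : ∃ n : ℤ, x + a = arg G.w + b + n * (2 * Real.pi) := by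
    apply exp_eq_real
    apply mul_left_cancel₀ hn
    rw [← h1, ← h2]
  have : x + gl F G = arg G.w + n * (2 * Real.pi) := by
    unfold gl
    rw [← hu, ← ha, ← hb]
    linarith
  rw [this]
  exact (lift_arg G).add n

lemma gl_nn {K : ℝ} {F G Z : Pl} (hF : F.w ≠ 0) (hG : G.w ≠ 0) (hc : 0 < Real.cos K)
    (h : M F G) (hD : DType K F ∨ DType K G) (hZ : EType K Z) (hFZ : Dis F Z) (hGZ : Dis G Z)
    {x : ℝ} (hx : Lift F x) : NN Z (x + gl F G) = NN Z x := by
  obtain ⟨hz, hu⟩ := ct_good h hD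
  obtain ⟨hb, h1, h2⟩ := ct_spec h
  have k1 := key hF hc hb h1 hz hu hZ hFZ hx
  have k2 := key hG hc hb h2 hz hu hZ hGZ (gl_lift hF hG hc h hD hx)
  have : x + gl F G + arg ((ct F G).1 * (starRingEnd ℂ) G.w)
      = x + arg ((ct F G).1 * (starRingEnd ℂ) F.w) := by
    unfold gl; ring
  rw [this, k1] at k2
  exact k2.symm

lemma arg_lt {K : ℝ} (hK : 0 < K) (hK2 : K < Real.pi / 2) {F : Pl} (hD : DType K F) {u : ℂ} {z : ℝ}
    (hb : Ball u z) (h1 : ell F u z = 0) : |arg (u * (starRingEnd ℂ) F.w)| < K := by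
  obtain ⟨h3, h4⟩ := hD.2 _ _ hb h1
  have hc : 0 < Real.cos K := Real.cos_pos_of_mem_Ioo ⟨by linarith, hK2⟩
  have hn : 0 < ‖F.w‖ := norm_pos_iff.mpr hD.1
  have hu0 : u ≠ 0 := by
    rintro rfl
    simp at h4
    nlinarith
  have hu1 : ‖u‖ ≤ 1 := by
    have := ball_norm hb
    nlinarith [sq_nonneg z, norm_nonneg u]
  have h5 := cos_arg_conj hD.1 hu0
  by_contra hcon
  push Not at hcon
  have h6 : Real.cos |arg (u * (starRingEnd ℂ) F.w)| ≤ Real.cos K :=
    Real.cos_le_cos_of_nonneg_of_le_pi hK.le (Complex.abs_arg_le_pi _) hcon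
  rw [Real.cos_abs] at h6
  have hup : 0 < ‖u‖ := norm_pos_iff.mpr hu0
  rw [← h5] at h4
  have h7 : ‖F.w‖ * ‖u‖ * Real.cos (arg (u * (starRingEnd ℂ) F.w)) ≤ ‖F.w‖ * ‖u‖ * Real.cos K :=
    mul_le_mul_of_nonneg_left h6 (by positivity)
  have h8 : ‖F.w‖ * ‖u‖ * Real.cos K ≤ ‖F.w‖ * Real.cos K := by
    have : ‖F.w‖ * ‖u‖ ≤ ‖F.w‖ * 1 := mul_le_mul_of_nonneg_left hu1 hn.le
    nlinarith
  linarith

lemma gl_bound {K : ℝ} (hK : 0 < K) (hK2 : K < Real.pi / 2) {F G : Pl} (hF : DType K F)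
    (hG : DType K G) (h : M F G) : |gl F G| < 2 * K := by
  obtain ⟨hb, h1, h2⟩ := ct_spec h
  have k1 := arg_lt hK hK2 hF hb h1
  have k2 := arg_lt hK hK2 hG hb h2
  unfold gl
  rw [abs_lt] at *
  constructor <;> linarith [k1.1, k1.2, k2.1, k2.2]

/-- Disjoint caps of the first kind are more than `2 K` apart. -/
lemma gap {K : ℝ} (hK : 0 < K) (hK2 : K < Real.pi / 2) {F G : Pl} (hF : EType K F)
    (hG : EType K G) (hd : Dis F G) {x y : ℝ} (hx : Lift F x) (hy : Lift G y) :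
    2 * K < |x - y| := by
  by_contra hc
  push Not at hc
  have hs : 0 < Real.sin K := Real.sin_pos_of_pos_of_lt_pi hK (by linarith [Real.pi_pos])
  set t : ℝ := (x + y) / 2 with ht
  have e1 : |x - t| ≤ K := by
    have : x - t = (x - y) / 2 := by rw [ht]; ring
    rw [this, abs_div, abs_two]; linarith
  have e2 : |y - t| ≤ K := by
    have : y - t = -((x - y) / 2) := by rw [ht]; ring
    rw [this, abs_neg, abs_div, abs_two]; linarith
  have hb : Ball ⟨Real.cos t, Real.sin t⟩ 0 := by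
    unfold Ball; simp
  have main : ∀ (E : Pl) (s : ℝ), EType K E → Lift E s → |s - t| ≤ K →
      0 ≤ ell E ⟨Real.cos t, Real.sin t⟩ 0 := by
    intro E s hE hs' hst
    have h1 : ell E ⟨Real.cos t, Real.sin t⟩ 0 = ‖E.w‖ * Real.cos (s - t) - E.d := by
      unfold ell
      simp only
      rw [hs'.re, hs'.im, Real.cos_sub]
      ring
    rw [h1]
    have h2 := hE.2 0 (by simp [hs.le])
    simp at h2
    have h3 := (abs_le.mp h2).2
    have h4 : Real.cos K ≤ Real.cos (s - t) := by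
      rw [← Real.cos_abs (s - t)]
      exact Real.cos_le_cos_of_nonneg_of_le_pi (abs_nonneg _) (by linarith [Real.pi_pos]) hst
    have h5 : ‖E.w‖ * Real.cos K ≤ ‖E.w‖ * Real.cos (s - t) :=
      mul_le_mul_of_nonneg_left h4 (norm_nonneg _)
    linarith
  exact hd _ _ hb (main F x hF hx e1) (main G y hG hy e2)

/-- Two angles of the same plane in the same interval are equal. -/
lemma lift_eq {F Z : Pl} (hw : F.w ≠ 0) {x y : ℝ} (hx : Lift F x) (hy : Lift F y)
    (h : NN Z x = NN Z y) : x = y := by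
  obtain ⟨n, hn⟩ := hx.unique hw hy
  rw [hn, nn_add] at h
  have : n = 0 := by omega
  rw [hn, this]
  simp

end Pool.Agent.Q213.SG
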