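import Pool.Agent.Q213.SGb

/-!
# The pattern of chords and its representations
-/

namespace Pool.Agent.Q213.SG

open Complex Finset

/-- The half widths that are used. -/
def HH (κ h : ℝ) : Prop := 1 / 2 ≤ h ∧ h ≤ κ ∧ (h = κ ∨ ∃ q : ℚ, h = q)

/-- Two chords of a circle of length 60 meet. -/
def Lk (s h h' : ℝ) : Prop :=
  Real.cos (Real.pi * (h + h') / 30) ≤ Real.cos (Real.pi * s / 30) ∧
    Real.cos (Real.pi * s / 30) ≤ Real.cos (Real.pi * (h - h') / 30)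

lemma cos_abs_unit (s : ℝ) : Real.cos (Real.pi * s / 30) = Real.cos (Real.pi * |s| / 30) := by
  rcases abs_choice s with h | h <;> rw [h]
  have : Real.pi * -s / 30 = -(Real.pi * s / 30) := by ring
  rw [this, Real.cos_neg]

lemma cos_mono_unit {a b : ℝ} (ha : 0 ≤ a) (hab : a ≤ b) (hb : b ≤ 30) :
    Real.cos (Real.pi * b / 30) ≤ Real.cos (Real.pi * a / 30) := by
  have hp := Real.pi_pos
  apply Real.cos_le_cos_of_nonneg_of_le_pi
  · positivity
  · rw [div_le_iff₀ (by norm_num)]; nlinarith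
  · apply div_le_div_of_nonneg_right _ (by norm_num)
    nlinarith

lemma cos_lt_unit {a b : ℝ} (ha : 0 ≤ a) (hab : a < b) (hb : b ≤ 30) :
    Real.cos (Real.pi * b / 30) < Real.cos (Real.pi * a / 30) := by
  have hp := Real.pi_pos
  apply Real.cos_lt_cos_of_nonneg_of_le_pi
  · positivity
  · rw [div_le_iff₀ (by norm_num)]; nlinarith
  · apply div_lt_div_of_pos_right _ (by norm_num)
    nlinarith

lemma lk_of {s h h' : ℝ} (h0 : |h - h'| ≤ |s|) (h1 : |s| ≤ h + h') (h2 : h + h' ≤ 30) :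
    Lk s h h' := by
  constructor
  · rw [cos_abs_unit s]
    exact cos_mono_unit (abs_nonneg _) h1 h2
  · rw [cos_abs_unit s, cos_abs_unit (h - h')]
    exact cos_mono_unit (abs_nonneg _) h0 (h1.trans h2)

lemma not_lk {s c h h' : ℝ} (h0 : 0 ≤ h + h') (h1 : h + h' < c) (hc : c ≤ 30) (h2 : c ≤ |s|)
    (h3 : |s| ≤ 60 - c) : ¬ Lk s h h' := by
  rintro ⟨h4, -⟩
  have h5 : Real.cos (Real.pi * c / 30) < Real.cos (Real.pi * (h + h') / 30) :=
    cos_lt_unit h0 h1 hc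
  have h6 : Real.cos (Real.pi * s / 30) ≤ Real.cos (Real.pi * c / 30) := by
    rw [cos_abs_unit s]
    rcases le_total |s| 30 with h | h
    · exact cos_mono_unit (by linarith) h2 h
    · have e : Real.pi * |s| / 30 = 2 * Real.pi - Real.pi * (60 - |s|) / 30 := by ring
      rw [e, Real.cos_two_pi_sub]
      exact cos_mono_unit (by linarith) (by linarith) (by linarith)
  linarith

/-- A representation of the pattern, in normal position. -/
structure Rep (κ K : ℝ) where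
  /-- the chords -/
  ch : ℚ → ℝ → Pl
  X : Pl
  Y : Pl
  hκ1 : 3 / 5 < κ
  hκ2 : κ < 3 / 4
  hK : 0 < K
  hK2 : K < Real.pi / 2
  nz : ∀ b h, HH κ h → ¬ ((ch b h).w = 0 ∧ (ch b h).c = 0 ∧ (ch b h).d = 0)
  mm : ∀ (b b' : ℚ) (h h' : ℝ), HH κ h → HH κ h' →
    (M (ch b h) (ch b' h') ↔ Lk ((b : ℝ) - b') h h')
  eA : ∀ b : ℚ, M (ch b κ) (PA K)
  eB : ∀ b : ℚ, M (ch b κ) (PB K)
  dA : ∀ (b : ℚ) (h : ℝ), HH κ h → h < κ → ¬ M (ch b h) (PA K)
  dB : ∀ (b : ℚ) (h : ℝ), HH κ h → h < κ → ¬ M (ch b h) (PB K)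
  xB : M X (PB K)
  xA : ¬ M X (PA K)
  xr : M X (ch 0 (1 / 2))
  yA : M Y (PA K)
  yB : ¬ M Y (PB K)
  yr : M Y (ch 0 (1 / 2))
  per : ∀ (b : ℚ) (h : ℝ), ch (b + 60) h = ch b h

namespace Rep

variable {κ K : ℝ} (R : Rep κ K)

include R

lemma half : HH κ (1 / 2) :=
  ⟨le_refl _, by linarith [R.hκ1], Or.inr ⟨1 / 2, by norm_num⟩⟩

lemma top : HH κ κ := ⟨by linarith [R.hκ1], le_refl _, Or.inl rfl⟩

lemma cpos : 0 < Real.cos K := Real.cos_pos_of_mem_Ioo ⟨by linarith [R.hK, Real.pi_pos], R.hK2⟩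

lemma spos : 0 < Real.sin K :=
  Real.sin_pos_of_pos_of_lt_pi R.hK (by linarith [Real.pi_pos, R.hK2])

omit R in
/-- The ring. -/
noncomputable def rg (R : Rep κ K) (j : ℤ) : Pl := R.ch (j : ℚ) (1 / 2)

lemma per_int (b : ℚ) (h : ℝ) (n : ℤ) : R.ch (b + 60 * n) h = R.ch b h := by
  induction n using Int.induction_on with
  | zero => simp
  | succ n ih =>
      have : b + 60 * (((n : ℤ) + 1 : ℤ) : ℚ) = (b + 60 * ((n : ℤ) : ℚ)) + 60 := by push_cast; ring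
      rw [this, R.per, ih]
  | pred n ih =>
      have : b + 60 * ((-(n : ℤ) : ℤ) : ℚ) = (b + 60 * ((-(n : ℤ) - 1 : ℤ) : ℚ)) + 60 := by
        push_cast; ring
      rw [this, R.per] at ih
      exact ih

lemma rg_per (j : ℤ) : R.rg (j + 60) = R.rg j := by
  unfold rg
  push_cast
  exact R.per _ _

lemma M_rg (j : ℤ) : M (R.rg j) (R.rg (j + 1)) := by
  unfold rg
  rw [R.mm _ _ _ _ R.half R.half]
  apply lk_of
  · simp
  · push_cast; norm_num
  · norm_num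

lemma rg_ne (j : ℤ) : ∃ (u : ℂ) (z : ℝ), Ball u z ∧ ell (R.rg j) u z = 0 := by
  obtain ⟨u, z, h1, h2, _⟩ := R.M_rg j
  exact ⟨u, z, h1, h2⟩

omit R in
open Classical in
/-- The chosen orientation: distant elements of the ring are on the negative side. -/
noncomputable def o (R : Rep κ K) (b : ℚ) (h : ℝ) : Pl :=
  if Neg (R.ch b h) (R.rg (⌈b⌉ + 30)) then R.ch b h else ng (R.ch b h)

lemma o_or (b : ℚ) (h : ℝ) : R.o b h = R.ch b h ∨ R.o b h = ng (R.ch b h) := by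
  unfold o
  split_ifs
  · exact Or.inl rfl
  · exact Or.inr rfl

lemma M_o_left (b : ℚ) (h : ℝ) (G : Pl) : M (R.o b h) G ↔ M (R.ch b h) G := by
  rcases R.o_or b h with e | e <;> rw [e]
  exact M_ng_left _ _

lemma M_o_right (b : ℚ) (h : ℝ) (G : Pl) : M G (R.o b h) ↔ M G (R.ch b h) := by
  rw [M_comm, M_o_left, M_comm]

lemma neg_o_right {F : Pl} {b : ℚ} {h : ℝ} (hN : Neg F (R.ch b h)) : Neg F (R.o b h) := by
  rcases R.o_or b h with e | e <;> rw [e]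
  · exact hN
  · exact hN.ng_right

lemma o_per (b : ℚ) (h : ℝ) : R.o (b + 60) h = R.o b h := by
  unfold o
  have e1 : ⌈b + 60⌉ = ⌈b⌉ + 60 := by
    have : b + 60 = b + ((60 : ℤ) : ℚ) := by push_cast; ring
    rw [this, Int.ceil_add_intCast]
  have e2 : ⌈b⌉ + 60 + 30 = (⌈b⌉ + 30) + 60 := by ring
  rw [R.per, e1, e2, R.rg_per]

lemma o_per_nat (b : ℚ) (h : ℝ) (n : ℕ) : R.o (b + 60 * n) h = R.o b h := by
  induction n with
  | zero => simp
  | succ n ih =>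
      have : b + 60 * ((n + 1 : ℕ) : ℚ) = (b + 60 * (n : ℚ)) + 60 := by push_cast; ring
      rw [this, R.o_per, ih]

lemma not_M_ring {b : ℚ} {h : ℝ} (hh : HH κ h) {j : ℤ} (h1 : 5 / 4 ≤ (j : ℝ) - b)
    (h2 : (j : ℝ) - b ≤ 60 - 5 / 4) : ¬ M (R.o b h) (R.rg j) := by
  rw [M_o_left]
  unfold rg
  rw [R.mm _ _ _ _ hh R.half]
  have habs : |(b : ℝ) - ((j : ℚ) : ℝ)| = (j : ℝ) - b := by
    push_cast
    rw [abs_sub_comm, abs_of_nonneg (by linarith)]
  apply not_lk (c := 5 / 4)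
  · linarith [hh.1]
  · linarith [hh.2.1, R.hκ2]
  · norm_num
  · rw [habs]; exact h1
  · rw [habs]; exact h2

lemma o_neg0 {b : ℚ} {h : ℝ} (hh : HH κ h) : Neg (R.o b h) (R.rg (⌈b⌉ + 30)) := by
  have hnm : ¬ M (R.o b h) (R.rg (⌈b⌉ + 30)) := by
    apply R.not_M_ring hh
    · have : (b : ℝ) ≤ ⌈b⌉ := by exact_mod_cast Int.le_ceil b
      push_cast; linarith
    · have : (⌈b⌉ : ℝ) < b + 1 := by exact_mod_cast Int.ceil_lt_add_one b
      push_cast; linarith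
  by_cases hN : Neg (R.ch b h) (R.rg (⌈b⌉ + 30))
  · unfold o
    rw [if_pos hN]; exact hN
  · have e : R.o b h = ng (R.ch b h) := by unfold o; rw [if_neg hN]
    obtain ⟨u, z, hb, h1⟩ := R.rg_ne (⌈b⌉ + 30)
    rw [R.M_o_left] at hnm
    rcases lt_trichotomy (ell (R.ch b h) u z) 0 with h2 | h2 | h2
    · exact absurd (neg_of hnm hb h1 h2) hN
    · exact absurd ⟨u, z, hb, h2, h1⟩ hnm
    · rw [e]
      apply neg_of _ hb h1
      · rw [ell_ng]; linarith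
      · rw [M_ng_left]; exact hnm

lemma far_ring {b : ℚ} {h : ℝ} (hh : HH κ h) {j : ℤ} (h1 : 5 / 4 ≤ (j : ℝ) - b)
    (h2 : (j : ℝ) - b ≤ 60 - 5 / 4) : Neg (R.o b h) (R.rg j) := by
  have hc1 : (b : ℝ) ≤ ⌈b⌉ := by exact_mod_cast Int.le_ceil b
  have hc2 : (⌈b⌉ : ℝ) < b + 1 := by exact_mod_cast Int.ceil_lt_add_one b
  rcases le_total (⌈b⌉ + 30) j with hle | hle
  · obtain ⟨n, rfl⟩ : ∃ n : ℕ, j = ⌈b⌉ + 30 + n := ⟨(j - (⌈b⌉ + 30)).toNat, by omega⟩
    clear hle h1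
    induction n with
    | zero => simpa using R.o_neg0 hh
    | succ n ih =>
        have hcast : ((⌈b⌉ + 30 + ((n + 1 : ℕ) : ℤ) : ℤ) : ℝ) = (⌈b⌉ : ℝ) + 30 + n + 1 := by
          push_cast; ring
        rw [hcast] at h2
        have ih' := ih (by push_cast; linarith)
        have hs := R.M_rg (⌈b⌉ + 30 + n)
        have he : ⌈b⌉ + 30 + (n : ℤ) + 1 = ⌈b⌉ + 30 + ((n + 1 : ℕ) : ℤ) := by push_cast; ring
        rw [he] at hs
        refine ih'.step hs (R.not_M_ring hh ?_ ?_)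
        · rw [hcast]
          have : (0:ℝ) ≤ n := Nat.cast_nonneg n
          linarith
        · rw [hcast]; exact h2
  · obtain ⟨n, rfl⟩ : ∃ n : ℕ, j = ⌈b⌉ + 30 - n := ⟨((⌈b⌉ + 30) - j).toNat, by omega⟩
    clear hle h2
    induction n with
    | zero => simpa using R.o_neg0 hh
    | succ n ih =>
        have hcast : ((⌈b⌉ + 30 - ((n + 1 : ℕ) : ℤ) : ℤ) : ℝ) = (⌈b⌉ : ℝ) + 30 - n - 1 := by
          push_cast; ring
        rw [hcast] at h1
        have ih' := ih (by push_cast; linarith)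
        have hs := R.M_rg (⌈b⌉ + 30 - ((n + 1 : ℕ) : ℤ))
        have he : ⌈b⌉ + 30 - ((n + 1 : ℕ) : ℤ) + 1 = ⌈b⌉ + 30 - (n : ℤ) := by push_cast; ring
        rw [he, M_comm] at hs
        refine ih'.step hs (R.not_M_ring hh ?_ ?_)
        · rw [hcast]; exact h1
        · rw [hcast]
          have : (0:ℝ) ≤ n := Nat.cast_nonneg n
          linarith

omit R in
/-- A neighbouring element of the ring. -/
noncomputable def nb (b : ℚ) : ℤ := if 1 / 2 ≤ b - ⌊b⌋ then ⌊b⌋ else ⌊b⌋ + 1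

omit R in
lemma nb_spec (b : ℚ) : 1 / 2 ≤ |(b : ℝ) - (nb b : ℝ)| ∧ |(b : ℝ) - (nb b : ℝ)| ≤ 1 := by
  have h1 : (⌊b⌋ : ℚ) ≤ b := Int.floor_le b
  have h2 : b < ⌊b⌋ + 1 := Int.lt_floor_add_one b
  unfold nb
  split_ifs with h
  · have a1 : ((⌊b⌋ : ℤ) : ℝ) ≤ b := by exact_mod_cast h1
    have a2 : (b : ℝ) < (⌊b⌋ : ℝ) + 1 := by exact_mod_cast h2
    have a3 : (1 / 2 : ℝ) ≤ b - (⌊b⌋ : ℝ) := by
      have : ((1 / 2 : ℚ) : ℝ) ≤ ((b - ⌊b⌋ : ℚ) : ℝ) := by exact_mod_cast h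
      push_cast at this
      exact this
    rw [abs_of_nonneg (by linarith)]
    constructor <;> linarith
  · push Not at h
    have a1 : ((⌊b⌋ : ℤ) : ℝ) ≤ b := by exact_mod_cast h1
    have a2 : (b : ℝ) < (⌊b⌋ : ℝ) + 1 := by exact_mod_cast h2
    have a3 : (b : ℝ) - (⌊b⌋ : ℝ) < 1 / 2 := by
      have : ((b - ⌊b⌋ : ℚ) : ℝ) < ((1 / 2 : ℚ) : ℝ) := by exact_mod_cast h
      push_cast at this
      exact this
    push_cast
    rw [abs_sub_comm, abs_of_nonneg (by linarith)]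
    constructor <;> linarith

omit R in
lemma nb_add (b : ℚ) (n : ℤ) : nb (b + 60 * n) = nb b + 60 * n := by
  unfold nb
  have : b + 60 * n = b + ((60 * n : ℤ) : ℚ) := by push_cast; ring
  rw [this, Int.floor_add_intCast]
  have e : b + ((60 * n : ℤ) : ℚ) - ((⌊b⌋ + 60 * n : ℤ) : ℚ) = b - ⌊b⌋ := by push_cast; ring
  rw [e]
  split_ifs <;> ring

lemma M_nb {b : ℚ} {h : ℝ} (hh : HH κ h) : M (R.rg (nb b)) (R.ch b h) := by
  rw [M_comm]
  unfold rg
  rw [R.mm _ _ _ _ hh R.half]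
  obtain ⟨h1, h2⟩ := nb_spec b
  have e : (b : ℝ) - (((nb b : ℤ) : ℚ) : ℝ) = (b : ℝ) - (nb b : ℝ) := by push_cast; ring
  rw [e]
  apply lk_of
  · refine le_trans ?_ h1
    rw [abs_le]
    constructor <;> linarith [hh.1, hh.2.1, R.hκ2]
  · linarith [hh.1]
  · linarith [hh.2.1, R.hκ2]

lemma not_M_far {b b' : ℚ} {h h' : ℝ} (hh : HH κ h) (hh' : HH κ h')
    (h1 : 9 / 4 ≤ (b' : ℝ) - b) (h2 : (b' : ℝ) - b ≤ 60 - 9 / 4) :
    ¬ M (R.ch b h) (R.ch b' h') := by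
  rw [R.mm _ _ _ _ hh hh']
  have habs : |(b : ℝ) - b'| = (b' : ℝ) - b := by
    rw [abs_sub_comm, abs_of_nonneg (by linarith)]
  apply not_lk (c := 9 / 4)
  · linarith [hh.1, hh'.1]
  · linarith [hh.2.1, hh'.2.1, R.hκ2]
  · norm_num
  · rw [habs]; exact h1
  · rw [habs]; exact h2

lemma far_el {b b' : ℚ} {h h' : ℝ} (hh : HH κ h) (hh' : HH κ h')
    (h1 : 9 / 4 ≤ (b' : ℝ) - b) (h2 : (b' : ℝ) - b ≤ 60 - 9 / 4) :
    Neg (R.o b h) (R.ch b' h') := by
  obtain ⟨-, n2⟩ := nb_spec b'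
  rw [abs_le] at n2
  have hr : Neg (R.o b h) (R.rg (nb b')) := R.far_ring hh (by linarith) (by linarith)
  refine hr.step (R.M_nb hh') ?_
  rw [M_o_left]
  exact R.not_M_far hh hh' h1 h2

lemma el_ne {b : ℚ} {h : ℝ} (hh : HH κ h) : ∃ (u : ℂ) (z : ℝ), Ball u z ∧ ell (R.ch b h) u z = 0 := by
  obtain ⟨u, z, h1, _, h3⟩ := R.M_nb (b := b) hh
  exact ⟨u, z, h1, h3⟩

lemma o_ne {b : ℚ} {h : ℝ} (hh : HH κ h) : ∃ (u : ℂ) (z : ℝ), Ball u z ∧ ell (R.o b h) u z = 0 := by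
  obtain ⟨u, z, h1, h2⟩ := R.el_ne (b := b) hh
  rcases R.o_or b h with e | e <;> rw [e]
  · exact ⟨u, z, h1, h2⟩
  · exact ⟨u, z, h1, by rw [ell_ng, h2]; simp⟩

lemma etype (b : ℚ) : EType K (R.o b κ) := by
  apply etype_of R.hK R.hK2
  · have := R.nz b κ R.top
    rcases R.o_or b κ with e | e <;> rw [e]
    · exact this
    · simp only [ng, neg_eq_zero]; exact this
  · rw [M_o_left]; exact R.eA b
  · rw [M_o_left]; exact R.eB b

lemma ringA (j : ℤ) : Neg (PA K) (R.rg j) := by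
  have hnot : ∀ j : ℤ, ¬ M (PA K) (R.rg j) := by
    intro j
    rw [M_comm]
    exact R.dA _ _ R.half (by linarith [R.hκ1])
  have h0 : Neg (PA K) (R.rg 0) := by
    have hB : Neg (PA K) (PB K) := by
      intro u z _ h1
      rw [ell_PB] at h1
      rw [ell_PA]
      linarith [R.spos]
    have hX : Neg (PA K) R.X := hB.step ((M_comm _ _).mp R.xB) (by rw [M_comm]; exact R.xA)
    refine hX.step ?_ (hnot 0)
    have := R.xr
    unfold rg
    simpa using this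
  induction j using Int.induction_on with
  | zero => exact h0
  | succ n ih => exact ih.step (R.M_rg n) (hnot _)
  | pred n ih =>
      have := R.M_rg (-(n : ℤ) - 1)
      have e : -(n : ℤ) - 1 + 1 = -(n : ℤ) := by ring
      rw [e, M_comm] at this
      exact ih.step this (hnot _)

lemma ringB (j : ℤ) : Neg (PB K) (R.rg j) := by
  have hnot : ∀ j : ℤ, ¬ M (PB K) (R.rg j) := by
    intro j
    rw [M_comm]
    exact R.dB _ _ R.half (by linarith [R.hκ1])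
  have h0 : Neg (PB K) (R.rg 0) := by
    have hB : Neg (PB K) (PA K) := by
      intro u z _ h1
      rw [ell_PA] at h1
      rw [ell_PB]
      linarith [R.spos]
    have hY : Neg (PB K) R.Y := hB.step ((M_comm _ _).mp R.yA) (by rw [M_comm]; exact R.yB)
    refine hY.step ?_ (hnot 0)
    have := R.yr
    unfold rg
    simpa using this
  induction j using Int.induction_on with
  | zero => exact h0
  | succ n ih => exact ih.step (R.M_rg n) (hnot _)
  | pred n ih =>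
      have := R.M_rg (-(n : ℤ) - 1)
      have e : -(n : ℤ) - 1 + 1 = -(n : ℤ) := by ring
      rw [e, M_comm] at this
      exact ih.step this (hnot _)

lemma neg_o_P {b : ℚ} {h : ℝ} (hh : HH κ h) (hlt : h < κ) :
    Neg (R.o b h) (PA K) ∧ Neg (R.o b h) (PB K) := by
  have hfar : Neg (R.o b h) (R.ch (b + 30) κ) := by
    apply R.far_el hh R.top
    · push_cast; linarith
    · push_cast; linarith
  constructor
  · obtain ⟨u, z, hb, h1, h2⟩ := R.eA (b + 30)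
    refine neg_of ?_ hb h2 (hfar u z hb h1)
    rw [M_o_left]; exact R.dA b h hh hlt
  · obtain ⟨u, z, hb, h1, h2⟩ := R.eB (b + 30)
    refine neg_of ?_ hb h2 (hfar u z hb h1)
    rw [M_o_left]; exact R.dB b h hh hlt

lemma dtype {b : ℚ} {h : ℝ} (hh : HH κ h) (hlt : h < κ) : DType K (R.o b h) := by
  obtain ⟨n1, n2⟩ := R.neg_o_P (b := b) hh hlt
  refine dtype_of R.hK R.hK2 (R.o_ne hh) ?_ ?_ n1 n2
  · apply R.neg_o_right
    refine (R.ringA (nb b)).step (R.M_nb hh) ?_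
    rw [M_comm]; exact R.dA b h hh hlt
  · apply R.neg_o_right
    refine (R.ringB (nb b)).step (R.M_nb hh) ?_
    rw [M_comm]; exact R.dB b h hh hlt

lemma w_ne {b : ℚ} {h : ℝ} (hh : HH κ h) : (R.o b h).w ≠ 0 := by
  rcases lt_or_eq_of_le hh.2.1 with hlt | rfl
  · exact (R.dtype hh hlt).1
  · exact (R.etype b).1

/-- Distant caps are disjoint. -/
lemma dis_far {b t : ℚ} {h : ℝ} (hh : HH κ h) (h1 : 9 / 4 ≤ (t : ℝ) - b)
    (h2 : (t : ℝ) - b ≤ 60 - 9 / 4) : Dis (R.o b h) (R.o t κ) := by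
  obtain ⟨u, z, hb, h3⟩ := R.o_ne (b := t) R.top
  refine dis_of ?_ hb h3 (R.neg_o_right (R.far_el hh R.top h1 h2) u z hb h3)
  apply R.neg_o_right
  rw [← R.per b h]
  apply R.far_el R.top hh
  · push_cast; linarith
  · push_cast; linarith

end Rep

end Pool.Agent.Q213.SG
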