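import Pool.Agent.Q213.SGc

/-!
# Winding certificates

The total angle of the ring determines the modulus of the two reference circles.
-/

namespace Pool.Agent.Q213.SG

open Complex Finset

namespace Rep

variable {κ K : ℝ} (R : Rep κ K)

include R

lemma near_up {b δ : ℚ} (h1 : 5 / 4 ≤ (δ : ℝ)) (h2 : (δ : ℝ) ≤ 3) :
    Neg (R.o b κ) (R.ch (b + δ) (1 / 2)) := by
  have hc1 : ((b + δ : ℚ) : ℝ) ≤ ⌈b + δ⌉ := by exact_mod_cast Int.le_ceil (b + δ)
  have hc2 : (⌈b + δ⌉ : ℝ) < ((b + δ : ℚ) : ℝ) + 1 := by exact_mod_cast Int.ceil_lt_add_one (b + δ)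
  push_cast at hc1 hc2
  have hr : Neg (R.o b κ) (R.rg ⌈b + δ⌉) := R.far_ring R.top (by linarith) (by linarith)
  refine hr.step ?_ ?_
  · unfold rg
    rw [R.mm _ _ _ _ R.half R.half]
    apply lk_of
    · simp
    · push_cast
      rw [abs_of_nonneg (by linarith)]
      linarith
    · norm_num
  · rw [M_o_left, R.mm _ _ _ _ R.top R.half]
    have habs : |(b : ℝ) - ((b + δ : ℚ) : ℝ)| = δ := by
      push_cast
      rw [show (b : ℝ) - (b + δ) = -δ by ring, abs_neg, abs_of_nonneg (by linarith)]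
    apply not_lk (c := 5 / 4)
    · linarith [R.hκ1]
    · linarith [R.hκ2]
    · norm_num
    · rw [habs]; exact h1
    · rw [habs]; linarith

lemma near_dn {b δ : ℚ} (h1 : 5 / 4 ≤ (δ : ℝ)) (h2 : (δ : ℝ) ≤ 3) :
    Neg (R.o b κ) (R.ch (b - δ) (1 / 2)) := by
  have hc1 : (⌊b - δ⌋ : ℝ) ≤ ((b - δ : ℚ) : ℝ) := by exact_mod_cast Int.floor_le (b - δ)
  have hc2 : ((b - δ : ℚ) : ℝ) < (⌊b - δ⌋ : ℝ) + 1 := by exact_mod_cast Int.lt_floor_add_one (b - δ)
  push_cast at hc1 hc2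
  have hr : Neg (R.o b κ) (R.rg (⌊b - δ⌋ + 60)) :=
    R.far_ring R.top (by push_cast; linarith) (by push_cast; linarith)
  rw [R.rg_per] at hr
  refine hr.step ?_ ?_
  · unfold rg
    rw [R.mm _ _ _ _ R.half R.half]
    apply lk_of
    · simp
    · push_cast
      rw [abs_sub_comm, abs_of_nonneg (by linarith)]
      linarith
    · norm_num
  · rw [M_o_left, R.mm _ _ _ _ R.top R.half]
    have habs : |(b : ℝ) - ((b - δ : ℚ) : ℝ)| = δ := by
      push_cast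
      rw [show (b : ℝ) - (b - δ) = δ by ring, abs_of_nonneg (by linarith)]
    apply not_lk (c := 5 / 4)
    · linarith [R.hκ1]
    · linarith [R.hκ2]
    · norm_num
    · rw [habs]; exact h1
    · rw [habs]; linarith

/-- link between an element of the first kind and a connecting chord -/
lemma M_link {b b' : ℚ} {φ : ℝ} (hφ : κ < φ) (hφ2 : φ < κ + 1 / 20) (hd : |(b : ℝ) - b'| = φ) :
    M (R.ch b (1 / 2)) (R.ch b' κ) := by
  rw [R.mm _ _ _ _ R.half R.top]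
  apply lk_of
  · rw [hd, abs_le]
    constructor <;> linarith [R.hκ1, R.hκ2]
  · rw [hd]; linarith
  · linarith [R.hκ2]

lemma not_M_EE {b b' : ℚ} (h1 : 2 * κ < |(b : ℝ) - b'|) (h2 : |(b : ℝ) - b'| ≤ 20) :
    ¬ M (R.o b κ) (R.ch b' κ) := by
  rw [M_o_left, R.mm _ _ _ _ R.top R.top]
  apply not_lk (c := |(b : ℝ) - b'|)
  · linarith [R.hκ1]
  · linarith
  · linarith
  · exact le_refl _
  · linarith

section near

variable {φ : ℚ} (hφ : κ < φ) (hφ2 : φ < κ + 1 / 20) (b : ℚ)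

include hφ hφ2

lemma up2 : Neg (R.o b κ) (R.ch (b + 2 * φ) κ) := by
  have h1 := R.hκ1
  have h2 := R.hκ2
  have hD : Neg (R.o b κ) (R.ch (b + 3 * φ) (1 / 2)) := by
    apply R.near_up <;> push_cast <;> linarith
  refine hD.step (R.M_link hφ hφ2 ?_) (R.not_M_EE ?_ ?_)
  · push_cast
    rw [show (b : ℝ) + 3 * φ - (b + 2 * φ) = φ by ring, abs_of_pos (by linarith)]
  · push_cast
    rw [show (b : ℝ) - (b + 2 * φ) = -(2 * φ) by ring, abs_neg, abs_of_pos (by linarith)]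
    linarith
  · push_cast
    rw [show (b : ℝ) - (b + 2 * φ) = -(2 * φ) by ring, abs_neg, abs_of_pos (by linarith)]
    linarith

lemma up4 : Neg (R.o b κ) (R.ch (b + 4 * φ) κ) := by
  have h1 := R.hκ1
  have h2 := R.hκ2
  have hD : Neg (R.o b κ) (R.ch (b + 3 * φ) (1 / 2)) := by
    apply R.near_up <;> push_cast <;> linarith
  refine hD.step (R.M_link hφ hφ2 ?_) (R.not_M_EE ?_ ?_)
  · push_cast
    rw [show (b : ℝ) + 3 * φ - (b + 4 * φ) = -φ by ring, abs_neg, abs_of_pos (by linarith)]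
  · push_cast
    rw [show (b : ℝ) - (b + 4 * φ) = -(4 * φ) by ring, abs_neg, abs_of_pos (by linarith)]
    linarith
  · push_cast
    rw [show (b : ℝ) - (b + 4 * φ) = -(4 * φ) by ring, abs_neg, abs_of_pos (by linarith)]
    linarith

lemma dn2 : Neg (R.o b κ) (R.ch (b - 2 * φ) κ) := by
  have h1 := R.hκ1
  have h2 := R.hκ2
  have hD : Neg (R.o b κ) (R.ch (b - 3 * φ) (1 / 2)) := by
    apply R.near_dn <;> push_cast <;> linarith
  refine hD.step (R.M_link hφ hφ2 ?_) (R.not_M_EE ?_ ?_)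
  · push_cast
    rw [show (b : ℝ) - 3 * φ - (b - 2 * φ) = -φ by ring, abs_neg, abs_of_pos (by linarith)]
  · push_cast
    rw [show (b : ℝ) - (b - 2 * φ) = 2 * φ by ring, abs_of_pos (by linarith)]
    linarith
  · push_cast
    rw [show (b : ℝ) - (b - 2 * φ) = 2 * φ by ring, abs_of_pos (by linarith)]
    linarith

lemma dn4 : Neg (R.o b κ) (R.ch (b - 4 * φ) κ) := by
  have h1 := R.hκ1
  have h2 := R.hκ2
  have hD : Neg (R.o b κ) (R.ch (b - 3 * φ) (1 / 2)) := by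
    apply R.near_dn <;> push_cast <;> linarith
  refine hD.step (R.M_link hφ hφ2 ?_) (R.not_M_EE ?_ ?_)
  · push_cast
    rw [show (b : ℝ) - 3 * φ - (b - 4 * φ) = φ by ring, abs_of_pos (by linarith)]
  · push_cast
    rw [show (b : ℝ) - (b - 4 * φ) = 4 * φ by ring, abs_of_pos (by linarith)]
    linarith
  · push_cast
    rw [show (b : ℝ) - (b - 4 * φ) = 4 * φ by ring, abs_of_pos (by linarith)]
    linarith

omit hφ hφ2 in
lemma dis_EE {b b' : ℚ} (h1 : Neg (R.o b κ) (R.ch b' κ)) (h2 : Neg (R.o b' κ) (R.ch b κ)) :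
    Dis (R.o b κ) (R.o b' κ) := by
  obtain ⟨u, z, hb, h3⟩ := R.o_ne (b := b') R.top
  exact dis_of (R.neg_o_right h2) hb h3 (R.neg_o_right h1 u z hb h3)

omit hφ hφ2 in
lemma dis_DE {b c : ℚ} (h : Neg (R.o b κ) (R.ch c (1 / 2))) :
    Dis (R.o c (1 / 2)) (R.o b κ) := by
  have hm : M (R.o b κ) (PA K) := by rw [M_o_left]; exact R.eA b
  obtain ⟨u, z, hb, h1, h2⟩ := hm
  exact dis_of (R.neg_o_right h) hb h1
    ((R.neg_o_P R.half (by linarith [R.hκ1])).1 u z hb h2)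

lemma dis2 : Dis (R.o b κ) (R.o (b + 2 * φ) κ) := by
  apply R.dis_EE (R.up2 hφ hφ2 b)
  have := R.dn2 hφ hφ2 (b + 2 * φ)
  rwa [show b + 2 * φ - 2 * φ = b by ring] at this

lemma dis4 : Dis (R.o b κ) (R.o (b + 4 * φ) κ) := by
  apply R.dis_EE (R.up4 hφ hφ2 b)
  have := R.dn4 hφ hφ2 (b + 4 * φ)
  rwa [show b + 4 * φ - 4 * φ = b by ring] at this

end near

omit R in
lemma Dis.symm' {F G : Pl} (h : Dis F G) : Dis G F := fun u z hb h1 h2 => h u z hb h2 h1

/-! ### Angles along the ring -/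

omit R in
noncomputable def g0 (R : Rep κ K) (j : ℕ) : ℝ := gl (R.o (j : ℚ) (1 / 2)) (R.o ((j : ℚ) + 1) (1 / 2))

omit R in
noncomputable def Ys (R : Rep κ K) (n : ℕ) : ℝ := ∑ j ∈ range n, R.g0 j

omit R in
/-- The total angle of the ring. -/
noncomputable def Om (R : Rep κ K) : ℝ := R.Ys 60

lemma g0_per (j : ℕ) : R.g0 (j + 60) = R.g0 j := by
  unfold g0
  have e1 : (((j + 60 : ℕ)) : ℚ) = (j : ℚ) + 60 := by push_cast; ring
  have e2 : (((j + 60 : ℕ)) : ℚ) + 1 = ((j : ℚ) + 1) + 60 := by push_cast; ring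
  rw [e2, R.o_per, e1, R.o_per]

lemma Ys_succ (n : ℕ) : R.Ys (n + 1) = R.Ys n + R.g0 n := by
  unfold Ys; rw [sum_range_succ]

lemma Ys_per (n : ℕ) : R.Ys (n + 60) = R.Ys n + R.Om := by
  induction n with
  | zero =>
      have : R.Ys 0 = 0 := by simp [Ys]
      rw [this]; simp [Om]
  | succ n ih =>
      have : n + 1 + 60 = n + 60 + 1 := by ring
      rw [this, Ys_succ, ih, R.g0_per, Ys_succ]
      ring

lemma Ys_mul (n p : ℕ) : R.Ys (n + 60 * p) = R.Ys n + p * R.Om := by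
  induction p with
  | zero => simp
  | succ p ih =>
      have : n + 60 * (p + 1) = (n + 60 * p) + 60 := by ring
      rw [this, Ys_per, ih]
      push_cast
      ring

omit R in
noncomputable def x0 (R : Rep κ K) : ℝ := arg (R.o 0 (1 / 2)).w

lemma ring_D (j : ℚ) : DType K (R.o j (1 / 2)) := R.dtype R.half (by linarith [R.hκ1])

lemma M_ring_o (j : ℕ) : M (R.o (j : ℚ) (1 / 2)) (R.o ((j : ℚ) + 1) (1 / 2)) := by
  rw [M_o_left, M_o_right]
  have := R.M_rg j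
  unfold rg at this
  push_cast at this
  exact this

lemma ring_lift (n : ℕ) : Lift (R.o (n : ℚ) (1 / 2)) (R.x0 + R.Ys n) := by
  induction n with
  | zero =>
      have : R.Ys 0 = 0 := by simp [Ys]
      rw [this]
      simpa [x0] using lift_arg (R.o 0 (1 / 2))
  | succ n ih =>
      rw [Ys_succ, ← add_assoc]
      push_cast
      exact gl_lift (R.ring_D _).1 (R.ring_D _).1 R.cpos (R.M_ring_o n) (Or.inl (R.ring_D _)) ih

omit R in
/-- The angle of an element, measured along the ring. -/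
noncomputable def xx (R : Rep κ K) (b : ℚ) (h : ℝ) : ℝ :=
  R.x0 + R.Ys (nb b).toNat + gl (R.o ((nb b : ℤ) : ℚ) (1 / 2)) (R.o b h)

omit R in
lemma nb_nonneg {b : ℚ} (hb : 0 ≤ b) : 0 ≤ nb b := by
  have : 0 ≤ ⌊b⌋ := Int.floor_nonneg.mpr hb
  unfold nb
  split_ifs <;> omega

omit R in
lemma nb_cast {b : ℚ} (hb : 0 ≤ b) : (((nb b).toNat : ℕ) : ℚ) = ((nb b : ℤ) : ℚ) := by
  have h := Int.toNat_of_nonneg (nb_nonneg hb)
  exact_mod_cast h

lemma M_nb_o {b : ℚ} {h : ℝ} (hh : HH κ h) : M (R.o ((nb b : ℤ) : ℚ) (1 / 2)) (R.o b h) := by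
  rw [M_o_left, M_o_right]
  exact R.M_nb hh

lemma xx_lift {b : ℚ} (hb : 0 ≤ b) {h : ℝ} (hh : HH κ h) : Lift (R.o b h) (R.xx b h) := by
  unfold xx
  have h1 := R.ring_lift (nb b).toNat
  rw [nb_cast hb] at h1
  exact gl_lift (R.ring_D _).1 (R.w_ne hh) R.cpos (R.M_nb_o hh) (Or.inl (R.ring_D _)) h1

lemma NN_ring {t : ℚ} {j1 : ℕ} (n : ℕ) (h1 : (t : ℝ) - j1 ≤ 60 - 9 / 4)
    (h2 : 9 / 4 ≤ (t : ℝ) - (j1 + n : ℕ)) :
    NN (R.o t κ) (R.x0 + R.Ys (j1 + n)) = NN (R.o t κ) (R.x0 + R.Ys j1) := by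
  induction n with
  | zero => rfl
  | succ n ih =>
      push_cast at h2
      rw [← ih (by push_cast; linarith)]
      have e : j1 + (n + 1) = (j1 + n) + 1 := by ring
      have hn : (0 : ℝ) ≤ n := Nat.cast_nonneg n
      rw [e, Ys_succ, ← add_assoc]
      apply gl_nn (R.ring_D _).1 (R.ring_D _).1 R.cpos (R.M_ring_o _) (Or.inl (R.ring_D _))
        (R.etype t) _ _ (R.ring_lift _)
      · apply R.dis_far R.half
        · push_cast; linarith
        · push_cast; linarith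
      · apply R.dis_far R.half
        · push_cast; linarith
        · push_cast; linarith

lemma NN_xx {b t : ℚ} (hb : 0 ≤ b) {h : ℝ} (hh : HH κ h) (h1 : 5 ≤ (t : ℝ) - b)
    (h2 : (t : ℝ) - b ≤ 55) :
    NN (R.o t κ) (R.xx b h) = NN (R.o t κ) (R.x0 + R.Ys (nb b).toNat) := by
  unfold xx
  have hl := R.ring_lift (nb b).toNat
  rw [nb_cast hb] at hl
  obtain ⟨-, n2⟩ := nb_spec b
  rw [abs_le] at n2
  apply gl_nn (R.ring_D _).1 (R.w_ne hh) R.cpos (R.M_nb_o hh) (Or.inl (R.ring_D _))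
    (R.etype t) _ _ hl
  · apply R.dis_far R.half
    · push_cast; linarith
    · push_cast; linarith
  · apply R.dis_far hh
    · linarith
    · linarith

lemma NN_two {b b' t : ℚ} (hb : 0 ≤ b) (hbb : b ≤ b') (hb2 : b' ≤ b + 2) {h h' : ℝ}
    (hh : HH κ h) (hh' : HH κ h') (h1 : 10 ≤ (t : ℝ) - b) (h2 : (t : ℝ) - b ≤ 50) :
    NN (R.o t κ) (R.xx b h) = NN (R.o t κ) (R.xx b' h') := by
  have hbb' : (b : ℝ) ≤ b' := by exact_mod_cast hbb
  have hb2' : (b' : ℝ) ≤ b + 2 := by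
    have : ((b' : ℚ) : ℝ) ≤ ((b + 2 : ℚ) : ℝ) := by exact_mod_cast hb2
    push_cast at this; exact this
  have hb' : 0 ≤ b' := hb.trans hbb
  rw [R.NN_xx hb hh (by linarith) (by linarith), R.NN_xx hb' hh' (by linarith) (by linarith)]
  obtain ⟨-, n2⟩ := nb_spec b
  obtain ⟨-, n2'⟩ := nb_spec b'
  rw [abs_le] at n2 n2'
  have c1 : (((nb b).toNat : ℕ) : ℝ) = ((nb b : ℤ) : ℝ) := by
    have h := Int.toNat_of_nonneg (nb_nonneg hb)
    exact_mod_cast h
  have c2 : (((nb b').toNat : ℕ) : ℝ) = ((nb b' : ℤ) : ℝ) := by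
    have h := Int.toNat_of_nonneg (nb_nonneg hb')
    exact_mod_cast h
  rcases le_total (nb b).toNat (nb b').toNat with hle | hle
  · obtain ⟨n, hn⟩ : ∃ n : ℕ, (nb b').toNat = (nb b).toNat + n := ⟨_, (Nat.add_sub_cancel' hle).symm⟩
    rw [hn]
    symm
    apply R.NN_ring
    · rw [c1]; linarith
    · rw [← hn, c2]; linarith
  · obtain ⟨n, hn⟩ : ∃ n : ℕ, (nb b).toNat = (nb b').toNat + n := ⟨_, (Nat.add_sub_cancel' hle).symm⟩
    rw [hn]
    apply R.NN_ring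
    · rw [c2]; linarith
    · rw [← hn, c1]; linarith

lemma step_eq {b b' : ℚ} (hb : 0 ≤ b) (hbb : b ≤ b') (hb2 : b' ≤ b + 2) {h h' γ : ℝ}
    (hh : HH κ h) (hh' : HH κ h') (hl : Lift (R.o b' h') (R.xx b h + γ))
    (hN : NN (R.o (b + 30) κ) (R.xx b h + γ) = NN (R.o (b + 30) κ) (R.xx b h)) :
    R.xx b' h' = R.xx b h + γ := by
  apply lift_eq (R.w_ne hh') (R.xx_lift (hb.trans hbb) hh') hl (Z := R.o (b + 30) κ)
  rw [hN]
  symm
  apply R.NN_two hb hbb hb2 hh hh'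
  · push_cast; linarith
  · push_cast; linarith

lemma total (p : ℕ) (h : ℝ) : R.xx ((60 * p : ℕ) : ℚ) h - R.xx 0 h = p * R.Om := by
  have e0 : ((60 * p : ℕ) : ℚ) = 0 + 60 * ((p : ℤ) : ℚ) := by push_cast; ring
  have e1 : nb ((60 * p : ℕ) : ℚ) = nb 0 + 60 * p := by
    rw [e0, nb_add]
  have e2 : nb 0 = 1 := by simp [nb]
  unfold xx
  rw [e1, e2]
  have e3 : ((1 : ℤ) + 60 * (p : ℤ)).toNat = 1 + 60 * p := by omega
  rw [e3, R.Ys_mul]
  have e4 : (((1 : ℤ) + 60 * (p : ℤ) : ℤ) : ℚ) = 1 + 60 * (p : ℚ) := by push_cast; ring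
  have e5 : ((60 * p : ℕ) : ℚ) = 0 + 60 * (p : ℚ) := by push_cast; ring
  rw [e4, R.o_per_nat, e5, R.o_per_nat]
  simp

/-- **Lower certificates.** -/
theorem lower {φ : ℚ} (h1 : 1 / 2 ≤ (φ : ℝ)) (h2 : (φ : ℝ) < κ) : |R.Om| * φ ≤ 60 * K := by
  have hφH : HH κ (φ : ℝ) := ⟨h1, h2.le, Or.inr ⟨φ, rfl⟩⟩
  have hk := R.hκ2
  have hφ0 : 0 < φ := by
    have : (0:ℝ) < φ := by linarith
    exact_mod_cast this
  set bb : ℕ → ℚ := fun i => 2 * φ * i with hbb
  have hbb0 : ∀ i, 0 ≤ bb i := fun i => by rw [hbb]; positivity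
  have hM : ∀ i, M (R.o (bb i) φ) (R.o (bb (i + 1)) φ) := by
    intro i
    rw [M_o_left, M_o_right, R.mm _ _ _ _ hφH hφH]
    have e : ((bb i : ℚ) : ℝ) - ((bb (i + 1) : ℚ) : ℝ) = -(2 * φ) := by
      rw [hbb]; push_cast; ring
    rw [e]
    apply lk_of
    · simp
    · rw [abs_neg, abs_of_nonneg (by linarith)]; linarith
    · linarith
  have hstep : ∀ i, R.xx (bb (i + 1)) φ - R.xx (bb i) φ = gl (R.o (bb i) φ) (R.o (bb (i + 1)) φ) := by
    intro i
    have hD := R.dtype (b := bb i) hφH h2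
    have hD' := R.dtype (b := bb (i + 1)) hφH h2
    have e : bb (i + 1) = bb i + 2 * φ := by rw [hbb]; push_cast; ring
    have hq : 2 * φ ≤ 2 := by
      have : ((φ : ℚ) : ℝ) ≤ ((1 : ℚ) : ℝ) := by push_cast; linarith
      have : φ ≤ 1 := by exact_mod_cast this
      linarith
    have := R.step_eq (hbb0 i) (by rw [e]; linarith) (by rw [e]; linarith) hφH hφH
      (gl_lift hD.1 hD'.1 R.cpos (hM i) (Or.inl hD) (R.xx_lift (hbb0 i) hφH))
      (by
        apply gl_nn hD.1 hD'.1 R.cpos (hM i) (Or.inl hD) (R.etype _) _ _ (R.xx_lift (hbb0 i) hφH)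
        · apply R.dis_far hφH
          · push_cast; linarith
          · push_cast; linarith
        · apply R.dis_far hφH
          · rw [e]; push_cast; linarith
          · rw [e]; push_cast; linarith)
    linarith
  set q : ℕ := φ.den with hq
  set p : ℕ := φ.num.toNat with hp
  have hq0 : 0 < q := φ.den_pos
  have hpq : (p : ℚ) = φ * q := by
    have h3 : (0 : ℤ) ≤ φ.num := Rat.num_nonneg.mpr hφ0.le
    have h4 : ((p : ℕ) : ℤ) = φ.num := Int.toNat_of_nonneg h3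
    have h5 : ((p : ℕ) : ℚ) = (φ.num : ℚ) := by exact_mod_cast h4
    rw [h5, hq]
    exact (Rat.mul_den_eq_num φ).symm
  have hend : bb (30 * q) = ((60 * p : ℕ) : ℚ) := by
    rw [hbb]; push_cast; rw [hpq]; ring
  have hstart : bb 0 = 0 := by rw [hbb]; simp
  have hsum : ∑ i ∈ range (30 * q), gl (R.o (bb i) φ) (R.o (bb (i + 1)) φ) = p * R.Om := by
    rw [← R.total p φ, ← hend, ← hstart, ← Finset.sum_range_sub (fun i => R.xx (bb i) φ)]
    exact sum_congr rfl (fun i _ => (hstep i).symm)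
  have hbd : |(p : ℝ) * R.Om| ≤ (30 * q : ℕ) * (2 * K) := by
    rw [← hsum]
    refine (Finset.abs_sum_le_sum_abs _ _).trans ?_
    have : ∑ i ∈ range (30 * q), |gl (R.o (bb i) φ) (R.o (bb (i + 1)) φ)|
        ≤ ∑ i ∈ range (30 * q), (2 * K) :=
      sum_le_sum (fun i _ => (gl_bound R.hK R.hK2 (R.dtype hφH h2) (R.dtype hφH h2) (hM i)).le)
    refine this.trans ?_
    simp
  have hpr : (p : ℝ) = φ * q := by exact_mod_cast hpq
  have hqr : (0 : ℝ) < q := by exact_mod_cast hq0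
  rw [abs_mul, abs_of_nonneg (Nat.cast_nonneg p), hpr] at hbd
  push_cast at hbd
  have : (|R.Om| * φ) * q ≤ (60 * K) * q := by nlinarith
  exact le_of_mul_le_mul_right this hqr

end Rep

end Pool.Agent.Q213.SG
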