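import Pool.Agent.Q213.SGd

/-!
# The modulus is determined by the base
-/

namespace Pool.Agent.Q213.SG

open Complex Finset

lemma nn_lift {Z : Pl} (hw : Z.w ≠ 0) {x : ℝ} (hx : Lift Z x) (y : ℝ) :
    NN Z y = ⌊(y - x) / (2 * Real.pi)⌋ + NN Z x := by
  obtain ⟨n, hn⟩ := (lift_arg Z).unique hw hx
  have e1 : NN Z x = n := by
    rw [hn, nn_add]
    unfold NN
    simp
  have e2 : NN Z y = NN Z (y - x + arg Z.w) + n := by
    rw [← nn_add]
    congr 1
    rw [hn]; ring
  rw [e2, e1]
  unfold NN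
  congr 3
  ring

lemma sign_aux {a b P : ℝ} (hP : 0 < P) (h1 : ⌊-(a + b) / P⌋ = ⌊-b / P⌋)
    (h2 : ⌊a / P⌋ = ⌊(a + b) / P⌋) (ha : a ≠ 0) (hb : b ≠ 0) (hab : a + b ≠ 0) : 0 < a * b := by
  rcases lt_or_gt_of_ne ha with ha' | ha'
  · rcases lt_or_gt_of_ne hb with hb' | hb'
    · exact mul_pos_of_neg_of_neg ha' hb'
    · exfalso
      have k1 : ⌊a / P⌋ < 0 := by
        rw [Int.floor_lt]
        push_cast
        exact div_neg_of_neg_of_pos ha' hP
      have k2 : ⌊-b / P⌋ < 0 := by
        rw [Int.floor_lt]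
        push_cast
        exact div_neg_of_neg_of_pos (by linarith) hP
      rw [h2, Int.floor_lt] at k1
      rw [← h1, Int.floor_lt] at k2
      push_cast at k1 k2
      rw [div_lt_iff₀ hP] at k1 k2
      linarith
  · rcases lt_or_gt_of_ne hb with hb' | hb'
    · exfalso
      have k1 : 0 ≤ ⌊a / P⌋ := by
        rw [Int.floor_nonneg]; positivity
      have k2 : 0 ≤ ⌊-b / P⌋ := by
        rw [Int.floor_nonneg]
        exact div_nonneg (by linarith) hP.le
      rw [h2, Int.floor_nonneg, le_div_iff₀ hP] at k1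
      rw [← h1, Int.floor_nonneg, le_div_iff₀ hP] at k2
      apply hab
      linarith
    · exact mul_pos ha' hb'

namespace Rep

variable {κ K : ℝ} (R : Rep κ K)

include R

omit R in
/-- the angle between two elements of the first kind, by way of the connecting chord -/
noncomputable def ga (R : Rep κ K) (φ b : ℚ) : ℝ :=
  gl (R.o b κ) (R.o (b + φ) (1 / 2)) + gl (R.o (b + φ) (1 / 2)) (R.o (b + 2 * φ) κ)

section chain

variable {φ : ℚ} (hφ : κ < φ) (hφ2 : φ < κ + 1 / 20) {b : ℚ}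

include hφ hφ2

lemma Ma1 : M (R.o b κ) (R.o (b + φ) (1 / 2)) := by
  rw [M_o_left, M_o_right, M_comm]
  apply R.M_link hφ hφ2
  push_cast
  rw [show (b : ℝ) + φ - b = φ by ring, abs_of_pos (by linarith [R.hκ1])]

lemma Ma2 : M (R.o (b + φ) (1 / 2)) (R.o (b + 2 * φ) κ) := by
  rw [M_o_left, M_o_right]
  apply R.M_link hφ hφ2
  push_cast
  rw [show (b : ℝ) + φ - (b + 2 * φ) = -φ by ring, abs_neg, abs_of_pos (by linarith [R.hκ1])]

lemma ga_lift {x : ℝ} (hx : Lift (R.o b κ) x) : Lift (R.o (b + 2 * φ) κ) (x + R.ga φ b) := by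
  unfold ga
  rw [← add_assoc]
  exact gl_lift (R.ring_D _).1 (R.etype _).1 R.cpos (R.Ma2 hφ hφ2) (Or.inl (R.ring_D _))
    (gl_lift (R.etype _).1 (R.ring_D _).1 R.cpos (R.Ma1 hφ hφ2) (Or.inr (R.ring_D _)) hx)

lemma ga_nn {x : ℝ} (hx : Lift (R.o b κ) x) {Z : Pl} (hZ : EType K Z) (h1 : Dis (R.o b κ) Z)
    (h2 : Dis (R.o (b + φ) (1 / 2)) Z) (h3 : Dis (R.o (b + 2 * φ) κ) Z) :
    NN Z (x + R.ga φ b) = NN Z x := by
  unfold ga
  rw [← add_assoc]
  have hl := gl_lift (R.etype b).1 (R.ring_D (b + φ)).1 R.cpos (R.Ma1 hφ hφ2)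
    (Or.inr (R.ring_D _)) hx
  rw [gl_nn (R.ring_D _).1 (R.etype _).1 R.cpos (R.Ma2 hφ hφ2) (Or.inl (R.ring_D _)) hZ h2 h3 hl,
    gl_nn (R.etype _).1 (R.ring_D _).1 R.cpos (R.Ma1 hφ hφ2) (Or.inr (R.ring_D _)) hZ h1 h2 hx]

lemma ga_step (hb : 0 ≤ b) : R.xx (b + 2 * φ) κ = R.xx b κ + R.ga φ b := by
  have h1 := R.hκ1
  have h2 := R.hκ2
  have hφq : 0 ≤ φ := by
    have : (0:ℝ) ≤ φ := by linarith
    exact_mod_cast this
  have hφ1 : φ ≤ 1 := by
    have : ((φ : ℚ) : ℝ) ≤ ((1 : ℚ) : ℝ) := by push_cast; linarith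
    exact_mod_cast this
  apply R.step_eq hb (by linarith) (by linarith) R.top R.top
  · exact R.ga_lift hφ hφ2 (R.xx_lift hb R.top)
  · apply R.ga_nn hφ hφ2 (R.xx_lift hb R.top) (R.etype _)
    · apply R.dis_far R.top <;> push_cast <;> linarith
    · apply R.dis_far R.half <;> push_cast <;> linarith
    · apply R.dis_far R.top <;> push_cast <;> linarith

lemma ga_big (hb : 0 ≤ b) : 2 * K < |R.ga φ b| := by
  have hφq : 0 ≤ φ := by
    have : (0:ℝ) ≤ φ := by linarith [R.hκ1]
    exact_mod_cast this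
  have h := gap R.hK R.hK2 (R.etype _) (R.etype _) (R.dis2 hφ hφ2 b) (R.xx_lift hb R.top)
    (R.xx_lift (b := b + 2 * φ) (by positivity) R.top)
  rw [R.ga_step hφ hφ2 hb] at h
  have e : R.xx b κ - (R.xx b κ + R.ga φ b) = - R.ga φ b := by ring
  rwa [e, abs_neg] at h

lemma ga_sign (hb : 0 ≤ b) : 0 < R.ga φ b * R.ga φ (b + 2 * φ) := by
  have hk1 := R.hκ1
  have hk2 := R.hκ2
  have hφq : 0 ≤ φ := by
    have : (0:ℝ) ≤ φ := by linarith [R.hκ1]
    exact_mod_cast this
  have hb2 : 0 ≤ b + 2 * φ := by positivity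
  have hb4 : 0 ≤ b + 2 * φ + 2 * φ := by positivity
  have e4 : b + 2 * φ + 2 * φ = b + 4 * φ := by ring
  have s1 := R.ga_step hφ hφ2 hb
  have s2 := R.ga_step hφ hφ2 hb2
  have l0 := R.xx_lift hb R.top
  have l1 := R.xx_lift hb2 R.top
  have l2 := R.xx_lift hb4 R.top
  have d01 := R.dis2 hφ hφ2 b
  have d12 := R.dis2 hφ hφ2 (b + 2 * φ)
  have d02 := R.dis4 hφ hφ2 b
  rw [← e4] at d02
  have g1 := R.ga_big hφ hφ2 hb
  have g2 := R.ga_big hφ hφ2 hb2
  have g12 := gap R.hK R.hK2 (R.etype _) (R.etype _) d02 l0 l2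
  set a := R.ga φ b
  set c := R.ga φ (b + 2 * φ)
  have hK := R.hK
  -- first relation
  have r1 : NN (R.o (b + 2 * φ + 2 * φ) κ) (R.xx b κ + a) = NN (R.o (b + 2 * φ + 2 * φ) κ) (R.xx b κ) := by
    apply R.ga_nn hφ hφ2 l0 (R.etype _) d02 _ d12
    apply R.dis_DE
    have := R.near_dn (b := b + 4 * φ) (δ := 3 * φ) (by push_cast; linarith) (by push_cast; linarith)
    rw [e4]
    rwa [show b + 4 * φ - 3 * φ = b + φ by ring] at this
  have r2 : NN (R.o b κ) (R.xx (b + 2 * φ) κ + c) = NN (R.o b κ) (R.xx (b + 2 * φ) κ) := by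
    apply R.ga_nn hφ hφ2 l1 (R.etype _) (Dis.symm' d01) _ (Dis.symm' d02)
    apply R.dis_DE
    have := R.near_up (b := b) (δ := 3 * φ) (by push_cast; linarith) (by push_cast; linarith)
    rwa [show b + 3 * φ = b + 2 * φ + φ by ring] at this
  rw [nn_lift (R.etype _).1 l2, nn_lift (R.etype _).1 l2 (R.xx b κ)] at r1
  rw [nn_lift (R.etype _).1 l0, nn_lift (R.etype _).1 l0 (R.xx (b + 2 * φ) κ)] at r2
  rw [s2, s1] at r1 g12
  rw [s1] at r2
  have q1 : R.xx b κ + a - (R.xx b κ + a + c) = -c := by ring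
  have q2 : R.xx b κ - (R.xx b κ + a + c) = -(a + c) := by ring
  have q3 : R.xx b κ + a + c - R.xx b κ = a + c := by ring
  have q4 : R.xx b κ + a - R.xx b κ = a := by ring
  rw [q1, q2] at r1
  rw [q3, q4] at r2
  rw [q2] at g12
  apply sign_aux (P := 2 * Real.pi) (by positivity)
  · omega
  · omega
  · intro h; rw [h] at g1; simp at g1; linarith
  · intro h; rw [h] at g2; simp at g2; linarith
  · intro h; rw [h] at g12; simp at g12; linarith

end chain

/-- **Upper certificates.** -/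
theorem upper {φ : ℚ} (hφ : κ < φ) (hφ2 : φ < κ + 1 / 20) : 60 * K ≤ |R.Om| * φ := by
  have hφ0 : 0 < φ := by
    have : (0:ℝ) < φ := by linarith [R.hκ1]
    exact_mod_cast this
  set bb : ℕ → ℚ := fun i => 2 * φ * i with hbb
  have hbb0 : ∀ i, 0 ≤ bb i := fun i => by rw [hbb]; positivity
  have hnext : ∀ i, bb (i + 1) = bb i + 2 * φ := fun i => by rw [hbb]; push_cast; ring
  have hstep : ∀ i, R.xx (bb (i + 1)) κ - R.xx (bb i) κ = R.ga φ (bb i) := by
    intro i
    rw [hnext, R.ga_step hφ hφ2 (hbb0 i)]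
    ring
  have hbig : ∀ i, 2 * K < |R.ga φ (bb i)| := fun i => R.ga_big hφ hφ2 (hbb0 i)
  have hsgn : ∀ i, 0 < R.ga φ (bb i) * R.ga φ (bb (i + 1)) := by
    intro i
    rw [hnext]
    exact R.ga_sign hφ hφ2 (hbb0 i)
  set q : ℕ := φ.den with hq
  set p : ℕ := φ.num.toNat with hp
  have hq0 : 0 < q := φ.den_pos
  have hpq : (p : ℚ) = φ * q := by
    have h3 : (0 : ℤ) ≤ φ.num := Rat.num_nonneg.mpr hφ0.le
    have h4 : ((p : ℕ) : ℤ) = φ.num := Int.toNat_of_nonneg h3
    have h5 : ((p : ℕ) : ℚ) = (φ.num : ℚ) := by exact_mod_cast h4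
    rw [h5, hq]
    exact (Rat.mul_den_eq_num φ).symm
  have hend : bb (30 * q) = ((60 * p : ℕ) : ℚ) := by
    rw [hbb]; push_cast; rw [hpq]; ring
  have hstart : bb 0 = 0 := by rw [hbb]; simp
  have hsum : ∑ i ∈ range (30 * q), R.ga φ (bb i) = p * R.Om := by
    rw [← R.total p κ, ← hend, ← hstart, ← Finset.sum_range_sub (fun i => R.xx (bb i) κ)]
    exact sum_congr rfl (fun i _ => (hstep i).symm)
  have hbd : (30 * q : ℕ) * (2 * K) ≤ |(p : ℝ) * R.Om| := by
    rw [← hsum]
    have h0 : R.ga φ (bb 0) ≠ 0 := by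
      intro h
      have := hbig 0
      rw [h] at this
      simp at this
      linarith [R.hK]
    rcases lt_or_gt_of_ne h0 with hneg | hpos
    · have hall : ∀ i, R.ga φ (bb i) < 0 := by
        intro i
        induction i with
        | zero => exact hneg
        | succ i ih =>
            have := hsgn i
            by_contra hc
            push Not at hc
            nlinarith
      have h1 : ∑ i ∈ range (30 * q), (2 * K) ≤ ∑ i ∈ range (30 * q), -(R.ga φ (bb i)) := by
        apply sum_le_sum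
        intro i _
        have := hbig i
        rw [abs_of_neg (hall i)] at this
        exact this.le
      rw [sum_neg_distrib] at h1
      simp only [sum_const, card_range, nsmul_eq_mul] at h1
      exact h1.trans (neg_le_abs _)
    · have hall : ∀ i, 0 < R.ga φ (bb i) := by
        intro i
        induction i with
        | zero => exact hpos
        | succ i ih =>
            have := hsgn i
            by_contra hc
            push Not at hc
            nlinarith
      have h1 : ∑ i ∈ range (30 * q), (2 * K) ≤ ∑ i ∈ range (30 * q), (R.ga φ (bb i)) := by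
        apply sum_le_sum
        intro i _
        have := hbig i
        rw [abs_of_pos (hall i)] at this
        exact this.le
      simp only [sum_const, card_range, nsmul_eq_mul] at h1
      exact h1.trans (le_abs_self _)
  have hpr : (p : ℝ) = φ * q := by exact_mod_cast hpq
  have hqr : (0 : ℝ) < q := by exact_mod_cast hq0
  rw [abs_mul, abs_of_nonneg (Nat.cast_nonneg p), hpr] at hbd
  push_cast at hbd
  have : (60 * K) * q ≤ (|R.Om| * φ) * q := by nlinarith
  exact le_of_mul_le_mul_right this hqr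

/-- **The modulus of the reference circles is determined by the total angle of the ring.** -/
theorem det : |R.Om| * κ = 60 * K := by
  have hk1 := R.hκ1
  have hK := R.hK
  apply le_antisymm
  · by_contra hc
    push Not at hc
    have hOm : 0 < |R.Om| := by
      rcases (abs_nonneg R.Om).lt_or_eq with h | h
      · exact h
      · rw [← h] at hc; linarith
    have h1 : max (1 / 2) (60 * K / |R.Om|) < κ := by
      apply max_lt (by linarith)
      rw [div_lt_iff₀ hOm]; linarith
    obtain ⟨φ, h2, h3⟩ := exists_rat_btwn h1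
    have h4 := R.lower (φ := φ) ((le_max_left _ _).trans h2.le) h3
    have h5 : 60 * K / |R.Om| < φ := (le_max_right _ _).trans_lt h2
    rw [div_lt_iff₀ hOm] at h5
    linarith
  · by_contra hc
    push Not at hc
    rcases (abs_nonneg R.Om).lt_or_eq with hOm | hOm
    · have h1 : κ < min (κ + 1 / 20) (60 * K / |R.Om|) := by
        apply lt_min (by linarith)
        rw [lt_div_iff₀ hOm]; linarith
      obtain ⟨φ, h2, h3⟩ := exists_rat_btwn h1
      have h4 := R.upper (φ := φ) h2 (h3.trans_le (min_le_left _ _))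
      have h5 : (φ : ℝ) < 60 * K / |R.Om| := h3.trans_le (min_le_right _ _)
      rw [lt_div_iff₀ hOm] at h5
      linarith
    · have h1 : κ < κ + 1 / 20 := by linarith
      obtain ⟨φ, h2, h3⟩ := exists_rat_btwn h1
      have h4 := R.upper (φ := φ) h2 h3
      rw [← hOm] at h4
      linarith

end Rep

/-- Two representations with the same ring (and the same reference circles) have the same
parameter. -/
theorem kappa_unique {κ κ' K : ℝ} (R : Rep κ K) (R' : Rep κ' K) (h : ∀ j : ℤ, R.rg j = R'.rg j) :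
    κ = κ' := by
  have ho : ∀ j : ℤ, R.o (j : ℚ) (1 / 2) = R'.o (j : ℚ) (1 / 2) := by
    intro j
    have h1 : R.ch (j : ℚ) (1 / 2) = R'.ch (j : ℚ) (1 / 2) := h j
    unfold Rep.o
    rw [h1, h]
  have hOm : R.Om = R'.Om := by
    unfold Rep.Om Rep.Ys
    apply sum_congr rfl
    intro j _
    unfold Rep.g0
    have h1 := ho (j : ℤ)
    have h2 := ho ((j : ℤ) + 1)
    push_cast at h1 h2
    rw [h1, h2]
  have d1 := R.det
  have d2 := R'.det
  rw [← hOm] at d2
  have hne : |R.Om| ≠ 0 := by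
    intro h0
    rw [h0] at d1
    linarith [R.hK]
  exact mul_left_cancel₀ hne (d1.trans d2.symm)

end Pool.Agent.Q213.SG
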