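import Pool.Agent.Q213.SGe

/-!
# The realised family
-/

namespace Pool.Agent.Q213.SG

open Complex

/-- Indices of the realised family. -/
inductive Ix
  | A | B | X | Y
  | ch (b : ℚ) (h : ℝ)

/-- Valid indices. -/
def Good (κ : ℝ) : Ix → Prop
  | .ch _ h => HH κ h
  | _ => True

/-- The planes of the family. -/
noncomputable def pl (κ : ℝ) : Ix → Pl
  | .A => PA (Real.pi * κ / 30)
  | .B => PB (Real.pi * κ / 30)
  | .X => ⟨⟨Real.cos (Real.pi * κ / 30) * Real.cos (Real.pi / 60),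
      Real.cos (Real.pi * κ / 30) * Real.sin (Real.pi / 60)⟩, - Real.sin (Real.pi * κ / 30),
      Real.cos (Real.pi * κ / 30)⟩
  | .Y => ⟨⟨Real.cos (Real.pi * κ / 30) * Real.cos (Real.pi / 60),
      Real.cos (Real.pi * κ / 30) * Real.sin (Real.pi / 60)⟩, Real.sin (Real.pi * κ / 30),
      Real.cos (Real.pi * κ / 30)⟩
  | .ch b h => ⟨⟨Real.cos (Real.pi * b / 30), Real.sin (Real.pi * b / 30)⟩, 0,
      Real.cos (Real.pi * h / 30)⟩

/-- Two chords of the unit circle meet. -/
lemma chords_meet {a b a' b' P Q : ℝ} (h : a ^ 2 + b ^ 2 = 1) (h' : a' ^ 2 + b' ^ 2 = 1)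
    (hP : P ^ 2 ≤ 1) :
    (∃ x y : ℝ, x ^ 2 + y ^ 2 ≤ 1 ∧ a * x + b * y = P ∧ a' * x + b' * y = Q) ↔
      (a * a' + b * b' - P * Q) ^ 2 ≤ (1 - P ^ 2) * (1 - Q ^ 2) := by
  constructor
  · rintro ⟨x, y, hxy, rfl, rfl⟩
    -- Gram determinant
    have hC : (a * a' + b * b') ^ 2 + (a * b' - b * a') ^ 2 = 1 := by
      have : (a * a' + b * b') ^ 2 + (a * b' - b * a') ^ 2 = (a ^ 2 + b ^ 2) * (a' ^ 2 + b' ^ 2) := by
        ring
      rw [this, h, h']; norm_num
    have e : (1 - (a * x + b * y) ^ 2) * (1 - (a' * x + b' * y) ^ 2)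
        - (a * a' + b * b' - (a * x + b * y) * (a' * x + b' * y)) ^ 2
        = (a * b' - b * a') ^ 2 * (1 - (x ^ 2 + y ^ 2)) := by
      have ha : a ^ 2 = 1 - b ^ 2 := by linarith
      have ha' : a' ^ 2 = 1 - b' ^ 2 := by linarith
      have k1 : (a * x + b * y) ^ 2 + (a' * x + b' * y) ^ 2
          - 2 * (a * a' + b * b') * ((a * x + b * y) * (a' * x + b' * y))
          = (a * b' - b * a') ^ 2 * (x ^ 2 + y ^ 2) := by
        have q1 : (a * x + b * y) ^ 2 + (a' * x + b' * y) ^ 2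
          - 2 * (a * a' + b * b') * ((a * x + b * y) * (a' * x + b' * y))
          - (a * b' - b * a') ^ 2 * (x ^ 2 + y ^ 2)
          = (1 - (a' ^ 2 + b' ^ 2)) * (a * x + b * y) ^ 2
            + (1 - (a ^ 2 + b ^ 2)) * (a' * x + b' * y) ^ 2 := by ring
        rw [h, h'] at q1
        linarith
      linear_combination -k1 + (-1 : ℝ) * hC
    have e2 : 0 ≤ (a * b' - b * a') ^ 2 * (1 - (x ^ 2 + y ^ 2)) :=
      mul_nonneg (sq_nonneg _) (by linarith)
    linarith
  · intro hle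
    have hC : (a * a' + b * b') ^ 2 + (a * b' - b * a') ^ 2 = 1 := by
      have : (a * a' + b * b') ^ 2 + (a * b' - b * a') ^ 2 = (a ^ 2 + b ^ 2) * (a' ^ 2 + b' ^ 2) := by
        ring
      rw [this, h, h']; norm_num
    by_cases hS : a * b' - b * a' = 0
    · -- parallel chords
      set C := a * a' + b * b' with hCdef
      rw [hS] at hC
      have hC1 : C ^ 2 = 1 := by linarith
      have hPQ : (P - C * Q) ^ 2 ≤ 0 := by nlinarith
      have hPQ' : P - C * Q = 0 := by
        have : (P - C * Q) ^ 2 = 0 := le_antisymm hPQ (sq_nonneg _)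
        exact pow_eq_zero_iff (two_ne_zero) |>.mp this
      have e1 : a' = C * a := by
        rw [hCdef]
        have : (a * a' + b * b') * a = a' * (a ^ 2 + b ^ 2) + b * (a * b' - b * a') := by ring
        rw [this, h, hS]; ring
      have e2 : b' = C * b := by
        rw [hCdef]
        have : (a * a' + b * b') * b = b' * (a ^ 2 + b ^ 2) - a * (a * b' - b * a') := by ring
        rw [this, h, hS]; ring
      refine ⟨P * a, P * b, ?_, ?_, ?_⟩
      · have : (P * a) ^ 2 + (P * b) ^ 2 = P ^ 2 * (a ^ 2 + b ^ 2) := by ring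
        rw [this, h, mul_one]; exact hP
      · have : a * (P * a) + b * (P * b) = P * (a ^ 2 + b ^ 2) := by ring
        rw [this, h, mul_one]
      · rw [e1, e2]
        have : C * a * (P * a) + C * b * (P * b) = C * P * (a ^ 2 + b ^ 2) := by ring
        rw [this, h, mul_one]
        have : P = C * Q := by linarith
        rw [this]
        have : C * (C * Q) = C ^ 2 * Q := by ring
        rw [this, hC1, one_mul]
    · set S := a * b' - b * a' with hSdef
      refine ⟨(P * b' - Q * b) / S, (Q * a - P * a') / S, ?_, ?_, ?_⟩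
      · have hS2 : 0 < S ^ 2 := by positivity
        have : ((P * b' - Q * b) / S) ^ 2 + ((Q * a - P * a') / S) ^ 2
            = ((P * b' - Q * b) ^ 2 + (Q * a - P * a') ^ 2) / S ^ 2 := by
          field_simp
        rw [this, div_le_one hS2]
        have e1 : (P * b' - Q * b) ^ 2 + (Q * a - P * a') ^ 2
            = P ^ 2 * (a' ^ 2 + b' ^ 2) + Q ^ 2 * (a ^ 2 + b ^ 2) - 2 * P * Q * (a * a' + b * b') := by
          ring
        rw [e1, h, h']
        nlinarith
      · field_simp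
        rw [hSdef]; ring
      · field_simp
        rw [hSdef]; ring

lemma M_ch {κ : ℝ} (hκ : κ < 3 / 4) {b b' : ℚ} {h h' : ℝ} (hh : HH κ h) (hh' : HH κ h') :
    M (pl κ (.ch b h)) (pl κ (.ch b' h')) ↔ Lk ((b : ℝ) - b') h h' := by
  have hp := Real.pi_pos
  have key := chords_meet (a := Real.cos (Real.pi * b / 30)) (b := Real.sin (Real.pi * b / 30))
    (a' := Real.cos (Real.pi * b' / 30)) (b' := Real.sin (Real.pi * b' / 30))
    (P := Real.cos (Real.pi * h / 30)) (Q := Real.cos (Real.pi * h' / 30))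
    (Real.cos_sq_add_sin_sq _) (Real.cos_sq_add_sin_sq _) (Real.cos_sq_le_one _)
  have e1 : M (pl κ (.ch b h)) (pl κ (.ch b' h')) ↔
      ∃ x y : ℝ, x ^ 2 + y ^ 2 ≤ 1 ∧
        Real.cos (Real.pi * b / 30) * x + Real.sin (Real.pi * b / 30) * y = Real.cos (Real.pi * h / 30) ∧
        Real.cos (Real.pi * b' / 30) * x + Real.sin (Real.pi * b' / 30) * y
          = Real.cos (Real.pi * h' / 30) := by
    constructor
    · rintro ⟨u, z, hb, h1, h2⟩
      refine ⟨u.re, u.im, ?_, ?_, ?_⟩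
      · unfold Ball at hb; nlinarith [sq_nonneg z]
      · simp only [ell, pl] at h1; linarith
      · simp only [ell, pl] at h2; linarith
    · rintro ⟨x, y, hb, h1, h2⟩
      refine ⟨⟨x, y⟩, 0, ?_, ?_, ?_⟩
      · unfold Ball; simpa using hb
      · simp only [ell, pl]; linarith
      · simp only [ell, pl]; linarith
  rw [e1, key]
  have hs : 0 < Real.sin (Real.pi * h / 30) := by
    apply Real.sin_pos_of_pos_of_lt_pi
    · have := hh.1; positivity
    · have := hh.2.1; nlinarith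
  have hs' : 0 < Real.sin (Real.pi * h' / 30) := by
    apply Real.sin_pos_of_pos_of_lt_pi
    · have := hh'.1; positivity
    · have := hh'.2.1; nlinarith
  have e2 : (1 - Real.cos (Real.pi * h / 30) ^ 2) * (1 - Real.cos (Real.pi * h' / 30) ^ 2)
      = (Real.sin (Real.pi * h / 30) * Real.sin (Real.pi * h' / 30)) ^ 2 := by
    have := Real.cos_sq_add_sin_sq (Real.pi * h / 30)
    have := Real.cos_sq_add_sin_sq (Real.pi * h' / 30)
    have k1 : 1 - Real.cos (Real.pi * h / 30) ^ 2 = Real.sin (Real.pi * h / 30) ^ 2 := by linarith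
    have k2 : 1 - Real.cos (Real.pi * h' / 30) ^ 2 = Real.sin (Real.pi * h' / 30) ^ 2 := by linarith
    rw [k1, k2]; ring
  rw [e2, sq_le_sq, abs_of_pos (mul_pos hs hs'), abs_le]
  unfold Lk
  have e3 : Real.cos (Real.pi * ((b : ℝ) - b') / 30)
      = Real.cos (Real.pi * b / 30) * Real.cos (Real.pi * b' / 30)
        + Real.sin (Real.pi * b / 30) * Real.sin (Real.pi * b' / 30) := by
    rw [← Real.cos_sub]; congr 1; ring
  have e4 : Real.cos (Real.pi * (h + h') / 30)
      = Real.cos (Real.pi * h / 30) * Real.cos (Real.pi * h' / 30)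
        - Real.sin (Real.pi * h / 30) * Real.sin (Real.pi * h' / 30) := by
    rw [← Real.cos_add]; congr 1; ring
  have e5 : Real.cos (Real.pi * (h - h') / 30)
      = Real.cos (Real.pi * h / 30) * Real.cos (Real.pi * h' / 30)
        + Real.sin (Real.pi * h / 30) * Real.sin (Real.pi * h' / 30) := by
    rw [← Real.cos_sub]; congr 1; ring
  rw [e3, e4, e5]
  constructor
  · rintro ⟨h1, h2⟩
    constructor <;> linarith
  · rintro ⟨h1, h2⟩
    constructor <;> linarith

section facts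

variable {κ : ℝ} (hκ1 : 3 / 5 < κ) (hκ2 : κ < 3 / 4)

include hκ1 hκ2

lemma kc_pos : 0 < Real.cos (Real.pi * κ / 30) := by
  have hp := Real.pi_pos
  apply Real.cos_pos_of_mem_Ioo
  constructor
  · have : 0 < Real.pi * κ / 30 := by positivity
    linarith
  · nlinarith

lemma ks_pos : 0 < Real.sin (Real.pi * κ / 30) := by
  have hp := Real.pi_pos
  apply Real.sin_pos_of_pos_of_lt_pi
  · positivity
  · nlinarith

lemma M_chA (b : ℚ) : M (pl κ (.ch b κ)) (pl κ .A) := by
  refine ⟨⟨Real.cos (Real.pi * κ / 30) * Real.cos (Real.pi * b / 30),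
    Real.cos (Real.pi * κ / 30) * Real.sin (Real.pi * b / 30)⟩, Real.sin (Real.pi * κ / 30),
    ?_, ?_, ?_⟩
  · unfold Ball
    have h1 := Real.cos_sq_add_sin_sq (Real.pi * b / 30)
    have h2 := Real.cos_sq_add_sin_sq (Real.pi * κ / 30)
    simp only
    have : (Real.cos (Real.pi * κ / 30) * Real.cos (Real.pi * b / 30)) ^ 2
      + (Real.cos (Real.pi * κ / 30) * Real.sin (Real.pi * b / 30)) ^ 2
      + Real.sin (Real.pi * κ / 30) ^ 2
      = Real.cos (Real.pi * κ / 30) ^ 2 * (Real.cos (Real.pi * b / 30) ^ 2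
        + Real.sin (Real.pi * b / 30) ^ 2) + Real.sin (Real.pi * κ / 30) ^ 2 := by ring
    rw [this, h1, mul_one, h2]
  · simp only [ell, pl]
    have h1 := Real.cos_sq_add_sin_sq (Real.pi * b / 30)
    linear_combination Real.cos (Real.pi * κ / 30) * h1
  · simp [pl, ell_PA]

lemma M_chB (b : ℚ) : M (pl κ (.ch b κ)) (pl κ .B) := by
  refine ⟨⟨Real.cos (Real.pi * κ / 30) * Real.cos (Real.pi * b / 30),
    Real.cos (Real.pi * κ / 30) * Real.sin (Real.pi * b / 30)⟩, -Real.sin (Real.pi * κ / 30),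
    ?_, ?_, ?_⟩
  · unfold Ball
    have h1 := Real.cos_sq_add_sin_sq (Real.pi * b / 30)
    have h2 := Real.cos_sq_add_sin_sq (Real.pi * κ / 30)
    simp only
    have : (Real.cos (Real.pi * κ / 30) * Real.cos (Real.pi * b / 30)) ^ 2
      + (Real.cos (Real.pi * κ / 30) * Real.sin (Real.pi * b / 30)) ^ 2
      + (-Real.sin (Real.pi * κ / 30)) ^ 2
      = Real.cos (Real.pi * κ / 30) ^ 2 * (Real.cos (Real.pi * b / 30) ^ 2
        + Real.sin (Real.pi * b / 30) ^ 2) + Real.sin (Real.pi * κ / 30) ^ 2 := by ring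
    rw [this, h1, mul_one, h2]
  · simp only [ell, pl]
    have h1 := Real.cos_sq_add_sin_sq (Real.pi * b / 30)
    linear_combination Real.cos (Real.pi * κ / 30) * h1
  · simp [pl, ell, PB]

lemma far {b : ℚ} {h : ℝ} (hh : HH κ h) (hlt : h < κ) {u : ℂ} {z : ℝ} (hb : Ball u z)
    (hz : z ^ 2 = Real.sin (Real.pi * κ / 30) ^ 2) : ell (pl κ (.ch b h)) u z ≠ 0 := by
  intro h1
  simp only [ell, pl] at h1
  have hc := kc_pos hκ1 hκ2
  have h2 : Real.cos (Real.pi * κ / 30) < Real.cos (Real.pi * h / 30) := by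
    apply cos_lt_unit (by linarith [hh.1]) hlt (by linarith)
  have h3 := Real.cos_sq_add_sin_sq (Real.pi * κ / 30)
  have h4 := Real.cos_sq_add_sin_sq (Real.pi * b / 30)
  have h5 : Real.cos (Real.pi * b / 30) * u.re + Real.sin (Real.pi * b / 30) * u.im
      = Real.cos (Real.pi * h / 30) := by linarith
  have h6 : (Real.cos (Real.pi * b / 30) * u.re + Real.sin (Real.pi * b / 30) * u.im) ^ 2
      ≤ u.re ^ 2 + u.im ^ 2 := by
    have : u.re ^ 2 + u.im ^ 2 = (Real.cos (Real.pi * b / 30) ^ 2 + Real.sin (Real.pi * b / 30) ^ 2)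
        * (u.re ^ 2 + u.im ^ 2) := by rw [h4, one_mul]
    rw [this]
    nlinarith [sq_nonneg (Real.cos (Real.pi * b / 30) * u.im - Real.sin (Real.pi * b / 30) * u.re)]
  rw [h5] at h6
  unfold Ball at hb
  nlinarith

lemma not_M_chA {b : ℚ} {h : ℝ} (hh : HH κ h) (hlt : h < κ) :
    ¬ M (pl κ (.ch b h)) (pl κ .A) := by
  rintro ⟨u, z, hb, h1, h2⟩
  apply far hκ1 hκ2 hh hlt hb _ h1
  simp only [pl, ell_PA] at h2
  have : z = Real.sin (Real.pi * κ / 30) := by linarith
  rw [this]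

lemma not_M_chB {b : ℚ} {h : ℝ} (hh : HH κ h) (hlt : h < κ) :
    ¬ M (pl κ (.ch b h)) (pl κ .B) := by
  rintro ⟨u, z, hb, h1, h2⟩
  apply far hκ1 hκ2 hh hlt hb _ h1
  simp [pl, ell, PB] at h2
  have : z = -Real.sin (Real.pi * κ / 30) := by linarith
  rw [this]; ring

lemma not_M_AB : ¬ M (pl κ .A) (pl κ .B) := by
  rintro ⟨u, z, hb, h1, h2⟩
  have hs := ks_pos hκ1 hκ2
  simp only [pl, ell_PA] at h1
  simp [pl, ell, PB] at h2
  linarith

lemma half_good : HH κ (1 / 2) :=
  ⟨le_refl _, by linarith, Or.inr ⟨1 / 2, by norm_num⟩⟩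

lemma top_good : HH κ κ := ⟨by linarith, le_refl _, Or.inl rfl⟩

/-- The common computation for the two connecting discs. -/
lemma conn_ball {z : ℝ} (hz : z ^ 2 = Real.sin (Real.pi * κ / 30) ^ 2) :
    Ball ⟨(Real.cos (Real.pi * κ / 30) - Real.sin (Real.pi * κ / 30) ^ 2)
        / Real.cos (Real.pi * κ / 30) * Real.cos (Real.pi / 60),
      (Real.cos (Real.pi * κ / 30) - Real.sin (Real.pi * κ / 30) ^ 2)
        / Real.cos (Real.pi * κ / 30) * Real.sin (Real.pi / 60)⟩ z := by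
  have hc := kc_pos hκ1 hκ2
  have hp := Real.pi_pos
  have hp4 := Real.pi_lt_four
  have h3 := Real.cos_sq_add_sin_sq (Real.pi * κ / 30)
  have h4 := Real.cos_sq_add_sin_sq (Real.pi / 60)
  have hc1 := Real.cos_le_one (Real.pi * κ / 30)
  have hc2 : 3 / 4 ≤ Real.cos (Real.pi * κ / 30) := by
    have := Real.one_sub_sq_div_two_le_cos (x := Real.pi * κ / 30)
    have h5 : Real.pi * κ / 30 ≤ 1 / 2 := by nlinarith
    have h6 : 0 ≤ Real.pi * κ / 30 := by positivity
    nlinarith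
  set c := Real.cos (Real.pi * κ / 30) with hcd
  set s := Real.sin (Real.pi * κ / 30) with hsd
  unfold Ball
  simp only
  have e : ((c - s ^ 2) / c * Real.cos (Real.pi / 60)) ^ 2
      + ((c - s ^ 2) / c * Real.sin (Real.pi / 60)) ^ 2 + z ^ 2
      = ((c - s ^ 2) / c) ^ 2 * (Real.cos (Real.pi / 60) ^ 2 + Real.sin (Real.pi / 60) ^ 2) + z ^ 2 := by
    ring
  rw [e, h4, mul_one, hz]
  have h7 : s ^ 2 = 1 - c ^ 2 := by linarith
  have h8 : |(c - s ^ 2) / c| ≤ c := by
    rw [abs_div, abs_of_pos hc, div_le_iff₀ hc, abs_le]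
    constructor <;> nlinarith
  have h9 : ((c - s ^ 2) / c) ^ 2 ≤ c ^ 2 := by
    rw [sq_le_sq, abs_of_pos hc]
    exact h8
  linarith

lemma M_XB : M (pl κ .X) (pl κ .B) := by
  refine ⟨_, -Real.sin (Real.pi * κ / 30), conn_ball hκ1 hκ2 (by ring), ?_, ?_⟩
  · have hc := kc_pos hκ1 hκ2
    have h4 := Real.cos_sq_add_sin_sq (Real.pi / 60)
    simp only [ell, pl]
    field_simp
    linear_combination (Real.cos (Real.pi * κ / 30) - Real.sin (Real.pi * κ / 30) ^ 2) * h4
  · simp [pl, ell, PB]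

lemma M_YA : M (pl κ .Y) (pl κ .A) := by
  refine ⟨_, Real.sin (Real.pi * κ / 30), conn_ball hκ1 hκ2 (by ring), ?_, ?_⟩
  · have hc := kc_pos hκ1 hκ2
    have h4 := Real.cos_sq_add_sin_sq (Real.pi / 60)
    simp only [ell, pl]
    field_simp
    linear_combination (Real.cos (Real.pi * κ / 30) - Real.sin (Real.pi * κ / 30) ^ 2) * h4
  · simp [pl, ell, PA]

lemma conn_far {u : ℂ} {z : ℝ} (hb : Ball u z)
    (h1 : Real.cos (Real.pi * κ / 30) * (Real.cos (Real.pi / 60) * u.re
      + Real.sin (Real.pi / 60) * u.im)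
      = Real.cos (Real.pi * κ / 30) + Real.sin (Real.pi * κ / 30) ^ 2) : False := by
  have hc := kc_pos hκ1 hκ2
  have hs := ks_pos hκ1 hκ2
  have h4 := Real.cos_sq_add_sin_sq (Real.pi / 60)
  have h5 : 1 < Real.cos (Real.pi / 60) * u.re + Real.sin (Real.pi / 60) * u.im := by
    by_contra hcon
    push Not at hcon
    nlinarith [mul_le_mul_of_nonneg_left hcon hc.le, sq_pos_of_pos hs]
  have h6 : (Real.cos (Real.pi / 60) * u.re + Real.sin (Real.pi / 60) * u.im) ^ 2
      ≤ u.re ^ 2 + u.im ^ 2 := by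
    have : u.re ^ 2 + u.im ^ 2 = (Real.cos (Real.pi / 60) ^ 2 + Real.sin (Real.pi / 60) ^ 2)
        * (u.re ^ 2 + u.im ^ 2) := by rw [h4, one_mul]
    rw [this]
    nlinarith [sq_nonneg (Real.cos (Real.pi / 60) * u.im - Real.sin (Real.pi / 60) * u.re)]
  unfold Ball at hb
  nlinarith [sq_nonneg z]

lemma not_M_XA : ¬ M (pl κ .X) (pl κ .A) := by
  rintro ⟨u, z, hb, h1, h2⟩
  simp only [pl, ell_PA] at h2
  have hz : z = Real.sin (Real.pi * κ / 30) := by linarith
  subst hz
  simp only [ell, pl] at h1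
  exact conn_far hκ1 hκ2 hb (by linear_combination h1)

lemma not_M_YB : ¬ M (pl κ .Y) (pl κ .B) := by
  rintro ⟨u, z, hb, h1, h2⟩
  simp [pl, ell, PB] at h2
  have hz : z = -Real.sin (Real.pi * κ / 30) := by linarith
  subst hz
  simp only [ell, pl] at h1
  exact conn_far hκ1 hκ2 hb (by linear_combination h1)

omit hκ1 hκ2 in
lemma M_Xr : M (pl κ .X) (pl κ (.ch 0 (1 / 2))) := by
  refine ⟨⟨Real.cos (Real.pi / 60), Real.sin (Real.pi / 60)⟩, 0, ?_, ?_, ?_⟩
  · unfold Ball
    have h4 := Real.cos_sq_add_sin_sq (Real.pi / 60)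
    simp only
    linarith
  · have h4 := Real.cos_sq_add_sin_sq (Real.pi / 60)
    simp only [ell, pl]
    linear_combination Real.cos (Real.pi * κ / 30) * h4
  · simp only [ell, pl]
    have : Real.pi * (1 / 2) / 30 = Real.pi / 60 := by ring
    rw [this]
    simp

omit hκ1 hκ2 in
lemma M_Yr : M (pl κ .Y) (pl κ (.ch 0 (1 / 2))) := by
  refine ⟨⟨Real.cos (Real.pi / 60), Real.sin (Real.pi / 60)⟩, 0, ?_, ?_, ?_⟩
  · unfold Ball
    have h4 := Real.cos_sq_add_sin_sq (Real.pi / 60)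
    simp only
    linarith
  · have h4 := Real.cos_sq_add_sin_sq (Real.pi / 60)
    simp only [ell, pl]
    linear_combination Real.cos (Real.pi * κ / 30) * h4
  · simp only [ell, pl]
    have : Real.pi * (1 / 2) / 30 = Real.pi / 60 := by ring
    rw [this]
    simp

omit hκ1 hκ2 in
lemma pl_per (b : ℚ) (h : ℝ) : pl κ (.ch (b + 60) h) = pl κ (.ch b h) := by
  unfold pl
  have e : Real.pi * ((b + 60 : ℚ) : ℝ) / 30 = Real.pi * b / 30 + 2 * Real.pi := by
    push_cast; ring
  simp only [e, Real.cos_add_two_pi, Real.sin_add_two_pi]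

end facts

lemma M_smul_right {c : ℝ} (hc : c ≠ 0) (F : Pl) (v : V4) : M F (ofV (c • v)) ↔ M F (ofV v) := by
  have e : ∀ (u : ℂ) (z : ℝ), ell (ofV (c • v)) u z = c * ell (ofV v) u z := by
    intro u z
    simp only [ell, ofV, Pi.smul_apply, smul_eq_mul]
    ring
  unfold M
  simp only [e, mul_eq_zero, hc, false_or]

/-- **Images are representations.** -/
theorem exists_rep {κ : ℝ} (hκ1 : 3 / 5 < κ) (hκ2 : κ < 3 / 4) (v : Ix → V4)
    (hne : ∀ i, Good κ i → v i ≠ 0)
    (hM : ∀ i j, Good κ i → Good κ j → (Meets4 (v i) (v j) ↔ M (pl κ i) (pl κ j)))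
    (hper : ∀ b h, v (.ch (b + 60) h) = v (.ch b h))
    (f : V4 ≃ₗ[ℝ] V4) (hf : IsLor f) {k c c' : ℝ} (hk : 0 < k) (hk1 : k < 1) (hc : c ≠ 0)
    (hc' : c' ≠ 0) (hA : f (v .A) = c • ![0, 0, 1, k]) (hB : f (v .B) = c' • ![0, 0, 1, -k]) :
    ∃ R : Rep κ (Real.arcsin k), ∀ j : ℤ, R.rg j = ofV (f (v (.ch (j : ℚ) (1 / 2)))) := by
  have hsin : Real.sin (Real.arcsin k) = k := Real.sin_arcsin (by linarith) hk1.le
  have mm : ∀ i j, Good κ i → Good κ j → (M (ofV (f (v i))) (ofV (f (v j))) ↔ M (pl κ i) (pl κ j)) := by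
    intro i j hi hj
    rw [M_ofV, hf.meets, hM i j hi hj]
  have mA : ∀ i, Good κ i → (M (ofV (f (v i))) (PA (Real.arcsin k)) ↔ M (pl κ i) (pl κ .A)) := by
    intro i hi
    rw [← mm i .A hi trivial, hA, M_smul_right hc]
    have : PA (Real.arcsin k) = ofV ![0, 0, 1, k] := by
      unfold PA ofV
      rw [hsin]
      simp
      rfl
    rw [this]
  have mB : ∀ i, Good κ i → (M (ofV (f (v i))) (PB (Real.arcsin k)) ↔ M (pl κ i) (pl κ .B)) := by
    intro i hi
    rw [← mm i .B hi trivial, hB, M_smul_right hc', ← M_ng_right]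
    have : ng (PB (Real.arcsin k)) = ofV ![0, 0, 1, -k] := by
      unfold PB ofV ng
      rw [hsin]
      simp
      rfl
    rw [this]
  refine ⟨{ ch := fun b h => ofV (f (v (.ch b h)))
            X := ofV (f (v .X))
            Y := ofV (f (v .Y))
            hκ1 := hκ1
            hκ2 := hκ2
            hK := Real.arcsin_pos.mpr hk
            hK2 := Real.arcsin_lt_pi_div_two.mpr hk1
            nz := ?_
            mm := ?_
            eA := ?_
            eB := ?_
            dA := ?_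
            dB := ?_
            xB := ?_
            xA := ?_
            xr := ?_
            yA := ?_
            yB := ?_
            yr := ?_
            per := ?_ }, fun j => rfl⟩
  · rintro b h hh ⟨h1, h2, h3⟩
    have h4 : f (v (.ch b h)) ≠ 0 := by
      simpa using hne (.ch b h) hh
    apply h4
    have h5 := congrArg Complex.re h1
    have h6 := congrArg Complex.im h1
    simp only [ofV, Complex.zero_re, Complex.zero_im] at h2 h3 h5 h6
    ext i
    fin_cases i <;> simp_all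
  · intro b b' h h' hh hh'
    rw [mm (.ch b h) (.ch b' h') hh hh', M_ch hκ2 hh hh']
  · intro b
    rw [mA (.ch b κ) (top_good hκ1 hκ2)]
    exact M_chA hκ1 hκ2 b
  · intro b
    rw [mB (.ch b κ) (top_good hκ1 hκ2)]
    exact M_chB hκ1 hκ2 b
  · intro b h hh hlt
    rw [mA (.ch b h) hh]
    exact not_M_chA hκ1 hκ2 hh hlt
  · intro b h hh hlt
    rw [mB (.ch b h) hh]
    exact not_M_chB hκ1 hκ2 hh hlt
  · rw [mB .X trivial]; exact M_XB hκ1 hκ2
  · rw [mA .X trivial]; exact not_M_XA hκ1 hκ2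
  · rw [mm .X (.ch 0 (1 / 2)) trivial (half_good hκ1 hκ2)]; exact M_Xr
  · rw [mA .Y trivial]; exact M_YA hκ1 hκ2
  · rw [mB .Y trivial]; exact not_M_YB hκ1 hκ2
  · rw [mm .Y (.ch 0 (1 / 2)) trivial (half_good hκ1 hκ2)]; exact M_Yr
  · intro b h
    rw [hper]

end Pool.Agent.Q213.SG
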