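import Pool.Agent.Q213.SGf

/-!
# Countable sphere graphs: no universal element
-/

namespace Pool.Agent.Q213.SG

open Complex

/-- The sections of the closed unit ball of `ℝ^(d+1)` by hyperplanes. -/
def sections (d : ℕ) : Set (Set (EuclideanSpace ℝ (Fin (d + 1)))) :=
  {s | ∃ (n : EuclideanSpace ℝ (Fin (d + 1))) (t : ℝ), n ≠ 0 ∧
    s = {x | ‖x‖ ≤ 1 ∧ inner ℝ n x = t}}

/-- The intersection graph of a family of sets. -/
def interGraph {E : Type} (F : Set (Set E)) : SimpleGraph F where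
  Adj s t := s ≠ t ∧ ((s : Set E) ∩ (t : Set E)).Nonempty
  symm := ⟨fun s t h => ⟨h.1.symm, by rw [Set.inter_comm]; exact h.2⟩⟩
  loopless := ⟨fun s h => h.1 rfl⟩

/-- `G` is a `d`-sphere graph. -/
def IsSphereGraph (d : ℕ) {V : Type} (G : SimpleGraph V) : Prop :=
  ∃ F : Set (Set (EuclideanSpace ℝ (Fin (d + 1)))), F ⊆ sections d ∧
    Nonempty (G ≃g interGraph F)

/-- The section of a plane. -/
def toSet (F : Pl) : Set (EuclideanSpace ℝ (Fin 3)) :=
  {x | ‖x‖ ≤ 1 ∧ F.w.re * x 0 + F.w.im * x 1 + F.c * x 2 = F.d}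

lemma norm_le_iff (x : EuclideanSpace ℝ (Fin 3)) :
    ‖x‖ ≤ 1 ↔ x 0 ^ 2 + x 1 ^ 2 + x 2 ^ 2 ≤ 1 := by
  rw [← sq_le_one_iff₀ (norm_nonneg x), EuclideanSpace.norm_sq_eq, Fin.sum_univ_three]
  simp

lemma inner_eq (n x : EuclideanSpace ℝ (Fin 3)) :
    inner ℝ n x = n 0 * x 0 + n 1 * x 1 + n 2 * x 2 := by
  simp [PiLp.inner_apply, Fin.sum_univ_three, mul_comm]

lemma inter_iff (F G : Pl) : (toSet F ∩ toSet G).Nonempty ↔ M F G := by
  constructor
  · rintro ⟨x, ⟨h1, h2⟩, -, h3⟩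
    rw [norm_le_iff] at h1
    refine ⟨⟨x 0, x 1⟩, x 2, h1, ?_, ?_⟩
    · simp only [ell]; linarith
    · simp only [ell]; linarith
  · rintro ⟨u, z, hb, h1, h2⟩
    have hn : ‖(!₂[u.re, u.im, z] : EuclideanSpace ℝ (Fin 3))‖ ≤ 1 := by
      rw [norm_le_iff]
      unfold Ball at hb
      simpa using hb
    refine ⟨!₂[u.re, u.im, z], ⟨hn, ?_⟩, ⟨hn, ?_⟩⟩
    · unfold ell at h1
      simp
      linarith
    · unfold ell at h2
      simp
      linarith

lemma toSet_mem {F : Pl} (h : ¬ (F.w.re = 0 ∧ F.w.im = 0 ∧ F.c = 0)) : toSet F ∈ sections 2 := by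
  refine ⟨!₂[F.w.re, F.w.im, F.c], F.d, ?_, ?_⟩
  · intro h0
    apply h
    refine ⟨?_, ?_, ?_⟩
    · have := congrArg (fun x : EuclideanSpace ℝ (Fin 3) => x 0) h0
      simpa using this
    · have := congrArg (fun x : EuclideanSpace ℝ (Fin 3) => x 1) h0
      simpa using this
    · have := congrArg (fun x : EuclideanSpace ℝ (Fin 3) => x 2) h0
      simpa using this
  · ext x
    simp only [toSet, Set.mem_ofPred_eq]
    rw [inner_eq]
    simp

lemma of_mem {s : Set (EuclideanSpace ℝ (Fin 3))} (h : s ∈ sections 2) :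
    ∃ v : V4, v ≠ 0 ∧ s = toSet (ofV v) := by
  obtain ⟨n, t, hn, rfl⟩ := h
  refine ⟨![n 0, n 1, n 2, t], ?_, ?_⟩
  · intro h0
    apply hn
    ext i
    fin_cases i
    · have := congrFun h0 0
      simpa using this
    · have := congrFun h0 1
      simpa using this
    · have := congrFun h0 2
      simpa using this
  · ext x
    simp only [toSet, Set.mem_ofPred_eq, ofV]
    rw [inner_eq]
    simp

/-- The family of sections. -/
def fam (κ : ℝ) : Set (Set (EuclideanSpace ℝ (Fin 3))) :=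
  {s | ∃ i, Good κ i ∧ s = toSet (pl κ i)}

lemma fam_mem {κ : ℝ} {i : Ix} (hi : Good κ i) : toSet (pl κ i) ∈ fam κ := ⟨i, hi, rfl⟩

lemma fam_countable (κ : ℝ) : (fam κ).Countable := by
  have h1 : fam κ ⊆ ({toSet (pl κ .A), toSet (pl κ .B), toSet (pl κ .X), toSet (pl κ .Y)} ∪
      Set.range (fun b : ℚ => toSet (pl κ (.ch b κ)))) ∪
      Set.range (fun p : ℚ × ℚ => toSet (pl κ (.ch p.1 (p.2 : ℝ)))) := by
    rintro s ⟨i, hi, rfl⟩
    cases i with
    | A => left; left; simp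
    | B => left; left; simp
    | X => left; left; simp
    | Y => left; left; simp
    | ch b h =>
        rcases hi.2.2 with rfl | ⟨q, rfl⟩
        · left; right; exact ⟨b, rfl⟩
        · right; exact ⟨(b, q), rfl⟩
  apply Set.Countable.mono h1
  apply Set.Countable.union
  · apply Set.Countable.union
    · exact Set.Finite.countable (by simp)
    · exact Set.countable_range _
  · exact Set.countable_range _

section main

variable {κ : ℝ} (hκ1 : 3 / 5 < κ) (hκ2 : κ < 3 / 4)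

include hκ1 hκ2

lemma fam_sub : fam κ ⊆ sections 2 := by
  rintro s ⟨i, hi, rfl⟩
  have hs := ks_pos hκ1 hκ2
  apply toSet_mem
  rintro ⟨h1, h2, h3⟩
  cases i with
  | A => simp [pl, PA] at h3
  | B => simp [pl, PB] at h3
  | X =>
      simp only [pl] at h3
      linarith
  | Y =>
      simp only [pl] at h3
      linarith
  | ch b h =>
      simp only [pl] at h1 h2
      have := Real.cos_sq_add_sin_sq (Real.pi * b / 30)
      rw [h1, h2] at this
      norm_num at this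

lemma nbr (i : Ix) (hi : Good κ i) : ∃ j, Good κ j ∧ M (pl κ i) (pl κ j) ∧
    toSet (pl κ i) ≠ toSet (pl κ j) := by
  have key : ∀ i j l : Ix, (M (pl κ i) (pl κ l) ∧ ¬ M (pl κ j) (pl κ l)) ∨
      (¬ M (pl κ i) (pl κ l) ∧ M (pl κ j) (pl κ l)) → toSet (pl κ i) ≠ toSet (pl κ j) := by
    intro i j l h heq
    rw [← inter_iff, ← inter_iff, heq] at h
    tauto
  cases i with
  | A =>
      refine ⟨.ch 0 κ, top_good hκ1 hκ2, ?_, ?_⟩
      · rw [M_comm]; exact M_chA hκ1 hκ2 0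
      · exact key _ _ .B (Or.inr ⟨not_M_AB hκ1 hκ2, M_chB hκ1 hκ2 0⟩)
  | B =>
      refine ⟨.ch 0 κ, top_good hκ1 hκ2, ?_, ?_⟩
      · rw [M_comm]; exact M_chB hκ1 hκ2 0
      · refine key _ _ .A (Or.inr ⟨?_, M_chA hκ1 hκ2 0⟩)
        rw [M_comm]; exact not_M_AB hκ1 hκ2
  | X =>
      refine ⟨.ch 0 (1 / 2), half_good hκ1 hκ2, M_Xr, ?_⟩
      exact key _ _ .B (Or.inl ⟨M_XB hκ1 hκ2,
        not_M_chB hκ1 hκ2 (half_good hκ1 hκ2) (by linarith)⟩)
  | Y =>
      refine ⟨.ch 0 (1 / 2), half_good hκ1 hκ2, M_Yr, ?_⟩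
      exact key _ _ .A (Or.inl ⟨M_YA hκ1 hκ2,
        not_M_chA hκ1 hκ2 (half_good hκ1 hκ2) (by linarith)⟩)
  | ch b h =>
      have hh : HH κ h := hi
      have h1 := hh.1
      have h2 := hh.2.1
      refine ⟨.ch (b + 1 / 2) (1 / 2), half_good hκ1 hκ2, ?_, ?_⟩
      · rw [M_ch hκ2 hh (half_good hκ1 hκ2)]
        have e : |(b : ℝ) - ((b + 1 / 2 : ℚ) : ℝ)| = 1 / 2 := by
          have : (b : ℝ) - ((b + 1 / 2 : ℚ) : ℝ) = -(1 / 2) := by push_cast; ring
          rw [this, abs_neg]; norm_num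
        apply lk_of
        · rw [e, abs_le]; constructor <;> linarith
        · rw [e]; linarith
        · linarith
      · apply key _ _ (.ch (b - 1) (1 / 2))
        left
        constructor
        · rw [M_ch hκ2 hh (half_good hκ1 hκ2)]
          have e : |(b : ℝ) - ((b - 1 : ℚ) : ℝ)| = 1 := by
            have : (b : ℝ) - ((b - 1 : ℚ) : ℝ) = 1 := by push_cast; ring
            rw [this]; norm_num
          apply lk_of
          · rw [e, abs_le]; constructor <;> linarith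
          · rw [e]; linarith
          · linarith
        · rw [M_ch hκ2 (half_good hκ1 hκ2) (half_good hκ1 hκ2)]
          have e : |((b + 1 / 2 : ℚ) : ℝ) - ((b - 1 : ℚ) : ℝ)| = 3 / 2 := by
            have : ((b + 1 / 2 : ℚ) : ℝ) - ((b - 1 : ℚ) : ℝ) = 3 / 2 := by push_cast; ring
            rw [this]; norm_num
          apply not_lk (c := 5 / 4)
          · norm_num
          · norm_num
          · norm_num
          · rw [e]; norm_num
          · rw [e]; norm_num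

lemma exists_v {V : Type} {U : SimpleGraph V} {F : Set (Set (EuclideanSpace ℝ (Fin 3)))}
    (g : U ≃g interGraph F) (vec : F → V4)
    (hvec : ∀ s : F, vec s ≠ 0 ∧ (s : Set (EuclideanSpace ℝ (Fin 3))) = toSet (ofV (vec s)))
    (e : interGraph (fam κ) ↪g U) :
    ∃ v : Ix → V4, (∀ i (hi : Good κ i), v i = vec (g (e ⟨toSet (pl κ i), fam_mem hi⟩))) ∧
      (∀ i, Good κ i → v i ≠ 0) ∧
      (∀ i j, Good κ i → Good κ j → (Meets4 (v i) (v j) ↔ M (pl κ i) (pl κ j))) ∧
      (∀ b h, v (.ch (b + 60) h) = v (.ch b h)) := by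
  classical
  let W : Set (EuclideanSpace ℝ (Fin 3)) → V4 := fun s =>
    if h : s ∈ fam κ then vec (g (e ⟨s, h⟩)) else 0
  have hv : ∀ i (hi : Good κ i), W (toSet (pl κ i)) = vec (g (e ⟨toSet (pl κ i), fam_mem hi⟩)) := by
    intro i hi
    simp only [W]
    rw [dif_pos (fam_mem hi)]
  have hne : ∀ i, Good κ i → W (toSet (pl κ i)) ≠ 0 := by
    intro i hi
    rw [hv i hi]
    exact (hvec _).1
  have main : ∀ i j, Good κ i → Good κ j → toSet (pl κ i) ≠ toSet (pl κ j) →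
      (Meets4 (W (toSet (pl κ i))) (W (toSet (pl κ j))) ↔ M (pl κ i) (pl κ j)) := by
    intro i j hi hj hij
    rw [hv i hi, hv j hj, ← M_ofV, ← inter_iff, ← (hvec _).2, ← (hvec _).2, ← inter_iff]
    have h1 : (interGraph (fam κ)).Adj ⟨toSet (pl κ i), fam_mem hi⟩ ⟨toSet (pl κ j), fam_mem hj⟩ ↔
        (toSet (pl κ i) ∩ toSet (pl κ j)).Nonempty := by
      constructor
      · intro h; exact h.2
      · intro h
        refine ⟨?_, h⟩
        intro h0
        exact hij (congrArg Subtype.val h0)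
    have h2 : (interGraph F).Adj (g (e ⟨toSet (pl κ i), fam_mem hi⟩))
        (g (e ⟨toSet (pl κ j), fam_mem hj⟩)) ↔
        ((g (e ⟨toSet (pl κ i), fam_mem hi⟩) : Set (EuclideanSpace ℝ (Fin 3))) ∩
          (g (e ⟨toSet (pl κ j), fam_mem hj⟩) : Set (EuclideanSpace ℝ (Fin 3)))).Nonempty := by
      constructor
      · intro h; exact h.2
      · intro h
        refine ⟨?_, h⟩
        intro h0
        have := e.injective (g.injective h0)
        exact hij (congrArg Subtype.val this)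
    rw [← h2, ← h1, g.map_adj_iff, e.map_adj_iff]
  refine ⟨fun i => W (toSet (pl κ i)), hv, hne, ?_, ?_⟩
  · intro i j hi hj
    by_cases hij : toSet (pl κ i) = toSet (pl κ j)
    · obtain ⟨l, hl, hil, hne'⟩ := nbr hκ1 hκ2 i hi
      have h1 : Meets4 (W (toSet (pl κ i))) (W (toSet (pl κ j))) := by
        rw [← hij]
        obtain ⟨X, q1, q2, q3, q4⟩ := (main i l hi hl hne').mpr hil
        exact ⟨X, q1, q2, q3, q3⟩
      have h2 : M (pl κ i) (pl κ j) := by
        rw [← inter_iff, ← hij, inter_iff]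
        obtain ⟨u, z, q1, q2, q3⟩ := hil
        exact ⟨u, z, q1, q2, q2⟩
      exact ⟨fun _ => h2, fun _ => h1⟩
    · exact main i j hi hj hij
  · intro b h
    simp only [pl_per]

end main

lemma pl_per_int (κ : ℝ) (b : ℚ) (h : ℝ) (n : ℤ) :
    pl κ (.ch (b + 60 * n) h) = pl κ (.ch b h) := by
  unfold pl
  have e : Real.pi * ((b + 60 * n : ℚ) : ℝ) / 30 = Real.pi * b / 30 + n * (2 * Real.pi) := by
    push_cast; ring
  simp only [e, Real.cos_add_int_mul_two_pi, Real.sin_add_int_mul_two_pi]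

/-- The index of the ring. -/
noncomputable def ringIx (j : ℤ) : Ix := .ch (j : ℚ) (1 / 2)

lemma ring_good {κ : ℝ} (hκ1 : 3 / 5 < κ) (hκ2 : κ < 3 / 4) (j : ℤ) : Good κ (ringIx j) :=
  half_good hκ1 hκ2

theorem kappa_eq {κ κ' : ℝ} (hκ1 : 3 / 5 < κ) (hκ2 : κ < 3 / 4) (hκ1' : 3 / 5 < κ')
    (hκ2' : κ' < 3 / 4) {V : Type} {U : SimpleGraph V} (hU : IsSphereGraph 2 U)
    (e : interGraph (fam κ) ↪g U) (e' : interGraph (fam κ') ↪g U)
    (hA : e ⟨toSet (pl κ .A), fam_mem trivial⟩ = e' ⟨toSet (pl κ' .A), fam_mem trivial⟩)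
    (hB : e ⟨toSet (pl κ .B), fam_mem trivial⟩ = e' ⟨toSet (pl κ' .B), fam_mem trivial⟩)
    (hR : ∀ j : ℤ, e ⟨toSet (pl κ (ringIx j)), fam_mem (ring_good hκ1 hκ2 j)⟩ =
      e' ⟨toSet (pl κ' (ringIx j)), fam_mem (ring_good hκ1' hκ2' j)⟩) : κ = κ' := by
  obtain ⟨F, hF, ⟨g⟩⟩ := hU
  have hex : ∀ s : F, ∃ v : V4, v ≠ 0 ∧ (s : Set (EuclideanSpace ℝ (Fin 3))) = toSet (ofV v) :=
    fun s => of_mem (hF s.2)
  choose vec hvec using hex
  obtain ⟨v, hv, hne, hM, hper⟩ := exists_v hκ1 hκ2 g vec hvec e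
  obtain ⟨v', hv', hne', hM', hper'⟩ := exists_v hκ1' hκ2' g vec hvec e'
  have eA : v .A = v' .A := by rw [hv .A trivial, hv' .A trivial, hA]
  have eB : v .B = v' .B := by rw [hv .B trivial, hv' .B trivial, hB]
  have eR : ∀ j, v (ringIx j) = v' (ringIx j) := by
    intro j
    rw [hv _ (ring_good hκ1 hκ2 j), hv' _ (ring_good hκ1' hκ2' j), hR]
  have htop : Good κ (.ch 0 κ) := top_good hκ1 hκ2
  have htop' : Good κ (.ch 30 κ) := top_good hκ1 hκ2
  have hdis : ¬ Meets4 (v (.ch 0 κ)) (v (.ch 30 κ)) := by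
    rw [hM _ _ htop htop', M_ch hκ2 htop htop']
    have e : |((0 : ℚ) : ℝ) - ((30 : ℚ) : ℝ)| = 30 := by push_cast; norm_num
    apply not_lk (c := 2)
    · linarith
    · linarith
    · norm_num
    · rw [e]; norm_num
    · rw [e]; norm_num
  have sA : 0 < bil (v .A) (v .A) := by
    apply spacelike_of (hne .A trivial) _ _ hdis
    · rw [hM .A (.ch 0 κ) trivial htop, M_comm]; exact M_chA hκ1 hκ2 0
    · rw [hM .A (.ch 30 κ) trivial htop', M_comm]; exact M_chA hκ1 hκ2 30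
  have sB : 0 < bil (v .B) (v .B) := by
    apply spacelike_of (hne .B trivial) _ _ hdis
    · rw [hM .B (.ch 0 κ) trivial htop, M_comm]; exact M_chB hκ1 hκ2 0
    · rw [hM .B (.ch 30 κ) trivial htop', M_comm]; exact M_chB hκ1 hκ2 30
  have hAB : ¬ Meets4 (v .A) (v .B) := by
    rw [hM .A .B trivial trivial]
    exact not_M_AB hκ1 hκ2
  obtain ⟨f, hf, k, c, c', hk, hk1, hc, hc', h1, h2⟩ := normal_form sA sB hAB
  obtain ⟨R, hRR⟩ := exists_rep hκ1 hκ2 v hne hM hper f hf hk hk1 hc hc' h1 h2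
  obtain ⟨R', hRR'⟩ := exists_rep hκ1' hκ2' v' hne' hM' hper' f hf hk hk1 hc hc'
    (by rw [← eA]; exact h1) (by rw [← eB]; exact h2)
  apply kappa_unique R R'
  intro j
  rw [hRR, hRR']
  have := eR j
  unfold ringIx at this
  rw [this]

/-- For a fixed countable sphere graph only countably many of the graphs embed. -/
theorem countable_params {V : Type} [Countable V] {U : SimpleGraph V} (hU : IsSphereGraph 2 U) :
    {κ : ℝ | 3 / 5 < κ ∧ κ < 3 / 4 ∧ Nonempty (interGraph (fam κ) ↪g U)}.Countable := by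
  classical
  set S := {κ : ℝ | 3 / 5 < κ ∧ κ < 3 / 4 ∧ Nonempty (interGraph (fam κ) ↪g U)} with hS
  let emb : ∀ κ : S, (interGraph (fam κ.1) ↪g U) := fun κ => κ.2.2.2.some
  let D : S → V × V × (Fin 60 → V) := fun κ =>
    (emb κ ⟨toSet (pl κ.1 .A), fam_mem trivial⟩, emb κ ⟨toSet (pl κ.1 .B), fam_mem trivial⟩,
      fun n => emb κ ⟨toSet (pl κ.1 (ringIx (n : ℕ))), fam_mem (ring_good κ.2.1 κ.2.2.1 _)⟩)
  have hD : Function.Injective D := by
    intro κ κ' h
    have h1 : (D κ).1 = (D κ').1 := by rw [h]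
    have h2 : (D κ).2.1 = (D κ').2.1 := by rw [h]
    have h3 : (D κ).2.2 = (D κ').2.2 := by rw [h]
    apply Subtype.ext
    refine kappa_eq κ.2.1 κ.2.2.1 κ'.2.1 κ'.2.2.1 hU (emb κ) (emb κ') h1 h2 ?_
    intro j
    have hlt : (j % 60).toNat < 60 := by
      have := Int.emod_lt_of_pos j (by norm_num : (0 : ℤ) < 60)
      have := Int.emod_nonneg j (by norm_num : (60 : ℤ) ≠ 0)
      omega
    have h4 := congrFun h3 ⟨(j % 60).toNat, hlt⟩
    have hj : ((j % 60).toNat : ℤ) = j % 60 := Int.toNat_of_nonneg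
      (Int.emod_nonneg j (by norm_num : (60 : ℤ) ≠ 0))
    have hper : ∀ κ : ℝ, pl κ (ringIx j) = pl κ (ringIx ((j % 60).toNat : ℤ)) := by
      intro κ
      unfold ringIx
      rw [hj]
      have := pl_per_int κ ((j % 60 : ℤ) : ℚ) (1 / 2) (j / 60)
      rw [← this]
      congr 2
      have h5 := Int.emod_add_mul_ediv j 60
      exact_mod_cast h5.symm
    have hs : ∀ κ : ℝ, toSet (pl κ (ringIx j)) = toSet (pl κ (ringIx ((j % 60).toNat : ℤ))) := by
      intro κ; rw [hper]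
    simp only [hs]
    exact h4
  exact Set.countable_coe_iff.mp hD.countable

/-- **No countable family of countable 2-sphere graphs is universal.** -/
theorem no_universal (I : Type) [Countable I] (V : I → Type) [∀ i, Countable (V i)]
    (U : ∀ i, SimpleGraph (V i)) (hU : ∀ i, IsSphereGraph 2 (U i)) :
    ∃ (W : Type) (_ : Countable W) (G : SimpleGraph W), IsSphereGraph 2 G ∧
      ∀ i, IsEmpty (G ↪g U i) := by
  by_contra hcon
  push Not at hcon
  have h1 : Set.Ioo (3 / 5 : ℝ) (3 / 4) ⊆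
      ⋃ i, {κ : ℝ | 3 / 5 < κ ∧ κ < 3 / 4 ∧ Nonempty (interGraph (fam κ) ↪g U i)} := by
    intro κ hκ
    have hc : Countable (fam κ) := (fam_countable κ).to_subtype
    obtain ⟨i, hi⟩ := hcon (fam κ) hc (interGraph (fam κ))
      ⟨fam κ, fam_sub hκ.1 hκ.2, ⟨SimpleGraph.Iso.refl⟩⟩
    rw [Set.mem_iUnion]
    exact ⟨i, hκ.1, hκ.2, by simpa using hi⟩
  have h2 : (Set.Ioo (3 / 5 : ℝ) (3 / 4)).Countable :=
    (Set.countable_iUnion fun i => countable_params (hU i)).mono h1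
  have h3 : ¬ (Set.Ioo (3 / 5 : ℝ) (3 / 4)).Countable := by
    rw [← Cardinal.le_aleph0_iff_set_countable, Cardinal.mk_Ioo_real (by norm_num)]
    exact not_le.mpr Cardinal.aleph0_lt_continuum
  exact h3 h2

end Pool.Agent.Q213.SG
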