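import Pool.Agent.Q4.SPC.Stm

/-!
# Isotropic invariant lines of finite groups in odd orthogonal groups (job SPC-SO)

A finite group `Q` acting on `kᵐ`, `3 ≤ m`, `k` algebraically closed of characteristic `ℓ`, and
preserving a nondegenerate symmetric form has an isotropic common eigenvector, if a normal subgroup
with cyclic quotient acts unipotently.
-/

namespace Q213.SPCSO

open Matrix

variable {k : Type} [Field k]

/-- A matrix with characteristic polynomial `(X - 1)^m` has order a power of `ℓ`. -/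
theorem unip_pow {m : ℕ} [NeZero m] (ℓ : ℕ) [Fact ℓ.Prime] [CharP k ℓ] (M : Matrix (Fin m) (Fin m) k)
    (hM : M.charpoly = (Polynomial.X - Polynomial.C 1) ^ m) : M ^ (ℓ ^ m) = 1 := by
  have h0 : (M - 1) ^ m = 0 := by
    have h := Matrix.aeval_self_charpoly M
    rw [hM] at h
    simpa using h
  have hle : m ≤ ℓ ^ m := (Nat.lt_pow_self (Fact.out : ℓ.Prime).one_lt).le
  have h1 : (M - 1) ^ (ℓ ^ m) = 0 := pow_eq_zero_of_le hle h0
  rw [sub_pow_char_pow_of_commute (R := Matrix (Fin m) (Fin m) k) ℓ m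
    (Commute.one_right M), one_pow, sub_eq_zero] at h1
  exact h1

/-- The group of matrices of a subgroup. An `ℓ`-group acting on a nonzero subspace in characteristic
`ℓ` has a fixed vector. -/
theorem exists_fixed {m : ℕ} (ℓ : ℕ) [Fact ℓ.Prime] [CharP k ℓ] (P : Subgroup (GL (Fin m) k))
    [Finite P] (hP : IsPGroup ℓ P) (U : Submodule k (Fin m → k))
    (hU : ∀ p ∈ P, ∀ u ∈ U, (p : GL (Fin m) k).1 *ᵥ u ∈ U) (u0 : Fin m → k) (hu0 : u0 ∈ U)
    (hne : u0 ≠ 0) : ∃ u ∈ U, u ≠ 0 ∧ ∀ p ∈ P, (p : GL (Fin m) k).1 *ᵥ u = u := by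
  classical
  letI : Algebra (ZMod ℓ) k := ZMod.algebra k ℓ
  let S : Set (Fin m → k) := Set.range fun p : P => (p : GL (Fin m) k).1 *ᵥ u0
  have hS : S.Finite := Set.finite_range _
  let W : Submodule (ZMod ℓ) (Fin m → k) := Submodule.span (ZMod ℓ) S
  haveI : Module.Finite (ZMod ℓ) W := Module.Finite.span_of_finite (ZMod ℓ) hS
  haveI : Finite W := Module.finite_of_finite (ZMod ℓ)
  have hW : ∀ p : P, ∀ w ∈ W, (p : GL (Fin m) k).1 *ᵥ w ∈ W := by
    intro p w hw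
    induction hw using Submodule.span_induction with
    | mem x hx =>
      obtain ⟨q, rfl⟩ := hx
      refine Submodule.subset_span ⟨p * q, ?_⟩
      simp [Matrix.mulVec_mulVec]
    | zero => simp
    | add x y _ _ hx hy =>
      rw [Matrix.mulVec_add]
      exact W.add_mem hx hy
    | smul a x _ hx =>
      rw [Matrix.mulVec_smul]
      exact W.smul_mem a hx
  letI : MulAction P W :=
    { smul := fun p w => ⟨(p : GL (Fin m) k).1 *ᵥ w.1, hW p w.1 w.2⟩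
      one_smul := fun w => Subtype.ext (by
        change ((1 : P) : GL (Fin m) k).1 *ᵥ w.1 = w.1
        simp)
      mul_smul := fun p q w => Subtype.ext (by
        change ((p * q : P) : GL (Fin m) k).1 *ᵥ w.1 = (p : GL (Fin m) k).1 *ᵥ ((q : GL (Fin m) k).1 *ᵥ w.1)
        simp [Matrix.mulVec_mulVec]) }
  have hsm : ∀ (p : P) (w : W), ((p • w : W) : Fin m → k) = (p : GL (Fin m) k).1 *ᵥ w.1 := fun _ _ => rfl
  have hu0W : u0 ∈ W := Submodule.subset_span ⟨1, by simp⟩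
  haveI : Nontrivial W := ⟨⟨⟨u0, hu0W⟩, 0, fun h => hne (congrArg Subtype.val h)⟩⟩
  have hcard : ℓ ∣ Nat.card W := by
    rw [Module.natCard_eq_pow_finrank (K := ZMod ℓ) (V := W), Nat.card_zmod]
    exact dvd_pow_self ℓ (Module.finrank_pos (R := ZMod ℓ) (M := W)).ne'
  have h0 : (0 : W) ∈ MulAction.fixedPoints P W := by
    intro p
    apply Subtype.ext
    rw [hsm]
    simp
  obtain ⟨b, hb, hb0⟩ := hP.exists_fixed_point_of_prime_dvd_card_of_fixed_point W hcard h0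
  have hWU : ∀ w ∈ W, w ∈ U := by
    intro w hw
    induction hw using Submodule.span_induction with
    | mem x hx =>
      obtain ⟨q, rfl⟩ := hx
      exact hU q.1 q.2 u0 hu0
    | zero => exact U.zero_mem
    | add x y _ _ hx hy => exact U.add_mem hx hy
    | smul a x _ hx =>
      rw [← algebraMap_smul k a x]
      exact U.smul_mem _ hx
  refine ⟨b.1, hWU b.1 b.2, fun h => hb0 (Subtype.ext h.symm), fun p hp => ?_⟩
  have := congrArg Subtype.val (hb ⟨p, hp⟩)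
  rwa [hsm] at this

/-- Lemma E: every nonzero `Q`-stable subspace contains an eigenvector of `g` which is fixed by `N`. -/
theorem exists_eigen [IsAlgClosed k] {m : ℕ} [NeZero m] (ℓ : ℕ) [Fact ℓ.Prime] [CharP k ℓ]
    {Q : Type} [Group Q] [Finite Q] (N : Subgroup Q) [hN : N.Normal] (ρ : Q →* GL (Fin m) k)
    (hρ : ∀ g ∈ N, (ρ g).1.charpoly = (Polynomial.X - Polynomial.C 1) ^ m) (g : Q)
    (U : Submodule k (Fin m → k)) (hU : ∀ q : Q, ∀ u ∈ U, (ρ q).1 *ᵥ u ∈ U) (hne : U ≠ ⊥) :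
    ∃ u ∈ U, u ≠ 0 ∧ (∀ n ∈ N, (ρ n).1 *ᵥ u = u) ∧ ∃ a : k, (ρ g).1 *ᵥ u = a • u := by
  classical
  have hmul : ∀ (a b : Q) (v : Fin m → k), (ρ (a * b)).1 *ᵥ v = (ρ a).1 *ᵥ ((ρ b).1 *ᵥ v) := by
    intro a b v
    simp [Matrix.mulVec_mulVec]
  have hP : IsPGroup ℓ (N.map ρ) := by
    rintro ⟨p, n, hn, rfl⟩
    refine ⟨m, Subtype.ext (Units.ext ?_)⟩
    simpa using unip_pow ℓ (ρ n).1 (hρ n hn)
  haveI : Finite (N.map ρ) := by
    have h : ((N : Set Q)).Finite := Set.toFinite _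
    exact (h.image ρ).to_subtype
  obtain ⟨u0, hu0, hu0ne⟩ := U.exists_mem_ne_zero_of_ne_bot hne
  obtain ⟨u1, hu1, hu1ne, hfix⟩ := exists_fixed ℓ (N.map ρ) hP U (by
    rintro p ⟨n, _, rfl⟩ u hu
    exact hU n u hu) u0 hu0 hu0ne
  let F : Submodule k (Fin m → k) :=
    { carrier := {u | u ∈ U ∧ ∀ n ∈ N, (ρ n).1 *ᵥ u = u}
      add_mem' := by
        rintro a b ⟨ha, ha'⟩ ⟨hb, hb'⟩
        refine ⟨U.add_mem ha hb, fun n hn => ?_⟩
        rw [Matrix.mulVec_add, ha' n hn, hb' n hn]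
      zero_mem' := ⟨U.zero_mem, fun n _ => Matrix.mulVec_zero _⟩
      smul_mem' := by
        rintro c a ⟨ha, ha'⟩
        refine ⟨U.smul_mem c ha, fun n hn => ?_⟩
        rw [Matrix.mulVec_smul, ha' n hn] }
  have hF : ∀ u ∈ F, (ρ g).1 *ᵥ u ∈ F := by
    rintro u ⟨hu, hu'⟩
    refine ⟨hU g u hu, fun n hn => ?_⟩
    have h1 : n * g = g * (g⁻¹ * n * g) := by group
    rw [← hmul, h1, hmul, hu' (g⁻¹ * n * g)]
    have := hN.conj_mem n hn g⁻¹
    simpa using this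
  let T : Module.End k F :=
    { toFun := fun u => ⟨(ρ g).1 *ᵥ u.1, hF u.1 u.2⟩
      map_add' := fun a b => Subtype.ext (by
        change (ρ g).1 *ᵥ (a.1 + b.1) = (ρ g).1 *ᵥ a.1 + (ρ g).1 *ᵥ b.1
        exact Matrix.mulVec_add _ _ _)
      map_smul' := fun c a => Subtype.ext (by
        change (ρ g).1 *ᵥ (c • a.1) = c • (ρ g).1 *ᵥ a.1
        exact Matrix.mulVec_smul _ _ _) }
  have hu1F : u1 ∈ F := ⟨hu1, fun n hn => hfix (ρ n) ⟨n, hn, rfl⟩⟩
  haveI : Nontrivial F := ⟨⟨⟨u1, hu1F⟩, 0, fun h => hu1ne (congrArg Subtype.val h)⟩⟩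
  obtain ⟨a, ha⟩ := Module.End.exists_eigenvalue T
  obtain ⟨v, hv⟩ := ha.exists_hasEigenvector
  refine ⟨v.1, v.2.1, fun h => hv.2 (Subtype.ext h), v.2.2, a, ?_⟩
  have := congrArg Subtype.val hv.apply_eq_smul
  exact this

/-- Lemma F: a vector fixed by `N` and an eigenvector of a generator of `Q / N` is an eigenvector of
all elements. -/
theorem eigen_all {m : ℕ} {Q : Type} [Group Q] (N : Subgroup Q) [hN : N.Normal]
    (ρ : Q →* GL (Fin m) k) (g : Q)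
    (hg : ∀ q : Q, ∃ j : ℤ, ∃ n ∈ N, q = g ^ j * n) (u : Fin m → k) (hu : u ≠ 0)
    (hn : ∀ n ∈ N, (ρ n).1 *ᵥ u = u) (a : k) (ha : (ρ g).1 *ᵥ u = a • u) (q : Q) :
    ∃ b : k, (ρ q).1 *ᵥ u = b • u := by
  have hmul : ∀ (a b : Q) (v : Fin m → k), (ρ (a * b)).1 *ᵥ v = (ρ a).1 *ᵥ ((ρ b).1 *ᵥ v) := by
    intro a b v
    simp [Matrix.mulVec_mulVec]
  have ha0 : a ≠ 0 := by
    rintro rfl
    apply hu
    have h1 : (ρ (g⁻¹ * g)).1 *ᵥ u = 0 := by
      rw [hmul, ha, zero_smul, Matrix.mulVec_zero]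
    simpa using h1
  have hinv : (ρ g⁻¹).1 *ᵥ u = a⁻¹ • u := by
    have h1 : (ρ (g⁻¹ * g)).1 *ᵥ u = a • (ρ g⁻¹).1 *ᵥ u := by
      rw [hmul, ha, Matrix.mulVec_smul]
    have h2 : u = a • (ρ g⁻¹).1 *ᵥ u := by
      rw [← h1]
      simp
    rw [eq_inv_smul_iff₀ ha0]
    exact h2.symm
  have hnat : ∀ (x : Q) (c : k), (ρ x).1 *ᵥ u = c • u → ∀ i : ℕ, ∃ b : k, (ρ (x ^ i)).1 *ᵥ u = b • u := by
    intro x c hx i
    induction i with
    | zero => exact ⟨1, by simp⟩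
    | succ i ih =>
      obtain ⟨b, hb⟩ := ih
      refine ⟨c * b, ?_⟩
      rw [pow_succ, hmul, hx, Matrix.mulVec_smul, hb, smul_smul]
  obtain ⟨j, n, hnN, rfl⟩ := hg q
  rw [hmul, hn n hnN]
  obtain ⟨i, rfl | rfl⟩ := j.eq_nat_or_neg
  · obtain ⟨b, hb⟩ := hnat g a ha i
    exact ⟨b, by rw [zpow_natCast]; exact hb⟩
  · obtain ⟨b, hb⟩ := hnat g⁻¹ a⁻¹ hinv i
    exact ⟨b, by rw [_root_.zpow_neg, zpow_natCast, ← inv_pow]; exact hb⟩

/-- The bilinear form of a matrix. -/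
def bf {m : ℕ} (B : Matrix (Fin m) (Fin m) k) (v w : Fin m → k) : k := v ⬝ᵥ (B *ᵥ w)

theorem bf_add_right {m : ℕ} (B : Matrix (Fin m) (Fin m) k) (v w w' : Fin m → k) :
    bf B v (w + w') = bf B v w + bf B v w' := by
  simp [bf, Matrix.mulVec_add, dotProduct_add]

theorem bf_smul_right {m : ℕ} (B : Matrix (Fin m) (Fin m) k) (c : k) (v w : Fin m → k) :
    bf B v (c • w) = c * bf B v w := by
  simp [bf, Matrix.mulVec_smul, dotProduct_smul]

theorem bf_comm {m : ℕ} (B : Matrix (Fin m) (Fin m) k) (hB : Bᵀ = B) (v w : Fin m → k) :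
    bf B v w = bf B w v := by
  unfold bf
  rw [Matrix.dotProduct_mulVec, ← Matrix.mulVec_transpose, hB, dotProduct_comm]

theorem bf_inv {m : ℕ} (B M : Matrix (Fin m) (Fin m) k) (hM : Mᵀ * B * M = B) (v w : Fin m → k) :
    bf B (M *ᵥ v) (M *ᵥ w) = bf B v w := by
  unfold bf
  rw [← Matrix.vecMul_transpose, ← Matrix.dotProduct_mulVec, Matrix.mulVec_mulVec,
    Matrix.mulVec_mulVec, hM]

/-- The linear functional `bf B v`. -/
def bfl {m : ℕ} (B : Matrix (Fin m) (Fin m) k) (v : Fin m → k) : (Fin m → k) →ₗ[k] k where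
  toFun w := bf B v w
  map_add' := bf_add_right B v
  map_smul' c w := bf_smul_right B c v w

/-- The combination `v + c w` of two orthogonal anisotropic vectors is isotropic for a suitable `c`. -/
theorem combine [IsAlgClosed k] {m : ℕ} (B : Matrix (Fin m) (Fin m) k) (hB : Bᵀ = B)
    {Q : Type} [Group Q] (N : Subgroup Q) [hN : N.Normal] (ρ : Q →* GL (Fin m) k) (g : Q)
    (hg : ∀ q : Q, ∃ j : ℤ, ∃ n ∈ N, q = g ^ j * n) (v w : Fin m → k)
    (hv : ∀ n ∈ N, (ρ n).1 *ᵥ v = v) (hw : ∀ n ∈ N, (ρ n).1 *ᵥ w = w) (a : k)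
    (hva : (ρ g).1 *ᵥ v = a • v) (hwa : (ρ g).1 *ᵥ w = a • w) (hvw : bf B v w = 0)
    (hvv : bf B v v ≠ 0) (hww : bf B w w ≠ 0) :
    ∃ w : Fin m → k, w ≠ 0 ∧ w ⬝ᵥ (B *ᵥ w) = 0 ∧ ∀ g, ∃ a : k, (ρ g).1 *ᵥ w = a • w := by
  obtain ⟨c, hc⟩ := IsAlgClosed.exists_pow_nat_eq (-(bf B v v / bf B w w)) (n := 2) (by norm_num)
  have hx : bf B v (v + c • w) = bf B v v := by
    rw [bf_add_right, bf_smul_right, hvw]
    ring
  have hne : v + c • w ≠ 0 := by
    intro h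
    rw [h] at hx
    apply hvv
    rw [← hx]
    simp [bf]
  refine ⟨v + c • w, hne, ?_, fun q => ?_⟩
  · change bf B (v + c • w) (v + c • w) = 0
    rw [bf_add_right, bf_smul_right, bf_comm B hB _ v, bf_comm B hB _ w, hx, bf_add_right,
      bf_smul_right, bf_comm B hB w v, hvw]
    have h1 : c ^ 2 * bf B w w = - bf B v v := by
      rw [hc]
      field_simp
    linear_combination h1
  · refine eigen_all N ρ g hg (v + c • w) hne (fun n hn => ?_) a ?_ q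
    · rw [Matrix.mulVec_add, Matrix.mulVec_smul, hv n hn, hw n hn]
    · rw [Matrix.mulVec_add, Matrix.mulVec_smul, hva, hwa, smul_add, smul_comm]

/-- Job SPC-SO. -/
theorem t_SO : Q4.SPC.SO := by
  intro k _ _ ℓ _ _ m hm Q _ _ N _ hcyc B hB _ ρ hρB hρN
  classical
  haveI : NeZero m := ⟨by omega⟩
  obtain ⟨x, hx⟩ := hcyc.exists_generator
  obtain ⟨g, rfl⟩ := QuotientGroup.mk_surjective x
  have hg : ∀ q : Q, ∃ j : ℤ, ∃ n ∈ N, q = g ^ j * n := by
    intro q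
    obtain ⟨j, hj⟩ := Subgroup.mem_zpowers_iff.1 (hx (q : Q ⧸ N))
    refine ⟨j, (g ^ j)⁻¹ * q, ?_, by group⟩
    rw [← QuotientGroup.mk_zpow] at hj
    exact QuotientGroup.eq.1 hj
  have hmul : ∀ (a b : Q) (v : Fin m → k), (ρ (a * b)).1 *ᵥ v = (ρ a).1 *ᵥ ((ρ b).1 *ᵥ v) := by
    intro a b v
    simp [Matrix.mulVec_mulVec]
  -- the orthogonal of a common eigenvector is stable
  have hort : ∀ u : Fin m → k, (∀ q : Q, ∃ b : k, (ρ q).1 *ᵥ u = b • u) →
      ∀ q : Q, ∀ v : Fin m → k, bf B u v = 0 → bf B u ((ρ q).1 *ᵥ v) = 0 := by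
    intro u hu q v hv
    obtain ⟨b, hb⟩ := hu q⁻¹
    have h1 : bf B ((ρ q).1 *ᵥ ((ρ q⁻¹).1 *ᵥ u)) ((ρ q).1 *ᵥ v) = bf B ((ρ q⁻¹).1 *ᵥ u) v :=
      bf_inv B _ (hρB q) _ _
    rw [← hmul, mul_inv_cancel, map_one] at h1
    rw [hb, bf_comm B hB (b • u) v, bf_smul_right, bf_comm B hB v u, hv, mul_zero] at h1
    simpa using h1
  -- the eigenvalue of an anisotropic eigenvector is a sign
  have hsign : ∀ (u : Fin m → k) (a : k), bf B u u ≠ 0 → (ρ g).1 *ᵥ u = a • u → a = 1 ∨ a = -1 := by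
    intro u a hu ha
    have h1 := bf_inv B _ (hρB g) u u
    rw [ha, bf_smul_right, bf_comm B hB (a • u) u, bf_smul_right] at h1
    have h2 : (a * a - 1) * bf B u u = 0 := by linear_combination h1
    have h3 : a * a = 1 := by
      rcases mul_eq_zero.1 h2 with h | h
      · exact sub_eq_zero.1 h
      · exact absurd h hu
    exact mul_self_eq_one_iff.1 h3
  have hfin : Module.finrank k (Fin m → k) = m := by simp
  obtain ⟨w1, -, h1ne, h1N, a1, h1a⟩ := exists_eigen ℓ N ρ hρN g ⊤ (fun _ _ _ => trivial) (by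
    intro h
    have h2 := congrArg (fun W : Submodule k (Fin m → k) => Module.finrank k W) h
    simp at h2
    omega)
  have h1all := eigen_all N ρ g hg w1 h1ne h1N a1 h1a
  by_cases h1i : bf B w1 w1 = 0
  · exact ⟨w1, h1ne, h1i, h1all⟩
  obtain ⟨w2, h2U, h2ne, h2N, a2, h2a⟩ := exists_eigen ℓ N ρ hρN g (LinearMap.ker (bfl B w1))
    (fun q u hu => hort w1 h1all q u hu) (LinearMap.ker_ne_bot_of_finrank_lt (by
      rw [hfin, Module.finrank_self]
      omega))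
  have h12 : bf B w1 w2 = 0 := h2U
  have h2all := eigen_all N ρ g hg w2 h2ne h2N a2 h2a
  by_cases h2i : bf B w2 w2 = 0
  · exact ⟨w2, h2ne, h2i, h2all⟩
  obtain ⟨w3, h3U, h3ne, h3N, a3, h3a⟩ := exists_eigen ℓ N ρ hρN g
    (LinearMap.ker ((bfl B w1).prod (bfl B w2)))
    (fun q u hu => by
      have hu' : bf B w1 u = 0 ∧ bf B w2 u = 0 := Prod.ext_iff.1 hu
      exact Prod.ext (hort w1 h1all q u hu'.1) (hort w2 h2all q u hu'.2))
    (LinearMap.ker_ne_bot_of_finrank_lt (by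
      rw [hfin, Module.finrank_prod, Module.finrank_self]
      omega))
  have h3U' : bf B w1 w3 = 0 ∧ bf B w2 w3 = 0 := Prod.ext_iff.1 h3U
  have h3all := eigen_all N ρ g hg w3 h3ne h3N a3 h3a
  by_cases h3i : bf B w3 w3 = 0
  · exact ⟨w3, h3ne, h3i, h3all⟩
  have hcases : a1 = a2 ∨ a1 = a3 ∨ a2 = a3 := by
    rcases hsign w1 a1 h1i h1a with h1 | h1 <;> rcases hsign w2 a2 h2i h2a with h2 | h2 <;>
      rcases hsign w3 a3 h3i h3a with h3 | h3 <;> simp [h1, h2, h3]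
  rcases hcases with rfl | rfl | rfl
  · exact combine B hB N ρ g hg w1 w2 h1N h2N a1 h1a h2a h12 h1i h2i
  · exact combine B hB N ρ g hg w1 w3 h1N h3N a1 h1a h3a h3U'.1 h1i h3i
  · exact combine B hB N ρ g hg w2 w3 h2N h3N a2 h2a h3a h3U'.2 h2i h3i

end Q213.SPCSO
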