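import Mathlib
import Pool.Agent.Q213.IndepReals
import Pool.Agent.Q213.ResTree

/-!
# Nodes as lists of steps
-/

namespace Pool.Agent.Q213.Steps

open Set
open Pool.Agent.Q213.IndepReals
open Pool.Agent.Q213.ResTree

universe u

/-- the position of the `i`-th bit. -/
noncomputable def thr (i : ℕ) : ℝ := 1 - (1 / 2) ^ (i + 1)

theorem thr_lt_one (i : ℕ) : thr i < 1 := by
  unfold thr
  have : (0 : ℝ) < (1 / 2) ^ (i + 1) := by positivity
  linarith

theorem thr_strictMono : StrictMono thr := by
  refine strictMono_nat_of_lt_succ fun i => ?_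
  unfold thr
  have h : (0 : ℝ) < (1 / 2) ^ (i + 1) := by positivity
  have h2 : ((1 : ℝ) / 2) ^ (i + 1 + 1) = (1 / 2) ^ (i + 1) * (1 / 2) := pow_succ _ _
  rw [h2]
  linarith

theorem thr_pos (i : ℕ) : 0 < thr i := by
  have h : 0 < thr 0 := by unfold thr; norm_num
  exact h.trans_le (thr_strictMono.monotone (Nat.zero_le i))

theorem exists_thr {r : ℝ} (h : r < 1) : ∃ i, r < thr i := by
  obtain ⟨n, hn⟩ := exists_pow_lt_of_lt_one (sub_pos.mpr h) (by norm_num : (1 / 2 : ℝ) < 1)
  refine ⟨n, ?_⟩
  unfold thr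
  have h2 : ((1 : ℝ) / 2) ^ (n + 1) = (1 / 2) ^ n * (1 / 2) := pow_succ _ _
  have h3 : (0 : ℝ) < (1 / 2) ^ n := by positivity
  rw [h2]
  linarith

open Classical in
/-- the bits determined at position `r`. -/
noncomputable def tr (x : ℕ → Bool) (r : ℝ) : ℕ → Bool := fun i => if thr i < r then x i else false

theorem tr_apply_lt {x : ℕ → Bool} {r : ℝ} {i : ℕ} (h : thr i < r) : tr x r i = x i := by
  simp [tr, h]

theorem tr_apply_ge {x : ℕ → Bool} {r : ℝ} {i : ℕ} (h : r ≤ thr i) : tr x r i = false := by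
  simp [tr, not_lt.mpr h]

theorem tr_tr (x : ℕ → Bool) {r s : ℝ} (h : s ≤ r) : tr (tr x r) s = tr x s := by
  funext i
  by_cases h1 : thr i < s
  · rw [tr_apply_lt h1, tr_apply_lt h1, tr_apply_lt (h1.trans_le h)]
  · rw [tr_apply_ge (not_lt.mp h1), tr_apply_ge (not_lt.mp h1)]

theorem tr_ext {x y : ℕ → Bool} {r : ℝ} (h : ∀ i, thr i < r → x i = y i) : tr x r = tr y r := by
  funext i
  by_cases h1 : thr i < r
  · rw [tr_apply_lt h1, tr_apply_lt h1, h i h1]
  · rw [tr_apply_ge (not_lt.mp h1), tr_apply_ge (not_lt.mp h1)]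

theorem eq_of_tr_eq {x y : ℕ → Bool} {r : ℝ} (h : tr x r = tr y r) {i : ℕ} (hi : thr i < r) :
    x i = y i := by
  have := congrFun h i
  rwa [tr_apply_lt hi, tr_apply_lt hi] at this

theorem tr_one (x : ℕ → Bool) : tr x 1 = x := by
  funext i
  rw [tr_apply_lt (thr_lt_one i)]

/-- a step: `new ξ` starts a line of the next level, `sk σ` a line of the same level, `gd x` goes
into a binary tree. -/
inductive Step (K : Type u) : Type u
  | new (ξ : K) (t : ℝ)
  | sk (σ : K) (t : ℝ)
  | gd (x : ℕ → Bool) (t : ℝ)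

namespace Step

variable {K : Type u}

/-- the length of a step. -/
def len : Step K → ℝ
  | new _ t => t
  | sk _ t => t
  | gd _ t => t

/-- cutting a step. -/
noncomputable def cut : Step K → ℝ → Step K
  | new ξ _, s => new ξ s
  | sk σ _, s => sk σ s
  | gd x _, s => gd (tr x s) s

@[simp] theorem len_cut (a : Step K) (s : ℝ) : (a.cut s).len = s := by cases a <;> rfl

theorem cut_cut (a : Step K) {r s : ℝ} (h : s ≤ r) : (a.cut r).cut s = a.cut s := by
  cases a
  · rfl
  · rfl
  · simp [cut, tr_tr _ h]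

theorem cut_left (a b : Step K) {r : ℝ} (h0 : 0 < r)
    (h : ∀ s, 0 < s → s < r → a.cut s = b.cut s) : a.cut r = b.cut r := by
  have h1 := h (r / 2) (by linarith) (by linarith)
  cases a <;> cases b <;> simp only [cut, new.injEq, sk.injEq, gd.injEq, reduceCtorEq] at h1 ⊢
  · exact ⟨h1.1, trivial⟩
  · exact ⟨h1.1, trivial⟩
  · refine ⟨?_, trivial⟩
    refine tr_ext fun i hi => ?_
    have h2 := h ((max (thr i) 0 + r) / 2) (by have := le_max_right (thr i) 0; linarith)
      (by have := max_lt hi h0; linarith)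
    simp only [cut, gd.injEq] at h2
    exact eq_of_tr_eq h2.1 (by
      have := le_max_left (thr i) 0
      have := max_lt hi h0
      linarith)

end Step

open Step

variable {K : Type u}

/-- the height. -/
def ht : List (Step K) → ℝ
  | [] => 0
  | a :: y => ht y + a.len

open Classical in
/-- restriction. -/
noncomputable def res : List (Step K) → ℝ → List (Step K)
  | [], _ => []
  | a :: y, r => if r ≤ ht y then res y r else a.cut (r - ht y) :: y

/-- basic validity. -/
def Ok : List (Step K) → Prop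
  | [] => True
  | a :: y => Ok y ∧ 0 < a.len ∧ a.cut a.len = a

@[simp] theorem ht_nil : ht ([] : List (Step K)) = 0 := rfl
@[simp] theorem ht_cons (a : Step K) (y : List (Step K)) : ht (a :: y) = ht y + a.len := rfl
@[simp] theorem res_nil (r : ℝ) : res ([] : List (Step K)) r = [] := rfl

theorem res_cons_le (a : Step K) {y : List (Step K)} {r : ℝ} (h : r ≤ ht y) :
    res (a :: y) r = res y r := by
  simp [res, h]

theorem res_cons_gt (a : Step K) {y : List (Step K)} {r : ℝ} (h : ht y < r) :
    res (a :: y) r = a.cut (r - ht y) :: y := by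
  simp [res, not_le.mpr h]

theorem ht_nonneg : ∀ {a : List (Step K)}, Ok a → 0 ≤ ht a
  | [], _ => le_rfl
  | a :: y, h => by
      have h1 := ht_nonneg h.1
      have h2 := h.2.1
      simp only [ht_cons]
      linarith

theorem res_self {a : List (Step K)} (h : Ok a) : res a (ht a) = a := by
  cases a with
  | nil => rfl
  | cons a y =>
    have h2 := h.2.1
    rw [res_cons_gt a (by simp [h2])]
    simp [h.2.2]

theorem ht_res : ∀ {a : List (Step K)}, Ok a → ∀ {r : ℝ}, 0 ≤ r → r ≤ ht a → ht (res a r) = r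
  | [], _, r, h0, h1 => by simpa using le_antisymm h0 h1
  | a :: y, h, r, h0, h1 => by
      by_cases h2 : r ≤ ht y
      · rw [res_cons_le a h2]
        exact ht_res h.1 h0 h2
      · rw [res_cons_gt a (not_le.mp h2)]
        simp

theorem res_res : ∀ (a : List (Step K)) {r s : ℝ}, s ≤ r → res (res a r) s = res a s
  | [], r, s, _ => rfl
  | a :: y, r, s, h => by
      by_cases h2 : r ≤ ht y
      · rw [res_cons_le a h2, res_cons_le a (h.trans h2)]
        exact res_res y h
      · rw [res_cons_gt a (not_le.mp h2)]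
        by_cases h3 : s ≤ ht y
        · rw [res_cons_le _ h3, res_cons_le _ h3]
        · rw [res_cons_gt _ (not_le.mp h3), res_cons_gt _ (not_le.mp h3),
            cut_cut _ (by linarith)]

theorem res_zero : ∀ {a : List (Step K)}, Ok a → res a 0 = []
  | [], _ => rfl
  | a :: y, h => by
      rw [res_cons_le a (ht_nonneg h.1)]
      exact res_zero h.1

theorem ok_res : ∀ {a : List (Step K)}, Ok a → ∀ {r : ℝ}, Ok (res a r)
  | [], _, r => trivial
  | a :: y, h, r => by
      by_cases h2 : r ≤ ht y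
      · rw [res_cons_le a h2]
        exact ok_res h.1
      · rw [res_cons_gt a (not_le.mp h2)]
        refine ⟨h.1, ?_, ?_⟩
        · simp; linarith [not_le.mp h2]
        · rw [len_cut, cut_cut _ le_rfl]

theorem res_form : ∀ {a : List (Step K)}, Ok a → ∀ {r : ℝ}, 0 < r → r ≤ ht a →
    ∃ (b : Step K) (y : List (Step K)), Ok y ∧ ht y < r ∧
      ∀ s, ht y < s → s ≤ r → res a s = b.cut (s - ht y) :: y
  | [], _, r, h0, h1 => absurd h0 (not_lt.mpr h1)
  | a :: y, h, r, h0, h1 => by
      by_cases h2 : r ≤ ht y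
      · obtain ⟨b, z, hz, hzr, hb⟩ := res_form h.1 h0 h2
        refine ⟨b, z, hz, hzr, fun s hs hsr => ?_⟩
        rw [res_cons_le a (hsr.trans h2)]
        exact hb s hs hsr
      · refine ⟨a, y, h.1, not_le.mp h2, fun s hs hsr => res_cons_gt a hs⟩

theorem res_left {a b : List (Step K)} (ha : Ok a) (hb : Ok b) {r : ℝ} (h0 : 0 < r)
    (hra : r ≤ ht a) (hrb : r ≤ ht b) (h : ∀ s, 0 ≤ s → s < r → res a s = res b s) :
    res a r = res b r := by
  obtain ⟨p, y, hy, hyr, hp⟩ := res_form ha h0 hra
  obtain ⟨q, z, hz, hzr, hq⟩ := res_form hb h0 hrb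
  have hm : max (ht y) (ht z) < r := max_lt hyr hzr
  have hy0 := ht_nonneg hy
  have h1 := le_max_left (ht y) (ht z)
  have h2 := le_max_right (ht y) (ht z)
  have h3 := h ((max (ht y) (ht z) + r) / 2) (by linarith) (by linarith)
  rw [hp _ (by linarith) (by linarith), hq _ (by linarith) (by linarith)] at h3
  obtain ⟨_, hyz⟩ := List.cons_eq_cons.mp h3
  subst hyz
  rw [hp r hyr le_rfl, hq r hzr le_rfl]
  congr 1
  refine cut_left _ _ (by linarith) fun s hs hsr => ?_
  have h4 := h (ht y + s) (by linarith) (by linarith)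
  rw [hp _ (by linarith) (by linarith), hq _ (by linarith) (by linarith)] at h4
  have h5 := (List.cons_eq_cons.mp h4).1
  simpa using h5

/-! ## valid nodes -/

/-- the level. -/
def lv : List (Step K) → ℕ
  | [] => 0
  | .new _ _ :: y => lv y + 1
  | .sk _ _ :: y => lv y
  | .gd _ _ :: y => lv y

variable (ρ : List (Step K) → K)

/-- the parameter of a line. -/
def par : List (Step K) → Option K
  | [] => none
  | .new _ _ :: y => some (ρ y)
  | .sk σ _ :: _ => some σ
  | .gd _ _ :: _ => none

variable [LinearOrder K] (N : ℕ → Set (ℕ → Bool))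

/-- where a step may start. -/
def Cnd : Step K → List (Step K) → Prop
  | .new _ _, _ => True
  | .sk σ _, y => ∃ τ, par ρ y = some τ ∧ σ < τ
  | .gd x r, y => (∃ τ, par ρ y = some τ) ∧ r ≤ 1 ∧ (r = 1 → x ∉ N (lv y))

/-- valid nodes. -/
def V : List (Step K) → Prop
  | [] => True
  | a :: y => V y ∧ (0 < a.len ∧ a.cut a.len = a) ∧ Cnd ρ N a y

variable {ρ N}

theorem V.ok : ∀ {a : List (Step K)}, V ρ N a → Ok a
  | [], _ => trivial
  | _ :: _, h => ⟨V.ok h.1, h.2.1⟩

theorem Cnd.cut {a : Step K} {y : List (Step K)} (h : Cnd ρ N a y) (ha : a.cut a.len = a)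
    {r : ℝ} (h1 : r ≤ a.len) : Cnd ρ N (a.cut r) y := by
  cases a with
  | new ξ t => exact h
  | sk σ t => exact h
  | gd x t =>
    refine ⟨h.1, h1.trans h.2.1, ?_⟩
    rintro rfl
    have h2 : t = 1 := le_antisymm h.2.1 h1
    rw [tr_one]
    exact h.2.2 h2

theorem V.res : ∀ {a : List (Step K)}, V ρ N a → ∀ {r : ℝ}, r ≤ ht a → V ρ N (res a r)
  | [], _, r, _ => trivial
  | a :: y, h, r, hr => by
      by_cases h2 : r ≤ ht y
      · rw [res_cons_le a h2]
        exact V.res h.1 h2
      · rw [res_cons_gt a (not_le.mp h2)]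
        simp only [ht_cons] at hr
        refine ⟨h.1, ⟨?_, ?_⟩, h.2.2.cut h.2.1.2 (by linarith)⟩
        · simp; linarith [not_le.mp h2]
        · rw [len_cut, cut_cut _ le_rfl]

variable (ρ N)

/-- the tree. -/
@[ext] structure T where
  /-- the list of steps. -/
  val : List (Step K)
  /-- validity. -/
  prop : V ρ N val

variable {ρ N}

open Classical in
/-- restriction of a node. -/
noncomputable def T.res (a : T ρ N) (r : ℝ) : T ρ N :=
  if h : r ≤ ht a.val then ⟨Steps.res a.val r, a.prop.res h⟩ else a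

theorem T.res_val (a : T ρ N) {r : ℝ} (h : r ≤ ht a.val) :
    (a.res r).val = Steps.res a.val r := by
  unfold T.res
  rw [dif_pos h]

variable (ρ N)

/-- heights and restrictions on the tree. -/
noncomputable def resData : ResData (T ρ N) where
  h a := ht a.val
  res a r := a.res r
  h_nonneg a := ht_nonneg a.prop.ok
  h_res a r h0 h1 := by
    rw [T.res_val a h1]
    exact ht_res a.prop.ok h0 h1
  res_self a := by
    ext1
    rw [T.res_val a le_rfl]
    exact res_self a.prop.ok
  res_res a r s h0 h1 h2 := by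
    ext1
    have h3 : ht (a.res r).val = r := by
      rw [T.res_val a h2]
      exact ht_res a.prop.ok (h0.trans h1) h2
    rw [T.res_val _ (by rw [h3]; exact h1), T.res_val _ h2, T.res_val _ (h1.trans h2)]
    exact res_res a.val h1
  res_zero a b := by
    ext1
    rw [T.res_val a (ht_nonneg a.prop.ok), T.res_val b (ht_nonneg b.prop.ok)]
    exact (res_zero a.prop.ok).trans (res_zero b.prop.ok).symm
  left a b r h0 hra hrb h := by
    ext1
    rw [T.res_val a hra, T.res_val b hrb]
    refine res_left a.prop.ok b.prop.ok h0 hra hrb fun s hs hsr => ?_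
    have h1 := congrArg T.val (h s hs hsr)
    rwa [T.res_val a (hsr.le.trans hra), T.res_val b (hsr.le.trans hrb)] at h1

noncomputable instance : PartialOrder (T ρ N) := (resData ρ N).order

variable {ρ N}

theorem T.le_iff {a b : T ρ N} : a ≤ b ↔ ht a.val ≤ ht b.val ∧ Steps.res b.val (ht a.val) = a.val := by
  constructor
  · rintro ⟨h1, h2⟩
    refine ⟨h1, ?_⟩
    have h3 := congrArg T.val h2
    have h1' : ht a.val ≤ ht b.val := h1
    change (b.res (ht a.val)).val = a.val at h3
    rwa [T.res_val b h1'] at h3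
  · rintro ⟨h1, h2⟩
    refine ⟨h1, ?_⟩
    show b.res (ht a.val) = a
    ext1
    rw [T.res_val b h1, h2]

end Pool.Agent.Q213.Steps
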