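import Mathlib
import Pool.Agent.Q213.Steps

/-!
# Structure of the tree of steps
-/

namespace Pool.Agent.Q213.Steps

open Set
open Pool.Agent.Q213.IndepReals
open Pool.Agent.Q213.ResTree
open Step

universe u

variable {K : Type u}

/-- the order on lists. -/
def Le (a b : List (Step K)) : Prop := ht a ≤ ht b ∧ res b (ht a) = a

theorem Le.trans {a b c : List (Step K)} (h1 : Le a b) (h2 : Le b c) : Le a c := by
  refine ⟨h1.1.trans h2.1, ?_⟩
  have h := res_res c h1.1
  rw [h2.2, h1.2] at h
  exact h.symm

theorem Le.refl {a : List (Step K)} (h : Ok a) : Le a a := ⟨le_rfl, res_self h⟩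

theorem le_cons_cases {a y : List (Step K)} {s : Step K} (h : Le a (s :: y)) :
    Le a y ∨ (ht y < ht a ∧ ht a - ht y ≤ s.len ∧ a = s.cut (ht a - ht y) :: y) := by
  obtain ⟨h1, h2⟩ := h
  by_cases h3 : ht a ≤ ht y
  · left
    rw [res_cons_le s h3] at h2
    exact ⟨h3, h2⟩
  · right
    rw [res_cons_gt s (not_le.mp h3)] at h2
    simp only [ht_cons] at h1
    exact ⟨not_le.mp h3, by linarith, h2.symm⟩

theorem le_nil {a : List (Step K)} (h : Le a []) : a = [] := h.2.symm

theorem nil_le {a : List (Step K)} (h : Ok a) : Le [] a := ⟨ht_nonneg h, res_zero h⟩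

theorem le_cons {y : List (Step K)} {s : Step K} (h : Ok (s :: y)) : Le y (s :: y) := by
  refine ⟨?_, ?_⟩
  · simp [h.2.1.le]
  · rw [res_cons_le s le_rfl]
    exact res_self h.1

theorem cut_le {y : List (Step K)} {s : Step K} (h : Ok (s :: y)) {r : ℝ} (h0 : 0 < r)
    (h1 : r ≤ s.len) : Le (s.cut r :: y) (s :: y) := by
  refine ⟨?_, ?_⟩
  · simpa using h1
  · rw [ht_cons, len_cut, res_cons_gt s (by linarith)]
    simp

theorem lv_cut (s : Step K) (r : ℝ) (y : List (Step K)) : lv (s.cut r :: y) = lv (s :: y) := by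
  cases s <;> rfl

theorem lv_le_cons (s : Step K) (y : List (Step K)) : lv y ≤ lv (s :: y) := by
  cases s <;> simp [lv]

theorem Le.lv {a b : List (Step K)} (h : Le a b) : lv a ≤ lv b := by
  induction b with
  | nil => rw [le_nil h]
  | cons s y ih =>
    rcases le_cons_cases h with h1 | ⟨_, _, h1⟩
    · exact (ih h1).trans (lv_le_cons s y)
    · rw [h1, lv_cut]

theorem Le.length {a b : List (Step K)} (h : Le a b) : a.length ≤ b.length := by
  induction b with
  | nil => rw [le_nil h]
  | cons s y ih =>
    rcases le_cons_cases h with h1 | ⟨_, _, h1⟩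
    · exact (ih h1).trans (by simp)
    · rw [h1]; simp

variable {ρ : List (Step K) → K}

theorem par_cut (s : Step K) (r : ℝ) (y : List (Step K)) :
    par ρ (s.cut r :: y) = par ρ (s :: y) := by
  cases s <;> rfl

variable [LinearOrder K] {N : ℕ → Set (ℕ → Bool)}

set_option linter.unusedSectionVars false

theorem V.of_le {a b : List (Step K)} (hb : V ρ N b) (h : Le a b) : V ρ N a := by
  rw [← h.2]
  exact hb.res h.1

theorem T.le_iff' {a b : T ρ N} : a ≤ b ↔ Le a.val b.val := T.le_iff

theorem T.lt_iff {a b : T ρ N} : a < b ↔ Le a.val b.val ∧ a.val ≠ b.val := by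
  rw [lt_iff_le_and_ne, T.le_iff']
  refine and_congr_right fun _ => ?_
  rw [ne_eq, ne_eq, T.ext_iff]

theorem T.ht_lt {a b : T ρ N} (h : a < b) : ht a.val < ht b.val := by
  obtain ⟨h1, h2⟩ := T.lt_iff.mp h
  refine lt_of_le_of_ne h1.1 fun h3 => h2 ?_
  have := h1.2
  rw [h3, res_self b.prop.ok] at this
  exact this.symm

/-- above `a` there is a one-step extension below `b`. -/
theorem exists_ext {a b : List (Step K)} (hb : V ρ N b) (h : Le a b) (hne : a ≠ b) :
    ∃ (s : Step K) (y : List (Step K)), V ρ N (s :: y) ∧ Le (s :: y) b ∧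
      (y = a ∨ ∃ t, 0 < t ∧ t < s.len ∧ a = s.cut t :: y) := by
  induction b with
  | nil => exact absurd (le_nil h) hne
  | cons s y ih =>
    rcases le_cons_cases h with h1 | ⟨h1, h2, h3⟩
    · by_cases hay : a = y
      · exact ⟨s, y, hb, Le.refl hb.ok, Or.inl hay.symm⟩
      · obtain ⟨s', y', h1', h2', h3'⟩ := ih hb.1 h1 hay
        exact ⟨s', y', h1', h2'.trans (le_cons hb.ok), h3'⟩
    · refine ⟨s, y, hb, Le.refl hb.ok, Or.inr ⟨_, sub_pos.mpr h1, lt_of_le_of_ne h2 ?_, h3⟩⟩
      intro h4
      apply hne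
      rw [h3, h4, hb.2.1.2]

/-! ## same block -/

theorem same_block {a y : List (Step K)} {s : Step K} (h : Le a (s :: y))
    (hl : a.length = (s :: y).length) :
    0 < ht a - ht y ∧ ht a - ht y ≤ s.len ∧ a = s.cut (ht a - ht y) :: y := by
  rcases le_cons_cases h with h1 | ⟨h1, h2, h3⟩
  · have := h1.length
    simp only [List.length_cons] at hl
    omega
  · exact ⟨sub_pos.mpr h1, h2, h3⟩

theorem new_le {ξ : K} {t t' : ℝ} {y : List (Step K)} (h : Ok (new ξ t :: y))
    (h' : Ok (new ξ t' :: y)) (ht : t ≤ t') : Le (new ξ t :: y) (new ξ t' :: y) :=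
  cut_le (s := new ξ t') h' h.2.1 ht

theorem sk_le {ξ : K} {t t' : ℝ} {y : List (Step K)} (h : Ok (sk ξ t :: y))
    (h' : Ok (sk ξ t' :: y)) (ht : t ≤ t') : Le (sk ξ t :: y) (sk ξ t' :: y) :=
  cut_le (s := sk ξ t') h' h.2.1 ht

theorem gd_le_iff {x x' : ℕ → Bool} {t t' : ℝ} {y : List (Step K)} (h : 0 < t) :
    Le (gd x t :: y) (gd x' t' :: y) ↔ t ≤ t' ∧ tr x' t = x := by
  unfold Le
  rw [ht_cons, res_cons_gt _ (by simp [len, h])]
  simp [len, cut]

/-! ## words -/

/-- the `i`-th letter of a reversed word. -/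
def bit (l : List Bool) (i : ℕ) : Bool := l.reverse.getD i false

theorem bit_append {q l : List Bool} {i : ℕ} (h : i < l.length) : bit (q ++ l) i = bit l i := by
  unfold bit
  rw [List.reverse_append, List.getD_append]
  simpa using h

theorem bit_cons (b : Bool) (l : List Bool) : bit (b :: l) l.length = b := by
  unfold bit
  rw [List.reverse_cons, List.getD_append_right _ _ _ _ (by simp)]
  simp

theorem bit_cons_lt {b : Bool} {l : List Bool} {i : ℕ} (h : i < l.length) :
    bit (b :: l) i = bit l i := bit_append (q := [b]) h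

@[simp] theorem length_rp (x : ℕ → Bool) (j : ℕ) : (rp x j).length = j := by
  induction j with
  | zero => rfl
  | succ j ih => simp [rp, ih]

theorem bit_rp (x : ℕ → Bool) {i j : ℕ} (h : i < j) : bit (rp x j) i = x i := by
  induction j with
  | zero => omega
  | succ j ih =>
    rcases Nat.lt_succ_iff_lt_or_eq.mp h with h1 | h1
    · rw [rp, bit_cons_lt (by simpa using h1)]
      exact ih h1
    · subst h1
      have := bit_cons (x i) (rp x i)
      rw [length_rp] at this
      exact this

theorem rp_of_bits (x : ℕ → Bool) : ∀ (l : List Bool), (∀ i < l.length, x i = bit l i) →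
    rp x l.length = l
  | [], _ => rfl
  | b :: l, h => by
      have h1 := h l.length (by simp)
      rw [bit_cons] at h1
      rw [List.length_cons, rp, h1, rp_of_bits x l]
      intro i hi
      rw [h i (by simp; omega), bit_cons_lt hi]

theorem rp_congr {x y : ℕ → Bool} {j : ℕ} (h : ∀ i < j, x i = y i) : rp x j = rp y j := by
  induction j with
  | zero => rfl
  | succ j ih => rw [rp, rp, ih fun i hi => h i (by omega), h j (by omega)]

theorem app_lt {s : List Bool} {x : ℕ → Bool} {i : ℕ} (h : i < s.length) :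
    app s x i = s.getD i false := by
  simp [app, h]

theorem app_ge {s : List Bool} {x : ℕ → Bool} {i : ℕ} (h : s.length ≤ i) :
    app s x i = x (i - s.length) := by
  simp [app, not_lt.mpr h]

theorem rp_app (s : List Bool) (x : ℕ → Bool) (j : ℕ) :
    rp (app s x) (s.length + j) = rp x j ++ s.reverse := by
  induction j with
  | zero =>
    have h := rp_of_bits (app s x) s.reverse (fun i hi => by
      rw [List.length_reverse] at hi
      rw [app_lt hi, bit, List.reverse_reverse])
    rw [List.length_reverse] at h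
    simpa [rp] using h
  | succ j ih =>
    rw [← add_assoc, rp, ih, app_add, rp]
    rfl

theorem app_app (s s' : List Bool) (x : ℕ → Bool) : app s (app s' x) = app (s ++ s') x := by
  funext i
  by_cases h : i < s.length
  · rw [app_lt h, app_lt (by simp; omega), List.getD_append _ _ _ _ h]
  · rw [app_ge (not_lt.mp h)]
    by_cases h2 : i < s.length + s'.length
    · rw [app_lt (by omega), app_lt (by simpa using h2),
        List.getD_append_right _ _ _ _ (not_lt.mp h)]
    · rw [app_ge (by omega), app_ge (by simp; omega)]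
      congr 1
      simp
      omega

theorem exists_first_ne {x y : ℕ → Bool} (h : x ≠ y) : ∃ k, x k ≠ y k ∧ ∀ i < k, x i = y i := by
  classical
  have hex : ∃ k, x k ≠ y k := by
    by_contra hcon
    push Not at hcon
    exact h (funext hcon)
  exact ⟨Nat.find hex, Nat.find_spec hex, fun i hi => not_not.mp (Nat.find_min hex hi)⟩

end Pool.Agent.Q213.Steps
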