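import Mathlib
import Pool.Agent.Q213.StepsB

/-!
# Binary trees in the tree of steps
-/

namespace Pool.Agent.Q213.Steps

open Set
open Pool.Agent.Q213.IndepReals
open Pool.Agent.Q213.ResTree
open Step

universe u

/-- independence of the sets of words. -/
def Indep (N : ℕ → Set (ℕ → Bool)) : Prop :=
  ∀ W : List Bool → Bool, Function.Injective (hW W) → ∀ (s : List Bool) (n m : ℕ), n ≠ m →
    ∃ x : ℕ → Bool, app s x ∈ N n ∧ hW W x ∉ N m

/-- the set of all `x` such that the branch `x` of `e` is bounded is coded by `M`. -/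
def Codes {X : Type u} [PartialOrder X] (M : Set (ℕ → Bool)) (s : List Bool)
    (e : List Bool → X) : Prop :=
  (∀ b l, e l ≤ e (b :: l)) ∧ (∀ l, ¬ e (true :: l) ≤ e (false :: l) ∧
    ¬ e (false :: l) ≤ e (true :: l)) ∧
    ∀ x, ((∃ z, ∀ j, e (rp x j) ≤ z) ↔ app s x ∉ M)

theorem mono_append {X : Type u} [PartialOrder X] {e : List Bool → X}
    (he : ∀ b l, e l ≤ e (b :: l)) : ∀ q l, e l ≤ e (q ++ l)
  | [], _ => le_rfl
  | b :: q, l => (mono_append he q l).trans (he b (q ++ l))

theorem rp_extends (x : ℕ → Bool) {i j : ℕ} (h : i ≤ j) : ∃ q, rp x j = q ++ rp x i := by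
  induction j with
  | zero => exact ⟨[], by simp [Nat.le_zero.mp h]⟩
  | succ j ih =>
    rcases Nat.le_succ_iff.mp h with h1 | h1
    · obtain ⟨q, hq⟩ := ih h1
      exact ⟨x j :: q, by rw [rp, hq]; rfl⟩
    · exact ⟨[], by rw [h1]; rfl⟩

theorem mono_rp {X : Type u} [PartialOrder X] {e : List Bool → X}
    (he : ∀ b l, e l ≤ e (b :: l)) (x : ℕ → Bool) {i j : ℕ} (h : i ≤ j) :
    e (rp x i) ≤ e (rp x j) := by
  obtain ⟨q, hq⟩ := rp_extends x h
  rw [hq]
  exact mono_append he q _

/-- if the branches of `e` above `l₂` are bounded along `app l₂.reverse x`. -/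
theorem bounded_app {X : Type u} [PartialOrder X] {e : List Bool → X}
    (he : ∀ b l, e l ≤ e (b :: l)) (l₂ : List Bool) (x : ℕ → Bool) {z : X}
    (h : ∀ j, e (rp x j ++ l₂) ≤ z) : ∀ j, e (rp (app l₂.reverse x) j) ≤ z := by
  intro j
  have h1 := mono_rp he (app l₂.reverse x) (show j ≤ l₂.reverse.length + j by omega)
  rw [rp_app, List.reverse_reverse] at h1
  exact h1.trans (h j)

variable {K : Type u} [LinearOrder K] {ρ : List (Step K) → K} {N : ℕ → Set (ℕ → Bool)}

theorem no_code_gadget (hN : Indep N) {n : ℕ} {s l₂ : List Bool} {e : List Bool → T ρ N}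
    (he : Codes (N n) s e) (hlen : ∀ l, (e (l ++ l₂)).val.length = (e l₂).val.length)
    (hlv : lv (e l₂).val ≠ n) : False := by
  obtain ⟨hmono, hinc, hcode⟩ := he
  have hle : ∀ q l, e (l ++ l₂) ≤ e (q ++ l ++ l₂) := fun q l => by
    have := mono_append hmono q (l ++ l₂)
    rwa [← List.append_assoc] at this
  have hle0 : ∀ l, e l₂ ≤ e (l ++ l₂) := fun l => mono_append hmono l l₂
  have hinc' : ∀ l, ¬ e (true :: l ++ l₂) ≤ e (false :: l ++ l₂) ∧
    ¬ e (false :: l ++ l₂) ≤ e (true :: l ++ l₂) := fun l => hinc (l ++ l₂)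
  -- the common block
  have hform : ∀ l, ∃ st, (e (l ++ l₂)).val = st :: (e l₂).val.tail := by
    intro l
    have h1 := T.le_iff'.mp (hle0 l)
    cases hv : (e (l ++ l₂)).val with
    | nil =>
      exfalso
      have h0 := hlen l
      rw [hv] at h0
      have h2 := hlen [true]
      have h3 := hlen [false]
      rw [← h0] at h2 h3
      have h4 : (e ([true] ++ l₂)).val = [] := List.length_eq_zero_iff.mp h2
      have h5 : (e ([false] ++ l₂)).val = [] := List.length_eq_zero_iff.mp h3
      apply (hinc' []).1
      have h6 : e ([true] ++ l₂) = e ([false] ++ l₂) := T.ext (h4.trans h5.symm)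
      exact h6.le
    | cons st y =>
      rw [hv] at h1
      have h2 := hlen l
      rw [hv] at h2
      obtain ⟨_, _, h5⟩ := same_block h1 h2.symm
      refine ⟨st, ?_⟩
      rw [h5]
      rfl
  choose st hst using hform
  set w := (e l₂).val.tail with hw
  have hVst : ∀ l, V ρ N (st l :: w) := fun l => hst l ▸ (e (l ++ l₂)).prop
  have hst0 : (e l₂).val = st [] :: w := hst []
  have hcut : ∀ l, ∃ t, 0 < t ∧ t ≤ (st l).len ∧ st [] = (st l).cut t := by
    intro l
    have h1 := T.le_iff'.mp (hle0 l)
    rw [hst l] at h1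
    obtain ⟨h3, h4, h5⟩ := same_block h1 (by rw [hst0]; rfl)
    rw [hst0] at h3 h4 h5
    exact ⟨_, h3, h4, (List.cons_eq_cons.mp h5).1⟩
  -- it is a gadget
  have hgd : ∀ l, ∃ x r, st l = gd x r := by
    intro l
    cases hs0 : st [] with
    | new ξ t =>
      exfalso
      have hall : ∀ l, ∃ t, st l = new ξ t := by
        intro l
        obtain ⟨t', _, _, h⟩ := hcut l
        rw [hs0] at h
        cases hsl : st l with
        | new ξ' t'' =>
          rw [hsl] at h
          simp only [cut, new.injEq] at h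
          exact ⟨t'', by rw [h.1]⟩
        | sk σ t'' => rw [hsl] at h; simp [cut] at h
        | gd x t'' => rw [hsl] at h; simp [cut] at h
      obtain ⟨t1, ht1⟩ := hall [true]
      obtain ⟨t2, ht2⟩ := hall [false]
      have hv1 : (e ([true] ++ l₂)).val = new ξ t1 :: w := by rw [hst, ht1]
      have hv2 : (e ([false] ++ l₂)).val = new ξ t2 :: w := by rw [hst, ht2]
      have ho1 : Ok (new ξ t1 :: w) := by rw [← ht1]; exact (hVst _).ok
      have ho2 : Ok (new ξ t2 :: w) := by rw [← ht2]; exact (hVst _).ok
      rcases le_total t1 t2 with h | h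
      · apply (hinc' []).1
        refine T.le_iff'.mpr ?_
        change Le (e ([true] ++ l₂)).val (e ([false] ++ l₂)).val
        rw [hv1, hv2]
        exact new_le ho1 ho2 h
      · apply (hinc' []).2
        refine T.le_iff'.mpr ?_
        change Le (e ([false] ++ l₂)).val (e ([true] ++ l₂)).val
        rw [hv1, hv2]
        exact new_le ho2 ho1 h
    | sk ξ t =>
      exfalso
      have hall : ∀ l, ∃ t, st l = sk ξ t := by
        intro l
        obtain ⟨t', _, _, h⟩ := hcut l
        rw [hs0] at h
        cases hsl : st l with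
        | sk ξ' t'' =>
          rw [hsl] at h
          simp only [cut, sk.injEq] at h
          exact ⟨t'', by rw [h.1]⟩
        | new σ t'' => rw [hsl] at h; simp [cut] at h
        | gd x t'' => rw [hsl] at h; simp [cut] at h
      obtain ⟨t1, ht1⟩ := hall [true]
      obtain ⟨t2, ht2⟩ := hall [false]
      have hv1 : (e ([true] ++ l₂)).val = sk ξ t1 :: w := by rw [hst, ht1]
      have hv2 : (e ([false] ++ l₂)).val = sk ξ t2 :: w := by rw [hst, ht2]
      have ho1 : Ok (sk ξ t1 :: w) := by rw [← ht1]; exact (hVst _).ok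
      have ho2 : Ok (sk ξ t2 :: w) := by rw [← ht2]; exact (hVst _).ok
      rcases le_total t1 t2 with h | h
      · apply (hinc' []).1
        refine T.le_iff'.mpr ?_
        change Le (e ([true] ++ l₂)).val (e ([false] ++ l₂)).val
        rw [hv1, hv2]
        exact sk_le ho1 ho2 h
      · apply (hinc' []).2
        refine T.le_iff'.mpr ?_
        change Le (e ([false] ++ l₂)).val (e ([true] ++ l₂)).val
        rw [hv1, hv2]
        exact sk_le ho2 ho1 h
    | gd x t =>
      obtain ⟨t', _, _, h⟩ := hcut l
      rw [hs0] at h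
      cases hsl : st l with
      | new ξ' t'' => rw [hsl] at h; simp [cut] at h
      | sk σ t'' => rw [hsl] at h; simp [cut] at h
      | gd x' t'' => exact ⟨x', t'', rfl⟩
  choose X R hXR using hgd
  have hval : ∀ l, (e (l ++ l₂)).val = gd (X l) (R l) :: w := fun l => by rw [hst, hXR]
  have hV : ∀ l, V ρ N (gd (X l) (R l) :: w) := fun l => hval l ▸ (e (l ++ l₂)).prop
  have hR0 : ∀ l, 0 < R l := fun l => (hV l).2.1.1
  have hX : ∀ l, tr (X l) (R l) = X l := by
    intro l
    have := (hV l).2.1.2
    simp only [cut, len, gd.injEq] at this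
    exact this.1
  have hR1 : ∀ l, R l ≤ 1 := fun l => (hV l).2.2.2.1
  have hup : ∀ q l, R l ≤ R (q ++ l) ∧ tr (X (q ++ l)) (R l) = X l := by
    intro q l
    have h1 := T.le_iff'.mp (hle q l)
    rw [hval, hval] at h1
    exact (gd_le_iff (hR0 l)).mp h1
  have hbit : ∀ q l i, thr i < R l → X (q ++ l) i = X l i := by
    intro q l i hi
    have h1 := (hup q l).2
    rw [← hX l] at h1
    exact eq_of_tr_eq h1 hi
  have hdiff : ∀ l, ∃ i, thr i < R (true :: l) ∧ thr i < R (false :: l) ∧
      X (true :: l) i ≠ X (false :: l) i := by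
    intro l
    by_contra hcon
    push Not at hcon
    rcases le_total (R (true :: l)) (R (false :: l)) with h | h
    · apply (hinc' l).1
      refine T.le_iff'.mpr ?_
      rw [hval, hval, gd_le_iff (hR0 _)]
      refine ⟨h, ?_⟩
      rw [← hX (true :: l)]
      exact tr_ext fun i hi => (hcon i hi (hi.trans_le h)).symm
    · apply (hinc' l).2
      refine T.le_iff'.mpr ?_
      rw [hval, hval, gd_le_iff (hR0 _)]
      refine ⟨h, ?_⟩
      rw [← hX (false :: l)]
      exact tr_ext fun i hi => hcon i (hi.trans_le h) hi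
  have hdiff' : ∀ l, ∃ i, thr i < R (true :: l) ∧ thr i < R (false :: l) ∧
      X (true :: l) i ≠ X (false :: l) i ∧ R l ≤ thr i := by
    intro l
    obtain ⟨i, h1, h2, h3⟩ := hdiff l
    refine ⟨i, h1, h2, h3, ?_⟩
    by_contra hcon
    apply h3
    rw [show true :: l = [true] ++ l from rfl, show false :: l = [false] ++ l from rfl,
      hbit _ _ _ (not_le.mp hcon), hbit _ _ _ (not_le.mp hcon)]
  have hthr : ∀ l : List Bool, ∀ i < l.length, thr i < R l := by
    intro l
    induction l with
    | nil => intro i hi; simp at hi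
    | cons b l ih =>
      intro i hi
      obtain ⟨k, h1, h2, _, h4⟩ := hdiff' l
      have h5 : thr k < R (b :: l) := by cases b <;> assumption
      have h6 : l.length ≤ k := by
        by_contra hcon
        exact absurd (ih k (not_le.mp hcon)) (not_lt.mpr h4)
      have h7 : thr i ≤ thr k := thr_strictMono.monotone (by
        simp only [List.length_cons] at hi; omega)
      exact h7.trans_lt h5
  -- the letter by letter map
  let W : List Bool → Bool := fun l => X l (l.length - 1)
  have hWx : ∀ x i, hW W x i = X (rp x (i + 1)) i := by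
    intro x i
    simp [hW, W]
  have hstable : ∀ x i j, thr i < R (rp x j) → hW W x i = X (rp x j) i := by
    intro x i j hij
    rw [hWx]
    rcases le_total (i + 1) j with h | h
    · obtain ⟨q, hq⟩ := rp_extends x h
      rw [hq]
      exact (hbit q _ i (hthr _ i (by simp))).symm
    · obtain ⟨q, hq⟩ := rp_extends x h
      rw [hq]
      exact hbit q _ i hij
  have hinj : Function.Injective (hW W) := by
    intro x y hxy
    by_contra hne
    obtain ⟨k, hk, hlt⟩ := exists_first_ne hne
    have hrp : rp x k = rp y k := rp_congr hlt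
    obtain ⟨i, h1, h2, h3, _⟩ := hdiff' (rp x k)
    have hx : rp x (k + 1) = x k :: rp x k := rfl
    have hy : rp y (k + 1) = y k :: rp x k := by rw [hrp]; rfl
    have hRx : thr i < R (rp x (k + 1)) := by
      rw [hx]
      cases x k <;> assumption
    have hRy : thr i < R (rp y (k + 1)) := by
      rw [hy]
      cases y k <;> assumption
    have h4 := hstable x i (k + 1) hRx
    have h5 := hstable y i (k + 1) hRy
    rw [hxy, h5, hx, hy] at h4
    cases hxk : x k <;> cases hyk : y k <;> rw [hxk, hyk] at h4 hk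
    · exact hk rfl
    · exact h3 h4
    · exact h3 h4.symm
    · exact hk rfl
  -- conclusion
  have hlw : lv w ≠ n := by
    intro h
    apply hlv
    rw [hst0, hXR]
    exact h
  obtain ⟨x, hx1, hx2⟩ := hN W hinj (s ++ l₂.reverse) n (lv w) (Ne.symm hlw)
  rw [← app_app] at hx1
  refine absurd hx1 ((hcode _).mp ?_)
  have hVz : V ρ N (gd (hW W x) 1 :: w) := by
    refine ⟨(hV []).1, ⟨?_, ?_⟩, (hV []).2.2.1, le_rfl, fun _ => hx2⟩
    · show (0 : ℝ) < 1
      norm_num
    · simp [cut, len, tr_one]
  refine ⟨⟨_, hVz⟩, bounded_app hmono l₂ x fun j => ?_⟩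
  refine T.le_iff'.mpr ?_
  rw [hval, gd_le_iff (hR0 _)]
  refine ⟨hR1 _, ?_⟩
  rw [← hX (rp x j)]
  exact tr_ext fun i hi => hstable x i j hi

theorem no_code_deep (hN : Indep N) {n : ℕ} {s : List Bool} {e : List Bool → T ρ N}
    (he : Codes (N n) s e) {l₁ : List Bool}
    (hlen : ∀ l', ∃ l, (e (l' ++ l₁)).val.length < (e (l ++ (l' ++ l₁))).val.length) : False := by
  obtain ⟨hmono, hinc, hcode⟩ := he
  choose g hg using hlen
  let P : List Bool → List Bool := fun l => List.rec (motive := fun _ => List Bool) []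
    (fun b _ p => g (b :: p) ++ (b :: p)) l
  have hPc : ∀ b l, P (b :: l) = g (b :: P l) ++ (b :: P l) := fun b l => rfl
  let U : List Bool → List Bool := fun l => P l ++ l₁
  have hUc : ∀ b l, U (b :: l) = g (b :: P l) ++ (b :: U l) := by
    intro b l
    simp [U, hPc]
  have hUd : ∀ l, l.length ≤ (e (U l)).val.length := by
    intro l
    induction l with
    | nil => simp
    | cons b l ih =>
      have h1 := hg (b :: P l)
      have h2 : (e (U l)).val.length ≤ (e (b :: U l)).val.length :=
        (T.le_iff'.mp (hmono b (U l))).length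
      have h3 : U (b :: l) = g (b :: P l) ++ ((b :: P l) ++ l₁) := by
        rw [hUc]; simp [U]
      rw [h3, List.length_cons]
      have h4 : b :: U l = (b :: P l) ++ l₁ := by simp [U]
      rw [h4] at h2
      omega
  have hUlen : ∀ l, l.length ≤ (U l).length := by
    intro l
    induction l with
    | nil => simp
    | cons b l ih => rw [hUc]; simp; omega
  have hUext : ∀ x i j, i ≤ j → ∃ q, U (rp x j) = q ++ U (rp x i) := by
    intro x i j hij
    induction j with
    | zero => exact ⟨[], by simp [Nat.le_zero.mp hij]⟩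
    | succ j ih =>
      rcases Nat.le_succ_iff.mp hij with h1 | h1
      · obtain ⟨q, hq⟩ := ih h1
        refine ⟨g (x j :: P (rp x j)) ++ (x j :: q), ?_⟩
        rw [rp, hUc, hq]
        simp
      · exact ⟨[], by rw [h1]; rfl⟩
  have hbits : ∀ x i j, i < (U (rp x j)).length →
      bit (U (rp x (i + 1))) i = bit (U (rp x j)) i := by
    intro x i j hij
    rcases le_total (i + 1) j with h | h
    · obtain ⟨q, hq⟩ := hUext x _ _ h
      rw [hq, bit_append (q := q)]
      have := hUlen (rp x (i + 1))
      rw [length_rp] at this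
      omega
    · obtain ⟨q, hq⟩ := hUext x _ _ h
      rw [hq, bit_append (q := q) hij]
  let emb : (ℕ → Bool) → (ℕ → Bool) := fun x i => bit (U (rp x (i + 1))) i
  have hembrp : ∀ x j, rp (emb x) (U (rp x j)).length = U (rp x j) := fun x j =>
    rp_of_bits _ _ fun i hi => hbits x i j hi
  have hunb : ∀ x, ¬ ∃ z, ∀ j, e (rp (emb x) j) ≤ z := by
    rintro x ⟨z, hz⟩
    have h1 := hz (U (rp x (z.val.length + 1))).length
    rw [hembrp] at h1
    have h2 := (T.le_iff'.mp h1).length
    have h3 := hUd (rp x (z.val.length + 1))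
    rw [length_rp] at h3
    omega
  have hmem : ∀ x, app s (emb x) ∈ N n := by
    intro x
    by_contra hcon
    exact hunb x ((hcode _).mpr hcon)
  let W : List Bool → Bool := fun l => (s ++ (U l).reverse).getD (l.length - 1) false
  have hWx : ∀ x, hW W x = app s (emb x) := by
    intro x
    funext i
    have h0 : hW W x i = (s ++ (U (rp x (i + 1))).reverse).getD i false := by simp [hW, W]
    rw [h0]
    by_cases h : i < s.length
    · rw [List.getD_append _ _ _ _ h, app_lt h]
    · rw [List.getD_append_right _ _ _ _ (not_lt.mp h), app_ge (not_lt.mp h)]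
      have h1 := hbits x (i - s.length) (i + 1) (by
        have := hUlen (rp x (i + 1))
        rw [length_rp] at this
        omega)
      exact h1.symm
  have hemb : Function.Injective emb := by
    intro x y hxy
    by_contra hne
    obtain ⟨k, hk, hlt⟩ := exists_first_ne hne
    have hrp : rp x k = rp y k := rp_congr hlt
    have key : ∀ z : ℕ → Bool, emb z (U (rp z k)).length = z k := by
      intro z
      have h1 : (U (rp z k)).length < (U (rp z (k + 1))).length := by
        rw [rp, hUc]
        simp
        omega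
      have h2 := hbits z (U (rp z k)).length (k + 1) h1
      have h3 : U (rp z (k + 1)) = g (z k :: P (rp z k)) ++ (z k :: U (rp z k)) := by
        rw [rp, hUc]
      show bit _ _ = _
      rw [h2, h3, bit_append (by simp), bit_cons]
    apply hk
    rw [← key x, ← key y, hxy, hrp]
  have hinj : Function.Injective (hW W) := by
    intro x y hxy
    rw [hWx, hWx] at hxy
    exact hemb (app_injective s hxy)
  obtain ⟨x, _, hx⟩ := hN W hinj [] (n + 1) n (by omega)
  rw [hWx] at hx
  exact hx (hmem x)

/-- the main lemma: no coding of `N n` by nodes of other levels. -/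
theorem no_code (hN : Indep N) {n : ℕ} {s : List Bool} {e : List Bool → T ρ N}
    (he : Codes (N n) s e) {l₁ : List Bool} (hlv : ∀ l, lv (e (l ++ l₁)).val ≠ n) : False := by
  by_cases h : ∃ l', ∀ l, (e (l ++ (l' ++ l₁))).val.length = (e (l' ++ l₁)).val.length
  · obtain ⟨l', hl'⟩ := h
    exact no_code_gadget hN he hl' (hlv l')
  · push Not at h
    refine no_code_deep hN he (l₁ := l₁) fun l' => ?_
    obtain ⟨l, hl⟩ := h l'
    refine ⟨l, lt_of_le_of_ne ?_ (Ne.symm hl)⟩
    exact (T.le_iff'.mp (mono_append he.1 l _)).length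

end Pool.Agent.Q213.Steps
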