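import Mathlib
import Pool.Agent.Q213.StepsC

/-!
# Levels are invariant
-/

namespace Pool.Agent.Q213.Steps

open Set
open Pool.Agent.Q213.IndepReals
open Pool.Agent.Q213.ResTree
open Step

universe u

variable {K : Type u} [LinearOrder K] {ρ : List (Step K) → K} {N : ℕ → Set (ℕ → Bool)}

/-- the word `s ⌢ l.reverse` followed by zeros. -/
def Z (s l : List Bool) : ℕ → Bool := fun i => (s ++ l.reverse).getD i false

theorem tr_Z (s l : List Bool) : tr (Z s l) (thr (s.length + l.length)) = Z s l := by
  funext i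
  by_cases h : thr i < thr (s.length + l.length)
  · rw [tr_apply_lt h]
  · rw [tr_apply_ge (not_lt.mp h)]
    have h1 : s.length + l.length ≤ i := by
      by_contra hcon
      exact h (thr_strictMono (not_le.mp hcon))
    rw [Z, List.getD_eq_default]
    simpa using h1

theorem Z_cons {s l : List Bool} {b : Bool} {i : ℕ} (h : i < s.length + l.length) :
    Z s (b :: l) i = Z s l i := by
  unfold Z
  rw [List.reverse_cons, ← List.append_assoc, List.getD_append]
  simpa using h

theorem Z_last (s l : List Bool) (b : Bool) : Z s (b :: l) (s.length + l.length) = b := by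
  unfold Z
  rw [List.reverse_cons, ← List.append_assoc, List.getD_append_right _ _ _ _ (by simp)]
  simp

theorem Z_rp (s : List Bool) (x : ℕ → Bool) {i j : ℕ} (h : i < s.length + j) :
    Z s (rp x j) i = app s x i := by
  unfold Z
  by_cases h1 : i < s.length
  · rw [List.getD_append _ _ _ _ h1, app_lt h1]
  · rw [List.getD_append_right _ _ _ _ (not_lt.mp h1), app_ge (not_lt.mp h1)]
    exact bit_rp x (by omega)

theorem thr_lt_iff {i j : ℕ} : thr i < thr j ↔ i < j := thr_strictMono.lt_iff_lt

theorem V_gd {w : List (Step K)} (hw : V ρ N w) {τ : K} (hp : par ρ w = some τ)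
    {x : ℕ → Bool} {r : ℝ} (h0 : 0 < r) (h1 : r < 1) (hx : tr x r = x) :
    V ρ N (gd x r :: w) :=
  ⟨hw, ⟨h0, by simp [cut, len, hx]⟩, ⟨τ, hp⟩, h1.le, fun h => absurd h h1.ne⟩

/-- the coding tree inside a gadget. -/
noncomputable def eN {w : List (Step K)} (hw : V ρ N w) {τ : K} (hp : par ρ w = some τ)
    (s l : List Bool) : T ρ N :=
  ⟨gd (Z s l) (thr (s.length + l.length)) :: w, V_gd hw hp (thr_pos _) (thr_lt_one _) (tr_Z s l)⟩

theorem eN_codes {w : List (Step K)} (hw : V ρ N w) {τ : K} (hp : par ρ w = some τ)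
    (s : List Bool) : Codes (N (lv w)) s (eN hw hp s) := by
  refine ⟨?_, ?_, ?_⟩
  · intro b l
    refine T.le_iff'.mpr ?_
    show Le (gd _ _ :: w) (gd _ _ :: w)
    rw [gd_le_iff (thr_pos _)]
    refine ⟨thr_strictMono.monotone (by simp), ?_⟩
    rw [← tr_Z s l]
    exact tr_ext fun i hi => Z_cons (thr_lt_iff.mp hi)
  · intro l
    have key : ∀ b, ¬ eN hw hp s (b :: l) ≤ eN hw hp s ((!b) :: l) := by
      intro b h
      have h1 := T.le_iff'.mp h
      change Le (gd _ _ :: w) (gd _ _ :: w) at h1
      rw [gd_le_iff (thr_pos _)] at h1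
      have h2 := h1.2
      have h3 : tr (Z s (b :: l)) (thr (s.length + (b :: l).length)) = Z s (b :: l) := tr_Z _ _
      rw [← h3] at h2
      have h4 := eq_of_tr_eq h2 (i := s.length + l.length) (thr_lt_iff.mpr (by simp))
      rw [Z_last, Z_last] at h4
      cases b <;> simp at h4
    exact ⟨key true, key false⟩
  · intro x
    have hle : ∀ j, Le (eN hw hp s (rp x j)).val (gd (app s x) 1 :: w) := by
      intro j
      show Le (gd _ _ :: w) (gd _ _ :: w)
      rw [gd_le_iff (thr_pos _)]
      refine ⟨(thr_lt_one _).le, ?_⟩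
      rw [← tr_Z s (rp x j)]
      refine tr_ext fun i hi => (Z_rp s x ?_).symm
      have := thr_lt_iff.mp hi
      rwa [length_rp] at this
    have hok : Ok (gd (app s x) 1 :: w : List (Step K)) :=
      ⟨hw.ok, one_pos, by simp [cut, len, tr_one]⟩
    constructor
    · rintro ⟨z, hz⟩
      have hz' : ∀ j, Le (eN hw hp s (rp x j)).val z.val := fun j => T.le_iff'.mp (hz j)
      have hht : ∀ j, ht (eN hw hp s (rp x j)).val = ht w + thr (s.length + j) := by
        intro j
        show ht w + thr (s.length + (rp x j).length) = _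
        rw [length_rp]
      have hw0 := ht_nonneg hw.ok
      have hsup : ∀ u, u < ht w + 1 → ∃ j, u < ht (eN hw hp s (rp x j)).val := by
        intro u hu
        obtain ⟨i, hi⟩ := exists_thr (show u - ht w < 1 by linarith)
        refine ⟨i, ?_⟩
        rw [hht]
        have := thr_strictMono.monotone (show i ≤ s.length + i by omega)
        linarith
      have hz1 : ht w + 1 ≤ ht z.val := by
        by_contra hcon
        obtain ⟨j, hj⟩ := hsup _ (not_le.mp hcon)
        exact absurd (hz' j).1 (not_le.mpr hj)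
      have hres : res z.val (ht w + 1) = res (gd (app s x) 1 :: w) (ht w + 1) := by
        refine res_left z.prop.ok hok (by linarith) hz1 (by simp [len]) fun u hu0 hu => ?_
        obtain ⟨j, hj⟩ := hsup u hu
        rw [← res_res z.val hj.le, ← res_res (gd (app s x) 1 :: w) hj.le, (hz' j).2, (hle j).2]
      have h1 : res (gd (app s x) 1 :: w) (ht w + 1) = gd (app s x) 1 :: w := by
        have := res_self hok
        simpa [len] using this
      have h2 : V ρ N (gd (app s x) 1 :: w) := by
        rw [← h1, ← hres]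
        exact z.prop.res hz1
      exact h2.2.2.2.2 rfl
    · intro hx
      exact ⟨⟨gd (app s x) 1 :: w, hw, ⟨one_pos, by simp [cut, len, tr_one]⟩, ⟨τ, hp⟩, le_rfl,
        fun _ => hx⟩, fun j => T.le_iff'.mpr (hle j)⟩

/-- the invariant property. -/
def Q {X : Type u} [PartialOrder X] (M : Set (ℕ → Bool)) (y : X) : Prop :=
  ∃ (s : List Bool) (e : List Bool → X), (∀ l, y ≤ e l) ∧ Codes M s e

theorem Q.map {X : Type u} [PartialOrder X] {M : Set (ℕ → Bool)} {y : X} (φ : X ≃o X)
    (h : Q M y) : Q M (φ y) := by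
  obtain ⟨s, e, h1, h2, h3, h4⟩ := h
  refine ⟨s, fun l => φ (e l), fun l => φ.le_iff_le.mpr (h1 l), fun b l => φ.le_iff_le.mpr (h2 b l),
    fun l => ?_, fun x => ?_⟩
  · simp only [φ.le_iff_le]
    exact h3 l
  · rw [← h4 x]
    constructor
    · rintro ⟨z, hz⟩
      exact ⟨φ.symm z, fun j => by rw [φ.le_symm_apply]; exact hz j⟩
    · rintro ⟨z, hz⟩
      exact ⟨φ z, fun j => φ.le_iff_le.mpr (hz j)⟩

theorem Q.of_le {X : Type u} [PartialOrder X] {M : Set (ℕ → Bool)} {y y' : X} (h : Q M y')
    (hle : y ≤ y') : Q M y := by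
  obtain ⟨s, e, h1, h2⟩ := h
  exact ⟨s, e, fun l => hle.trans (h1 l), h2⟩

theorem Q_line {y : T ρ N} {τ : K} (hp : par ρ y.val = some τ) : Q (N (lv y.val)) y :=
  ⟨[], eN y.prop hp [], fun l => T.le_iff'.mpr (le_cons (eN y.prop hp [] l).prop.ok),
    eN_codes y.prop hp []⟩

/-- a new line of length `1`. -/
def mkNew (ξ : K) (y : T ρ N) : T ρ N :=
  ⟨new ξ 1 :: y.val, y.prop, ⟨one_pos, rfl⟩, trivial⟩

theorem le_mkNew (ξ : K) (y : T ρ N) : y ≤ mkNew ξ y :=
  T.le_iff'.mpr (le_cons (mkNew ξ y).prop.ok)

theorem Q_low [Nonempty K] {n : ℕ} : ∀ (k : ℕ) (y : T ρ N), lv y.val + k + 1 = n → Q (N n) y := by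
  obtain ⟨ξ⟩ : Nonempty K := inferInstance
  intro k
  induction k with
  | zero =>
    intro y hy
    have h := Q_line (y := mkNew ξ y) (τ := ρ y.val) rfl
    have h2 : lv (mkNew ξ y).val = n := hy
    rw [h2] at h
    exact h.of_le (le_mkNew ξ y)
  | succ k ih =>
    intro y hy
    refine Q.of_le (ih (mkNew ξ y) ?_) (le_mkNew ξ y)
    have h2 : lv (mkNew ξ y).val = lv y.val + 1 := rfl
    rw [h2]
    omega

theorem Q_gadget {w : List (Step K)} {x : ℕ → Bool} {r : ℝ} (hy : V ρ N (gd x r :: w))
    (hr : r < 1) : Q (N (lv w)) (⟨gd x r :: w, hy⟩ : T ρ N) := by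
  obtain ⟨j, hj⟩ := exists_thr hr
  obtain ⟨τ, hτ⟩ := hy.2.2.1
  refine ⟨(rp x j).reverse, eN hy.1 hτ (rp x j).reverse, fun l => ?_,
    eN_codes hy.1 hτ _⟩
  refine T.le_iff'.mpr ?_
  show Le (gd x r :: w) (gd _ _ :: w)
  have h0 : 0 < r := hy.2.1.1
  rw [gd_le_iff h0]
  have hx : tr x r = x := by
    have := hy.2.1.2
    simp only [cut, len, gd.injEq] at this
    exact this.1
  have hlen : (rp x j).reverse.length = j := by simp
  refine ⟨hj.le.trans (thr_strictMono.monotone (by omega)), ?_⟩
  conv_rhs => rw [← hx]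
  refine tr_ext fun i hi => ?_
  have hij : i < j := thr_lt_iff.mp (hi.trans hj)
  unfold Z
  rw [List.getD_append _ _ _ _ (by rw [hlen]; exact hij)]
  exact bit_rp x hij

/-- one-step extension inside the same level. -/
theorem exists_ext_same {a b : T ρ N} (h : a < b) (hlv : lv b.val = lv a.val) :
    ∃ (s : Step K) (y : List (Step K)), V ρ N (s :: y) ∧ Le (s :: y) b.val ∧
      lv (s :: y) = lv a.val ∧
      (y = a.val ∨ ∃ t, 0 < t ∧ t < s.len ∧ a.val = s.cut t :: y) := by
  obtain ⟨h1, h2⟩ := T.lt_iff.mp h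
  obtain ⟨s, y, hV, hle, hor⟩ := exists_ext b.prop h1 h2
  refine ⟨s, y, hV, hle, ?_, hor⟩
  have h3 := hle.lv
  have h4 : lv a.val ≤ lv (s :: y) := by
    rcases hor with h | ⟨t, _, _, h⟩
    · rw [← h]; exact lv_le_cons s y
    · rw [h, lv_cut]
  omega

theorem lv_le_iff [Nonempty K] (hN : Indep N) (z : T ρ N) (n : ℕ) :
    lv z.val ≤ n ↔ ∀ y < z, Q (N n) y := by
  constructor
  · intro hz y hy
    have hyz := (T.lt_iff.mp hy).1.lv
    rcases lt_or_eq_of_le (hyz.trans hz) with h | h
    · exact Q_low (n - lv y.val - 1) y (by omega)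
    · have hzy : lv z.val = lv y.val := by omega
      obtain ⟨s, w, hV, hle, hl, hor⟩ := exists_ext_same hy hzy
      obtain ⟨yv, hyv⟩ := y
      cases yv with
      | nil =>
        exfalso
        rcases hor with h1 | ⟨t, _, _, h1⟩
        · change w = [] at h1
          subst h1
          cases s with
          | new ξ t => simp [lv] at hl
          | sk σ t =>
            obtain ⟨τ, hτ, _⟩ := hV.2.2
            simp [par] at hτ
          | gd x t =>
            obtain ⟨⟨τ, hτ⟩, _⟩ := hV.2.2
            simp [par] at hτ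
        · simp at h1
      | cons s' y' =>
        cases s' with
        | new ξ t =>
          rw [← h]
          exact Q_line (y := ⟨new ξ t :: y', hyv⟩) (τ := ρ y') rfl
        | sk σ t =>
          rw [← h]
          exact Q_line (y := ⟨sk σ t :: y', hyv⟩) (τ := σ) rfl
        | gd x r =>
          rcases hor with h1 | ⟨t, _, ht, h1⟩
          · exfalso
            change w = gd x r :: y' at h1
            subst h1
            cases s with
            | new ξ t => simp [lv] at hl
            | sk σ t =>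
              obtain ⟨τ, hτ, _⟩ := hV.2.2
              simp [par] at hτ
            | gd x t =>
              obtain ⟨⟨τ, hτ⟩, _⟩ := hV.2.2
              simp [par] at hτ
          · change gd x r :: y' = s.cut t :: w at h1
            obtain ⟨h2, h3⟩ := List.cons_eq_cons.mp h1
            subst h3
            cases s with
            | new ξ t => simp [cut] at h2
            | sk σ t => simp [cut] at h2
            | gd x' r' =>
              simp only [cut, gd.injEq] at h2
              have h4 : r' ≤ 1 := hV.2.2.2.1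
              have h5 : t < r' := ht
              rw [← h]
              exact Q_gadget hyv (by linarith [h2.2])
  · intro hz
    by_contra hcon
    rw [not_le] at hcon
    obtain ⟨zv, hzv⟩ := z
    cases zv with
    | nil => simp [lv] at hcon
    | cons s w =>
      have h0 : 0 < s.len := hzv.2.1.1
      have hle : Le (s.cut (s.len / 2) :: w) (s :: w) := cut_le hzv.ok (by linarith) (by linarith)
      have hlt : (⟨s.cut (s.len / 2) :: w, hzv.of_le hle⟩ : T ρ N) < ⟨s :: w, hzv⟩ := by
        refine T.lt_iff.mpr ⟨hle, ?_⟩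
        intro h
        have h1 := congrArg ht h
        simp only [ht_cons, len_cut] at h1
        linarith
      obtain ⟨s', e, h1, h2⟩ := hz _ hlt
      refine no_code hN h2 (l₁ := []) fun l => ?_
      have h3 := (T.le_iff'.mp (h1 (l ++ []))).lv
      rw [lv_cut] at h3
      change n < lv (s :: w) at hcon
      omega

theorem lv_map [Nonempty K] (hN : Indep N) (φ : T ρ N ≃o T ρ N) (z : T ρ N) :
    lv (φ z).val = lv z.val := by
  have key : ∀ (φ : T ρ N ≃o T ρ N) (z : T ρ N), lv (φ z).val ≤ lv z.val := by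
    intro φ z
    rw [lv_le_iff hN]
    intro y hy
    have h1 : φ.symm y < z := by
      rw [← φ.lt_iff_lt, φ.apply_symm_apply]
      exact hy
    have h2 := ((lv_le_iff hN z _).mp le_rfl _ h1).map φ
    rwa [φ.apply_symm_apply] at h2
  refine le_antisymm (key φ z) ?_
  have := key φ.symm (φ z)
  rwa [φ.symm_apply_apply] at this

end Pool.Agent.Q213.Steps
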