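import Mathlib
import Pool.Agent.Q213.StepsD

/-!
# Parameters are invariant and the tree is rigid
-/

namespace Pool.Agent.Q213.Steps

open Set
open Pool.Agent.Q213.IndepReals
open Pool.Agent.Q213.ResTree
open Step

universe u

variable {K : Type u} [LinearOrder K] {ρ : List (Step K) → K} {N : ℕ → Set (ℕ → Bool)}

/-- `b` and `c` lie in the same component above `a`. -/
def Same {X : Type u} [PartialOrder X] (a b c : X) : Prop := ∃ w, a < w ∧ w ≤ b ∧ w ≤ c

/-- at least three components of the same level. -/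
def Sp (a : T ρ N) : Prop :=
  ∃ b₁ b₂ b₃ : T ρ N, (a < b₁ ∧ lv b₁.val = lv a.val) ∧ (a < b₂ ∧ lv b₂.val = lv a.val) ∧
    (a < b₃ ∧ lv b₃.val = lv a.val) ∧ ¬ Same a b₁ b₂ ∧ ¬ Same a b₁ b₃ ∧ ¬ Same a b₂ b₃

theorem Same.map {X : Type u} [PartialOrder X] {a b c : X} (φ : X ≃o X) :
    Same (φ a) (φ b) (φ c) ↔ Same a b c := by
  constructor
  · rintro ⟨w, h1, h2, h3⟩
    refine ⟨φ.symm w, ?_, ?_, ?_⟩
    · rw [← φ.lt_iff_lt, φ.apply_symm_apply]; exact h1
    · rw [← φ.le_iff_le, φ.apply_symm_apply]; exact h2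
    · rw [← φ.le_iff_le, φ.apply_symm_apply]; exact h3
  · rintro ⟨w, h1, h2, h3⟩
    exact ⟨φ w, φ.lt_iff_lt.mpr h1, φ.le_iff_le.mpr h2, φ.le_iff_le.mpr h3⟩

theorem Sp.map [Nonempty K] (hN : Indep N) (φ : T ρ N ≃o T ρ N) {a : T ρ N} (h : Sp a) :
    Sp (φ a) := by
  obtain ⟨b₁, b₂, b₃, ⟨h1, h1'⟩, ⟨h2, h2'⟩, ⟨h3, h3'⟩, h4, h5, h6⟩ := h
  refine ⟨φ b₁, φ b₂, φ b₃, ⟨φ.lt_iff_lt.mpr h1, ?_⟩, ⟨φ.lt_iff_lt.mpr h2, ?_⟩,
    ⟨φ.lt_iff_lt.mpr h3, ?_⟩, ?_, ?_, ?_⟩
  · rw [lv_map hN, lv_map hN, h1']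
  · rw [lv_map hN, lv_map hN, h2']
  · rw [lv_map hN, lv_map hN, h3']
  · rwa [Same.map]
  · rwa [Same.map]
  · rwa [Same.map]

/-- a node above `y` by one step. -/
theorem lt_of_cons {a : T ρ N} {s : Step K} (h : V ρ N (s :: a.val)) :
    a < (⟨s :: a.val, h⟩ : T ρ N) := by
  refine T.lt_iff.mpr ⟨le_cons h.ok, ?_⟩
  intro h1
  have := congrArg List.length h1
  simp at this

theorem V_gd0 {w : List (Step K)} (hw : V ρ N w) {τ : K} (hp : par ρ w = some τ) :
    V ρ N (gd (fun _ => false) (1 / 2) :: w) := by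
  refine V_gd hw hp (by norm_num) (by norm_num) ?_
  funext i
  unfold tr
  split <;> rfl

theorem V_longer {s : Step K} {y : List (Step K)} (h : V ρ N (s :: y)) {τ : K}
    (hp : par ρ (s :: y) = some τ) {r : ℝ} (hr : 0 < r) : V ρ N (s.cut r :: y) := by
  cases s with
  | new ξ t => exact ⟨h.1, ⟨hr, rfl⟩, trivial⟩
  | sk σ t => exact ⟨h.1, ⟨hr, rfl⟩, h.2.2⟩
  | gd x t => simp [par] at hp

theorem Sp_of_par {a : T ρ N} {τ j : K} (hp : par ρ a.val = some τ) (hj : j < τ) : Sp a := by
  obtain ⟨av, hav⟩ := a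
  cases av with
  | nil => simp [par] at hp
  | cons s y =>
    have hs0 : 0 < s.len := hav.2.1.1
    have hV1 : V ρ N (s.cut (s.len + 1) :: y) := V_longer hav hp (by linarith)
    have hV2 : V ρ N (gd (fun _ => false) (1 / 2) :: s :: y) := V_gd0 hav hp
    have hV3 : V ρ N (sk j 1 :: s :: y) := ⟨hav, ⟨one_pos, rfl⟩, τ, hp, hj⟩
    have hnot : ∀ w : T ρ N, (⟨s :: y, hav⟩ : T ρ N) < w → ¬ Le w.val (s :: y) := by
      intro w hw h
      exact absurd (T.le_iff'.mpr h : w ≤ ⟨s :: y, hav⟩) (not_le_of_gt hw)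
    have hnot' : ∀ w : T ρ N, (⟨s :: y, hav⟩ : T ρ N) < w → ¬ Le w.val y := by
      intro w hw h
      exact hnot w hw (h.trans (le_cons hav.ok))
    refine ⟨⟨_, hV1⟩, ⟨_, hV2⟩, ⟨_, hV3⟩, ⟨?_, lv_cut _ _ _⟩, ⟨lt_of_cons hV2, rfl⟩,
      ⟨lt_of_cons hV3, rfl⟩, ?_, ?_, ?_⟩
    · refine T.lt_iff.mpr ⟨?_, ?_⟩
      · have h1 : (s.cut (s.len + 1)).cut s.len = s := by
          rw [cut_cut _ (by linarith), hav.2.1.2]
        have h2 := cut_le (s := s.cut (s.len + 1)) (y := y) hV1.ok hs0
          (by rw [len_cut]; linarith)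
        rwa [h1] at h2
      · intro h
        have := congrArg ht h
        simp only [ht_cons, len_cut] at this
        linarith
    · rintro ⟨w, hw, h1, h2⟩
      rcases le_cons_cases (T.le_iff'.mp h1) with h3 | ⟨_, _, h3⟩
      · exact hnot' w hw h3
      rcases le_cons_cases (T.le_iff'.mp h2) with h4 | ⟨_, _, h4⟩
      · exact hnot w hw h4
      have := congrArg List.length (h3.symm.trans h4)
      simp at this
    · rintro ⟨w, hw, h1, h2⟩
      rcases le_cons_cases (T.le_iff'.mp h1) with h3 | ⟨_, _, h3⟩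
      · exact hnot' w hw h3
      rcases le_cons_cases (T.le_iff'.mp h2) with h4 | ⟨_, _, h4⟩
      · exact hnot w hw h4
      have := congrArg List.length (h3.symm.trans h4)
      simp at this
    · rintro ⟨w, hw, h1, h2⟩
      rcases le_cons_cases (T.le_iff'.mp h1) with h3 | ⟨_, _, h3⟩
      · exact hnot w hw h3
      rcases le_cons_cases (T.le_iff'.mp h2) with h4 | ⟨_, _, h4⟩
      · exact hnot w hw h4
      have := h3.symm.trans h4
      simp [cut] at this

/-- pigeonhole form of `¬ Sp`. -/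
theorem not_Sp_of {a : T ρ N} (R : Bool → T ρ N → Prop)
    (h1 : ∀ b, a < b → lv b.val = lv a.val → ∃ β, R β b)
    (h2 : ∀ β b c, R β b → R β c → Same a b c) : ¬ Sp a := by
  rintro ⟨b₁, b₂, b₃, ⟨ha1, hl1⟩, ⟨ha2, hl2⟩, ⟨ha3, hl3⟩, h4, h5, h6⟩
  obtain ⟨β₁, hβ₁⟩ := h1 b₁ ha1 hl1
  obtain ⟨β₂, hβ₂⟩ := h1 b₂ ha2 hl2
  obtain ⟨β₃, hβ₃⟩ := h1 b₃ ha3 hl3
  cases β₁ <;> cases β₂ <;> cases β₃
  · exact h4 (h2 _ _ _ hβ₁ hβ₂)
  · exact h4 (h2 _ _ _ hβ₁ hβ₂)
  · exact h5 (h2 _ _ _ hβ₁ hβ₃)
  · exact h6 (h2 _ _ _ hβ₂ hβ₃)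
  · exact h6 (h2 _ _ _ hβ₂ hβ₃)
  · exact h5 (h2 _ _ _ hβ₁ hβ₃)
  · exact h4 (h2 _ _ _ hβ₁ hβ₂)
  · exact h4 (h2 _ _ _ hβ₁ hβ₂)

theorem tr_start {x : ℕ → Bool} {r : ℝ} (h : r ≤ 1 / 2) : tr x r = fun _ => false := by
  funext i
  refine tr_apply_ge (h.trans ?_)
  have h0 : thr 0 = 1 / 2 := by unfold thr; norm_num
  rw [← h0]
  exact thr_strictMono.monotone (Nat.zero_le i)

/-- two lines continuing in the same direction are comparable. -/
theorem line_comparable {s s' : Step K} {y : List (Step K)} {r : ℝ} (h : V ρ N (s :: y))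
    (h' : V ρ N (s' :: y)) {τ : K} (hp : par ρ (s :: y) = some τ) (hc : s.cut r = s'.cut r) :
    Le (s :: y) (s' :: y) ∨ Le (s' :: y) (s :: y) := by
  cases s with
  | new ξ t =>
    cases s' with
    | new ξ' t' =>
      simp only [cut, new.injEq] at hc
      obtain ⟨rfl, _⟩ := hc
      rcases le_total t t' with h1 | h1
      · exact Or.inl (new_le h.ok h'.ok h1)
      · exact Or.inr (new_le h'.ok h.ok h1)
    | sk σ t' => simp [cut] at hc
    | gd x t' => simp [cut] at hc
  | sk σ t =>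
    cases s' with
    | sk σ' t' =>
      simp only [cut, sk.injEq] at hc
      obtain ⟨rfl, _⟩ := hc
      rcases le_total t t' with h1 | h1
      · exact Or.inl (sk_le h.ok h'.ok h1)
      · exact Or.inr (sk_le h'.ok h.ok h1)
    | new ξ t' => simp [cut] at hc
    | gd x t' => simp [cut] at hc
  | gd x t => simp [par] at hp

theorem par_of_Sp {a : T ρ N} (h : Sp a) : ∃ τ, par ρ a.val = some τ ∧ ∃ j, j < τ := by
  by_contra hcon
  push Not at hcon
  revert h
  cases hp : par ρ a.val with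
  | some τ =>
    -- a line without skeleton directions
    have hτ := hcon τ hp
    refine not_Sp_of (fun β b => (β = true ∧ ∃ s y t, 0 < t ∧ t < s.len ∧ a.val = s.cut t :: y ∧
        V ρ N (s :: y) ∧ Le (s :: y) b.val) ∨
      (β = false ∧ ∃ x r, V ρ N (gd x r :: a.val) ∧ Le (gd x r :: a.val) b.val)) ?_ ?_
    · intro b hab hlb
      obtain ⟨s, y, hV, hle, hl, hor⟩ := exists_ext_same hab hlb
      rcases hor with rfl | ⟨t, h0, h1, h2⟩
      · cases s with
        | new ξ t => simp [lv] at hl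
        | sk σ t =>
          obtain ⟨τ', hτ', hlt⟩ := hV.2.2
          rw [hp, Option.some.injEq] at hτ'
          subst hτ'
          exact absurd hlt (not_lt.mpr (hτ σ))
        | gd x r => exact ⟨false, Or.inr ⟨rfl, x, r, hV, hle⟩⟩
      · exact ⟨true, Or.inl ⟨rfl, s, y, t, h0, h1, h2, hV, hle⟩⟩
    · intro β b c hb hc
      rcases hb with ⟨hβ, s, y, t, h0, h1, h2, hV, hle⟩ | ⟨hβ, x, r, hV, hle⟩
      · rcases hc with ⟨_, s', y', t', h0', h1', h2', hV', hle'⟩ | ⟨hβ', _⟩
        · obtain ⟨h3, rfl⟩ := List.cons_eq_cons.mp (h2.symm.trans h2')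
          have htt : t = t' := by
            have := congrArg len h3
            simpa using this
          subst htt
          have hps : par ρ (s :: y) = some τ := by rw [← par_cut s t y, ← h2, hp]
          have hps' : par ρ (s' :: y) = some τ := by rw [← par_cut s' t y, ← h2', hp]
          have ha1 : Le a.val (s :: y) := by rw [h2]; exact cut_le hV.ok h0 h1.le
          have ha1' : Le a.val (s' :: y) := by rw [h2']; exact cut_le hV'.ok h0' h1'.le
          have hne : a.val ≠ s :: y := by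
            intro h
            have := congrArg ht (h2.symm.trans h)
            simp only [ht_cons, len_cut] at this
            linarith
          have hne' : a.val ≠ s' :: y := by
            intro h
            have := congrArg ht (h2'.symm.trans h)
            simp only [ht_cons, len_cut] at this
            linarith
          rcases line_comparable hV hV' hps h3 with h4 | h4
          · exact ⟨⟨s :: y, hV⟩, T.lt_iff.mpr ⟨ha1, hne⟩, T.le_iff'.mpr hle,
              T.le_iff'.mpr (h4.trans hle')⟩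
          · exact ⟨⟨s' :: y, hV'⟩, T.lt_iff.mpr ⟨ha1', hne'⟩, T.le_iff'.mpr (h4.trans hle),
              T.le_iff'.mpr hle'⟩
        · rw [hβ] at hβ'; exact absurd hβ' (by decide)
      · rcases hc with ⟨hβ', _⟩ | ⟨_, x', r', hV', hle'⟩
        · rw [hβ] at hβ'; exact absurd hβ' (by decide)
        · have hr : 0 < r := hV.2.1.1
          have hr' : 0 < r' := hV'.2.1.1
          have hm : 0 < min (min r r') (1 / 2) := lt_min (lt_min hr hr') (by norm_num)
          have hm1 : min (min r r') (1 / 2) ≤ 1 / 2 := min_le_right _ _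
          have hVm : V ρ N (gd (fun _ => false) (min (min r r') (1 / 2)) :: a.val) := by
            refine V_gd a.prop hp hm (by linarith) ?_
            exact tr_start hm1
          refine ⟨⟨_, hVm⟩, lt_of_cons hVm, ?_, ?_⟩
          · refine T.le_iff'.mpr (Le.trans ?_ hle)
            rw [gd_le_iff hm]
            exact ⟨(min_le_left _ _).trans (min_le_left _ _), tr_start hm1⟩
          · refine T.le_iff'.mpr (Le.trans ?_ hle')
            rw [gd_le_iff hm]
            exact ⟨(min_le_left _ _).trans (min_le_right _ _), tr_start hm1⟩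
  | none =>
    have hform : ∀ b, a < b → lv b.val = lv a.val → ∃ x w r x' r', a.val = gd x r :: w ∧
        V ρ N (gd x' r' :: w) ∧ Le (gd x' r' :: w) b.val ∧ 0 < r ∧ r < r' ∧ tr x' r = x := by
      intro b hab hlb
      obtain ⟨s, y, hV, hle, hl, hor⟩ := exists_ext_same hab hlb
      rcases hor with rfl | ⟨t, h0, h1, h2⟩
      · exfalso
        cases s with
        | new ξ t => simp [lv] at hl
        | sk σ t =>
          obtain ⟨τ', hτ', hlt⟩ := hV.2.2
          simp [hp] at hτ'
        | gd x r =>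
          obtain ⟨⟨τ', hτ'⟩, _⟩ := hV.2.2
          simp [hp] at hτ'
      · cases s with
        | new ξ t' => rw [h2] at hp; simp [par, cut] at hp
        | sk σ t' => rw [h2] at hp; simp [par, cut] at hp
        | gd x' r' => exact ⟨tr x' t, y, t, x', r', h2, hV, hle, h0, h1, rfl⟩
    by_cases hex : ∃ b, a < b ∧ lv b.val = lv a.val
    · obtain ⟨b0, hab0, hlb0⟩ := hex
      obtain ⟨x, w, r, x0, r0, ha, hV0, _, hr0, hrr0, _⟩ := hform b0 hab0 hlb0
      have hr1 : r < 1 := hrr0.trans_le hV0.2.2.2.1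
      classical
      have hexi : ∃ i, r ≤ thr i := by
        obtain ⟨i, hi⟩ := exists_thr hr1
        exact ⟨i, hi.le⟩
      set k := Nat.find hexi with hk
      have hk1 : r ≤ thr k := Nat.find_spec hexi
      have hk2 : ∀ i < k, thr i < r := fun i hi => not_le.mp (Nat.find_min hexi hi)
      refine not_Sp_of (fun β b => ∃ x' r', V ρ N (gd x' r' :: w) ∧ Le (gd x' r' :: w) b.val ∧
        r < r' ∧ tr x' r = x ∧ x' k = β) ?_ ?_
      · intro b hab hlb
        obtain ⟨x1, w1, r1, x', r', ha1, hV, hle, _, h1, h2⟩ := hform b hab hlb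
        rw [ha] at ha1
        obtain ⟨h3, rfl⟩ := List.cons_eq_cons.mp ha1
        simp only [gd.injEq] at h3
        obtain ⟨rfl, rfl⟩ := h3
        exact ⟨x' k, x', r', hV, hle, h1, h2, rfl⟩
      · rintro β b c ⟨x', r', hV, hle, h1, h2, h3⟩ ⟨x'', r'', hV'', hle'', h1'', h2'', h3''⟩
        set m := min (min r' r'') (thr (k + 1)) with hm
        have hmr : r < m := lt_min (lt_min h1 h1'')
          (hk1.trans_lt (thr_strictMono (Nat.lt_succ_self k)))
        have hm0 : 0 < m := hr0.trans hmr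
        have hm' : m ≤ r' := (min_le_left _ _).trans (min_le_left _ _)
        have hm'' : m ≤ r'' := (min_le_left _ _).trans (min_le_right _ _)
        have htr : tr x' m = tr x'' m := by
          refine tr_ext fun i hi => ?_
          have hik : i < k + 1 := thr_lt_iff.mp (hi.trans_le (min_le_right _ _))
          rcases Nat.lt_succ_iff_lt_or_eq.mp hik with h4 | h4
          · exact eq_of_tr_eq (h2.trans h2''.symm) (hk2 i h4)
          · rw [h4, h3, h3'']
        have hVm : V ρ N (gd (tr x' m) m :: w) := by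
          have h5 := cut_le (s := gd x' r') (y := w) hV.ok hm0 hm'
          exact hV.of_le h5
        have hlem : Le (gd (tr x' m) m :: w) (gd x' r' :: w) := by
          rw [gd_le_iff hm0]
          exact ⟨hm', rfl⟩
        have hlem'' : Le (gd (tr x' m) m :: w) (gd x'' r'' :: w) := by
          rw [gd_le_iff hm0]
          exact ⟨hm'', htr.symm⟩
        refine ⟨⟨_, hVm⟩, T.lt_iff.mpr ⟨?_, ?_⟩, T.le_iff'.mpr (hlem.trans hle),
          T.le_iff'.mpr (hlem''.trans hle'')⟩
        · rw [ha, gd_le_iff hr0]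
          exact ⟨hmr.le, by rw [tr_tr _ hmr.le, h2]⟩
        · intro h
          have := congrArg ht (ha.symm.trans h)
          simp only [ht_cons, len] at this
          linarith
    · rintro ⟨b₁, _, _, ⟨h1, h2⟩, _⟩
      exact hex ⟨b₁, h1, h2⟩

/-- parameters decrease. -/
theorem par_le {a : List (Step K)} {α : K} (ha : par ρ a = some α) :
    ∀ {b : List (Step K)} {β : K}, V ρ N b → par ρ b = some β → Le a b → lv a = lv b →
      β < α ∨ (β = α ∧ ∃ s y t, b = s :: y ∧ a = s.cut t :: y)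
  | [], β, _, hb, _, _ => by simp [par] at hb
  | s :: y, β, hV, hb, hle, hlv => by
      rcases le_cons_cases hle with h1 | ⟨_, _, h1⟩
      · left
        have h2 := h1.lv
        cases s with
        | new ξ t => simp only [lv] at hlv; omega
        | sk σ t =>
          obtain ⟨τ, hτ, hlt⟩ := hV.2.2
          have h3 : σ = β := by simpa [par] using hb
          subst h3
          rcases par_le ha hV.1 hτ h1 hlv with h4 | ⟨h4, _⟩
          · exact hlt.trans h4
          · rw [← h4]; exact hlt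
        | gd x t => simp [par] at hb
      · right
        refine ⟨?_, s, y, _, rfl, h1⟩
        have h2 := par_cut (ρ := ρ) s (ht a - ht y) y
        rw [← h1, ha, hb] at h2
        exact (Option.some.inj h2).symm

theorem no_descent [Nonempty K] [WellFoundedLT K] (hN : Indep N) : ∀ (τ : K)
    (φ : T ρ N ≃o T ρ N) (a : T ρ N), par ρ a.val = some τ → ∀ σ, par ρ (φ a).val = some σ →
      (∃ j, j < σ) → ¬ σ < τ := by
  intro τ
  induction τ using WellFoundedLT.induction with
  | ind τ ih =>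
    rintro φ a hpa σ hσ ⟨j, hj⟩ hlt
    obtain ⟨av, hav⟩ := a
    cases av with
    | nil => simp [par] at hpa
    | cons s y =>
      have hs0 : 0 < s.len := hav.2.1.1
      have hVl : V ρ N (s.cut (s.len + 1) :: y) := V_longer hav hpa (by linarith)
      have hpl : par ρ (s.cut (s.len + 1) :: y) = some τ := by rw [par_cut]; exact hpa
      have hleal : Le (s :: y) (s.cut (s.len + 1) :: y) := by
        have h1 : (s.cut (s.len + 1)).cut s.len = s := by
          rw [cut_cut _ (by linarith), hav.2.1.2]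
        have h2 := cut_le (s := s.cut (s.len + 1)) (y := y) hVl.ok hs0
          (by rw [len_cut]; linarith)
        rwa [h1] at h2
      have hV1 : V ρ N (sk σ 1 :: s :: y) := ⟨hav, ⟨one_pos, rfl⟩, τ, hpa, hlt⟩
      have hV2 : V ρ N (sk σ 1 :: s.cut (s.len + 1) :: y) := ⟨hVl, ⟨one_pos, rfl⟩, τ, hpl, hlt⟩
      let a0 : T ρ N := ⟨s :: y, hav⟩
      let a1 : T ρ N := ⟨_, hV1⟩
      let a2 : T ρ N := ⟨_, hV2⟩
      have hl1 : lv a1.val = lv a0.val := rfl
      have hl2 : lv a2.val = lv a0.val := lv_cut s _ y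
      have h01 : a0 ≤ a1 := T.le_iff'.mpr (le_cons hV1.ok)
      have h02 : a0 ≤ a2 := T.le_iff'.mpr (hleal.trans (le_cons hV2.ok))
      have hinc : ¬ a1 ≤ a2 ∧ ¬ a2 ≤ a1 := by
        constructor
        · intro h
          rcases le_cons_cases (T.le_iff'.mp h) with h1 | ⟨_, _, h1⟩
          · have := h1.length
            simp [a1] at this
          · have h2 : sk σ 1 :: s :: y = _ := h1
            obtain ⟨_, h3⟩ := List.cons_eq_cons.mp h2
            have := congrArg ht h3
            simp only [ht_cons, len_cut] at this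
            linarith
        · intro h
          rcases le_cons_cases (T.le_iff'.mp h) with h1 | ⟨_, _, h1⟩
          · have := h1.length
            simp [a2] at this
          · have h2 : sk σ 1 :: s.cut (s.len + 1) :: y = _ := h1
            obtain ⟨_, h3⟩ := List.cons_eq_cons.mp h2
            have := congrArg ht h3
            simp only [ht_cons, len_cut] at this
            linarith
      have key : ∀ b : T ρ N, a0 ≤ b → lv b.val = lv a0.val → par ρ b.val = some σ →
          par ρ (φ b).val = some σ ∧ ∃ s' y' t', (φ b).val = s' :: y' ∧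
            (φ a0).val = s'.cut t' :: y' := by
        intro b h0b hlb hpb
        obtain ⟨β, hβ, hjβ⟩ := par_of_Sp ((Sp_of_par hpb hj).map hN φ)
        have h1 : ¬ β < σ := ih σ hlt φ b hpb β hβ hjβ
        have h2 : Le (φ a0).val (φ b).val := T.le_iff'.mp (φ.le_iff_le.mpr h0b)
        rcases par_le hσ (φ b).prop hβ h2 (by rw [lv_map hN, lv_map hN, hlb]) with h3 | ⟨h3, h4⟩
        · exact absurd h3 h1
        · exact ⟨by rw [hβ, h3], h4⟩
      obtain ⟨hp1, s1, y1, t1, hv1, hw1⟩ := key a1 h01 hl1 rfl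
      obtain ⟨hp2, s2, y2, t2, hv2, hw2⟩ := key a2 h02 hl2 rfl
      rw [hw1] at hw2
      obtain ⟨h3, rfl⟩ := List.cons_eq_cons.mp hw2
      have htt : t1 = t2 := by
        have := congrArg len h3
        simpa using this
      subst htt
      have hV1' : V ρ N (s1 :: y1) := hv1 ▸ (φ a1).prop
      have hV2' : V ρ N (s2 :: y1) := hv2 ▸ (φ a2).prop
      rw [hv1] at hp1
      rcases line_comparable hV1' hV2' hp1 h3 with h4 | h4
      · apply hinc.1
        rw [← φ.le_iff_le, T.le_iff', hv1, hv2]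
        exact h4
      · apply hinc.2
        rw [← φ.le_iff_le, T.le_iff', hv1, hv2]
        exact h4

theorem par_map [Nonempty K] [WellFoundedLT K] (hN : Indep N) (φ : T ρ N ≃o T ρ N) {a : T ρ N}
    {τ j : K} (hp : par ρ a.val = some τ) (hj : j < τ) : par ρ (φ a).val = some τ := by
  obtain ⟨σ, hσ, hσj⟩ := par_of_Sp ((Sp_of_par hp hj).map hN φ)
  have h1 := no_descent hN τ φ a hp σ hσ hσj
  have h2 := no_descent hN σ φ.symm (φ a) hσ τ (by rw [φ.symm_apply_apply]; exact hp) ⟨j, hj⟩
  rw [hσ, le_antisymm (not_lt.mp h2) (not_lt.mp h1)]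

/-- the node at which the level was raised for the last time. -/
theorem exists_entry : ∀ {b : List (Step K)}, V ρ N b → b ≠ [] →
    ∃ ξ t y, Le (new ξ t :: y) b ∧ lv y + 1 = lv b
  | [], _, h => absurd rfl h
  | .new ξ t :: y, hV, _ => ⟨ξ, t, y, Le.refl hV.ok, rfl⟩
  | .sk σ t :: y, hV, _ => by
      obtain ⟨τ, hτ, _⟩ := hV.2.2
      have hne : y ≠ [] := by rintro rfl; simp [par] at hτ
      obtain ⟨ξ, t', y', h1, h2⟩ := exists_entry hV.1 hne
      exact ⟨ξ, t', y', h1.trans (le_cons hV.ok), h2⟩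
  | .gd x t :: y, hV, _ => by
      obtain ⟨⟨τ, hτ⟩, _⟩ := hV.2.2
      have hne : y ≠ [] := by rintro rfl; simp [par] at hτ
      obtain ⟨ξ, t', y', h1, h2⟩ := exists_entry hV.1 hne
      exact ⟨ξ, t', y', h1.trans (le_cons hV.ok), h2⟩

theorem map_le [Nonempty K] [WellFoundedLT K] (hN : Indep N) (hρ : Function.Injective ρ)
    (hρ0 : ∀ y, ∃ j, j < ρ y) (φ : T ρ N ≃o T ρ N) (y : T ρ N) : φ y ≤ y := by
  obtain ⟨ξ0⟩ : Nonempty K := inferInstance
  let a : T ρ N := mkNew ξ0 y
  have hya : y ≤ a := le_mkNew ξ0 y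
  have hla : lv a.val = lv y.val + 1 := rfl
  have hne : (φ a).val ≠ [] := by
    intro h
    have h1 := lv_map hN φ a
    rw [h, hla] at h1
    simp [lv] at h1
  obtain ⟨ξ, t, y', hle, hlv⟩ := exists_entry (φ a).prop hne
  let b0 : T ρ N := ⟨_, (φ a).prop.of_le hle⟩
  have hb0 : b0 ≤ φ a := T.le_iff'.mpr hle
  have hlb0 : lv b0.val = lv y.val + 1 := by
    show lv y' + 1 = _
    rw [hlv, lv_map hN, hla]
  have hc : φ.symm b0 ≤ a := by rw [φ.symm_apply_le]; exact hb0
  have hlc : lv (φ.symm b0).val = lv y.val + 1 := by rw [lv_map hN, hlb0]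
  have hyy : y' = y.val := by
    rcases le_cons_cases (T.le_iff'.mp hc) with h1 | ⟨_, _, h1⟩
    · have := h1.lv
      rw [hlc] at this
      omega
    · obtain ⟨j, hj⟩ := hρ0 y.val
      have hpc : par ρ (φ.symm b0).val = some (ρ y.val) := by rw [h1]; rfl
      have h2 := par_map hN φ hpc hj
      rw [φ.apply_symm_apply] at h2
      have h3 : some (ρ y') = some (ρ y.val) := h2
      exact hρ (Option.some.inj h3)
  have hφy : φ y ≤ φ a := φ.le_iff_le.mpr hya
  rcases (resData ρ N).tree hφy hb0 with h1 | h1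
  · have h1' : φ y ≤ b0 := h1
    rcases le_cons_cases (T.le_iff'.mp h1') with h2 | ⟨_, _, h2⟩
    · rw [hyy] at h2
      exact T.le_iff'.mpr h2
    · exfalso
      have h3 := congrArg lv h2
      rw [lv_map hN, lv_cut] at h3
      simp only [lv] at h3
      rw [hyy] at h3
      omega
  · exfalso
    have h1' : b0 ≤ φ y := h1
    have h2 := (T.le_iff'.mp h1').lv
    rw [hlb0, lv_map hN] at h2
    omega

theorem rigid [Nonempty K] [WellFoundedLT K] (hN : Indep N) (hρ : Function.Injective ρ)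
    (hρ0 : ∀ y, ∃ j, j < ρ y) (φ : T ρ N ≃o T ρ N) : φ = OrderIso.refl (T ρ N) := by
  refine OrderIso.ext (funext fun y => ?_)
  show φ y = y
  refine le_antisymm (map_le hN hρ hρ0 φ y) ?_
  have h := map_le hN hρ hρ0 φ.symm (φ y)
  rwa [φ.symm_apply_apply] at h

end Pool.Agent.Q213.Steps
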