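import Pool.Agent.H883R3.Tree

/-!
Trees given by a height function.
-/

set_option autoImplicit false

open Ordinal Set

namespace Pool.Agent.Q213.TreeH

open Pool.Agent.H883R3

universe u

section

variable {T : Type u} [PartialOrder T]

/-- A function `h` into the ordinals which is a height function. -/
structure IsHeight (h : T → Ordinal.{u}) : Prop where
  mono : ∀ a b, a < b → h a < h b
  down : ∀ t a b, a < t → b < t → h a ≤ h b → a ≤ b
  surj : ∀ t β, β < h t → ∃ s, s < t ∧ h s = β

variable {h : T → Ordinal.{u}} (hh : IsHeight h)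
include hh

theorem IsHeight.lt_iff (t : T) (a b : Set.Iio t) : h a < h b ↔ a < b := by
  constructor
  · intro hab
    have h1 := hh.down t a b a.2 b.2 hab.le
    rcases lt_or_eq_of_le h1 with h2 | h2
    · exact h2
    · rw [h2] at hab
      exact absurd hab (lt_irrefl _)
  · intro hab
    exact hh.mono _ _ hab

/-- The predecessors of `t` are isomorphic to `h t`. -/
noncomputable def IsHeight.relIso (t : T) :
    (fun a b : Set.Iio t => a < b) ≃r (fun a b : (h t).ToType => a < b) :=
  RelIso.ofSurjective
    (⟨⟨fun a => Ordinal.ToType.mk ⟨h a, hh.mono _ _ a.2⟩, fun a b hab => by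
        have h1 := Ordinal.ToType.mk.injective hab
        have h2 : h a = h b := congrArg Subtype.val h1
        exact Subtype.ext (le_antisymm (hh.down t a b a.2 b.2 h2.le)
          (hh.down t b a b.2 a.2 h2.ge))⟩, fun {a b} => by
        show Ordinal.ToType.mk _ < Ordinal.ToType.mk _ ↔ a < b
        rw [OrderIso.lt_iff_lt, Subtype.mk_lt_mk]
        exact hh.lt_iff t a b⟩ : (fun a b : Set.Iio t => a < b) ↪r
          (fun a b : (h t).ToType => a < b)) (by
      intro b
      obtain ⟨⟨β, hβ⟩, rfl⟩ := Ordinal.ToType.mk.surjective b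
      obtain ⟨s, hs, hsβ⟩ := hh.surj t β hβ
      refine ⟨⟨s, hs⟩, ?_⟩
      show Ordinal.ToType.mk _ = _
      congr 1
      exact Subtype.ext hsβ)

theorem IsHeight.treeOrder : TreeOrder T :=
  ⟨fun t => (hh.relIso t).toRelEmbedding.isWellOrder⟩

theorem IsHeight.ht_eq [TreeOrder T] (t : T) : ht t = h t := by
  have := TreeOrder.wo t
  unfold ht
  rw [← Ordinal.type_toType (h t)]
  exact RelIso.ordinalType_congr (hh.relIso t)

end

end Pool.Agent.Q213.TreeH
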