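import Pool.Agent.Q215.WR.Stm

/-!
# The family property passes to continuous preimages (job WR-CROSS)
-/

set_option autoImplicit false

open Set Topology Filter

namespace Q213.WRCross

open Pool.Agent.Q215.WR

/-- The last crossing of a level from below. -/
theorem last_cross (f : ℝ → ℝ) (hf : Continuous f) (a b c : ℝ) (hab : a < b) (ha : f a < c)
    (hb : c < f b) : ∃ z, a < z ∧ z < b ∧ f z = c ∧ (∀ x, z ≤ x → x ≤ b → c ≤ f x) ∧
      ∀ ε : ℝ, 0 < ε → ∃ y, z - ε < y ∧ y < z ∧ a ≤ y ∧ f y < c := by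
  set E : Set ℝ := {z | a ≤ z ∧ z ≤ b ∧ f z < c} with hE
  have hEne : E.Nonempty := ⟨a, le_rfl, hab.le, ha⟩
  have hEbd : BddAbove E := ⟨b, fun x hx => hx.2.1⟩
  set z := sSup E with hz
  have haz : a ≤ z := le_csSup hEbd ⟨le_rfl, hab.le, ha⟩
  have hzb : z ≤ b := csSup_le hEne fun x hx => hx.2.1
  have hup : ∀ x, z < x → x ≤ b → c ≤ f x := by
    intro x hx hxb
    by_contra h
    exact absurd (le_csSup hEbd (show x ∈ E from ⟨haz.trans hx.le, hxb, not_le.1 h⟩)) (not_le.2 hx)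
  have hle : f z ≤ c := by
    have h1 : z ∈ closure E := csSup_mem_closure hEne hEbd
    have h2 : closure E ⊆ {x | f x ≤ c} :=
      closure_minimal (fun x hx => hx.2.2.le) (isClosed_le hf continuous_const)
    exact h2 h1
  have hzb' : z < b := lt_of_le_of_ne hzb fun h => absurd hb (not_lt.2 (h ▸ hle))
  have hge : c ≤ f z := by
    by_contra h
    rw [not_le] at h
    have h1 : ∀ᶠ x in 𝓝 z, f x < c := hf.continuousAt.eventually_lt_const h
    obtain ⟨δ, hδ, hδ'⟩ := Metric.eventually_nhds_iff.1 h1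
    have h2 : f (min (z + δ / 2) b) < c := by
      apply hδ'
      rw [Real.dist_eq, abs_lt]
      constructor
      · have : z ≤ min (z + δ / 2) b := le_min (by linarith) hzb
        linarith
      · have : min (z + δ / 2) b ≤ z + δ / 2 := min_le_left _ _
        linarith
    have h3 : z < min (z + δ / 2) b := lt_min (by linarith) hzb'
    exact absurd (hup _ h3 (min_le_right _ _)) (not_le.2 h2)
  have hfz : f z = c := le_antisymm hle hge
  have haz' : a < z := lt_of_le_of_ne haz fun h => absurd ha (not_lt.2 (h ▸ hge))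
  refine ⟨z, haz', hzb', hfz, fun x hx hxb => ?_, fun ε hε => ?_⟩
  · rcases hx.eq_or_lt with h | h
    · rw [← h]; exact hge
    · exact hup x h hxb
  · obtain ⟨y, hy, hy'⟩ := exists_lt_of_lt_csSup hEne (show z - ε < sSup E by rw [← hz]; linarith)
    have h1 : y ≤ z := le_csSup hEbd hy
    refine ⟨y, hy', lt_of_le_of_ne h1 fun h => ?_, hy.1, hy.2.2⟩
    have := hy.2.2
    rw [h, hfz] at this
    exact lt_irrefl _ this

/-- The first crossing of a level from below. -/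
theorem first_cross (f : ℝ → ℝ) (hf : Continuous f) (a b c : ℝ) (hab : a < b) (ha : f a < c)
    (hb : c < f b) : ∃ z, a < z ∧ z < b ∧ f z = c ∧ (∀ x, a ≤ x → x ≤ z → f x ≤ c) ∧
      ∀ ε : ℝ, 0 < ε → ∃ y, z < y ∧ y < z + ε ∧ y ≤ b ∧ c < f y := by
  obtain ⟨z, h1, h2, h3, h4, h5⟩ := last_cross (fun x => - f (-x)) (by fun_prop) (-b) (-a) (-c)
    (by linarith) (by simpa using hb) (by simpa using ha)
  refine ⟨-z, by linarith, by linarith, by simpa using h3, fun x hx hxz => ?_, fun ε hε => ?_⟩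
  · have := h4 (-x) (by linarith) (by linarith)
    simpa using this
  · obtain ⟨y, hy1, hy2, hy3, hy4⟩ := h5 ε hε
    exact ⟨-y, by linarith, by linarith, by linarith, by simpa using hy4⟩

/-- Left end points of crossings are frontier points. -/
theorem frontier_left (A : Set ℝ) (f : ℝ → ℝ) (hf : Continuous f) (z d : ℝ) (hd : f z < d)
    (hA : Icc (f z) d ⊆ A) (hfr : f z ∈ frontier A)
    (hz : ∀ ε : ℝ, 0 < ε → ∃ y, z - ε < y ∧ y < z ∧ f y < f z) : z ∈ frontier (f ⁻¹' A) := by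
  have hzA : z ∈ f ⁻¹' A := hA ⟨le_rfl, hd.le⟩
  refine ⟨subset_closure hzA, fun hint => ?_⟩
  obtain ⟨ε, hε, hball⟩ := Metric.isOpen_iff.1 isOpen_interior z hint
  obtain ⟨y, hy1, hy2, hy3⟩ := hz ε hε
  have hcl : f z ∈ closure Aᶜ := by
    rw [frontier_eq_closure_inter_closure] at hfr
    exact hfr.2
  obtain ⟨w, hw, hw'⟩ := Metric.mem_closure_iff.1 hcl (min (f z - f y) (d - f z))
    (lt_min (by linarith) (by linarith))
  rw [Real.dist_eq, lt_min_iff, abs_lt, abs_lt] at hw'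
  have hwlt : w < f z := by
    by_contra h
    exact hw (hA ⟨not_lt.1 h, by linarith [hw'.2.1]⟩)
  have hwgt : f y < w := by linarith [hw'.1.2]
  obtain ⟨x, hx, hxw⟩ := intermediate_value_Icc hy2.le hf.continuousOn ⟨hwgt.le, hwlt.le⟩
  have hxz : x ≠ z := fun h => by rw [h] at hxw; linarith
  have hx2 : x < z := lt_of_le_of_ne hx.2 hxz
  have hxm : x ∈ interior (f ⁻¹' A) := by
    apply hball
    rw [Metric.mem_ball, Real.dist_eq, abs_lt]
    constructor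
    · linarith [hx.1]
    · linarith
  have : f x ∈ A := (interior_subset hxm : x ∈ f ⁻¹' A)
  rw [hxw] at this
  exact hw this

/-- Right end points of crossings are frontier points. -/
theorem frontier_right (A : Set ℝ) (f : ℝ → ℝ) (hf : Continuous f) (z d : ℝ) (hd : d < f z)
    (hA : Icc d (f z) ⊆ A) (hfr : f z ∈ frontier A)
    (hz : ∀ ε : ℝ, 0 < ε → ∃ y, z < y ∧ y < z + ε ∧ f z < f y) : z ∈ frontier (f ⁻¹' A) := by
  have hzA : z ∈ f ⁻¹' A := hA ⟨hd.le, le_rfl⟩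
  refine ⟨subset_closure hzA, fun hint => ?_⟩
  obtain ⟨ε, hε, hball⟩ := Metric.isOpen_iff.1 isOpen_interior z hint
  obtain ⟨y, hy1, hy2, hy3⟩ := hz ε hε
  have hcl : f z ∈ closure Aᶜ := by
    rw [frontier_eq_closure_inter_closure] at hfr
    exact hfr.2
  obtain ⟨w, hw, hw'⟩ := Metric.mem_closure_iff.1 hcl (min (f y - f z) (f z - d))
    (lt_min (by linarith) (by linarith))
  rw [Real.dist_eq, lt_min_iff, abs_lt, abs_lt] at hw'
  have hwlt : f z < w := by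
    by_contra h
    exact hw (hA ⟨by linarith [hw'.2.2], not_lt.1 h⟩)
  have hwgt : w < f y := by linarith [hw'.1.1]
  obtain ⟨x, hx, hxw⟩ := intermediate_value_Icc hy1.le hf.continuousOn ⟨hwlt.le, hwgt.le⟩
  have hxz : x ≠ z := fun h => by rw [h] at hxw; linarith
  have hx2 : z < x := lt_of_le_of_ne hx.1 hxz.symm
  have hxm : x ∈ interior (f ⁻¹' A) := by
    apply hball
    rw [Metric.mem_ball, Real.dist_eq, abs_lt]
    constructor
    · linarith
    · linarith [hx.2]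
  have : f x ∈ A := (interior_subset hxm : x ∈ f ⁻¹' A)
  rw [hxw] at this
  exact hw this

/-- The core: a rising crossing. -/
theorem core (A : Set ℝ) (hPT : PT A) (f : ℝ → ℝ) (hf : Continuous f) (u v s t : ℝ) (hus : u < s)
    (hst : s < t) (htv : t < v) (h1 : (Ioo (f s) (f t) ∩ A).Nonempty)
    (h2 : (Ioo (f s) (f t) ∩ Aᶜ).Nonempty) : ∃ G, Fam (f ⁻¹' A) u v G := by
  obtain ⟨GA, ⟨r0, hr0⟩, hgap, hlim, hcl⟩ := hPT _ _ h1 h2
  set G : Set (ℝ × ℝ) := {z | s < z.1 ∧ z.1 < z.2 ∧ z.2 < t ∧ (f z.1, f z.2) ∈ GA ∧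
    (∀ x, z.1 ≤ x → x ≤ z.2 → f z.1 ≤ f x ∧ f x ≤ f z.2) ∧
    (∀ ε : ℝ, 0 < ε → ∃ y, z.1 - ε < y ∧ y < z.1 ∧ s ≤ y ∧ f y < f z.1) ∧
    (∀ ε : ℝ, 0 < ε → ∃ y, z.2 < y ∧ y < z.2 + ε ∧ y ≤ t ∧ f z.2 < f y)} with hG
  have claim : ∀ a b : ℝ, s ≤ a → a < b → b ≤ t → ∀ r ∈ GA, f a < r.1 → r.2 < f b →
      ∃ z ∈ G, a < z.1 ∧ z.2 < b := by
    intro a b hsa hab hbt r hr hra hrb
    have hr12 : r.1 < r.2 := (hgap r hr).1.1
    obtain ⟨z0, ha0, h0b, hf0, hup, hl⟩ := last_cross f hf a b r.1 hab hra (hr12.trans hrb)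
    obtain ⟨z1, h01, h1b, hf1, hdn, hr'⟩ := first_cross f hf z0 b r.2 h0b (by rw [hf0]; exact hr12) hrb
    refine ⟨(z0, z1), ⟨by linarith, h01, by linarith, ?_, ?_, ?_, ?_⟩, ha0, h1b⟩
    · change (f z0, f z1) ∈ GA
      rw [hf0, hf1]
      exact hr
    · intro x hx hx'
      change f z0 ≤ f x ∧ f x ≤ f z1
      rw [hf0, hf1]
      exact ⟨hup x hx (le_trans hx' h1b.le), hdn x hx hx'⟩
    · intro ε hε
      obtain ⟨y, hy1, hy2, hy3, hy4⟩ := hl ε hε
      exact ⟨y, hy1, hy2, hsa.trans hy3, by change f y < f z0; rw [hf0]; exact hy4⟩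
    · intro ε hε
      obtain ⟨y, hy1, hy2, hy3, hy4⟩ := hr' ε hε
      exact ⟨y, hy1, hy2, hy3.trans hbt, by change f z1 < f y; rw [hf1]; exact hy4⟩
  refine ⟨G, ?_, ?_, ?_, ?_⟩
  · obtain ⟨z, hz, -⟩ := claim s t le_rfl hst le_rfl r0 hr0 (hgap r0 hr0).2.1 (hgap r0 hr0).2.2
    exact ⟨z, hz⟩
  · rintro ⟨z0, z1⟩ ⟨hz1, hz2, hz3, hz4, hz5, hz6, hz7⟩
    dsimp only at hz1 hz2 hz3 hz4 hz5 hz6 hz7
    obtain ⟨⟨hg1, hg2, hg3, hg4⟩, -⟩ := hgap _ hz4
    dsimp only at hg1 hg2 hg3 hg4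
    refine ⟨⟨hz2, ?_, ?_, ?_⟩, ?_, ?_⟩
    · intro x hx
      exact hg2 (hz5 x hx.1 hx.2)
    · exact frontier_left A f hf z0 (f z1) hg1 hg2 hg3 fun ε hε => by
        obtain ⟨y, hy1, hy2, -, hy4⟩ := hz6 ε hε
        exact ⟨y, hy1, hy2, hy4⟩
    · exact frontier_right A f hf z1 (f z0) hg1 hg2 hg4 fun ε hε => by
        obtain ⟨y, hy1, hy2, -, hy4⟩ := hz7 ε hε
        exact ⟨y, hy1, hy2, hy4⟩
    · dsimp only; linarith
    · dsimp only; linarith
  · rintro ⟨z0, z1⟩ ⟨hz1, hz2, hz3, hz4, hz5, hz6, hz7⟩ ε hε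
    dsimp only at hz1 hz2 hz3 hz4 hz5 hz6 hz7 ⊢
    constructor
    · obtain ⟨y, hy1, hy2, hy3, hy4⟩ := hz6 ε hε
      obtain ⟨r, hr, hr1, hr2⟩ := (hlim _ hz4 (f z0 - f y) (by linarith)).1
      dsimp only at hr1 hr2
      obtain ⟨z, hz, hz', hz''⟩ := claim y z0 hy3 hy2 (by linarith) r hr (by linarith) hr2
      exact ⟨z, hz, by linarith, hz''⟩
    · obtain ⟨y, hy1, hy2, hy3, hy4⟩ := hz7 ε hε
      obtain ⟨r, hr, hr1, hr2⟩ := (hlim _ hz4 (f y - f z1) (by linarith)).2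
      dsimp only at hr1 hr2
      obtain ⟨z, hz, hz', hz''⟩ := claim z1 y (by linarith) hy1 hy3 r hr hr1 (by linarith)
      exact ⟨z, hz, hz', by linarith⟩
  · have hsub : (⋃ p ∈ G, Icc p.1 p.2) ⊆ Icc s t ∩ f ⁻¹' closure (⋃ p ∈ GA, Icc p.1 p.2) := by
      intro x hx
      simp only [mem_iUnion] at hx
      obtain ⟨p, ⟨hz1, hz2, hz3, hz4, hz5, hz6, hz7⟩, hx1, hx2⟩ := hx
      refine ⟨⟨by linarith, by linarith⟩, subset_closure ?_⟩
      simp only [mem_iUnion]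
      exact ⟨_, hz4, hz5 x hx1 hx2⟩
    have hclosed : IsClosed (Icc s t ∩ f ⁻¹' closure (⋃ p ∈ GA, Icc p.1 p.2)) :=
      isClosed_Icc.inter (isClosed_closure.preimage hf)
    intro x hx
    obtain ⟨hx1, hx2⟩ := closure_minimal hsub hclosed hx
    exact ⟨(hcl hx2).1, by linarith [hx1.1], by linarith [hx1.2]⟩

/-- Reflection of a family. -/
theorem fam_neg (B : Set ℝ) (u v : ℝ) (G : Set (ℝ × ℝ))
    (hG : Fam ((fun x : ℝ => -x) ⁻¹' B) (-v) (-u) G) :
    Fam B u v {p | (-p.2, -p.1) ∈ G} := by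
  obtain ⟨⟨r, hr⟩, h1, h2, h3⟩ := hG
  have hfr : ∀ x : ℝ, -x ∈ frontier ((fun x : ℝ => -x) ⁻¹' B) → x ∈ frontier B := by
    intro x hx
    have := (Homeomorph.neg ℝ).preimage_frontier B
    have h : -x ∈ (Homeomorph.neg ℝ) ⁻¹' frontier B := by
      rw [this]
      exact hx
    simpa using h
  refine ⟨⟨(-r.2, -r.1), by simpa using hr⟩, ?_, ?_, ?_⟩
  · rintro ⟨a, b⟩ hp
    obtain ⟨⟨g1, g2, g3, g4⟩, g5, g6⟩ := h1 _ hp
    dsimp only at g1 g2 g3 g4 g5 g6 ⊢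
    refine ⟨⟨by dsimp only; linarith, ?_, hfr _ g4, hfr _ g3⟩, by linarith, by linarith⟩
    intro x hx
    dsimp only at hx
    have := g2 (show -x ∈ Icc (-b) (-a) from ⟨by linarith [hx.2], by linarith [hx.1]⟩)
    simpa using this
  · rintro ⟨a, b⟩ hp ε hε
    obtain ⟨⟨r, hr, hr1, hr2⟩, ⟨q, hq, hq1, hq2⟩⟩ := h2 _ hp ε hε
    dsimp only at hr1 hr2 hq1 hq2 ⊢
    refine ⟨⟨(-q.2, -q.1), by simpa using hq, ?_, ?_⟩, ⟨(-r.2, -r.1), by simpa using hr, ?_, ?_⟩⟩ <;>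
      dsimp only <;> linarith
  · intro x hx
    have hset : (⋃ p ∈ {p : ℝ × ℝ | (-p.2, -p.1) ∈ G}, Icc p.1 p.2) =
        (Homeomorph.neg ℝ) ⁻¹' (⋃ p ∈ G, Icc p.1 p.2) := by
      ext y
      simp only [mem_iUnion, mem_preimage, mem_ofPred_eq, exists_prop, Homeomorph.coe_neg, mem_Icc,
        Prod.exists]
      constructor
      · rintro ⟨a, b, hab, h1, h2⟩
        exact ⟨-b, -a, hab, by linarith, by linarith⟩
      · rintro ⟨a, b, hab, h1, h2⟩
        exact ⟨-b, -a, by simpa using hab, by linarith, by linarith⟩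
    rw [hset, ← Homeomorph.preimage_closure] at hx
    have h := h3 hx
    simp only [Homeomorph.coe_neg, mem_inter_iff, mem_preimage, neg_neg, mem_Ioo] at h
    exact ⟨h.1, by linarith [h.2.2], by linarith [h.2.1]⟩

/-- An interval between a point of the set and a point of the complement meets both. -/
theorem meets_both (A : Set ℝ) (hPI : PI A) (c d : ℝ) (hcd : c < d)
    (h : (c ∈ A ∧ d ∉ A) ∨ (c ∉ A ∧ d ∈ A)) :
    (Ioo c d ∩ A).Nonempty ∧ (Ioo c d ∩ Aᶜ).Nonempty := by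
  have hc : c ∈ Icc c d := ⟨le_rfl, hcd.le⟩
  have hd : d ∈ Icc c d := ⟨hcd.le, le_rfl⟩
  constructor
  · by_contra hne
    have hsub : Icc c d ⊆ Aᶜ := (hPI c d hcd).2 fun x hx hxA => hne ⟨x, hx, hxA⟩
    rcases h with h | h
    · exact hsub hc h.1
    · exact hsub hd h.2
  · by_contra hne
    have hsub : Icc c d ⊆ A := (hPI c d hcd).1 fun x hx => by
      by_contra hxA
      exact hne ⟨x, hx, hxA⟩
    rcases h with h | h
    · exact h.2 (hsub hd)
    · exact h.1 (hsub hc)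

theorem main_lt (A : Set ℝ) (hPI : PI A) (hPT : PT A) (f : ℝ → ℝ) (hf : Continuous f)
    (u v s t : ℝ) (hus : u < s) (hst : s < t) (htv : t < v)
    (h : (f s ∈ A ∧ f t ∉ A) ∨ (f s ∉ A ∧ f t ∈ A)) : ∃ G, Fam (f ⁻¹' A) u v G := by
  have hne : f s ≠ f t := by
    intro he
    rw [he] at h
    tauto
  rcases lt_or_gt_of_ne hne with hlt | hgt
  · obtain ⟨h1, h2⟩ := meets_both A hPI _ _ hlt h
    exact core A hPT f hf u v s t hus hst htv h1 h2
  · obtain ⟨h1, h2⟩ := meets_both A hPI _ _ hgt (by tauto)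
    obtain ⟨G, hG⟩ := core A hPT (fun x => f (-x)) (by fun_prop) (-v) (-u) (-t) (-s) (by linarith)
      (by linarith) (by linarith) (by simpa using h1) (by simpa using h2)
    exact ⟨_, fam_neg (f ⁻¹' A) u v G hG⟩

/-- Job WR-CROSS. -/
theorem t_cross : S_cross := by
  intro A hPI hPT f hf u v ⟨x, hx, hxA⟩ ⟨y, hy, hyA⟩
  have hxA' : f x ∈ A := hxA
  have hyA' : f y ∉ A := hyA
  have hne : x ≠ y := fun h => hyA' (h ▸ hxA')
  rcases lt_or_gt_of_ne hne with hlt | hgt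
  · exact main_lt A hPI hPT f hf u v x y hx.1 hlt hy.2 (Or.inl ⟨hxA', hyA'⟩)
  · exact main_lt A hPI hPT f hf u v y x hy.1 hgt hx.2 (Or.inr ⟨hyA', hxA'⟩)

end Q213.WRCross
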