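import Pool.Agent.H428R3.LM_T6

/-!
# Weight, characters and ω-bounded abelian groups
-/

set_option autoImplicit false

open Set Topology Filter
open Cardinal hiding univ

namespace Pool.Agent.Q213.Wgt

/-- The weight: the least cardinality of a base. -/
noncomputable def weight (X : Type) [TopologicalSpace X] : Cardinal.{0} :=
  sInf {κ | ∃ B : Set (Set X), TopologicalSpace.IsTopologicalBasis B ∧ #B = κ}

/-- The closures of countable sets are compact. -/
def OmegaBounded (X : Type) [TopologicalSpace X] : Prop :=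
  ∀ s : Set X, s.Countable → IsCompact (closure s)

theorem exists_base (X : Type) [TopologicalSpace X] :
    ∃ B : Set (Set X), TopologicalSpace.IsTopologicalBasis B ∧ #B = weight X :=
  csInf_mem (s := {κ | ∃ B : Set (Set X), TopologicalSpace.IsTopologicalBasis B ∧ #B = κ})
    ⟨_, _, TopologicalSpace.isTopologicalBasis_opens, rfl⟩

theorem weight_le {X : Type} [TopologicalSpace X] {B : Set (Set X)}
    (hB : TopologicalSpace.IsTopologicalBasis B) : weight X ≤ #B :=
  csInf_le' ⟨B, hB, rfl⟩

theorem weight_le_of_isInducing {X Y : Type} [TopologicalSpace X] [TopologicalSpace Y]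
    {f : X → Y} (hf : IsInducing f) : weight X ≤ weight Y := by
  obtain ⟨B, hB, hBc⟩ := exists_base Y
  rw [← hBc]
  exact (weight_le (hB.isInducing hf)).trans mk_image_le

theorem weight_subset {X : Type} [TopologicalSpace X] (C : Set X) : weight C ≤ weight X :=
  weight_le_of_isInducing IsInducing.subtypeVal

theorem weight_le_mk {X : Type} [TopologicalSpace X] [DiscreteTopology X] : weight X ≤ #X := by
  refine (weight_le (isTopologicalBasis_singletons X)).trans ?_
  have : {s : Set X | ∃ x : X, s = {x}} = range fun x : X => ({x} : Set X) := by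
    ext s
    simp [eq_comm]
  rw [this]
  exact mk_range_le

theorem mk_sigma_finset_le {ι : Type} {Y : Finset ι → Type} (κ : Cardinal.{0}) (hκ : ℵ₀ ≤ κ)
    (hι : #ι ≤ κ) (hY : ∀ F, #(Y F) ≤ κ) : #(Σ F : Finset ι, Y F) ≤ κ := by
  rw [mk_sigma]
  refine (sum_le_sum _ (fun _ => κ) hY).trans ?_
  rw [sum_const, lift_id, lift_id]
  have h1 : #(Finset ι) ≤ κ := by
    rcases finite_or_infinite ι with h | h
    · exact (mk_le_aleph0 (α := Finset ι)).trans hκ
    · rw [mk_finset_of_infinite]
      exact hι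
  exact (mul_le_mul' h1 le_rfl).trans (mul_eq_self hκ).le

theorem weight_pi {ι Y : Type} [TopologicalSpace Y] [SecondCountableTopology Y]
    (κ : Cardinal.{0}) (hκ : ℵ₀ ≤ κ) (hι : #ι ≤ κ) : weight (ι → Y) ≤ κ := by
  classical
  obtain ⟨b, hbc, -, hb⟩ := TopologicalSpace.exists_countable_basis Y
  refine (weight_le (isTopologicalBasis_pi (X := fun _ : ι => Y) (T := fun _ => b)
    fun _ => hb)).trans ?_
  let S : (Σ F : Finset ι, (F → b)) → Set (ι → Y) := fun q =>
    (q.1 : Set ι).pi fun i => if h : i ∈ q.1 then (q.2 ⟨i, h⟩ : Set Y) else univ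
  have hsub : {S | ∃ (U : ∀ _ : ι, Set Y) (F : Finset ι), (∀ i, i ∈ F → U i ∈ b) ∧
      S = (F : Set ι).pi U} ⊆ range S := by
    rintro _ ⟨U, F, hU, rfl⟩
    refine ⟨⟨F, fun i => ⟨U i, hU i i.2⟩⟩, ?_⟩
    refine Set.pi_congr rfl fun i hi => ?_
    have hi : i ∈ F := hi
    simp [hi]
  refine (mk_le_mk_of_subset hsub).trans (mk_range_le.trans (mk_sigma_finset_le κ hκ hι
    fun F => ?_))
  have : Countable b := hbc
  exact (mk_le_aleph0 (α := (F → b))).trans hκ

/-! ### Precompact groups -/

/-- Precompact groups: covered by finitely many translates of every neighbourhood of zero. -/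
def Prec (G : Type) [AddGroup G] [TopologicalSpace G] : Prop :=
  ∀ W ∈ 𝓝 (0 : G), ∃ F : Finset G, ∀ g : G, ∃ c ∈ F, -c + g ∈ W

theorem OmegaBounded.prec {G : Type} [AddGroup G] [TopologicalSpace G] [IsTopologicalAddGroup G]
    (hG : OmegaBounded G) : Prec G := by
  classical
  intro W hW
  by_contra! h
  -- a sequence with no two members in the same small set
  obtain ⟨s, hs⟩ : ∃ s : ℕ → G, ∀ m n, m < n → -s m + s n ∉ W := by
    let g : ∀ n, (∀ m, m < n → G) → G := fun n f =>
      (h ((Finset.range n).attach.image fun m => f m.1 (Finset.mem_range.1 m.2))).choose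
    let s : ℕ → G := fun n => WellFounded.fix (C := fun _ : ℕ => G) Nat.lt_wfRel.wf g n
    have hs : ∀ n, s n = g n fun m _ => s m := fun n =>
      WellFounded.fix_eq (C := fun _ : ℕ => G) Nat.lt_wfRel.wf g n
    refine ⟨s, fun m n hmn => ?_⟩
    have h1 := (h ((Finset.range n).attach.image fun m => s m.1)).choose_spec (s m)
      (Finset.mem_image.2 ⟨⟨m, Finset.mem_range.2 hmn⟩, Finset.mem_attach _ _, rfl⟩)
    rw [hs n]
    exact h1
  obtain ⟨V, hV, hVW⟩ := exists_nhds_half_neg hW
  obtain ⟨T, -, hT⟩ := (hG (range s) (countable_range s)).elim_nhds_subcover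
    (U := fun g : G => {y | -(-g + y) ∈ V})
    (fun g _ => by
      have h1 : Tendsto (fun y : G => -(-g + y)) (𝓝 g) (𝓝 0) := by
        have h2 : Continuous fun y : G => -(-g + y) := by fun_prop
        have h3 := h2.tendsto g
        simpa using h3
      exact h1 hV)
  have h2 : ∀ n, ∃ g ∈ T, -(-g + s n) ∈ V := fun n => by
    obtain ⟨g, hg, hgn⟩ := mem_iUnion₂.1 (hT (subset_closure (mem_range_self n)))
    exact ⟨g, hg, hgn⟩
  choose c hcT hc using h2
  obtain ⟨m, n, hmn, hcmn⟩ := Finite.exists_ne_map_eq_of_infinite (fun n => (⟨c n, hcT n⟩ : T))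
  have hcmn : c m = c n := congrArg Subtype.val hcmn
  have key : ∀ m n, c m = c n → -s m + s n ∈ W := by
    intro m n h
    have h3 := hVW _ (hc m) _ (hc n)
    rw [h] at h3
    have h4 : -(-c n + s m) - -(-c n + s n) = -s m + s n := by
      simp [sub_eq_add_neg, add_assoc]
    rwa [h4] at h3
  rcases lt_or_gt_of_ne hmn with h | h
  · exact hs m n h (key m n hcmn)
  · exact hs n m h (key n m hcmn.symm)

theorem Prec.image {G L : Type} [AddGroup G] [TopologicalSpace G] [AddGroup L]
    [TopologicalSpace L] (hG : Prec G) (f : G →+ L) (hfc : Continuous f)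
    (hf : Function.Surjective f) : Prec L := by
  classical
  intro W hW
  have h1 : f ⁻¹' W ∈ 𝓝 (0 : G) := hfc.continuousAt (by rwa [map_zero])
  obtain ⟨F, hF⟩ := hG _ h1
  refine ⟨F.image f, fun y => ?_⟩
  obtain ⟨g, rfl⟩ := hf y
  obtain ⟨c, hc, hcg⟩ := hF g
  refine ⟨f c, Finset.mem_image_of_mem _ hc, ?_⟩
  have h2 : f (-c + g) ∈ W := hcg
  simpa using h2

/-- A finite union of closed sets with empty interior has empty interior. -/
theorem interior_biUnion {X ι : Type} [TopologicalSpace X] (F : Finset ι) (A : ι → Set X)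
    (hA : ∀ i ∈ F, IsClosed (A i)) (hA' : ∀ i ∈ F, interior (A i) = ∅) :
    interior (⋃ i ∈ F, A i) = ∅ := by
  classical
  induction F using Finset.induction_on with
  | empty => simp
  | insert i F hi ih =>
    rw [Finset.set_biUnion_insert, union_comm, interior_union_isClosed_of_interior_empty]
    · exact ih (fun j hj => hA j (Finset.mem_insert_of_mem hj))
        fun j hj => hA' j (Finset.mem_insert_of_mem hj)
    · exact isClosed_biUnion_finset fun j hj => hA j (Finset.mem_insert_of_mem hj)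
    · exact hA' i (Finset.mem_insert_self _ _)

/-- The closures of the images of neighbourhoods of zero are neighbourhoods of zero. -/
theorem closure_image_mem {G L : Type} [AddGroup G] [TopologicalSpace G] [IsTopologicalAddGroup G]
    [AddGroup L] [TopologicalSpace L] [IsTopologicalAddGroup L] (hG : Prec G) (f : G →+ L)
    (hf : Function.Surjective f) {W : Set G} (hW : W ∈ 𝓝 (0 : G)) :
    closure (f '' W) ∈ 𝓝 (0 : L) := by
  obtain ⟨V, hV, hVW⟩ := exists_nhds_half_neg hW
  set A := closure (f '' V) with hA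
  obtain ⟨F, hF⟩ := hG V hV
  have hcover : (⋃ c ∈ F, (fun y => -(f c) + y) ⁻¹' A) = univ := by
    refine eq_univ_of_forall fun y => ?_
    obtain ⟨d, rfl⟩ := hf y
    obtain ⟨c, hc, hcd⟩ := hF d
    refine mem_iUnion₂.2 ⟨c, hc, subset_closure ⟨-c + d, hcd, ?_⟩⟩
    simp
  obtain ⟨c, hc, hint⟩ : ∃ c ∈ F, (interior ((fun y => -(f c) + y) ⁻¹' A)).Nonempty := by
    by_contra! h
    have h1 := interior_biUnion F (fun c => (fun y => -(f c) + y) ⁻¹' A)
      (fun c _ => isClosed_closure.preimage (by fun_prop)) h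
    rw [hcover, interior_univ] at h1
    exact univ_nonempty.ne_empty h1
  obtain ⟨z, hz⟩ := hint
  have hz' : z ∈ (fun y => -(f c) + y) ⁻¹' A := interior_subset hz
  have hz' : -(f c) + z ∈ A := hz'
  have h1 : (fun y => y + z) ⁻¹' interior ((fun y => -(f c) + y) ⁻¹' A) ∈ 𝓝 (0 : L) := by
    have h0 : (0 : L) + z ∈ interior ((fun y => -(f c) + y) ⁻¹' A) := by
      rw [zero_add]
      exact hz
    exact (isOpen_interior.preimage (by fun_prop)).mem_nhds h0
  -- conjugate back
  have h2 : (fun y => (f c) + y + -(f c)) ⁻¹'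
      ((fun y => y + z) ⁻¹' interior ((fun y => -(f c) + y) ⁻¹' A)) ∈ 𝓝 (0 : L) := by
    have h3 : Tendsto (fun y => (f c) + y + -(f c)) (𝓝 (0 : L)) (𝓝 0) := by
      have : Continuous fun y => (f c) + y + -(f c) := by fun_prop
      have h4 := this.tendsto 0
      simpa using h4
    exact h3 h1
  refine mem_of_superset h2 fun y hy => ?_
  have hy0 : f c + y + -(f c) + z ∈ interior ((fun y => -(f c) + y) ⁻¹' A) := hy
  have hy0 : f c + y + -(f c) + z ∈ (fun y => -(f c) + y) ⁻¹' A := interior_subset hy0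
  have hy1 : -(f c) + (f c + y + -(f c) + z) ∈ A := hy0
  have hy2 : y = -(f c) + (f c + y + -(f c) + z) - (-(f c) + z) := by
    simp [sub_eq_add_neg, add_assoc]
  rw [hy2]
  refine map_mem_closure₂ (f := fun a b : L => a - b) (by fun_prop) hy1 hz' ?_
  rintro _ ⟨d, hd, rfl⟩ _ ⟨d', hd', rfl⟩
  exact ⟨d - d', hVW _ hd _ hd', by simp⟩

/-- The weight of a continuous homomorphic image of a precompact group. -/
theorem weight_image {G L : Type} [AddGroup G] [TopologicalSpace G] [IsTopologicalAddGroup G]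
    [AddGroup L] [TopologicalSpace L] [IsTopologicalAddGroup L] (hG : Prec G) {κ : Cardinal.{0}}
    (hκ : ℵ₀ ≤ κ) (hw : weight G ≤ κ) (f : G →+ L) (hfc : Continuous f)
    (hf : Function.Surjective f) : weight L ≤ κ := by
  classical
  obtain ⟨B, hB, hBc⟩ := exists_base G
  have hBc' : #B ≤ κ := hBc.le.trans hw
  -- a dense set of size at most `κ`
  obtain ⟨S, hSc, hSd⟩ : ∃ S : Set L, #S ≤ κ ∧ Dense S := by
    let c : B → L := fun V => if h : (V : Set G).Nonempty then f h.some else 0
    refine ⟨range c, mk_range_le.trans hBc', ?_⟩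
    refine dense_iff_inter_open.2 fun O hO ⟨y, hy⟩ => ?_
    obtain ⟨d, rfl⟩ := hf y
    obtain ⟨V, hV, hdV, hVO⟩ := hB.exists_subset_of_mem_open (mem_preimage.2 hy)
      (hO.preimage hfc)
    have hne : V.Nonempty := ⟨d, hdV⟩
    refine ⟨f hne.some, hVO hne.some_mem, ⟨⟨V, hV⟩, ?_⟩⟩
    show (if h : V.Nonempty then f h.some else 0) = f hne.some
    exact dif_pos hne
  let J := {V : B // (0 : G) ∈ (V : Set G)}
  let N : J → Set L := fun a => closure (f '' (a.1 : Set G))
  have hN : ∀ a, N a ∈ 𝓝 (0 : L) := fun a =>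
    closure_image_mem hG f hf ((hB.isOpen a.1.2).mem_nhds a.2)
  have hN' : ∀ O ∈ 𝓝 (0 : L), ∃ a, N a ⊆ O := by
    intro O hO
    obtain ⟨C, hC, hCc, hCO⟩ := exists_mem_nhds_isClosed_subset hO
    have h1 : f ⁻¹' C ∈ 𝓝 (0 : G) := hfc.continuousAt (by rwa [map_zero])
    obtain ⟨V, hV, h0V, hVC⟩ := hB.mem_nhds_iff.1 h1
    refine ⟨⟨⟨V, hV⟩, h0V⟩, (closure_minimal ?_ hCc).trans hCO⟩
    rintro _ ⟨d, hd, rfl⟩
    exact hVC hd
  let B' : Set (Set L) := range fun q : S × J => (fun y => -(q.1 : L) + y) ⁻¹' interior (N q.2)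
  have hBbase : TopologicalSpace.IsTopologicalBasis B' := by
    refine TopologicalSpace.isTopologicalBasis_of_isOpen_of_nhds ?_ ?_
    · rintro _ ⟨q, rfl⟩
      exact isOpen_interior.preimage (by fun_prop)
    · intro x O hx hO
      have h1 : (fun y => x + y) ⁻¹' O ∈ 𝓝 (0 : L) := by
        refine (hO.preimage (by fun_prop)).mem_nhds ?_
        show x + 0 ∈ O
        rwa [add_zero]
      obtain ⟨P, hP, hPO⟩ := exists_nhds_half_neg h1
      obtain ⟨a, ha⟩ := hN' (-P) (neg_mem_nhds_zero L hP)
      obtain ⟨s, hs1, hs2⟩ := dense_iff_inter_open.1 hSd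
        ((fun y => -y + x) ⁻¹' interior (N a))
        (isOpen_interior.preimage (by fun_prop)) ⟨x, by
          show -x + x ∈ interior (N a)
          rw [neg_add_cancel]
          exact mem_interior_iff_mem_nhds.2 (hN a)⟩
      refine ⟨_, ⟨(⟨s, hs2⟩, a), rfl⟩, hs1, fun y hy => ?_⟩
      have h2 : -(-s + x) ∈ P := by
        have := ha (interior_subset hs1)
        simpa using this
      have h3 : -(-s + y) ∈ P := by
        have := ha (interior_subset hy)
        simpa using this
      have h4 : x + (-(-s + x) - -(-s + y)) ∈ O := hPO _ h2 _ h3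
      have h5 : x + (-(-s + x) - -(-s + y)) = y := by
        simp [sub_eq_add_neg]
      rwa [h5] at h4
  refine (weight_le hBbase).trans (mk_range_le.trans ?_)
  rw [mk_prod, lift_id, lift_id]
  refine (mul_le_mul' hSc ?_).trans (mul_eq_self hκ).le
  exact (mk_subtype_le _).trans hBc'

/-! ### Characters -/

/-- The circle. -/
abbrev Tor : Type := AddCircle (1 : ℝ)

/-- A coding of the circle by finitely many labels: points with the same label are close. -/
theorem exists_code : ∃ (n : ℕ) (c : Tor → Fin n), ∀ x y, c x = c y → ‖x - y‖ < 1 / 12 := by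
  classical
  have hc : IsCompact (univ : Set Tor) := isCompact_univ
  obtain ⟨T, -, hT⟩ := hc.elim_nhds_subcover (U := fun x : Tor => Metric.ball x (1 / 24))
    (fun x _ => Metric.ball_mem_nhds x (by norm_num))
  have h1 : ∀ x : Tor, ∃ p : T, ‖x - p‖ < 1 / 24 := by
    intro x
    obtain ⟨p, hp, hxp⟩ := mem_iUnion₂.1 (hT (mem_univ x))
    refine ⟨⟨p, hp⟩, ?_⟩
    rw [Metric.mem_ball, dist_eq_norm] at hxp
    exact hxp
  choose p hp using h1
  refine ⟨Fintype.card T, fun x => Fintype.equivFin T (p x), fun x y h => ?_⟩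
  have h2 : p x = p y := (Fintype.equivFin T).injective h
  have h3 : x - y = (x - p x) - (y - p x) := by abel
  rw [h3]
  refine (norm_sub_le _ _).trans_lt ?_
  have h4 := hp x
  have h5 := hp y
  rw [← h2] at h5
  linarith

/-- A character with small values is zero. -/
theorem eq_zero_of_small {G : Type} [AddGroup G] (χ : G →+ Tor) (h : ∀ g, ‖χ g‖ < 1 / 4) :
    χ = 0 := by
  ext g
  by_contra hne
  obtain ⟨n, hn⟩ := Pool.Agent.H428R3.LMT6.exists_mul (θ := χ g) hne
  have h1 := h ((2 ^ n) • g)
  rw [map_nsmul] at h1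
  linarith

/-- The number of characters which are small on some member of a family of neighbourhoods. -/
theorem mk_chars_le {G : Type} [AddCommGroup G] [TopologicalSpace G] (hG : Prec G)
    {J : Type} (V : J → Set G) (hV : ∀ j, V j ∈ 𝓝 (0 : G)) {κ : Cardinal.{0}} (hκ : ℵ₀ ≤ κ)
    (hJ : #J ≤ κ) (S : Set (G →+ Tor)) (hS : ∀ χ ∈ S, ∃ j, ∀ v ∈ V j, ‖χ v‖ < 1 / 12) :
    #S ≤ κ := by
  classical
  obtain ⟨n, c, hc⟩ := exists_code
  choose F hF using fun j => hG (V j) (hV j)
  choose j hj using fun χ : S => hS χ χ.2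
  let code : S → Σ i : J, (F i → Fin n) := fun χ => ⟨j χ, fun f => c (χ.1 f)⟩
  have hinj : Function.Injective code := by
    intro χ ψ h
    have h1 : j χ = j ψ := congrArg Sigma.fst h
    have h2 : ∀ f ∈ F (j χ), c (χ.1 f) = c (ψ.1 f) := by
      intro f hf
      have h3 : ∀ (i : J) (u : F (j χ) → Fin n) (w : F i → Fin n) (hi : j χ = i),
          (⟨j χ, u⟩ : Σ i : J, (F i → Fin n)) = ⟨i, w⟩ → ∀ (hf' : f ∈ F i),
            u ⟨f, hf⟩ = w ⟨f, hf'⟩ := by
        rintro i u w rfl he hf'
        have := eq_of_heq (Sigma.mk.inj he).2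
        rw [this]
      exact h3 (j ψ) _ _ h1 h (h1 ▸ hf)
    apply Subtype.ext
    have h3 : χ.1 - ψ.1 = 0 := by
      apply eq_zero_of_small
      intro g
      obtain ⟨f, hf, hfg⟩ := hF (j χ) g
      have h4 : (χ.1 - ψ.1) g = (χ.1 f - ψ.1 f) + (χ.1 (-f + g) - ψ.1 (-f + g)) := by
        simp only [AddMonoidHom.sub_apply, map_add, map_neg]
        abel
      rw [h4]
      have h5 := hc _ _ (h2 f hf)
      have h6 := hj χ _ hfg
      have h7 := hj ψ (-f + g) (h1 ▸ hfg)
      have h8 := norm_add_le (χ.1 f - ψ.1 f) (χ.1 (-f + g) - ψ.1 (-f + g))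
      have h9 := norm_sub_le (χ.1 (-f + g)) (ψ.1 (-f + g))
      linarith
    exact sub_eq_zero.1 h3
  refine (mk_le_of_injective hinj).trans ?_
  rw [mk_sigma]
  refine (sum_le_sum _ (fun _ => κ) fun i => (mk_le_aleph0 (α := (F i → Fin n))).trans hκ).trans ?_
  rw [sum_const, lift_id, lift_id]
  exact (mul_le_mul' hJ le_rfl).trans (mul_eq_self hκ).le

/-- The number of continuous characters is at most the weight. -/
theorem mk_cont_chars_le {G : Type} [AddCommGroup G] [TopologicalSpace G] (hG : Prec G)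
    {κ : Cardinal.{0}} (hκ : ℵ₀ ≤ κ) (hw : weight G ≤ κ) :
    #{χ : G →+ Tor | Continuous χ} ≤ κ := by
  obtain ⟨B, hB, hBc⟩ := exists_base G
  refine mk_chars_le hG (J := {V : B // (0 : G) ∈ (V : Set G)}) (fun a => a.1)
    (fun a => (hB.isOpen a.1.2).mem_nhds a.2) hκ ((mk_subtype_le _).trans (hBc.le.trans hw)) _ ?_
  intro χ hχ
  have hχ : Continuous χ := hχ
  have h1 : {x : G | ‖χ x‖ < 1 / 12} ∈ 𝓝 (0 : G) := by
    have h2 : IsOpen {x : G | ‖χ x‖ < 1 / 12} := isOpen_lt (by fun_prop) continuous_const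
    exact h2.mem_nhds (by simp)
  obtain ⟨V, hV, h0V, hVC⟩ := hB.mem_nhds_iff.1 h1
  exact ⟨⟨⟨V, hV⟩, h0V⟩, fun v hv => hVC hv⟩

/-- In a compact group, the number of characters which vanish where those of `S` do. -/
theorem mk_vanish_le {G : Type} [AddCommGroup G] [TopologicalSpace G] [IsTopologicalAddGroup G]
    [CompactSpace G] {κ : Cardinal.{0}} (hκ : ℵ₀ ≤ κ) (S : Set (G →+ Tor))
    (hSc : ∀ χ ∈ S, Continuous χ) (hS : #S ≤ κ) :
    #{χ : G →+ Tor | Continuous χ ∧ ∀ g, (∀ ψ ∈ S, ψ g = 0) → χ g = 0} ≤ κ := by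
  classical
  have hG : Prec G := OmegaBounded.prec fun s _ => isClosed_closure.isCompact
  -- neighbourhoods given by finitely many members of `S` and a natural number
  let J := Finset S × ℕ
  let V : J → Set G := fun q => {x | ∀ ψ ∈ q.1, ‖ψ.1 x‖ < 1 / ((q.2 : ℝ) + 1)}
  have hJ : #J ≤ κ := by
    rw [mk_prod, lift_id, lift_id, mk_nat]
    have h1 : #(Finset S) ≤ κ := by
      rcases finite_or_infinite S with h | h
      · exact (mk_le_aleph0 (α := Finset S)).trans hκ
      · rw [mk_finset_of_infinite]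
        exact hS
    exact (mul_le_mul' h1 hκ).trans (mul_eq_self hκ).le
  refine mk_chars_le hG V (fun q => ?_) hκ hJ _ ?_
  · have h1 : V q = ⋂ ψ ∈ q.1, {x : G | ‖ψ.1 x‖ < 1 / ((q.2 : ℝ) + 1)} := by
      ext x
      simp [V]
    rw [h1]
    refine (Filter.biInter_finset_mem _).2 fun ψ _ => ?_
    have hψ : Continuous ψ.1 := hSc _ ψ.2
    have h2 : IsOpen {x : G | ‖ψ.1 x‖ < 1 / ((q.2 : ℝ) + 1)} :=
      isOpen_lt (by fun_prop) continuous_const
    refine h2.mem_nhds ?_
    simp only [mem_ofPred_eq, map_zero, norm_zero]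
    positivity
  · rintro χ ⟨hχc, hχ⟩
    by_contra! h
    -- closed sets with the finite intersection property
    let C : J → Set G := fun q => {x | (∀ ψ ∈ q.1, ‖ψ.1 x‖ ≤ 1 / ((q.2 : ℝ) + 1)) ∧
      1 / 12 ≤ ‖χ x‖}
    have hC : ∀ q, IsClosed (C q) := by
      intro q
      have h1 : C q = (⋂ ψ ∈ q.1, {x : G | ‖ψ.1 x‖ ≤ 1 / ((q.2 : ℝ) + 1)}) ∩
          {x | 1 / 12 ≤ ‖χ x‖} := by
        ext x
        simp [C]
      rw [h1]
      refine IsClosed.inter (isClosed_biInter fun ψ _ => ?_)
        (isClosed_le continuous_const (by fun_prop))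
      have hψ : Continuous ψ.1 := hSc _ ψ.2
      exact isClosed_le (by fun_prop) continuous_const
    have hCne : ∀ q, (C q).Nonempty := by
      intro q
      obtain ⟨v, hv, hv'⟩ := h q
      exact ⟨v, fun ψ hψ => (hv ψ hψ).le, hv'⟩
    have hdir : Directed (· ⊇ ·) C := by
      intro q r
      refine ⟨(q.1 ∪ r.1, max q.2 r.2), ?_, ?_⟩
      · rintro x ⟨hx, hx'⟩
        refine ⟨fun ψ hψ => (hx ψ (Finset.mem_union_left _ hψ)).trans ?_, hx'⟩
        apply one_div_le_one_div_of_le (by positivity)
        have : (q.2 : ℝ) ≤ ((max q.2 r.2 : ℕ) : ℝ) := by exact_mod_cast le_max_left _ _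
        simpa using this
      · rintro x ⟨hx, hx'⟩
        refine ⟨fun ψ hψ => (hx ψ (Finset.mem_union_right _ hψ)).trans ?_, hx'⟩
        apply one_div_le_one_div_of_le (by positivity)
        have : (r.2 : ℝ) ≤ ((max q.2 r.2 : ℕ) : ℝ) := by exact_mod_cast le_max_right _ _
        simpa using this
    have hneJ : Nonempty J := ⟨(∅, 0)⟩
    obtain ⟨x, hx⟩ := IsCompact.nonempty_iInter_of_directed_nonempty_isCompact_isClosed C hdir
      hCne (fun q => (hC q).isCompact) hC
    rw [mem_iInter] at hx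
    have h1 : χ x = 0 := by
      refine hχ x fun ψ hψ => ?_
      rw [← norm_eq_zero]
      refine le_antisymm (le_of_forall_pos_le_add fun ε hε => ?_) (norm_nonneg _)
      obtain ⟨n, hn⟩ := exists_nat_one_div_lt hε
      have := (hx ({⟨ψ, hψ⟩}, n)).1 ⟨ψ, hψ⟩ (Finset.mem_singleton_self _)
      simp only at this
      linarith
    have h2 := (hx (∅, 0)).2
    rw [h1, norm_zero] at h2
    norm_num at h2

/-- The weight of a precompact Hausdorff abelian group is at most the number of its continuous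
characters. -/
theorem weight_le_chars {G : Type} [AddCommGroup G] [TopologicalSpace G] [IsTopologicalAddGroup G]
    [T2Space G] (hG : Prec G) {κ : Cardinal.{0}} (hκ : ℵ₀ ≤ κ)
    (h : #{χ : G →+ Tor | Continuous χ} ≤ κ) : weight G ≤ κ := by
  let _ : UniformSpace G := IsTopologicalAddGroup.rightUniformSpace G
  have : IsUniformAddGroup G := isUniformAddGroup_of_addCommGroup
  have htb : TotallyBounded (univ : Set G) := by
    rw [totallyBounded_iff_subset_finite_iUnion_nhds_zero]
    intro U hU
    obtain ⟨F, hF⟩ := hG U hU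
    refine ⟨F, F.finite_toSet, fun g _ => ?_⟩
    obtain ⟨c, hc, hcg⟩ := hF g
    refine mem_iUnion₂.2 ⟨c, hc, ⟨-c + g, hcg, ?_⟩⟩
    simp
  let K := UniformSpace.Completion G
  have hcK : CompactSpace K := by
    refine ⟨?_⟩
    have h1 : TotallyBounded (closure (((↑) : G → K) '' univ)) :=
      (htb.image (UniformSpace.Completion.uniformContinuous_coe G)).closure
    have h2 : closure (((↑) : G → K) '' univ) = univ := by
      rw [image_univ]
      exact UniformSpace.Completion.denseRange_coe.closure_range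
    rw [h2] at h1
    exact h1.isCompact_of_isClosed isClosed_univ
  -- the characters of the completion
  let A := {χ : K →+ Tor | Continuous χ}
  have hA : #A ≤ κ := by
    refine le_trans (mk_le_of_injective (f := fun χ : A =>
      (⟨χ.1.comp UniformSpace.Completion.toCompl,
        (show Continuous χ.1 from χ.2).comp UniformSpace.Completion.continuous_toCompl⟩ :
          {χ : G →+ Tor | Continuous χ})) ?_) h
    intro χ ψ hχψ
    apply Subtype.ext
    have h1 : (χ.1 : K → Tor) = ψ.1 := by
      refine UniformSpace.Completion.denseRange_coe.equalizer χ.2 ψ.2 ?_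
      funext g
      have h2 := congrArg Subtype.val hχψ
      exact DFunLike.congr_fun h2 g
    exact DFunLike.coe_injective h1
  let Φ : K → A → Tor := fun x χ => χ.1 x
  have hΦc : Continuous Φ := continuous_pi fun χ => χ.2
  have hΦi : Function.Injective Φ := by
    intro x y hxy
    by_contra hne
    obtain ⟨χ, hχ, hχ'⟩ := Pool.Agent.H428R3.LMT6.taskT6 K (x - y) (sub_ne_zero.2 hne)
    have h1 : χ x = χ y := congrFun hxy ⟨χ, hχ⟩
    rw [map_sub, h1, sub_self, norm_zero] at hχ'
    norm_num at hχ'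
  have hΦ : IsInducing Φ := (hΦc.isClosedEmbedding hΦi).isInducing
  refine (weight_le_of_isInducing (UniformSpace.Completion.isUniformInducing_coe G).isInducing).trans
    ((weight_le_of_isInducing hΦ).trans (weight_pi κ hκ hA))

/-- An infinite compact Hausdorff group is uncountable. -/
theorem uncountable_group {G : Type} [AddCommGroup G] [TopologicalSpace G]
    [IsTopologicalAddGroup G] [CompactSpace G] [T2Space G] [Infinite G] : ¬ Countable G := by
  intro hc
  obtain ⟨g, hg⟩ := nonempty_interior_of_iUnion_of_closed (f := fun g : G => ({g} : Set G))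
    (fun g => isClosed_singleton) (eq_univ_of_forall fun g => mem_iUnion.2 ⟨g, rfl⟩)
  have h1 : IsOpen ({g} : Set G) := by
    have h2 : interior ({g} : Set G) = {g} := by
      rcases Set.subset_singleton_iff_eq.1 (interior_subset (s := ({g} : Set G))) with h | h
      · rw [h] at hg
        exact absurd hg Set.not_nonempty_empty
      · exact h
    rw [← h2]
    exact isOpen_interior
  have h2 : IsOpen ({0} : Set G) := by
    have h3 : ({0} : Set G) = (fun x => g + x) ⁻¹' {g} := by
      ext x
      simp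
    rw [h3]
    exact h1.preimage (by fun_prop)
  have : DiscreteTopology G := discreteTopology_of_isOpen_singleton_zero h2
  exact not_finite_iff_infinite.2 ‹Infinite G› finite_of_compact_of_discrete

/-- An infinite compact Hausdorff abelian group has at least continuum many elements. -/
theorem continuum_le {C : Type} [AddCommGroup C] [TopologicalSpace C] [IsTopologicalAddGroup C]
    [CompactSpace C] [T2Space C] [Infinite C] : 𝔠 ≤ #C := by
  classical
  let x : ℕ ↪ C := Infinite.natEmbedding C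
  have h1 : ∀ p : ℕ × ℕ, ∃ χ : C →+ Tor, Continuous χ ∧ (p.1 ≠ p.2 → χ (x p.1) ≠ χ (x p.2)) := by
    intro p
    by_cases hp : p.1 = p.2
    · exact ⟨0, continuous_const, fun h => absurd hp h⟩
    · have hne : x p.1 - x p.2 ≠ 0 := sub_ne_zero.2 fun h => hp (x.injective h)
      obtain ⟨χ, hχ, hχ'⟩ := Pool.Agent.H428R3.LMT6.taskT6 C _ hne
      refine ⟨χ, hχ, fun _ h => ?_⟩
      rw [map_sub, h, sub_self, norm_zero] at hχ'
      norm_num at hχ'
  choose χ hχ hχ' using h1
  let Φ : C →+ (ℕ × ℕ → Tor) := AddMonoidHom.mk' (fun z p => χ p z) (fun a b => by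
    funext p
    simp)
  have hΦ : Continuous Φ := continuous_pi fun p => hχ p
  have hinj : Function.Injective fun n => Φ (x n) := by
    intro m n hmn
    by_contra hne
    exact hχ' (m, n) hne (congrFun hmn (m, n))
  have hR : IsCompact (range Φ) := isCompact_range hΦ
  have : CompactSpace Φ.range := isCompact_iff_compactSpace.1 hR
  have : Infinite Φ.range := Infinite.of_injective (fun n => (⟨Φ (x n), ⟨x n, rfl⟩⟩ : Φ.range))
    (fun m n h => hinj (congrArg Subtype.val h))
  have hunc : ¬ (range Φ).Countable := fun h => uncountable_group (G := Φ.range) h.to_subtype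
  obtain ⟨f, hf, -, hfi⟩ := hR.isClosed.exists_nat_bool_injection_of_not_countable hunc
  have h2 : #(ℕ → Bool) ≤ #(range Φ) :=
    mk_le_of_injective (f := fun s => (⟨f s, hf (mem_range_self s)⟩ : range Φ))
      (fun s t h => hfi (congrArg Subtype.val h))
  have h3 : #(ℕ → Bool) = 𝔠 := by simp
  rw [← h3]
  exact h2.trans mk_range_le

/-- A compact abelian group with an uncountable set `A` of continuous characters has at least
`2 ^ #A` elements. -/
theorem two_power_le {C : Type} [AddCommGroup C] [TopologicalSpace C] [IsTopologicalAddGroup C]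
    [CompactSpace C] (A : Set (C →+ Tor)) (hA : ∀ χ ∈ A, Continuous χ) (hunc : ℵ₀ < #A) :
    2 ^ #A ≤ #C := by
  classical
  set μ := #A with hμ
  let I : Type := μ.ord.ToType
  have hI : #I = μ := by simp [I]
  have hIio : ∀ i : I, #(Iio i) < μ := fun i => by
    have := Cardinal.mk_Iio_lt i (by simp [I])
    rwa [hI] at this
  have hAne : A.Nonempty := by
    rw [← nonempty_coe_sort, ← mk_ne_zero_iff]
    exact (zero_le.trans_lt hunc).ne'
  obtain ⟨χ₀, hχ₀⟩ := hAne
  -- the characters `χ i`
  let P : ∀ i : I, (∀ j, j < i → (C →+ Tor)) → (C →+ Tor) → Prop := fun i f ψ =>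
    ψ ∈ A ∧ ∃ x, (∀ j (hj : j < i), f j hj x = 0) ∧ ψ x ≠ 0
  let g : ∀ i : I, (∀ j, j < i → (C →+ Tor)) → (C →+ Tor) := fun i f =>
    if h : ∃ ψ, P i f ψ then h.choose else χ₀
  let χ : I → (C →+ Tor) := fun i =>
    (wellFounded_lt (α := I)).fix (C := fun _ => C →+ Tor) g i
  have hχ : ∀ i, χ i = g i fun j _ => χ j := fun i =>
    (wellFounded_lt (α := I)).fix_eq (C := fun _ => C →+ Tor) g i
  have hχA : ∀ i, χ i ∈ A := by
    intro i
    rw [hχ i]
    by_cases h : ∃ ψ, P i (fun j _ => χ j) ψ
    · have h1 : g i (fun j _ => χ j) = h.choose := dif_pos h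
      rw [h1]
      exact h.choose_spec.1
    · have h1 : g i (fun j _ => χ j) = χ₀ := dif_neg h
      rw [h1]
      exact hχ₀
  have hx : ∀ i, ∃ x, (∀ j < i, χ j x = 0) ∧ χ i x ≠ 0 := by
    intro i
    have h : ∃ ψ, P i (fun j _ => χ j) ψ := by
      by_contra! h
      have h1 : A ⊆ {ψ : C →+ Tor | Continuous ψ ∧ ∀ x, (∀ φ ∈ χ '' Iio i, φ x = 0) → ψ x = 0} := by
        intro ψ hψ
        refine ⟨hA ψ hψ, fun x hx => ?_⟩
        by_contra hne
        exact h ψ ⟨hψ, x, fun j hj => hx _ ⟨j, hj, rfl⟩, hne⟩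
      have h2 := mk_vanish_le (κ := max #(Iio i) ℵ₀) (le_max_right _ _) (χ '' Iio i) (by
        rintro _ ⟨j, -, rfl⟩
        exact hA _ (hχA j)) (mk_image_le.trans (le_max_left _ _))
      have h3 := (mk_le_mk_of_subset h1).trans h2
      exact absurd h3 (not_le.2 (max_lt (hIio i) hunc))
    have h1 : χ i = h.choose := by
      rw [hχ i]
      exact dif_pos h
    rw [h1]
    exact h.choose_spec.2
  choose x hx1 hx2 using hx
  -- the tree
  let Q : ∀ i : I, (∀ j, j < i → Tor) → Set Tor := fun i f =>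
    {v | ∃ z : C, (∀ j (hj : j < i), χ j z = f j hj) ∧ χ i z = v}
  let v : Bool → ∀ i : I, (∀ j, j < i → Tor) → Tor := fun b i f =>
    if h : ∃ p : Tor × Tor, p.1 ∈ Q i f ∧ p.2 ∈ Q i f ∧ p.1 ≠ p.2 then
      (if b then h.choose.1 else h.choose.2) else 0
  let y : (I → Bool) → I → Tor := fun S i =>
    (wellFounded_lt (α := I)).fix (C := fun _ => Tor) (fun i f => v (S i) i f) i
  have hy : ∀ S i, y S i = v (S i) i fun j _ => y S j := fun S i =>
    (wellFounded_lt (α := I)).fix_eq (C := fun _ => Tor) (fun i f => v (S i) i f) i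
  -- one step
  have hstep : ∀ S i, (∃ z, ∀ j < i, χ j z = y S j) →
      (∃ z, ∀ j ≤ i, χ j z = y S j) ∧
        v true i (fun j _ => y S j) ≠ v false i (fun j _ => y S j) := by
    rintro S i ⟨z, hz⟩
    have h : ∃ p : Tor × Tor, p.1 ∈ Q i (fun j _ => y S j) ∧ p.2 ∈ Q i (fun j _ => y S j) ∧
        p.1 ≠ p.2 := by
      refine ⟨(χ i z, χ i (z + x i)), ⟨z, hz, rfl⟩, ⟨z + x i, fun j hj => ?_, rfl⟩, ?_⟩
      · rw [map_add, hx1 i j hj, add_zero]
        exact hz j hj
      · show χ i z ≠ χ i (z + x i)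
        rw [map_add]
        intro h
        exact hx2 i (left_eq_add.1 h)
    have hv : ∀ b, v b i (fun j _ => y S j) = if b then h.choose.1 else h.choose.2 := fun b =>
      dif_pos h
    have hvQ : ∀ b, v b i (fun j _ => y S j) ∈ Q i (fun j _ => y S j) := by
      intro b
      rw [hv]
      cases b
      · exact h.choose_spec.2.1
      · exact h.choose_spec.1
    refine ⟨?_, ?_⟩
    · obtain ⟨w, hw, hw'⟩ := hvQ (S i)
      refine ⟨w, fun j hj => ?_⟩
      rcases hj.lt_or_eq with h | rfl
      · exact hw j h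
      · rw [hy S j]
        exact hw'
    · rw [hv, hv]
      exact h.choose_spec.2.2
  -- limits
  have hlim : ∀ (S : I → Bool) (D : Set I), (∀ i ∈ D, ∃ z, ∀ j ≤ i, χ j z = y S j) →
      ∃ z, ∀ i ∈ D, χ i z = y S i := by
    intro S D hD
    rcases D.eq_empty_or_nonempty with rfl | hne
    · exact ⟨0, fun i hi => absurd hi (notMem_empty i)⟩
    have : Nonempty D := hne.to_subtype
    let Z : D → Set C := fun i => {z | ∀ j ≤ (i : I), χ j z = y S j}
    have hZ : ∀ i, IsClosed (Z i) := by
      intro i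
      have h1 : Z i = ⋂ j, ⋂ (_ : j ≤ (i : I)), {z | χ j z = y S j} := by
        ext z
        simp [Z]
      rw [h1]
      refine isClosed_iInter fun j => isClosed_iInter fun _ => ?_
      exact isClosed_eq (hA _ (hχA j)) continuous_const
    obtain ⟨z, hz⟩ := IsCompact.nonempty_iInter_of_directed_nonempty_isCompact_isClosed Z (by
        intro i i'
        rcases le_total (i : I) i' with h | h
        · exact ⟨i', fun z hz j hj => hz j (hj.trans h), subset_rfl⟩
        · exact ⟨i, subset_rfl, fun z hz j hj => hz j (hj.trans h)⟩)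
      (fun i => hD i i.2) (fun i => (hZ i).isCompact) hZ
    rw [mem_iInter] at hz
    exact ⟨z, fun i hi => hz ⟨i, hi⟩ i le_rfl⟩
  have hall : ∀ (S : I → Bool) (i : I), ∃ z, ∀ j ≤ i, χ j z = y S j := by
    intro S i
    induction i using WellFoundedLT.induction with
    | ind i ih => exact (hstep S i (hlim S (Iio i) fun j hj => ih j hj)).1
  choose z hz using fun S => hlim S univ fun i _ => hall S i
  have hinj : Function.Injective z := by
    intro S T hST
    by_contra hne
    have hex : {i | S i ≠ T i}.Nonempty := by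
      obtain ⟨i, hi⟩ := Function.ne_iff.1 hne
      exact ⟨i, hi⟩
    let i := (wellFounded_lt (α := I)).min _ hex
    have hi : S i ≠ T i := (wellFounded_lt (α := I)).min_mem _ hex
    have hlt : ∀ j < i, S j = T j := fun j hj => by
      by_contra h
      exact (wellFounded_lt (α := I)).not_lt_min {i | S i ≠ T i} (x := j) h hj
    have hyy : ∀ j < i, y S j = y T j := by
      intro j
      induction j using WellFoundedLT.induction with
      | ind j ih =>
        intro hj
        rw [hy S j, hy T j, hlt j hj]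
        congr 1
        funext k hk
        exact ih k hk (hk.trans hj)
    have h1 : y S i ≠ y T i := by
      rw [hy S i, hy T i]
      have h2 : (fun j (_ : j < i) => y T j) = fun j (_ : j < i) => y S j := by
        funext j hj
        exact (hyy j hj).symm
      rw [h2]
      have h3 := (hstep S i (hlim S (Iio i) fun j _ => hall S j)).2
      cases hSi : S i <;> cases hTi : T i
      · exact absurd (hSi.trans hTi.symm) hi
      · exact fun h => h3 h.symm
      · exact h3
      · exact absurd (hSi.trans hTi.symm) hi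
    apply h1
    rw [← hz S i (mem_univ i), ← hz T i (mem_univ i), hST]
  have h1 := mk_le_of_injective hinj
  have h2 : #(I → Bool) = 2 ^ μ := by
    simp [hI]
  rwa [h2] at h1

end Pool.Agent.Q213.Wgt
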